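import Pool.Agent.H843.Stmts

/-!
Step C: the splitting `D = H^∞ + QD`.
-/

set_option autoImplicit false

namespace Pool.Agent.H843

open MeasureTheory Filter Topology Metric Set
open scoped ComplexConjugate ENNReal
open Pool.Agent.Helper34.Dg
open Pool.Agent.H720R2.HP (WD db)

/-! ### the space `H²` -/

/-- product of two elements of `H²` -/
lemma H2mul_Aak {f g : T → ℂ} (hf : f ∈ H2) (hg : g ∈ H2) (n : ℕ) (hn : 0 < n) :
    ∫ t, f t * g t * e n t ∂mu = 0 := by
  have hge : MemLp (fun t => g t * e n t) 2 mu := by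
    refine hg.1.of_le_mul (c := 1) (hg.1.1.mul (e_aesm _)) (Eventually.of_forall fun t => ?_)
    rw [norm_mul, e_norm]
    linarith
  have hcf : MemLp (fun t => conj (f t)) 2 mu := by
    refine ⟨Complex.continuous_conj.comp_aestronglyMeasurable hf.1.1, ?_⟩
    have : eLpNorm (fun t => conj (f t)) 2 mu = eLpNorm f 2 mu :=
      eLpNorm_congr_norm_ae (Eventually.of_forall fun t => by simp)
    rw [this]
    exact hf.1.2
  have h := parseval2 hcf hge
  simp only [fc_conj, fc_mul_e, Complex.conj_conj] at h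
  have e1 : ∀ t, f t * g t * e n t = f t * (g t * e n t) := fun t => by ring
  simp_rw [e1]
  refine h.unique ?_
  convert hasSum_zero with i
  rcases lt_or_ge (-i) 0 with h1 | h1
  · rw [hf.2 _ h1, zero_mul]
  · rw [hg.2 _ (by omega), mul_zero]

lemma H2of_Aak {f : T → ℂ} (hf : f ∈ HInf) : f ∈ H2 := ⟨memLp2 hf.1, hf.2⟩

lemma bddmul_Aak {f g : T → ℂ} (hf : MemLp f 2 mu) (hg : MemLp g ∞ mu) :
    MemLp (fun t => f t * g t) 2 mu := by
  obtain ⟨C, hC0, hC⟩ := exists_bound hg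
  refine hf.of_le_mul (c := C) (hf.1.mul hg.1) ?_
  filter_upwards [hC] with t ht
  rw [norm_mul, mul_comm]
  exact mul_le_mul_of_nonneg_right ht (norm_nonneg _)

/-- criterion for membership in `H²` -/
lemma H2iff_Aak {f : T → ℂ} (hf : MemLp f 2 mu)
    (h : ∀ n : ℕ, 0 < n → ∫ t, f t * e n t ∂mu = 0) : f ∈ H2 := by
  refine ⟨hf, fun n hn => ?_⟩
  have := h (-n).toNat (by omega)
  rw [Int.toNat_of_nonneg (by omega), int_mul_e, neg_neg] at this
  exact this

/-- `H²` times `H^∞` -/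
lemma H2mulb_Aak {f g : T → ℂ} (hf : f ∈ H2) (hg : g ∈ HInf) : (fun t => f t * g t) ∈ H2 :=
  H2iff_Aak (bddmul_Aak hf.1 hg.1) fun n hn => H2mul_Aak hf (H2of_Aak hg) n hn

lemma H2int_Aak {f : T → ℂ} (hf : f ∈ H2) : Integrable f mu := hf.1.integrable (by norm_num)

lemma L2mul_Aak {f g : T → ℂ} (hf : MemLp f 2 mu) (hg : MemLp g 2 mu) :
    Integrable (fun t => f t * g t) mu := hf.integrable_mul hg

/-- `H²`: `∫ f e_n / (1 - a e_{-1}) = a^n ext f a` -/
lemma int_ck_Aak {f : T → ℂ} (hf : f ∈ H2) {a : ℂ} (ha : ‖a‖ < 1) (n : ℕ) :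
    ∫ t, f t * e n t * ck a t ∂mu = a ^ n * ext f a := by
  have h := int_ck (H2int_Aak hf) ha n
  have h2 := (hasSum_nat_add_iff' (f := fun m : ℕ => a ^ m * fourierCoeff f ((m : ℤ) - n)) n).2 h
  have h3 : ∑ i ∈ Finset.range n, a ^ i * fourierCoeff f ((i : ℤ) - n) = 0 := by
    apply Finset.sum_eq_zero
    intro i hi
    rw [hf.2 _ (by have := Finset.mem_range.1 hi; omega), mul_zero]
  rw [h3, sub_zero] at h2
  have h4 := (hasSum_ext (H2int_Aak hf) ha).mul_left (a ^ n)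
  refine h2.unique ?_
  have e5 : (fun m : ℕ => a ^ (m + n) * fourierCoeff f (((m + n : ℕ) : ℤ) - n)) =
      fun i : ℕ => a ^ n * (fourierCoeff f i * a ^ i) := by
    funext m
    rw [pow_add, show (((m + n : ℕ) : ℤ) - n) = m by push_cast; ring]
    ring
  rw [e5]; exact h4

/-- the Poisson integral of a product -/
lemma int_pk_Aak {f g : T → ℂ} (hf : f ∈ H2) (hg : g ∈ H2) {z : ℂ} (hz : ‖z‖ < 1) :
    ∫ t, f t * g t * (pk z t : ℂ) ∂mu = ext f z * ext g z := by
  have hz' : ‖conj z‖ < 1 := by simpa using hz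
  have bc := bdd_cont (ck_cont hz)
  -- the function `k' = (f - ext f z) ck z e_{-1}` is in `H²`
  have hb : MemLp (fun t => (f t - ext f z)) 2 mu := hf.1.sub (memLp_const _)
  have hk2 : MemLp (fun t => (f t - ext f z) * ck z t * e (-1) t) 2 mu :=
    bddmul_Aak (bddmul_Aak hb bc) (bdd_e _)
  have hk : (fun t => (f t - ext f z) * ck z t * e (-1) t) ∈ H2 := by
    refine H2iff_Aak hk2 fun n hn => ?_
    obtain ⟨m, rfl⟩ : ∃ m, n = m + 1 := ⟨n - 1, by omega⟩
    have e1 : ∀ t, (f t - ext f z) * ck z t * e (-1) t * e ((m + 1 : ℕ) : ℤ) t =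
        f t * e m t * ck z t - ext f z * ((1 : ℂ) * e m t * ck z t) := by
      intro t
      have : e ((m + 1 : ℕ) : ℤ) t = e 1 t * e m t := by rw [← e_add]; congr 2; push_cast; ring
      rw [this]
      linear_combination ((f t - ext f z) * ck z t * e m t) * (e_mul_neg t)
    simp_rw [e1]
    have i1 : Integrable (fun t => f t * e m t * ck z t) mu :=
      (bddmul_Aak (bddmul_Aak hf.1 (bdd_e m)) bc).integrable (by norm_num)
    have i2 : Integrable (fun t => ext f z * ((1 : ℂ) * e m t * ck z t)) mu :=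
      (cont_int ((continuous_const.mul (e_cont m)).mul (ck_cont hz))).const_mul _
    rw [integral_sub i1 i2, integral_const_mul, int_ck_Aak hf hz,
      int_ck_HInf (const_HInf 1) hz, ext_one]
    ring
  have h0 := H2mul_Aak hg hk 1 one_pos
  have hq : (fun t => g t * qk (conj z) t) ∈ H2 := H2mulb_Aak hg (qk_HInf hz')
  have h1 := H2mul_Aak hf hq 1 one_pos
  have e2 : ∀ t, f t * g t * (pk z t : ℂ) = ext f z * (g t * ck z t) +
      (g t * ((f t - ext f z) * ck z t * e (-1) t)) * e ((1 : ℕ) : ℤ) t +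
      conj z * (f t * (g t * qk (conj z) t) * e ((1 : ℕ) : ℤ) t) := by
    intro t
    rw [pk_eq hz]
    have := e_mul_neg t
    simp only [Nat.cast_one]
    linear_combination (-(g t * (f t - ext f z) * ck z t)) * this
  simp_rw [e2]
  have i1 : Integrable (fun t => ext f z * (g t * ck z t)) mu :=
    ((bddmul_Aak hg.1 bc).integrable (by norm_num)).const_mul _
  have i2 : Integrable (fun t => (g t * ((f t - ext f z) * ck z t * e (-1) t)) *
      e ((1 : ℕ) : ℤ) t) mu := by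
    have h3 := L2mul_Aak hg.1 (bddmul_Aak hk2 (bdd_e ((1 : ℕ) : ℤ)))
    refine h3.congr (Eventually.of_forall fun t => ?_)
    simp only []
    ring
  have i3 : Integrable (fun t => conj z * (f t * (g t * qk (conj z) t) * e ((1 : ℕ) : ℤ) t)) mu := by
    have h3 := L2mul_Aak hf.1 (bddmul_Aak hq.1 (bdd_e ((1 : ℕ) : ℤ)))
    refine (h3.congr (Eventually.of_forall fun t => ?_)).const_mul _
    simp only []
    ring
  have i12 : Integrable (fun t => ext f z * (g t * ck z t) +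
      (g t * ((f t - ext f z) * ck z t * e (-1) t)) * e ((1 : ℕ) : ℤ) t) mu := i1.add i2
  rw [integral_add i12 i3, integral_add i1 i2, h0, integral_const_mul, integral_const_mul, h1,
    int_ck_ext (H2int_Aak hg) hz]
  ring

/-! ### dilations -/

lemma norm_fc_Aak {f : T → ℂ} (hf : Integrable f mu) (n : ℤ) :
    ‖fourierCoeff f n‖ ≤ ∫ t, ‖f t‖ ∂mu := by
  rw [fc_def]
  refine norm_integral_le_of_norm_le hf.norm (Eventually.of_forall fun t => ?_)
  rw [norm_mul, e_norm, one_mul]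

lemma ext_diff_Aak {f : T → ℂ} (hf : Integrable f mu) :
    DifferentiableOn ℂ (ext f) (Metric.ball 0 1) := by
  have hM0 : 0 ≤ ∫ t, ‖f t‖ ∂mu := integral_nonneg fun t => norm_nonneg _
  intro z hz
  have hz' : ‖z‖ < 1 := by simpa using hz
  obtain ⟨r, hr1, hr2⟩ := exists_between hz'
  have hr0 : 0 ≤ r := le_trans (norm_nonneg z) hr1.le
  have h1 : DifferentiableOn ℂ (ext f) (Metric.ball 0 r) := by
    have h2 : Summable fun n : ℕ => (∫ t, ‖f t‖ ∂mu) * r ^ n :=
      (summable_geometric_of_lt_one hr0 hr2).mul_left _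
    refine Complex.differentiableOn_tsum_of_summable_norm (u := fun n : ℕ => (∫ t, ‖f t‖ ∂mu) * r ^ n) h2 ?_
      Metric.isOpen_ball ?_
    · intro n
      exact (differentiableOn_const _).mul (differentiableOn_pow n)
    · intro n w hw
      have hw' : ‖w‖ < r := by simpa using hw
      rw [norm_mul, norm_pow]
      exact mul_le_mul (norm_fc_Aak hf n) (pow_le_pow_left₀ (norm_nonneg _) hw'.le n)
        (by positivity) hM0
  exact (h1.differentiableAt (Metric.isOpen_ball.mem_nhds (by simpa using hr1))).differentiableWithinAt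

lemma dilate_cont_Aak {f : T → ℂ} (hf : Integrable f mu) {r : ℝ} (hr0 : 0 ≤ r) (hr1 : r < 1) :
    Continuous fun t => ext f (r * e 1 t) := by
  have h1 : ContinuousOn (ext f) (Metric.ball 0 1) := (ext_diff_Aak hf).continuousOn
  refine h1.comp_continuous (continuous_const.mul (e_cont 1)) fun t => ?_
  simp only [Metric.mem_ball, dist_zero_right]
  rw [norm_mul, e_norm, Complex.norm_real, Real.norm_of_nonneg hr0, mul_one]; exact hr1

lemma fc_dilate_Aak {f : T → ℂ} (hint : Integrable f mu) {r : ℝ} (hr0 : 0 ≤ r) (hr1 : r < 1) (n : ℤ) :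
    fourierCoeff (fun t => ext f (r * e 1 t)) n =
      if 0 ≤ n then fourierCoeff f n * (r : ℂ) ^ n.toNat else 0 := by
  have hM0 : 0 ≤ ∫ t, ‖f t‖ ∂mu := integral_nonneg fun t => norm_nonneg _
  have hsum : Summable fun k : ℕ => (∫ t, ‖f t‖ ∂mu) * r ^ k :=
    (summable_geometric_of_lt_one hr0 hr1).mul_left _
  have hn1 : ∀ t, ‖(r : ℂ) * e 1 t‖ < 1 := fun t => by
    rw [norm_mul, e_norm, Complex.norm_real, Real.norm_of_nonneg hr0, mul_one]; exact hr1
  have key := hasSum_integral_of_dominated_convergence (μ := mu)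
    (F := fun (k : ℕ) t => e (-n) t * (fourierCoeff f k * (r * e 1 t) ^ k))
    (f := fun t => e (-n) t * ext f (r * e 1 t))
    (fun (k : ℕ) _ => (∫ t, ‖f t‖ ∂mu) * r ^ k) ?_ ?_ ?_ ?_ ?_
  · rw [fc_def]
    refine key.unique ?_
    have e1 : ∀ k : ℕ, ∫ t, e (-n) t * (fourierCoeff f k * (r * e 1 t) ^ k) ∂mu =
        if (k : ℤ) = n then fourierCoeff f k * (r : ℂ) ^ k else 0 := by
      intro k
      have e2 : ∀ t, e (-n) t * (fourierCoeff f k * (r * e 1 t) ^ k) =
          (fourierCoeff f k * (r : ℂ) ^ k) * e (k - n) t := by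
        intro t
        rw [show (k : ℤ) - n = -n + k by ring, e_add, e_nat, mul_pow]; ring
      simp_rw [e2]
      rw [integral_const_mul, int_e]
      by_cases h : (k : ℤ) = n
      · rw [if_pos h, if_pos (by omega), mul_one]
      · rw [if_neg h, if_neg (by omega), mul_zero]
    simp_rw [e1]
    by_cases h : 0 ≤ n
    · rw [if_pos h]
      have e3 : (fun k : ℕ => if (k : ℤ) = n then fourierCoeff f k * (r : ℂ) ^ k else 0) =
          fun k : ℕ => if k = n.toNat then fourierCoeff f n * (r : ℂ) ^ n.toNat else 0 := by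
        funext k
        by_cases hk : k = n.toNat
        · rw [if_pos hk, if_pos (by omega), hk, Int.toNat_of_nonneg h]
        · rw [if_neg hk, if_neg (by omega)]
      rw [e3]
      exact hasSum_ite_eq _ _
    · rw [if_neg h]
      convert hasSum_zero with k
      rw [if_neg (by omega)]
  · intro k
    exact ((e_cont (-n)).mul (continuous_const.mul ((continuous_const.mul
      (e_cont 1)).pow k))).aestronglyMeasurable
  · intro k
    refine Eventually.of_forall fun t => ?_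
    rw [norm_mul, norm_mul, norm_pow, norm_mul, e_norm, e_norm, Complex.norm_real,
      Real.norm_of_nonneg hr0, mul_one, one_mul]
    exact mul_le_mul_of_nonneg_right (norm_fc_Aak hint _) (by positivity)
  · exact Eventually.of_forall fun t => hsum
  · exact integrable_const _
  · refine Eventually.of_forall fun t => ?_
    exact (hasSum_ext hint (hn1 t)).mul_left _

/-- `L²` convergence of dilations -/
lemma dilate_Aak {f : T → ℂ} (hf : f ∈ H2) :
    Tendsto (fun r : ℝ => ∫ t, ‖f t - ext f (r * e 1 t)‖ ^ 2 ∂mu) (𝓝[<] 1) (𝓝 0) := by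
  have hf2 := hf.1
  have hpar := parseval hf2
  have htend : Tendsto (fun r : ℝ => ∑' n : ℤ, ‖fourierCoeff f n‖ ^ 2 * (1 - r ^ n.toNat) ^ 2)
      (𝓝[<] 1) (𝓝 (∑' _n : ℤ, (0 : ℝ))) := by
    apply tendsto_tsum_of_dominated_convergence (bound := fun n : ℤ => ‖fourierCoeff f n‖ ^ 2)
    · exact hpar.summable
    · intro n
      have h1 : Tendsto (fun r : ℝ => ‖fourierCoeff f n‖ ^ 2 * (1 - r ^ n.toNat) ^ 2) (𝓝 1)
          (𝓝 (‖fourierCoeff f n‖ ^ 2 * (1 - 1 ^ n.toNat) ^ 2)) :=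
        Continuous.tendsto (by fun_prop) 1
      have h2 := h1.mono_left (nhdsWithin_le_nhds (s := Set.Iio 1))
      simpa using h2
    · have h3 : ∀ᶠ r : ℝ in 𝓝[<] 1, 0 < r := by
        have : ∀ᶠ r : ℝ in 𝓝 1, 0 < r := lt_mem_nhds (by norm_num)
        exact this.filter_mono nhdsWithin_le_nhds
      filter_upwards [h3, self_mem_nhdsWithin] with r hr0 hr1 n
      have hr1' : r < 1 := hr1
      have h4 : r ^ n.toNat ≤ 1 := pow_le_one₀ hr0.le hr1'.le
      have h5 : 0 < r ^ n.toNat := pow_pos hr0 _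
      rw [Real.norm_of_nonneg (by positivity)]
      have h6 : (1 - r ^ n.toNat) ^ 2 ≤ 1 := by nlinarith
      have h7 : 0 ≤ ‖fourierCoeff f n‖ ^ 2 := by positivity
      nlinarith
  rw [tsum_zero] at htend
  refine htend.congr' ?_
  have h3 : ∀ᶠ r : ℝ in 𝓝[<] 1, 0 < r := by
    have : ∀ᶠ r : ℝ in 𝓝 1, 0 < r := lt_mem_nhds (by norm_num)
    exact this.filter_mono nhdsWithin_le_nhds
  filter_upwards [h3, self_mem_nhdsWithin] with r hr0 hr1
  have hr1' : r < 1 := hr1
  have hcont := dilate_cont_Aak (H2int_Aak hf) hr0.le hr1'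
  have hm2 : MemLp (fun t => ext f (r * e 1 t)) 2 mu := memLp2 (bdd_cont hcont)
  have hsub : MemLp (fun t => f t - ext f (r * e 1 t)) 2 mu := hf2.sub hm2
  have hp := parseval hsub
  have e1 : ∀ n : ℤ, ‖fourierCoeff (fun t => f t - ext f (r * e 1 t)) n‖ ^ 2 =
      ‖fourierCoeff f n‖ ^ 2 * (1 - r ^ n.toNat) ^ 2 := by
    intro n
    have e2 : fourierCoeff (fun t => f t - ext f (r * e 1 t)) n =
        fourierCoeff f n - fourierCoeff (fun t => ext f (r * e 1 t)) n := by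
      rw [fc_def, fc_def, fc_def, ← integral_sub]
      · congr 1; funext t; ring
      · exact (H2int_Aak hf).bdd_mul (c := 1) (e_aesm _)
          (Eventually.of_forall fun t => (e_norm _ t).le)
      · exact memLp_integrable (bdd_mul (bdd_e _) (bdd_cont hcont))
    rw [e2, fc_dilate_Aak (H2int_Aak hf) hr0.le hr1']
    by_cases hn : 0 ≤ n
    · rw [if_pos hn]
      have : fourierCoeff f n - fourierCoeff f n * (r : ℂ) ^ n.toNat =
          fourierCoeff f n * (((1 - r ^ n.toNat : ℝ)) : ℂ) := by push_cast; ring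
      rw [this, norm_mul, mul_pow, Complex.norm_real, Real.norm_eq_abs, sq_abs]
    · rw [if_neg hn, hf.2 n (by omega)]
      simp
  simp_rw [e1] at hp
  exact hp.tsum_eq

/-- `Re (k q) ≥ 0` extends to the disc -/
lemma re_nonneg_Aak {k q : T → ℂ} (hk : k ∈ H2) (hq : q ∈ H2)
    (h : ∀ᵐ t ∂mu, 0 ≤ (k t * q t).re) {z : ℂ} (hz : ‖z‖ < 1) :
    0 ≤ (ext k z * ext q z).re := by
  have hi : Integrable (fun t => k t * q t * (pk z t : ℂ)) mu := by
    obtain ⟨C, hC0, hC⟩ := exists_bound (bdd_cont (Complex.continuous_ofReal.comp (pk_cont hz)))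
    exact (L2mul_Aak hk.1 hq.1).mul_bdd (c := C)
      (Complex.continuous_ofReal.comp (pk_cont hz)).aestronglyMeasurable hC
  rw [← int_pk_Aak hk hq hz]
  have h1 : (∫ t, k t * q t * (pk z t : ℂ) ∂mu).re = ∫ t, (k t * q t * (pk z t : ℂ)).re ∂mu :=
    (integral_re hi).symm
  rw [h1]
  refine integral_nonneg_of_ae ?_
  filter_upwards [h] with t ht
  simp only [Pi.zero_apply]
  rw [Complex.re_mul_ofReal]
  exact mul_nonneg ht (pk_nonneg hz t)

lemma norm_ge_Aak {w : ℂ} {ε : ℝ} (hw : 0 ≤ w.re) (_hε : 0 < ε) : ε ≤ ‖w + ε‖ := by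
  have h1 := Complex.re_le_norm (w + ε)
  rw [Complex.add_re, Complex.ofReal_re] at h1
  linarith

/-- the inverse of `k q + ε` is bounded analytic -/
lemma inv_Aak {k q : T → ℂ} (hk : k ∈ H2) (hq : q ∈ H2)
    (h : ∀ᵐ t ∂mu, 0 ≤ (k t * q t).re) {ε : ℝ} (hε : 0 < ε) :
    (fun t => (k t * q t + ε)⁻¹) ∈ HInf := by
  have hm : AEStronglyMeasurable (fun t => (k t * q t + ε)⁻¹) mu :=
    (((hk.1.1.mul hq.1.1).add aestronglyMeasurable_const).aemeasurable.inv).aestronglyMeasurable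
  have hb : MemLp (fun t => (k t * q t + ε)⁻¹) ∞ mu := by
    refine memLp_top_of_bound hm ε⁻¹ ?_
    filter_upwards [h] with t ht
    rw [norm_inv]
    exact inv_anti₀ hε (norm_ge_Aak ht hε)
  rw [mem_HInf_iff hb]
  intro n hn
  -- the dilations
  have hF : DifferentiableOn ℂ (fun z => (ext k z * ext q z + ε)⁻¹) (Metric.ball 0 1) := by
    refine DifferentiableOn.inv (((ext_diff_Aak (H2int_Aak hk)).mul
      (ext_diff_Aak (H2int_Aak hq))).add_const _) fun z hz => ?_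
    have hz' : ‖z‖ < 1 := by simpa using hz
    have h1 := norm_ge_Aak (re_nonneg_Aak hk hq h hz') hε
    intro h0
    rw [h0, norm_zero] at h1
    linarith
  have hk1 := dilate_Aak hk
  have hq1 := dilate_Aak hq
  set A := ∫ t, ‖k t‖ ^ 2 ∂mu with hA
  set B := ∫ t, ‖q t‖ ^ 2 ∂mu with hB
  have hA0 : 0 ≤ A := integral_nonneg fun t => by positivity
  have hB0 : 0 ≤ B := integral_nonneg fun t => by positivity
  have key : ∀ δ : ℝ, 0 < δ → ‖∫ t, (k t * q t + ε)⁻¹ * e n t ∂mu‖ ≤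
      (ε ^ 2)⁻¹ * (δ * (A + B + 1)) := by
    intro δ hδ
    have h2 : ∀ᶠ r : ℝ in 𝓝[<] 1,
        (δ⁻¹ + 1) * ((∫ t, ‖k t - ext k (r * e 1 t)‖ ^ 2 ∂mu) +
          ∫ t, ‖q t - ext q (r * e 1 t)‖ ^ 2 ∂mu) < δ := by
      have h3 : Tendsto (fun r : ℝ => (δ⁻¹ + 1) * ((∫ t, ‖k t - ext k (r * e 1 t)‖ ^ 2 ∂mu) +
          ∫ t, ‖q t - ext q (r * e 1 t)‖ ^ 2 ∂mu)) (𝓝[<] 1) (𝓝 ((δ⁻¹ + 1) * (0 + 0))) :=
        (hk1.add hq1).const_mul _
      rw [add_zero, mul_zero] at h3
      exact h3.eventually (gt_mem_nhds hδ)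
    have h3 : ∀ᶠ r : ℝ in 𝓝[<] 1, 0 < r := by
      have : ∀ᶠ r : ℝ in 𝓝 1, 0 < r := lt_mem_nhds (by norm_num)
      exact this.filter_mono nhdsWithin_le_nhds
    obtain ⟨r, ⟨hr0, hrs⟩, hr1⟩ := ((h3.and h2).and self_mem_nhdsWithin).exists
    have hr1' : r < 1 := hr1
    have hz := int_circle hF hr0.le hr1' n hn
    have hkc := dilate_cont_Aak (H2int_Aak hk) hr0.le hr1'
    have hqc := dilate_cont_Aak (H2int_Aak hq) hr0.le hr1'
    have hzn : ∀ t : T, ‖(r : ℂ) * e 1 t‖ < 1 := fun t => by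
      rw [norm_mul, e_norm, Complex.norm_real, Real.norm_of_nonneg hr0.le, mul_one]; exact hr1'
    have hn1 : ∀ t : T, ε ≤ ‖ext k (r * e 1 t) * ext q (r * e 1 t) + ε‖ := fun t =>
      norm_ge_Aak (re_nonneg_Aak hk hq h (hzn t)) hε
    have hc : Continuous fun t : T => (ext k (r * e 1 t) * ext q (r * e 1 t) + (ε : ℂ))⁻¹ := by
      refine ((hkc.mul hqc).add continuous_const).inv₀ fun t h0 => ?_
      have := hn1 t
      have h0' : ext k (r * e 1 t) * ext q (r * e 1 t) + (ε : ℂ) = 0 := h0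
      rw [h0', norm_zero] at this
      linarith
    have i1 : Integrable (fun t => (k t * q t + ε)⁻¹ * e n t) mu :=
      memLp_integrable (bdd_mul hb (bdd_e _))
    have i2 : Integrable (fun t => (ext k (r * e 1 t) * ext q (r * e 1 t) + (ε : ℂ))⁻¹ * e n t) mu :=
      cont_int (hc.mul (e_cont _))
    have hk2 : MemLp (fun t => k t - ext k (r * e 1 t)) 2 mu := hk.1.sub (memLp2 (bdd_cont hkc))
    have hq2 : MemLp (fun t => q t - ext q (r * e 1 t)) 2 mu := hq.1.sub (memLp2 (bdd_cont hqc))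
    have j1 : Integrable (fun t => ‖k t‖ ^ 2) mu := hk.1.integrable_norm_pow (by norm_num)
    have j2 : Integrable (fun t => ‖q t‖ ^ 2) mu := hq.1.integrable_norm_pow (by norm_num)
    have j3 : Integrable (fun t => ‖k t - ext k (r * e 1 t)‖ ^ 2) mu :=
      hk2.integrable_norm_pow (by norm_num)
    have j4 : Integrable (fun t => ‖q t - ext q (r * e 1 t)‖ ^ 2) mu :=
      hq2.integrable_norm_pow (by norm_num)
    have e1 : ∫ t, (k t * q t + ε)⁻¹ * e n t ∂mu =
        ∫ t, ((k t * q t + ε)⁻¹ * e n t -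
          (ext k (r * e 1 t) * ext q (r * e 1 t) + (ε : ℂ))⁻¹ * e n t) ∂mu := by
      rw [integral_sub i1 i2, hz, sub_zero]
    rw [e1]
    have j5 : Integrable (fun t => (ε ^ 2)⁻¹ * (δ * (‖k t‖ ^ 2 + ‖q t‖ ^ 2) +
        (δ⁻¹ + 1) * (‖k t - ext k (r * e 1 t)‖ ^ 2 + ‖q t - ext q (r * e 1 t)‖ ^ 2))) mu :=
      (((j1.add j2).const_mul _).add ((j3.add j4).const_mul _)).const_mul _
    refine (norm_integral_le_of_norm_le j5 ?_).trans ?_
    · filter_upwards [h] with t ht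
      have n1 := norm_ge_Aak ht hε
      have n2 := hn1 t
      set a := k t with ha
      set b := q t with hb'
      set a' := ext k (r * e 1 t) with ha'
      set b' := ext q (r * e 1 t) with hb''
      rw [← sub_mul, norm_mul, e_norm, mul_one]
      have hne1 : a * b + (ε : ℂ) ≠ 0 := by
        intro h0; rw [h0, norm_zero] at n1; linarith
      have hne2 : a' * b' + (ε : ℂ) ≠ 0 := by
        intro h0; rw [h0, norm_zero] at n2; linarith
      rw [inv_sub_inv hne1 hne2, norm_div, norm_mul, div_eq_inv_mul]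
      have h5 : ε ^ 2 ≤ ‖a * b + (ε : ℂ)‖ * ‖a' * b' + (ε : ℂ)‖ := by
        rw [sq]; exact mul_le_mul n1 n2 hε.le (norm_nonneg _)
      have h6 : ‖a' * b' + (ε : ℂ) - (a * b + ε)‖ ≤ δ * (‖a‖ ^ 2 + ‖b‖ ^ 2) +
          (δ⁻¹ + 1) * (‖a - a'‖ ^ 2 + ‖b - b'‖ ^ 2) := by
        have h7 : a' * b' + (ε : ℂ) - (a * b + ε) = (a - a') * (b - b') - (a - a') * b -
            a * (b - b') := by ring
        have h8 : ‖(a - a') * (b - b') - (a - a') * b - a * (b - b')‖ ≤
            ‖a - a'‖ * ‖b - b'‖ + ‖a - a'‖ * ‖b‖ + ‖a‖ * ‖b - b'‖ := by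
          refine (norm_sub_le _ _).trans ?_
          refine add_le_add ((norm_sub_le _ _).trans ?_) ?_
          · rw [norm_mul, norm_mul]
          · rw [norm_mul]
        rw [h7]
        refine h8.trans ?_
        have am : ∀ x y : ℝ, x * y ≤ δ * y ^ 2 + δ⁻¹ * x ^ 2 := by
          intro x y
          have h9 : 0 ≤ δ * (y - δ⁻¹ * x / 2) ^ 2 := by positivity
          have h10 : δ * (y - δ⁻¹ * x / 2) ^ 2 = δ * y ^ 2 - x * y + δ⁻¹ * x ^ 2 / 4 := by
            field_simp; ring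
          have h11 : 0 ≤ δ⁻¹ * x ^ 2 := by positivity
          linarith
        have h12 := am ‖a - a'‖ ‖b‖
        have h13 := am ‖b - b'‖ ‖a‖
        have h14 : ‖a - a'‖ * ‖b - b'‖ ≤ ‖a - a'‖ ^ 2 + ‖b - b'‖ ^ 2 := by
          nlinarith [sq_nonneg (‖a - a'‖ - ‖b - b'‖), sq_nonneg ‖a - a'‖, sq_nonneg ‖b - b'‖]
        linarith
      exact mul_le_mul (inv_anti₀ (by positivity) h5) h6 (norm_nonneg _) (by positivity)
    · have e2 : ∫ t, (ε ^ 2)⁻¹ * (δ * (‖k t‖ ^ 2 + ‖q t‖ ^ 2) +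
          (δ⁻¹ + 1) * (‖k t - ext k (r * e 1 t)‖ ^ 2 + ‖q t - ext q (r * e 1 t)‖ ^ 2)) ∂mu =
          (ε ^ 2)⁻¹ * (δ * (A + B) + (δ⁻¹ + 1) * ((∫ t, ‖k t - ext k (r * e 1 t)‖ ^ 2 ∂mu) +
          ∫ t, ‖q t - ext q (r * e 1 t)‖ ^ 2 ∂mu)) := by
        have j12 : Integrable (fun t => ‖k t‖ ^ 2 + ‖q t‖ ^ 2) mu := j1.add j2
        have j34 : Integrable (fun t => ‖k t - ext k (r * e 1 t)‖ ^ 2 +
          ‖q t - ext q (r * e 1 t)‖ ^ 2) mu := j3.add j4
        rw [integral_const_mul, integral_add (j12.const_mul _) (j34.const_mul _),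
          integral_const_mul, integral_const_mul, integral_add j1 j2, integral_add j3 j4]
      rw [e2]
      refine mul_le_mul_of_nonneg_left ?_ (by positivity)
      linarith
  by_contra hne
  have hpos : 0 < ‖∫ t, (k t * q t + ε)⁻¹ * e n t ∂mu‖ := norm_pos_iff.2 hne
  set J := ‖∫ t, (k t * q t + ε)⁻¹ * e n t ∂mu‖ with hJ
  have hK : 0 < A + B + 1 := by positivity
  have h9 := key (J * ε ^ 2 / (2 * (A + B + 1))) (by positivity)
  have h10 : (ε ^ 2)⁻¹ * (J * ε ^ 2 / (2 * (A + B + 1)) * (A + B + 1)) = J / 2 := by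
    field_simp
  rw [h10] at h9
  linarith

/-- the quotient of two elements of `H²` with `Re (k q) ≥ 0` and `|k| ≤ C |q|` -/
lemma quot_Aak {k q : T → ℂ} (hk : k ∈ H2) (hq : q ∈ H2)
    (h : ∀ᵐ t ∂mu, 0 ≤ (k t * q t).re) {C : ℝ} (hC0 : 0 ≤ C) (hC : ∀ᵐ t ∂mu, ‖k t‖ ≤ C * ‖q t‖) :
    (fun t => k t / q t) ∈ HInf := by
  have hm : AEStronglyMeasurable (fun t => k t / q t) mu :=
    (hk.1.1.aemeasurable.div hq.1.1.aemeasurable).aestronglyMeasurable
  have hb : MemLp (fun t => k t / q t) ∞ mu := by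
    refine memLp_top_of_bound hm C ?_
    filter_upwards [hC] with t ht
    rw [norm_div]
    exact div_le_of_le_mul₀ (norm_nonneg _) hC0 ht
  rw [mem_HInf_iff hb]
  intro n hn
  -- the approximations
  have key : ∀ ε : ℝ, 0 < ε → ∫ t, k t * (k t * (k t * q t + ε)⁻¹) * e n t ∂mu = 0 := fun ε hε =>
    H2mul_Aak hk (H2mulb_Aak hk (inv_Aak hk hq h hε)) n hn
  have hlim := tendsto_integral_of_dominated_convergence (μ := mu)
    (F := fun (m : ℕ) t => k t * (k t * (k t * q t + ((1 / ((m : ℝ) + 1) : ℝ) : ℂ))⁻¹) * e n t)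
    (f := fun t => k t / q t * e n t) (fun _ => C) ?_ (integrable_const _) ?_ ?_
  · have h0 : (fun m : ℕ => ∫ t, k t * (k t * (k t * q t + ((1 / ((m : ℝ) + 1) : ℝ) : ℂ))⁻¹) *
        e n t ∂mu) = fun _ => 0 := by
      funext m
      exact key _ (by positivity)
    rw [h0] at hlim
    exact tendsto_nhds_unique hlim tendsto_const_nhds
  · intro m
    exact ((hk.1.1.mul (hk.1.1.mul (((hk.1.1.mul hq.1.1).add
      aestronglyMeasurable_const).aemeasurable.inv).aestronglyMeasurable)).mul (e_aesm _))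
  · intro m
    filter_upwards [h, hC] with t ht htC
    have hε : 0 < 1 / ((m : ℝ) + 1) := by positivity
    have n1 := norm_ge_Aak ht hε
    have n2 : ‖k t * q t‖ ≤ ‖k t * q t + ((1 / ((m : ℝ) + 1) : ℝ) : ℂ)‖ := by
      have h1 : ‖k t * q t‖ ^ 2 ≤ ‖k t * q t + ((1 / ((m : ℝ) + 1) : ℝ) : ℂ)‖ ^ 2 := by
        rw [← Complex.normSq_eq_norm_sq, ← Complex.normSq_eq_norm_sq, Complex.normSq_apply,
          Complex.normSq_apply, Complex.add_re, Complex.add_im, Complex.ofReal_re,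
          Complex.ofReal_im]
        nlinarith
      exact le_of_sq_le_sq h1 (norm_nonneg _)
    rw [norm_mul, e_norm, mul_one, norm_mul, norm_mul, norm_inv]
    have hpos : 0 < ‖k t * q t + ((1 / ((m : ℝ) + 1) : ℝ) : ℂ)‖ := lt_of_lt_of_le hε n1
    rw [← mul_assoc, ← div_eq_mul_inv, div_le_iff₀ hpos]
    calc ‖k t‖ * ‖k t‖ ≤ ‖k t‖ * (C * ‖q t‖) := mul_le_mul_of_nonneg_left htC (norm_nonneg _)
      _ = C * ‖k t * q t‖ := by rw [norm_mul]; ring
      _ ≤ C * ‖k t * q t + ((1 / ((m : ℝ) + 1) : ℝ) : ℂ)‖ := mul_le_mul_of_nonneg_left n2 hC0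
  · filter_upwards [hC] with t htC
    refine Tendsto.mul_const _ ?_
    by_cases hk0 : k t = 0
    · simp [hk0]
    · have hq0 : q t ≠ 0 := by
        intro h0
        rw [h0, norm_zero, mul_zero] at htC
        exact hk0 (norm_le_zero_iff.1 htC)
      have h1 : Tendsto (fun m : ℕ => ((1 / ((m : ℝ) + 1) : ℝ) : ℂ)) atTop (𝓝 0) := by
        have h2 := tendsto_one_div_add_atTop_nhds_zero_nat (𝕜 := ℝ)
        have h3 := (Complex.continuous_ofReal.tendsto 0).comp h2
        rw [Complex.ofReal_zero] at h3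
        exact h3
      have h2 : Tendsto (fun m : ℕ => k t * (k t * (k t * q t +
          ((1 / ((m : ℝ) + 1) : ℝ) : ℂ))⁻¹)) atTop (𝓝 (k t * (k t * (k t * q t + 0)⁻¹))) := by
        refine Tendsto.const_mul _ (Tendsto.const_mul _ (Tendsto.inv₀ (h1.const_add _) ?_))
        rw [add_zero]
        exact mul_ne_zero hk0 hq0
      have h3 : k t * (k t * (k t * q t + 0)⁻¹) = k t / q t := by
        rw [add_zero]
        field_simp
      rwa [h3] at h2

/-- real valued functions in `HInf` are constant -/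
lemma real_Aak {f : T → ℂ} (hf : f ∈ HInf) (hr : ∀ᵐ t ∂mu, conj (f t) = f t) :
    ∀ᵐ t ∂mu, f t = fourierCoeff f 0 := by
  have h1 : ∀ n : ℤ, n ≠ 0 → fourierCoeff f n = 0 := by
    intro n hn
    rcases lt_or_gt_of_ne hn with h | h
    · exact hf.2 n h
    · have h2 : fourierCoeff f n = fourierCoeff (fun t => conj (f t)) n :=
        (congrFun (fourierCoeff_congr_ae hr) n).symm
      rw [h2, fc_conj, hf.2 _ (by omega), map_zero]
  have h2 : MemLp (fun t => f t - fourierCoeff f 0) 2 mu := (memLp2 hf.1).sub (memLp_const _)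
  have h3 := ae_zero_of_fc h2 fun n => by
    have e1 : fourierCoeff (fun t => f t - fourierCoeff f 0) n =
        fourierCoeff f n - fourierCoeff f 0 * fourierCoeff (fun _ : T => (1 : ℂ)) n := by
      rw [fc_def, fc_def f n, fc_def (fun _ : T => (1 : ℂ)) n, ← integral_const_mul,
        ← integral_sub]
      · congr 1; funext t; ring
      · exact memLp_integrable (bdd_mul (bdd_e _) hf.1)
      · exact (cont_int ((e_cont (-n)).mul continuous_const)).const_mul _
    rw [e1, fc_one]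
    by_cases hn : n = 0
    · subst hn; simp
    · rw [h1 n hn, if_neg hn]; simp
  filter_upwards [h3] with t ht
  exact sub_eq_zero.1 ht

/-! ### the fixed point -/

lemma inner_fc_Aak (x : Lp ℂ 2 mu) (n : ℤ) :
    inner ℂ (fourierLp (T := (1 : ℝ)) 2 n) x = fourierCoeff x n := by
  rw [← fourierBasis_repr, HilbertBasis.repr_apply_apply, coe_fourierBasis]

/-- the elements with vanishing Fourier coefficients of index `n ≥ 0` -/
noncomputable def Km_Aak : Submodule ℂ (Lp ℂ 2 mu) :=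
  (Submodule.span ℂ {x | ∃ n : ℤ, 0 ≤ n ∧ x = fourierLp (T := (1 : ℝ)) 2 n})ᗮ

instance cs_Aak : CompleteSpace Km_Aak := by
  unfold Km_Aak
  infer_instance

lemma mem_Km_Aak {x : Lp ℂ 2 mu} : x ∈ Km_Aak ↔ ∀ n : ℤ, 0 ≤ n → fourierCoeff x n = 0 := by
  unfold Km_Aak
  rw [Submodule.mem_orthogonal]
  constructor
  · intro h n hn
    rw [← inner_fc_Aak]
    exact h _ (Submodule.subset_span ⟨n, hn, rfl⟩)
  · intro h u hu
    induction hu using Submodule.span_induction with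
    | mem u hu =>
      obtain ⟨n, hn, rfl⟩ := hu
      rw [inner_fc_Aak]
      exact h n hn
    | zero => exact inner_zero_left _
    | add u v _ _ hu hv => rw [inner_add_left, hu, hv, add_zero]
    | smul a u _ hu => rw [inner_smul_left, hu, mul_zero]

lemma fourier_mem_Aak {n : ℤ} (hn : n < 0) : fourierLp (T := (1 : ℝ)) 2 n ∈ Km_Aak := by
  rw [mem_Km_Aak]
  intro m hm
  rw [← inner_fc_Aak]
  exact (orthonormal_fourier (T := (1 : ℝ))).2 (by omega)

lemma fc_sub_Aak (x : Lp ℂ 2 mu) {n : ℤ} (hn : n < 0) :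
    fourierCoeff (x - Km_Aak.starProjection x : Lp ℂ 2 mu) n = 0 := by
  rw [← inner_fc_Aak]
  exact Submodule.sub_starProjection_mem_orthogonal x _ (fourier_mem_Aak hn)

/-- multiplication by a bounded function -/
noncomputable def Mu_Aak {d : T → ℂ} (hd : MemLp d ∞ mu) (x : Lp ℂ 2 mu) : Lp ℂ 2 mu :=
  (bddmul_Aak (Lp.memLp x) hd).toLp _

lemma Mu_coe_Aak {d : T → ℂ} (hd : MemLp d ∞ mu) (x : Lp ℂ 2 mu) :
    Mu_Aak hd x =ᵐ[mu] fun t => x t * d t := MemLp.coeFn_toLp _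

lemma conj2_Aak {f : T → ℂ} (hf : MemLp f 2 mu) : MemLp (fun t => conj (f t)) 2 mu := by
  refine ⟨Complex.continuous_conj.comp_aestronglyMeasurable hf.1, ?_⟩
  have : eLpNorm (fun t => conj (f t)) 2 mu = eLpNorm f 2 mu :=
    eLpNorm_congr_norm_ae (Eventually.of_forall fun t => by simp)
  rw [this]
  exact hf.2

/-- the map of the fixed point equation -/
noncomputable def Ph_Aak {d : T → ℂ} (hd : MemLp d ∞ mu) (x : Lp ℂ 2 mu) : Lp ℂ 2 mu :=
  ((memLp_const (1 : ℂ)).add (conj2_Aak (Lp.memLp (Km_Aak.starProjection (Mu_Aak hd x))))).toLp _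

lemma Ph_coe_Aak {d : T → ℂ} (hd : MemLp d ∞ mu) (x : Lp ℂ 2 mu) :
    Ph_Aak hd x =ᵐ[mu] fun t => 1 + conj (Km_Aak.starProjection (Mu_Aak hd x) t) :=
  MemLp.coeFn_toLp _

lemma fix_Aak {d : T → ℂ} (hd : MemLp d ∞ mu) (hd2 : ∀ᵐ t ∂mu, ‖d t‖ ≤ 1 / 2) :
    ∃ p w q : T → ℂ, MemLp p 2 mu ∧ MemLp w 2 mu ∧ MemLp q 2 mu ∧
      (∀ n : ℤ, 0 ≤ n → fourierCoeff p n = 0) ∧ (∀ n : ℤ, n < 0 → fourierCoeff w n = 0) ∧
      (∀ᵐ t ∂mu, d t * q t = p t + w t) ∧ ∀ᵐ t ∂mu, q t = 1 + conj (p t) := by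
  have hlip : ∀ x y : Lp ℂ 2 mu, dist (Ph_Aak hd x) (Ph_Aak hd y) ≤ (1 / 2 : ℝ) * dist x y := by
    intro x y
    rw [dist_eq_norm, dist_eq_norm]
    have h1 : ‖Ph_Aak hd x - Ph_Aak hd y‖ ≤
        ‖Km_Aak.starProjection (Mu_Aak hd x) - Km_Aak.starProjection (Mu_Aak hd y)‖ := by
      apply Lp.norm_le_norm_of_ae_le
      filter_upwards [Lp.coeFn_sub (Ph_Aak hd x) (Ph_Aak hd y), Ph_coe_Aak hd x, Ph_coe_Aak hd y,
        Lp.coeFn_sub (Km_Aak.starProjection (Mu_Aak hd x))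
          (Km_Aak.starProjection (Mu_Aak hd y))] with t t1 t2 t3 t4
      rw [t1, Pi.sub_apply, t2, t3, t4, Pi.sub_apply, add_sub_add_left_eq_sub, ← map_sub,
        RCLike.norm_conj]
    have h2 : ‖Km_Aak.starProjection (Mu_Aak hd x) - Km_Aak.starProjection (Mu_Aak hd y)‖ ≤
        ‖Mu_Aak hd x - Mu_Aak hd y‖ := by
      rw [← map_sub]
      exact Submodule.norm_starProjection_apply_le _ _
    have h3 : ‖Mu_Aak hd x - Mu_Aak hd y‖ ≤ 1 / 2 * ‖x - y‖ := by
      apply Lp.norm_le_mul_norm_of_ae_le_mul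
      filter_upwards [Lp.coeFn_sub (Mu_Aak hd x) (Mu_Aak hd y), Mu_coe_Aak hd x, Mu_coe_Aak hd y,
        Lp.coeFn_sub x y, hd2] with t t1 t2 t3 t4 t5
      rw [t1, Pi.sub_apply, t2, t3, t4, Pi.sub_apply, ← sub_mul, norm_mul, mul_comm]
      exact mul_le_mul_of_nonneg_right t5 (norm_nonneg _)
    linarith
  have hc : ContractingWith (1 / 2) (Ph_Aak hd) := by
    refine ⟨by norm_num [← NNReal.coe_lt_coe], LipschitzWith.of_dist_le_mul fun x y => ?_⟩
    simpa using hlip x y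
  obtain ⟨q, hq⟩ : ∃ q, Ph_Aak hd q = q := ⟨_, hc.fixedPoint_isFixedPt⟩
  set P := Km_Aak.starProjection (Mu_Aak hd q) with hP
  refine ⟨P, (Mu_Aak hd q - P : Lp ℂ 2 mu), q, Lp.memLp _, Lp.memLp _, Lp.memLp _, ?_, ?_, ?_, ?_⟩
  · exact mem_Km_Aak.1 (Submodule.starProjection_apply_mem _ _)
  · intro n hn
    exact fc_sub_Aak _ hn
  · filter_upwards [Lp.coeFn_sub (Mu_Aak hd q) P, Mu_coe_Aak hd q] with t t1 t2
    rw [t1, Pi.sub_apply, t2]
    ring
  · have h := Ph_coe_Aak hd q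
    rw [hq] at h
    exact h

lemma half_Aak (hexp : S_dexp) {D : Submodule ℂ (T →ₘ[mu] ℂ)} (hD : IsDouglas D) {d : T → ℂ}
    (hd : Mem D d) (hd2 : ∀ᵐ t ∂mu, ‖d t‖ ≤ 1 / 2) :
    ∃ h q : T → ℂ, h ∈ HInf ∧ QMem D q ∧ d =ᵐ[mu] fun t => h t + q t := by
  have hdb : MemLp d ∞ mu := memLp_top_of_bound hd.aesm (1 / 2) hd2
  obtain ⟨p, w, q, hp2, hw2, hq2, hp, hw, hdq, hqp⟩ := fix_Aak hdb hd2
  have hpi : Integrable p mu := hp2.integrable (by norm_num)
  have hwi : Integrable w mu := hw2.integrable (by norm_num)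
  have hei : ∀ (n : ℤ) {f : T → ℂ}, Integrable f mu → Integrable (fun t => e n t * f t) mu :=
    fun n f hf => hf.bdd_mul (c := 1) (e_aesm _) (Eventually.of_forall fun t => (e_norm _ t).le)
  obtain ⟨k, hkdef⟩ : ∃ k : T → ℂ, k = fun t => 1 - w t := ⟨_, rfl⟩
  have hk : k ∈ H2 := by
    rw [hkdef]
    refine ⟨(memLp_const (1 : ℂ)).sub hw2, fun n hn => ?_⟩
    have e1 : fourierCoeff (fun t => 1 - w t) n =
        fourierCoeff (fun _ : T => (1 : ℂ)) n - fourierCoeff w n := by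
      rw [fc_def, fc_def, fc_def, ← integral_sub (hei _ (integrable_const _)) (hei _ hwi)]
      congr 1; funext t; ring
    rw [e1, fc_one, if_neg hn.ne, hw n hn, sub_zero]
  have fcq : ∀ n : ℤ, fourierCoeff q n =
      fourierCoeff (fun _ : T => (1 : ℂ)) n + conj (fourierCoeff p (-n)) := by
    intro n
    rw [fourierCoeff_congr_ae hqp, ← fc_conj, fc_def, fc_def, fc_def,
      ← integral_add (hei _ (integrable_const _))
        (hei _ ((conj2_Aak hp2).integrable (by norm_num)))]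
    congr 1; funext t; ring
  have hq : q ∈ H2 := by
    refine ⟨hq2, fun n hn => ?_⟩
    rw [fcq, fc_one, if_neg hn.ne, hp _ (by omega), map_zero, add_zero]
  have hq0 : fourierCoeff q 0 = 1 := by
    rw [fcq, fc_one, if_pos rfl, hp _ (by omega), map_zero, add_zero]
  -- the relation
  have hrel : ∀ᵐ t ∂mu, d t * q t = conj (q t) - k t := by
    filter_upwards [hdq, hqp] with t t1 t2
    have e1 : conj (q t) = 1 + p t := by rw [t2, map_add, map_one, Complex.conj_conj]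
    rw [t1, e1, hkdef]
    ring
  have hb1 : ∀ᵐ t ∂mu, ‖k t - conj (q t)‖ ≤ 1 / 2 * ‖q t‖ := by
    filter_upwards [hrel, hd2] with t t1 t2
    have e1 : k t - conj (q t) = -(d t * q t) := by rw [t1]; ring
    rw [e1, norm_neg, norm_mul]
    exact mul_le_mul_of_nonneg_right t2 (norm_nonneg _)
  have hb2 : ∀ᵐ t ∂mu, ‖k t‖ ≤ 3 / 2 * ‖q t‖ := by
    filter_upwards [hb1] with t t1
    have h1 := norm_add_le (k t - conj (q t)) (conj (q t))
    rw [sub_add_cancel, RCLike.norm_conj] at h1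
    linarith
  have hb3 : ∀ᵐ t ∂mu, ‖q t‖ ≤ 2 * ‖k t‖ := by
    filter_upwards [hb1] with t t1
    have h1 := norm_sub_le (k t) (k t - conj (q t))
    rw [sub_sub_cancel, RCLike.norm_conj] at h1
    linarith
  have hre : ∀ᵐ t ∂mu, 0 ≤ (k t * q t).re := by
    filter_upwards [hrel, hd2] with t t1 t2
    have e1 : k t * q t = ((‖q t‖ ^ 2 : ℝ) : ℂ) - d t * q t * q t := by
      rw [t1, ← Complex.normSq_eq_norm_sq, ← Complex.mul_conj]
      ring
    have h1 : ‖d t * q t * q t‖ ≤ 1 / 2 * ‖q t‖ ^ 2 := by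
      rw [norm_mul, norm_mul, mul_assoc, ← sq]
      exact mul_le_mul_of_nonneg_right t2 (by positivity)
    have h2 := (Complex.re_le_norm (d t * q t * q t)).trans h1
    rw [e1, Complex.sub_re, Complex.ofReal_re]
    have h3 : 0 ≤ ‖q t‖ ^ 2 := by positivity
    linarith
  have hre' : ∀ᵐ t ∂mu, 0 ≤ (q t * k t).re := by
    filter_upwards [hre] with t t1
    rwa [mul_comm]
  have hh0 := quot_Aak hk hq hre (by norm_num : (0 : ℝ) ≤ 3 / 2) hb2
  have hh1 := quot_Aak hq hk hre' (by norm_num : (0 : ℝ) ≤ 2) hb3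
  have hχ := mul_HInf hh0 hh1
  have hχ1 : ∀ᵐ t ∂mu, (q t = 0 → k t / q t * (q t / k t) = 0) ∧
      (q t ≠ 0 → k t / q t * (q t / k t) = 1 ∧ k t ≠ 0) := by
    filter_upwards [hb3] with t t1
    refine ⟨fun h => by rw [h]; simp, fun h => ?_⟩
    have h1 : k t ≠ 0 := by
      intro h0
      rw [h0, norm_zero, mul_zero] at t1
      exact h (norm_le_zero_iff.1 t1)
    exact ⟨by field_simp, h1⟩
  have hχ2 := real_Aak hχ (by
    filter_upwards [hχ1] with t t1
    by_cases h : q t = 0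
    · rw [t1.1 h, map_zero]
    · rw [(t1.2 h).1, map_one])
  have hne : ∀ᵐ t ∂mu, q t ≠ 0 := by
    by_cases hc : fourierCoeff (fun t => k t / q t * (q t / k t)) 0 = 1
    · filter_upwards [hχ1, hχ2] with t t1 t2 h
      rw [t1.1 h, hc] at t2
      exact zero_ne_one t2
    · exfalso
      have hz : q =ᵐ[mu] fun _ => 0 := by
        filter_upwards [hχ1, hχ2] with t t1 t2
        by_contra h
        rw [(t1.2 h).1] at t2
        exact hc t2.symm
      rw [fourierCoeff_congr_ae hz, fc_def] at hq0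
      simp at hq0
  -- the unimodular function
  have hu : Mem D (fun t => conj (q t) / q t) := by
    refine (hd.add (Mem.hinf hD hh0)).congr ?_
    filter_upwards [hrel, hne] with t t1 t2
    have e1 : conj (q t) = d t * q t + k t := by rw [t1]; ring
    rw [e1]
    field_simp
  have hf : Mem D (fun t => (3 / 4 : ℂ) * (conj (q t) / q t * (q t / k t))) :=
    (Mem.mul hD hu (Mem.hinf hD hh1)).smul _
  have hf1 : ∀ᵐ t ∂mu, ‖(3 / 4 : ℂ) * (conj (q t) / q t * (q t / k t)) - 1‖ ≤ 1 / 2 := by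
    filter_upwards [hne, hχ1, hb1] with t t1 t2 t3
    have hk0 := (t2.2 t1).2
    have e1 : (3 / 4 : ℂ) * (conj (q t) / q t * (q t / k t)) - 1 =
        ((3 / 4 : ℂ) * conj (q t) - k t) / k t := by field_simp
    rw [e1, norm_div]
    have hkp : 0 < ‖k t‖ := norm_pos_iff.2 hk0
    rw [div_le_iff₀ hkp]
    have h1 : ‖k t - conj (q t)‖ ^ 2 ≤ (1 / 2 * ‖conj (q t)‖) ^ 2 := by
      rw [RCLike.norm_conj]
      exact pow_le_pow_left₀ (norm_nonneg _) t3 2
    have h2 : ‖(3 / 4 : ℂ) * conj (q t) - k t‖ ^ 2 ≤ (1 / 2 * ‖k t‖) ^ 2 := by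
      rw [mul_pow] at h1 ⊢
      rw [← Complex.normSq_eq_norm_sq, ← Complex.normSq_eq_norm_sq, Complex.normSq_apply,
        Complex.normSq_apply] at h1 ⊢
      have e2 : ((3 / 4 : ℂ) * conj (q t) - k t).re = 3 / 4 * (conj (q t)).re - (k t).re := by
        simp
      have e3 : ((3 / 4 : ℂ) * conj (q t) - k t).im = 3 / 4 * (conj (q t)).im - (k t).im := by
        simp
      rw [e2, e3]
      rw [Complex.sub_re, Complex.sub_im] at h1
      nlinarith
    exact le_of_sq_le_sq h2 (by positivity)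
  have hs := (hexp D hD _ hf).2 (1 / 2) (by norm_num) hf1
  have hu' : Mem D (fun t => conj (conj (q t) / q t)) := by
    refine (Mem.mul hD (hs.smul (3 / 4)) (Mem.hinf hD hh1)).congr ?_
    filter_upwards [hne, hχ1] with t t1 t2
    have hk0 := (t2.2 t1).2
    have hc0 : conj (q t) ≠ 0 := by simpa using t1
    rw [map_div₀, Complex.conj_conj]
    field_simp
  refine ⟨fun t => (-1) * (k t / q t), fun t => conj (q t) / q t, smul_HInf hh0 (-1),
    ⟨hu, hu'⟩, ?_⟩
  filter_upwards [hrel, hne] with t t1 t2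
  have e1 : d t = d t * q t / q t := by field_simp
  rw [e1, t1]
  field_simp
  ring

theorem aak (hexp : S_dexp) : S_aak := by
  intro D hD d hd
  obtain ⟨g, hg, hgd⟩ := hd
  obtain ⟨M, hM⟩ := hD.bdd g hg
  have hd : Mem D d := ⟨g, hg, hgd⟩
  have hc : 0 < 2 * (|M| + 1) := by positivity
  obtain ⟨c, hcdef⟩ : ∃ c : ℝ, c = 2 * (|M| + 1) := ⟨_, rfl⟩
  rw [← hcdef] at hc
  have hc0 : (c : ℂ) ≠ 0 := Complex.ofReal_ne_zero.2 hc.ne'
  obtain ⟨h, q, hh, hq, hdq⟩ := half_Aak hexp hD (hd.smul ((c : ℂ)⁻¹)) (by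
    filter_upwards [hM, hgd] with t t1 t2
    rw [norm_mul, norm_inv, Complex.norm_real, Real.norm_of_nonneg hc.le, ← t2,
      inv_mul_le_iff₀ hc, hcdef]
    have := le_abs_self M
    linarith)
  refine ⟨fun t => c * h t, fun t => c * q t, smul_HInf hh _, ⟨hq.1.smul _, ?_⟩, ?_⟩
  · refine (hq.2.smul (c : ℂ)).congr (Eventually.of_forall fun t => ?_)
    simp only []
    rw [map_mul, Complex.conj_ofReal]
  · filter_upwards [hdq] with t t1
    rw [← mul_add, ← t1]
    field_simp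

end Pool.Agent.H843
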