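import Pool.Agent.H843.Stmts

set_option autoImplicit false

namespace Pool.Agent.H843

open MeasureTheory Filter Topology Metric Set
open scoped ComplexConjugate ENNReal
open Pool.Agent.Helper34.Dg
open Pool.Agent.H720R2.HP (WD db)

theorem mem_Crit {r : ℝ} (hr : r ∈ Ioo (0:ℝ) 1) (t : T) : (r : ℂ) * pt t ∈ disc :=
  re1_mem hr.1.le hr.2 t

/-- a common sequence for finitely many boundary functions -/
theorem seq_Crit {J : Type} [Fintype J] (R : J → ℂ → ℂ) (Rs : J → T → ℂ)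
    (hc : ∀ j, ContinuousOn (R j) disc) (h : ∀ j, L1b (R j) (Rs j)) :
    ∃ r : ℕ → ℝ, (∀ n, r n ∈ Ioo (0:ℝ) 1) ∧ Tendsto r atTop (𝓝[<] 1) ∧
      ∀ᵐ t ∂mu, ∀ j, Tendsto (fun n => R j ((r n : ℂ) * pt t)) atTop (𝓝 (Rs j t)) := by
  set g : ℝ → T → ℝ≥0∞ := fun r t => ∑ j, ‖R j ((r : ℂ) * pt t) - Rs j t‖ₑ with hg
  have hptc : Continuous pt := e_cont 1
  have hmeasj : ∀ r ∈ Ioo (0:ℝ) 1, ∀ j,
      AEMeasurable (fun t => ‖R j ((r : ℂ) * pt t) - Rs j t‖ₑ) mu := by
    intro r hr j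
    have h1 : Continuous (fun t => R j ((r:ℂ) * pt t)) :=
      (hc j).comp_continuous (by fun_prop) (mem_Crit hr)
    exact (h1.aestronglyMeasurable.sub (h j).1).enorm
  have hmeas : ∀ r ∈ Ioo (0:ℝ) 1, AEMeasurable (g r) mu := by
    intro r hr
    exact Finset.aemeasurable_fun_sum _ (fun j _ => hmeasj r hr j)
  have hlim : Tendsto (fun r => ∫⁻ t, g r t ∂mu) (𝓝[<] 1) (𝓝 0) := by
    have h1 : Tendsto (fun r : ℝ => ∑ j, ∫⁻ t, ‖R j ((r:ℂ) * pt t) - Rs j t‖ₑ ∂mu) (𝓝[<] 1)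
        (𝓝 (∑ _j : J, 0)) := tendsto_finsetSum _ (fun j _ => (h j).2)
    rw [Finset.sum_const_zero] at h1
    refine h1.congr' ?_
    filter_upwards [Ioo_mem_left] with r hr
    rw [lintegral_finsetSum' _ (fun j _ => hmeasj r hr j)]
  have hex : ∀ n : ℕ, ∃ r : ℝ, r ∈ Ioo (0:ℝ) 1 ∧ 1 - 1 / ((n : ℝ) + 1) < r ∧
      ∫⁻ t, g r t ∂mu ≤ (2⁻¹ : ℝ≥0∞) ^ n := by
    intro n
    have h1 : ∀ᶠ r in 𝓝[<] (1:ℝ), ∫⁻ t, g r t ∂mu ≤ (2⁻¹ : ℝ≥0∞) ^ n := by
      have h2 : (0 : ℝ≥0∞) < (2⁻¹ : ℝ≥0∞) ^ n := by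
        apply ENNReal.pow_pos
        simp
      exact (hlim.eventually (gt_mem_nhds h2)).mono fun r hr => hr.le
    have h3 : ∀ᶠ r in 𝓝[<] (1:ℝ), 1 - 1 / ((n : ℝ) + 1) < r := by
      apply mem_nhdsWithin_of_mem_nhds
      apply lt_mem_nhds
      have : 0 < 1 / ((n : ℝ) + 1) := by positivity
      linarith
    obtain ⟨r, ⟨hr1, hr2⟩, hr3⟩ := ((h1.and h3).and Ioo_mem_left).exists
    exact ⟨r, hr3, hr2, hr1⟩
  choose r hr1 hr2 hr3 using hex
  refine ⟨r, hr1, ?_, ?_⟩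
  · rw [tendsto_nhdsWithin_iff]
    refine ⟨?_, Eventually.of_forall fun n => (hr1 n).2⟩
    have h1 : Tendsto (fun n : ℕ => 1 - 1 / ((n : ℝ) + 1)) atTop (𝓝 (1 - 0)) :=
      tendsto_one_div_add_atTop_nhds_zero_nat.const_sub 1
    rw [sub_zero] at h1
    exact tendsto_of_tendsto_of_tendsto_of_le_of_le h1 tendsto_const_nhds
      (fun n => (hr2 n).le) (fun n => (hr1 n).2.le)
  · have h1 : ∫⁻ t, ∑' n, g (r n) t ∂mu ≠ ∞ := by
      rw [lintegral_tsum (fun n => hmeas _ (hr1 n))]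
      refine ne_top_of_le_ne_top ?_ (ENNReal.tsum_le_tsum hr3)
      rw [ENNReal.tsum_geometric]
      simp
    have h2 := ae_lt_top' (AEMeasurable.tsum (fun n => hmeas _ (hr1 n))) h1
    filter_upwards [h2] with t ht j
    have h3 := ENNReal.tendsto_cofinite_zero_of_tsum_ne_top ht.ne
    rw [Nat.cofinite_eq_atTop] at h3
    rw [tendsto_iff_edist_tendsto_0]
    refine tendsto_of_tendsto_of_tendsto_of_le_of_le tendsto_const_nhds h3
      (fun n => zero_le) (fun n => ?_)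
    simp only [edist_eq_enorm_sub, hg]
    exact Finset.single_le_sum (f := fun j => ‖R j ((r n : ℂ) * pt t) - Rs j t‖ₑ)
      (fun j _ => zero_le) (Finset.mem_univ j)

theorem maj_Crit {N : ℂ → ℝ} {K K' c : ℝ} (h : Maj N K) (hc : 0 ≤ c) (hK : K ≤ K') :
    Maj (fun z => c * N z) (c * K') where
  meas := h.meas.const_mul c
  nn := fun z => mul_nonneg hc (h.nn z)
  pt := fun z hz => by
    rw [mul_assoc]
    exact mul_le_mul_of_nonneg_left ((h.pt z hz).trans hK) hc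
  carl := fun z hz => by
    have h1 := (h.carl z hz).trans (ENNReal.ofReal_le_ofReal hK)
    rw [ENNReal.ofReal_mul hc]
    refine le_trans (le_of_eq ?_) (mul_le_mul_right h1 (ENNReal.ofReal c))
    rw [← lintegral_const_mul' _ _ ENNReal.ofReal_ne_top]
    apply lintegral_congr
    intro ω
    rw [← ENNReal.ofReal_mul hc, mul_assoc]

/-- partition of unity -/
theorem part_Crit {r : ℝ} (hr : 0 < r) : ∃ (s : Finset ℂ) (ρ : ℂ → ℂ → ℝ),
    (∀ a, Continuous (ρ a)) ∧ (∀ a x, 0 ≤ ρ a x) ∧ (∀ x, ‖x‖ ≤ 1 → ∑ a ∈ s, ρ a x = 1) ∧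
    ∀ a x, ρ a x ≠ 0 → ‖x - a‖ < r := by
  obtain ⟨s, hs, hcov⟩ := (isCompact_closedBall (0:ℂ) 1).elim_nhds_subcover
    (fun a => ball a (r / 2)) (fun a _ => ball_mem_nhds a (by positivity))
  set θ : ℂ → ℂ → ℝ := fun a x => max 0 (r - ‖x - a‖) with hθ
  have hθ0 : ∀ a x, 0 ≤ θ a x := fun a x => le_max_left _ _
  have hden : ∀ x, 0 < max (∑ a ∈ s, θ a x) (r / 2) := fun x => lt_of_lt_of_le (by positivity) (le_max_right _ _)
  refine ⟨s, fun a x => θ a x / max (∑ a ∈ s, θ a x) (r / 2), ?_, ?_, ?_, ?_⟩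
  · intro a
    apply Continuous.div
    · simp only [hθ]; fun_prop
    · simp only [hθ]; fun_prop
    · intro x; exact (hden x).ne'
  · intro a x
    exact div_nonneg (hθ0 a x) (hden x).le
  · intro x hx
    have hx' : x ∈ closedBall (0:ℂ) 1 := by simpa using hx
    have h1 := hcov hx'
    simp only [mem_iUnion] at h1
    obtain ⟨a, ha, hxa⟩ := h1
    rw [mem_ball, dist_eq_norm] at hxa
    have h2 : r / 2 ≤ ∑ a ∈ s, θ a x := by
      have h3 : θ a x ≤ ∑ a ∈ s, θ a x :=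
        Finset.single_le_sum (f := fun a => θ a x) (fun b _ => hθ0 b x) ha
      have h4 : r - ‖x - a‖ ≤ θ a x := le_max_right _ _
      linarith
    rw [← Finset.sum_div, max_eq_left h2]
    exact div_self (by linarith [half_pos hr])
  · intro a x hne
    by_contra hcon
    push Not at hcon
    apply hne
    have : θ a x = 0 := max_eq_left (by linarith)
    simp only [this, zero_div]

theorem sum_Crit {D : Submodule ℂ (T →ₘ[mu] ℂ)} (hD : IsDouglas D) {ι : Type} (s : Finset ι)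
    (f : ι → T → ℂ) (h : ∀ i ∈ s, Mem D (f i)) : Mem D (fun t => ∑ i ∈ s, f i t) := by
  classical
  induction s using Finset.induction_on with
  | empty =>
    refine (Mem.hinf hD (const_HInf 0)).congr (Eventually.of_forall fun t => ?_)
    simp
  | insert a s ha ih =>
    refine ((h a (Finset.mem_insert_self a s)).add
      (ih (fun i hi => h i (Finset.mem_insert_of_mem hi)))).congr (Eventually.of_forall fun t => ?_)
    simp only
    rw [Finset.sum_insert ha]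

/-- the exponent -/
noncomputable def E_Crit (H F : ℂ → ℂ) (a z : ℂ) : ℂ := H z - 2 * conj a * F z + (‖a‖ : ℂ) ^ 2

theorem E_re_Crit (h F a : ℂ) : (h - 2 * conj a * F + (‖a‖ : ℂ) ^ 2).re =
    h.re - ‖F‖ ^ 2 + ‖F - a‖ ^ 2 := by
  have e1 : ‖F - a‖ ^ 2 = (F.re - a.re) ^ 2 + (F.im - a.im) ^ 2 := by
    rw [← Complex.normSq_eq_norm_sq, Complex.normSq_apply]; simp; ring
  have e2 : ‖F‖ ^ 2 = F.re ^ 2 + F.im ^ 2 := by
    rw [← Complex.normSq_eq_norm_sq, Complex.normSq_apply]; ring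
  have e3 : ((‖a‖ : ℂ) ^ 2).re = a.re ^ 2 + a.im ^ 2 := by
    rw [← Complex.ofReal_pow, Complex.ofReal_re, ← Complex.normSq_eq_norm_sq, Complex.normSq_apply]
    ring
  rw [e1, e2, Complex.add_re, e3, Complex.sub_re]
  simp
  ring

/-- the piece attached to one centre -/
theorem piece_Crit {C₀ : ℝ} (hC₀ : 0 < C₀)
    (hdb : ∀ κ : ℝ, 0 < κ → ∀ (N : ℂ → ℝ) (ν : ℂ → ℂ), Maj N κ →
      Measurable ν → (∀ z ∈ disc, ‖ν z‖ ≤ N z) →
      ∃ (R : ℂ → ℂ) (Rs : T → ℂ), WD disc R ν ∧ (∀ z ∈ disc, ‖R z‖ ≤ C₀ * κ) ∧ L1b R Rs)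
    {f : T → ℂ} {H : ℂ → ℂ} (hH : DifferentiableOn ℂ H disc)
    (hF : DifferentiableOn ℂ (ext f) disc)
    (hO : ∀ z ∈ disc, Osc f z = (H z).re - ‖ext f z‖ ^ 2) (hO0 : ∀ z ∈ disc, 0 ≤ Osc f z)
    {Y ν S1 : ℂ → ℂ} {N : ℂ → ℝ} {K η M M1 : ℝ} (hη : 0 < η) (hY : WD disc Y ν)
    (hYM : ∀ z ∈ disc, ‖Y z‖ ≤ M)
    (hνm : Measurable ν) (hνN : ∀ z ∈ disc, ‖ν z‖ ≤ N z) (hN : Maj N K)
    (hmO : MeasurableSet {z | z ∈ disc ∧ Osc f z < η})
    (hS1 : WD disc S1 (indicator {z | z ∈ disc ∧ Osc f z < η} ν))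
    (hS1M : ∀ z ∈ disc, ‖S1 z‖ ≤ M1) (a : ℂ) {τ : ℝ} (hτ : 0 < τ) :
    ∃ (S : ℂ → ℂ) (Ss : T → ℂ), ContinuousOn S disc ∧ L1b S Ss ∧
      (∀ z ∈ disc, ‖S z‖ ≤ C₀ * (Real.exp (-(τ * η / 2)) * max K 1)) ∧
      BddHol (fun z => Complex.exp (-(τ / 2 : ℝ) * E_Crit H (ext f) a z) * (Y z - S1 z) - S z) := by
  classical
  set B : ℂ → ℂ := fun z => Complex.exp (-(τ / 2 : ℝ) * E_Crit H (ext f) a z) with hB
  have hEd : DifferentiableOn ℂ (E_Crit H (ext f) a) disc := by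
    unfold E_Crit
    exact (hH.sub (hF.const_mul _)).add_const _
  have hBd : DifferentiableOn ℂ B disc := (hEd.const_mul _).cexp
  have hBn : ∀ z ∈ disc, ‖B z‖ = Real.exp (-(τ / 2 * (Osc f z + ‖ext f z - a‖ ^ 2))) := by
    intro z hz
    rw [hB]
    simp only
    rw [Complex.norm_exp]
    congr 1
    have h1 : (-((τ / 2 : ℝ) : ℂ) * E_Crit H (ext f) a z).re = -(τ / 2 * (E_Crit H (ext f) a z).re) := by
      rw [neg_mul, Complex.neg_re, Complex.re_ofReal_mul]
    rw [h1, E_Crit, E_re_Crit, hO z hz]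
  have hB1 : ∀ z ∈ disc, ‖B z‖ ≤ 1 := by
    intro z hz
    rw [hBn z hz, Real.exp_le_one_iff]
    have := hO0 z hz
    have : 0 ≤ τ / 2 * (Osc f z + ‖ext f z - a‖ ^ 2) := by positivity
    linarith
  have hB2 : ∀ z ∈ disc, η ≤ Osc f z → ‖B z‖ ≤ Real.exp (-(τ * η / 2)) := by
    intro z hz h
    rw [hBn z hz]
    apply Real.exp_le_exp.mpr
    have h1 : 0 ≤ ‖ext f z - a‖ ^ 2 := by positivity
    nlinarith
  have hN' : Maj (fun z => Real.exp (-(τ * η / 2)) * N z) (Real.exp (-(τ * η / 2)) * max K 1) :=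
    maj_Crit hN (Real.exp_pos _).le (le_max_left _ _)
  set ν2 : ℂ → ℂ := indicator {z | z ∈ disc ∧ Osc f z < η}ᶜ
    (fun z => (disc.indicator B z) * ν z) with hν2
  have hBm : Measurable (disc.indicator B) := by
    have h1 := hBd.continuousOn.measurable_piecewise (g := fun _ => (0:ℂ)) continuousOn_const
      (measurableSet_ball : MeasurableSet disc)
    rwa [show disc.piecewise B (fun _ => (0:ℂ)) = disc.indicator B from
      piecewise_eq_indicator] at h1
  have hν2m : Measurable ν2 := (hBm.mul hνm).indicator hmO.compl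
  have hν2N : ∀ z ∈ disc, ‖ν2 z‖ ≤ Real.exp (-(τ * η / 2)) * N z := by
    intro z hz
    by_cases h : Osc f z < η
    · rw [hν2, indicator_of_notMem (show z ∉ {z | z ∈ disc ∧ Osc f z < η}ᶜ from
        fun h' => h' ⟨hz, h⟩), norm_zero]
      exact mul_nonneg (Real.exp_pos _).le (hN.nn z)
    · rw [hν2, indicator_of_mem (show z ∈ {z | z ∈ disc ∧ Osc f z < η}ᶜ from fun h' => h h'.2),
        indicator_of_mem hz, norm_mul]
      exact mul_le_mul (hB2 z hz (not_lt.mp h)) (hνN z hz) (norm_nonneg _) (Real.exp_pos _).le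
  obtain ⟨S, Ss, w1, w2, w3⟩ := hdb _ (mul_pos (Real.exp_pos _)
    (lt_of_lt_of_le one_pos (le_max_right K 1))) _ ν2 hN' hν2m hν2N
  refine ⟨S, Ss, w1.cont, w3, w2, ?_, ?_⟩
  · have hdisc : IsOpen disc := isOpen_ball
    have a1 := (hY.add hdisc (hS1.mul_holo hdisc (differentiableOn_const (-1))))
    have a2 := a1.mul_holo hdisc hBd
    have a3 := a2.add hdisc (w1.mul_holo hdisc (differentiableOn_const (-1)))
    have a4 : WD disc (fun z => B z * (Y z - S1 z) - S z) (fun _ => 0) := by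
      refine a3.congr hdisc (fun z _ => by ring) (fun z hz => ?_)
      by_cases h : Osc f z < η
      · rw [hν2, indicator_of_notMem (show z ∉ {z | z ∈ disc ∧ Osc f z < η}ᶜ from
          fun h' => h' ⟨hz, h⟩),
          indicator_of_mem (show z ∈ {z | z ∈ disc ∧ Osc f z < η} from ⟨hz, h⟩)]
        ring
      · rw [hν2, indicator_of_mem (show z ∈ {z | z ∈ disc ∧ Osc f z < η}ᶜ from fun h' => h h'.2),
          indicator_of_mem hz, indicator_of_notMem (fun h' => h h'.2)]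
        ring
    exact a4.holo hdisc (fun z _ => rfl)
  · refine ⟨1 * (M + M1) + C₀ * (Real.exp (-(τ * η / 2)) * max K 1), fun z hz => ?_⟩
    refine (norm_sub_le _ _).trans (add_le_add ?_ (w2 z hz))
    rw [norm_mul]
    exact mul_le_mul (hB1 z hz) ((norm_sub_le _ _).trans (add_le_add (hYM z hz) (hS1M z hz)))
      (norm_nonneg _) zero_le_one

theorem crit (hq : S_qcomp) (hdbar : S_dbar) (hosc : S_osc) (hp : S_poisson) : S_crit := by
  classical
  intro D hD f hf hfc hf1 Y ν Ys N K hY hYM hYb hνm hνN hN hNη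
  obtain ⟨M, hYM⟩ := hYM
  obtain ⟨C₀, hC₀, hdb⟩ := hdbar
  obtain ⟨⟨H, hH, hHre, hO⟩, hO2, -, -⟩ := hosc f hf
  have hO0 : ∀ z ∈ disc, 0 ≤ Osc f z := fun z hz => (hO2 z hz).1
  have hF : DifferentiableOn ℂ (ext f) disc := ext_diff hf.1
  have hQ : QMem D f := ⟨Mem.hinf hD hf, hfc⟩
  have hdisc : IsOpen disc := isOpen_ball
  -- the real part of `H` is at most one
  have hH1 : ∀ z ∈ disc, (H z).re ≤ 1 := by
    intro z hz
    have hz1 : ‖z‖ < 1 := by simpa using hz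
    have hpki : Integrable (pk z) mu := (pk_cont hz1).integrable_of_hasCompactSupport
            (HasCompactSupport.of_compactSpace _)
    rw [hHre z hz]
    refine le_trans ?_ (int_pk hz1).le
    apply integral_mono_of_nonneg
    · exact Eventually.of_forall fun t => mul_nonneg (by positivity) (pk_nonneg hz1 t)
    · exact hpki
    · filter_upwards [hf1] with t ht
      have h1 : ‖f t‖ ^ 2 ≤ 1 := pow_le_one₀ (norm_nonneg _) ht
      calc ‖f t‖ ^ 2 * pk z t ≤ 1 * pk z t := mul_le_mul_of_nonneg_right h1 (pk_nonneg hz1 t)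
        _ = pk z t := one_mul _
  have hOcont : ContinuousOn (Osc f) disc := by
    have h1 : ContinuousOn (fun z => (H z).re - ‖ext f z‖ ^ 2) disc :=
      (Complex.continuous_re.comp_continuousOn hH.continuousOn).sub (hF.continuousOn.norm.pow 2)
    exact h1.congr hO
  refine Mem.closed hD hYb.1 (fun e he => ?_)
  -- the small part
  obtain ⟨η, hη, hNη⟩ := hNη (e / (2 * C₀)) (by positivity)
  have hmO : MeasurableSet {z | z ∈ disc ∧ Osc f z < η} := by
    have h1 := hOcont.isOpen_inter_preimage hdisc (isOpen_Iio (a := η))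
    exact h1.measurableSet
  obtain ⟨S1, S1s, v1, v2, v3⟩ := hdb (e / (2 * C₀)) (by positivity) _
    (indicator {z | z ∈ disc ∧ Osc f z < η} ν) hNη
    (hνm.indicator hmO) (fun z hz => by
      by_cases h : Osc f z < η
      · rw [indicator_of_mem (show z ∈ {z | z ∈ disc ∧ Osc f z < η} from ⟨hz, h⟩)]
        simp only [if_pos h]
        exact hνN z hz
      · rw [indicator_of_notMem (fun h' => h h'.2)]
        simp only [if_neg h, norm_zero]
        exact le_rfl)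
  have hCe : C₀ * (e / (2 * C₀)) = e / 2 := by field_simp
  rw [hCe] at v2
  -- the partition of unity
  obtain ⟨r, hr, hrη⟩ : ∃ r : ℝ, 0 < r ∧ r ^ 2 < η := by
    refine ⟨√(η / 2), Real.sqrt_pos.mpr (by positivity), ?_⟩
    rw [Real.sq_sqrt (by positivity)]
    linarith
  obtain ⟨s, ρ, hρc, hρ0, hρ1, hρs⟩ := part_Crit hr
  -- the parameter
  obtain ⟨τ, hτ, hτe⟩ : ∃ τ : ℝ, 0 < τ ∧
      C₀ * max K 1 * Real.exp (-(τ * (η - r ^ 2) / 2)) ≤ e / 2 := by
    have h1 : Tendsto (fun τ : ℝ => C₀ * max K 1 * Real.exp (-(τ * (η - r ^ 2) / 2))) atTop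
        (𝓝 (C₀ * max K 1 * 0)) := by
      apply Tendsto.const_mul
      apply Real.tendsto_exp_neg_atTop_nhds_zero.comp
      apply Tendsto.atTop_div_const (by norm_num)
      exact tendsto_id.atTop_mul_const (by linarith)
    rw [mul_zero] at h1
    have h2 := h1.eventually (gt_mem_nhds (show 0 < e / 2 by positivity))
    obtain ⟨τ, hτ1, hτ2⟩ := (h2.and (eventually_gt_atTop 0)).exists
    exact ⟨τ, hτ2, hτ1.le⟩
  have hpiece := fun a => piece_Crit hC₀ hdb hH hF hO hO0 hη hY hYM hνm hνN hN hmO v1 v2 a hτ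
  choose S Ss p1 p2 p3 p4 using hpiece
  have hEd : ∀ a, DifferentiableOn ℂ (E_Crit H (ext f) a) disc := by
    intro a
    unfold E_Crit
    exact (hH.sub (hF.const_mul _)).add_const _
  have hEre : ∀ a, ∀ z ∈ disc, (E_Crit H (ext f) a z).re = Osc f z + ‖ext f z - a‖ ^ 2 := by
    intro a z hz
    rw [E_Crit, E_re_Crit, hO z hz]
  have hFb : ∀ z ∈ disc, ‖ext f z‖ ≤ 1 := fun z hz => ext_bound hf hf1 (by simpa using hz)
  have hEub : ∀ a, ∀ z ∈ disc, (E_Crit H (ext f) a z).re ≤ 1 + (1 + ‖a‖) ^ 2 := by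
    intro a z hz
    rw [hEre a z hz]
    have h1 : Osc f z ≤ 1 := by
      rw [hO z hz]
      have := hH1 z hz
      have : 0 ≤ ‖ext f z‖ ^ 2 := by positivity
      linarith
    have h2 : ‖ext f z - a‖ ≤ 1 + ‖a‖ := (norm_sub_le _ _).trans (by linarith [hFb z hz])
    have h3 := pow_le_pow_left₀ (norm_nonneg _) h2 2
    linarith
  have hBB : ∀ a, BddHol (fun z => Complex.exp (-(τ / 2 : ℝ) * E_Crit H (ext f) a z)) := by
    intro a
    refine ⟨((hEd a).const_mul _).cexp, 1, fun z hz => ?_⟩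
    rw [Complex.norm_exp, Real.exp_le_one_iff, neg_mul, Complex.neg_re, Complex.re_ofReal_mul,
      hEre a z hz]
    have := hO0 z hz
    have : 0 ≤ τ / 2 * (Osc f z + ‖ext f z - a‖ ^ 2) := by positivity
    linarith
  have hCC : ∀ a, BddHol (fun z => Complex.exp ((τ / 2 : ℝ) * E_Crit H (ext f) a z)) := by
    intro a
    refine ⟨((hEd a).const_mul _).cexp, Real.exp (τ / 2 * (1 + (1 + ‖a‖) ^ 2)), fun z hz => ?_⟩
    rw [Complex.norm_exp, Complex.re_ofReal_mul]
    apply Real.exp_le_exp.mpr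
    exact mul_le_mul_of_nonneg_left (hEub a z hz) (by positivity)
  choose gh gh1 gh2 gh3 using fun a => bh_rep (p4 a)
  choose gB gB1 gB2 gB3 using fun a => bh_rep (hBB a)
  choose gC gC1 gC2 gC3 using fun a => bh_rep (hCC a)
  -- the common sequence
  have hφm : AEStronglyMeasurable (fun t => ‖f t‖ ^ 2) mu := (hf.1.1.norm.pow 2)
  have hHb : L1b (fun z => ((H z).re : ℂ)) (fun t => ((‖f t‖ ^ 2 : ℝ) : ℂ)) := by
    refine ⟨Complex.continuous_ofReal.comp_aestronglyMeasurable hφm, ?_⟩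
    have h1 := hp (fun t => ‖f t‖ ^ 2) hφm ⟨1, by
      filter_upwards [hf1] with t ht
      rw [abs_of_nonneg (by positivity)]
      exact pow_le_one₀ (norm_nonneg _) ht⟩
    refine h1.congr' ?_
    filter_upwards [Ioo_mem_left] with q hq
    apply lintegral_congr
    intro t
    rw [← hHre _ (mem_Crit hq t), ← Complex.ofReal_sub]
    rw [← ofReal_norm, ← ofReal_norm, Complex.norm_real]
  obtain ⟨q, q1, q2, q3⟩ := seq_Crit (J := Fin 3 ⊕ s)
    (Sum.elim ![Y, S1, fun z => ((H z).re : ℂ)] (fun a => S a))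
    (Sum.elim ![Ys, S1s, fun t => ((‖f t‖ ^ 2 : ℝ) : ℂ)] (fun a => Ss a))
    (by
      rintro (j | a)
      · fin_cases j
        · exact hY.cont
        · exact v1.cont
        · exact Complex.continuous_ofReal.comp_continuousOn
            (Complex.continuous_re.comp_continuousOn hH.continuousOn)
      · exact p1 a)
    (by
      rintro (j | a)
      · fin_cases j
        · exact hYb
        · exact v3
        · exact hHb
      · exact p2 a)
  refine ⟨fun t => ∑ a ∈ s, (ρ a (f t) : ℂ) * (gC a t * gh a t), ?_, ?_⟩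
  · apply sum_Crit hD
    intro a _
    apply Mem.mul hD
    · exact (hq D hD f hQ (fun w => (ρ a w : ℂ)) (Complex.continuous_ofReal.comp (hρc a))).1
    · exact Mem.mul hD (Mem.hinf hD (gC1 a)) (Mem.hinf hD (gh1 a))
  · have A1 : ∀ᵐ t ∂mu, ∀ a : s, Tendsto (fun r : ℝ => (fun z =>
        Complex.exp (-(τ / 2 : ℝ) * E_Crit H (ext f) a z) * (Y z - S1 z) - S a z)
          ((r : ℂ) * pt t)) (𝓝[<] 1) (𝓝 (gh a t)) := by
      rw [ae_all_iff]
      exact fun a => gh3 a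
    have A2 : ∀ᵐ t ∂mu, ∀ a : s, Tendsto (fun r : ℝ => (fun z =>
        Complex.exp (-(τ / 2 : ℝ) * E_Crit H (ext f) a z))
          ((r : ℂ) * pt t)) (𝓝[<] 1) (𝓝 (gB a t)) := by
      rw [ae_all_iff]
      exact fun a => gB3 a
    have A3 : ∀ᵐ t ∂mu, ∀ a : s, Tendsto (fun r : ℝ => (fun z =>
        Complex.exp ((τ / 2 : ℝ) * E_Crit H (ext f) a z))
          ((r : ℂ) * pt t)) (𝓝[<] 1) (𝓝 (gC a t)) := by
      rw [ae_all_iff]
      exact fun a => gC3 a
    filter_upwards [A1, A2, A3, q3, hf1, radial hf] with t t1 t2 t3 t4 t5 t6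
    have hz : ∀ n, (q n : ℂ) * pt t ∈ disc := fun n => mem_Crit (q1 n) t
    have cY := t4 (Sum.inl 0)
    have cS := t4 (Sum.inl 1)
    have cH := t4 (Sum.inl 2)
    simp only [Sum.elim_inl, Matrix.cons_val_zero, Matrix.cons_val_one, Matrix.cons_val] at cY cS cH
    have cF : Tendsto (fun n => ext f ((q n : ℂ) * pt t)) atTop (𝓝 (f t)) := t6.comp q2
    have cHre : Tendsto (fun n => (H ((q n : ℂ) * pt t)).re) atTop (𝓝 (‖f t‖ ^ 2)) := by
      have := (Complex.continuous_re.tendsto _).comp cH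
      simp only [Function.comp_def, Complex.ofReal_re] at this
      exact this
    -- bound for S1s
    have bS1 : ‖S1s t‖ ≤ e / 2 :=
      le_of_tendsto' cS.norm (fun n => v2 _ (hz n))
    -- facts for each centre
    have fact : ∀ a ∈ s, ‖gC a t * (gB a t * (Ys t - S1s t)) - (Ys t - S1s t)‖ = 0 ∧
        gh a t = gB a t * (Ys t - S1s t) - Ss a t ∧
        ‖Ss a t‖ ≤ C₀ * (Real.exp (-(τ * η / 2)) * max K 1) ∧
        ‖gC a t‖ = Real.exp (τ / 2 * ‖f t - a‖ ^ 2) := by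
      intro a ha
      have c1 := (t1 ⟨a, ha⟩).comp q2
      have c2 := (t2 ⟨a, ha⟩).comp q2
      have c3 := (t3 ⟨a, ha⟩).comp q2
      have c4 := t4 (Sum.inr ⟨a, ha⟩)
      simp only [Sum.elim_inr, Function.comp_def] at c1 c2 c3 c4
      refine ⟨?_, ?_, ?_, ?_⟩
      · have h1 : gC a t * gB a t = 1 := by
          refine tendsto_nhds_unique (c3.mul c2) ?_
          refine tendsto_const_nhds.congr (fun n => ?_)
          rw [← Complex.exp_add, neg_mul, add_neg_cancel, Complex.exp_zero]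
        rw [← mul_assoc, h1, one_mul, sub_self, norm_zero]
      · exact tendsto_nhds_unique c1 ((c2.mul (cY.sub cS)).sub c4)
      · exact le_of_tendsto' c4.norm (fun n => p3 a _ (hz n))
      · refine tendsto_nhds_unique c3.norm ?_
        have h1 : Tendsto (fun n => Real.exp (τ / 2 * ((H ((q n : ℂ) * pt t)).re -
            ‖ext f ((q n : ℂ) * pt t)‖ ^ 2 + ‖ext f ((q n : ℂ) * pt t) - a‖ ^ 2))) atTop
            (𝓝 (Real.exp (τ / 2 * (‖f t‖ ^ 2 - ‖f t‖ ^ 2 + ‖f t - a‖ ^ 2)))) := by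
          apply (Real.continuous_exp.tendsto _).comp
          apply Tendsto.const_mul
          exact (cHre.sub (cF.norm.pow 2)).add ((cF.sub_const a).norm.pow 2)
        rw [sub_self, zero_add] at h1
        refine h1.congr (fun n => ?_)
        rw [Complex.norm_exp, Complex.re_ofReal_mul, E_Crit, E_re_Crit]
    have hsum1 := hρ1 (f t) t5
    have hsumC : ∑ a ∈ s, (ρ a (f t) : ℂ) = 1 := by
      rw [← Complex.ofReal_sum, hsum1, Complex.ofReal_one]
    have hid : Ys t - ∑ a ∈ s, (ρ a (f t) : ℂ) * (gC a t * gh a t) =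
        S1s t + ∑ a ∈ s, (ρ a (f t) : ℂ) * (gC a t * Ss a t) := by
      have h1 : ∀ a ∈ s, (ρ a (f t) : ℂ) * (gC a t * gh a t) =
          (ρ a (f t) : ℂ) * (Ys t - S1s t) - (ρ a (f t) : ℂ) * (gC a t * Ss a t) := by
        intro a ha
        obtain ⟨k1, k2, -, -⟩ := fact a ha
        have k3 := sub_eq_zero.mp (norm_eq_zero.mp k1)
        rw [k2, mul_sub, k3]
        ring
      rw [Finset.sum_congr rfl h1, Finset.sum_sub_distrib, ← Finset.sum_mul, hsumC]
      ring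
    rw [hid]
    have hterm : ∀ a ∈ s, ‖(ρ a (f t) : ℂ) * (gC a t * Ss a t)‖ ≤ ρ a (f t) * (e / 2) := by
      intro a ha
      obtain ⟨-, -, k3, k4⟩ := fact a ha
      rw [norm_mul, Complex.norm_real, Real.norm_of_nonneg (hρ0 a _)]
      by_cases h0 : ρ a (f t) = 0
      · rw [h0, zero_mul, zero_mul]
      · apply mul_le_mul_of_nonneg_left _ (hρ0 a _)
        have h1 := hρs a _ h0
        rw [norm_mul, k4]
        have h2 : ‖f t - a‖ ^ 2 ≤ r ^ 2 := pow_le_pow_left₀ (norm_nonneg _) h1.le 2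
        calc Real.exp (τ / 2 * ‖f t - a‖ ^ 2) * ‖Ss a t‖
            ≤ Real.exp (τ / 2 * r ^ 2) * (C₀ * (Real.exp (-(τ * η / 2)) * max K 1)) := by
              apply mul_le_mul _ k3 (norm_nonneg _) (Real.exp_pos _).le
              apply Real.exp_le_exp.mpr
              exact mul_le_mul_of_nonneg_left h2 (by positivity)
          _ = C₀ * max K 1 * (Real.exp (τ / 2 * r ^ 2) * Real.exp (-(τ * η / 2))) := by ring
          _ = C₀ * max K 1 * Real.exp (-(τ * (η - r ^ 2) / 2)) := by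
              rw [← Real.exp_add]
              congr 2
              ring
          _ ≤ e / 2 := hτe
    calc ‖S1s t + ∑ a ∈ s, (ρ a (f t) : ℂ) * (gC a t * Ss a t)‖
        ≤ ‖S1s t‖ + ∑ a ∈ s, ‖(ρ a (f t) : ℂ) * (gC a t * Ss a t)‖ :=
          (norm_add_le _ _).trans (by gcongr; exact norm_sum_le _ _)
      _ ≤ e / 2 + ∑ a ∈ s, ρ a (f t) * (e / 2) := add_le_add bS1 (Finset.sum_le_sum hterm)
      _ = e := by rw [← Finset.sum_mul, hsum1]; ring

end Pool.Agent.H843
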