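import Pool.Agent.H843.Stmts
import Pool.Agent.H720R2.HP.Kern

set_option autoImplicit false

namespace Pool.Agent.H843

open MeasureTheory Filter Topology Metric Set
open scoped ComplexConjugate ENNReal
open Pool.Agent.Helper34.Dg
open Pool.Agent.H720R2.HP (WD db CT)

section

variable {N : ℂ → ℝ}

theorem nint_DbarA (hN : Maj N 1) : IntegrableOn N disc := by
  refine ⟨hN.meas.aestronglyMeasurable, ?_⟩
  have h1 := hN.carl 0 (by simp)
  rw [hasFiniteIntegral_iff_ofReal (Eventually.of_forall hN.nn)]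
  refine lt_of_le_of_lt (le_trans (le_of_eq ?_) h1) ENNReal.ofReal_lt_top
  congr 1
  funext ω
  simp [PP]

theorem one_sub_ne_DbarA {ω z : ℂ} (hω : ω ∈ disc) (hz : z ∈ disc) : 1 - ‖z‖ ≤ ‖1 - conj ω * z‖ := by
  rw [mem_ball_zero_iff] at hω hz
  have h1 := norm_sub_norm_le (1 : ℂ) (conj ω * z)
  rw [norm_one, norm_mul, RCLike.norm_conj] at h1
  have h2 : ‖ω‖ * ‖z‖ ≤ ‖z‖ := mul_le_of_le_one_left (norm_nonneg _) hω.le
  linarith

/-- the integrand of `QK` -/
noncomputable def qf_DbarA (N : ℂ → ℝ) (s : ℝ) (z ω : ℂ) : ℂ :=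
  if s ≤ ‖ω‖ then (N ω : ℂ) * ((1 + conj ω * z) / (1 - conj ω * z)) else 0

theorem qf_meas_DbarA (hN : Measurable N) :
    Measurable (fun p : (ℝ × ℂ) × ℂ => qf_DbarA N p.1.1 p.1.2 p.2) := by
  unfold qf_DbarA
  refine Measurable.ite ?_ ?_ measurable_const
  · exact measurableSet_le (by fun_prop) (by fun_prop)
  · have h1 : Measurable (fun p : (ℝ × ℂ) × ℂ => (N p.2 : ℂ)) :=
      Complex.measurable_ofReal.comp (hN.comp measurable_snd)
    have h2 : Measurable (fun p : (ℝ × ℂ) × ℂ => conj p.2 * p.1.2) :=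
      (Complex.continuous_conj.measurable.comp measurable_snd).mul
        (measurable_snd.comp measurable_fst)
    exact h1.mul ((measurable_const.add h2).div (measurable_const.sub h2))

theorem QK_meas_DbarA (hN : Measurable N) : Measurable (fun p : ℝ × ℂ => QK N p.1 p.2) := by
  have h1 := (qf_meas_DbarA hN).stronglyMeasurable.integral_prod_right'
    (ν := volume.restrict disc)
  exact h1.measurable

theorem qf_bound_DbarA (hN : Maj N 1) (s : ℝ) {z ω : ℂ} (hz : z ∈ disc) (hω : ω ∈ disc) :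
    ‖qf_DbarA N s z ω‖ ≤ N ω * (2 / (1 - ‖z‖)) := by
  unfold qf_DbarA
  have hz1 : ‖z‖ < 1 := by simpa using hz
  have hω1 : ‖ω‖ < 1 := by simpa using hω
  split_ifs
  · rw [norm_mul, Complex.norm_real, Real.norm_of_nonneg (hN.nn ω), norm_div]
    have h1 := one_sub_ne_DbarA hω hz
    have h2 : ‖1 + conj ω * z‖ ≤ 2 := by
      refine (norm_add_le _ _).trans ?_
      rw [norm_one, norm_mul, RCLike.norm_conj]
      nlinarith [norm_nonneg ω, norm_nonneg z]
    have h3 : 0 < 1 - ‖z‖ := by linarith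
    gcongr
    exact hN.nn ω
  · rw [norm_zero]
    have h3 : 0 < 1 - ‖z‖ := by linarith
    have := hN.nn ω
    positivity

theorem qf_int_DbarA (hN : Maj N 1) (s : ℝ) {z : ℂ} (hz : z ∈ disc) :
    IntegrableOn (qf_DbarA N s z) disc := by
  refine ((nint_DbarA hN).mul_const (2 / (1 - ‖z‖))).mono' ?_ ?_
  · have : Measurable (qf_DbarA N s z) :=
      (qf_meas_DbarA hN.meas).comp (measurable_const.prodMk measurable_id :
        Measurable (fun ω : ℂ => (((s, z) : ℝ × ℂ), ω)))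
    exact this.aestronglyMeasurable
  · filter_upwards [ae_restrict_mem measurableSet_ball] with ω hω
    exact qf_bound_DbarA hN s hz hω

theorem QK_diff_DbarA (hN : Maj N 1) (s : ℝ) : DifferentiableOn ℂ (QK N s) disc := by
  intro z0 hz0
  have hz1 : ‖z0‖ < 1 := by simpa using hz0
  set r : ℝ := (1 + ‖z0‖) / 2 with hr
  have hr1 : r < 1 := by rw [hr]; linarith
  have hε : 0 < (1 - ‖z0‖) / 2 := by linarith
  have hball : ∀ z ∈ ball z0 ((1 - ‖z0‖) / 2), ‖z‖ ≤ r := by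
    intro z hz
    rw [mem_ball, dist_eq_norm] at hz
    have h1 := norm_add_le (z - z0) z0
    rw [sub_add_cancel] at h1
    rw [hr]
    linarith
  have key := hasDerivAt_integral_of_dominated_loc_of_deriv_le (𝕜 := ℂ)
    (μ := volume.restrict disc) (F := fun z ω => qf_DbarA N s z ω)
    (F' := fun z ω => if s ≤ ‖ω‖ then (N ω : ℂ) * (2 * conj ω / (1 - conj ω * z) ^ 2) else 0)
    (x₀ := z0) (s := ball z0 ((1 - ‖z0‖) / 2)) (bound := fun ω => N ω * (2 / (1 - r) ^ 2))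
    (ball_mem_nhds _ hε) ?_ (qf_int_DbarA hN s hz0) ?_ ?_
    ((nint_DbarA hN).mul_const _) ?_
  · exact key.2.differentiableAt.differentiableWithinAt
  · refine Eventually.of_forall fun z => ?_
    have : Measurable (qf_DbarA N s z) :=
      (qf_meas_DbarA hN.meas).comp (measurable_const.prodMk measurable_id :
        Measurable (fun ω : ℂ => (((s, z) : ℝ × ℂ), ω)))
    exact this.aestronglyMeasurable
  · have h1 : Measurable (fun ω : ℂ => (N ω : ℂ)) := Complex.measurable_ofReal.comp hN.meas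
    have h2 : Measurable (fun ω : ℂ => conj ω) := Complex.continuous_conj.measurable
    refine (Measurable.ite (measurableSet_le measurable_const measurable_norm) ?_
      measurable_const).aestronglyMeasurable
    exact h1.mul ((h2.const_mul 2).div ((measurable_const.sub (h2.mul_const z0)).pow_const 2))
  · filter_upwards [ae_restrict_mem measurableSet_ball] with ω hω z hz
    have hzr := hball z hz
    have hω1 : ‖ω‖ < 1 := by simpa using hω
    have hzd : z ∈ disc := by rw [mem_ball_zero_iff]; linarith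
    have h1 := one_sub_ne_DbarA hω hzd
    have h3 : 0 < 1 - r := by linarith
    split_ifs
    · rw [norm_mul, Complex.norm_real, Real.norm_of_nonneg (hN.nn ω), norm_div, norm_mul,
        RCLike.norm_conj, norm_pow]
      have h4 : ‖(2 : ℂ)‖ = 2 := by simp
      rw [h4]
      have h5 : (1 - r) ^ 2 ≤ ‖1 - conj ω * z‖ ^ 2 := by
        apply pow_le_pow_left₀ h3.le
        linarith
      have h6 : 2 * ‖ω‖ ≤ 2 := by linarith
      have h7 : 0 < (1 - r) ^ 2 := by positivity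
      gcongr
      exact hN.nn ω
    · rw [norm_zero]
      have := hN.nn ω
      positivity
  · filter_upwards [ae_restrict_mem measurableSet_ball] with ω hω z hz
    have hzr := hball z hz
    have hzd : z ∈ disc := by rw [mem_ball_zero_iff]; linarith
    have h1 := one_sub_ne_DbarA hω hzd
    have h2 : 1 - conj ω * z ≠ 0 := by
      intro h
      rw [h, norm_zero] at h1
      linarith
    unfold qf_DbarA
    split_ifs
    · have h3 : HasDerivAt (fun z : ℂ => 1 + conj ω * z) (conj ω) z := by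
        simpa using ((hasDerivAt_id z).const_mul (conj ω)).const_add 1
      have h4 : HasDerivAt (fun z : ℂ => 1 - conj ω * z) (-conj ω) z := by
        simpa using ((hasDerivAt_id z).const_mul (conj ω)).const_sub 1
      have h5 := (h3.div h4 h2).const_mul (N ω : ℂ)
      refine h5.congr_deriv ?_
      rw [show conj ω * (1 - conj ω * z) - (1 + conj ω * z) * -conj ω = 2 * conj ω by ring]
    · exact hasDerivAt_const _ _

theorem re_frac_DbarA (a : ℂ) (ha : 1 - a ≠ 0) :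
    ((1 + a) / (1 - a)).re = (1 - ‖a‖ ^ 2) / ‖1 - a‖ ^ 2 := by
  rw [Complex.div_re, ← Complex.normSq_eq_norm_sq, ← Complex.normSq_eq_norm_sq,
    Complex.normSq_apply a]
  simp only [Complex.add_re, Complex.one_re, Complex.sub_re, Complex.add_im, Complex.one_im,
    Complex.sub_im]
  rw [← add_div]
  congr 1
  ring

theorem re_QK_DbarA (hN : Maj N 1) (s : ℝ) {z : ℂ} (hz : z ∈ disc) :
    (QK N s z).re = ∫ ω in disc, if s ≤ ‖ω‖ then
      N ω * ((1 - ‖ω‖ ^ 2 * ‖z‖ ^ 2) / ‖1 - conj ω * z‖ ^ 2) else 0 := by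
  have h1 : (QK N s z).re = ∫ ω in disc, (qf_DbarA N s z ω).re := by
    have := Complex.reCLM.integral_comp_comm (qf_int_DbarA hN s hz)
    exact this.symm
  rw [h1]
  refine setIntegral_congr_fun measurableSet_ball fun ω hω => ?_
  have h2 := one_sub_ne_DbarA hω hz
  have hz1 : ‖z‖ < 1 := by simpa using hz
  have h3 : 1 - conj ω * z ≠ 0 := by
    intro h
    rw [h, norm_zero] at h2
    linarith
  unfold qf_DbarA
  split_ifs
  · rw [Complex.re_ofReal_mul, re_frac_DbarA _ h3, norm_mul, RCLike.norm_conj, mul_pow]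
  · rfl

theorem re_nonneg_DbarA (hN : Maj N 1) (s : ℝ) {z : ℂ} (hz : z ∈ disc) : 0 ≤ (QK N s z).re := by
  rw [re_QK_DbarA hN s hz]
  refine setIntegral_nonneg measurableSet_ball fun ω hω => ?_
  have hz1 : ‖z‖ < 1 := by simpa using hz
  have hω1 : ‖ω‖ < 1 := by simpa using hω
  split_ifs
  · refine mul_nonneg (hN.nn ω) (div_nonneg ?_ (by positivity))
    have h1 : ‖ω‖ ^ 2 * ‖z‖ ^ 2 ≤ 1 := by
      rw [← mul_pow]
      apply pow_le_one₀ (by positivity)
      nlinarith [norm_nonneg ω, norm_nonneg z]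
    linarith
  · exact le_rfl

theorem re_int_DbarA (hN : Maj N 1) (s : ℝ) {z : ℂ} (hz : z ∈ disc) :
    IntegrableOn (fun ω => if s ≤ ‖ω‖ then
      N ω * ((1 - ‖ω‖ ^ 2 * ‖z‖ ^ 2) / ‖1 - conj ω * z‖ ^ 2) else 0) disc := by
  have h0 : IntegrableOn (fun ω => (qf_DbarA N s z ω).re) disc :=
    Complex.reCLM.integrable_comp (qf_int_DbarA hN s hz)
  refine h0.congr_fun ?_ measurableSet_ball
  intro ω hω
  have h2 := one_sub_ne_DbarA hω hz
  have hz1 : ‖z‖ < 1 := by simpa using hz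
  have h3 : 1 - conj ω * z ≠ 0 := by
    intro h
    rw [h, norm_zero] at h2
    linarith
  unfold qf_DbarA
  simp only
  split_ifs
  · rw [Complex.re_ofReal_mul, re_frac_DbarA _ h3, norm_mul, RCLike.norm_conj, mul_pow]
  · rfl

theorem pp_int_DbarA (hN : Maj N 1) {z : ℂ} (hz : z ∈ disc) :
    IntegrableOn (fun ω => N ω * PP z ω) disc ∧ ∫ ω in disc, N ω * PP z ω ≤ 1 := by
  have hz1 : ‖z‖ < 1 := by simpa using hz
  have h1 := hN.carl z hz
  have hnn : ∀ ω, 0 ≤ N ω * PP z ω := by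
    intro ω
    unfold PP
    refine mul_nonneg (hN.nn ω) (div_nonneg ?_ (by positivity))
    have : ‖z‖ ^ 2 ≤ 1 := pow_le_one₀ (norm_nonneg z) hz1.le
    linarith
  have hm : Measurable (fun ω => N ω * PP z ω) := by
    unfold PP
    refine hN.meas.mul (measurable_const.div ((measurable_norm.comp ?_).pow_const 2))
    exact measurable_const.sub ((Complex.continuous_conj.measurable).mul_const z)
  have hi : IntegrableOn (fun ω => N ω * PP z ω) disc := by
    refine ⟨hm.aestronglyMeasurable, ?_⟩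
    rw [hasFiniteIntegral_iff_ofReal (Eventually.of_forall hnn)]
    exact lt_of_le_of_lt h1 ENNReal.ofReal_lt_top
  refine ⟨hi, ?_⟩
  rw [← ofReal_integral_eq_lintegral_ofReal hi (Eventually.of_forall hnn)] at h1
  exact (ENNReal.ofReal_le_ofReal_iff (by norm_num)).mp h1

theorem re_le_two_DbarA (hN : Maj N 1) {z : ℂ} (hz : z ∈ disc) : (QK N ‖z‖ z).re ≤ 2 := by
  rw [re_QK_DbarA hN _ hz]
  obtain ⟨hi, hle⟩ := pp_int_DbarA hN hz
  have hz1 : ‖z‖ < 1 := by simpa using hz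
  have h1 : ∫ ω in disc, (if ‖z‖ ≤ ‖ω‖ then
      N ω * ((1 - ‖ω‖ ^ 2 * ‖z‖ ^ 2) / ‖1 - conj ω * z‖ ^ 2) else 0) ≤
      ∫ ω in disc, 2 * (N ω * PP z ω) := by
    refine setIntegral_mono_on (re_int_DbarA hN _ hz) (hi.const_mul 2) measurableSet_ball ?_
    intro ω hω
    unfold PP
    have hz2 : ‖z‖ ^ 2 ≤ 1 := pow_le_one₀ (norm_nonneg z) hz1.le
    split_ifs with hs
    · have h2 : ‖z‖ ^ 2 ≤ ‖ω‖ ^ 2 := pow_le_pow_left₀ (norm_nonneg z) hs 2
      have h3 : 1 - ‖ω‖ ^ 2 * ‖z‖ ^ 2 ≤ 2 * (1 - ‖z‖ ^ 2) := by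
        nlinarith [sq_nonneg (‖z‖), mul_nonneg (sq_nonneg ‖z‖) (sub_nonneg.mpr h2),
          mul_self_nonneg (1 - ‖z‖ ^ 2)]
      calc N ω * ((1 - ‖ω‖ ^ 2 * ‖z‖ ^ 2) / ‖1 - conj ω * z‖ ^ 2) ≤
          N ω * (2 * (1 - ‖z‖ ^ 2) / ‖1 - conj ω * z‖ ^ 2) := by
            apply mul_le_mul_of_nonneg_left _ (hN.nn ω)
            exact div_le_div_of_nonneg_right h3 (by positivity)
        _ = 2 * (N ω * ((1 - ‖z‖ ^ 2) / ‖1 - conj ω * z‖ ^ 2)) := by ring
    · have := hN.nn ω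
      have h4 : 0 ≤ 1 - ‖z‖ ^ 2 := by linarith
      positivity
  rw [integral_const_mul] at h1
  linarith

/-- density of the measure `τ` -/
noncomputable def gd_DbarA (N : ℂ → ℝ) (z ω : ℂ) : ℝ :=
  N ω * ((1 - ‖ω‖ ^ 2) / ‖1 - conj ω * z‖ ^ 2)

theorem gd_meas_DbarA (hN : Measurable N) (z : ℂ) : Measurable (gd_DbarA N z) := by
  unfold gd_DbarA
  refine hN.mul ((measurable_const.sub (measurable_norm.pow_const 2)).div
    ((measurable_norm.comp ?_).pow_const 2))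
  exact measurable_const.sub ((Complex.continuous_conj.measurable).mul_const z)

theorem gd_nn_DbarA (hN : Maj N 1) (z : ℂ) {ω : ℂ} (hω : ω ∈ disc) : 0 ≤ gd_DbarA N z ω := by
  have hω1 : ‖ω‖ < 1 := by simpa using hω
  unfold gd_DbarA
  refine mul_nonneg (hN.nn ω) (div_nonneg ?_ (by positivity))
  have : ‖ω‖ ^ 2 ≤ 1 := pow_le_one₀ (norm_nonneg ω) hω1.le
  linarith

theorem gd_le_DbarA (hN : Maj N 1) {z : ℂ} (hz : z ∈ disc) {ω : ℂ} (hω : ω ∈ disc) :
    gd_DbarA N z ω ≤ N ω * ((1 - ‖ω‖ ^ 2 * ‖z‖ ^ 2) / ‖1 - conj ω * z‖ ^ 2) := by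
  have hz1 : ‖z‖ < 1 := by simpa using hz
  unfold gd_DbarA
  apply mul_le_mul_of_nonneg_left _ (hN.nn ω)
  apply div_le_div_of_nonneg_right _ (by positivity)
  have h1 : ‖z‖ ^ 2 ≤ 1 := pow_le_one₀ (norm_nonneg z) hz1.le
  nlinarith [sq_nonneg ‖ω‖]

theorem gd_int_DbarA (hN : Maj N 1) {z : ℂ} (hz : z ∈ disc) : IntegrableOn (gd_DbarA N z) disc := by
  have h1 := re_int_DbarA hN 0 hz
  refine h1.mono' (gd_meas_DbarA hN.meas z).aestronglyMeasurable ?_
  filter_upwards [ae_restrict_mem measurableSet_ball] with ω hω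
  rw [Real.norm_of_nonneg (gd_nn_DbarA hN z hω), if_pos (norm_nonneg ω)]
  exact gd_le_DbarA hN hz hω

/-- the measure `τ` -/
noncomputable def tau_DbarA (N : ℂ → ℝ) (z : ℂ) : Measure ℂ :=
  (volume.restrict disc).withDensity fun ω => ENNReal.ofReal (gd_DbarA N z ω)

theorem tau_le_DbarA (hN : Maj N 1) {z : ℂ} (hz : z ∈ disc) (s : ℝ) :
    (tau_DbarA N z {y | s ≤ ‖y‖}).toReal ≤ (QK N s z).re := by
  have hS : MeasurableSet {y : ℂ | s ≤ ‖y‖} := measurableSet_le measurable_const measurable_norm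
  refine ENNReal.toReal_le_of_le_ofReal (re_nonneg_DbarA hN s hz) ?_
  unfold tau_DbarA
  rw [withDensity_apply _ hS, re_QK_DbarA hN s hz, ofReal_integral_eq_lintegral_ofReal
    (re_int_DbarA hN s hz), ← lintegral_indicator hS]
  · refine lintegral_mono_ae ?_
    filter_upwards [ae_restrict_mem measurableSet_ball] with ω hω
    by_cases h : s ≤ ‖ω‖
    · rw [indicator_of_mem (show ω ∈ {y : ℂ | s ≤ ‖y‖} from h), if_pos h]
      exact ENNReal.ofReal_le_ofReal (gd_le_DbarA hN hz hω)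
    · rw [indicator_of_notMem (show ω ∉ {y : ℂ | s ≤ ‖y‖} from h)]
      exact zero_le
  · filter_upwards [ae_restrict_mem measurableSet_ball] with ω hω
    show (0 : ℝ) ≤ _
    split_ifs with h
    · exact (gd_nn_DbarA hN z hω).trans (gd_le_DbarA hN hz hω)
    · exact le_rfl

theorem far_DbarA (h : S_tele) (hN : Maj N 1) {z : ℂ} (hz : z ∈ disc) :
    ∫⁻ ζ in disc, ENNReal.ofReal (gd_DbarA N z ζ) * ENNReal.ofReal (Real.exp (-(QK N ‖ζ‖ z).re)) ≤
      1 := by
  have hfin : IsFiniteMeasure (tau_DbarA N z) :=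
    isFiniteMeasure_withDensity_ofReal (gd_int_DbarA hN hz).2
  have h1 := h ℂ (tau_DbarA N z) (fun w => ‖w‖) measurable_norm
  refine le_trans ?_ h1
  have h2 : ∫⁻ x, ENNReal.ofReal (Real.exp (-(tau_DbarA N z {y | ‖x‖ ≤ ‖y‖}).toReal))
      ∂(tau_DbarA N z) = ∫⁻ x in disc, ENNReal.ofReal (gd_DbarA N z x) *
        ENNReal.ofReal (Real.exp (-(tau_DbarA N z {y | ‖x‖ ≤ ‖y‖}).toReal)) := by
    conv_lhs => rw [tau_DbarA]
    rw [lintegral_withDensity_eq_lintegral_mul_non_measurable _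
      (gd_meas_DbarA hN.meas z).ennreal_ofReal
      (Eventually.of_forall fun x => ENNReal.ofReal_lt_top)]
    rfl
  rw [h2]
  refine lintegral_mono fun ζ => ?_
  have h3 := tau_le_DbarA hN hz ‖ζ‖
  gcongr

end

section

variable {N : ℂ → ℝ} {ν : ℂ → ℂ}

theorem BK_meas_DbarA (hN : Measurable N) (hν : Measurable ν) :
    Measurable (fun p : ℂ × ℂ => BK N ν p.1 p.2) := by
  unfold BK
  have h1 : Measurable (fun p : ℂ × ℂ => QK N ‖p.1‖ p.1) :=
    (QK_meas_DbarA hN).comp ((measurable_norm.comp measurable_fst).prodMk measurable_fst)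
  have h2 : Measurable (fun p : ℂ × ℂ => QK N ‖p.1‖ p.2) :=
    (QK_meas_DbarA hN).comp ((measurable_norm.comp measurable_fst).prodMk measurable_snd)
  have h3 : Measurable (fun p : ℂ × ℂ => ((1 - ‖p.1‖ ^ 2 : ℝ) : ℂ)) :=
    Complex.measurable_ofReal.comp (measurable_const.sub
      ((measurable_norm.comp measurable_fst).pow_const 2))
  have h4 : Measurable (fun p : ℂ × ℂ => 1 - conj p.1 * p.2) :=
    measurable_const.sub ((Complex.continuous_conj.measurable.comp measurable_fst).mul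
      measurable_snd)
  exact ((hν.comp measurable_fst).mul (h3.div h4)).mul
    (Complex.continuous_exp.measurable.comp (h1.sub h2))

theorem BK_norm_DbarA (hN : Maj N 1) (hνN : ∀ z ∈ disc, ‖ν z‖ ≤ N z) {ζ z : ℂ} (hζ : ζ ∈ disc)
    (hz : z ∈ disc) : ‖BK N ν ζ z‖ ≤ Real.exp 2 * (N ζ * ((1 - ‖ζ‖ ^ 2) / ‖1 - conj ζ * z‖)) *
      Real.exp (-(QK N ‖ζ‖ z).re) := by
  have hζ1 : ‖ζ‖ < 1 := by simpa using hζ
  have hζ2 : 0 ≤ 1 - ‖ζ‖ ^ 2 := by
    have : ‖ζ‖ ^ 2 ≤ 1 := pow_le_one₀ (norm_nonneg ζ) hζ1.le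
    linarith
  unfold BK
  rw [norm_mul, norm_mul, norm_div, Complex.norm_real, Real.norm_of_nonneg hζ2, Complex.norm_exp,
    Complex.sub_re]
  have h1 := re_le_two_DbarA hN hζ
  have h2 : Real.exp ((QK N ‖ζ‖ ζ).re - (QK N ‖ζ‖ z).re) ≤
      Real.exp 2 * Real.exp (-(QK N ‖ζ‖ z).re) := by
    rw [← Real.exp_add]
    apply Real.exp_le_exp.mpr
    linarith
  have h3 := hνN ζ hζ
  have h4 : 0 ≤ (1 - ‖ζ‖ ^ 2) / ‖1 - conj ζ * z‖ := div_nonneg hζ2 (norm_nonneg _)
  calc ‖ν ζ‖ * ((1 - ‖ζ‖ ^ 2) / ‖1 - conj ζ * z‖) *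
      Real.exp ((QK N ‖ζ‖ ζ).re - (QK N ‖ζ‖ z).re) ≤
      N ζ * ((1 - ‖ζ‖ ^ 2) / ‖1 - conj ζ * z‖) *
        (Real.exp 2 * Real.exp (-(QK N ‖ζ‖ z).re)) := by
        gcongr
        exact mul_nonneg (hN.nn ζ) h4
    _ = _ := by ring

theorem BK_le_DbarA (hN : Maj N 1) (hνN : ∀ z ∈ disc, ‖ν z‖ ≤ N z) {ζ z : ℂ} (hζ : ζ ∈ disc)
    (hz : z ∈ disc) {d : ℝ} (hd : 0 < d) (hdz : d ≤ ‖1 - conj ζ * z‖) :
    ‖BK N ν ζ z‖ ≤ Real.exp 2 / d := by
  have h1 := BK_norm_DbarA hN hνN hζ hz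
  have h2 := hN.pt ζ hζ
  have h3 : Real.exp (-(QK N ‖ζ‖ z).re) ≤ 1 := by
    rw [Real.exp_le_one_iff]
    have := re_nonneg_DbarA hN ‖ζ‖ hz
    linarith
  have h5 : N ζ * ((1 - ‖ζ‖ ^ 2) / ‖1 - conj ζ * z‖) ≤ 1 / d := by
    rw [← mul_div_assoc]
    exact div_le_div₀ (by norm_num) h2 hd hdz
  have hζ1 : ‖ζ‖ < 1 := by simpa using hζ
  have hζ2 : 0 ≤ 1 - ‖ζ‖ ^ 2 := by
    have : ‖ζ‖ ^ 2 ≤ 1 := pow_le_one₀ (norm_nonneg ζ) hζ1.le
    linarith
  have h6 : 0 ≤ N ζ * ((1 - ‖ζ‖ ^ 2) / ‖1 - conj ζ * z‖) :=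
    mul_nonneg (hN.nn ζ) (div_nonneg hζ2 (norm_nonneg _))
  calc ‖BK N ν ζ z‖ ≤ Real.exp 2 * (N ζ * ((1 - ‖ζ‖ ^ 2) / ‖1 - conj ζ * z‖)) *
      Real.exp (-(QK N ‖ζ‖ z).re) := h1
    _ ≤ Real.exp 2 * (1 / d) * 1 := by
        gcongr
    _ = _ := by ring

theorem BK_diff_DbarA (hN : Maj N 1) {ζ : ℂ} (hζ : ζ ∈ disc) :
    DifferentiableOn ℂ (BK N ν ζ) disc := by
  have h1 : DifferentiableOn ℂ (fun z : ℂ => ((1 - ‖ζ‖ ^ 2 : ℝ) : ℂ) / (1 - conj ζ * z)) disc := by
    refine (differentiableOn_const _).div ?_ ?_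
    · exact (differentiableOn_const _).sub (differentiableOn_id.const_mul _)
    · intro z hz h
      have h2 := one_sub_ne_DbarA hζ hz
      have hz1 : ‖z‖ < 1 := by simpa using hz
      rw [h, norm_zero] at h2
      linarith
  exact (h1.const_mul (ν ζ)).mul
    (((differentiableOn_const _).sub (QK_diff_DbarA hN ‖ζ‖)).cexp)

theorem BK_diag_DbarA {z : ℂ} (hz : z ∈ disc) : BK N ν z z = ν z := by
  have hz1 : ‖z‖ < 1 := by simpa using hz
  have h1 : (1 - conj z * z : ℂ) = ((1 - ‖z‖ ^ 2 : ℝ) : ℂ) := by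
    rw [mul_comm, Complex.mul_conj, Complex.normSq_eq_norm_sq]
    push_cast
    ring
  have h2 : ((1 - ‖z‖ ^ 2 : ℝ) : ℂ) ≠ 0 := by
    have : ‖z‖ ^ 2 < 1 := pow_lt_one₀ (norm_nonneg z) hz1 (by norm_num)
    exact_mod_cast (by linarith : (1 - ‖z‖ ^ 2 : ℝ) ≠ 0)
  unfold BK
  rw [h1, div_self h2, sub_self, Complex.exp_zero]
  ring

/-- the truncated kernel -/
noncomputable def Br_DbarA (N : ℂ → ℝ) (ν : ℂ → ℂ) (r : ℝ) (ζ z : ℂ) : ℂ :=
  (disc ×ˢ ball (0 : ℂ) r).indicator (fun p : ℂ × ℂ => BK N ν p.1 p.2) (ζ, z)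

theorem CT_Br_DbarA {r : ℝ} {z : ℂ} (hz : z ∈ ball (0 : ℂ) r) :
    CT (Br_DbarA N ν r) z = RK N ν z := by
  unfold CT RK
  congr 1
  rw [← integral_indicator measurableSet_ball]
  congr 1
  funext ζ
  unfold Br_DbarA
  by_cases hζ : ζ ∈ disc
  · rw [indicator_of_mem hζ, indicator_of_mem (show (ζ, z) ∈ disc ×ˢ ball (0 : ℂ) r from ⟨hζ, hz⟩)]
  · rw [indicator_of_notMem hζ, indicator_of_notMem (fun h => hζ h.1), zero_div]

theorem WD_ball_DbarA (hN : Maj N 1) (hν : Measurable ν) (hνN : ∀ z ∈ disc, ‖ν z‖ ≤ N z) {r : ℝ}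
    (hr : r < 1) : WD (ball 0 r) (CT (Br_DbarA N ν r)) (fun z => Br_DbarA N ν r z z) := by
  have hsub : ball (0 : ℂ) r ⊆ disc := ball_subset_ball hr.le
  refine H720R2.HP.CT_weak (ρ := 1) (M := Real.exp 2 / (1 - r)) isOpen_ball (by norm_num)
    (div_nonneg (Real.exp_pos 2).le (by linarith)) ?_ ?_ ?_
  · exact (BK_meas_DbarA hN.meas hν).indicator (measurableSet_ball.prod measurableSet_ball)
  · intro ζ
    by_cases hζ : ζ ∈ disc
    · refine ((BK_diff_DbarA (ν := ν) hN hζ).mono hsub).congr fun z hz => ?_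
      unfold Br_DbarA
      rw [indicator_of_mem (show (ζ, z) ∈ disc ×ˢ ball (0 : ℂ) r from ⟨hζ, hz⟩)]
    · refine (differentiableOn_const (0 : ℂ)).congr fun z _ => ?_
      unfold Br_DbarA
      rw [indicator_of_notMem (fun h => hζ h.1)]
  · intro ζ w
    have hM : 0 ≤ Real.exp 2 / (1 - r) := div_nonneg (Real.exp_pos 2).le (by linarith)
    unfold Br_DbarA
    by_cases hζ : ζ ∈ disc
    · rw [indicator_of_mem hζ]
      by_cases hw : w ∈ ball (0 : ℂ) r
      · rw [indicator_of_mem (show (ζ, w) ∈ disc ×ˢ ball (0 : ℂ) r from ⟨hζ, hw⟩)]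
        refine BK_le_DbarA hN hνN hζ (hsub hw) (by linarith) ?_
        have h1 := one_sub_ne_DbarA hζ (hsub hw)
        rw [mem_ball_zero_iff] at hw
        linarith
      · rw [indicator_of_notMem (fun h => hw h.2), norm_zero]
        exact hM
    · rw [indicator_of_notMem (fun h => hζ h.1), norm_zero, indicator_of_notMem hζ]

theorem WD_disc_DbarA (hN : Maj N 1) (hν : Measurable ν) (hνN : ∀ z ∈ disc, ‖ν z‖ ≤ N z) :
    WD disc (RK N ν) ν where
  cont := by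
    intro z hz
    have hz1 : ‖z‖ < 1 := by simpa using hz
    have h1 := (WD_ball_DbarA hN hν hνN (r := (1 + ‖z‖) / 2) (by linarith)).cont
    have h2 : z ∈ ball (0 : ℂ) ((1 + ‖z‖) / 2) := by rw [mem_ball_zero_iff]; linarith
    have h3 : ContinuousOn (RK N ν) (ball 0 ((1 + ‖z‖) / 2)) :=
      h1.congr fun w hw => (CT_Br_DbarA hw).symm
    exact (h3.continuousAt (isOpen_ball.mem_nhds h2)).continuousWithinAt
  li := by
    have h1 : IntegrableOn ν disc := by
      refine (nint_DbarA hN).mono' hν.aestronglyMeasurable ?_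
      filter_upwards [ae_restrict_mem measurableSet_ball] with ω hω
      exact hνN ω hω
    exact h1.locallyIntegrableOn
  weak := by
    intro φ hφ hc hs
    obtain ⟨r, hr, hsr⟩ : ∃ r : ℝ, r < 1 ∧ tsupport φ ⊆ ball 0 r := by
      by_cases hne : (tsupport φ).Nonempty
      · obtain ⟨x, hx, hmax⟩ := hc.isCompact.exists_isMaxOn hne continuous_norm.continuousOn
        have hx1 : ‖x‖ < 1 := by simpa using hs hx
        refine ⟨(1 + ‖x‖) / 2, by linarith, fun y hy => ?_⟩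
        rw [mem_ball_zero_iff]
        have : ‖y‖ ≤ ‖x‖ := hmax hy
        linarith
      · rw [not_nonempty_iff_eq_empty] at hne
        exact ⟨0, by norm_num, by rw [hne]; exact empty_subset _⟩
    have h1 := (WD_ball_DbarA hN hν hνN hr).weak φ hφ hc hsr
    have h2 : (fun z => RK N ν z * db φ z) = fun z => CT (Br_DbarA N ν r) z * db φ z := by
      funext z
      by_cases hz : z ∈ tsupport φ
      · rw [CT_Br_DbarA (hsr hz)]
      · rw [H720R2.HP.db_supp hz, mul_zero, mul_zero]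
    have h3 : (fun z => ν z * φ z) = fun z => Br_DbarA N ν r z z * φ z := by
      funext z
      by_cases hz : z ∈ tsupport φ
      · have hz2 : z ∈ disc := hs hz
        unfold Br_DbarA
        rw [indicator_of_mem (show (z, z) ∈ disc ×ˢ ball (0 : ℂ) r from ⟨hz2, hsr hz⟩),
          BK_diag_DbarA hz2]
      · rw [image_eq_zero_of_notMem_tsupport hz, mul_zero, mul_zero]
    rw [h2, h3, h1]

theorem bound_DbarA (h : S_tele) (hN : Maj N 1) (hνN : ∀ z ∈ disc, ‖ν z‖ ≤ N z) {z : ℂ}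
    (hz : z ∈ disc) : ‖RK N ν z‖ ≤ 20 := by
  have hz1 : ‖z‖ < 1 := by simpa using hz
  have hz2 : 0 < 1 - ‖z‖ ^ 2 := by
    have : ‖z‖ ^ 2 < 1 := pow_lt_one₀ (norm_nonneg z) hz1 (by norm_num)
    linarith
  set ρ : ℝ := (1 - ‖z‖ ^ 2) / 4 with hρ
  have hρ0 : 0 < ρ := by positivity
  set c : ℝ := Real.exp 2 / (3 / 4 * (1 - ‖z‖ ^ 2)) with hc
  have hc0 : 0 < c := by positivity
  -- the identity `1 - conj ζ z = (1 - |z|^2) + conj (z - ζ) z`
  have hid : ∀ ζ : ℂ, 1 - conj ζ * z = ((1 - ‖z‖ ^ 2 : ℝ) : ℂ) + conj (z - ζ) * z := by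
    intro ζ
    have h1 : conj z * z = ((‖z‖ ^ 2 : ℝ) : ℂ) := by
      rw [mul_comm, Complex.mul_conj, Complex.normSq_eq_norm_sq]
    rw [map_sub, sub_mul, h1]
    push_cast
    ring
  have hlow : ∀ ζ : ℂ, (1 - ‖z‖ ^ 2) - ‖z - ζ‖ ≤ ‖1 - conj ζ * z‖ := by
    intro ζ
    rw [hid]
    have h1 := norm_sub_le_norm_add (((1 - ‖z‖ ^ 2 : ℝ) : ℂ)) (conj (z - ζ) * z)
    rw [Complex.norm_real, Real.norm_of_nonneg hz2.le, norm_mul, RCLike.norm_conj] at h1
    nlinarith [norm_nonneg (z - ζ), norm_nonneg z]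
  have hupp : ∀ ζ : ℂ, ‖1 - conj ζ * z‖ ≤ (1 - ‖z‖ ^ 2) + ‖z - ζ‖ := by
    intro ζ
    rw [hid]
    have h1 := norm_add_le (((1 - ‖z‖ ^ 2 : ℝ) : ℂ)) (conj (z - ζ) * z)
    rw [Complex.norm_real, Real.norm_of_nonneg hz2.le, norm_mul, RCLike.norm_conj] at h1
    nlinarith [norm_nonneg (z - ζ), norm_nonneg z]
  -- pointwise bound
  have hpt : ∀ ζ ∈ disc, ENNReal.ofReal ‖BK N ν ζ z / (z - ζ)‖ ≤
      (ball z ρ).indicator (fun ζ => ENNReal.ofReal (c * ‖z - ζ‖⁻¹)) ζ +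
      ENNReal.ofReal (5 * Real.exp 2) * (ENNReal.ofReal (gd_DbarA N z ζ) *
        ENNReal.ofReal (Real.exp (-(QK N ‖ζ‖ z).re))) := by
    intro ζ hζ
    by_cases hb : ζ ∈ ball z ρ
    · rw [indicator_of_mem hb]
      refine le_trans ?_ (le_add_right le_rfl)
      apply ENNReal.ofReal_le_ofReal
      rw [norm_div, div_eq_mul_inv]
      apply mul_le_mul_of_nonneg_right _ (by positivity)
      refine BK_le_DbarA hN hνN hζ hz (by positivity) ?_
      rw [mem_ball, dist_comm, dist_eq_norm] at hb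
      have := hlow ζ
      rw [hρ] at hb
      linarith
    · refine le_trans ?_ (le_add_left le_rfl)
      rw [← ENNReal.ofReal_mul (gd_nn_DbarA hN z hζ), ← ENNReal.ofReal_mul (by positivity)]
      apply ENNReal.ofReal_le_ofReal
      rw [mem_ball, dist_comm, dist_eq_norm, not_lt, hρ] at hb
      have h1 := BK_norm_DbarA hN hνN hζ hz
      have h2 : ‖1 - conj ζ * z‖ ≤ 5 * ‖z - ζ‖ := by
        have := hupp ζ
        linarith
      have h3 : 0 < ‖z - ζ‖ := lt_of_lt_of_le (by positivity) hb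
      have h4 : 0 < ‖1 - conj ζ * z‖ := by
        have := one_sub_ne_DbarA hζ hz
        linarith
      have h5 : ‖z - ζ‖⁻¹ ≤ 5 * ‖1 - conj ζ * z‖⁻¹ := by
        rw [← div_eq_mul_inv, le_div_iff₀ h4, inv_mul_le_iff₀ h3]
        linarith
      have hζ1 : ‖ζ‖ < 1 := by simpa using hζ
      have hζ2 : 0 ≤ 1 - ‖ζ‖ ^ 2 := by
        have : ‖ζ‖ ^ 2 ≤ 1 := pow_le_one₀ (norm_nonneg ζ) hζ1.le
        linarith
      rw [norm_div, div_eq_mul_inv]
      have h6 : 0 ≤ Real.exp 2 * (N ζ * ((1 - ‖ζ‖ ^ 2) / ‖1 - conj ζ * z‖)) *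
          Real.exp (-(QK N ‖ζ‖ z).re) := (norm_nonneg _).trans h1
      calc ‖BK N ν ζ z‖ * ‖z - ζ‖⁻¹ ≤ (Real.exp 2 * (N ζ * ((1 - ‖ζ‖ ^ 2) / ‖1 - conj ζ * z‖)) *
          Real.exp (-(QK N ‖ζ‖ z).re)) * (5 * ‖1 - conj ζ * z‖⁻¹) :=
            mul_le_mul h1 h5 (by positivity) h6
        _ = 5 * Real.exp 2 * (gd_DbarA N z ζ * Real.exp (-(QK N ‖ζ‖ z).re)) := by
            unfold gd_DbarA
            field_simp
  -- the near part
  have hnear : ∫⁻ ζ in disc, (ball z ρ).indicator (fun ζ => ENNReal.ofReal (c * ‖z - ζ‖⁻¹)) ζ ≤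
      ENNReal.ofReal (c * (2 * Real.pi * ρ)) := by
    refine (lintegral_mono' Measure.restrict_le_self le_rfl).trans ?_
    rw [lintegral_indicator measurableSet_ball, ← H720R2.HP.inv_ball_eq z hρ0.le,
      ← integral_const_mul, ofReal_integral_eq_lintegral_ofReal
        ((H720R2.HP.inv_ball_int z ρ).const_mul c)]
    exact Eventually.of_forall fun ζ => by
      show (0 : ℝ) ≤ c * ‖z - ζ‖⁻¹
      positivity
  have hm : Measurable ((ball z ρ).indicator (fun ζ : ℂ => ENNReal.ofReal (c * ‖z - ζ‖⁻¹))) := by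
    apply Measurable.indicator _ measurableSet_ball
    apply Measurable.ennreal_ofReal
    exact ((measurable_norm.comp (measurable_const.sub measurable_id)).inv).const_mul c
  have htot : ∫⁻ ζ in disc, ENNReal.ofReal ‖BK N ν ζ z / (z - ζ)‖ ≤
      ENNReal.ofReal (c * (2 * Real.pi * ρ) + 5 * Real.exp 2) := by
    calc ∫⁻ ζ in disc, ENNReal.ofReal ‖BK N ν ζ z / (z - ζ)‖ ≤
        ∫⁻ ζ in disc, ((ball z ρ).indicator (fun ζ => ENNReal.ofReal (c * ‖z - ζ‖⁻¹)) ζ +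
          ENNReal.ofReal (5 * Real.exp 2) * (ENNReal.ofReal (gd_DbarA N z ζ) *
            ENNReal.ofReal (Real.exp (-(QK N ‖ζ‖ z).re)))) := by
          refine lintegral_mono_ae ?_
          filter_upwards [ae_restrict_mem measurableSet_ball] with ζ hζ
          exact hpt ζ hζ
      _ = (∫⁻ ζ in disc, (ball z ρ).indicator (fun ζ => ENNReal.ofReal (c * ‖z - ζ‖⁻¹)) ζ) +
          ENNReal.ofReal (5 * Real.exp 2) * ∫⁻ ζ in disc, (ENNReal.ofReal (gd_DbarA N z ζ) *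
            ENNReal.ofReal (Real.exp (-(QK N ‖ζ‖ z).re))) := by
          rw [lintegral_add_left hm, lintegral_const_mul' _ _ ENNReal.ofReal_ne_top]
      _ ≤ ENNReal.ofReal (c * (2 * Real.pi * ρ)) + ENNReal.ofReal (5 * Real.exp 2) * 1 := by
          have := far_DbarA h hN hz
          gcongr
      _ = _ := by
          rw [mul_one, ← ENNReal.ofReal_add (by positivity) (by positivity)]
  have hint : ‖∫ ζ in disc, BK N ν ζ z / (z - ζ)‖ ≤ c * (2 * Real.pi * ρ) + 5 * Real.exp 2 := by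
    refine (norm_integral_le_lintegral_norm _).trans ?_
    exact ENNReal.toReal_le_of_le_ofReal (by positivity) htot
  unfold RK
  rw [norm_mul]
  have hpi := Real.pi_pos
  have h1 : ‖(1 / Real.pi : ℂ)‖ = 1 / Real.pi := by
    rw [norm_div, norm_one, Complex.norm_real, Real.norm_of_nonneg hpi.le]
  rw [h1]
  have h2 : c * (2 * Real.pi * ρ) = Real.exp 2 * (2 * Real.pi / 3) := by
    rw [hc, hρ]
    field_simp
  rw [h2] at hint
  have h3 : Real.exp 2 ≤ 7.4 := by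
    have h4 : Real.exp 2 = Real.exp 1 * Real.exp 1 := by rw [← Real.exp_add]; norm_num
    have h5 := Real.exp_one_lt_d9
    have h6 := Real.exp_pos 1
    rw [h4]
    nlinarith
  have h4 := Real.pi_gt_d2
  calc 1 / Real.pi * ‖∫ ζ in disc, BK N ν ζ z / (z - ζ)‖ ≤
      1 / Real.pi * (Real.exp 2 * (2 * Real.pi / 3) + 5 * Real.exp 2) := by gcongr
    _ = Real.exp 2 * (2 / 3) + 5 * Real.exp 2 / Real.pi := by field_simp
    _ ≤ 7.4 * (2 / 3) + 5 * 7.4 / 3.14 := by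
        gcongr
    _ ≤ 20 := by norm_num

end

theorem dbarA (h : S_tele) : S_dbarA := by
  intro N ν hN hν hνN
  exact ⟨WD_disc_DbarA hN hν hνN, fun z hz => bound_DbarA h hN hνN hz⟩

end Pool.Agent.H843
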