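import Pool.Agent.H843.Stmts
import Pool.Agent.H720R2.HP.Kern

/-!
Part A3 of the proof of MP_e1e648_an: boundary values in `L¹` of the kernel solution of `∂̄`.
-/

set_option autoImplicit false

namespace Pool.Agent.H843

open MeasureTheory Filter Topology Metric Set
open scoped ComplexConjugate ENNReal
open Pool.Agent.Helper34.Dg
open Pool.Agent.H720R2.HP (WD db)

section DB

/-- the Herglotz kernel -/
private noncomputable def hk_DbarB (z ω : ℂ) : ℂ := (1 + conj ω * z) / (1 - conj ω * z)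

private lemma den_DbarB {z ω : ℂ} (hω : ‖ω‖ ≤ 1) : 1 - ‖z‖ ≤ ‖1 - conj ω * z‖ := by
  have h1 : ‖conj ω * z‖ ≤ ‖z‖ := by
    rw [norm_mul, RCLike.norm_conj]
    calc ‖ω‖ * ‖z‖ ≤ 1 * ‖z‖ := by gcongr
      _ = ‖z‖ := one_mul _
  have h2 := norm_sub_norm_le (1 : ℂ) (conj ω * z)
  rw [norm_one] at h2
  linarith

private lemma den2_DbarB {z ω : ℂ} (hz : ‖z‖ ≤ 1) : 1 - ‖ω‖ ≤ ‖1 - conj ω * z‖ := by
  have h1 : ‖conj ω * z‖ ≤ ‖ω‖ := by
    rw [norm_mul, RCLike.norm_conj]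
    calc ‖ω‖ * ‖z‖ ≤ ‖ω‖ * 1 := by gcongr
      _ = ‖ω‖ := mul_one _
  have h2 := norm_sub_norm_le (1 : ℂ) (conj ω * z)
  rw [norm_one] at h2
  linarith

private lemma hk_norm_DbarB {z ω : ℂ} (hz : ‖z‖ < 1) (hω : ‖ω‖ ≤ 1) :
    ‖hk_DbarB z ω‖ ≤ 2 / (1 - ‖z‖) := by
  have h1 := den_DbarB (z := z) hω
  rw [hk_DbarB, norm_div]
  have h2 : ‖1 + conj ω * z‖ ≤ 2 := by
    refine (norm_add_le _ _).trans ?_
    rw [norm_one, norm_mul, RCLike.norm_conj]
    have : ‖ω‖ * ‖z‖ ≤ 1 * 1 := by gcongr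
    linarith
  have h3 : 0 < 1 - ‖z‖ := by linarith
  gcongr

private lemma hk_norm2_DbarB {z ω : ℂ} (hz : ‖z‖ ≤ 1) (hω : ‖ω‖ < 1) :
    ‖hk_DbarB z ω‖ ≤ 2 / (1 - ‖ω‖) := by
  have h1 := den2_DbarB (ω := ω) hz
  rw [hk_DbarB, norm_div]
  have h2 : ‖1 + conj ω * z‖ ≤ 2 := by
    refine (norm_add_le _ _).trans ?_
    rw [norm_one, norm_mul, RCLike.norm_conj]
    have : ‖ω‖ * ‖z‖ ≤ 1 * 1 := by gcongr
    linarith
  have h3 : 0 < 1 - ‖ω‖ := by linarith
  gcongr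

private lemma hk_re_DbarB {z ω : ℂ} (h : 1 - conj ω * z ≠ 0) :
    (hk_DbarB z ω).re = (1 - ‖ω‖ ^ 2 * ‖z‖ ^ 2) / ‖1 - conj ω * z‖ ^ 2 := by
  have h1 : ‖ω‖ ^ 2 * ‖z‖ ^ 2 = Complex.normSq (conj ω * z) := by
    rw [Complex.normSq_mul, Complex.normSq_conj, Complex.normSq_eq_norm_sq,
      Complex.normSq_eq_norm_sq]
  rw [h1, ← Complex.normSq_eq_norm_sq, hk_DbarB]
  generalize conj ω * z = a at *
  have h2 : Complex.normSq (1 - a) ≠ 0 := by rwa [Ne, Complex.normSq_eq_zero]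
  rw [Complex.div_re]
  rw [← add_div]
  congr 1
  simp only [Complex.add_re, Complex.one_re, Complex.sub_re, Complex.add_im, Complex.one_im,
    Complex.sub_im, Complex.normSq_apply]
  ring

private lemma hk_meas_DbarB : Measurable (fun p : ℂ × ℂ => hk_DbarB p.1 p.2) := by
  unfold hk_DbarB
  fun_prop

variable {N : ℂ → ℝ} {ν : ℂ → ℂ}

private lemma N_lint_DbarB (h : Maj N 1) : ∫⁻ ω in disc, ENNReal.ofReal (N ω) ≤ 1 := by
  have h1 := h.carl 0 (by simp)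
  simpa [PP] using h1

private lemma N_int_DbarB (h : Maj N 1) : IntegrableOn N disc := by
  refine ⟨h.meas.aestronglyMeasurable, ?_⟩
  rw [hasFiniteIntegral_iff_ofReal (Eventually.of_forall h.nn)]
  exact (N_lint_DbarB h).trans_lt ENNReal.one_lt_top

/-- the integrand of `QK` -/
private noncomputable def qi_DbarB (N : ℂ → ℝ) (s : ℝ) (z ω : ℂ) : ℂ :=
  if s ≤ ‖ω‖ then (N ω : ℂ) * hk_DbarB z ω else 0

private lemma QK_eq_DbarB (s : ℝ) (z : ℂ) : QK N s z = ∫ ω in disc, qi_DbarB N s z ω := rfl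

private lemma qi_meas_DbarB (h : Maj N 1) :
    Measurable (fun p : (ℝ × ℂ) × ℂ => qi_DbarB N p.1.1 p.1.2 p.2) := by
  unfold qi_DbarB
  refine Measurable.ite ?_ ?_ measurable_const
  · exact measurableSet_le (by fun_prop) (by fun_prop)
  · have h1 : Measurable (fun p : (ℝ × ℂ) × ℂ => (N p.2 : ℂ)) :=
      Complex.measurable_ofReal.comp (h.meas.comp measurable_snd)
    have h3 : Measurable (fun p : (ℝ × ℂ) × ℂ => hk_DbarB p.1.2 p.2) := by
      unfold hk_DbarB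
      fun_prop
    exact h1.mul h3

private lemma QK_meas_DbarB (h : Maj N 1) : Measurable (fun p : ℝ × ℂ => QK N p.1 p.2) := by
  have h1 : StronglyMeasurable (Function.uncurry fun (p : ℝ × ℂ) (ω : ℂ) => qi_DbarB N p.1 p.2 ω) :=
    (qi_meas_DbarB h).stronglyMeasurable
  exact (h1.integral_prod_right (ν := volume.restrict disc)).measurable

private lemma qi_int_DbarB (h : Maj N 1) (s : ℝ) {z : ℂ} (hz : ‖z‖ < 1) :
    IntegrableOn (qi_DbarB N s z) disc := by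
  refine ((N_int_DbarB h).mul_const (2 / (1 - ‖z‖))).mono' ?_ ?_
  · exact ((qi_meas_DbarB h).comp (measurable_const (a := (s, z)).prodMk measurable_id)).aestronglyMeasurable
  · refine (ae_restrict_iff' measurableSet_ball).2 (Eventually.of_forall fun ω hω => ?_)
    have hω' : ‖ω‖ ≤ 1 := by simpa using (mem_ball_zero_iff.1 hω).le
    have h0 := h.nn ω
    have hz' : 0 < 1 - ‖z‖ := by linarith
    unfold qi_DbarB
    split_ifs
    · rw [norm_mul, Complex.norm_real, Real.norm_of_nonneg h0]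
      gcongr
      exact hk_norm_DbarB hz hω'
    · rw [norm_zero]; positivity

private lemma QK_re_nonneg_DbarB (h : Maj N 1) (s : ℝ) {z : ℂ} (hz : ‖z‖ < 1) :
    0 ≤ (QK N s z).re := by
  rw [QK_eq_DbarB]
  have h1 := Complex.reCLM.integral_comp_comm (qi_int_DbarB h s hz)
  simp only [Complex.reCLM_apply] at h1
  rw [← h1]
  refine setIntegral_nonneg measurableSet_ball fun ω hω => ?_
  have hω' : ‖ω‖ < 1 := by simpa using (mem_ball_zero_iff.1 hω)
  have h0 := h.nn ω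
  unfold qi_DbarB
  split_ifs
  · rw [Complex.re_ofReal_mul]
    refine mul_nonneg h0 ?_
    have hd := den_DbarB (z := z) hω'.le
    have hne : 1 - conj ω * z ≠ 0 := by
      intro h5
      rw [h5, norm_zero] at hd
      linarith
    rw [hk_re_DbarB hne]
    have : ‖ω‖ ^ 2 * ‖z‖ ^ 2 ≤ 1 ^ 2 * 1 ^ 2 := by gcongr
    have h6 : 0 ≤ 1 - ‖ω‖ ^ 2 * ‖z‖ ^ 2 := by linarith
    positivity
  · simp

private lemma QK_re_le_DbarB (h : Maj N 1) {z : ℂ} (hz : ‖z‖ < 1) :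
    (QK N ‖z‖ z).re ≤ 2 := by
  rw [QK_eq_DbarB]
  have h1 := Complex.reCLM.integral_comp_comm (qi_int_DbarB h ‖z‖ hz)
  simp only [Complex.reCLM_apply] at h1
  rw [← h1]
  have hmem : z ∈ disc := by simpa using hz
  have hcarl := h.carl z hmem
  have hPPm : Measurable (fun ω => N ω * PP z ω) := by
    refine h.meas.mul ?_
    unfold PP
    fun_prop
  have hPP0 : ∀ ω, 0 ≤ N ω * PP z ω := by
    intro ω
    refine mul_nonneg (h.nn ω) ?_
    unfold PP
    have : ‖z‖ ^ 2 ≤ 1 ^ 2 := by gcongr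
    have h6 : 0 ≤ 1 - ‖z‖ ^ 2 := by linarith
    positivity
  have hPPi : IntegrableOn (fun ω => N ω * PP z ω) disc := by
    refine ⟨hPPm.aestronglyMeasurable, ?_⟩
    rw [hasFiniteIntegral_iff_ofReal (Eventually.of_forall hPP0)]
    exact hcarl.trans_lt ENNReal.ofReal_lt_top
  have hle : ∫ ω in disc, N ω * PP z ω ≤ 1 := by
    rw [integral_eq_lintegral_of_nonneg_ae (Eventually.of_forall hPP0) hPPm.aestronglyMeasurable]
    exact ENNReal.toReal_le_of_le_ofReal zero_le_one hcarl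
  calc ∫ ω in disc, (qi_DbarB N ‖z‖ z ω).re ≤ ∫ ω in disc, 2 * (N ω * PP z ω) := by
        refine setIntegral_mono_on ?_ (hPPi.const_mul 2) measurableSet_ball fun ω hω => ?_
        · exact (qi_int_DbarB h ‖z‖ hz).re
        have hω' : ‖ω‖ < 1 := by simpa using (mem_ball_zero_iff.1 hω)
        have h0 := h.nn ω
        unfold qi_DbarB
        split_ifs with hc
        · rw [Complex.re_ofReal_mul]
          have hd := den_DbarB (z := z) hω'.le
          have hne : 1 - conj ω * z ≠ 0 := by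
            intro h5
            rw [h5, norm_zero] at hd
            linarith
          rw [hk_re_DbarB hne]
          have hpos : 0 < ‖1 - conj ω * z‖ ^ 2 := by positivity
          have h7 : (1 - ‖ω‖ ^ 2 * ‖z‖ ^ 2) ≤ 2 * (1 - ‖z‖ ^ 2) := by
            have h8 : ‖z‖ ^ 2 * ‖z‖ ^ 2 ≤ ‖ω‖ ^ 2 * ‖z‖ ^ 2 := by gcongr
            have h9 : ‖z‖ ^ 2 ≤ 1 ^ 2 := by gcongr
            nlinarith
          have h10 : (1 - ‖ω‖ ^ 2 * ‖z‖ ^ 2) / ‖1 - conj ω * z‖ ^ 2 ≤ 2 * PP z ω := by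
            unfold PP
            rw [← mul_div_assoc]
            gcongr
          calc N ω * ((1 - ‖ω‖ ^ 2 * ‖z‖ ^ 2) / ‖1 - conj ω * z‖ ^ 2) ≤ N ω * (2 * PP z ω) := by
                gcongr
            _ = 2 * (N ω * PP z ω) := by ring
        · rw [Complex.zero_re]
          have := hPP0 ω
          positivity
    _ = 2 * ∫ ω in disc, N ω * PP z ω := integral_const_mul _ _
    _ ≤ 2 * 1 := by gcongr
    _ = 2 := by norm_num

/-! ### radial integrals -/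

private lemma sub_sq_DbarB (G : ℝ → ℝ≥0∞) :
    ∫⁻ u in Ioi (0 : ℝ), G u = ∫⁻ v in Ioi (0 : ℝ), ENNReal.ofReal (2 * v) * G (v ^ 2) := by
  have himg : (fun v : ℝ => v ^ 2) '' Ioi (0 : ℝ) = Ioi (0 : ℝ) := by
    ext u
    constructor
    · rintro ⟨v, hv, rfl⟩
      have hv' : (0 : ℝ) < v := hv
      exact (by positivity : (0 : ℝ) < v ^ 2)
    · intro hu
      have hu' : (0 : ℝ) < u := hu
      exact ⟨Real.sqrt u, Real.sqrt_pos.2 hu', Real.sq_sqrt hu'.le⟩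
  have hinj : InjOn (fun v : ℝ => v ^ 2) (Ioi (0 : ℝ)) := by
    intro a ha b hb hab
    have ha' : (0 : ℝ) < a := ha
    have hb' : (0 : ℝ) < b := hb
    have hab' : a ^ 2 = b ^ 2 := hab
    exact (pow_left_inj₀ ha'.le hb'.le two_ne_zero).1 hab'
  have h := lintegral_image_eq_lintegral_abs_deriv_mul (f := fun v : ℝ => v ^ 2)
    (f' := fun v : ℝ => 2 * v) measurableSet_Ioi
    (fun v _ => by simpa using (hasDerivAt_pow 2 v).hasDerivWithinAt) hinj G
  rw [himg] at h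
  rw [h]
  refine setLIntegral_congr_fun measurableSet_Ioi fun v hv => ?_
  have hv' : (0 : ℝ) < v := hv
  rw [abs_of_pos (by positivity)]

private lemma radial_DbarB (G : ℝ → ℝ≥0∞) (hG : Measurable G) :
    ∫⁻ ζ : ℂ, G (‖ζ‖ ^ 2) = ENNReal.ofReal Real.pi * ∫⁻ u in Ioi (0 : ℝ), G u := by
  rw [← Complex.lintegral_comp_polarCoord_symm, polarCoord_target, sub_sq_DbarB]
  have h1 : ∫⁻ p in Ioi (0 : ℝ) ×ˢ Ioo (-Real.pi) Real.pi,
      ENNReal.ofReal p.1 • G (‖Complex.polarCoord.symm p‖ ^ 2) =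
      ∫⁻ p in Ioi (0 : ℝ) ×ˢ Ioo (-Real.pi) Real.pi, ENNReal.ofReal p.1 * G (p.1 ^ 2) := by
    refine setLIntegral_congr_fun (measurableSet_Ioi.prod measurableSet_Ioo) fun p hp => ?_
    simp only [smul_eq_mul]
    rw [Complex.norm_polarCoord_symm, sq_abs]
  rw [h1, Measure.volume_eq_prod, ← Measure.prod_restrict]
  rw [lintegral_prod _ (by fun_prop)]
  simp only [lintegral_const, Measure.restrict_apply_univ, Real.volume_Ioo]
  rw [lintegral_mul_const _ (by fun_prop)]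
  have h2 : ∀ v ∈ Ioi (0 : ℝ), ENNReal.ofReal (2 * v) * G (v ^ 2) =
      ENNReal.ofReal 2 * (ENNReal.ofReal v * G (v ^ 2)) := by
    intro v _
    rw [ENNReal.ofReal_mul (by norm_num), mul_assoc]
  rw [setLIntegral_congr_fun measurableSet_Ioi h2, lintegral_const_mul _ (by fun_prop)]
  rw [← mul_assoc, ← ENNReal.ofReal_mul Real.pi_pos.le, mul_comm]
  congr 2
  ring

/-- the singular radial weight -/
private lemma sing_DbarB (r c δ : ℝ) (hc : 0 ≤ c) :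
    ∫⁻ ζ : ℂ, ENNReal.ofReal (if |r ^ 2 - ‖ζ‖ ^ 2| < δ then
      c * (Real.sqrt |r ^ 2 - ‖ζ‖ ^ 2|)⁻¹ else 0) ≤ ENNReal.ofReal (4 * Real.pi * c * Real.sqrt δ) := by
  set Φ : ℝ → ℝ≥0∞ := fun x => ENNReal.ofReal (if |x| < δ then c * (Real.sqrt |x|)⁻¹ else 0) with hΦ
  have hΦm : Measurable Φ := by
    refine ENNReal.measurable_ofReal.comp (Measurable.ite ?_ ?_ measurable_const)
    · exact measurableSet_lt (by fun_prop) measurable_const
    · fun_prop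
  have h1 := radial_DbarB (fun u => Φ (r ^ 2 - u)) (by fun_prop)
  have h2 : ∫⁻ u in Ioi (0 : ℝ), Φ (r ^ 2 - u) ≤ ∫⁻ x, Φ x := by
    calc ∫⁻ u in Ioi (0 : ℝ), Φ (r ^ 2 - u) ≤ ∫⁻ u, Φ (r ^ 2 - u) := setLIntegral_le_lintegral _ _
      _ = ∫⁻ x, Φ x := lintegral_sub_left_eq_self Φ (r ^ 2)
  have h3 : ∫⁻ x in Ioi (0 : ℝ), Φ x ≤ ENNReal.ofReal (2 * c * Real.sqrt δ) := by
    rw [sub_sq_DbarB]
    calc ∫⁻ v in Ioi (0 : ℝ), ENNReal.ofReal (2 * v) * Φ (v ^ 2)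
        ≤ ∫⁻ v in Ioi (0 : ℝ), (Ioo 0 (Real.sqrt δ)).indicator (fun _ => ENNReal.ofReal (2 * c)) v := by
          refine setLIntegral_mono (measurable_const.indicator measurableSet_Ioo) fun v hv => ?_
          have hv' : (0 : ℝ) < v := hv
          have e1 : |v ^ 2| = v ^ 2 := abs_of_pos (by positivity)
          simp only [hΦ]
          rw [e1, Real.sqrt_sq hv'.le]
          by_cases hlt : v ^ 2 < δ
          · rw [if_pos hlt]
            have hmem : v ∈ Ioo 0 (Real.sqrt δ) := ⟨hv', Real.lt_sqrt_of_sq_lt hlt⟩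
            rw [indicator_of_mem hmem, ← ENNReal.ofReal_mul (by positivity)]
            apply le_of_eq
            congr 1
            field_simp
          · rw [if_neg hlt]
            simp
      _ ≤ ∫⁻ v, (Ioo 0 (Real.sqrt δ)).indicator (fun _ => ENNReal.ofReal (2 * c)) v :=
          setLIntegral_le_lintegral _ _
      _ = ENNReal.ofReal (2 * c) * ENNReal.ofReal (Real.sqrt δ) := by
          rw [lintegral_indicator measurableSet_Ioo, setLIntegral_const, Real.volume_Ioo, sub_zero]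
      _ = ENNReal.ofReal (2 * c * Real.sqrt δ) := by
          rw [← ENNReal.ofReal_mul (by positivity)]
  have h4 : ∫⁻ x, Φ x ≤ ENNReal.ofReal (4 * c * Real.sqrt δ) := by
    have h5 : ∫⁻ x in Iio (0 : ℝ), Φ x = ∫⁻ x in Ioi (0 : ℝ), Φ x := by
      have h6 := (Measure.measurePreserving_neg (volume : Measure ℝ)).setLIntegral_comp_preimage_emb
        (MeasurableEquiv.neg ℝ).measurableEmbedding Φ (Iio (0 : ℝ))
      rw [← h6]
      have h7 : (fun x : ℝ => -x) ⁻¹' Iio (0 : ℝ) = Ioi (0 : ℝ) := by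
        ext x; simp
      have h8 : (Neg.neg ⁻¹' Iio (0 : ℝ)) = Ioi (0 : ℝ) := h7
      rw [h8]
      refine setLIntegral_congr_fun measurableSet_Ioi fun x _ => ?_
      simp only [hΦ, abs_neg]
    have h9 : ∫⁻ x, Φ x = (∫⁻ x in Iio (0 : ℝ), Φ x) + ∫⁻ x in Ioi (0 : ℝ), Φ x := by
      rw [← lintegral_add_compl Φ (measurableSet_Iio (a := (0 : ℝ)))]
      congr 1
      rw [compl_Iio]
      exact setLIntegral_congr Ioi_ae_eq_Ici.symm
    rw [h9, h5]
    calc (∫⁻ x in Ioi (0 : ℝ), Φ x) + ∫⁻ x in Ioi (0 : ℝ), Φ x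
        ≤ ENNReal.ofReal (2 * c * Real.sqrt δ) + ENNReal.ofReal (2 * c * Real.sqrt δ) :=
          add_le_add h3 h3
      _ = ENNReal.ofReal (4 * c * Real.sqrt δ) := by
          rw [← ENNReal.ofReal_add (by positivity) (by positivity)]
          congr 1
          ring
  calc ∫⁻ ζ : ℂ, Φ (r ^ 2 - ‖ζ‖ ^ 2) = ENNReal.ofReal Real.pi * ∫⁻ u in Ioi (0 : ℝ), Φ (r ^ 2 - u) := h1
    _ ≤ ENNReal.ofReal Real.pi * ENNReal.ofReal (4 * c * Real.sqrt δ) := by
        gcongr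
        exact h2.trans h4
    _ = ENNReal.ofReal (4 * Real.pi * c * Real.sqrt δ) := by
        rw [← ENNReal.ofReal_mul Real.pi_pos.le]
        congr 1
        ring

/-! ### the kernel on the circle -/

private lemma pt_norm_DbarB (t : T) : ‖pt t‖ = 1 := e_norm 1 t

private lemma pt_cont_DbarB : Continuous pt := e_cont 1

private lemma pt_star_DbarB (t : T) : pt t * conj (pt t) = 1 := by
  rw [Complex.mul_conj, Complex.normSq_eq_norm_sq, pt_norm_DbarB]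
  simp

/-- symmetry -/
private lemma symm_DbarB (r : ℝ) (ζ : ℂ) (t : T) :
    ‖(r : ℂ) * pt t - ζ‖ = ‖(r : ℂ) - conj ζ * pt t‖ := by
  have h1 : ‖(r : ℂ) * pt t - ζ‖ = ‖conj ((r : ℂ) * pt t - ζ)‖ := (RCLike.norm_conj _).symm
  have h2 : conj ((r : ℂ) * pt t - ζ) * pt t = (r : ℂ) - conj ζ * pt t := by
    rw [map_sub, map_mul, Complex.conj_ofReal, sub_mul, mul_assoc, mul_comm (conj (pt t)),
      pt_star_DbarB, mul_one]
  rw [h1, ← h2, norm_mul, pt_norm_DbarB, mul_one]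

private lemma int1_DbarB {r : ℝ} (hr0 : 0 < r) (hr1 : r < 1) {ζ : ℂ} (hζ : ‖ζ‖ < 1) :
    ∫ t, (‖1 - conj ζ * ((r : ℂ) * pt t)‖⁻¹) ^ 2 ∂mu = (1 - r ^ 2 * ‖ζ‖ ^ 2)⁻¹ := by
  have hb : ‖conj ζ * (r : ℂ)‖ < 1 := by
    rw [norm_mul, RCLike.norm_conj, Complex.norm_real, Real.norm_of_nonneg hr0.le]
    nlinarith [norm_nonneg ζ]
  have h := int_norm_qk_sq hb
  have h2 : ‖conj ζ * (r : ℂ)‖ ^ 2 = r ^ 2 * ‖ζ‖ ^ 2 := by
    rw [norm_mul, RCLike.norm_conj, Complex.norm_real, Real.norm_of_nonneg hr0.le]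
    ring
  rw [h2] at h
  rw [← h]
  refine integral_congr_ae (Eventually.of_forall fun t => ?_)
  simp only [qk]
  rw [← norm_inv, pt_eq, mul_assoc]

private lemma int2_DbarB {r : ℝ} (hr0 : 0 < r) {ζ : ℂ} (hne : ‖ζ‖ ≠ r) :
    ∫ t, (‖(r : ℂ) * pt t - ζ‖⁻¹) ^ 2 ∂mu = |r ^ 2 - ‖ζ‖ ^ 2|⁻¹ := by
  have hr0' : (r : ℂ) ≠ 0 := by exact_mod_cast hr0.ne'
  rcases lt_or_gt_of_ne hne with hlt | hgt
  · have hb : ‖conj ζ / (r : ℂ)‖ < 1 := by
      rw [norm_div, RCLike.norm_conj, Complex.norm_real, Real.norm_of_nonneg hr0.le,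
        div_lt_one hr0]
      exact hlt
    have h := int_norm_qk_sq hb
    have h2 : ‖conj ζ / (r : ℂ)‖ ^ 2 = ‖ζ‖ ^ 2 / r ^ 2 := by
      rw [norm_div, RCLike.norm_conj, Complex.norm_real, Real.norm_of_nonneg hr0.le]
      ring
    rw [h2] at h
    have h3 : ∀ t : T, (‖(r : ℂ) * pt t - ζ‖⁻¹) ^ 2 = (r ^ 2)⁻¹ * ‖qk (conj ζ / (r : ℂ)) t‖ ^ 2 := by
      intro t
      rw [symm_DbarB, qk, ← pt_eq]
      have h4 : (r : ℂ) - conj ζ * pt t = (r : ℂ) * (1 - conj ζ / r * pt t) := by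
        field_simp
      rw [h4, norm_mul, Complex.norm_real, Real.norm_of_nonneg hr0.le, norm_inv, mul_inv, mul_pow,
        inv_pow]
    simp_rw [h3]
    rw [integral_const_mul, h]
    have h5 : ‖ζ‖ ^ 2 < r ^ 2 := by gcongr
    rw [abs_of_pos (by linarith), ← mul_inv]
    congr 1
    field_simp
  · have hζ0 : 0 < ‖ζ‖ := hr0.trans hgt
    have hζ : ζ ≠ 0 := norm_pos_iff.1 hζ0
    have hb : ‖(r : ℂ) / ζ‖ < 1 := by
      rw [norm_div, Complex.norm_real, Real.norm_of_nonneg hr0.le, div_lt_one hζ0]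
      exact hgt
    have h := int_norm_qk_sq hb
    have h2 : ‖(r : ℂ) / ζ‖ ^ 2 = r ^ 2 / ‖ζ‖ ^ 2 := by
      rw [norm_div, Complex.norm_real, Real.norm_of_nonneg hr0.le]
      ring
    rw [h2] at h
    have h3 : ∀ t : T, (‖(r : ℂ) * pt t - ζ‖⁻¹) ^ 2 = (‖ζ‖ ^ 2)⁻¹ * ‖qk ((r : ℂ) / ζ) t‖ ^ 2 := by
      intro t
      rw [qk, ← pt_eq]
      have h4 : (r : ℂ) * pt t - ζ = -ζ * (1 - r / ζ * pt t) := by
        field_simp
        ring
      rw [h4, norm_mul, norm_neg, norm_inv, mul_inv, mul_pow, inv_pow]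
    simp_rw [h3]
    rw [integral_const_mul, h]
    have h5 : r ^ 2 < ‖ζ‖ ^ 2 := by gcongr
    rw [abs_of_neg (by linarith), ← mul_inv]
    congr 1
    field_simp
    ring

private lemma cs2_DbarB {A B : T → ℝ} (hcA : Continuous A) (hcB : Continuous B)
    {x y : ℝ} (hx0 : 0 < x) (hy0 : 0 < y)
    (hiA : ∫ t, A t ^ 2 ∂mu = (x ^ 2)⁻¹) (hiB : ∫ t, B t ^ 2 ∂mu = (y ^ 2)⁻¹) :
    ∫ t, A t * B t ∂mu ≤ ((x * y)⁻¹) := by
  have hAB : Integrable (fun t : T => A t * B t) mu := cont_intR (hcA.mul hcB)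
  have hb : ∀ t : T, A t * B t ≤ (x / y / 2) * A t ^ 2 + (y / x / 2) * B t ^ 2 := by
    intro t
    have h1 : x / y / 2 * A t ^ 2 + y / x / 2 * B t ^ 2 - A t * B t =
        (x * A t - y * B t) ^ 2 / (2 * x * y) := by
      field_simp
      ring
    have h2 : 0 ≤ (x * A t - y * B t) ^ 2 / (2 * x * y) := by positivity
    linarith
  have hiA' : Integrable (fun t : T => A t ^ 2) mu := cont_intR (hcA.pow 2)
  have hiB' : Integrable (fun t : T => B t ^ 2) mu := cont_intR (hcB.pow 2)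
  have h1 : ∫ t, ((x / y / 2) * A t ^ 2 + (y / x / 2) * B t ^ 2) ∂mu = (x / y / 2) * (x ^ 2)⁻¹ + (y / x / 2) * (y ^ 2)⁻¹ := by
    rw [integral_add (hiA'.const_mul _) (hiB'.const_mul _), integral_const_mul,
          integral_const_mul, hiA, hiB]
  have h2 : (x / y / 2) * (x ^ 2)⁻¹ + (y / x / 2) * (y ^ 2)⁻¹ = (x * y)⁻¹ := by
        field_simp
        norm_num
  have h3 : ∫ t, A t * B t ∂mu ≤ ∫ t, ((x / y / 2) * A t ^ 2 + (y / x / 2) * B t ^ 2) ∂mu :=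
        integral_mono hAB ((hiA'.const_mul _).add (hiB'.const_mul _)) hb
  rw [h1, h2] at h3
  exact h3

private lemma cs_DbarB {A B : T → ℝ} (hcA : Continuous A) (hcB : Continuous B)
    (hA : ∀ t, 0 ≤ A t) (hB : ∀ t, 0 ≤ B t) {x y : ℝ} (hx0 : 0 < x) (hy0 : 0 < y)
    (hiA : ∫ t, A t ^ 2 ∂mu = (x ^ 2)⁻¹) (hiB : ∫ t, B t ^ 2 ∂mu = (y ^ 2)⁻¹) :
    ∫⁻ t, ENNReal.ofReal (A t * B t) ∂mu ≤ ENNReal.ofReal ((x * y)⁻¹) := by
  have hAB : Integrable (fun t : T => A t * B t) mu := cont_intR (hcA.mul hcB)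
  have h1 := ofReal_integral_eq_lintegral_ofReal hAB
    (Eventually.of_forall fun t => mul_nonneg (hA t) (hB t))
  have h2 := cs2_DbarB hcA hcB hx0 hy0 hiA hiB
  rw [← h1]
  exact ENNReal.ofReal_le_ofReal h2

private lemma kern_DbarB {r : ℝ} (hr0 : 0 < r) (hr1 : r < 1) {ζ : ℂ} (hζ : ‖ζ‖ < 1)
    (hne : ‖ζ‖ ≠ r) :
    ∫⁻ t, ENNReal.ofReal (‖1 - conj ζ * ((r : ℂ) * pt t)‖⁻¹ * ‖(r : ℂ) * pt t - ζ‖⁻¹) ∂mu ≤
      ENNReal.ofReal ((Real.sqrt (1 - r ^ 2 * ‖ζ‖ ^ 2) * Real.sqrt |r ^ 2 - ‖ζ‖ ^ 2|)⁻¹) := by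
  have hz1 : ∀ t : T, ‖(r : ℂ) * pt t‖ = r := by
    intro t
    rw [norm_mul, pt_norm_DbarB, Complex.norm_real, Real.norm_of_nonneg hr0.le, mul_one]
  have hd1 : ∀ t : T, 1 - conj ζ * ((r : ℂ) * pt t) ≠ 0 := by
    intro t h
    have h1 := den_DbarB (z := (r : ℂ) * pt t) hζ.le
    rw [h, hz1, norm_zero] at h1
    linarith
  have hd2 : ∀ t : T, (r : ℂ) * pt t - ζ ≠ 0 := by
    intro t h
    apply hne
    rw [sub_eq_zero] at h
    rw [← h, hz1]
  have hcA : Continuous fun t : T => ‖1 - conj ζ * ((r : ℂ) * pt t)‖⁻¹ := by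
    refine Continuous.inv₀ ?_ fun t => norm_ne_zero_iff.2 (hd1 t)
    have := pt_cont_DbarB
    fun_prop
  have hcB : Continuous fun t : T => ‖(r : ℂ) * pt t - ζ‖⁻¹ := by
    refine Continuous.inv₀ ?_ fun t => norm_ne_zero_iff.2 (hd2 t)
    have := pt_cont_DbarB
    fun_prop
  have ha : 0 < 1 - r ^ 2 * ‖ζ‖ ^ 2 := by
    have : r ^ 2 * ‖ζ‖ ^ 2 < 1 * 1 := by
      have e1 : r ^ 2 < 1 := by nlinarith
      have e2 : ‖ζ‖ ^ 2 ≤ 1 := by nlinarith [norm_nonneg ζ]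
      have e3 : 0 ≤ ‖ζ‖ ^ 2 := by positivity
      nlinarith
    linarith
  have hc : 0 < |r ^ 2 - ‖ζ‖ ^ 2| := by
    rw [abs_pos, sub_ne_zero]
    intro h
    exact hne ((pow_left_inj₀ hr0.le (norm_nonneg ζ) two_ne_zero).1 h).symm
  have hiA := int1_DbarB hr0 hr1 hζ
  have hiB := int2_DbarB hr0 hne
  rw [← Real.sq_sqrt ha.le] at hiA
  rw [← Real.sq_sqrt hc.le] at hiB
  exact cs_DbarB hcA hcB (fun t => by positivity) (fun t => by positivity)
    (Real.sqrt_pos.2 ha) (Real.sqrt_pos.2 hc) hiA hiB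

/-! ### the tail -/

private lemma BK_meas_DbarB (h : Maj N 1) (hν : Measurable ν) :
    Measurable (fun p : ℂ × ℂ => BK N ν p.1 p.2) := by
  unfold BK
  have hQ := QK_meas_DbarB h
  have h1 : Measurable (fun p : ℂ × ℂ => QK N ‖p.1‖ p.1) :=
    hQ.comp ((measurable_norm.comp measurable_fst).prodMk measurable_fst)
  have h2 : Measurable (fun p : ℂ × ℂ => QK N ‖p.1‖ p.2) :=
    hQ.comp ((measurable_norm.comp measurable_fst).prodMk measurable_snd)
  fun_prop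

private lemma BK_norm_DbarB (h : Maj N 1) {ζ z : ℂ} (hζ : ‖ζ‖ < 1) (hz : ‖z‖ < 1) :
    ‖BK N ν ζ z‖ ≤ Real.exp 2 * ((‖ν ζ‖ * (1 - ‖ζ‖ ^ 2)) * ‖1 - conj ζ * z‖⁻¹) := by
  have h1 : ‖Complex.exp (QK N ‖ζ‖ ζ - QK N ‖ζ‖ z)‖ ≤ Real.exp 2 := by
    rw [Complex.norm_exp, Complex.sub_re]
    have h2 := QK_re_le_DbarB h hζ
    have h3 := QK_re_nonneg_DbarB h ‖ζ‖ hz
    exact Real.exp_le_exp.2 (by linarith)
  have h4 : 0 ≤ 1 - ‖ζ‖ ^ 2 := by
    have : ‖ζ‖ ^ 2 ≤ 1 ^ 2 := by gcongr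
    linarith
  rw [BK, norm_mul, norm_mul, norm_div, Complex.norm_real, Real.norm_of_nonneg h4]
  calc ‖ν ζ‖ * ((1 - ‖ζ‖ ^ 2) / ‖1 - conj ζ * z‖) * ‖Complex.exp (QK N ‖ζ‖ ζ - QK N ‖ζ‖ z)‖
      ≤ ‖ν ζ‖ * ((1 - ‖ζ‖ ^ 2) / ‖1 - conj ζ * z‖) * Real.exp 2 := by
        refine mul_le_mul_of_nonneg_left h1 (by positivity)
    _ = Real.exp 2 * ((‖ν ζ‖ * (1 - ‖ζ‖ ^ 2)) * ‖1 - conj ζ * z‖⁻¹) := by
        rw [div_eq_mul_inv]; ring

/-- the pointwise bound -/
private lemma ptw_DbarB {n u r η N' : ℝ} (hn0 : 0 ≤ n) (hn : n ≤ N') (hN : N' * (1 - u) ≤ 1)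
    (hu0 : 0 ≤ u) (hu1 : u < 1) (hr0 : 0 < r) (hr1 : r < 1) (hη : 0 < η) (hη2 : η ≤ 1 / 2)
    (hne : r ^ 2 - u ≠ 0) :
    n * (1 - u) * (Real.sqrt (1 - r ^ 2 * u) * Real.sqrt |r ^ 2 - u|)⁻¹ ≤
      (Real.sqrt η)⁻¹ * N' + (if |r ^ 2 - u| < 2 * η * (1 - r ^ 2) then
        Real.sqrt (2 / (1 - r ^ 2)) * (Real.sqrt |r ^ 2 - u|)⁻¹ else 0) := by
  have hu : 0 < 1 - u := by linarith
  have hr2 : r ^ 2 < 1 := by nlinarith
  have hr2' : 0 < 1 - r ^ 2 := by linarith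
  have hD : 0 < |r ^ 2 - u| := abs_pos.2 hne
  have hN'0 : 0 ≤ N' := hn0.trans hn
  have h1 : 1 - u ≤ 1 - r ^ 2 * u := by nlinarith
  have hsu : 0 < Real.sqrt (1 - u) := Real.sqrt_pos.2 hu
  have hsD : 0 < Real.sqrt |r ^ 2 - u| := Real.sqrt_pos.2 hD
  have hsη : 0 < Real.sqrt η := Real.sqrt_pos.2 hη
  have h2 : Real.sqrt (1 - u) ≤ Real.sqrt (1 - r ^ 2 * u) := Real.sqrt_le_sqrt h1
  have h3 : n * (1 - u) * (Real.sqrt (1 - r ^ 2 * u) * Real.sqrt |r ^ 2 - u|)⁻¹ ≤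
      n * (1 - u) * (Real.sqrt (1 - u) * Real.sqrt |r ^ 2 - u|)⁻¹ := by
    gcongr
  have hif : 0 ≤ (if |r ^ 2 - u| < 2 * η * (1 - r ^ 2) then
        Real.sqrt (2 / (1 - r ^ 2)) * (Real.sqrt |r ^ 2 - u|)⁻¹ else 0) := by
    split_ifs <;> positivity
  have hsq : Real.sqrt (1 - u) * Real.sqrt (1 - u) = 1 - u := Real.mul_self_sqrt hu.le
  refine h3.trans ?_
  by_cases hc : η * (1 - u) ≤ |r ^ 2 - u|
  · have h4 : Real.sqrt η * Real.sqrt (1 - u) ≤ Real.sqrt |r ^ 2 - u| := by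
      rw [← Real.sqrt_mul hη.le]
      exact Real.sqrt_le_sqrt hc
    have h5 : n * (1 - u) * (Real.sqrt (1 - u) * Real.sqrt |r ^ 2 - u|)⁻¹ ≤
        (Real.sqrt η)⁻¹ * N' := by
      calc n * (1 - u) * (Real.sqrt (1 - u) * Real.sqrt |r ^ 2 - u|)⁻¹
          ≤ n * (1 - u) * (Real.sqrt (1 - u) * (Real.sqrt η * Real.sqrt (1 - u)))⁻¹ := by
            gcongr
        _ = n * (Real.sqrt η)⁻¹ := by
            rw [show Real.sqrt (1 - u) * (Real.sqrt η * Real.sqrt (1 - u)) =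
              Real.sqrt η * (Real.sqrt (1 - u) * Real.sqrt (1 - u)) by ring, hsq]
            field_simp
        _ ≤ N' * (Real.sqrt η)⁻¹ := by gcongr
        _ = (Real.sqrt η)⁻¹ * N' := mul_comm _ _
    linarith
  · push Not at hc
    have h6 : n * (1 - u) ≤ 1 := by
      calc n * (1 - u) ≤ N' * (1 - u) := by gcongr
        _ ≤ 1 := hN
    have h7 : 1 - r ^ 2 ≤ 2 * (1 - u) := by
      have := neg_abs_le (r ^ 2 - u)
      nlinarith
    have h8 : 1 - u < 2 * (1 - r ^ 2) := by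
      have := le_abs_self (r ^ 2 - u)
      nlinarith
    have h9 : |r ^ 2 - u| < 2 * η * (1 - r ^ 2) := by nlinarith
    rw [if_pos h9]
    have h10 : (Real.sqrt (1 - u))⁻¹ ≤ Real.sqrt (2 / (1 - r ^ 2)) := by
      rw [← Real.sqrt_inv]
      refine Real.sqrt_le_sqrt ?_
      rw [inv_eq_one_div, div_le_div_iff₀ hu hr2']
      linarith
    have h11 : n * (1 - u) * (Real.sqrt (1 - u) * Real.sqrt |r ^ 2 - u|)⁻¹ ≤
        Real.sqrt (2 / (1 - r ^ 2)) * (Real.sqrt |r ^ 2 - u|)⁻¹ := by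
      rw [mul_inv]
      calc n * (1 - u) * ((Real.sqrt (1 - u))⁻¹ * (Real.sqrt |r ^ 2 - u|)⁻¹)
          ≤ 1 * (Real.sqrt (2 / (1 - r ^ 2)) * (Real.sqrt |r ^ 2 - u|)⁻¹) := by gcongr
        _ = _ := one_mul _
    have h12 : 0 ≤ (Real.sqrt η)⁻¹ * N' := by positivity
    linarith

/-- the integrand cut off to `s ≤ ‖ζ‖` -/
private noncomputable def cut_DbarB (N : ℂ → ℝ) (ν : ℂ → ℂ) (s : ℝ) (ζ z : ℂ) : ℂ :=
  if s ≤ ‖ζ‖ then BK N ν ζ z / (z - ζ) else 0

private lemma cut_meas_DbarB (h : Maj N 1) (hν : Measurable ν) (s : ℝ) :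
    Measurable (fun p : ℂ × ℂ => cut_DbarB N ν s p.1 p.2) := by
  unfold cut_DbarB
  have h1 := BK_meas_DbarB h hν
  refine Measurable.ite ?_ ?_ measurable_const
  · exact measurableSet_le measurable_const (by fun_prop)
  · exact h1.div (by fun_prop)

private lemma tail_DbarB (h : Maj N 1) (hν : Measurable ν) (hνN : ∀ z ∈ disc, ‖ν z‖ ≤ N z)
    {η r : ℝ} (s : ℝ) (hη : 0 < η) (hη2 : η ≤ 1 / 2) (hr0 : 0 < r) (hr1 : r < 1) :
    ∫⁻ t, ∫⁻ ζ in disc, ‖cut_DbarB N ν s ζ ((r : ℂ) * pt t)‖ₑ ∂volume ∂mu ≤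
      ENNReal.ofReal (Real.exp 2) * (ENNReal.ofReal ((Real.sqrt η)⁻¹) *
        (∫⁻ ζ in disc, if s ≤ ‖ζ‖ then ENNReal.ofReal (N ζ) else 0) +
        ENNReal.ofReal (8 * Real.pi * Real.sqrt η)) := by
  have hr2' : 0 < 1 - r ^ 2 := by nlinarith
  have hcm := cut_meas_DbarB h hν s
  have hz1 : ∀ t : T, ‖(r : ℂ) * pt t‖ = r := by
    intro t
    rw [norm_mul, pt_norm_DbarB, Complex.norm_real, Real.norm_of_nonneg hr0.le, mul_one]
  have hptm : Measurable (fun t : T => (r : ℂ) * pt t) :=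
    (continuous_const.mul pt_cont_DbarB).measurable
  have hjm : Measurable (fun p : T × ℂ => cut_DbarB N ν s p.2 ((r : ℂ) * pt p.1)) :=
    hcm.comp (measurable_snd.prodMk (hptm.comp measurable_fst))
  rw [lintegral_lintegral_swap (hjm.enorm.aemeasurable)]
  -- the near term
  set J : ℂ → ℝ≥0∞ := fun ζ => ENNReal.ofReal (if |r ^ 2 - ‖ζ‖ ^ 2| < 2 * η * (1 - r ^ 2) then
      Real.sqrt (2 / (1 - r ^ 2)) * (Real.sqrt |r ^ 2 - ‖ζ‖ ^ 2|)⁻¹ else 0) with hJ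
  have hJi : ∫⁻ ζ, J ζ ≤ ENNReal.ofReal (8 * Real.pi * Real.sqrt η) := by
    refine (sing_DbarB r (Real.sqrt (2 / (1 - r ^ 2))) (2 * η * (1 - r ^ 2)) (by positivity)).trans (ENNReal.ofReal_le_ofReal (le_of_eq ?_))
    have e1 : Real.sqrt (2 / (1 - r ^ 2)) * Real.sqrt (2 * η * (1 - r ^ 2)) =
        2 * Real.sqrt η := by
      rw [← Real.sqrt_mul (by positivity)]
      have e2 : 2 / (1 - r ^ 2) * (2 * η * (1 - r ^ 2)) = 2 ^ 2 * η := by
        field_simp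
      rw [e2, Real.sqrt_mul (by positivity), Real.sqrt_sq (by norm_num)]
    calc 4 * Real.pi * Real.sqrt (2 / (1 - r ^ 2)) * Real.sqrt (2 * η * (1 - r ^ 2))
        = 4 * Real.pi * (Real.sqrt (2 / (1 - r ^ 2)) * Real.sqrt (2 * η * (1 - r ^ 2))) := by ring
      _ = 8 * Real.pi * Real.sqrt η := by rw [e1]; ring
  have hNm : Measurable (fun ζ : ℂ => if s ≤ ‖ζ‖ then ENNReal.ofReal (N ζ) else 0) := by
    refine Measurable.ite (measurableSet_le measurable_const (by fun_prop)) ?_ measurable_const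
    exact ENNReal.measurable_ofReal.comp h.meas
  have hJm : Measurable J := by
    refine ENNReal.measurable_ofReal.comp (Measurable.ite ?_ (by fun_prop) measurable_const)
    exact measurableSet_lt (by fun_prop) measurable_const
  have hsph : ∀ᵐ ζ : ℂ, ‖ζ‖ ≠ r := by
    have h0 : volume (sphere (0 : ℂ) r) = 0 := Measure.addHaar_sphere_of_ne_zero _ _ hr0.ne'
    rw [ae_iff]
    simpa [sphere, dist_zero_right] using h0
  have hpt : ∀ᵐ ζ ∂(volume.restrict disc), ∫⁻ t, ‖cut_DbarB N ν s ζ ((r : ℂ) * pt t)‖ₑ ∂mu ≤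
      ENNReal.ofReal (Real.exp 2) * (ENNReal.ofReal ((Real.sqrt η)⁻¹) *
        (if s ≤ ‖ζ‖ then ENNReal.ofReal (N ζ) else 0) + J ζ) := by
    rw [ae_restrict_iff' measurableSet_ball]
    filter_upwards [hsph] with ζ hne hζ
    have hζ1 : ‖ζ‖ < 1 := by simpa using (mem_ball_zero_iff.1 hζ)
    by_cases hs : s ≤ ‖ζ‖
    · rw [if_pos hs]
      have hν0 := hνN ζ hζ
      have hu : ‖ζ‖ ^ 2 < 1 := by nlinarith [norm_nonneg ζ]
      have hne2 : r ^ 2 - ‖ζ‖ ^ 2 ≠ 0 := by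
        intro h0
        rw [sub_eq_zero] at h0
        exact hne ((pow_left_inj₀ hr0.le (norm_nonneg ζ) two_ne_zero).1 h0).symm
      have hX : 0 ≤ ‖ν ζ‖ * (1 - ‖ζ‖ ^ 2) := mul_nonneg (norm_nonneg _) (by linarith)
      calc ∫⁻ t, ‖cut_DbarB N ν s ζ ((r : ℂ) * pt t)‖ₑ ∂mu
          ≤ ∫⁻ t, ENNReal.ofReal (Real.exp 2 * (‖ν ζ‖ * (1 - ‖ζ‖ ^ 2))) *
            ENNReal.ofReal (‖1 - conj ζ * ((r : ℂ) * pt t)‖⁻¹ * ‖(r : ℂ) * pt t - ζ‖⁻¹) ∂mu := by
            refine lintegral_mono fun t => ?_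
            rw [← ENNReal.ofReal_mul (by positivity), ← ofReal_norm]
            refine ENNReal.ofReal_le_ofReal ?_
            rw [cut_DbarB, if_pos hs, norm_div, div_eq_mul_inv]
            have hb := BK_norm_DbarB (ν := ν) h hζ1 (z := (r : ℂ) * pt t) (by rw [hz1]; exact hr1)
            calc ‖BK N ν ζ ((r : ℂ) * pt t)‖ * ‖(r : ℂ) * pt t - ζ‖⁻¹
                ≤ (Real.exp 2 * ((‖ν ζ‖ * (1 - ‖ζ‖ ^ 2)) * ‖1 - conj ζ * ((r : ℂ) * pt t)‖⁻¹)) *
                  ‖(r : ℂ) * pt t - ζ‖⁻¹ := by gcongr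
              _ = _ := by ring
        _ = ENNReal.ofReal (Real.exp 2 * (‖ν ζ‖ * (1 - ‖ζ‖ ^ 2))) *
            ∫⁻ t, ENNReal.ofReal (‖1 - conj ζ * ((r : ℂ) * pt t)‖⁻¹ * ‖(r : ℂ) * pt t - ζ‖⁻¹) ∂mu := by
            rw [lintegral_const_mul]
            refine ENNReal.measurable_ofReal.comp ?_
            fun_prop
        _ ≤ ENNReal.ofReal (Real.exp 2 * (‖ν ζ‖ * (1 - ‖ζ‖ ^ 2))) *
            ENNReal.ofReal ((Real.sqrt (1 - r ^ 2 * ‖ζ‖ ^ 2) * Real.sqrt |r ^ 2 - ‖ζ‖ ^ 2|)⁻¹) := by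
            gcongr
            exact kern_DbarB hr0 hr1 hζ1 hne
        _ = ENNReal.ofReal (Real.exp 2) * ENNReal.ofReal (‖ν ζ‖ * (1 - ‖ζ‖ ^ 2) *
            (Real.sqrt (1 - r ^ 2 * ‖ζ‖ ^ 2) * Real.sqrt |r ^ 2 - ‖ζ‖ ^ 2|)⁻¹) := by
            rw [ENNReal.ofReal_mul (by positivity), mul_assoc, ← ENNReal.ofReal_mul hX]
        _ ≤ ENNReal.ofReal (Real.exp 2) * (ENNReal.ofReal ((Real.sqrt η)⁻¹) *
            ENNReal.ofReal (N ζ) + J ζ) := by
            gcongr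
            rw [← ENNReal.ofReal_mul (by positivity), hJ]
            simp only
            rw [← ENNReal.ofReal_add (mul_nonneg (by positivity) (h.nn ζ)) (by split_ifs <;> positivity)]
            refine ENNReal.ofReal_le_ofReal ?_
            exact ptw_DbarB (norm_nonneg _) hν0 (h.pt ζ hζ) (by positivity) hu hr0 hr1 hη hη2 hne2
    · have h0 : ∀ t : T, ‖cut_DbarB N ν s ζ ((r : ℂ) * pt t)‖ₑ = 0 := by
        intro t
        rw [cut_DbarB, if_neg hs, enorm_zero]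
      simp only [h0, lintegral_zero]
      exact bot_le
  calc ∫⁻ ζ in disc, ∫⁻ t, ‖cut_DbarB N ν s ζ ((r : ℂ) * pt t)‖ₑ ∂mu ∂volume
      ≤ ∫⁻ ζ in disc, ENNReal.ofReal (Real.exp 2) * (ENNReal.ofReal ((Real.sqrt η)⁻¹) *
        (if s ≤ ‖ζ‖ then ENNReal.ofReal (N ζ) else 0) + J ζ) := lintegral_mono_ae hpt
    _ = ENNReal.ofReal (Real.exp 2) * (ENNReal.ofReal ((Real.sqrt η)⁻¹) *
        (∫⁻ ζ in disc, if s ≤ ‖ζ‖ then ENNReal.ofReal (N ζ) else 0) + ∫⁻ ζ in disc, J ζ) := by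
        rw [lintegral_const_mul _ (by fun_prop), lintegral_add_left (by fun_prop),
          lintegral_const_mul _ hNm]
    _ ≤ _ := by
        gcongr
        exact (setLIntegral_le_lintegral _ _).trans hJi

private lemma tail0_DbarB (h : Maj N 1) (hν : Measurable ν) (hνN : ∀ z ∈ disc, ‖ν z‖ ≤ N z)
    {ε : ℝ} (hε : 0 < ε) :
    ∃ s : ℝ, 0 < s ∧ s < 1 ∧ ∀ r : ℝ, 0 < r → r < 1 →
    ∫⁻ t, ∫⁻ ζ in disc, ‖cut_DbarB N ν s ζ ((r : ℂ) * pt t)‖ₑ ∂volume ∂mu ≤ ENNReal.ofReal ε := by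
  set e2 := Real.exp 2 with he2
  have he0 : 0 < e2 := Real.exp_pos 2
  -- choice of `η`
  obtain ⟨η, hη0, hη2, hη⟩ : ∃ η : ℝ, 0 < η ∧ η ≤ 1 / 2 ∧ e2 * (8 * Real.pi * Real.sqrt η) ≤ ε / 2 := by
    have hK : 0 < ε / 2 / (e2 * (8 * Real.pi)) := by positivity
    refine ⟨min (1 / 2) ((ε / 2 / (e2 * (8 * Real.pi))) ^ 2), by positivity, min_le_left _ _, ?_⟩
    have h1 : Real.sqrt (min (1 / 2) ((ε / 2 / (e2 * (8 * Real.pi))) ^ 2)) ≤
        ε / 2 / (e2 * (8 * Real.pi)) := by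
      rw [← Real.sqrt_sq hK.le]
      exact Real.sqrt_le_sqrt (by rw [Real.sqrt_sq hK.le]; exact min_le_right _ _)
    calc e2 * (8 * Real.pi * Real.sqrt (min (1 / 2) ((ε / 2 / (e2 * (8 * Real.pi))) ^ 2)))
        ≤ e2 * (8 * Real.pi * (ε / 2 / (e2 * (8 * Real.pi)))) := by gcongr
      _ = ε / 2 := by field_simp
  -- the tails of `N`
  have htend : Tendsto (fun n : ℕ => ∫⁻ ζ in disc,
      if (1 - 1 / ((n : ℝ) + 1)) ≤ ‖ζ‖ then ENNReal.ofReal (N ζ) else 0) atTop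
      (𝓝 (∫⁻ _ζ in disc, (0 : ℝ≥0∞))) := by
    refine tendsto_lintegral_of_dominated_convergence (fun ζ => ENNReal.ofReal (N ζ)) ?_ ?_ ?_ ?_
    · intro n
      exact Measurable.ite (measurableSet_le measurable_const (by fun_prop))
        (ENNReal.measurable_ofReal.comp h.meas) measurable_const
    · intro n
      refine Eventually.of_forall fun ζ => ?_
      simp only
      split_ifs
      · exact le_rfl
      · exact zero_le
    · exact ((N_lint_DbarB h).trans_lt ENNReal.one_lt_top).ne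
    · refine (ae_restrict_iff' measurableSet_ball).2 (Eventually.of_forall fun ζ hζ => ?_)
      have hζ1 : ‖ζ‖ < 1 := by simpa using (mem_ball_zero_iff.1 hζ)
      have h1 : Tendsto (fun n : ℕ => 1 - 1 / ((n : ℝ) + 1)) atTop (𝓝 (1 - 0)) :=
        tendsto_const_nhds.sub tendsto_one_div_add_atTop_nhds_zero_nat
      rw [sub_zero] at h1
      have h2 : ∀ᶠ n : ℕ in atTop, ‖ζ‖ < 1 - 1 / ((n : ℝ) + 1) := h1.eventually (lt_mem_nhds hζ1)
      refine tendsto_const_nhds.congr' ?_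
      filter_upwards [h2] with n hn
      rw [if_neg (not_le.2 hn)]
  rw [lintegral_zero] at htend
  set κ : ℝ := ε / 2 / (e2 * (Real.sqrt η)⁻¹) with hκ
  have hsη : 0 < Real.sqrt η := Real.sqrt_pos.2 hη0
  have hκ0 : 0 < κ := by positivity
  have hev := htend.eventually (gt_mem_nhds (show (0 : ℝ≥0∞) < ENNReal.ofReal κ by
    rwa [ENNReal.ofReal_pos]))
  obtain ⟨n, hn, hn1⟩ := (hev.and (eventually_ge_atTop 1)).exists
  have hn1' : (1 : ℝ) ≤ n := by exact_mod_cast hn1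
  have hfr : 1 / ((n : ℝ) + 1) ≤ 1 / 2 := by
    apply one_div_le_one_div_of_le <;> linarith
  have hfr0 : 0 < 1 / ((n : ℝ) + 1) := by positivity
  refine ⟨1 - 1 / ((n : ℝ) + 1), by linarith, by linarith, fun r hr0 hr1 => ?_⟩
  refine (tail_DbarB h hν hνN _ hη0 hη2 hr0 hr1).trans ?_
  calc ENNReal.ofReal e2 * (ENNReal.ofReal ((Real.sqrt η)⁻¹) *
        (∫⁻ ζ in disc, if (1 - 1 / ((n : ℝ) + 1)) ≤ ‖ζ‖ then ENNReal.ofReal (N ζ) else 0) +
        ENNReal.ofReal (8 * Real.pi * Real.sqrt η))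
      ≤ ENNReal.ofReal e2 * (ENNReal.ofReal ((Real.sqrt η)⁻¹) * ENNReal.ofReal κ +
        ENNReal.ofReal (8 * Real.pi * Real.sqrt η)) := by
        gcongr
    _ = ENNReal.ofReal (e2 * ((Real.sqrt η)⁻¹ * κ + 8 * Real.pi * Real.sqrt η)) := by
        rw [← ENNReal.ofReal_mul (by positivity), ← ENNReal.ofReal_add (by positivity)
          (by positivity), ← ENNReal.ofReal_mul (by positivity)]
    _ ≤ ENNReal.ofReal ε := by
        refine ENNReal.ofReal_le_ofReal ?_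
        have h5 : e2 * ((Real.sqrt η)⁻¹ * κ) = ε / 2 := by
          rw [hκ]
          field_simp
        rw [mul_add, h5]
        linarith

private lemma fin_DbarB (h : Maj N 1) (hν : Measurable ν) (hνN : ∀ z ∈ disc, ‖ν z‖ ≤ N z)
    {r : ℝ} (hr0 : 0 < r) (hr1 : r < 1) :
    ∀ᵐ t ∂mu, IntegrableOn (fun ζ => BK N ν ζ ((r : ℂ) * pt t) / ((r : ℂ) * pt t - ζ)) disc := by
  have h1 := tail_DbarB h hν hνN (η := 1 / 2) 0 (by norm_num) le_rfl hr0 hr1
  have hcm := cut_meas_DbarB h hν 0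
  have hptm : Measurable (fun t : T => (r : ℂ) * pt t) :=
    (continuous_const.mul pt_cont_DbarB).measurable
  have hjm : Measurable (fun p : T × ℂ => cut_DbarB N ν 0 p.2 ((r : ℂ) * pt p.1)) :=
    hcm.comp (measurable_snd.prodMk (hptm.comp measurable_fst))
  have h2 : ∫⁻ t, ∫⁻ ζ in disc, ‖cut_DbarB N ν 0 ζ ((r : ℂ) * pt t)‖ₑ ∂volume ∂mu ≠ ∞ := by
    refine (h1.trans_lt ?_).ne
    refine ENNReal.mul_lt_top ENNReal.ofReal_lt_top (ENNReal.add_lt_top.2 ⟨?_, ENNReal.ofReal_lt_top⟩)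
    refine ENNReal.mul_lt_top ENNReal.ofReal_lt_top ?_
    simp only [norm_nonneg, if_true]
    exact (N_lint_DbarB h).trans_lt ENNReal.one_lt_top
  have h3 := ae_lt_top (μ := mu) (f := fun t : T => ∫⁻ ζ in disc,
    ‖cut_DbarB N ν 0 ζ ((r : ℂ) * pt t)‖ₑ ∂volume) (hjm.enorm.lintegral_prod_right') h2
  filter_upwards [h3] with t ht
  have h4 : ∀ ζ, cut_DbarB N ν 0 ζ ((r : ℂ) * pt t) =
      BK N ν ζ ((r : ℂ) * pt t) / ((r : ℂ) * pt t - ζ) := by
    intro ζ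
    rw [cut_DbarB, if_pos (norm_nonneg ζ)]
  refine ⟨?_, ?_⟩
  · have h5 : Measurable (fun ζ => cut_DbarB N ν 0 ζ ((r : ℂ) * pt t)) :=
      hcm.comp (measurable_id.prodMk measurable_const)
    simp_rw [h4] at h5
    exact h5.aestronglyMeasurable
  · rw [HasFiniteIntegral]
    simp_rw [h4] at ht
    exact ht

/-! ### the main part -/

private lemma QK0_diff_DbarB (h : Maj N 1) : DifferentiableOn ℂ (QK N 0) disc := by
  intro z₀ hz₀
  have hz₀' : ‖z₀‖ < 1 := by simpa using (mem_ball_zero_iff.1 hz₀)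
  set ρ : ℝ := (1 - ‖z₀‖) / 2 with hρ
  have hρ0 : 0 < ρ := by rw [hρ]; linarith
  have hball : ∀ z ∈ ball z₀ ρ, ‖z‖ ≤ 1 - ρ := by
    intro z hz
    have h1 : ‖z - z₀‖ < ρ := by simpa [dist_eq_norm] using hz
    have h2 : ‖z‖ ≤ ‖z - z₀‖ + ‖z₀‖ := by
      calc ‖z‖ = ‖(z - z₀) + z₀‖ := by rw [sub_add_cancel]
        _ ≤ _ := norm_add_le _ _
    linarith
  have hQ : QK N 0 = fun z => ∫ ω in disc, qi_DbarB N 0 z ω := rfl
  rw [hQ]
  have hmeas : ∀ z : ℂ, Measurable (qi_DbarB N 0 z) := fun z =>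
    (qi_meas_DbarB h).comp (measurable_const (a := ((0 : ℝ), z)).prodMk measurable_id)
  have key := hasDerivAt_integral_of_dominated_loc_of_deriv_le (μ := volume.restrict disc)
    (F := fun (z : ℂ) (ω : ℂ) => qi_DbarB N 0 z ω)
    (F' := fun (z : ℂ) (ω : ℂ) => (N ω : ℂ) * (2 * conj ω / (1 - conj ω * z) ^ 2))
    (x₀ := z₀) (s := ball z₀ ρ) (bound := fun ω => N ω * (2 / ρ ^ 2))
    (ball_mem_nhds z₀ hρ0)
    (Eventually.of_forall fun z => (hmeas z).aestronglyMeasurable)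
    (qi_int_DbarB h 0 hz₀') ?_ ?_ ((N_int_DbarB h).mul_const _) ?_
  · exact key.2.differentiableAt.differentiableWithinAt
  · have h1 := h.meas
    have h2 : Measurable (fun ω : ℂ => (N ω : ℂ)) := Complex.measurable_ofReal.comp h.meas
    exact Measurable.aestronglyMeasurable (by fun_prop)
  · refine (ae_restrict_iff' measurableSet_ball).2 (Eventually.of_forall fun ω hω z hz => ?_)
    have hω' : ‖ω‖ < 1 := by simpa using (mem_ball_zero_iff.1 hω)
    have h0 := h.nn ω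
    have h1 := hball z hz
    have h2 := den_DbarB (z := z) hω'.le
    have h3 : ρ ≤ ‖1 - conj ω * z‖ := by linarith
    rw [norm_mul, Complex.norm_real, Real.norm_of_nonneg h0, norm_div, norm_mul, norm_pow,
      RCLike.norm_conj, Complex.norm_ofNat]
    have h4 : 2 * ‖ω‖ ≤ 2 := by linarith
    gcongr
  · refine (ae_restrict_iff' measurableSet_ball).2 (Eventually.of_forall fun ω hω z hz => ?_)
    have hω' : ‖ω‖ < 1 := by simpa using (mem_ball_zero_iff.1 hω)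
    have h1 := hball z hz
    have h2 := den_DbarB (z := z) hω'.le
    have hne : 1 - conj ω * z ≠ 0 := by
      intro h5
      rw [h5, norm_zero] at h2
      linarith
    have hqi : (fun z => qi_DbarB N 0 z ω) = fun z => (N ω : ℂ) * ((1 + conj ω * z) / (1 - conj ω * z)) := by
      funext z
      rw [qi_DbarB, if_pos (norm_nonneg ω), hk_DbarB]
    rw [hqi]
    have hd1 : HasDerivAt (fun z : ℂ => 1 + conj ω * z) (conj ω) z := by
      simpa using ((hasDerivAt_id z).const_mul (conj ω)).const_add 1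
    have hd2 : HasDerivAt (fun z : ℂ => 1 - conj ω * z) (-conj ω) z := by
      simpa using ((hasDerivAt_id z).const_mul (conj ω)).const_sub 1
    have hd3 := (hd1.div hd2 hne).const_mul (N ω : ℂ)
    have e1 : (N ω : ℂ) * (2 * conj ω / (1 - conj ω * z) ^ 2) =
        (N ω : ℂ) * ((conj ω * (1 - conj ω * z) - (1 + conj ω * z) * -conj ω) /
          (1 - conj ω * z) ^ 2) := by
      congr 2
      ring
    rw [e1]
    exact hd3

private lemma E_DbarB (h : Maj N 1) : BddHol (fun z => Complex.exp (-QK N 0 z)) := by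
  refine ⟨(QK0_diff_DbarB h).neg.cexp, 1, fun z hz => ?_⟩
  have hz' : ‖z‖ < 1 := by simpa using (mem_ball_zero_iff.1 hz)
  rw [Complex.norm_exp, Complex.neg_re]
  have := QK_re_nonneg_DbarB h 0 hz'
  exact Real.exp_le_one_iff.2 (by linarith)

/-- the complementary part of the exponent -/
private noncomputable def pi_DbarB (N : ℂ → ℝ) (s : ℝ) (z ω : ℂ) : ℂ :=
  if ‖ω‖ < s then (N ω : ℂ) * hk_DbarB z ω else 0

private noncomputable def PK_DbarB (N : ℂ → ℝ) (s : ℝ) (z : ℂ) : ℂ :=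
  ∫ ω in disc, pi_DbarB N s z ω

private lemma pi_meas_DbarB (h : Maj N 1) :
    Measurable (fun p : (ℝ × ℂ) × ℂ => pi_DbarB N p.1.1 p.1.2 p.2) := by
  unfold pi_DbarB
  refine Measurable.ite ?_ ?_ measurable_const
  · exact measurableSet_lt (by fun_prop) (by fun_prop)
  · have h1 : Measurable (fun p : (ℝ × ℂ) × ℂ => (N p.2 : ℂ)) :=
      Complex.measurable_ofReal.comp (h.meas.comp measurable_snd)
    have h3 : Measurable (fun p : (ℝ × ℂ) × ℂ => hk_DbarB p.1.2 p.2) := by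
      unfold hk_DbarB
      fun_prop
    exact h1.mul h3

private lemma PK_meas_DbarB (h : Maj N 1) : Measurable (fun p : ℝ × ℂ => PK_DbarB N p.1 p.2) := by
  have h1 : StronglyMeasurable (Function.uncurry fun (p : ℝ × ℂ) (ω : ℂ) => pi_DbarB N p.1 p.2 ω) :=
    (pi_meas_DbarB h).stronglyMeasurable
  exact (h1.integral_prod_right (ν := volume.restrict disc)).measurable

private lemma pi_norm_DbarB (h : Maj N 1) {s : ℝ} (hs : s < 1) {z : ℂ} (hz : ‖z‖ ≤ 1) (ω : ℂ) :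
    ‖pi_DbarB N s z ω‖ ≤ N ω * (2 / (1 - s)) := by
  have h0 := h.nn ω
  have hs' : 0 < 1 - s := by linarith
  unfold pi_DbarB
  split_ifs with hc
  · rw [norm_mul, Complex.norm_real, Real.norm_of_nonneg h0]
    gcongr
    have h1 := hk_norm2_DbarB hz (ω := ω) (by linarith)
    refine h1.trans ?_
    gcongr
  · rw [norm_zero]; positivity

private lemma pi_int_DbarB (h : Maj N 1) {s : ℝ} (hs : s < 1) {z : ℂ} (hz : ‖z‖ ≤ 1) :
    IntegrableOn (pi_DbarB N s z) disc := by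
  refine ((N_int_DbarB h).mul_const (2 / (1 - s))).mono' ?_ ?_
  · exact ((pi_meas_DbarB h).comp (measurable_const (a := (s, z)).prodMk measurable_id)).aestronglyMeasurable
  · exact Eventually.of_forall fun ω => pi_norm_DbarB h hs hz ω

private lemma N_le_DbarB (h : Maj N 1) : ∫ ω in disc, N ω ≤ 1 := by
  rw [integral_eq_lintegral_of_nonneg_ae (Eventually.of_forall h.nn) h.meas.aestronglyMeasurable]
  refine ENNReal.toReal_le_of_le_ofReal zero_le_one ?_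
  rw [ENNReal.ofReal_one]
  exact N_lint_DbarB h

private lemma PK_norm_DbarB (h : Maj N 1) {s : ℝ} (hs : s < 1) {z : ℂ} (hz : ‖z‖ ≤ 1) :
    ‖PK_DbarB N s z‖ ≤ 2 / (1 - s) := by
  have hs' : 0 < 1 - s := by linarith
  calc ‖PK_DbarB N s z‖ ≤ ∫ ω in disc, N ω * (2 / (1 - s)) :=
        norm_integral_le_of_norm_le ((N_int_DbarB h).mul_const _)
          (Eventually.of_forall fun ω => pi_norm_DbarB h hs hz ω)
    _ = (∫ ω in disc, N ω) * (2 / (1 - s)) := integral_mul_const _ _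
    _ ≤ 1 * (2 / (1 - s)) := by
        gcongr
        exact N_le_DbarB h
    _ = _ := one_mul _

private lemma PK_cont_DbarB (h : Maj N 1) {s : ℝ} (hs : s < 1) :
    ContinuousOn (PK_DbarB N s) (closedBall 0 1) := by
  refine continuousOn_of_dominated (bound := fun ω => N ω * (2 / (1 - s))) ?_ ?_
    ((N_int_DbarB h).mul_const _) ?_
  · intro z _
    exact ((pi_meas_DbarB h).comp (measurable_const (a := (s, z)).prodMk measurable_id)).aestronglyMeasurable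
  · intro z hz
    have hz' : ‖z‖ ≤ 1 := by simpa using hz
    exact Eventually.of_forall fun ω => pi_norm_DbarB h hs hz' ω
  · refine Eventually.of_forall fun ω => ?_
    unfold pi_DbarB
    by_cases hc : ‖ω‖ < s
    · simp only [if_pos hc]
      refine continuousOn_const.mul ?_
      unfold hk_DbarB
      refine ContinuousOn.div (by fun_prop) (by fun_prop) fun z hz => ?_
      have hz' : ‖z‖ ≤ 1 := by simpa using hz
      intro h5
      have h2 := den2_DbarB (ω := ω) hz'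
      rw [h5, norm_zero] at h2
      linarith
    · simp only [if_neg hc]
      exact continuousOn_const

private lemma QK_split_DbarB (h : Maj N 1) {s : ℝ} (hs : s < 1) {z : ℂ} (hz : ‖z‖ < 1) :
    QK N s z = QK N 0 z - PK_DbarB N s z := by
  rw [QK_eq_DbarB, QK_eq_DbarB, PK_DbarB, ← integral_sub (qi_int_DbarB h 0 hz) (pi_int_DbarB h hs hz.le)]
  refine integral_congr_ae (Eventually.of_forall fun ω => ?_)
  simp only [qi_DbarB, pi_DbarB, norm_nonneg, if_true]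
  by_cases hc : s ≤ ‖ω‖
  · rw [if_pos hc, if_neg (not_lt.2 hc), sub_zero]
  · rw [if_neg hc, if_pos (not_le.1 hc), sub_self]

/-- the integrand of the analytic factor -/
private noncomputable def gi_DbarB (N : ℂ → ℝ) (ν : ℂ → ℂ) (s : ℝ) (z ζ : ℂ) : ℂ :=
  if ‖ζ‖ < s then ν ζ * (((1 - ‖ζ‖ ^ 2 : ℝ) : ℂ) / (1 - conj ζ * z)) *
    Complex.exp (QK N ‖ζ‖ ζ + PK_DbarB N ‖ζ‖ z) / (z - ζ) else 0

private noncomputable def GK_DbarB (N : ℂ → ℝ) (ν : ℂ → ℂ) (s : ℝ) (z : ℂ) : ℂ :=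
  (1 / Real.pi : ℂ) * ∫ ζ in disc, gi_DbarB N ν s z ζ

/-- the integrand of the inner part -/
private noncomputable def inn_DbarB (N : ℂ → ℝ) (ν : ℂ → ℂ) (s : ℝ) (ζ z : ℂ) : ℂ :=
  if ‖ζ‖ < s then BK N ν ζ z / (z - ζ) else 0

private lemma gi_meas_DbarB (h : Maj N 1) (hν : Measurable ν) (s : ℝ) :
    Measurable (fun p : ℂ × ℂ => gi_DbarB N ν s p.1 p.2) := by
  unfold gi_DbarB
  have hQ := QK_meas_DbarB h
  have hP := PK_meas_DbarB h
  have h1 : Measurable (fun p : ℂ × ℂ => QK N ‖p.2‖ p.2) :=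
    hQ.comp ((measurable_norm.comp measurable_snd).prodMk measurable_snd)
  have h2 : Measurable (fun p : ℂ × ℂ => PK_DbarB N ‖p.2‖ p.1) :=
    hP.comp ((measurable_norm.comp measurable_snd).prodMk measurable_fst)
  refine Measurable.ite ?_ ?_ measurable_const
  · exact measurableSet_lt (by fun_prop) measurable_const
  · fun_prop

private lemma gi_norm_DbarB (h : Maj N 1) (hνN : ∀ z ∈ disc, ‖ν z‖ ≤ N z) {s : ℝ} (hs : s < 1)
    {z : ℂ} (hz : ‖z‖ ≤ 1) (hz2 : (1 + s) / 2 ≤ ‖z‖) {ζ : ℂ} (hζ : ζ ∈ disc) :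
    ‖gi_DbarB N ν s z ζ‖ ≤ N ζ * ((1 - s)⁻¹ * Real.exp (2 + 2 / (1 - s)) * ((1 - s) / 2)⁻¹) := by
  have h0 := h.nn ζ
  have hs' : 0 < 1 - s := by linarith
  have hζ1 : ‖ζ‖ < 1 := by simpa using (mem_ball_zero_iff.1 hζ)
  unfold gi_DbarB
  split_ifs with hc
  · have h1 : ‖ζ‖ ^ 2 ≤ 1 ^ 2 := by gcongr
    have h1' : 0 ≤ 1 - ‖ζ‖ ^ 2 := by linarith
    have h2 : 1 - s ≤ ‖1 - conj ζ * z‖ := by
      have := den2_DbarB (ω := ζ) hz
      linarith
    have h3 : (1 - s) / 2 ≤ ‖z - ζ‖ := by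
      have := norm_sub_norm_le z ζ
      linarith
    have h4 : ‖Complex.exp (QK N ‖ζ‖ ζ + PK_DbarB N ‖ζ‖ z)‖ ≤ Real.exp (2 + 2 / (1 - s)) := by
      rw [Complex.norm_exp, Complex.add_re]
      refine Real.exp_le_exp.2 (add_le_add (QK_re_le_DbarB h hζ1) ?_)
      refine (Complex.re_le_norm _).trans ((PK_norm_DbarB h hζ1 hz).trans ?_)
      gcongr
    rw [norm_div, norm_mul, norm_mul, norm_div, Complex.norm_real, Real.norm_of_nonneg h1']
    have h5 : (1 - ‖ζ‖ ^ 2) / ‖1 - conj ζ * z‖ ≤ (1 - s)⁻¹ := by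
      rw [inv_eq_one_div]
      have : 1 - ‖ζ‖ ^ 2 ≤ 1 := by
        have : 0 ≤ ‖ζ‖ ^ 2 := by positivity
        linarith
      gcongr
    rw [div_eq_mul_inv]
    calc ‖ν ζ‖ * ((1 - ‖ζ‖ ^ 2) / ‖1 - conj ζ * z‖) *
          ‖Complex.exp (QK N ‖ζ‖ ζ + PK_DbarB N ‖ζ‖ z)‖ * ‖z - ζ‖⁻¹
        ≤ N ζ * (1 - s)⁻¹ * Real.exp (2 + 2 / (1 - s)) * ((1 - s) / 2)⁻¹ := by
          gcongr
          exact hνN ζ hζ
      _ = _ := by ring
  · rw [norm_zero]; positivity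

private lemma GK_cont_DbarB (h : Maj N 1) (hν : Measurable ν) (hνN : ∀ z ∈ disc, ‖ν z‖ ≤ N z)
    {s : ℝ} (hs : s < 1) :
    ContinuousOn (GK_DbarB N ν s) {z | (1 + s) / 2 ≤ ‖z‖ ∧ ‖z‖ ≤ 1} := by
  refine continuousOn_const.mul ?_
  refine continuousOn_of_dominated (bound := fun ζ => N ζ * ((1 - s)⁻¹ *
    Real.exp (2 + 2 / (1 - s)) * ((1 - s) / 2)⁻¹)) ?_ ?_ ((N_int_DbarB h).mul_const _) ?_
  · intro z _
    exact ((gi_meas_DbarB h hν s).comp (measurable_const (a := z).prodMk measurable_id)).aestronglyMeasurable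
  · intro z hz
    refine (ae_restrict_iff' measurableSet_ball).2 (Eventually.of_forall fun ζ hζ => ?_)
    exact gi_norm_DbarB h hνN hs hz.2 hz.1 hζ
  · refine (ae_restrict_iff' measurableSet_ball).2 (Eventually.of_forall fun ζ hζ => ?_)
    have hζ1 : ‖ζ‖ < 1 := by simpa using (mem_ball_zero_iff.1 hζ)
    unfold gi_DbarB
    by_cases hc : ‖ζ‖ < s
    · simp only [if_pos hc]
      have hP : ContinuousOn (PK_DbarB N ‖ζ‖) {z | (1 + s) / 2 ≤ ‖z‖ ∧ ‖z‖ ≤ 1} :=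
        (PK_cont_DbarB h hζ1).mono fun z hz => by simpa using hz.2
      refine ContinuousOn.div ?_ (by fun_prop) fun z hz h5 => ?_
      · refine ContinuousOn.mul (continuousOn_const.mul (ContinuousOn.div continuousOn_const
          (by fun_prop) fun z hz h5 => ?_)) (continuousOn_const.add hP).cexp
        have h2 := den2_DbarB (ω := ζ) hz.2
        rw [h5, norm_zero] at h2
        linarith
      · rw [sub_eq_zero] at h5
        have := hz.1
        rw [h5] at this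
        linarith
    · simp only [if_neg hc]
      exact continuousOn_const

private lemma inn_eq_DbarB (h : Maj N 1) {s : ℝ} {z : ℂ} (hz : ‖z‖ < 1) :
    (1 / Real.pi : ℂ) * ∫ ζ in disc, inn_DbarB N ν s ζ z =
      Complex.exp (-QK N 0 z) * GK_DbarB N ν s z := by
  have h1 : ∀ ζ ∈ disc, inn_DbarB N ν s ζ z = Complex.exp (-QK N 0 z) * gi_DbarB N ν s z ζ := by
    intro ζ hζ
    have hζ1 : ‖ζ‖ < 1 := by simpa using (mem_ball_zero_iff.1 hζ)
    unfold inn_DbarB gi_DbarB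
    split_ifs
    · rw [BK, QK_split_DbarB h hζ1 hz]
      have e1 : QK N ‖ζ‖ ζ - (QK N 0 z - PK_DbarB N ‖ζ‖ z) =
          -QK N 0 z + (QK N ‖ζ‖ ζ + PK_DbarB N ‖ζ‖ z) := by ring
      rw [e1, Complex.exp_add]
      ring
    · rw [mul_zero]
  rw [setIntegral_congr_fun measurableSet_ball h1, integral_const_mul, GK_DbarB]
  ring

private lemma inn_meas_DbarB (h : Maj N 1) (hν : Measurable ν) (s : ℝ) :
    Measurable (fun p : ℂ × ℂ => inn_DbarB N ν s p.1 p.2) := by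
  unfold inn_DbarB
  have h1 := BK_meas_DbarB h hν
  refine Measurable.ite ?_ ?_ measurable_const
  · exact measurableSet_lt (by fun_prop) measurable_const
  · exact h1.div (by fun_prop)

private lemma innK_meas_DbarB (h : Maj N 1) (hν : Measurable ν) (s : ℝ) :
    Measurable (fun z : ℂ => (1 / Real.pi : ℂ) * ∫ ζ in disc, inn_DbarB N ν s ζ z) := by
  have h1 : StronglyMeasurable (Function.uncurry fun (z : ℂ) (ζ : ℂ) => inn_DbarB N ν s ζ z) :=
    ((inn_meas_DbarB h hν s).comp measurable_swap).stronglyMeasurable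
  exact (h1.integral_prod_right (ν := volume.restrict disc)).measurable.const_mul _

private lemma RK_meas_DbarB (h : Maj N 1) (hν : Measurable ν) : Measurable (RK N ν) := by
  have h0 : Measurable (fun p : ℂ × ℂ => BK N ν p.2 p.1 / (p.1 - p.2)) :=
    ((BK_meas_DbarB h hν).comp measurable_swap).div (by fun_prop)
  have h1 : StronglyMeasurable (Function.uncurry fun (z : ℂ) (ζ : ℂ) => BK N ν ζ z / (z - ζ)) :=
    h0.stronglyMeasurable
  exact (h1.integral_prod_right (ν := volume.restrict disc)).measurable.const_mul _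

/-- the inner part has boundary values -/
private lemma main_DbarB (h : Maj N 1) (hν : Measurable ν) (hνN : ∀ z ∈ disc, ‖ν z‖ ≤ N z)
    {s : ℝ} (hs0 : 0 < s) (hs : s < 1) :
    ∃ g : T → ℂ, MemLp g 1 mu ∧ Tendsto (fun r : ℝ => ∫⁻ t,
      ‖(1 / Real.pi : ℂ) * (∫ ζ in disc, inn_DbarB N ν s ζ ((r : ℂ) * pt t)) - g t‖ₑ ∂mu)
      (𝓝[<] 1) (𝓝 0) := by
  obtain ⟨E', hE', hEe, hEb⟩ := bh_rep (E_DbarB h)
  have hGc := GK_cont_DbarB h hν hνN hs
  have hmem1 : ∀ t : T, pt t ∈ {z : ℂ | (1 + s) / 2 ≤ ‖z‖ ∧ ‖z‖ ≤ 1} := by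
    intro t
    exact ⟨by rw [pt_norm_DbarB]; linarith, by rw [pt_norm_DbarB]⟩
  have hGpt : Continuous fun t : T => GK_DbarB N ν s (pt t) :=
    hGc.comp_continuous pt_cont_DbarB hmem1
  have hKc : IsCompact {z : ℂ | (1 + s) / 2 ≤ ‖z‖ ∧ ‖z‖ ≤ 1} := by
    refine (isCompact_closedBall (0 : ℂ) 1).of_isClosed_subset ?_ fun z hz => by simpa using hz.2
    exact (isClosed_le continuous_const continuous_norm).inter
      (isClosed_le continuous_norm continuous_const)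
  obtain ⟨C, hC⟩ := hKc.exists_bound_of_continuousOn hGc
  have hC0 : 0 ≤ C := (norm_nonneg _).trans (hC _ (hmem1 0))
  have hEle : ∀ᵐ t ∂mu, ‖E' t‖ ≤ 1 := by
    filter_upwards [hEb] with t ht
    refine le_of_tendsto ht.norm ?_
    filter_upwards [Ioo_mem_nhdsLT (show (0 : ℝ) < 1 by norm_num)] with r hr
    have hz' : ‖(r : ℂ) * pt t‖ < 1 := by
      rw [norm_mul, pt_norm_DbarB, Complex.norm_real, Real.norm_of_nonneg hr.1.le, mul_one]
      exact hr.2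
    rw [Complex.norm_exp, Complex.neg_re]
    have := QK_re_nonneg_DbarB h 0 hz'
    exact Real.exp_le_one_iff.2 (by linarith)
  have hgm : AEStronglyMeasurable (fun t => E' t * GK_DbarB N ν s (pt t)) mu :=
    hE'.1.1.mul hGpt.aestronglyMeasurable
  refine ⟨fun t => E' t * GK_DbarB N ν s (pt t), ?_, ?_⟩
  · refine MemLp.of_bound hgm C ?_
    filter_upwards [hEle] with t ht
    rw [norm_mul]
    calc ‖E' t‖ * ‖GK_DbarB N ν s (pt t)‖ ≤ 1 * C := by
          gcongr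
          exact hC _ (hmem1 t)
      _ = C := one_mul C
  · have h0 : (0 : ℝ≥0∞) = ∫⁻ _t : T, (0 : ℝ≥0∞) ∂mu := by simp
    rw [h0]
    have hrng : ∀ᶠ r : ℝ in 𝓝[<] 1, (1 + s) / 2 < r ∧ r < 1 :=
      Ioo_mem_nhdsLT (show (1 + s) / 2 < 1 by linarith)
    refine tendsto_lintegral_filter_of_dominated_convergence' (fun _ => ENNReal.ofReal (C + C))
      ?_ ?_ ?_ ?_
    · refine Eventually.of_forall fun r => ?_
      have hptm : Measurable (fun t : T => (r : ℂ) * pt t) :=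
        (continuous_const.mul pt_cont_DbarB).measurable
      have h1 := (innK_meas_DbarB h hν s).comp hptm
      exact (h1.aestronglyMeasurable.sub hgm).enorm
    · filter_upwards [hrng] with r hr
      filter_upwards [hEle] with t ht
      have hr0 : 0 < r := by linarith
      have hz' : ‖(r : ℂ) * pt t‖ = r := by
        rw [norm_mul, pt_norm_DbarB, Complex.norm_real, Real.norm_of_nonneg hr0.le, mul_one]
      rw [inn_eq_DbarB h (by rw [hz']; exact hr.2), ← ofReal_norm]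
      refine ENNReal.ofReal_le_ofReal ?_
      refine (norm_sub_le _ _).trans (add_le_add ?_ ?_)
      · rw [norm_mul]
        have h1 : ‖Complex.exp (-QK N 0 ((r : ℂ) * pt t))‖ ≤ 1 := by
          rw [Complex.norm_exp, Complex.neg_re]
          have := QK_re_nonneg_DbarB h 0 (z := (r : ℂ) * pt t) (by rw [hz']; exact hr.2)
          exact Real.exp_le_one_iff.2 (by linarith)
        calc _ ≤ 1 * C := by
              gcongr
              exact hC _ ⟨by rw [hz']; exact hr.1.le, by rw [hz']; exact hr.2.le⟩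
          _ = C := one_mul C
      · rw [norm_mul]
        calc ‖E' t‖ * ‖GK_DbarB N ν s (pt t)‖ ≤ 1 * C := by
              gcongr
              exact hC _ (hmem1 t)
          _ = C := one_mul C
    · rw [lintegral_const, measure_univ, mul_one]
      exact ENNReal.ofReal_ne_top
    · filter_upwards [hEb] with t ht
      have hG : Tendsto (fun r : ℝ => GK_DbarB N ν s ((r : ℂ) * pt t)) (𝓝[<] 1)
          (𝓝 (GK_DbarB N ν s (pt t))) := by
        have h1 := hGc (pt t) (hmem1 t)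
        refine h1.tendsto.comp ?_
        refine tendsto_nhdsWithin_iff.2 ⟨?_, ?_⟩
        · have h2 : Tendsto (fun r : ℝ => (r : ℂ) * pt t) (𝓝 1) (𝓝 (((1 : ℝ) : ℂ) * pt t)) :=
            Continuous.tendsto (by fun_prop) 1
          rw [Complex.ofReal_one, one_mul] at h2
          exact h2.mono_left nhdsWithin_le_nhds
        · filter_upwards [hrng] with r hr
          have hr0 : 0 < r := by linarith
          have hz' : ‖(r : ℂ) * pt t‖ = r := by
            rw [norm_mul, pt_norm_DbarB, Complex.norm_real, Real.norm_of_nonneg hr0.le, mul_one]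
          exact ⟨by rw [hz']; exact hr.1.le, by rw [hz']; exact hr.2.le⟩
      have h3 : Tendsto (fun r : ℝ => Complex.exp (-QK N 0 ((r : ℂ) * pt t)) *
          GK_DbarB N ν s ((r : ℂ) * pt t) - E' t * GK_DbarB N ν s (pt t)) (𝓝[<] 1) (𝓝 0) := by
        have h4 := (ht.mul hG).sub_const (E' t * GK_DbarB N ν s (pt t))
        rw [sub_self] at h4
        exact h4
      have h5 : Tendsto (fun r : ℝ => ‖Complex.exp (-QK N 0 ((r : ℂ) * pt t)) *
          GK_DbarB N ν s ((r : ℂ) * pt t) - E' t * GK_DbarB N ν s (pt t)‖ₑ) (𝓝[<] 1) (𝓝 0) := by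
        have := h3.enorm
        rwa [enorm_zero] at this
      refine h5.congr' ?_
      filter_upwards [hrng] with r hr
      have hr0 : 0 < r := by linarith
      have hz' : ‖(r : ℂ) * pt t‖ = r := by
        rw [norm_mul, pt_norm_DbarB, Complex.norm_real, Real.norm_of_nonneg hr0.le, mul_one]
      rw [inn_eq_DbarB h (by rw [hz']; exact hr.2)]

/-- the difference between the solution and its inner part -/
private lemma diff_DbarB (h : Maj N 1) (hν : Measurable ν) (hνN : ∀ z ∈ disc, ‖ν z‖ ≤ N z)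
    (s : ℝ) {r : ℝ} (hr0 : 0 < r) (hr1 : r < 1) :
    ∫⁻ t, ‖RK N ν ((r : ℂ) * pt t) -
      (1 / Real.pi : ℂ) * (∫ ζ in disc, inn_DbarB N ν s ζ ((r : ℂ) * pt t))‖ₑ ∂mu ≤
    ∫⁻ t, ∫⁻ ζ in disc, ‖cut_DbarB N ν s ζ ((r : ℂ) * pt t)‖ₑ ∂volume ∂mu := by
  refine lintegral_mono_ae ?_
  filter_upwards [fin_DbarB h hν hνN hr0 hr1] with t ht
  set z := (r : ℂ) * pt t with hz
  have hcm : Measurable (fun ζ => inn_DbarB N ν s ζ z) :=
    (inn_meas_DbarB h hν s).comp (measurable_id.prodMk measurable_const)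
  have hinn : IntegrableOn (fun ζ => inn_DbarB N ν s ζ z) disc := by
    refine Integrable.mono ht hcm.aestronglyMeasurable (Eventually.of_forall fun ζ => ?_)
    unfold inn_DbarB
    split_ifs
    · exact le_rfl
    · rw [norm_zero]; exact norm_nonneg _
  have h1 : RK N ν z - (1 / Real.pi : ℂ) * (∫ ζ in disc, inn_DbarB N ν s ζ z) =
      (1 / Real.pi : ℂ) * ∫ ζ in disc, cut_DbarB N ν s ζ z := by
    rw [RK, ← mul_sub, ← integral_sub ht hinn]
    congr 1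
    refine integral_congr_ae (Eventually.of_forall fun ζ => ?_)
    simp only [inn_DbarB, cut_DbarB]
    by_cases hc : s ≤ ‖ζ‖
    · rw [if_pos hc, if_neg (not_lt.2 hc), sub_zero]
    · rw [if_neg hc, if_pos (not_le.1 hc), sub_self]
  rw [h1, enorm_mul]
  have h2 : ‖(1 / Real.pi : ℂ)‖ₑ ≤ 1 := by
    rw [← ofReal_norm, ← ENNReal.ofReal_one]
    refine ENNReal.ofReal_le_ofReal ?_
    rw [norm_div, norm_one, Complex.norm_real, Real.norm_of_nonneg Real.pi_pos.le,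
      div_le_one Real.pi_pos]
    linarith [Real.pi_gt_three]
  calc ‖(1 / Real.pi : ℂ)‖ₑ * ‖∫ ζ in disc, cut_DbarB N ν s ζ z‖ₑ
      ≤ 1 * ∫⁻ ζ in disc, ‖cut_DbarB N ν s ζ z‖ₑ := by
        gcongr
        exact enorm_integral_le_lintegral_enorm _
    _ = _ := one_mul _

/-- completeness -/
private lemma complete_DbarB (u : ℝ → T → ℂ) (hu : ∀ r, AEStronglyMeasurable (u r) mu)
    (H : ∀ ε : ℝ, 0 < ε → ∃ g : T → ℂ, MemLp g 1 mu ∧
      ∀ᶠ r : ℝ in 𝓝[<] 1, ∫⁻ t, ‖u r t - g t‖ₑ ∂mu ≤ ENNReal.ofReal ε) :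
    ∃ g : T → ℂ, AEStronglyMeasurable g mu ∧
      Tendsto (fun r : ℝ => ∫⁻ t, ‖u r t - g t‖ₑ ∂mu) (𝓝[<] 1) (𝓝 0) := by
  have hpos : ∀ n : ℕ, (0 : ℝ) < (1 / 2) ^ n / 4 := fun n => by positivity
  choose g hg hgr using fun n : ℕ => H ((1 / 2) ^ n / 4) (hpos n)
  have htri : ∀ (a b c : T → ℂ), AEStronglyMeasurable a mu → AEStronglyMeasurable b mu →
      ∫⁻ t, ‖a t - c t‖ₑ ∂mu ≤ (∫⁻ t, ‖a t - b t‖ₑ ∂mu) + ∫⁻ t, ‖b t - c t‖ₑ ∂mu := by
    intro a b c ha hb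
    have hm : AEMeasurable (fun t => ‖a t - b t‖ₑ) mu := (ha.sub hb).enorm
    rw [← lintegral_add_left' hm]
    refine lintegral_mono fun t => ?_
    have : a t - c t = (a t - b t) + (b t - c t) := by ring
    rw [this]
    exact enorm_add_le _ _
  have hsymm : ∀ (a b : T → ℂ), ∫⁻ t, ‖a t - b t‖ₑ ∂mu = ∫⁻ t, ‖b t - a t‖ₑ ∂mu := by
    intro a b
    refine lintegral_congr fun t => ?_
    exact enorm_sub_rev _ _
  have hdist : ∀ n m : ℕ, ∫⁻ t, ‖g n t - g m t‖ₑ ∂mu ≤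
      ENNReal.ofReal ((1 / 2) ^ n / 4 + (1 / 2) ^ m / 4) := by
    intro n m
    obtain ⟨r, hr1, hr2⟩ := ((hgr n).and (hgr m)).exists
    calc ∫⁻ t, ‖g n t - g m t‖ₑ ∂mu ≤ (∫⁻ t, ‖g n t - u r t‖ₑ ∂mu) + ∫⁻ t, ‖u r t - g m t‖ₑ ∂mu :=
          htri _ _ _ (hg n).1 (hu r)
      _ ≤ ENNReal.ofReal ((1 / 2) ^ n / 4) + ENNReal.ofReal ((1 / 2) ^ m / 4) := by
          rw [hsymm (g n)]
          exact add_le_add hr1 hr2
      _ = _ := by rw [ENNReal.ofReal_add (hpos n).le (hpos m).le]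
  have hB : ∑' n : ℕ, ENNReal.ofReal ((1 / 2) ^ n) ≠ ∞ := by
    rw [← ENNReal.ofReal_tsum_of_nonneg (fun n => by positivity)
      (summable_geometric_of_lt_one (by norm_num) (by norm_num))]
    exact ENNReal.ofReal_ne_top
  obtain ⟨G, hG, hGt⟩ := Lp.cauchy_complete_eLpNorm (μ := mu) (p := 1) le_rfl hg hB (by
    intro n k l hk hl
    rw [eLpNorm_one_eq_lintegral_enorm]
    refine (hdist k l).trans_lt ?_
    rw [ENNReal.ofReal_lt_ofReal_iff (by positivity)]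
    have h1 : ((1 : ℝ) / 2) ^ k ≤ (1 / 2) ^ n := pow_le_pow_of_le_one (by norm_num) (by norm_num) hk
    have h2 : ((1 : ℝ) / 2) ^ l ≤ (1 / 2) ^ n := pow_le_pow_of_le_one (by norm_num) (by norm_num) hl
    have h3 : (0 : ℝ) < (1 / 2) ^ n := by positivity
    linarith)
  refine ⟨G, hG.1, ?_⟩
  rw [ENNReal.tendsto_nhds_zero]
  intro ε hε
  by_cases hεt : ε = ∞
  · exact Eventually.of_forall fun r => by rw [hεt]; exact le_top
  obtain ⟨δ, hδ0, hδ⟩ : ∃ δ : ℝ, 0 < δ ∧ ENNReal.ofReal δ = ε :=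
    ⟨ε.toReal, ENNReal.toReal_pos hε.ne' hεt, ENNReal.ofReal_toReal hεt⟩
  have h1 : ∀ᶠ n : ℕ in atTop, eLpNorm (g n - G) 1 mu < ENNReal.ofReal (δ / 2) :=
    hGt.eventually (gt_mem_nhds (by rw [ENNReal.ofReal_pos]; positivity))
  have h2 : ∀ᶠ n : ℕ in atTop, ((1 : ℝ) / 2) ^ n / 4 < δ / 2 := by
    have h3 : Tendsto (fun n : ℕ => ((1 : ℝ) / 2) ^ n / 4) atTop (𝓝 (0 / 4)) :=
      (tendsto_pow_atTop_nhds_zero_of_lt_one (by norm_num) (by norm_num)).div_const 4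
    rw [zero_div] at h3
    exact h3.eventually (gt_mem_nhds (by positivity))
  obtain ⟨n, hn1, hn2⟩ := (h1.and h2).exists
  rw [eLpNorm_one_eq_lintegral_enorm] at hn1
  filter_upwards [hgr n] with r hr
  calc ∫⁻ t, ‖u r t - G t‖ₑ ∂mu ≤ (∫⁻ t, ‖u r t - g n t‖ₑ ∂mu) + ∫⁻ t, ‖g n t - G t‖ₑ ∂mu :=
        htri _ _ _ (hu r) (hg n).1
    _ ≤ ENNReal.ofReal (δ / 2) + ENNReal.ofReal (δ / 2) := by
        refine add_le_add (hr.trans (ENNReal.ofReal_le_ofReal hn2.le)) hn1.le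
    _ = ε := by
        rw [← ENNReal.ofReal_add (by positivity) (by positivity), add_halves, hδ]

theorem dbarB (_hA : S_dbarA) : S_dbarB := by
  intro N ν h hν hνN
  have hum : ∀ r : ℝ, AEStronglyMeasurable (fun t : T => RK N ν ((r : ℂ) * pt t)) mu := by
    intro r
    have hptm : Measurable (fun t : T => (r : ℂ) * pt t) :=
      (continuous_const.mul pt_cont_DbarB).measurable
    exact ((RK_meas_DbarB h hν).comp hptm).aestronglyMeasurable
  obtain ⟨g, hg1, hg2⟩ := complete_DbarB (fun r t => RK N ν ((r : ℂ) * pt t)) hum (by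
    intro ε hε
    obtain ⟨s, hs0, hs1, hst⟩ := tail0_DbarB h hν hνN (show (0 : ℝ) < ε / 2 by positivity)
    obtain ⟨g, hg, hgt⟩ := main_DbarB h hν hνN hs0 hs1
    refine ⟨g, hg, ?_⟩
    have h1 := hgt.eventually (gt_mem_nhds (show (0 : ℝ≥0∞) < ENNReal.ofReal (ε / 2) by
      rw [ENNReal.ofReal_pos]; positivity))
    have h2 : ∀ᶠ r : ℝ in 𝓝[<] 1, 0 < r ∧ r < 1 := Ioo_mem_nhdsLT (by norm_num)
    filter_upwards [h1, h2] with r hr1 hr2
    have hptm : Measurable (fun t : T => (r : ℂ) * pt t) :=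
      (continuous_const.mul pt_cont_DbarB).measurable
    have h3 := ((innK_meas_DbarB h hν s).comp hptm).aestronglyMeasurable (μ := mu)
    calc ∫⁻ t, ‖RK N ν ((r : ℂ) * pt t) - g t‖ₑ ∂mu
        ≤ ∫⁻ t, (‖RK N ν ((r : ℂ) * pt t) -
          (1 / Real.pi : ℂ) * (∫ ζ in disc, inn_DbarB N ν s ζ ((r : ℂ) * pt t))‖ₑ +
          ‖(1 / Real.pi : ℂ) * (∫ ζ in disc, inn_DbarB N ν s ζ ((r : ℂ) * pt t)) - g t‖ₑ) ∂mu := by
          refine lintegral_mono fun t => ?_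
          refine le_trans (le_of_eq ?_) (enorm_add_le _ _)
          congr 1
          ring
      _ = (∫⁻ t, ‖RK N ν ((r : ℂ) * pt t) -
          (1 / Real.pi : ℂ) * (∫ ζ in disc, inn_DbarB N ν s ζ ((r : ℂ) * pt t))‖ₑ ∂mu) +
          ∫⁻ t, ‖(1 / Real.pi : ℂ) * (∫ ζ in disc, inn_DbarB N ν s ζ ((r : ℂ) * pt t)) - g t‖ₑ ∂mu :=
          lintegral_add_left' ((hum r).sub h3).enorm _
      _ ≤ ENNReal.ofReal (ε / 2) + ENNReal.ofReal (ε / 2) :=
          add_le_add ((diff_DbarB h hν hνN s hr2.1 hr2.2).trans (hst r hr2.1 hr2.2)) hr1.le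
      _ = ENNReal.ofReal ε := by
          rw [← ENNReal.ofReal_add (by positivity) (by positivity), add_halves])
  exact ⟨g, hg1, hg2⟩

end DB

end Pool.Agent.H843
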