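import Pool.Agent.H843.Stmts

/-!
Step A from its two halves, by scaling; facts on `L¹` boundary functions.
-/

set_option autoImplicit false

namespace Pool.Agent.H843

open MeasureTheory Filter Topology Metric Set
open scoped ComplexConjugate ENNReal
open Pool.Agent.Helper34.Dg
open Pool.Agent.H720R2.HP (WD db)

theorem isOpen_disc : IsOpen disc := isOpen_ball

theorem Maj.scale {N : ℂ → ℝ} {κ c : ℝ} (hc : 0 ≤ c) (h : Maj N κ) :
    Maj (fun z => c * N z) (c * κ) where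
  meas := h.meas.const_mul c
  nn := fun z => mul_nonneg hc (h.nn z)
  pt := fun z hz => by
    have := mul_le_mul_of_nonneg_left (h.pt z hz) hc
    linarith
  carl := fun z hz => by
    have h1 : ∀ ω, ENNReal.ofReal (c * N ω * PP z ω) =
        ENNReal.ofReal c * ENNReal.ofReal (N ω * PP z ω) := by
      intro ω
      rw [← ENNReal.ofReal_mul hc]
      congr 1
      ring
    simp only [h1]
    rw [lintegral_const_mul' _ _ ENNReal.ofReal_ne_top, ENNReal.ofReal_mul hc]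
    gcongr
    exact h.carl z hz

theorem L1b.const_mul {R : ℂ → ℂ} {Rs : T → ℂ} (h : L1b R Rs) (c : ℂ) :
    L1b (fun z => c * R z) (fun t => c * Rs t) := by
  refine ⟨h.1.const_mul c, ?_⟩
  have h1 : ∀ r : ℝ, ∫⁻ t, ‖c * R ((r : ℂ) * pt t) - c * Rs t‖ₑ ∂mu =
      ‖c‖ₑ * ∫⁻ t, ‖R ((r : ℂ) * pt t) - Rs t‖ₑ ∂mu := by
    intro r
    rw [← lintegral_const_mul' _ _ (by simp)]
    congr 1
    funext t
    rw [← mul_sub, enorm_mul]
  simp only [h1]
  have := ENNReal.Tendsto.const_mul h.2 (a := ‖c‖ₑ) (Or.inr (by simp))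
  simpa using this

theorem dbar (h1 : S_dbarA) (h2 : S_dbarB) : S_dbar := by
  refine ⟨20, by norm_num, ?_⟩
  intro κ hκ N ν hN hν hνN
  have hc : (0 : ℝ) ≤ κ⁻¹ := by positivity
  have hM : Maj (fun z => κ⁻¹ * N z) 1 := by
    have := hN.scale hc
    rwa [inv_mul_cancel₀ hκ.ne'] at this
  have hκc : (κ : ℂ) ≠ 0 := by exact_mod_cast hκ.ne'
  have hν' : Measurable (fun z => (κ : ℂ)⁻¹ * ν z) := hν.const_mul _
  have hb : ∀ z ∈ disc, ‖(κ : ℂ)⁻¹ * ν z‖ ≤ κ⁻¹ * N z := by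
    intro z hz
    rw [norm_mul, norm_inv, Complex.norm_real, Real.norm_of_nonneg hκ.le]
    exact mul_le_mul_of_nonneg_left (hνN z hz) hc
  obtain ⟨hw, hbd⟩ := h1 _ _ hM hν' hb
  obtain ⟨Rs, hRs⟩ := h2 _ _ hM hν' hb
  refine ⟨fun z => (κ : ℂ) * RK (fun z => κ⁻¹ * N z) (fun z => (κ : ℂ)⁻¹ * ν z) z,
    fun t => (κ : ℂ) * Rs t, ?_, ?_, hRs.const_mul _⟩
  · have h3 := hw.mul_holo isOpen_disc (c := fun _ => (κ : ℂ)) (differentiableOn_const _)
    refine h3.congr isOpen_disc (fun _ _ => rfl) (fun z _ => ?_)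
    rw [← mul_assoc, mul_inv_cancel₀ hκc, one_mul]
  · intro z hz
    rw [norm_mul, Complex.norm_real, Real.norm_of_nonneg hκ.le, mul_comm]
    exact mul_le_mul_of_nonneg_right (hbd z hz) hκ.le

theorem pt_norm (t : T) : ‖pt t‖ = 1 := e_norm 1 t

theorem pt_cont : Continuous pt := e_cont 1

theorem rpt_mem {r : ℝ} (h0 : 0 ≤ r) (h1 : r < 1) (t : T) : (r : ℂ) * pt t ∈ disc := by
  rw [mem_ball_zero_iff, norm_mul, pt_norm, mul_one, Complex.norm_real, Real.norm_of_nonneg h0]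
  exact h1

/-- a sequence of radii along which an `L¹` boundary function is attained almost everywhere -/
theorem L1b.exists_seq {R : ℂ → ℂ} {Rs : T → ℂ} (hc : ContinuousOn R disc) (h : L1b R Rs) :
    ∃ r : ℕ → ℝ, (∀ n, 0 < r n) ∧ (∀ n, r n < 1) ∧ Tendsto r atTop (𝓝[<] 1) ∧
      ∀ᵐ t ∂mu, Tendsto (fun n => R ((r n : ℂ) * pt t)) atTop (𝓝 (Rs t)) := by
  have hs : Tendsto (fun n : ℕ => 1 - 1 / ((n : ℝ) + 2)) atTop (𝓝[<] 1) := by
    rw [tendsto_nhdsWithin_iff]
    constructor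
    · have h1 : Tendsto (fun n : ℕ => 1 / ((n : ℝ) + 2)) atTop (𝓝 0) := by
        have := tendsto_one_div_add_atTop_nhds_zero_nat (𝕜 := ℝ)
        have h2 := this.comp (tendsto_add_atTop_nat 1)
        refine h2.congr (fun n => ?_)
        simp only [Function.comp_apply, Nat.cast_add, Nat.cast_one]
        congr 1
        ring
      have := (tendsto_const_nhds (x := (1 : ℝ))).sub h1
      simpa using this
    · filter_upwards with n
      have : 0 < 1 / ((n : ℝ) + 2) := by positivity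
      simp only [mem_Iio]
      linarith
  have h0 : ∀ n : ℕ, 0 < 1 - 1 / ((n : ℝ) + 2) := by
    intro n
    have : 1 / ((n : ℝ) + 2) < 1 := by
      rw [div_lt_one (by positivity)]
      have : (0 : ℝ) ≤ n := by positivity
      linarith
    linarith
  have h1 : ∀ n : ℕ, 1 - 1 / ((n : ℝ) + 2) < 1 := by
    intro n
    have : 0 < 1 / ((n : ℝ) + 2) := by positivity
    linarith
  have hm : ∀ n : ℕ, AEStronglyMeasurable
      (fun t : T => R (((1 - 1 / ((n : ℝ) + 2) : ℝ) : ℂ) * pt t)) mu := by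
    intro n
    refine Continuous.aestronglyMeasurable ?_
    refine hc.comp_continuous (continuous_const.mul pt_cont) (fun t => ?_)
    exact rpt_mem (h0 n).le (h1 n) t
  have h3 : TendstoInMeasure mu
      (fun (n : ℕ) (t : T) => R (((1 - 1 / ((n : ℝ) + 2) : ℝ) : ℂ) * pt t)) atTop Rs := by
    refine tendstoInMeasure_of_tendsto_eLpNorm (p := 1) one_ne_zero hm h.1 ?_
    have h4 := h.2.comp hs
    refine h4.congr (fun n => ?_)
    rw [eLpNorm_one_eq_lintegral_enorm]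
    rfl
  obtain ⟨ns, hns, hae⟩ := h3.exists_seq_tendsto_ae
  exact ⟨fun n => 1 - 1 / ((ns n : ℝ) + 2), fun n => h0 _, fun n => h1 _,
    hs.comp hns.tendsto_atTop, hae⟩

/-- the boundary function inherits bounds -/
theorem L1b.bound {R : ℂ → ℂ} {Rs : T → ℂ} (hc : ContinuousOn R disc) (h : L1b R Rs) {M : ℝ}
    (hM : ∀ z ∈ disc, ‖R z‖ ≤ M) : ∀ᵐ t ∂mu, ‖Rs t‖ ≤ M := by
  obtain ⟨r, h0, h1, -, hae⟩ := h.exists_seq hc
  filter_upwards [hae] with t ht
  exact le_of_tendsto ht.norm (Eventually.of_forall fun n => hM _ (rpt_mem (h0 n).le (h1 n) t))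

end Pool.Agent.H843
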