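import Pool.Agent.H843.Stmts



set_option autoImplicit false

namespace Pool.Agent.H843

open MeasureTheory Filter Topology Metric Set
open scoped ComplexConjugate ENNReal
open Pool.Agent.Helper34.Dg
open Pool.Agent.H720R2.HP (WD db)

section aux

variable {D : Submodule ℂ (T →ₘ[mu] ℂ)}

private lemma const_Dcalc (hD : IsDouglas D) (c : ℂ) : Mem D (fun _ => c) :=
  Mem.hinf hD (const_HInf c)

private lemma bdd_Dcalc (hD : IsDouglas D) {f : T → ℂ} (h : Mem D f) :
    ∃ M : ℝ, 0 < M ∧ ∀ᵐ t ∂mu, ‖f t‖ ≤ M := by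
  obtain ⟨g, hg, hgf⟩ := h
  obtain ⟨M, hM⟩ := hD.bdd g hg
  refine ⟨max M 1, lt_max_of_lt_right one_pos, ?_⟩
  filter_upwards [hM, hgf] with t h1 h2
  rw [← h2]
  exact h1.trans (le_max_left _ _)

private lemma qcongr_Dcalc {f g : T → ℂ} (h : QMem D f) (hfg : f =ᵐ[mu] g) : QMem D g := by
  refine ⟨h.1.congr hfg, h.2.congr ?_⟩
  filter_upwards [hfg] with t ht
  rw [ht]

private lemma qconst_Dcalc (hD : IsDouglas D) (c : ℂ) : QMem D (fun _ => c) :=
  ⟨const_Dcalc hD c, const_Dcalc hD _⟩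

private lemma qadd_Dcalc {f g : T → ℂ} (h : QMem D f) (h' : QMem D g) :
    QMem D (fun t => f t + g t) := by
  refine ⟨h.1.add h'.1, (h.2.add h'.2).congr (Eventually.of_forall fun t => ?_)⟩
  simp only [map_add]

private lemma qmul_Dcalc (hD : IsDouglas D) {f g : T → ℂ} (h : QMem D f) (h' : QMem D g) :
    QMem D (fun t => f t * g t) := by
  refine ⟨Mem.mul hD h.1 h'.1, (Mem.mul hD h.2 h'.2).congr (Eventually.of_forall fun t => ?_)⟩
  simp only [map_mul]

private lemma qclosed_Dcalc (hD : IsDouglas D) {f : T → ℂ} (hf : AEStronglyMeasurable f mu)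
    (h : ∀ ε : ℝ, 0 < ε → ∃ g, QMem D g ∧ ∀ᵐ t ∂mu, ‖f t - g t‖ ≤ ε) : QMem D f := by
  refine ⟨Mem.closed hD hf fun ε hε => ?_, Mem.closed hD ?_ fun ε hε => ?_⟩
  · obtain ⟨g, hg, hge⟩ := h ε hε
    exact ⟨g, hg.1, hge⟩
  · exact Complex.continuous_conj.comp_aestronglyMeasurable hf
  · obtain ⟨g, hg, hge⟩ := h ε hε
    refine ⟨_, hg.2, ?_⟩
    filter_upwards [hge] with t ht
    rw [← map_sub, RCLike.norm_conj]
    exact ht

/-- the radial retraction onto a closed ball -/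
private noncomputable def retr_Dcalc (M : ℝ) (hM : 0 < M) (z : ℂ) : closedBall (0 : ℂ) M :=
  ⟨((max 1 (‖z‖ / M))⁻¹ : ℝ) • z, by
    have h1 : 0 < max 1 (‖z‖ / M) := lt_of_lt_of_le one_pos (le_max_left _ _)
    rw [mem_closedBall, dist_zero_right, norm_smul, norm_inv, Real.norm_eq_abs, abs_of_pos h1,
      inv_mul_le_iff₀ h1]
    calc ‖z‖ = ‖z‖ / M * M := by field_simp
      _ ≤ max 1 (‖z‖ / M) * M := by gcongr; exact le_max_right _ _⟩

private lemma retr_cont_Dcalc (M : ℝ) (hM : 0 < M) : Continuous (retr_Dcalc M hM) := by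
  have h : Continuous fun z : ℂ => ((max 1 (‖z‖ / M))⁻¹ : ℝ) := by
    apply Continuous.inv₀
    · fun_prop
    · intro z
      exact (lt_of_lt_of_le one_pos (le_max_left _ _)).ne'
  apply Continuous.subtype_mk
  exact h.smul continuous_id

private lemma retr_eq_Dcalc (M : ℝ) (hM : 0 < M) {z : ℂ} (hz : ‖z‖ ≤ M) :
    (retr_Dcalc M hM z : ℂ) = z := by
  show ((max 1 (‖z‖ / M))⁻¹ : ℝ) • z = z
  rw [max_eq_left ((div_le_one hM).2 hz), inv_one, one_smul]

end aux

theorem qcomp : S_qcomp := by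
  intro D hD f hf φ hφ
  obtain ⟨M, hM, hfM⟩ := bdd_Dcalc hD hf.1
  let π : ℂ → closedBall (0 : ℂ) M := retr_Dcalc M hM
  have hπ : Continuous π := retr_cont_Dcalc M hM
  have hcs : CompactSpace (closedBall (0 : ℂ) M) :=
    isCompact_iff_compactSpace.1 (isCompact_closedBall (0 : ℂ) M)
  have hπf : (fun t => ((π (f t) : closedBall (0 : ℂ) M) : ℂ)) =ᵐ[mu] f := by
    filter_upwards [hfM] with t ht
    exact retr_eq_Dcalc M hM ht
  have key : ∀ ψ : C(closedBall (0 : ℂ) M, ℂ), QMem D (fun t => ψ (π (f t))) := by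
    intro ψ
    induction ψ using ContinuousMap.induction_on_of_compact with
    | const r => exact qconst_Dcalc hD r
    | id => exact qcongr_Dcalc hf hπf.symm
    | star_id =>
      have h1 : QMem D (fun t => conj (f t)) := by
        refine ⟨hf.2, hf.1.congr (Eventually.of_forall fun t => ?_)⟩
        simp
      refine qcongr_Dcalc h1 ?_
      filter_upwards [hπf] with t ht
      show conj (f t) = conj ((π (f t) : closedBall (0 : ℂ) M) : ℂ)
      rw [ht]
    | add f1 g1 h1 h2 => exact qadd_Dcalc h1 h2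
    | mul f1 g1 h1 h2 => exact qmul_Dcalc hD h1 h2
    | frequently f1 h =>
      refine qclosed_Dcalc hD ((f1.continuous.comp hπ).comp_aestronglyMeasurable hf.1.aesm) ?_
      intro ε hε
      obtain ⟨g1, hg1, hg1'⟩ := (h.and_eventually (Metric.ball_mem_nhds f1 hε)).exists
      refine ⟨_, hg1, Eventually.of_forall fun t => ?_⟩
      rw [← dist_eq_norm, dist_comm]
      exact (ContinuousMap.dist_apply_le_dist (π (f t))).trans (mem_ball.1 hg1').le
  refine qcongr_Dcalc (key ⟨fun z => φ z, hφ.comp continuous_subtype_val⟩) ?_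
  filter_upwards [hπf] with t ht
  show φ (π (f t)) = φ (f t)
  rw [ht]

theorem dexp : S_dexp := by
  intro D hD f hf
  obtain ⟨M, hM, hfM⟩ := bdd_Dcalc hD hf
  constructor
  · obtain ⟨N, hN⟩ := exists_nat_gt (2 * M)
    have hN0 : (0 : ℝ) < N := by linarith
    have hNc : (N : ℂ) ≠ 0 := by
      have : N ≠ 0 := by
        rintro rfl
        simp at hN0
      exact_mod_cast this
    have hg : Mem D (fun t => (N : ℂ)⁻¹ * f t) := hf.smul _
    have hgM : ∀ᵐ t ∂mu, ‖(N : ℂ)⁻¹ * f t‖ ≤ 1 / 2 := by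
      filter_upwards [hfM] with t ht
      rw [norm_mul, norm_inv, Complex.norm_natCast, inv_mul_le_iff₀ hN0]
      linarith
    have h1 : Mem D (fun t => Complex.exp ((N : ℂ)⁻¹ * f t)) := by
      refine Mem.closed hD (Complex.continuous_exp.comp_aestronglyMeasurable hg.aesm) ?_
      intro ε hε
      obtain ⟨n, hn⟩ := exists_pow_lt_of_lt_one (show (0 : ℝ) < ε / 2 by positivity)
        (by norm_num : (1 / 2 : ℝ) < 1)
      refine ⟨fun t => ∑ m ∈ Finset.range (n + 1), ((N : ℂ)⁻¹ * f t) ^ m / (m.factorial : ℂ),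
        Mem.sum hD (n + 1) fun k => ?_, ?_⟩
      · refine ((Mem.pow hD hg k).smul ((k.factorial : ℂ)⁻¹)).congr
          (Eventually.of_forall fun t => ?_)
        simp only
        rw [div_eq_inv_mul]
      · filter_upwards [hgM] with t ht
        refine (Complex.exp_bound (ht.trans (by norm_num)) (Nat.succ_pos n)).trans ?_
        have h2 : ‖(N : ℂ)⁻¹ * f t‖ ^ (n + 1) ≤ (1 / 2) ^ (n + 1) := by gcongr
        have h3 : (((n + 1).succ : ℕ) : ℝ) * (((n + 1).factorial : ℝ) * ((n + 1 : ℕ) : ℝ))⁻¹ ≤ 2 := by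
          have hf1 : (1 : ℝ) ≤ ((n + 1).factorial : ℝ) := by
            exact_mod_cast Nat.succ_le_of_lt (Nat.factorial_pos _)
          have hn1 : (1 : ℝ) ≤ ((n + 1 : ℕ) : ℝ) := by
            exact_mod_cast Nat.succ_le_succ (Nat.zero_le n)
          rw [← div_eq_mul_inv, div_le_iff₀ (by positivity)]
          have : (((n + 1).succ : ℕ) : ℝ) = ((n + 1 : ℕ) : ℝ) + 1 := by push_cast; ring
          rw [this]
          nlinarith
        calc ‖(N : ℂ)⁻¹ * f t‖ ^ (n + 1) *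
              ((((n + 1).succ : ℕ) : ℝ) * (((n + 1).factorial : ℝ) * ((n + 1 : ℕ) : ℝ))⁻¹)
            ≤ (1 / 2) ^ (n + 1) * 2 := by gcongr
          _ = (1 / 2) ^ n := by rw [pow_succ]; ring
          _ ≤ ε := by linarith
    refine (Mem.pow hD h1 N).congr (Eventually.of_forall fun t => ?_)
    simp only
    rw [← Complex.exp_nat_mul, ← mul_assoc, mul_inv_cancel₀ hNc, one_mul]
  · intro ρ hρ hfρ
    obtain ⟨ρ', hρ'0, hρ'1, hρ'⟩ : ∃ ρ' : ℝ, 0 ≤ ρ' ∧ ρ' < 1 ∧ ∀ᵐ t ∂mu, ‖f t - 1‖ ≤ ρ' := by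
      refine ⟨max ρ 0, le_max_right _ _, max_lt hρ one_pos, ?_⟩
      filter_upwards [hfρ] with t ht
      exact ht.trans (le_max_left _ _)
    have hv : Mem D (fun t => 1 - f t) := (const_Dcalc hD 1).sub hf
    refine Mem.closed hD (hf.aesm.aemeasurable.inv).aestronglyMeasurable ?_
    intro ε hε
    have h1ρ : 0 < 1 - ρ' := by linarith
    obtain ⟨n, hn⟩ := exists_pow_lt_of_lt_one (show (0 : ℝ) < ε * (1 - ρ') by positivity) hρ'1
    refine ⟨fun t => ∑ k ∈ Finset.range n, (1 - f t) ^ k,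
      Mem.sum hD n fun k => Mem.pow hD hv k, ?_⟩
    filter_upwards [hρ'] with t ht
    have h2 : 1 - ρ' ≤ ‖f t‖ := by
      have h3 : ‖(1 : ℂ)‖ ≤ ‖f t‖ + ‖f t - 1‖ := by
        have : (1 : ℂ) = f t - (f t - 1) := by ring
        calc ‖(1 : ℂ)‖ = ‖f t - (f t - 1)‖ := by rw [← this]
          _ ≤ _ := norm_sub_le _ _
      rw [norm_one] at h3
      linarith
    have h4 : f t ≠ 0 := by
      intro h0
      rw [h0, norm_zero] at h2
      linarith
    have h5 : (f t)⁻¹ - ∑ k ∈ Finset.range n, (1 - f t) ^ k = (f t)⁻¹ * (1 - f t) ^ n := by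
      have := mul_neg_geom_sum (1 - f t) n
      rw [sub_sub_cancel] at this
      have h6 : ∑ k ∈ Finset.range n, (1 - f t) ^ k = (f t)⁻¹ * (1 - (1 - f t) ^ n) := by
        rw [← this, ← mul_assoc, inv_mul_cancel₀ h4, one_mul]
      rw [h6]; ring
    show ‖(f t)⁻¹ - ∑ k ∈ Finset.range n, (1 - f t) ^ k‖ ≤ ε
    rw [h5, norm_mul, norm_inv, norm_pow, norm_sub_rev]
    have h7 : ‖f t - 1‖ ^ n ≤ ρ' ^ n := by gcongr
    rw [inv_mul_le_iff₀ (by linarith)]
    calc ‖f t - 1‖ ^ n ≤ ρ' ^ n := h7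
      _ ≤ (1 - ρ') * ε := by linarith
      _ ≤ ‖f t‖ * ε := by gcongr

end Pool.Agent.H843
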