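import Mathlib
import Pool.Agent.Helper34.Dg.Alg
import Pool.Agent.H720R2.HP.Weak

/-!
Definitions for the proof that `QDA` has Bass stable rank one for every Douglas algebra
(MP_e1e648_an).  Circle side: `T`, `mu`, `disc`, `pt`, `HInf`, `ext`, `pk`, `Mem`, `IsDouglas`, `BddHol` of
`Helper34.Dg`; weak `∂̄` derivative `WD` of `H720R2.HP.Weak`.
-/

set_option autoImplicit false

namespace Pool.Agent.H843

open MeasureTheory Filter Topology Metric Set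
open scoped ComplexConjugate ENNReal
open Pool.Agent.Helper34.Dg
open Pool.Agent.H720R2.HP (WD db)

/-- the upper half plane -/
def UH : Set ℂ := {w | 0 < w.im}

/-- membership of a function on the circle in `QD = D ∩ conj D` -/
def QMem (D : Submodule ℂ (T →ₘ[mu] ℂ)) (f : T → ℂ) : Prop :=
  Mem D f ∧ Mem D (fun t => conj (f t))

/-- the kernel `p_z(ω) = (1 - |z|²) / |1 - ω̄ z|²` -/
noncomputable def PP (z ω : ℂ) : ℝ := (1 - ‖z‖ ^ 2) / ‖1 - conj ω * z‖ ^ 2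

/-- `N` is a `κ`-majorant on the disc -/
structure Maj (N : ℂ → ℝ) (κ : ℝ) : Prop where
  meas : Measurable N
  nn : ∀ z, 0 ≤ N z
  pt : ∀ z ∈ disc, N z * (1 - ‖z‖ ^ 2) ≤ κ
  carl : ∀ z ∈ disc, ∫⁻ ω in disc, ENNReal.ofReal (N ω * PP z ω) ≤ ENNReal.ofReal κ

/-- `Rs` is the boundary function of `R` in the `L¹` sense -/
def L1b (R : ℂ → ℂ) (Rs : T → ℂ) : Prop :=
  AEStronglyMeasurable Rs mu ∧
    Tendsto (fun r : ℝ => ∫⁻ t, ‖R ((r : ℂ) * pt t) - Rs t‖ₑ ∂mu) (𝓝[<] 1) (𝓝 0)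

/-- the mean oscillation `P_z(|f - f(z)|²)` -/
noncomputable def Osc (f : T → ℂ) (z : ℂ) : ℝ := ∫ t, ‖f t - ext f z‖ ^ 2 * pk z t ∂mu

/-! ### the `∂̄` operator on the disc -/

/-- the exponent -/
noncomputable def QK (N : ℂ → ℝ) (s : ℝ) (z : ℂ) : ℂ :=
  ∫ ω in disc, if s ≤ ‖ω‖ then (N ω : ℂ) * ((1 + conj ω * z) / (1 - conj ω * z)) else 0

/-- the kernel without the pole -/
noncomputable def BK (N : ℂ → ℝ) (ν : ℂ → ℂ) (ζ z : ℂ) : ℂ :=
  ν ζ * (((1 - ‖ζ‖ ^ 2 : ℝ) : ℂ) / (1 - conj ζ * z)) * Complex.exp (QK N ‖ζ‖ ζ - QK N ‖ζ‖ z)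

/-- the solution -/
noncomputable def RK (N : ℂ → ℝ) (ν : ℂ → ℂ) (z : ℂ) : ℂ :=
  (1 / Real.pi : ℂ) * ∫ ζ in disc, BK N ν ζ z / (z - ζ)

/-! ### objects in the coordinate `w = x + i y`, `z = e^{i w}` -/

/-- `p_a` in the coordinate `w` -/
noncomputable def PW (a w : ℂ) : ℝ := PP a (Complex.exp (Complex.I * w))

/-- average over the horizontal interval of half length `κ Im w` -/
noncomputable def avg (κ : ℝ) (σ : ℂ → ℝ) (w : ℂ) : ℝ :=
  (2 * (κ * w.im))⁻¹ * ∫ u in Icc (w.re - κ * w.im) (w.re + κ * w.im), σ (u + w.im * Complex.I)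

/-- vertical integral -/
noncomputable def vint (σ : ℂ → ℝ) (w : ℂ) : ℝ :=
  ∫ s in Ioi w.im, σ (w.re + s * Complex.I)

/-- length of the good part of the horizontal interval -/
noncomputable def eK (κ : ℝ) (E : Set ℂ) (x y : ℝ) : ℝ :=
  (volume {u : ℝ | |u - x| ≤ κ * y ∧ (u + y * Complex.I : ℂ) ∈ E}).toReal

open Classical in
/-- the redistributed mass -/
noncomputable def DK (κ : ℝ) (E : Set ℂ) (σ : ℂ → ℝ) (w : ℂ) : ℝ :=
  if w ∈ E then ∫ u in Icc (w.re - κ * w.im) (w.re + κ * w.im),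
    σ (u + w.im * Complex.I) / eK κ E u w.im else 0

/-- the horizontal flux -/
noncomputable def cK (κ : ℝ) (E : Set ℂ) (σ : ℂ → ℝ) (w : ℂ) : ℝ :=
  ∫ u in Icc (w.re - κ * w.im) (w.re + κ * w.im), σ (u + w.im * Complex.I) *
    ((if u < w.re then 1 else 0) -
      (volume {t : ℝ | t ≤ w.re ∧ |t - u| ≤ κ * w.im ∧ (t + w.im * Complex.I : ℂ) ∈ E}).toReal /
        eK κ E u w.im)

/-- the function `Λ` : `½ log s` for `s ≥ s₁`, second order Taylor polynomial at `s₁` below -/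
noncomputable def Lam (s₁ s : ℝ) : ℝ :=
  if s₁ ≤ s then Real.log s / 2
  else (Real.log s₁ + (s - s₁) / s₁ - (s - s₁) ^ 2 / (2 * s₁ ^ 2)) / 2

/-- the mass density `Δ (Λ(|F|²))` -/
noncomputable def sig (s₁ : ℝ) (F : ℂ → ℂ) (w : ℂ) : ℝ :=
  4 * ‖deriv F w‖ ^ 2 * max (s₁ - ‖F w‖ ^ 2) 0 / s₁ ^ 2

/-- the point `w = -i log z` over `z` -/
noncomputable def lw (z : ℂ) : ℂ := -Complex.I * Complex.log z

open Classical in
/-- the majorant on the disc attached to a density `σ` in the coordinate `w` -/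
noncomputable def NZ (κ : ℝ) (σ : ℂ → ℝ) (z : ℂ) : ℝ :=
  if z ∈ disc ∧ z ≠ 0 then
    (κ * (lw z).im * avg κ σ (lw z) + vint (avg κ σ) (lw z)) / ‖z‖ else 0

end Pool.Agent.H843
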