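import Pool.Agent.H843.Stmts2

set_option autoImplicit false

namespace Pool.Agent.H843

open MeasureTheory Filter Topology Metric Set
open scoped ComplexConjugate ENNReal
open Pool.Agent.Helper34.Dg
open Pool.Agent.H720R2.HP (WD db)

theorem divide : S_divide := by
  classical
  intro A g hA hg hne C hC
  have hgA : AnalyticOnNhd ℂ g disc := hg.analyticOnNhd isOpen_ball
  have hpre : IsPreconnected disc := (convex_ball (0 : ℂ) 1).isPreconnected
  -- the zeros are isolated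
  have hiso : ∀ z₀ ∈ disc, ∀ᶠ z in 𝓝[≠] z₀, g z ≠ 0 := by
    intro z₀ hz₀
    rcases (hgA z₀ hz₀).eventually_eq_zero_or_eventually_ne_zero with h | h
    · exfalso
      obtain ⟨z₁, hz₁, hz₁'⟩ := hne
      exact hz₁' (hgA.eqOn_zero_of_preconnected_of_eventuallyEq_zero hpre hz₀ h hz₁)
    · exact h
  set q : ℂ → ℂ := fun z => if g z ≠ 0 then A z / g z
    else limUnder (𝓝[≠] z) (fun w => A w / g w) with hq
  have hq1 : ∀ z, g z ≠ 0 → q z = A z / g z := fun z hz => by rw [hq]; simp only; rw [if_pos hz]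
  have hq2 : ∀ z, g z = 0 → q z = limUnder (𝓝[≠] z) (fun w => A w / g w) := fun z hz => by
    rw [hq]; simp only; rw [if_neg (not_not.2 hz)]
  have hb : ∀ z ∈ disc, g z ≠ 0 → ‖A z / g z‖ ≤ C := by
    intro z hz hz'
    rw [norm_div, div_le_iff₀ (norm_pos_iff.2 hz')]
    exact hC z hz
  have hd : ∀ z ∈ disc, DifferentiableAt ℂ q z := by
    intro z hz
    have hzn : disc ∈ 𝓝 z := isOpen_ball.mem_nhds hz
    by_cases h0 : g z = 0
    · have h1 := hiso z hz
      rw [eventually_nhdsWithin_iff] at h1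
      obtain ⟨s, hs, hs1⟩ : ∃ s ∈ 𝓝 z, ∀ w ∈ s, w ∈ disc ∧ (w ≠ z → g w ≠ 0) := by
        have h2 : ∀ᶠ w in 𝓝 z, w ∈ disc ∧ (w ≠ z → g w ≠ 0) := by
          filter_upwards [h1, hzn] with w h3 h4
          exact ⟨h4, fun h5 => h3 h5⟩
        exact ⟨_, h2, fun w hw => hw⟩
      have h3 : DifferentiableOn ℂ (fun w => A w / g w) (s \ {z}) := by
        intro w hw
        have hw1 := hs1 w hw.1
        have hw2 : w ≠ z := hw.2
        have h4 : DifferentiableAt ℂ A w := (hA w hw1.1).differentiableAt (isOpen_ball.mem_nhds hw1.1)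
        have h5 : DifferentiableAt ℂ g w := (hg w hw1.1).differentiableAt (isOpen_ball.mem_nhds hw1.1)
        exact (h4.div h5 (hw1.2 hw2)).differentiableWithinAt
      have h4 : BddAbove (norm ∘ (fun w => A w / g w) '' (s \ {z})) := by
        refine ⟨C, ?_⟩
        rintro _ ⟨w, hw, rfl⟩
        exact hb w (hs1 w hw.1).1 ((hs1 w hw.1).2 hw.2)
      have h5 := Complex.differentiableOn_update_limUnder_of_bddAbove hs h3 h4
      have h6 := (h5 z (mem_of_mem_nhds hs)).differentiableAt hs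
      refine h6.congr_of_eventuallyEq ?_
      filter_upwards [hs] with w hw
      by_cases hwz : w = z
      · rw [hwz, Function.update_self, hq2 z h0]
      · rw [Function.update_of_ne hwz, hq1 w ((hs1 w hw).2 hwz)]
    · have h4 : DifferentiableAt ℂ A z := (hA z hz).differentiableAt hzn
      have h5 : DifferentiableAt ℂ g z := (hg z hz).differentiableAt hzn
      refine (h4.div h5 h0).congr_of_eventuallyEq ?_
      filter_upwards [h5.continuousAt.eventually_ne h0] with w hw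
      rw [hq1 w hw]
      rfl
  refine ⟨q, fun z hz => (hd z hz).differentiableWithinAt, ?_, ?_⟩
  · intro z hz
    by_cases h0 : g z = 0
    · have h1 : Tendsto (fun w => ‖q w‖) (𝓝[≠] z) (𝓝 ‖q z‖) :=
        ((hd z hz).continuousAt.norm.tendsto).mono_left nhdsWithin_le_nhds
      refine le_of_tendsto h1 ?_
      have hzn : disc ∈ 𝓝[≠] z := mem_nhdsWithin_of_mem_nhds (isOpen_ball.mem_nhds hz)
      filter_upwards [hiso z hz, hzn] with w h2 h3
      rw [hq1 w h2]
      exact hb w h3 h2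
    · rw [hq1 z h0]
      exact hb z hz h0
  · intro z hz
    by_cases h0 : g z = 0
    · have h1 := hC z hz
      rw [h0, norm_zero, mul_zero] at h1
      rw [h0, mul_zero]
      exact norm_le_zero_iff.1 h1
    · rw [hq1 z h0]
      field_simp

/-- the polynomial of the iteration -/
private noncomputable def pp_DivIdem (x : ℂ) : ℂ := 3 * x ^ 2 - 2 * x ^ 3

private theorem pp0_DivIdem {x : ℂ} (hx : ‖x‖ ≤ 1 / 4) : ‖pp_DivIdem x‖ ≤ 7 / 8 * ‖x‖ := by
  have h1 : pp_DivIdem x = x * (x * (3 - 2 * x)) := by unfold pp_DivIdem; ring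
  have h2 : ‖3 - 2 * x‖ ≤ 7 / 2 := by
    refine (norm_sub_le _ _).trans ?_
    rw [norm_mul]
    have h3 : ‖(3 : ℂ)‖ = 3 := by simp
    have h4 : ‖(2 : ℂ)‖ = 2 := by simp
    rw [h3, h4]
    linarith
  rw [h1, norm_mul, norm_mul]
  have h3 : ‖x‖ * ‖3 - 2 * x‖ ≤ 1 / 4 * (7 / 2) :=
    mul_le_mul hx h2 (norm_nonneg _) (by norm_num)
  have h4 := norm_nonneg x
  nlinarith

private theorem pp1_DivIdem {x : ℂ} {j : ℝ} (hj : j = 0 ∨ j = 1) (hx : ‖x - j‖ ≤ 1 / 4) :
    ‖pp_DivIdem x - j‖ ≤ 7 / 8 * ‖x - j‖ := by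
  rcases hj with rfl | rfl
  · simpa using pp0_DivIdem (x := x) (by simpa using hx)
  · have h1 : pp_DivIdem x - ((1 : ℝ) : ℂ) = -pp_DivIdem (1 - x) := by
      unfold pp_DivIdem; push_cast; ring
    have h2 : ‖x - ((1 : ℝ) : ℂ)‖ = ‖1 - x‖ := by
      rw [← norm_neg]; congr 1; push_cast; ring
    rw [h1, norm_neg, h2]
    rw [h2] at hx
    exact pp0_DivIdem hx

private theorem ppn_DivIdem {x : ℂ} {j : ℝ} (hj : j = 0 ∨ j = 1) (hx : ‖x - j‖ ≤ 1 / 4) (n : ℕ) :
    ‖pp_DivIdem^[n] x - j‖ ≤ (7 / 8) ^ n * (1 / 4) := by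
  induction n with
  | zero => simpa using hx
  | succ n ih =>
    rw [Function.iterate_succ_apply', pow_succ]
    have h1 : ((7 : ℝ) / 8) ^ n ≤ 1 := pow_le_one₀ (by norm_num) (by norm_num)
    have h2 := pp1_DivIdem hj (x := pp_DivIdem^[n] x) (by linarith)
    linarith

private theorem mem_pp_DivIdem {D : Submodule ℂ (T →ₘ[mu] ℂ)} (hD : IsDouglas D) {k : T → ℂ}
    (hk : Mem D k) (n : ℕ) : Mem D (fun t => pp_DivIdem^[n] (k t)) := by
  induction n with
  | zero => exact hk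
  | succ n ih =>
    have h1 := ((Mem.pow hD ih 2).smul 3).sub ((Mem.pow hD ih 3).smul 2)
    refine h1.congr (Eventually.of_forall fun t => ?_)
    simp only [Function.iterate_succ_apply']
    rfl

theorem idem (hq : S_qcomp) : S_idem := by
  intro D hD g k hg hk ι hι hι01 ε hε hkι χ hχ hχ0
  have hX : QMem D (fun t => (χ ‖g t‖ : ℂ)) :=
    hq D hD g hg (fun z => (χ ‖z‖ : ℂ)) (Complex.continuous_ofReal.comp (hχ.comp continuous_norm))
  obtain ⟨M, hM⟩ : ∃ M : ℝ, ∀ᵐ t ∂mu, ‖(χ ‖g t‖ : ℂ)‖ ≤ M := by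
    obtain ⟨x, hx, hxe⟩ := hX.1
    obtain ⟨M, hM⟩ := hD.bdd x hx
    refine ⟨M, ?_⟩
    filter_upwards [hM, hxe] with t h1 h2
    rwa [← h2]
  have hmem : Mem D (fun t => ((ι t * χ ‖g t‖ : ℝ) : ℂ)) := by
    have hmeas : AEStronglyMeasurable (fun t => ((ι t * χ ‖g t‖ : ℝ) : ℂ)) mu := by
      have h1 : AEStronglyMeasurable (fun t => (ι t : ℂ) * (χ ‖g t‖ : ℂ)) mu :=
        (Complex.continuous_ofReal.comp_aestronglyMeasurable hι).mul hX.1.aesm
      refine h1.congr (Eventually.of_forall fun t => ?_)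
      simp
    refine Mem.closed hD hmeas fun η hη => ?_
    have hM' : 0 < max M 1 := lt_of_lt_of_le one_pos (le_max_right _ _)
    obtain ⟨n, hn⟩ := exists_pow_lt_of_lt_one (div_pos hη hM') (by norm_num : (7 / 8 : ℝ) < 1)
    refine ⟨fun t => pp_DivIdem^[n] (k t) * (χ ‖g t‖ : ℂ), Mem.mul hD (mem_pp_DivIdem hD hk n) hX.1, ?_⟩
    filter_upwards [hM, hι01, hkι] with t h1 h2 h3
    have e1 : ((ι t * χ ‖g t‖ : ℝ) : ℂ) - pp_DivIdem^[n] (k t) * (χ ‖g t‖ : ℂ) =
        -((pp_DivIdem^[n] (k t) - (ι t : ℂ)) * (χ ‖g t‖ : ℂ)) := by push_cast; ring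
    rw [e1, norm_neg, norm_mul]
    by_cases h4 : ‖g t‖ < ε
    · have h5 := ppn_DivIdem h2 (h3 h4) n
      have h6 : (7 / 8 : ℝ) ^ n * max M 1 < η := by rwa [lt_div_iff₀ hM'] at hn
      have h7 : (0 : ℝ) < (7 / 8 : ℝ) ^ n := by positivity
      calc ‖pp_DivIdem^[n] (k t) - (ι t : ℂ)‖ * ‖(χ ‖g t‖ : ℂ)‖
          ≤ ((7 / 8) ^ n * (1 / 4)) * max M 1 :=
            mul_le_mul h5 (h1.trans (le_max_left _ _)) (norm_nonneg _) (by positivity)
        _ ≤ η := by nlinarith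
    · rw [hχ0 _ (not_lt.1 h4)]
      simpa using hη.le
  refine ⟨hmem, hmem.congr (Eventually.of_forall fun t => ?_)⟩
  simp only [Complex.conj_ofReal]

end Pool.Agent.H843
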