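import Pool.Agent.H843.Stmts
import Pool.Agent.Helper34.Dg.Green

set_option autoImplicit false

namespace Pool.Agent.H843

open MeasureTheory Filter Topology Metric Set
open scoped ComplexConjugate ENNReal
open Pool.Agent.Helper34.Dg
open Pool.Agent.H720R2.HP (WD db)

/-! ### the functions -/

/-- `Re H - |f|²` -/
noncomputable def u_Energy (f H : ℂ → ℂ) (z : ℂ) : ℝ := (H z).re - ‖f z‖ ^ 2

/-- the complex form -/
theorem u_eq_Energy (f H : ℂ → ℂ) (z : ℂ) :
    (u_Energy f H z : ℂ) = (1 / 2 : ℂ) * (H z + conj (H z)) - f z * conj (f z) := by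
  unfold u_Energy
  rw [Complex.mul_conj, Complex.normSq_eq_norm_sq, Complex.add_conj]
  push_cast
  ring

/-- the derivative in `z` of `u` -/
noncomputable def u1_Energy (f H : ℂ → ℂ) (z : ℂ) : ℂ :=
  (1 / 2 : ℂ) * deriv H z - deriv f z * conj (f z)

/-- the derivative in `conj z` of `u` -/
noncomputable def u2_Energy (f H : ℂ → ℂ) (z : ℂ) : ℂ :=
  (1 / 2 : ℂ) * conj (deriv H z) - f z * conj (deriv f z)

theorem u2_eq_Energy (f H : ℂ → ℂ) (z : ℂ) : u2_Energy f H z = conj (u1_Energy f H z) := by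
  unfold u2_Energy u1_Energy
  simp only [map_sub, map_mul, Complex.conj_conj, map_div₀, map_one, map_ofNat]
  ring

/-- the derivative in `conj z` of `u2` -/
noncomputable def u22_Energy (f H : ℂ → ℂ) (z : ℂ) : ℂ :=
  (1 / 2 : ℂ) * conj (deriv (deriv H) z) - f z * conj (deriv (deriv f) z)

/-- the exponential -/
noncomputable def e_Energy (f H : ℂ → ℂ) (η : ℝ) (z : ℂ) : ℝ := Real.exp (-(u_Energy f H z / η))

variable {f H : ℂ → ℂ} {η : ℝ}

theorem hasW_u_Energy {z : ℂ} (hf : HasDerivAt f (deriv f z) z)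
    (hH : HasDerivAt H (deriv H z) z) :
    HasW (fun w => (u_Energy f H w : ℂ)) (u1_Energy f H z) (u2_Energy f H z) z := by
  have h1 : HasW H (deriv H z) 0 z := HasW.of_deriv hH
  have h2 : HasW f (deriv f z) 0 z := HasW.of_deriv hf
  have h3 := ((HasW.const (1 / 2 : ℂ) z).mul (h1.add h1.conj)).sub (h2.mul h2.conj)
  have e : (fun w => (u_Energy f H w : ℂ)) =
      fun w => (1 / 2 : ℂ) * (H w + conj (H w)) - f w * conj (f w) := by
    funext w
    exact u_eq_Energy f H w
  rw [e]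
  refine h3.congr ?_ ?_
  · unfold u1_Energy
    rw [map_zero]
    ring
  · unfold u2_Energy
    ring

theorem hasW_u2_Energy {z : ℂ} (hf : HasDerivAt f (deriv f z) z)
    (hf' : HasDerivAt (deriv f) (deriv (deriv f) z) z)
    (hH' : HasDerivAt (deriv H) (deriv (deriv H) z) z) :
    HasW (u2_Energy f H) (-((‖deriv f z‖ ^ 2 : ℝ) : ℂ)) (u22_Energy f H z) z := by
  have h1 : HasW (deriv H) (deriv (deriv H) z) 0 z := HasW.of_deriv hH'
  have h2 : HasW f (deriv f z) 0 z := HasW.of_deriv hf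
  have h2' : HasW (deriv f) (deriv (deriv f) z) 0 z := HasW.of_deriv hf'
  have h3 := ((HasW.const (1 / 2 : ℂ) z).mul h1.conj).sub (h2.mul h2'.conj)
  refine HasW.congr (U := u2_Energy f H) h3 ?_ ?_
  · rw [map_zero, ← Complex.normSq_eq_norm_sq, ← Complex.mul_conj]
    ring
  · unfold u22_Energy
    ring

theorem hasDerivAt_exp_Energy (η : ℝ) (w : ℂ) :
    HasDerivAt (fun w : ℂ => Complex.exp (-(w / (η : ℂ))))
      (-(1 / (η : ℂ)) * Complex.exp (-(w / (η : ℂ)))) w := by
  have h1 : HasDerivAt (fun w : ℂ => -(w / (η : ℂ))) (-(1 / (η : ℂ))) w :=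
    ((hasDerivAt_id w).div_const (η : ℂ)).neg
  have h2 := h1.cexp
  refine h2.congr_deriv ?_
  ring

theorem e_eq_Energy (z : ℂ) :
    (e_Energy f H η z : ℂ) = Complex.exp (-((u_Energy f H z : ℂ) / (η : ℂ))) := by
  unfold e_Energy
  push_cast
  rfl

/-- the function in Green's formula -/
noncomputable def Phi_Energy (f H : ℂ → ℂ) (η : ℝ) (z : ℂ) : ℝ := η * (1 - e_Energy f H η z)

/-- minus its mixed derivative -/
noncomputable def G_Energy (f H : ℂ → ℂ) (η : ℝ) (z : ℂ) : ℝ :=
  e_Energy f H η z * (‖deriv f z‖ ^ 2 + 1 / η * ‖u1_Energy f H z‖ ^ 2)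

theorem hasW_Phi_Energy (hη : η ≠ 0) {z : ℂ} (hf : HasDerivAt f (deriv f z) z)
    (hH : HasDerivAt H (deriv H z) z) :
    HasW (fun w => (Phi_Energy f H η w : ℂ)) ((e_Energy f H η z : ℂ) * u1_Energy f H z)
      ((e_Energy f H η z : ℂ) * u2_Energy f H z) z := by
  have h1 := hasW_u_Energy hf hH
  have h2 : HasDerivAt (fun w : ℂ => (η : ℂ) * (1 - Complex.exp (-(w / (η : ℂ)))))
      ((η : ℂ) * (-(-(1 / (η : ℂ)) * Complex.exp (-((u_Energy f H z : ℂ) / (η : ℂ))))))
      (u_Energy f H z : ℂ) :=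
    ((hasDerivAt_exp_Energy η _).const_sub 1).const_mul _
  have h3 := h1.comp_analytic h2
  have e : (fun w => (Phi_Energy f H η w : ℂ)) =
      fun w => (η : ℂ) * (1 - Complex.exp (-((u_Energy f H w : ℂ) / (η : ℂ)))) := by
    funext w
    rw [← e_eq_Energy]
    unfold Phi_Energy
    push_cast
    ring
  rw [e]
  have hη' : (η : ℂ) ≠ 0 := by exact_mod_cast hη
  refine h3.congr ?_ ?_
  · rw [e_eq_Energy]
    field_simp
  · rw [e_eq_Energy]
    field_simp

theorem hasW_Phi2_Energy {z : ℂ} (hf : HasDerivAt f (deriv f z) z)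
    (hH : HasDerivAt H (deriv H z) z)
    (hf' : HasDerivAt (deriv f) (deriv (deriv f) z) z)
    (hH' : HasDerivAt (deriv H) (deriv (deriv H) z) z) :
    HasW (fun w => (e_Energy f H η w : ℂ) * u2_Energy f H w) (-(G_Energy f H η z : ℂ))
      (-(1 / (η : ℂ)) * (e_Energy f H η z : ℂ) * u2_Energy f H z * u2_Energy f H z +
        (e_Energy f H η z : ℂ) * u22_Energy f H z) z := by
  have h1 := (hasW_u_Energy hf hH).comp_analytic (hasDerivAt_exp_Energy η _)
  have h2 := hasW_u2_Energy hf hf' hH'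
  have h3 := h1.mul h2
  have e : (fun w => (e_Energy f H η w : ℂ) * u2_Energy f H w) =
      fun w => Complex.exp (-((u_Energy f H w : ℂ) / (η : ℂ))) * u2_Energy f H w := by
    funext w
    rw [← e_eq_Energy]
  rw [e]
  refine h3.congr ?_ ?_
  · rw [← e_eq_Energy]
    unfold G_Energy
    have h4 : ((‖u1_Energy f H z‖ ^ 2 : ℝ) : ℂ) = u1_Energy f H z * u2_Energy f H z := by
      rw [u2_eq_Energy, Complex.mul_conj, Complex.normSq_eq_norm_sq]
    push_cast at h4 ⊢
    rw [h4]
    ring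
  · rw [← e_eq_Energy]

theorem G_ge_Energy (hη : 0 < η) (z : ℂ) :
    e_Energy f H η z * ‖deriv f z‖ ^ 2 ≤ G_Energy f H η z := by
  unfold G_Energy
  have h1 : 0 < e_Energy f H η z := Real.exp_pos _
  have h2 : 0 ≤ 1 / η * ‖u1_Energy f H z‖ ^ 2 := by positivity
  exact mul_le_mul_of_nonneg_left (by linarith) h1.le

theorem Phi_nonneg_Energy (hη : 0 < η) {z : ℂ} (hu : 0 ≤ u_Energy f H z) :
    0 ≤ Phi_Energy f H η z := by
  unfold Phi_Energy e_Energy
  have h1 : Real.exp (-(u_Energy f H z / η)) ≤ 1 := by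
    rw [Real.exp_le_one_iff]
    have : 0 ≤ u_Energy f H z / η := by positivity
    linarith
  exact mul_nonneg hη.le (by linarith)

theorem Phi_le_Energy (hη : 0 < η) (z : ℂ) :
    Phi_Energy f H η z ≤ min η (u_Energy f H z) := by
  unfold Phi_Energy e_Energy
  refine le_min ?_ ?_
  · have h1 : 0 < Real.exp (-(u_Energy f H z / η)) := Real.exp_pos _
    nlinarith
  · have h1 := Real.add_one_le_exp (-(u_Energy f H z / η))
    have h2 : η * (u_Energy f H z / η) = u_Energy f H z := by field_simp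
    nlinarith

/-! ### continuity -/

theorem deriv_cont_Energy {g : ℂ → ℂ} (hg : DifferentiableOn ℂ g (ball 0 1)) :
    ContinuousOn g (ball 0 1) ∧ ContinuousOn (deriv g) (ball 0 1) ∧
      ContinuousOn (deriv (deriv g)) (ball 0 1) ∧
      (∀ z ∈ ball (0 : ℂ) 1, HasDerivAt g (deriv g z) z) ∧
      ∀ z ∈ ball (0 : ℂ) 1, HasDerivAt (deriv g) (deriv (deriv g) z) z := by
  have h1 : DifferentiableOn ℂ (deriv g) (ball 0 1) := hg.deriv isOpen_ball
  have h2 : DifferentiableOn ℂ (deriv (deriv g)) (ball 0 1) := h1.deriv isOpen_ball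
  refine ⟨hg.continuousOn, h1.continuousOn, h2.continuousOn, fun z hz => ?_, fun z hz => ?_⟩
  · exact (hg.differentiableAt (isOpen_ball.mem_nhds hz)).hasDerivAt
  · exact (h1.differentiableAt (isOpen_ball.mem_nhds hz)).hasDerivAt

theorem conj_cont_Energy {g : ℂ → ℂ} (hg : ContinuousOn g (ball 0 1)) :
    ContinuousOn (fun z => conj (g z)) (ball 0 1) :=
  Complex.continuous_conj.comp_continuousOn hg

theorem u_cont_Energy (hf : ContinuousOn f (ball 0 1)) (hH : ContinuousOn H (ball 0 1)) :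
    ContinuousOn (u_Energy f H) (ball 0 1) := by
  unfold u_Energy
  exact (Complex.continuous_re.comp_continuousOn hH).sub (hf.norm.pow 2)

theorem e_cont_Energy (hf : ContinuousOn f (ball 0 1)) (hH : ContinuousOn H (ball 0 1)) :
    ContinuousOn (e_Energy f H η) (ball 0 1) := by
  unfold e_Energy
  exact Real.continuous_exp.comp_continuousOn ((u_cont_Energy hf hH).div_const η).neg

/-- Green's formula for the function `Phi`. -/
theorem green_Energy (hf : DifferentiableOn ℂ f (ball 0 1)) (hH : DifferentiableOn ℂ H (ball 0 1))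
    (hu : ∀ z ∈ ball (0 : ℂ) 1, 0 ≤ u_Energy f H z) (hη : 0 < η) {r : ℝ} (h0 : 0 < r)
    (h1 : r < 1) : ContinuousOn (G_Energy f H η) (ball 0 1) ∧
    ∫ s in (0 : ℝ)..r, 4 * (s * (Real.log r - Real.log s)) * Av (G_Energy f H η) s ≤
      2 * Real.pi * Phi_Energy f H η 0 := by
  obtain ⟨cf, cf1, cf2, df, df1⟩ := deriv_cont_Energy hf
  obtain ⟨cH, cH1, cH2, dH, dH1⟩ := deriv_cont_Energy hH
  have ce := e_cont_Energy (η := η) cf cH
  have ceC : ContinuousOn (fun z => (e_Energy f H η z : ℂ)) (ball 0 1) :=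
    Complex.continuous_ofReal.comp_continuousOn ce
  have cu1 : ContinuousOn (u1_Energy f H) (ball 0 1) :=
    (continuousOn_const.mul cH1).sub (cf1.mul (conj_cont_Energy cf))
  have cu2 : ContinuousOn (u2_Energy f H) (ball 0 1) :=
    (continuousOn_const.mul (conj_cont_Energy cH1)).sub (cf.mul (conj_cont_Energy cf1))
  have cu22 : ContinuousOn (u22_Energy f H) (ball 0 1) :=
    (continuousOn_const.mul (conj_cont_Energy cH2)).sub (cf.mul (conj_cont_Energy cf2))
  have cG : ContinuousOn (G_Energy f H η) (ball 0 1) := by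
    unfold G_Energy
    exact ce.mul ((cf1.norm.pow 2).add (continuousOn_const.mul (cu1.norm.pow 2)))
  have cGC : ContinuousOn (fun z => -(G_Energy f H η z : ℂ)) (ball 0 1) :=
    (Complex.continuous_ofReal.comp_continuousOn cG).neg
  have hg := green (U := fun w => (Phi_Energy f H η w : ℂ))
    (U1 := fun z => (e_Energy f H η z : ℂ) * u1_Energy f H z)
    (U2 := fun z => (e_Energy f H η z : ℂ) * u2_Energy f H z)
    (U21 := fun z => -(G_Energy f H η z : ℂ))
    (U22 := fun z => -(1 / (η : ℂ)) * (e_Energy f H η z : ℂ) * u2_Energy f H z * u2_Energy f H z +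
        (e_Energy f H η z : ℂ) * u22_Energy f H z)
    (fun z hz => hasW_Phi_Energy hη.ne' (df z hz) (dH z hz))
    (fun z hz => hasW_Phi2_Energy (df z hz) (dH z hz) (df1 z hz) (dH1 z hz))
    (ceC.mul cu1) cGC
    ((((continuousOn_const.mul ceC).mul cu2).mul cu2).add (ceC.mul cu22)) h0 h1
  have a1 : ∀ s, Av (fun w => (Phi_Energy f H η w : ℂ)) s = ((Av (Phi_Energy f H η) s : ℝ) : ℂ) := by
    intro s
    unfold Av
    exact intervalIntegral.integral_ofReal
  have a2 : ∀ s, Av (fun w => -(G_Energy f H η w : ℂ)) s =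
      ((-(Av (G_Energy f H η) s) : ℝ) : ℂ) := by
    intro s
    unfold Av
    rw [intervalIntegral.integral_neg, intervalIntegral.integral_ofReal]
    push_cast
    rfl
  simp only [a1, a2] at hg
  have e1 : ∫ s in (0 : ℝ)..r, ((4 * (s * (Real.log r - Real.log s)) : ℝ) : ℂ) *
      ((-(Av (G_Energy f H η) s) : ℝ) : ℂ) =
      ((∫ s in (0 : ℝ)..r, (4 * (s * (Real.log r - Real.log s)) *
        (-(Av (G_Energy f H η) s))) : ℝ) : ℂ) := by
    rw [← intervalIntegral.integral_ofReal]
    congr 1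
    funext s
    push_cast
    ring
  rw [e1] at hg
  have hg' : Av (Phi_Energy f H η) r - Av (Phi_Energy f H η) 0 =
      ∫ s in (0 : ℝ)..r, (4 * (s * (Real.log r - Real.log s)) *
        (-(Av (G_Energy f H η) s))) := by exact_mod_cast hg
  have e2 : ∫ s in (0 : ℝ)..r, (4 * (s * (Real.log r - Real.log s)) *
        (-(Av (G_Energy f H η) s))) =
      -∫ s in (0 : ℝ)..r, 4 * (s * (Real.log r - Real.log s)) * Av (G_Energy f H η) s := by
    rw [← intervalIntegral.integral_neg]
    congr 1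
    funext s
    ring
  rw [e2] at hg'
  have e3 : Av (Phi_Energy f H η) 0 = 2 * Real.pi * Phi_Energy f H η 0 := by
    unfold Av
    simp
  have e4 : 0 ≤ Av (Phi_Energy f H η) r := by
    unfold Av
    refine intervalIntegral.integral_nonneg (by positivity) fun θ _ => ?_
    exact Phi_nonneg_Energy hη (hu _ (circleMap_mem (by linarith) h1 θ))
  refine ⟨cG, ?_⟩
  linarith


/-! ### polar coordinates -/

/-- polar coordinates for a measurable function on the unit disc -/
theorem polar_Energy {F : ℂ → ℝ≥0∞} (hF : Measurable F) :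
    ∫⁻ z in ball (0 : ℂ) 1, F z =
      ∫⁻ r in Ioo (0 : ℝ) 1, ENNReal.ofReal r *
        ∫⁻ θ in Ioo (-Real.pi) Real.pi, F (circleMap 0 r θ) := by
  rw [← lintegral_indicator isOpen_ball.measurableSet, ← Complex.lintegral_comp_polarCoord_symm]
  have hsymm : ∀ p : ℝ × ℝ, Complex.polarCoord.symm p = circleMap 0 p.1 p.2 := by
    intro p
    rw [Complex.polarCoord_symm_apply, circleMap_zero, Complex.exp_mul_I]
    simp
  have hcm : Measurable (fun p : ℝ × ℝ => circleMap 0 p.1 p.2) := by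
    unfold circleMap; fun_prop
  have e1 : ∀ p : ℝ × ℝ, ENNReal.ofReal p.1 • (ball (0:ℂ) 1).indicator F (Complex.polarCoord.symm p)
      = ENNReal.ofReal p.1 * (ball (0:ℂ) 1).indicator F (circleMap 0 p.1 p.2) := by
    intro p; rw [hsymm, smul_eq_mul]
  simp_rw [e1]
  have hF' : Measurable ((ball (0:ℂ) 1).indicator F) := hF.indicator isOpen_ball.measurableSet
  have e2 : (polarCoord.target : Set (ℝ × ℝ)) = Ioi 0 ×ˢ Ioo (-Real.pi) Real.pi := rfl
  rw [e2, Measure.volume_eq_prod, ← Measure.prod_restrict, lintegral_prod _ (by fun_prop)]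
  have e3 : ∀ r ∈ Ioi (0:ℝ), (∫⁻ θ in Ioo (-Real.pi) Real.pi, ENNReal.ofReal r *
      (ball (0:ℂ) 1).indicator F (circleMap 0 r θ)) =
      (Ioo (0:ℝ) 1).indicator (fun r => ENNReal.ofReal r *
        ∫⁻ θ in Ioo (-Real.pi) Real.pi, F (circleMap 0 r θ)) r := by
    intro r hr
    rw [mem_Ioi] at hr
    by_cases h1 : r < 1
    · rw [indicator_of_mem (show r ∈ Ioo (0:ℝ) 1 from ⟨hr, h1⟩),
        lintegral_const_mul' _ _ ENNReal.ofReal_ne_top]
      congr 1
      apply lintegral_congr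
      intro θ
      rw [indicator_of_mem]
      rw [mem_ball_zero_iff, norm_circleMap_zero, abs_of_pos hr]
      exact h1
    · rw [indicator_of_notMem (fun h => h1 h.2)]
      have : ∀ θ : ℝ, ENNReal.ofReal r * (ball (0:ℂ) 1).indicator F (circleMap 0 r θ) = 0 := by
        intro θ
        rw [indicator_of_notMem, mul_zero]
        rw [mem_ball_zero_iff, norm_circleMap_zero, abs_of_pos hr]
        exact h1
      simp [this]
  rw [setLIntegral_congr_fun measurableSet_Ioi e3, lintegral_indicator measurableSet_Ioo,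
    Measure.restrict_restrict measurableSet_Ioo]
  congr 2
  rw [inter_eq_left.2]
  exact Ioo_subset_Ioi_self

/-- the inner integral for a real function which is continuous on the disc -/
theorem inner_Energy {φ : ℂ → ℝ} {r : ℝ} (h0 : 0 < r) (h1 : r < 1)
    (hφ : ContinuousOn φ (ball 0 1)) (hn : ∀ z, 0 ≤ φ z) :
    ∫⁻ θ in Ioo (-Real.pi) Real.pi, ENNReal.ofReal (φ (circleMap 0 r θ)) =
      ENNReal.ofReal (Av φ r) := by
  have hc : Continuous (fun θ : ℝ => φ (circleMap 0 r θ)) := cont_circ hφ (by linarith) h1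
  rw [← ofReal_integral_eq_lintegral_ofReal]
  · congr 1
    rw [← integral_Ioc_eq_integral_Ioo,
      ← intervalIntegral.integral_of_le (by linarith [Real.pi_pos])]
    have hp : Function.Periodic (fun θ : ℝ => φ (circleMap 0 r θ)) (2 * Real.pi) := by
      intro θ
      simp only [periodic_circleMap 0 r θ]
    have := hp.intervalIntegral_add_eq (-Real.pi) 0
    have e : -Real.pi + 2 * Real.pi = Real.pi := by ring
    rw [e, zero_add] at this
    rw [this]
    rfl
  · exact hc.continuousOn.integrableOn_Icc.mono_set Ioo_subset_Icc_self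
  · exact Eventually.of_forall fun θ => hn _

theorem meas_ind_Energy {S : Set ℂ} (hS : MeasurableSet S) {g : ℂ → ℝ≥0∞}
    (hg : ContinuousOn g S) : Measurable (S.indicator g) := by
  classical
  rw [← Set.piecewise_eq_indicator]
  exact hg.measurable_piecewise continuousOn_const hS

/-- the density of the energy -/
noncomputable def D_Energy (f H : ℂ → ℂ) (η : ℝ) (z : ℂ) : ℝ :=
  e_Energy f H η z * ‖deriv f z‖ ^ 2

theorem D_nonneg_Energy (f H : ℂ → ℂ) (η : ℝ) (z : ℂ) : 0 ≤ D_Energy f H η z := by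
  unfold D_Energy e_Energy
  positivity

/-- the estimate on the disc of radius `r` -/
theorem disc_r_Energy (hf : DifferentiableOn ℂ f (ball 0 1))
    (hH : DifferentiableOn ℂ H (ball 0 1))
    (hu : ∀ z ∈ ball (0 : ℂ) 1, 0 ≤ u_Energy f H z) (hη : 0 < η) {r : ℝ} (h0 : 0 < r)
    (h1 : r < 1) :
    ∫⁻ z in ball (0 : ℂ) 1, (ball (0 : ℂ) r).indicator
      (fun z => ENNReal.ofReal ((1 - ‖z‖ ^ 2 / r ^ 2) * D_Energy f H η z)) z ≤
      ENNReal.ofReal (Real.pi * Phi_Energy f H η 0) := by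
  obtain ⟨cG, hg⟩ := green_Energy hf hH hu hη h0 h1
  obtain ⟨cf, cf1, -, -, -⟩ := deriv_cont_Energy hf
  have cD : ContinuousOn (D_Energy f H η) (ball 0 1) :=
    (e_cont_Energy cf hH.continuousOn).mul (cf1.norm.pow 2)
  have hsub : ball (0 : ℂ) r ⊆ ball 0 1 := ball_subset_ball h1.le
  have hm : Measurable ((ball (0 : ℂ) r).indicator
      (fun z => ENNReal.ofReal ((1 - ‖z‖ ^ 2 / r ^ 2) * D_Energy f H η z))) := by
    refine meas_ind_Energy measurableSet_ball ?_
    refine ENNReal.continuous_ofReal.comp_continuousOn ?_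
    exact ((continuous_const.sub ((continuous_norm.pow 2).div_const _)).continuousOn).mul
      (cD.mono hsub)
  rw [polar_Energy hm]
  -- the inner integrals
  have key : ∀ s ∈ Ioo (0 : ℝ) 1, ENNReal.ofReal s * ∫⁻ θ in Ioo (-Real.pi) Real.pi,
      (ball (0 : ℂ) r).indicator
        (fun z => ENNReal.ofReal ((1 - ‖z‖ ^ 2 / r ^ 2) * D_Energy f H η z)) (circleMap 0 s θ) ≤
      (Ioc (0 : ℝ) r).indicator (fun s => ENNReal.ofReal
        (1 / 2 * (4 * (s * (Real.log r - Real.log s)) * Av (G_Energy f H η) s))) s := by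
    intro s hs
    by_cases hsr : s < r
    · rw [indicator_of_mem (show s ∈ Ioc (0 : ℝ) r from ⟨hs.1, hsr.le⟩)]
      have e1 : ∀ θ : ℝ, (ball (0 : ℂ) r).indicator
          (fun z => ENNReal.ofReal ((1 - ‖z‖ ^ 2 / r ^ 2) * D_Energy f H η z))
            (circleMap 0 s θ) =
          ENNReal.ofReal (1 - s ^ 2 / r ^ 2) * ENNReal.ofReal (D_Energy f H η (circleMap 0 s θ)) := by
        intro θ
        have hn : ‖circleMap 0 s θ‖ = s := by rw [norm_circleMap_zero, abs_of_pos hs.1]
        rw [indicator_of_mem (by rw [mem_ball_zero_iff, hn]; exact hsr), hn,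
          ENNReal.ofReal_mul]
        rw [sub_nonneg, div_le_one (by positivity)]
        exact pow_le_pow_left₀ hs.1.le hsr.le 2
      simp_rw [e1]
      rw [lintegral_const_mul' _ _ ENNReal.ofReal_ne_top,
        inner_Energy hs.1 hs.2 cD (D_nonneg_Energy f H η), ← ENNReal.ofReal_mul,
        ← ENNReal.ofReal_mul hs.1.le]
      · refine ENNReal.ofReal_le_ofReal ?_
        have h2 : Av (D_Energy f H η) s ≤ Av (G_Energy f H η) s := by
          unfold Av
          refine intervalIntegral.integral_mono_on (by positivity) ?_ ?_ fun θ _ => ?_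
          · exact (cont_circ cD (by linarith [hs.1]) hs.2).intervalIntegrable _ _
          · exact (cont_circ cG (by linarith [hs.1]) hs.2).intervalIntegrable _ _
          · exact G_ge_Energy hη _
        have h3 : 0 ≤ Av (D_Energy f H η) s := by
          unfold Av
          exact intervalIntegral.integral_nonneg (by positivity) fun θ _ => D_nonneg_Energy f H η _
        have h4 : 1 - s ^ 2 / r ^ 2 ≤ 2 * (Real.log r - Real.log s) := by
          have h5 := Real.log_le_sub_one_of_pos (show 0 < s ^ 2 / r ^ 2 by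
            have := hs.1
            positivity)
          rw [Real.log_div (by have := hs.1; positivity) (by positivity), Real.log_pow,
            Real.log_pow] at h5
          push_cast at h5
          linarith
        have h6 : 0 ≤ 1 - s ^ 2 / r ^ 2 := by
          rw [sub_nonneg, div_le_one (by positivity)]
          exact pow_le_pow_left₀ hs.1.le hsr.le 2
        calc s * ((1 - s ^ 2 / r ^ 2) * Av (D_Energy f H η) s)
            ≤ s * ((2 * (Real.log r - Real.log s)) * Av (G_Energy f H η) s) :=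
              mul_le_mul_of_nonneg_left (mul_le_mul h4 h2 h3 (h6.trans h4)) hs.1.le
          _ = 1 / 2 * (4 * (s * (Real.log r - Real.log s)) * Av (G_Energy f H η) s) := by ring
      · rw [sub_nonneg, div_le_one (by positivity)]
        exact pow_le_pow_left₀ hs.1.le hsr.le 2
    · have e1 : ∀ θ : ℝ, (ball (0 : ℂ) r).indicator
          (fun z => ENNReal.ofReal ((1 - ‖z‖ ^ 2 / r ^ 2) * D_Energy f H η z))
            (circleMap 0 s θ) = 0 := by
        intro θ
        have hn : ‖circleMap 0 s θ‖ = s := by rw [norm_circleMap_zero, abs_of_pos hs.1]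
        rw [indicator_of_notMem (by rw [mem_ball_zero_iff, hn]; exact hsr)]
      simp_rw [e1]
      simp
  refine (setLIntegral_mono' measurableSet_Ioo key).trans ?_
  refine (lintegral_mono_set (subset_univ _)).trans ?_
  rw [Measure.restrict_univ, lintegral_indicator measurableSet_Ioc]
  have hcont : ContinuousOn (fun s : ℝ =>
      1 / 2 * (4 * (s * (Real.log r - Real.log s)) * Av (G_Energy f H η) s)) (Icc 0 r) := by
    have h2 : Continuous fun s : ℝ => (s * Real.log s - s * Real.log r : ℝ) :=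
      Real.continuous_mul_log.sub (continuous_id.mul continuous_const)
    have h3 : ContinuousOn (fun s : ℝ => -2 * (s * Real.log s - s * Real.log r) *
        Av (G_Energy f H η) s) (Icc 0 r) :=
      (continuousOn_const.mul h2.continuousOn).mul (Av_cont cG h0.le h1)
    refine h3.congr fun s _ => ?_
    ring
  have hint : IntegrableOn (fun s : ℝ =>
      1 / 2 * (4 * (s * (Real.log r - Real.log s)) * Av (G_Energy f H η) s)) (Ioc 0 r) :=
    hcont.integrableOn_Icc.mono_set Ioc_subset_Icc_self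
  rw [← ofReal_integral_eq_lintegral_ofReal hint]
  · refine ENNReal.ofReal_le_ofReal ?_
    rw [← intervalIntegral.integral_of_le h0.le, intervalIntegral.integral_const_mul]
    linarith
  · filter_upwards [ae_restrict_mem measurableSet_Ioc] with s hs
    have h2 : 0 ≤ Av (G_Energy f H η) s := by
      unfold Av
      exact intervalIntegral.integral_nonneg (by positivity) fun θ _ =>
        (D_nonneg_Energy f H η _).trans (G_ge_Energy hη _)
    have h3 : Real.log s ≤ Real.log r := Real.log_le_log hs.1 hs.2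
    have h4 : 0 ≤ s * (Real.log r - Real.log s) := mul_nonneg hs.1.le (by linarith)
    show 0 ≤ 1 / 2 * (4 * (s * (Real.log r - Real.log s)) * Av (G_Energy f H η) s)
    positivity

/-- the estimate for `a = 0` -/
theorem zero_Energy (hf : DifferentiableOn ℂ f (ball 0 1))
    (hH : DifferentiableOn ℂ H (ball 0 1))
    (hu : ∀ z ∈ ball (0 : ℂ) 1, 0 ≤ u_Energy f H z) (hη : 0 < η) :
    ∫⁻ z in ball (0 : ℂ) 1, ENNReal.ofReal ((1 - ‖z‖ ^ 2) * D_Energy f H η z) ≤
      ENNReal.ofReal (Real.pi * min η (u_Energy f H 0)) := by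
  obtain ⟨cf, cf1, -, -, -⟩ := deriv_cont_Energy hf
  have cD : ContinuousOn (D_Energy f H η) (ball 0 1) :=
    (e_cont_Energy cf hH.continuousOn).mul (cf1.norm.pow 2)
  set ρ : ℕ → ℝ := fun n => 1 - 1 / ((n : ℝ) + 2) with hρ
  have hρ0 : ∀ n, 0 < ρ n := by
    intro n
    have h1 : (0 : ℝ) < (n : ℝ) + 2 := by positivity
    have h2 : 1 / ((n : ℝ) + 2) < 1 := by
      rw [div_lt_one h1]
      have : (0 : ℝ) ≤ n := Nat.cast_nonneg n
      linarith
    show 0 < 1 - 1 / ((n : ℝ) + 2)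
    linarith
  have hρ1 : ∀ n, ρ n < 1 := by
    intro n
    have h1 : (0 : ℝ) < 1 / ((n : ℝ) + 2) := by positivity
    show 1 - 1 / ((n : ℝ) + 2) < 1
    linarith
  have hρt : Tendsto ρ atTop (𝓝 1) := by
    have h1 : Tendsto (fun n : ℕ => 1 / ((n : ℝ) + 2)) atTop (𝓝 0) := by
      have h2 : Tendsto (fun n : ℕ => (n : ℝ) + 2) atTop atTop :=
        tendsto_atTop_add_const_right _ _ tendsto_natCast_atTop_atTop
      have h4 := tendsto_inv_atTop_zero.comp h2
      refine h4.congr fun n => ?_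
      rw [Function.comp_apply, one_div]
    have h3 := h1.const_sub (1 : ℝ)
    rwa [sub_zero] at h3
  have hlim : ∀ z ∈ ball (0 : ℂ) 1, Tendsto (fun n => (ball (0 : ℂ) (ρ n)).indicator
      (fun z => ENNReal.ofReal ((1 - ‖z‖ ^ 2 / (ρ n) ^ 2) * D_Energy f H η z)) z) atTop
      (𝓝 (ENNReal.ofReal ((1 - ‖z‖ ^ 2) * D_Energy f H η z))) := by
    intro z hz
    have hz' := mem_ball_zero_iff.1 hz
    have h1 : Tendsto (fun n => ENNReal.ofReal ((1 - ‖z‖ ^ 2 / (ρ n) ^ 2) * D_Energy f H η z))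
        atTop (𝓝 (ENNReal.ofReal ((1 - ‖z‖ ^ 2 / 1 ^ 2) * D_Energy f H η z))) := by
      refine ENNReal.tendsto_ofReal ?_
      refine Tendsto.mul_const _ (Tendsto.const_sub _ ?_)
      exact Tendsto.div tendsto_const_nhds (hρt.pow 2) (by norm_num)
    have e : (1 - ‖z‖ ^ 2 / 1 ^ 2) * D_Energy f H η z = (1 - ‖z‖ ^ 2) * D_Energy f H η z := by
      rw [one_pow, div_one]
    rw [e] at h1
    refine h1.congr' ?_
    filter_upwards [hρt.eventually (lt_mem_nhds hz')] with n hn
    rw [indicator_of_mem (mem_ball_zero_iff.2 hn)]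
  have hm : ∀ n, Measurable ((ball (0 : ℂ) (ρ n)).indicator
      (fun z => ENNReal.ofReal ((1 - ‖z‖ ^ 2 / (ρ n) ^ 2) * D_Energy f H η z))) := by
    intro n
    refine meas_ind_Energy measurableSet_ball ?_
    refine ENNReal.continuous_ofReal.comp_continuousOn ?_
    exact ((continuous_const.sub ((continuous_norm.pow 2).div_const _)).continuousOn).mul
      (cD.mono (ball_subset_ball (hρ1 n).le))
  calc ∫⁻ z in ball (0 : ℂ) 1, ENNReal.ofReal ((1 - ‖z‖ ^ 2) * D_Energy f H η z)
      = ∫⁻ z in ball (0 : ℂ) 1, liminf (fun n => (ball (0 : ℂ) (ρ n)).indicator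
      (fun z => ENNReal.ofReal ((1 - ‖z‖ ^ 2 / (ρ n) ^ 2) * D_Energy f H η z)) z) atTop :=
        setLIntegral_congr_fun measurableSet_ball fun z hz => ((hlim z hz).liminf_eq).symm
    _ ≤ liminf (fun n => ∫⁻ z in ball (0 : ℂ) 1, (ball (0 : ℂ) (ρ n)).indicator
      (fun z => ENNReal.ofReal ((1 - ‖z‖ ^ 2 / (ρ n) ^ 2) * D_Energy f H η z)) z) atTop :=
        lintegral_liminf_le hm
    _ ≤ ENNReal.ofReal (Real.pi * Phi_Energy f H η 0) := by
        refine liminf_le_of_frequently_le' (Frequently.of_forall fun n => ?_)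
        exact disc_r_Energy hf hH hu hη (hρ0 n) (hρ1 n)
    _ ≤ ENNReal.ofReal (Real.pi * min η (u_Energy f H 0)) := by
        refine ENNReal.ofReal_le_ofReal ?_
        exact mul_le_mul_of_nonneg_left (Phi_le_Energy hη 0) Real.pi_pos.le


/-! ### Moebius transformations -/

/-- the Moebius transformation with `0 ↦ a` -/
noncomputable def mob_Energy (a z : ℂ) : ℂ := (z + a) / (1 + conj a * z)

theorem norm_key_Energy (a z : ℂ) :
    ‖1 + conj a * z‖ ^ 2 = (1 - ‖a‖ ^ 2) * (1 - ‖z‖ ^ 2) + ‖z + a‖ ^ 2 := by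
  simp only [Complex.sq_norm, Complex.normSq_apply]
  simp
  ring

theorem sq_lt_Energy {z : ℂ} (hz : z ∈ ball (0 : ℂ) 1) : 0 < 1 - ‖z‖ ^ 2 := by
  rw [mem_ball_zero_iff] at hz
  nlinarith [norm_nonneg z]

theorem den_ne_Energy {a z : ℂ} (ha : a ∈ ball (0 : ℂ) 1) (hz : z ∈ ball (0 : ℂ) 1) :
    1 + conj a * z ≠ 0 := by
  intro h
  have h1 := norm_key_Energy a z
  rw [h, norm_zero] at h1
  have h2 := mul_pos (sq_lt_Energy ha) (sq_lt_Energy hz)
  have h3 := sq_nonneg ‖z + a‖
  linarith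

theorem one_sub_mob_Energy {a z : ℂ} (ha : a ∈ ball (0 : ℂ) 1) (hz : z ∈ ball (0 : ℂ) 1) :
    1 - ‖mob_Energy a z‖ ^ 2 = (1 - ‖a‖ ^ 2) * (1 - ‖z‖ ^ 2) / ‖1 + conj a * z‖ ^ 2 := by
  have h3 : 0 < ‖1 + conj a * z‖ := norm_pos_iff.mpr (den_ne_Energy ha hz)
  unfold mob_Energy
  rw [norm_div, div_pow, eq_div_iff (by positivity), sub_mul, one_mul,
    div_mul_cancel₀ _ (by positivity), norm_key_Energy]
  ring

theorem mob_mem_Energy {a z : ℂ} (ha : a ∈ ball (0 : ℂ) 1) (hz : z ∈ ball (0 : ℂ) 1) :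
    mob_Energy a z ∈ ball (0 : ℂ) 1 := by
  have h := one_sub_mob_Energy ha hz
  have h1 := sq_lt_Energy ha
  have h2 := sq_lt_Energy hz
  have h3 : 0 < ‖1 + conj a * z‖ := norm_pos_iff.mpr (den_ne_Energy ha hz)
  have h4 : 0 < 1 - ‖mob_Energy a z‖ ^ 2 := by rw [h]; positivity
  rw [mem_ball_zero_iff]
  nlinarith [norm_nonneg (mob_Energy a z)]

theorem neg_mem_Energy {a : ℂ} (ha : a ∈ ball (0 : ℂ) 1) : -a ∈ ball (0 : ℂ) 1 := by
  simpa using ha

theorem mob_inv_Energy {a z : ℂ} (ha : a ∈ ball (0 : ℂ) 1) (hz : z ∈ ball (0 : ℂ) 1) :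
    mob_Energy (-a) (mob_Energy a z) = z := by
  have h1 := den_ne_Energy ha hz
  have h3 := den_ne_Energy (neg_mem_Energy ha) (mob_mem_Energy ha hz)
  have hq : mob_Energy a z * (1 + conj a * z) = z + a := by
    unfold mob_Energy
    rw [div_mul_cancel₀ _ h1]
  generalize mob_Energy a z = q at hq h3
  unfold mob_Energy
  rw [div_eq_iff h3, map_neg]
  linear_combination hq

theorem mob_image_Energy {a : ℂ} (ha : a ∈ ball (0 : ℂ) 1) :
    mob_Energy a '' ball (0 : ℂ) 1 = ball (0 : ℂ) 1 := by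
  ext w
  constructor
  · rintro ⟨z, hz, rfl⟩
    exact mob_mem_Energy ha hz
  · intro hw
    refine ⟨mob_Energy (-a) w, mob_mem_Energy (neg_mem_Energy ha) hw, ?_⟩
    have := mob_inv_Energy (neg_mem_Energy ha) hw
    rwa [neg_neg] at this

theorem mob_inj_Energy {a : ℂ} (ha : a ∈ ball (0 : ℂ) 1) :
    InjOn (mob_Energy a) (ball (0 : ℂ) 1) := by
  intro x hx y hy hxy
  rw [← mob_inv_Energy ha hx, hxy, mob_inv_Energy ha hy]

theorem mob_deriv_Energy {a z : ℂ} (ha : a ∈ ball (0 : ℂ) 1) (hz : z ∈ ball (0 : ℂ) 1) :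
    HasDerivAt (mob_Energy a) ((1 - conj a * a) / (1 + conj a * z) ^ 2) z := by
  have h1 := den_ne_Energy ha hz
  have h2 : HasDerivAt (fun z : ℂ => z + a) 1 z := (hasDerivAt_id z).add_const a
  have h3 : HasDerivAt (fun z : ℂ => 1 + conj a * z) (conj a) z := by
    simpa using ((hasDerivAt_id z).const_mul (conj a)).const_add 1
  have h4 := h2.div h3 h1
  refine HasDerivAt.congr_deriv h4 ?_
  congr 1
  ring

theorem det_Energy (c : ℂ) : (c • (1 : ℂ →L[ℝ] ℂ)).det = ‖c‖ ^ 2 := by
  have h1 : ((c • (1 : ℂ →L[ℝ] ℂ) : ℂ →L[ℝ] ℂ) : ℂ →ₗ[ℝ] ℂ) = Algebra.lmul ℝ ℂ c := by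
    ext
    simp
  rw [ContinuousLinearMap.det, h1, ← Algebra.norm_apply, Algebra.norm_complex_apply,
    Complex.normSq_eq_norm_sq]

/-- the change of variables -/
theorem change_Energy {a : ℂ} (ha : a ∈ ball (0 : ℂ) 1) (F : ℂ → ℝ≥0∞) :
    ∫⁻ z in ball (0 : ℂ) 1, F z = ∫⁻ z in ball (0 : ℂ) 1,
      ENNReal.ofReal (‖(1 - conj a * a) / (1 + conj a * z) ^ 2‖ ^ 2) * F (mob_Energy a z) := by
  have hd : ∀ z ∈ ball (0 : ℂ) 1, HasFDerivWithinAt (mob_Energy a)
      (((1 - conj a * a) / (1 + conj a * z) ^ 2) • (1 : ℂ →L[ℝ] ℂ)) (ball (0 : ℂ) 1) z :=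
    fun z hz => (mob_deriv_Energy ha hz).complexToReal_fderiv.hasFDerivWithinAt
  have h2 := lintegral_image_eq_lintegral_abs_det_fderiv_mul volume measurableSet_ball hd
    (mob_inj_Energy ha) F
  rw [mob_image_Energy ha] at h2
  rw [h2]
  refine lintegral_congr fun z => ?_
  rw [det_Energy, abs_of_nonneg (by positivity)]

theorem PP_mob_Energy {a z : ℂ} (ha : a ∈ ball (0 : ℂ) 1) (hz : z ∈ ball (0 : ℂ) 1) :
    (1 - ‖mob_Energy a z‖ ^ 2) * PP a (mob_Energy a z) = 1 - ‖z‖ ^ 2 := by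
  have h1 := den_ne_Energy ha hz
  have h3 : 0 < ‖1 + conj a * z‖ := norm_pos_iff.mpr h1
  have h4 := sq_lt_Energy ha
  have e1 : ‖1 - conj (mob_Energy a z) * a‖ = (1 - ‖a‖ ^ 2) / ‖1 + conj a * z‖ := by
    rw [← Complex.norm_conj]
    have e2 : conj (1 - conj (mob_Energy a z) * a) =
        ((1 - ‖a‖ ^ 2 : ℝ) : ℂ) / (1 + conj a * z) := by
      rw [map_sub, map_one, map_mul, Complex.conj_conj]
      have e3 : ((1 - ‖a‖ ^ 2 : ℝ) : ℂ) = 1 - a * conj a := by
        rw [Complex.mul_conj, Complex.normSq_eq_norm_sq]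
        push_cast
        ring
      rw [e3, eq_div_iff h1]
      have e4 : mob_Energy a z * (1 + conj a * z) = z + a := by
        unfold mob_Energy
        rw [div_mul_cancel₀ _ h1]
      linear_combination (-(conj a)) * e4
    rw [e2, norm_div, Complex.norm_real, Real.norm_of_nonneg h4.le]
  unfold PP
  rw [e1, one_sub_mob_Energy ha hz]
  field_simp

/-- Step O1. -/
theorem energy : S_energy := by
  intro f H hf hH hu η hη a ha
  have hmd : DifferentiableOn ℂ (mob_Energy a) (ball 0 1) := fun z hz =>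
    (mob_deriv_Energy ha hz).differentiableAt.differentiableWithinAt
  have hmaps : MapsTo (mob_Energy a) (ball (0 : ℂ) 1) (ball (0 : ℂ) 1) := fun z hz =>
    mob_mem_Energy ha hz
  have hz := zero_Energy (f := fun z => f (mob_Energy a z)) (H := fun z => H (mob_Energy a z))
    (hf.comp hmd hmaps) (hH.comp hmd hmaps) (fun z hz => hu _ (hmaps hz)) hη
  have e0 : mob_Energy a 0 = a := by
    unfold mob_Energy
    simp
  have e1 : u_Energy (fun z => f (mob_Energy a z)) (fun z => H (mob_Energy a z)) 0 =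
      (H a).re - ‖f a‖ ^ 2 := by
    unfold u_Energy
    simp only [e0]
  rw [e1] at hz
  refine le_trans (le_of_eq ?_) hz
  rw [change_Energy ha]
  refine setLIntegral_congr_fun measurableSet_ball fun z hz => ?_
  have hfd : HasDerivAt f (deriv f (mob_Energy a z)) (mob_Energy a z) :=
    (hf.differentiableAt (isOpen_ball.mem_nhds (hmaps hz))).hasDerivAt
  have hcd : deriv (fun z => f (mob_Energy a z)) z =
      deriv f (mob_Energy a z) * ((1 - conj a * a) / (1 + conj a * z) ^ 2) :=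
    (hfd.comp z (mob_deriv_Energy ha hz)).deriv
  show ENNReal.ofReal (‖(1 - conj a * a) / (1 + conj a * z) ^ 2‖ ^ 2) *
    ENNReal.ofReal (‖deriv f (mob_Energy a z)‖ ^ 2 * (1 - ‖mob_Energy a z‖ ^ 2) *
      PP a (mob_Energy a z) * Real.exp (-((H (mob_Energy a z)).re -
        ‖f (mob_Energy a z)‖ ^ 2) / η)) = _
  rw [← ENNReal.ofReal_mul (by positivity)]
  congr 1
  unfold D_Energy e_Energy u_Energy
  rw [hcd, norm_mul, mul_pow, mul_assoc (‖deriv f (mob_Energy a z)‖ ^ 2), PP_mob_Energy ha hz,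
    neg_div]
  ring

end Pool.Agent.H843
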