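import Pool.Agent.H843.Stmts2
import Pool.Agent.H720R2.Cor.Lim
import Pool.Agent.H720R2.HP.T_B

/-!
Step E on the disc from Step E on the upper half plane.
-/

set_option autoImplicit false

namespace Pool.Agent.H843

open MeasureTheory Filter Topology Metric Set
open scoped ComplexConjugate ENNReal
open Pool.Agent.Helper34.Dg
open Pool.Agent.H720R2.HP (WD db Nice)
open Pool.Agent.H720R2.HP.TB (add_I_ne cay_small cay_le_one cay_tendsto normSq_cay)
open Pool.Agent.H720R2.Cor (ultra_lim)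
open Complex (I normSq normSq_pos normSq_apply)

/-- the Cayley map of the upper half plane onto the disc -/
private noncomputable def ciE (w : ℂ) : ℂ := (w - I) / (w + I)

/-- its inverse -/
private noncomputable def cyE (z : ℂ) : ℂ := I * (1 + z) / (1 - z)

private theorem ne_one_E {z : ℂ} (hz : z ∈ disc) : 1 - z ≠ 0 := by
  intro h0
  have h1 : z = 1 := (sub_eq_zero.1 h0).symm
  have h2 : ‖z‖ < 1 := by simpa [disc] using hz
  rw [h1] at h2
  simp at h2

private theorem ci_cy_E {z : ℂ} (hz : z ∈ disc) : ciE (cyE z) = z := by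
  have h1 := ne_one_E hz
  have h2 : cyE z + I = 2 * I / (1 - z) := by
    simp only [cyE]
    field_simp
    ring
  have h3 : cyE z - I = 2 * I * z / (1 - z) := by
    simp only [cyE]
    field_simp
    ring
  unfold ciE
  rw [h2, h3]
  have := Complex.I_ne_zero
  field_simp

private theorem cy_mem_E {z : ℂ} (hz : z ∈ disc) : cyE z ∈ UH := by
  have h3 := ne_one_E hz
  have h4 : 0 < normSq (1 - z) := normSq_pos.2 h3
  have h2 : ‖z‖ < 1 := by simpa [disc] using hz
  have h5 : (cyE z).im = (1 - ‖z‖ ^ 2) / normSq (1 - z) := by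
    rw [← Complex.normSq_eq_norm_sq, normSq_apply z]
    simp only [cyE]
    rw [Complex.div_im]
    simp
    ring
  change 0 < (cyE z).im
  rw [h5]
  have : ‖z‖ ^ 2 < 1 := by nlinarith [norm_nonneg z]
  exact div_pos (by linarith) h4

private theorem cy_diff_E : DifferentiableOn ℂ cyE disc := by
  have h2 : DifferentiableOn ℂ (fun q : ℂ => 1 - q) disc := by fun_prop
  have h3 : DifferentiableOn ℂ (fun q : ℂ => I * (1 + q)) disc := by fun_prop
  exact h3.div h2 fun z hz => ne_one_E hz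

private theorem ci_diff_E {s : Set ℂ} (hs : ∀ w ∈ s, -1 < w.im) : DifferentiableOn ℂ ciE s := by
  have h2 : DifferentiableOn ℂ (fun w : ℂ => w + I) s := by fun_prop
  have h3 : DifferentiableOn ℂ (fun w : ℂ => w - I) s := by fun_prop
  exact h3.div h2 fun w hw => add_I_ne (hs w hw)

private theorem ci_mul_mem_E {r : ℝ} (hr0 : 0 < r) (hr1 : r < 1) {w : ℂ} (hw : 0 ≤ w.im) :
    (r : ℂ) * ciE w ∈ disc := by
  have h := cay_le_one hw
  have h' : ‖(r : ℂ) * ciE w‖ < 1 := by
    rw [norm_mul, Complex.norm_real, Real.norm_of_nonneg hr0.le]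
    unfold ciE
    nlinarith [norm_nonneg ((w - I) / (w + I))]
  simpa [disc] using h'

theorem extD (h : S_extUH) : S_ext := by
  intro ε hε hε1
  obtain ⟨ε', C, hε', hεε', hC, H⟩ := h ε hε hε1
  refine ⟨ε', C, hε', hεε', hC, ?_⟩
  intro g φ hg hgb hφ hφb
  set r : ℕ → ℝ := fun m => 1 - 1 / ((m : ℝ) + 2) with hr
  have hr0 : ∀ m, 0 < r m := by
    intro m
    have : (0 : ℝ) ≤ m := Nat.cast_nonneg m
    rw [hr]
    beta_reduce
    rw [sub_pos, div_lt_one (by linarith)]
    linarith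
  have hr1 : ∀ m, r m < 1 := by
    intro m
    have : (0 : ℝ) ≤ m := Nat.cast_nonneg m
    rw [hr]
    beta_reduce
    have : 0 < 1 / ((m : ℝ) + 2) := by positivity
    linarith
  have hrt : Tendsto (fun m => ((r m : ℝ) : ℂ)) atTop (𝓝 1) := by
    have h1 : Tendsto r atTop (𝓝 (1 - 0)) := by
      refine tendsto_const_nhds.sub ?_
      have h2 := (tendsto_one_div_add_atTop_nhds_zero_nat (𝕜 := ℝ))
      have h3 := h2.comp (tendsto_add_atTop_nat 1)
      refine h3.congr (fun m => ?_)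
      simp only [Function.comp_apply]
      push_cast
      ring
    rw [sub_zero] at h1
    have h2 := (Complex.continuous_ofReal.tendsto 1).comp h1
    rw [Complex.ofReal_one] at h2
    exact h2
  have hsol : ∀ m, ∃ Ψ : ℂ → ℂ, DifferentiableOn ℂ Ψ disc ∧ (∀ z ∈ disc, ‖Ψ z‖ ≤ C) ∧
      ∀ z ∈ disc, ‖g ((r m : ℂ) * z)‖ < ε' →
        ‖Ψ z - φ ((r m : ℂ) * z)‖ ≤ C * ‖g ((r m : ℂ) * z)‖ ^ 2 := by
    intro m
    have hη : 0 < (1 - r m ^ 2) / 16 := by
      have := hr0 m
      have := hr1 m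
      nlinarith
    have hη1 : (1 - r m ^ 2) / 16 < 1 := by
      have := hr0 m
      nlinarith
    have hnice : Nice (fun w => g ((r m : ℂ) * ciE w)) ((1 - r m ^ 2) / 16) := by
      refine ⟨hη, ?_, ?_⟩
      · refine hg.comp ((ci_diff_E ?_).const_mul _) ?_
        · intro w hw
          have hw' : -((1 - r m ^ 2) / 16) < w.im := hw
          linarith
        · intro w hw
          have := cay_small (hr0 m) (hr1 m) (w := w) hw
          simpa [disc, ciE] using this
      · intro w hw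
        exact hgb _ (ci_mul_mem_E (hr0 m) (hr1 m) hw)
    have hlim : ∃ c : ℂ, Tendsto (fun w => g ((r m : ℂ) * ciE w))
        (Bornology.cobounded ℂ ⊓ 𝓟 {w : ℂ | 0 ≤ w.im}) (𝓝 c) := by
      refine ⟨g ((r m : ℂ) * 1), ?_⟩
      refine Tendsto.mono_left ?_ inf_le_left
      have hmem : (r m : ℂ) * 1 ∈ disc := by
        have : ‖(r m : ℂ) * 1‖ < 1 := by
          rw [mul_one, Complex.norm_real, Real.norm_of_nonneg (hr0 m).le]
          exact hr1 m
        simpa [disc] using this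
      have hopen : IsOpen disc := isOpen_ball
      have hc : ContinuousAt g ((r m : ℂ) * 1) :=
        (hg.differentiableAt (hopen.mem_nhds hmem)).continuousAt
      exact hc.tendsto.comp (cay_tendsto.const_mul (r m : ℂ))
    obtain ⟨Φ, hΦ, hΦb, hΦφ⟩ := H (fun w => g ((r m : ℂ) * ciE w))
      (fun w => φ ((r m : ℂ) * ciE w)) _ hnice hlim
      (by
        refine hφ.comp ((ci_diff_E ?_).const_mul _) ?_
        · rintro w ⟨hw, -⟩
          have hw' : 0 < w.im := hw
          linarith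
        · rintro w ⟨hw, hw2⟩
          have hw' : 0 < w.im := hw
          exact ⟨ci_mul_mem_E (hr0 m) (hr1 m) hw'.le, hw2⟩)
      (by
        intro w hw hw2
        have hw' : 0 < w.im := hw
        exact hφb _ (ci_mul_mem_E (hr0 m) (hr1 m) hw'.le) hw2)
    refine ⟨fun z => Φ (cyE z), hΦ.comp cy_diff_E fun z hz => cy_mem_E hz,
      fun z hz => hΦb _ (cy_mem_E hz), fun z hz hgz => ?_⟩
    have h1 := hΦφ (cyE z) (cy_mem_E hz)
    simp only [ci_cy_E hz] at h1
    exact h1 hgz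
  choose Ψ hΨ hΨb hΨφ using hsol
  set 𝒰 : Ultrafilter ℕ := Ultrafilter.of atTop with h𝒰
  have hle : (𝒰 : Filter ℕ) ≤ atTop := Ultrafilter.of_le _
  have hopen : IsOpen disc := isOpen_ball
  obtain ⟨Φ, hΦ, hΦb, hΦt⟩ := ultra_lim hopen 𝒰 Ψ hΨ hΨb
  refine ⟨Φ, hΦ, hΦb, fun z hz hgz => ?_⟩
  have hrz : Tendsto (fun m => (r m : ℂ) * z) atTop (𝓝 z) := by
    have := hrt.mul_const z
    rwa [one_mul] at this
  have hgt : Tendsto (fun m => g ((r m : ℂ) * z)) atTop (𝓝 (g z)) :=
    ((hg.differentiableAt (hopen.mem_nhds hz)).continuousAt).tendsto.comp hrz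
  have hset : IsOpen {z | z ∈ disc ∧ ‖g z‖ < ε} := by
    have := hg.continuousOn.norm.isOpen_inter_preimage hopen (isOpen_Iio (a := ε))
    exact this
  have hφt : Tendsto (fun m => φ ((r m : ℂ) * z)) atTop (𝓝 (φ z)) :=
    ((hφ.differentiableAt (hset.mem_nhds ⟨hz, hgz.trans hεε'⟩)).continuousAt).tendsto.comp hrz
  have hev : ∀ᶠ m in (𝒰 : Filter ℕ),
      ‖Ψ m z - φ ((r m : ℂ) * z)‖ ≤ C * ‖g ((r m : ℂ) * z)‖ ^ 2 := by
    have h1 : ∀ᶠ m in atTop, ‖g ((r m : ℂ) * z)‖ < ε' :=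
      hgt.norm.eventually (gt_mem_nhds hgz)
    filter_upwards [hle h1] with m hm
    exact hΨφ m z hz hm
  have t1 : Tendsto (fun m => ‖Ψ m z - φ ((r m : ℂ) * z)‖) 𝒰 (𝓝 ‖Φ z - φ z‖) :=
    ((hΦt z hz).sub (hφt.mono_left hle)).norm
  have t2 : Tendsto (fun m => C * ‖g ((r m : ℂ) * z)‖ ^ 2) 𝒰 (𝓝 (C * ‖g z‖ ^ 2)) :=
    ((hgt.mono_left hle).norm.pow 2).const_mul C
  exact le_of_tendsto_of_tendsto t1 t2 hev

end Pool.Agent.H843
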