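import Pool.Agent.H843.Stmts2
import Pool.Agent.H720R2.HP.CutN

/-!
Step E on the upper half plane: extension of bounded analytic functions from `{|g| < ε}`.
-/

set_option autoImplicit false

namespace Pool.Agent.H843

open MeasureTheory Filter Topology Metric Set
open scoped ComplexConjugate ENNReal ContDiff
open Pool.Agent.Helper34.Dg
open Pool.Agent.H720R2.HP (WD db Nice)

section ExtUHAux

open Pool.Agent.H720R2.HP (CutP Den SI UR isOpen_UH cutN jones_op db_meas db_ne db_norm_le db_mul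
  db_holo db_congr)

variable {g : ℂ → ℂ} {ε ε0 C : ℝ} {ι : Type} {S : Finset ι} {a : ι → ℂ} {R : ι → Set ℂ}
  {χ : Option (Fin 1) → ℂ → ℂ}

/-- where the gradient of the first cutoff function does not vanish, `ε₀ ≤ |g| ≤ ε` -/
private theorem where_ExtUH (h : CutP (fun _ : Fin 1 => g) ε ε0 C S a R χ)
    (hg : DifferentiableOn ℂ g Pool.Agent.H720R2.HP.UH) {w : ℂ}
    (hw : w ∈ Pool.Agent.H720R2.HP.UH) (hd : db (χ none) w ≠ 0) :
    ε0 ≤ ‖g w‖ ∧ ‖g w‖ ≤ ε := by
  have hf : ∀ i : Fin 1, DifferentiableOn ℂ ((fun _ : Fin 1 => g) i) Pool.Agent.H720R2.HP.UH :=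
    fun _ => hg
  refine ⟨?_, h.d_none hf hw (db_ne hd) 0⟩
  have h1 := h.db_sum hw
  rw [Fin.sum_univ_one] at h1
  have h2 : db (χ (some 0)) w ≠ 0 := by
    intro h3
    apply hd
    rw [h3, add_zero] at h1
    exact h1
  exact h.d_some hf hw (db_ne h2)

private theorem main_ExtUH {ε' : ℝ} (hε : 0 < ε') (hεε : ε < ε') (hε0 : 0 < ε0) (hC : 0 < C)
    (h : CutP (fun _ : Fin 1 => g) ε ε0 C S a R χ)
    (hg : DifferentiableOn ℂ g Pool.Agent.H720R2.HP.UH)
    (hgb : ∀ w ∈ Pool.Agent.H720R2.HP.UH, ‖g w‖ ≤ 1) (φ : ℂ → ℂ)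
    (hφ : DifferentiableOn ℂ φ {w | w ∈ Pool.Agent.H720R2.HP.UH ∧ ‖g w‖ < ε'})
    (hφb : ∀ w ∈ Pool.Agent.H720R2.HP.UH, ‖g w‖ < ε' → ‖φ w‖ ≤ 1) :
    ∃ Φ : ℂ → ℂ, DifferentiableOn ℂ Φ Pool.Agent.H720R2.HP.UH ∧
      (∀ w ∈ Pool.Agent.H720R2.HP.UH, ‖Φ w‖ ≤ 1 + 2160 * Real.exp C * (C / ε0 ^ 2) * 1) ∧
      ∀ w ∈ Pool.Agent.H720R2.HP.UH, ‖g w‖ < ε0 → ‖g w‖ < ε' →
        ‖Φ w - φ w‖ ≤ (1 + 2160 * Real.exp C * (C / ε0 ^ 2) * 1) * ‖g w‖ ^ 2 := by
  classical
  set U := Pool.Agent.H720R2.HP.UH with hU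
  have hUo : IsOpen U := isOpen_UH
  set Ω : Set ℂ := {w | w ∈ U ∧ ‖g w‖ < ε'} with hΩ
  have hΩo : IsOpen Ω := by
    have h1 : IsOpen (U ∩ (fun w => ‖g w‖) ⁻¹' Iio ε') :=
      hg.continuousOn.norm.isOpen_inter_preimage hUo isOpen_Iio
    exact h1
  set ψ : ℂ → ℂ := Ω.indicator φ with hψ
  have hψm : Measurable ψ := by
    rw [hψ, ← Set.piecewise_eq_indicator]
    exact ContinuousOn.measurable_piecewise hφ.continuousOn continuousOn_const hΩo.measurableSet
  have hψb : ∀ w ∈ U, ‖ψ w‖ ≤ 1 := by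
    intro w hw
    by_cases hm : w ∈ Ω
    · rw [hψ, indicator_of_mem hm]
      exact hφb w hw hm.2
    · rw [hψ, indicator_of_notMem hm, norm_zero]
      exact zero_le_one
  have hf : ∀ i : Fin 1, DifferentiableOn ℂ ((fun _ : Fin 1 => g) i) U := fun _ => hg
  -- the density
  set ν : ℂ → ℂ := (UR S R).indicator (fun w => ψ w * db (χ none) w / g w ^ 2) with hν
  have hνm : Measurable ν := by
    refine Pool.Agent.H720R2.HP.ind_meas h hf
      (fun v w => ψ w * db (χ none) w / v 0 ^ 2) ?_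
    have h1 : Measurable (fun p : (Fin 1 → ℂ) × ℂ => p.1 0) :=
      (measurable_pi_apply 0).comp measurable_fst
    exact ((hψm.comp measurable_snd).mul ((db_meas _).comp measurable_snd)).div (h1.pow_const 2)
  have hνeq : ∀ w ∈ U, ν w = ψ w * db (χ none) w / g w ^ 2 := by
    intro w hw
    by_cases hm : w ∈ UR S R
    · rw [hν, indicator_of_mem hm]
    · rw [hν, indicator_of_notMem hm]
      have h1 : db (χ none) w = 0 := by
        by_contra h2
        exact hm (h.grad w hw _ (db_ne h2))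
      rw [h1, mul_zero, zero_div]
  have hD : Den S a R ν (C / ε0 ^ 2) (fun _ : ℂ × ℂ => (1 : ℂ)) 1 :=
    { hμ := hνm
      hK0 := by positivity
      hK := by
        intro k hk w hw
        have hwU := (h.fam.hR k hk w hw).1
        have hak := h.fam.ha k hk
        rw [hνeq w hwU]
        by_cases hd : db (χ none) w = 0
        · rw [hd, mul_zero, zero_div, norm_zero]
          positivity
        · have h1 := (where_ExtUH h hg hwU hd).1
          have h2 := (db_norm_le (χ none) w).trans (h.gradb k hk w hw none)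
          have h3 := hψb w hwU
          rw [norm_div, norm_mul, norm_pow]
          have h4 : ε0 ^ 2 ≤ ‖g w‖ ^ 2 := pow_le_pow_left₀ hε0.le h1 2
          calc ‖ψ w‖ * ‖db (χ none) w‖ / ‖g w‖ ^ 2
              ≤ 1 * (C / (a k).im) / ε0 ^ 2 := by gcongr
            _ = C / ε0 ^ 2 / (a k).im := by ring
      h0 := by
        intro w hw
        rw [hν, indicator_of_notMem]
        rintro ⟨k, hk, hwk⟩
        exact hw k hk hwk
      hG := differentiableOn_const _
      hM0 := zero_le_one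
      hM := by
        intro ζ _ y _
        simp }
  obtain ⟨V, hV1, hV2, -⟩ := jones_op h.fam hD
  have hset : {w : ℂ | ‖(0 : ℂ)‖ ^ 2 < w.im} = U := by
    ext w
    simp [hU, Pool.Agent.H720R2.HP.UH]
  have hVwd := hV2 0
  rw [hset] at hVwd
  have hVb : ∀ w ∈ U, ‖V (w, 0)‖ ≤ 2160 * Real.exp C * (C / ε0 ^ 2) * 1 := by
    intro w hw
    refine hV1 (w, 0) ?_
    show ‖(0 : ℂ)‖ ^ 2 < w.im
    have hw' : 0 < w.im := hw
    rw [norm_zero]
    simpa using hw'
  -- the first term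
  have hloc : ∀ w ∈ U, ContDiffAt ℝ 1 (fun z => χ none z * ψ z) w ∧
      db (fun z => χ none z * ψ z) w = ψ w * db (χ none) w := by
    intro w hw
    by_cases hm : ‖g w‖ < ε'
    · have hwΩ : w ∈ Ω := ⟨hw, hm⟩
      have h1 : ψ =ᶠ[𝓝 w] φ := by
        filter_upwards [hΩo.mem_nhds hwΩ] with z hz
        rw [hψ, indicator_of_mem hz]
      have h2 : DifferentiableAt ℂ ψ w :=
        ((hφ.differentiableAt (hΩo.mem_nhds hwΩ)).congr_of_eventuallyEq h1)
      have h3 : ContDiffAt ℂ 1 φ w :=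
        ((hφ.analyticAt (hΩo.mem_nhds hwΩ)).contDiffAt (n := ω)).of_le le_top
      have h4 : ContDiffAt ℝ 1 ψ w := (h3.restrict_scalars ℝ).congr_of_eventuallyEq h1
      have h5 : ContDiffAt ℝ 1 (χ none) w := (h.smooth none).contDiffAt (hUo.mem_nhds hw)
      refine ⟨h5.mul h4, ?_⟩
      rw [db_mul (h5.differentiableAt one_ne_zero) (h2.restrictScalars ℝ), db_holo h2, mul_zero,
        zero_add]
    · have hlt : ε < ‖g w‖ := lt_of_lt_of_le hεε (not_lt.1 hm)
      have hc : ContinuousAt g w := (hg.differentiableAt (hUo.mem_nhds hw)).continuousAt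
      have h2 : ∀ᶠ z in 𝓝 w, ε < ‖g z‖ := hc.norm.eventually (lt_mem_nhds hlt)
      have h3 : χ none =ᶠ[𝓝 w] fun _ => 0 := by
        filter_upwards [h2, hUo.mem_nhds hw] with z hz hzU
        by_contra h4
        exact absurd (h.small z hzU h4 0) (not_le.2 hz)
      have h4 : (fun z => χ none z * ψ z) =ᶠ[𝓝 w] fun _ => 0 := by
        filter_upwards [h3] with z hz
        rw [hz, zero_mul]
      refine ⟨contDiffAt_const.congr_of_eventuallyEq h4, ?_⟩
      rw [db_congr h4, db_congr h3]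
      unfold db
      simp
  have hw1 : WD U (fun z => χ none z * ψ z) (fun w => ψ w * db (χ none) w) :=
    (WD.of_C1 hUo (fun w hw => (hloc w hw).1.contDiffWithinAt)).congr hUo (fun _ _ => rfl)
      (fun w hw => (hloc w hw).2.symm)
  have hw2 := hVwd.mul_holo hUo (c := fun w => -(g w) ^ 2) ((hg.pow 2).neg)
  have hw3 := hw1.add hUo hw2
  refine ⟨_, hw3.holo hUo ?_, ?_, ?_⟩
  · intro w hw
    rw [hνeq w hw]
    by_cases hd : db (χ none) w = 0
    · rw [hd]
      simp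
    · have h1 := (where_ExtUH h hg hw hd).1
      have h2 : g w ≠ 0 := norm_pos_iff.1 (lt_of_lt_of_le hε0 h1)
      field_simp
      ring
  · intro w hw
    refine (norm_add_le _ _).trans (add_le_add ?_ ?_)
    · rw [norm_mul]
      have h1 := h.bd none w hw
      have h2 := hψb w hw
      calc ‖χ none w‖ * ‖ψ w‖ ≤ 1 * 1 := by gcongr
        _ = 1 := one_mul _
    · rw [norm_mul, norm_neg, norm_pow]
      have h1 := hgb w hw
      have h2 := hVb w hw
      have h3 : ‖g w‖ ^ 2 ≤ 1 := pow_le_one₀ (norm_nonneg _) h1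
      calc ‖g w‖ ^ 2 * ‖V (w, 0)‖ ≤ 1 * (2160 * Real.exp C * (C / ε0 ^ 2) * 1) := by gcongr
        _ = _ := one_mul _
  · intro w hw hw0 hw'
    have h1 : χ (some 0) w = 0 := by
      by_contra h2
      exact absurd (h.large w hw 0 h2) (not_le.2 hw0)
    have h2 := h.sum w hw
    rw [Fintype.sum_option, Fin.sum_univ_one, h1, add_zero] at h2
    have h3 : ψ w = φ w := by
      rw [hψ, indicator_of_mem (show w ∈ Ω from ⟨hw, hw'⟩)]
    have h4 : χ none w * ψ w + -g w ^ 2 * V (w, 0) - φ w = -g w ^ 2 * V (w, 0) := by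
      rw [h2, h3]
      ring
    rw [h4, norm_mul, norm_neg, norm_pow, mul_comm]
    have h5 := hVb w hw
    have h6 : 0 ≤ ‖g w‖ ^ 2 := by positivity
    nlinarith

end ExtUHAux

/-- Step E on the upper half plane. -/
theorem extUH : S_extUH := by
  intro ε hε hε1
  obtain ⟨ε0, C, hε0, hC, hcut⟩ := Pool.Agent.H720R2.HP.cutN 1 (ε := ε / 2) (by positivity)
    (by linarith)
  refine ⟨min ε0 (ε / 2), 1 + 2160 * Real.exp C * (C / ε0 ^ 2) * 1, ?_, ?_, by positivity, ?_⟩
  · exact lt_min hε0 (by positivity)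
  · exact (min_le_right _ _).trans_lt (by linarith)
  intro g φ η hn hlim hφ hφb
  obtain ⟨S, a, R, χ, h⟩ := hcut (fun _ => g) η (fun _ => hn) (fun _ => hlim)
  have hg : DifferentiableOn ℂ g Pool.Agent.H720R2.HP.UH := by
    intro w hw
    exact (hn.diffAt (le_of_lt hw)).differentiableWithinAt
  have hgb : ∀ w ∈ Pool.Agent.H720R2.HP.UH, ‖g w‖ ≤ 1 := fun w hw => hn.bd w (le_of_lt hw)
  obtain ⟨Φ, hΦ1, hΦ2, hΦ3⟩ := main_ExtUH (ε' := ε) hε (by linarith) hε0 hC h hg hgb φ hφ hφb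
  refine ⟨Φ, hΦ1, hΦ2, fun w hw hlt => hΦ3 w hw (hlt.trans_le (min_le_left _ _)) ?_⟩
  have := hlt.trans_le (min_le_right _ _)
  linarith

end Pool.Agent.H843
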