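import Pool.Agent.H843.Stmts

set_option autoImplicit false

namespace Pool.Agent.H843

open MeasureTheory Filter Topology Metric Set
open scoped ComplexConjugate ENNReal
open Pool.Agent.Helper34.Dg
open Pool.Agent.H720R2.HP (WD db)

/-- the integrable singularity -/
private noncomputable def kk_HallA (s : ℝ) : ℝ := if |s| ≤ 1 then |s| ^ (-(1 / 2) : ℝ) else 0

/-- the comparison function -/
private noncomputable def hh_HallA (s : ℝ) : ℝ := 8 * (1 + s ^ 2)⁻¹ + 3 * kk_HallA s

private lemma kk_integral_HallA : ∫ s, kk_HallA s = 4 := by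
  have h1 : ∫ s, kk_HallA s = 2 * ∫ s in Ioi (0 : ℝ), (Iic (1 : ℝ)).indicator
      (fun s => s ^ (-(1 / 2) : ℝ)) s := by
    rw [← integral_comp_abs]
    refine integral_congr_ae (Filter.Eventually.of_forall fun s => ?_)
    simp only [kk_HallA, indicator, mem_Iic]
  rw [h1, setIntegral_indicator measurableSet_Iic, Ioi_inter_Iic,
    ← intervalIntegral.integral_of_le (by norm_num), integral_rpow (Or.inl (by norm_num))]
  norm_num

private lemma kk_integrable_HallA : Integrable kk_HallA := by
  by_contra hn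
  have := integral_undef hn
  rw [kk_integral_HallA] at this
  norm_num at this

private lemma hh_integrable_HallA : Integrable hh_HallA := by
  unfold hh_HallA
  exact (integrable_inv_one_add_sq.const_mul 8).add (kk_integrable_HallA.const_mul 3)

private lemma hh_integral_HallA : ∫ s, hh_HallA s = 8 * Real.pi + 12 := by
  unfold hh_HallA
  rw [integral_add (integrable_inv_one_add_sq.const_mul 8) (kk_integrable_HallA.const_mul 3),
    integral_const_mul, integral_const_mul, integral_univ_inv_one_add_sq, kk_integral_HallA]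
  norm_num

private lemma kk_nn_HallA (s : ℝ) : 0 ≤ kk_HallA s := by
  unfold kk_HallA
  split_ifs
  · positivity
  · exact le_rfl

private lemma hh_nn_HallA (s : ℝ) : 0 ≤ hh_HallA s := by
  unfold hh_HallA
  have := kk_nn_HallA s
  positivity

/-- the pointwise estimate -/
private lemma point_HallA {u v y r d X x : ℝ} (hv : 0 < v) (hy : 0 < y) (hr : 0 < r) (hd : r ≤ d)
    (hX : |X - u| ≤ d) (hyv : |y - v| ≤ d) (hx : |x - X| < r) (hne : x ≠ u) :
    r / y * (Real.log (1 + 4 * v * y / d ^ 2) / 2) ≤ 2 * r * (v⁻¹ * hh_HallA ((x - u) / v)) := by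
  have hd0 : 0 < d := lt_of_lt_of_le hr hd
  have hxu : |x - u| < 2 * d := by
    have h1 : x - u = (x - X) + (X - u) := by ring
    rw [h1]
    refine lt_of_le_of_lt (abs_add_le _ _) ?_
    linarith
  rcases le_or_gt (v / 2) d with hc | hc
  · -- far case
    have hl : Real.log (1 + 4 * v * y / d ^ 2) ≤ 4 * v * y / d ^ 2 := by
      have := Real.log_le_sub_one_of_pos (show 0 < 1 + 4 * v * y / d ^ 2 by positivity)
      linarith
    have h1 : r / y * (Real.log (1 + 4 * v * y / d ^ 2) / 2) ≤ 2 * r * (v / d ^ 2) := by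
      calc r / y * (Real.log (1 + 4 * v * y / d ^ 2) / 2) ≤ r / y * (4 * v * y / d ^ 2 / 2) := by
            gcongr
        _ = 2 * r * (v / d ^ 2) := by
            field_simp
            ring
    refine h1.trans ?_
    have h2 : v / d ^ 2 ≤ v⁻¹ * hh_HallA ((x - u) / v) := by
      have h3 : (8 : ℝ) * (1 + ((x - u) / v) ^ 2)⁻¹ ≤ hh_HallA ((x - u) / v) := by
        unfold hh_HallA
        have := kk_nn_HallA ((x - u) / v)
        linarith
      have h4 : v / d ^ 2 ≤ v⁻¹ * (8 * (1 + ((x - u) / v) ^ 2)⁻¹) := by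
        have h5 : v⁻¹ * (8 * (1 + ((x - u) / v) ^ 2)⁻¹) = 8 * v / (v ^ 2 + (x - u) ^ 2) := by
          field_simp
        rw [h5, div_le_div_iff₀ (by positivity) (by positivity)]
        have h6 : (x - u) ^ 2 ≤ (2 * d) ^ 2 := by
          rw [← sq_abs]
          exact pow_le_pow_left₀ (abs_nonneg _) hxu.le 2
        have h7 : v ^ 2 ≤ (2 * d) ^ 2 := pow_le_pow_left₀ hv.le (by linarith) 2
        nlinarith
      exact h4.trans (mul_le_mul_of_nonneg_left h3 (by positivity))
    exact mul_le_mul_of_nonneg_left h2 (by positivity)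
  · -- near case
    obtain ⟨hy1, hy2⟩ := abs_le.mp hyv
    have hyl : v / 2 < y := by linarith
    have hyu : y < 3 * v / 2 := by linarith
    set t : ℝ := |x - u| / v with ht
    have hxu0 : 0 < |x - u| := abs_pos.mpr (sub_ne_zero.mpr hne)
    have ht0 : 0 < t := by positivity
    have ht1 : t ≤ 1 := by
      rw [ht, div_le_one hv]
      linarith
    have hkk : kk_HallA ((x - u) / v) = (Real.sqrt t)⁻¹ := by
      unfold kk_HallA
      rw [abs_div, abs_of_pos hv, ← ht, if_pos ht1, Real.rpow_neg ht0.le, Real.sqrt_eq_rpow]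
    have hs0 : 0 < Real.sqrt t := Real.sqrt_pos.mpr ht0
    have harg : 1 + 4 * v * y / d ^ 2 ≤ 28 / t ^ 2 := by
      have h1 : 4 * v * y / d ^ 2 ≤ 6 * v ^ 2 / d ^ 2 := by
        refine div_le_div_of_nonneg_right ?_ (by positivity)
        nlinarith
      have h2 : (1 : ℝ) ≤ v ^ 2 / d ^ 2 := by
        rw [one_le_div (by positivity)]
        nlinarith
      have h3 : 7 * v ^ 2 / d ^ 2 ≤ 28 / t ^ 2 := by
        rw [div_le_div_iff₀ (by positivity) (by positivity)]
        have h4 : t * v ≤ 2 * d := by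
          rw [ht, div_mul_cancel₀ _ hv.ne']
          exact hxu.le
        have h5 : (t * v) ^ 2 ≤ (2 * d) ^ 2 := pow_le_pow_left₀ (by positivity) h4 2
        nlinarith
      calc 1 + 4 * v * y / d ^ 2 ≤ v ^ 2 / d ^ 2 + 6 * v ^ 2 / d ^ 2 := add_le_add h2 h1
        _ = 7 * v ^ 2 / d ^ 2 := by ring
        _ ≤ _ := h3
    have hlog : Real.log (1 + 4 * v * y / d ^ 2) / 2 ≤ 2 * (Real.sqrt t)⁻¹ := by
      have h1 : Real.log (1 + 4 * v * y / d ^ 2) ≤ Real.log (28 / t ^ 2) :=
        Real.log_le_log (by positivity) harg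
      have h2 : Real.log (28 / t ^ 2) = Real.log 28 + 4 * Real.log ((Real.sqrt t)⁻¹) := by
        rw [Real.log_div (by norm_num) (by positivity), Real.log_inv, Real.log_sqrt ht0.le,
          Real.log_pow]
        push_cast
        ring
      have h3 : Real.log ((Real.sqrt t)⁻¹) ≤ (Real.sqrt t)⁻¹ - 1 :=
        Real.log_le_sub_one_of_pos (by positivity)
      have h4 : Real.log 28 ≤ 4 := by
        rw [Real.log_le_iff_le_exp (by norm_num)]
        have h5 : Real.exp 4 = (Real.exp 1) ^ 4 := by
          rw [← Real.exp_nat_mul]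
          norm_num
        rw [h5]
        have h6 : (2.7 : ℝ) ≤ Real.exp 1 := by
          have := Real.exp_one_gt_d9
          linarith
        calc (28 : ℝ) ≤ 2.7 ^ 4 := by norm_num
          _ ≤ _ := pow_le_pow_left₀ (by norm_num) h6 4
      linarith
    have h8 : v⁻¹ * (3 * (Real.sqrt t)⁻¹) ≤ v⁻¹ * hh_HallA ((x - u) / v) := by
      refine mul_le_mul_of_nonneg_left ?_ (by positivity)
      unfold hh_HallA
      rw [hkk]
      have : (0 : ℝ) ≤ 8 * (1 + ((x - u) / v) ^ 2)⁻¹ := by positivity
      linarith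
    have h9 : r / y ≤ 2 * r * v⁻¹ := by
      rw [div_le_iff₀ hy]
      have : r = 2 * r * v⁻¹ * (v / 2) := by
        field_simp
      calc r = 2 * r * v⁻¹ * (v / 2) := this
        _ ≤ 2 * r * v⁻¹ * y := by gcongr
    calc r / y * (Real.log (1 + 4 * v * y / d ^ 2) / 2)
        ≤ (2 * r * v⁻¹) * (2 * (Real.sqrt t)⁻¹) := by
          have hlog0 : 0 ≤ Real.log (1 + 4 * v * y / d ^ 2) / 2 := by
            have : 0 ≤ Real.log (1 + 4 * v * y / d ^ 2) := Real.log_nonneg (by
              have : 0 ≤ 4 * v * y / d ^ 2 := by positivity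
              linarith)
            linarith
          exact mul_le_mul h9 hlog hlog0 (by positivity)
      _ ≤ 2 * r * (v⁻¹ * (3 * (Real.sqrt t)⁻¹)) := by
          have : 0 ≤ r * v⁻¹ * (Real.sqrt t)⁻¹ := by positivity
          nlinarith
      _ ≤ _ := mul_le_mul_of_nonneg_left h8 (by positivity)

theorem H0 : S_H0 := by
  intro n z r hr0 hr hdisj w hw hd
  have hv : 0 < w.im := hw
  set H : ℝ → ℝ := fun x => w.im⁻¹ * hh_HallA ((x - w.re) / w.im) with hH
  have hHint : Integrable H := by
    have h1 := (hh_integrable_HallA.comp_div hv.ne').comp_sub_right w.re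
    exact h1.const_mul _
  have hHval : ∫ x, H x = 8 * Real.pi + 12 := by
    simp only [hH]
    rw [integral_const_mul, integral_sub_right_eq_self (fun x => hh_HallA (x / w.im)) w.re,
      Measure.integral_comp_div, hh_integral_HallA, smul_eq_mul, abs_of_pos hv, ← mul_assoc,
      inv_mul_cancel₀ hv.ne', one_mul]
  have hHnn : ∀ x, 0 ≤ H x := fun x => mul_nonneg (by positivity) (hh_nn_HallA _)
  have hterm : ∀ j, r j / (z j).im *
      (Real.log (1 + 4 * w.im * (z j).im / ‖w - z j‖ ^ 2) / 2) ≤
      ∫ x in Ioo ((z j).re - r j) ((z j).re + r j), H x := by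
    intro j
    have hyj : 0 < (z j).im := by linarith [hr0 j, hr j]
    set A : ℝ := r j / (z j).im * (Real.log (1 + 4 * w.im * (z j).im / ‖w - z j‖ ^ 2) / 2) with hA
    have h1 : ∫ x in Ioo ((z j).re - r j) ((z j).re + r j), (A / (2 * r j)) = A := by
      rw [setIntegral_const]
      simp only [smul_eq_mul, Real.volume_real_Ioo]
      rw [max_eq_left (by linarith [hr0 j])]
      have := hr0 j
      field_simp
      ring
    rw [← h1]
    refine setIntegral_mono_on_ae ?_ hHint.integrableOn measurableSet_Ioo ?_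
    · simp
    · have hae : ∀ᵐ x : ℝ, x ≠ w.re := by
        simp [ae_iff, measure_singleton]
      filter_upwards [hae] with x hx hxm
      rw [div_le_iff₀ (by linarith [hr0 j]), hA]
      have := point_HallA (u := w.re) (v := w.im) (y := (z j).im) (r := r j) (d := ‖w - z j‖)
        (X := (z j).re) (x := x) hv hyj (hr0 j) (hd j) ?_ ?_ ?_ hx
      · rw [mul_comm (H x)]
        exact this
      · have := Complex.abs_re_le_norm (w - z j)
        rwa [Complex.sub_re, abs_sub_comm] at this
      · have := Complex.abs_im_le_norm (w - z j)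
        rwa [Complex.sub_im, abs_sub_comm] at this
      · rw [abs_lt]
        exact ⟨by linarith [hxm.1], by linarith [hxm.2]⟩
  calc ∑ j, r j / (z j).im * (Real.log (1 + 4 * w.im * (z j).im / ‖w - z j‖ ^ 2) / 2)
      ≤ ∑ j, ∫ x in Ioo ((z j).re - r j) ((z j).re + r j), H x :=
        Finset.sum_le_sum fun j _ => hterm j
    _ = ∫ x in ⋃ j, Ioo ((z j).re - r j) ((z j).re + r j), H x := by
        rw [integral_iUnion_fintype (fun j => measurableSet_Ioo)
          (fun i j hij => hdisj i j hij) (fun j => hHint.integrableOn)]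
    _ ≤ ∫ x, H x := setIntegral_le_integral hHint (Filter.Eventually.of_forall hHnn)
    _ = 8 * Real.pi + 12 := hHval
    _ ≤ 40 := by
        have := Real.pi_lt_d2
        linarith

end Pool.Agent.H843
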