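import Pool.Agent.H843.Stmts
import Pool.Agent.H720R2.HP.Stop

set_option autoImplicit false

namespace Pool.Agent.H843

open MeasureTheory Filter Topology Metric Set
open scoped ComplexConjugate ENNReal
open Pool.Agent.Helper34.Dg
open Pool.Agent.H720R2.HP (WD db)
open Pool.Agent.H720R2.HP (bf sub_cj_sq sub_cj_pos bf_le_one bf_real bf_cont bf_diff bf_tendsto)

theorem bf_ne_HallB {a w : ℂ} (ha : 0 < a.im) (hw : 0 ≤ w.im) (h : w ≠ a) : bf a w ≠ 0 := by
  unfold bf
  exact div_ne_zero (sub_ne_zero.2 h) (norm_pos_iff.1 (sub_cj_pos ha hw))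

theorem log_bf_HallB {a w : ℂ} (ha : 0 < a.im) (hw : 0 < w.im) (h : w ≠ a) :
    Real.log ‖bf a w‖ = -(Real.log (1 + 4 * w.im * a.im / ‖w - a‖ ^ 2) / 2) := by
  have h1 : 0 < ‖w - a‖ := norm_pos_iff.2 (sub_ne_zero.2 h)
  have h2 := sub_cj_pos ha hw.le
  have h3 : ‖bf a w‖ ^ 2 = (1 + 4 * w.im * a.im / ‖w - a‖ ^ 2)⁻¹ := by
    unfold bf
    rw [norm_div, div_pow, sub_cj_sq]
    have h4 : 0 < ‖w - a‖ ^ 2 + 4 * w.im * a.im := by positivity
    field_simp
  have h5 : 2 * Real.log ‖bf a w‖ = -Real.log (1 + 4 * w.im * a.im / ‖w - a‖ ^ 2) := by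
    rw [← Real.log_inv, ← h3, Real.log_pow]
    norm_num
  linarith

/-- the Blaschke product -/
noncomputable def Bp_HallB {n : ℕ} (z : Fin n → ℂ) (m : Fin n → ℕ) (w : ℂ) : ℂ :=
  ∏ j, bf (z j) w ^ m j

section
variable {n : ℕ} {z : Fin n → ℂ} {m : Fin n → ℕ}

theorem Bp_norm_HallB (w : ℂ) : ‖Bp_HallB z m w‖ = ∏ j, ‖bf (z j) w‖ ^ m j := by
  unfold Bp_HallB
  rw [norm_prod]
  simp only [norm_pow]

theorem Bp_cont_HallB (hz : ∀ j, 0 < (z j).im) : ContinuousOn (Bp_HallB z m) {w | 0 ≤ w.im} := by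
  unfold Bp_HallB
  exact continuousOn_finsetProd _ fun j _ => (bf_cont (hz j)).pow _

theorem Bp_diff_HallB (hz : ∀ j, 0 < (z j).im) : DifferentiableOn ℂ (Bp_HallB z m) {w | 0 ≤ w.im} := by
  unfold Bp_HallB
  exact DifferentiableOn.fun_finsetProd fun j _ => (bf_diff (hz j)).pow _

theorem Bp_tendsto_HallB : Tendsto (fun w => ‖Bp_HallB z m w‖) (Bornology.cobounded ℂ) (𝓝 1) := by
  have h1 : Tendsto (Bp_HallB z m) (Bornology.cobounded ℂ) (𝓝 (∏ j : Fin n, (1 : ℂ) ^ m j)) := by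
    unfold Bp_HallB
    exact tendsto_finsetProd _ fun j _ => (bf_tendsto (z j)).pow _
  have h2 : (∏ j : Fin n, (1 : ℂ) ^ m j) = 1 := by simp
  rw [h2] at h1
  have h3 := h1.norm
  rwa [norm_one] at h3

theorem Bp_real_HallB (hz : ∀ j, 0 < (z j).im) {w : ℂ} (hw : w.im = 0) : ‖Bp_HallB z m w‖ = 1 := by
  rw [Bp_norm_HallB]
  apply Finset.prod_eq_one
  intro j _
  rw [bf_real (hz j) hw, one_pow]

theorem Bp_ne_HallB (hz : ∀ j, 0 < (z j).im) {w : ℂ} (hw : 0 ≤ w.im) (h : ∀ j, w ≠ z j) :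
    Bp_HallB z m w ≠ 0 := by
  unfold Bp_HallB
  rw [Finset.prod_ne_zero_iff]
  intro j _
  exact pow_ne_zero _ (bf_ne_HallB (hz j) hw (h j))

theorem Bp_log_HallB (hz : ∀ j, 0 < (z j).im) {w : ℂ} (hw : 0 < w.im) (h : ∀ j, w ≠ z j) :
    Real.log ‖Bp_HallB z m w‖ =
      -∑ j, (m j : ℝ) * (Real.log (1 + 4 * w.im * (z j).im / ‖w - z j‖ ^ 2) / 2) := by
  rw [Bp_norm_HallB, Real.log_prod]
  · rw [← Finset.sum_neg_distrib]
    apply Finset.sum_congr rfl
    intro j _
    rw [Real.log_pow, log_bf_HallB (hz j) hw (h j)]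
    ring
  · intro j _
    exact pow_ne_zero _ (norm_ne_zero_iff.2 (bf_ne_HallB (hz j) hw.le (h j)))

/-- the maximum principle -/
theorem max_HallB {G : ℂ → ℂ} (hG : DifferentiableOn ℂ G UH) (hG1 : ∀ w ∈ UH, ‖G w‖ ≤ 1)
    {r : Fin n → ℝ} (hr : ∀ j, 0 < r j) (hz : ∀ j, 0 < (z j).im) (M : ℕ)
    (hc : ∀ w ∈ UH, (∀ j, r j ≤ ‖w - z j‖) → (∃ j, ‖w - z j‖ = r j) →
      ‖G w‖ ^ M ≤ ‖Bp_HallB z m w‖) {w : ℂ} (hw : w ∈ UH) (hwr : ∀ j, r j < ‖w - z j‖) :
    ‖G w‖ ^ M ≤ ‖Bp_HallB z m w‖ := by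
  have key : ∀ η : ℝ, 0 < η → η < 1 → ‖G w‖ ^ M * (1 - η) ≤ ‖Bp_HallB z m w‖ := by
    intro η hη hη1
    have h1η : 0 < 1 - η := by linarith
    have hGM : ∀ v ∈ UH, ‖G v‖ ^ M ≤ 1 := fun v hv => pow_le_one₀ (norm_nonneg _) (hG1 v hv)
    by_cases hsm : 1 - η ≤ ‖Bp_HallB z m w‖
    · calc ‖G w‖ ^ M * (1 - η) ≤ 1 * (1 - η) := mul_le_mul_of_nonneg_right (hGM w hw) h1η.le
        _ ≤ _ := by rw [one_mul]; exact hsm
    · push Not at hsm
      set U : Set ℂ := {v | v ∈ UH ∧ ‖Bp_HallB z m v‖ < 1 - η ∧ ∀ j, r j < ‖v - z j‖} with hU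
      have hUHo : IsOpen UH := isOpen_lt continuous_const Complex.continuous_im
      have hUHs : UH ⊆ {w : ℂ | 0 ≤ w.im} := fun v hv => le_of_lt (show 0 < v.im from hv)
      have hUo : IsOpen U := by
        have e : U = (UH ∩ (fun v => ‖Bp_HallB z m v‖) ⁻¹' (Iio (1 - η))) ∩
            ⋂ j, {v | r j < ‖v - z j‖} := by
          ext v
          simp only [hU, mem_ofPred_eq, mem_inter_iff, mem_preimage, mem_Iio, mem_iInter]
          tauto
        rw [e]
        apply IsOpen.inter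
        · exact (((Bp_cont_HallB hz).mono hUHs).norm).isOpen_inter_preimage hUHo isOpen_Iio
        · exact isOpen_iInter_of_finite fun j => isOpen_lt continuous_const (by fun_prop)
      have hUb : Bornology.IsBounded U := by
        have h2 := (Bp_tendsto_HallB (z := z) (m := m)).eventually (lt_mem_nhds (by linarith : 1 - η < 1))
        have h4 : Bornology.IsBounded ({v : ℂ | 1 - η < ‖Bp_HallB z m v‖}ᶜ) := by
          rw [Bornology.isBounded_def, compl_compl]
          exact h2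
        refine h4.subset ?_
        intro v hv hcon
        have h5 : 1 - η < ‖Bp_HallB z m v‖ := hcon
        linarith [hv.2.1]
      have hcl : ∀ v ∈ closure U, v ∈ UH ∧ ‖Bp_HallB z m v‖ ≤ 1 - η ∧ ∀ j, r j ≤ ‖v - z j‖ := by
        intro v hv
        have him : 0 ≤ v.im := by
          have hc1 : IsClosed {w : ℂ | 0 ≤ w.im} := isClosed_le continuous_const Complex.continuous_im
          exact closure_minimal (fun x hx => hUHs hx.1) hc1 hv
        have hle : ‖Bp_HallB z m v‖ ≤ 1 - η := by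
          have hcw : ContinuousWithinAt (fun v => ‖Bp_HallB z m v‖) U v :=
            (((Bp_cont_HallB hz).norm) v him).mono (fun x hx => hUHs hx.1)
          have hne : (𝓝[U] v).NeBot := mem_closure_iff_nhdsWithin_neBot.1 hv
          refine le_of_tendsto (show Tendsto (fun v => ‖Bp_HallB z m v‖) (𝓝[U] v)
            (𝓝 ‖Bp_HallB z m v‖) from hcw) ?_
          filter_upwards [self_mem_nhdsWithin] with x hx
          exact hx.2.1.le
        have hpos : 0 < v.im := by
          rcases him.lt_or_eq with h | h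
          · exact h
          · have := Bp_real_HallB (m := m) hz h.symm
            linarith
        refine ⟨hpos, hle, fun j => ?_⟩
        have hc2 : IsClosed {v : ℂ | r j ≤ ‖v - z j‖} := isClosed_le continuous_const (by fun_prop)
        exact closure_minimal (fun x hx => (hx.2.2 j).le) hc2 hv
      have hBne : ∀ v ∈ closure U, Bp_HallB z m v ≠ 0 := by
        intro v hv
        obtain ⟨h1, -, h3⟩ := hcl v hv
        refine Bp_ne_HallB hz (hUHs h1) fun j h => ?_
        have := h3 j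
        rw [h, sub_self, norm_zero] at this
        linarith [hr j]
      have hq : DiffContOnCl ℂ (fun v => G v ^ M / Bp_HallB z m v) U := by
        apply DifferentiableOn.diffContOnCl
        exact ((hG.mono fun v hv => (hcl v hv).1).pow M).div
          ((Bp_diff_HallB hz).mono fun v hv => hUHs (hcl v hv).1) hBne
      have hfr : ∀ v ∈ frontier U, ‖G v ^ M / Bp_HallB z m v‖ ≤ 1 / (1 - η) := by
        intro v hv
        have hvc : v ∈ closure U := hv.1
        have hvU : v ∉ U := by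
          have := hv.2
          rwa [hUo.interior_eq] at this
        obtain ⟨h1, h2, h3⟩ := hcl v hvc
        have hBp : 0 < ‖Bp_HallB z m v‖ := norm_pos_iff.2 (hBne v hvc)
        rw [norm_div, norm_pow]
        by_cases hB : ‖Bp_HallB z m v‖ < 1 - η
        · have hj : ∃ j, ‖v - z j‖ = r j := by
            by_contra hcon
            push Not at hcon
            exact hvU ⟨h1, hB, fun j => lt_of_le_of_ne (h3 j) (hcon j).symm⟩
          have h4 := hc v h1 h3 hj
          calc ‖G v‖ ^ M / ‖Bp_HallB z m v‖ ≤ 1 := by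
                rw [div_le_one hBp]; exact h4
            _ ≤ 1 / (1 - η) := by
                rw [le_div_iff₀ h1η]; linarith
        · push Not at hB
          exact div_le_div₀ zero_le_one (hGM v h1) h1η hB
      have hwU : w ∈ U := ⟨hw, hsm, hwr⟩
      have h5 := Complex.norm_le_of_forall_mem_frontier_norm_le hUb hq hfr (subset_closure hwU)
      have hBp : 0 < ‖Bp_HallB z m w‖ := norm_pos_iff.2 (hBne w (subset_closure hwU))
      rw [norm_div, norm_pow, div_le_div_iff₀ hBp h1η, one_mul] at h5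
      exact h5
  have hlim : Tendsto (fun η : ℝ => ‖G w‖ ^ M * (1 - η)) (𝓝[>] 0) (𝓝 (‖G w‖ ^ M * (1 - 0))) := by
    apply Tendsto.mono_left _ nhdsWithin_le_nhds
    exact (tendsto_const_nhds.sub tendsto_id).const_mul _
  rw [sub_zero, mul_one] at hlim
  refine le_of_tendsto hlim ?_
  filter_upwards [Ioo_mem_nhdsGT (zero_lt_one (α := ℝ))] with η hη
  exact key η hη.1 hη.2

end

theorem H1 (h : S_H0) : S_H1 := by
  intro G hG hG1 ε hε hε1 n z r hr hrz hdisj hGr ζ hζ hζε
  have hz : ∀ j, 0 < (z j).im := fun j => by linarith [hr j, hrz j]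
  have hL : 0 < Real.log (1 / ε) := Real.log_pos (by rw [lt_div_iff₀ hε]; linarith)
  have hlε : Real.log ε = -Real.log (1 / ε) := by rw [one_div, Real.log_inv, neg_neg]
  set lam : ℝ := Real.log (1 / ε) / 40 with hlam
  have hlam0 : 0 < lam := by positivity
  set g : Fin n → ℂ → ℝ := fun j w =>
    Real.log (1 + 4 * w.im * (z j).im / ‖w - z j‖ ^ 2) / 2 with hg
  have hg0 : ∀ j, ∀ w ∈ UH, 0 ≤ g j w := by
    intro j w hw
    have h1 : 0 < w.im := hw
    have h2 := hz j
    have : 0 ≤ Real.log (1 + 4 * w.im * (z j).im / ‖w - z j‖ ^ 2) := by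
      apply Real.log_nonneg
      have : 0 ≤ 4 * w.im * (z j).im / ‖w - z j‖ ^ 2 := by positivity
      linarith
    simp only [hg]
    linarith
  have hζr : ∀ j, r j < ‖ζ - z j‖ := by
    intro j
    by_contra hcon
    push Not at hcon
    have := hGr j ζ (by rw [mem_closedBall, dist_eq_norm]; exact hcon)
    linarith
  have hζne : ∀ j, ζ ≠ z j := by
    intro j h
    have := hζr j
    rw [h, sub_self, norm_zero] at this
    linarith [hr j]
  have hGζ : 0 < ‖G ζ‖ := hε.trans hζε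
  -- the estimate for each `M`
  have key : ∀ M : ℕ, (M : ℝ) * lam * (∑ j, r j / (z j).im * g j ζ) ≤
      M * Real.log (1 / ‖G ζ‖) + ∑ j, g j ζ := by
    intro M
    set m : Fin n → ℕ := fun j => ⌊(M : ℝ) * lam * (r j / (z j).im)⌋₊ with hm
    have hm1 : ∀ j, (m j : ℝ) ≤ M * lam * (r j / (z j).im) := fun j =>
      Nat.floor_le (by have := hz j; have := hr j; positivity)
    have hm2 : ∀ j, M * lam * (r j / (z j).im) - 1 ≤ (m j : ℝ) := fun j => by
      have := Nat.lt_floor_add_one ((M : ℝ) * lam * (r j / (z j).im))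
      simp only [hm]
      linarith
    have hc : ∀ w ∈ UH, (∀ j, r j ≤ ‖w - z j‖) → (∃ j, ‖w - z j‖ = r j) →
        ‖G w‖ ^ M ≤ ‖Bp_HallB z m w‖ := by
      intro w hw hwr ⟨i, hi⟩
      have hne : ∀ j, w ≠ z j := by
        intro j hh
        have := hwr j
        rw [hh, sub_self, norm_zero] at this
        linarith [hr j]
      have h1 : ‖G w‖ ≤ ε := hGr i w (by rw [mem_closedBall, dist_eq_norm]; exact hi.le)
      have hBpos : 0 < ‖Bp_HallB z m w‖ := norm_pos_iff.2 (Bp_ne_HallB hz (le_of_lt hw) hne)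
      have h2 : ∑ j, (m j : ℝ) * g j w ≤ M * Real.log (1 / ε) := by
        calc ∑ j, (m j : ℝ) * g j w ≤ ∑ j, M * lam * (r j / (z j).im) * g j w :=
              Finset.sum_le_sum fun j _ => mul_le_mul_of_nonneg_right (hm1 j) (hg0 j w hw)
          _ = M * lam * ∑ j, r j / (z j).im * g j w := by
              rw [Finset.mul_sum]
              exact Finset.sum_congr rfl fun j _ => by ring
          _ ≤ M * lam * 40 := by
              apply mul_le_mul_of_nonneg_left _ (by positivity)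
              exact h n z r hr hrz hdisj w hw hwr
          _ = M * Real.log (1 / ε) := by rw [hlam]; ring
      have h3 : Real.log (ε ^ M) ≤ Real.log ‖Bp_HallB z m w‖ := by
        rw [Bp_log_HallB hz hw hne, Real.log_pow, hlε]
        have : ∑ j, (m j : ℝ) * (Real.log (1 + 4 * w.im * (z j).im / ‖w - z j‖ ^ 2) / 2) =
          ∑ j, (m j : ℝ) * g j w := rfl
        rw [this]
        linarith
      calc ‖G w‖ ^ M ≤ ε ^ M := pow_le_pow_left₀ (norm_nonneg _) h1 M
        _ ≤ ‖Bp_HallB z m w‖ := (Real.log_le_log_iff (by positivity) hBpos).1 h3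
    have h4 := max_HallB hG hG1 hr hz M hc hζ hζr
    have hBpos : 0 < ‖Bp_HallB z m ζ‖ := norm_pos_iff.2 (Bp_ne_HallB hz (le_of_lt hζ) hζne)
    have h5 := Real.log_le_log (by positivity) h4
    rw [Bp_log_HallB hz hζ hζne, Real.log_pow] at h5
    have h6 : Real.log (1 / ‖G ζ‖) = -Real.log ‖G ζ‖ := by rw [one_div, Real.log_inv]
    have h7 : ∑ j, (M * lam * (r j / (z j).im) - 1) * g j ζ ≤ ∑ j, (m j : ℝ) * g j ζ :=
      Finset.sum_le_sum fun j _ => mul_le_mul_of_nonneg_right (hm2 j) (hg0 j ζ hζ)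
    have h8 : ∑ j, (M * lam * (r j / (z j).im) - 1) * g j ζ =
        M * lam * (∑ j, r j / (z j).im * g j ζ) - ∑ j, g j ζ := by
      rw [Finset.mul_sum, ← Finset.sum_sub_distrib]
      exact Finset.sum_congr rfl fun j _ => by ring
    have h9 : ∑ j, (m j : ℝ) * (Real.log (1 + 4 * ζ.im * (z j).im / ‖ζ - z j‖ ^ 2) / 2) =
          ∑ j, (m j : ℝ) * g j ζ := rfl
    rw [h9] at h5
    rw [h6]
    linarith
  have hS : lam * (∑ j, r j / (z j).im * g j ζ) ≤ Real.log (1 / ‖G ζ‖) := by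
    by_contra hcon
    push Not at hcon
    obtain ⟨M, hM⟩ := exists_nat_gt ((∑ j, g j ζ) /
      (lam * (∑ j, r j / (z j).im * g j ζ) - Real.log (1 / ‖G ζ‖)))
    have h1 := key M
    have h2 : 0 < lam * (∑ j, r j / (z j).im * g j ζ) - Real.log (1 / ‖G ζ‖) := by linarith
    rw [div_lt_iff₀ h2] at hM
    nlinarith
  show ∑ j, r j / (z j).im * g j ζ ≤ 40 * Real.log (1 / ‖G ζ‖) / Real.log (1 / ε)
  rw [le_div_iff₀ hL]
  have h3 : lam * (∑ j, r j / (z j).im * g j ζ) * 40 =
      (∑ j, r j / (z j).im * g j ζ) * Real.log (1 / ε) := by rw [hlam]; ring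
  linarith

end Pool.Agent.H843
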