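import Pool.Agent.H843.Stmts

/-!
Step H: bad vertical lines.
-/

set_option autoImplicit false

namespace Pool.Agent.H843

open MeasureTheory Filter Topology Metric Set
open scoped ComplexConjugate ENNReal
open Pool.Agent.Helper34.Dg
open Pool.Agent.H720R2.HP (WD db)

private theorem term_HallC {y t r κ a : ℝ} (hy : 0 < y) (ht : 0 < t) (hty : t ≤ y) (hr : 0 < r)
    (hκ0 : 0 < κ) (hκ1 : κ ≤ 1 / 2) (ha : |a| ≤ κ * y) {ζ z : ℂ} (hζ : ζ.im = y) (hz : z.im = t)
    (hre : (ζ - z).re = -a) (hne : ζ ≠ z) :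
    r * (2 / (5 * y)) ≤
      r / z.im * (Real.log (1 + 4 * ζ.im * z.im / ‖ζ - z‖ ^ 2) / 2) := by
  rw [hζ, hz]
  have hd : 0 < ‖ζ - z‖ := norm_pos_iff.mpr (sub_ne_zero.mpr hne)
  have hd2 : ‖ζ - z‖ ^ 2 = a ^ 2 + (y - t) ^ 2 := by
    rw [← Complex.normSq_eq_norm_sq, Complex.normSq_apply, hre]
    rw [Complex.sub_im, hζ, hz]
    ring
  set d := ‖ζ - z‖ ^ 2 with hdd
  have hdpos : 0 < d := by positivity
  set s := 4 * y * t / d with hs
  have hs0 : 0 < s := by positivity
  have hlog : s / (1 + s) ≤ Real.log (1 + s) := by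
    have := Real.one_sub_inv_le_log_of_pos (show 0 < 1 + s by positivity)
    have e : 1 - (1 + s)⁻¹ = s / (1 + s) := by field_simp; ring
    rw [e] at this
    exact this
  have hs1 : s / (1 + s) = 4 * y * t / (d + 4 * y * t) := by
    rw [hs]; field_simp
  have ha2 : a ^ 2 ≤ (κ * y) ^ 2 := by
    rw [← sq_abs a]
    exact pow_le_pow_left₀ (abs_nonneg _) ha 2
  have hD : d + 4 * y * t ≤ 5 * y ^ 2 := by
    rw [hd2]
    have h1 : (κ * y) ^ 2 ≤ y ^ 2 := by
      apply pow_le_pow_left₀ (by positivity)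
      nlinarith
    nlinarith [mul_nonneg ht.le hy.le, mul_nonneg (sub_nonneg.mpr hty) hy.le,
      mul_nonneg (sub_nonneg.mpr hty) ht.le]
  have hDpos : 0 < d + 4 * y * t := by positivity
  have h2 : 4 * y * t / (5 * y ^ 2) ≤ Real.log (1 + s) := by
    refine le_trans ?_ hlog
    rw [hs1]
    exact div_le_div_of_nonneg_left (by positivity) hDpos hD
  calc r * (2 / (5 * y)) = r / t * (4 * y * t / (5 * y ^ 2) / 2) := by field_simp; norm_num
    _ ≤ r / t * (Real.log (1 + s) / 2) := by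
      apply mul_le_mul_of_nonneg_left _ (by positivity)
      linarith

theorem hall (h : S_H1) : S_hall := by
  classical
  intro δ κ hδ0 hδ1 hκ0 hκ1
  set ℓ := Real.log (1 / δ) with hℓ
  have hℓ0 : 0 < ℓ := Real.log_pos (by rw [lt_div_iff₀ hδ0]; linarith)
  set ε := Real.exp (-(1000 * ℓ / κ)) with hε
  have hεlog : Real.log (1 / ε) = 1000 * ℓ / κ := by
    rw [one_div, Real.log_inv, hε, Real.log_exp, neg_neg]
  have hε0 : 0 < ε := Real.exp_pos _
  have hbig : ℓ < 1000 * ℓ / κ := by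
    rw [lt_div_iff₀ hκ0]; nlinarith
  have hεδ : ε < δ := by
    have : δ = Real.exp (-ℓ) := by
      rw [hℓ, one_div, Real.log_inv, neg_neg, Real.exp_log hδ0]
    rw [this]
    exact Real.exp_lt_exp.mpr (by linarith)
  refine ⟨ε, hε0, hεδ, ?_⟩
  intro G hG hG1 x y hy hδG
  have hUHo : IsOpen UH := isOpen_lt continuous_const Complex.continuous_im
  have him : ∀ u t : ℝ, ((u : ℂ) + t * Complex.I).im = t := fun u t => by simp
  have hre : ∀ u t : ℝ, ((u : ℂ) + t * Complex.I).re = u := fun u t => by simp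
  have hUH : ∀ u t : ℝ, 0 < t → ((u : ℂ) + t * Complex.I) ∈ UH := fun u t ht => by
    show 0 < ((u : ℂ) + t * Complex.I).im
    rw [him]; exact ht
  set S : Set ℝ := {u : ℝ | |u - x| ≤ κ * y ∧
    ∃ t : ℝ, 0 < t ∧ t ≤ y ∧ ‖G (u + t * Complex.I)‖ < ε} with hS
  have hSm : MeasurableSet S := by
    have e : S = {u : ℝ | |u - x| ≤ κ * y} ∩
        ⋃ t : Ioc (0 : ℝ) y, {u : ℝ | ‖G (u + (t : ℝ) * Complex.I)‖ < ε} := by
      ext u
      constructor
      · rintro ⟨h1, t, h2, h3, h4⟩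
        exact ⟨h1, mem_iUnion.mpr ⟨⟨t, h2, h3⟩, h4⟩⟩
      · rintro ⟨h1, h2⟩
        obtain ⟨⟨t, ht1, ht2⟩, h3⟩ := mem_iUnion.mp h2
        exact ⟨h1, t, ht1, ht2, h3⟩
    rw [e]
    apply MeasurableSet.inter
    · exact (isClosed_le (by fun_prop) continuous_const).measurableSet
    · apply IsOpen.measurableSet
      apply isOpen_iUnion
      rintro ⟨t, ht1, ht2⟩
      have hc : Continuous fun u : ℝ => G (u + (t : ℝ) * Complex.I) :=
        hG.continuousOn.comp_continuous (by fun_prop) (fun u => hUH u t ht1)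
      exact isOpen_lt hc.norm continuous_const
  rw [hSm.measure_eq_iSup_isCompact]
  refine iSup_le fun Kc => iSup_le fun hKS => iSup_le fun hKc => ?_
  -- choice of heights and radii
  have hch : ∀ u : ℝ, ∃ t r : ℝ, u ∈ S → (0 < t ∧ t ≤ y ∧ 0 < r ∧ r ≤ t / 4 ∧
      ∀ w ∈ closedBall ((u : ℂ) + t * Complex.I) r, ‖G w‖ ≤ ε) := by
    intro u
    by_cases hu : u ∈ S
    · obtain ⟨-, t, ht0, hty, hGt⟩ := hu
      have hcont : ContinuousAt G ((u : ℂ) + t * Complex.I) :=
        (hG.differentiableAt (hUHo.mem_nhds (hUH u t ht0))).continuousAt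
      have hnh : {w | ‖G w‖ < ε} ∈ 𝓝 ((u : ℂ) + t * Complex.I) :=
        hcont.norm.eventually_lt_const hGt
      obtain ⟨r₀, hr₀, hball⟩ := Metric.nhds_basis_closedBall.mem_iff.mp hnh
      refine ⟨t, min r₀ (t / 4), fun _ => ⟨ht0, hty, lt_min hr₀ (by positivity),
        min_le_right _ _, ?_⟩⟩
      intro w hw
      have : w ∈ closedBall ((u : ℂ) + t * Complex.I) r₀ :=
        closedBall_subset_closedBall (min_le_left _ _) hw
      exact (hball this).le
    · exact ⟨0, 0, fun h => absurd h hu⟩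
  choose tt rr htr using hch
  obtain ⟨s, hsK, hsc⟩ := hKc.elim_nhds_subcover (fun u => if u ∈ S then ball u (rr u) else univ)
    (by
      intro u hu
      rw [if_pos (hKS hu)]
      exact ball_mem_nhds _ (htr u (hKS hu)).2.2.1)
  obtain ⟨v, hvs, hvd, hvc⟩ := Vitali.exists_disjoint_subfamily_covering_enlargement_closedBall
    (s : Set ℝ) (fun u => u) rr y (by
      intro u hu
      have := htr u (hKS (hsK u hu))
      linarith [this.2.1, this.2.2.2.1]) 5 (by norm_num)
  have hvf : v.Finite := s.finite_toSet.subset hvs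
  set V : Finset ℝ := hvf.toFinset with hV
  have hVS : ∀ u ∈ V, u ∈ S := fun u hu => hKS (hsK u (hvs (hvf.mem_toFinset.mp hu)))
  have hcover : Kc ⊆ ⋃ u ∈ V, closedBall u (5 * rr u) := by
    intro u hu
    obtain ⟨a, ha, hua⟩ := mem_iUnion₂.mp (hsc hu)
    rw [if_pos (hKS (hsK a ha))] at hua
    obtain ⟨b, hb, hab⟩ := hvc a ha
    refine mem_iUnion₂.mpr ⟨b, hvf.mem_toFinset.mpr hb, hab (ball_subset_closedBall hua)⟩
  have hvolK : volume Kc ≤ ENNReal.ofReal (∑ u ∈ V, 10 * rr u) := by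
    calc volume Kc ≤ volume (⋃ u ∈ V, closedBall u (5 * rr u)) := measure_mono hcover
      _ ≤ ∑ u ∈ V, volume (closedBall u (5 * rr u)) := measure_biUnion_finset_le _ _
      _ = ∑ u ∈ V, ENNReal.ofReal (10 * rr u) := by
        apply Finset.sum_congr rfl
        intro u _
        rw [Real.volume_closedBall]
        congr 1; ring
      _ = ENNReal.ofReal (∑ u ∈ V, 10 * rr u) := by
        rw [ENNReal.ofReal_sum_of_nonneg]
        intro u hu
        have := (htr u (hVS u hu)).2.2.1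
        positivity
  refine hvolK.trans (ENNReal.ofReal_le_ofReal ?_)
  -- enumerate
  set n := V.card with hn
  set e : Fin n ≃ V := V.equivFin.symm with he
  set z : Fin n → ℂ := fun j => ((e j : ℝ) : ℂ) + (tt (e j) : ℝ) * Complex.I with hz
  set r : Fin n → ℝ := fun j => rr (e j) with hrdef
  have hej : ∀ j, ((e j : ℝ)) ∈ S := fun j => hVS _ (e j).2
  have hP := fun j => htr _ (hej j)
  set ζ : ℂ := (x : ℂ) + y * Complex.I with hζ
  have hζUH : ζ ∈ UH := hUH x y hy
  have hεζ : ε < ‖G ζ‖ := lt_of_lt_of_le hεδ hδG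
  have hH1 := h G hG hG1 ε hε0 (hεδ.trans hδ1) n z r (fun j => (hP j).2.2.1)
    (by
      intro j
      have := (hP j).2.2.2.1
      simp only [hz, him, hrdef]
      exact this)
    (by
      intro i j hij
      simp only [hz, hre, hrdef]
      have hne : (e i : ℝ) ≠ (e j : ℝ) := fun h' => hij (e.injective (Subtype.ext h'))
      have hi : (e i : ℝ) ∈ v := hvf.mem_toFinset.mp (e i).2
      have hj : (e j : ℝ) ∈ v := hvf.mem_toFinset.mp (e j).2
      have hd : Disjoint (closedBall (e i : ℝ) (rr (e i))) (closedBall (e j : ℝ) (rr (e j))) :=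
        hvd hi hj hne
      rw [← Real.ball_eq_Ioo, ← Real.ball_eq_Ioo]
      exact hd.mono ball_subset_closedBall ball_subset_closedBall)
    (by
      intro j w hw
      exact (hP j).2.2.2.2 w hw) ζ hζUH hεζ
  have hterm : ∀ j, r j * (2 / (5 * y)) ≤
      r j / (z j).im * (Real.log (1 + 4 * ζ.im * (z j).im / ‖ζ - z j‖ ^ 2) / 2) := by
    intro j
    apply term_HallC hy (hP j).1 (hP j).2.1 (hP j).2.2.1 hκ0 hκ1 (hej j).1
    · rw [hζ, him]
    · simp only [hz, him]
    · simp only [hζ, hz, Complex.sub_re, hre]; ring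
    · intro heq
      have h1 := (hP j).2.2.2.2 (z j) (mem_closedBall_self (hP j).2.2.1.le)
      rw [← heq] at h1
      exact absurd hεζ (not_lt.mpr h1)
  have hsum : (∑ j, r j) * (2 / (5 * y)) ≤ 40 * Real.log (1 / ‖G ζ‖) / Real.log (1 / ε) := by
    rw [Finset.sum_mul]
    exact (Finset.sum_le_sum fun j _ => hterm j).trans hH1
  have hlogζ : Real.log (1 / ‖G ζ‖) ≤ ℓ := by
    rw [hℓ]
    apply Real.log_le_log
    · have := hε0.trans hεζ
      positivity
    · exact one_div_le_one_div_of_le hδ0 hδG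
  have hsum2 : (∑ j, r j) * (2 / (5 * y)) ≤ 40 * κ / 1000 := by
    refine hsum.trans ?_
    rw [hεlog]
    calc 40 * Real.log (1 / ‖G ζ‖) / (1000 * ℓ / κ) ≤ 40 * ℓ / (1000 * ℓ / κ) := by
          gcongr
      _ = 40 * κ / 1000 := by field_simp
  have hsum3 : ∑ j, r j ≤ κ * y / 10 := by
    have e1 : (∑ j, r j) = ((∑ j, r j) * (2 / (5 * y))) * (5 * y / 2) := by field_simp
    rw [e1]
    calc ((∑ j, r j) * (2 / (5 * y))) * (5 * y / 2) ≤ (40 * κ / 1000) * (5 * y / 2) := by
          gcongr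
      _ = κ * y / 10 := by ring
  have hsumV : ∑ u ∈ V, 10 * rr u = 10 * ∑ j, r j := by
    rw [← Finset.mul_sum]
    congr 1
    rw [← Finset.sum_coe_sort V rr, ← e.sum_comp]
  rw [hsumV]
  linarith

end Pool.Agent.H843
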