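import Pool.Agent.H843.Stmts

set_option autoImplicit false

namespace Pool.Agent.H843

open MeasureTheory Filter Topology Metric Set
open scoped ComplexConjugate ENNReal
open Pool.Agent.Helper34.Dg
open Pool.Agent.H720R2.HP (WD db)

lemma norm_om_Har (w : ℂ) : ‖Complex.exp (Complex.I * w)‖ = Real.exp (-w.im) := by
  rw [Complex.norm_exp]; simp

lemma norm_exp_sub_one_Har (z : ℂ) : ‖Complex.exp z - 1‖ ≤ Real.exp ‖z‖ - 1 := by
  have h := Complex.norm_exp_sub_sum_le_exp_norm_sub_sum z 1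
  simpa using h

lemma om_diff_Har {w w' : ℂ} (hw : 0 < w.im) (h : ‖w' - w‖ ≤ w.im / 2) :
    ‖Complex.exp (Complex.I * w') - Complex.exp (Complex.I * w)‖ ≤ (1 - Real.exp (-w.im)) / 2 := by
  have e1 : Complex.exp (Complex.I * w') - Complex.exp (Complex.I * w) =
      Complex.exp (Complex.I * w) * (Complex.exp (Complex.I * (w' - w)) - 1) := by
    rw [mul_sub, mul_one, ← Complex.exp_add]
    congr 2
    ring
  have h2 : ‖Complex.exp (Complex.I * (w' - w)) - 1‖ ≤ Real.exp (w.im / 2) - 1 := by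
    refine (norm_exp_sub_one_Har _).trans ?_
    have : Real.exp ‖Complex.I * (w' - w)‖ ≤ Real.exp (w.im / 2) := by
      apply Real.exp_le_exp.2
      rw [norm_mul, Complex.norm_I, one_mul]
      exact h
    linarith
  rw [e1, norm_mul, norm_om_Har]
  have h3 : Real.exp (-w.im) = Real.exp (-(w.im / 2)) ^ 2 := by
    rw [← Real.exp_nat_mul]; congr 1; push_cast; ring
  have h4 : Real.exp (w.im / 2) * Real.exp (-(w.im / 2)) = 1 := by
    rw [← Real.exp_add]; simp
  set q := Real.exp (-(w.im / 2)) with hq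
  have hq0 : 0 < q := Real.exp_pos _
  calc Real.exp (-w.im) * ‖Complex.exp (Complex.I * (w' - w)) - 1‖
      ≤ Real.exp (-w.im) * (Real.exp (w.im / 2) - 1) :=
        mul_le_mul_of_nonneg_left h2 (Real.exp_pos _).le
    _ = q - q ^ 2 := by rw [h3]; linear_combination q * h4
    _ ≤ (1 - Real.exp (-w.im)) / 2 := by rw [h3]; nlinarith [sq_nonneg (1 - q)]

lemma one_sub_Har {a b : ℂ} (ha : ‖a‖ ≤ 1) : 1 - ‖b‖ ≤ ‖1 - b * a‖ := by
  have h1 : ‖(1 : ℂ)‖ - ‖b * a‖ ≤ ‖1 - b * a‖ := norm_sub_norm_le _ _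
  rw [norm_one, norm_mul] at h1
  have h2 : ‖b‖ * ‖a‖ ≤ ‖b‖ * 1 := mul_le_mul_of_nonneg_left ha (norm_nonneg _)
  linarith

/-- comparison of denominators -/
lemma den_Har {a b b' : ℂ} (ha : ‖a‖ ≤ 1) (h : ‖b' - b‖ ≤ (1 - ‖b‖) / 2) :
    ‖1 - b * a‖ / 2 ≤ ‖1 - b' * a‖ := by
  have h1 := one_sub_Har (b := b) ha
  have e1 : 1 - b' * a = (1 - b * a) - (b' - b) * a := by ring
  have h2 : ‖1 - b * a‖ - ‖(b' - b) * a‖ ≤ ‖1 - b' * a‖ := by
    rw [e1]; exact norm_sub_norm_le _ _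
  rw [norm_mul] at h2
  have h3 : ‖b' - b‖ * ‖a‖ ≤ ‖b' - b‖ * 1 := mul_le_mul_of_nonneg_left ha (norm_nonneg _)
  linarith

lemma exp_conc_Har {y s : ℝ} (hy : 0 < y) (hs : y ≤ s) :
    1 - Real.exp (-s) ^ 2 ≤ (s / y) * (1 - Real.exp (-y) ^ 2) := by
  have hs0 : 0 < s := lt_of_lt_of_le hy hs
  have h1 := convexOn_exp.2 (mem_univ (-(2 * s))) (mem_univ (0 : ℝ))
    (show 0 ≤ y / s by positivity) (show 0 ≤ 1 - y / s by
      rw [sub_nonneg, div_le_one hs0]; exact hs) (by ring)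
  simp only [smul_eq_mul, mul_zero, add_zero, Real.exp_zero, mul_one] at h1
  have e1 : y / s * -(2 * s) = -(2 * y) := by field_simp
  rw [e1] at h1
  have e2 : Real.exp (-s) ^ 2 = Real.exp (-(2 * s)) := by
    rw [← Real.exp_nat_mul]; congr 1; push_cast; ring
  have e3 : Real.exp (-y) ^ 2 = Real.exp (-(2 * y)) := by
    rw [← Real.exp_nat_mul]; congr 1; push_cast; ring
  rw [e2, e3]
  have h2 : y / s * (1 - Real.exp (-(2 * s))) ≤ 1 - Real.exp (-(2 * y)) := by linarith
  calc 1 - Real.exp (-(2 * s)) = (s / y) * (y / s * (1 - Real.exp (-(2 * s)))) := by field_simp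
    _ ≤ _ := mul_le_mul_of_nonneg_left h2 (by positivity)

lemma exp_lt_Har {y : ℝ} (hy : 0 < y) : Real.exp (-y) < 1 := by
  rw [Real.exp_lt_one_iff]; linarith

/-- TARGET harnack -/
theorem harnack : S_harnack := by
  refine ⟨?_, ?_, ?_⟩
  · intro a ha w hw w' hw' h
    have ha1 : ‖a‖ < 1 := by simpa [disc] using ha
    have hw0 : 0 < w.im := hw
    unfold PW PP
    have h1 : ‖conj (Complex.exp (Complex.I * w')) - conj (Complex.exp (Complex.I * w))‖ ≤
        (1 - ‖conj (Complex.exp (Complex.I * w))‖) / 2 := by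
      rw [← map_sub, RCLike.norm_conj, RCLike.norm_conj, norm_om_Har]
      exact om_diff_Har hw0 h
    have h2 := den_Har ha1.le h1
    have h3 : 0 < ‖1 - conj (Complex.exp (Complex.I * w)) * a‖ := by
      refine lt_of_lt_of_le ?_ (one_sub_Har (b := conj (Complex.exp (Complex.I * w))) ha1.le)
      rw [RCLike.norm_conj, norm_om_Har]
      have := exp_lt_Har hw0
      linarith
    set A := ‖1 - conj (Complex.exp (Complex.I * w)) * a‖
    set A' := ‖1 - conj (Complex.exp (Complex.I * w')) * a‖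
    have h4 : 0 < 1 - ‖a‖ ^ 2 := by nlinarith [norm_nonneg a]
    have h5 : (A / 2) ^ 2 ≤ A' ^ 2 := pow_le_pow_left₀ (by positivity) h2 2
    calc (1 - ‖a‖ ^ 2) / A' ^ 2 ≤ (1 - ‖a‖ ^ 2) / (A / 2) ^ 2 :=
          div_le_div_of_nonneg_left h4.le (by positivity) h5
      _ = 4 * ((1 - ‖a‖ ^ 2) / A ^ 2) := by field_simp; norm_num
  · intro w hw x hx t
    have hw0 : 0 < w.im := hw
    have hd : ‖((x : ℂ) + w.im * Complex.I) - w‖ ≤ w.im / 2 := by
      have : ((x : ℂ) + w.im * Complex.I) - w = ((x - w.re : ℝ) : ℂ) := by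
        apply Complex.ext <;> simp
      rw [this, Complex.norm_real]
      exact hx
    have h1 := om_diff_Har hw0 hd
    rw [← norm_om_Har] at h1
    have h2 := den_Har (a := e (-1) t) (e_norm _ t).le h1
    have hn : ‖Complex.exp (Complex.I * ((x : ℂ) + w.im * Complex.I))‖ =
        ‖Complex.exp (Complex.I * w)‖ := by
      rw [norm_om_Har, norm_om_Har]; simp
    have hlt : ‖Complex.exp (Complex.I * w)‖ < 1 := by
      rw [norm_om_Har]; exact exp_lt_Har hw0
    have h3 : 0 < ‖1 - Complex.exp (Complex.I * w) * e (-1) t‖ := norm_pos_iff.2 (den_ne hlt _ _)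
    unfold pk ck
    rw [hn, norm_inv, norm_inv]
    set A := ‖1 - Complex.exp (Complex.I * w) * e (-1) t‖
    set A' := ‖1 - Complex.exp (Complex.I * ((x : ℂ) + w.im * Complex.I)) * e (-1) t‖
    have h4 : 0 < 1 - ‖Complex.exp (Complex.I * w)‖ ^ 2 := by
      nlinarith [norm_nonneg (Complex.exp (Complex.I * w))]
    have h5 : A'⁻¹ ≤ (A / 2)⁻¹ := inv_anti₀ (by positivity) h2
    have h6 : A'⁻¹ ^ 2 ≤ 4 * A⁻¹ ^ 2 := by
      have h7 : A'⁻¹ ^ 2 ≤ ((A / 2)⁻¹) ^ 2 :=
        pow_le_pow_left₀ (inv_nonneg.2 (norm_nonneg _)) h5 2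
      have h8 : ((A / 2)⁻¹) ^ 2 = 4 * A⁻¹ ^ 2 := by field_simp; norm_num
      linarith
    have h9 : 0 ≤ A⁻¹ ^ 2 := by positivity
    calc (1 - ‖Complex.exp (Complex.I * w)‖ ^ 2) * A'⁻¹ ^ 2
        ≤ (1 - ‖Complex.exp (Complex.I * w)‖ ^ 2) * (6 * A⁻¹ ^ 2) :=
          mul_le_mul_of_nonneg_left (by linarith) h4.le
      _ = _ := by ring
  · intro w hw s hs t
    have hw0 : 0 < w.im := hw
    have hs0 : 0 < s := lt_of_lt_of_le hw0 hs
    have e0 : Complex.exp (Complex.I * w) =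
        ((Real.exp (-w.im) : ℝ) : ℂ) * Complex.exp (Complex.I * w.re) := by
      rw [Complex.ofReal_exp, ← Complex.exp_add]
      congr 1
      apply Complex.ext <;> simp
    have e1 : Complex.exp (Complex.I * (w.re + s * Complex.I)) =
        ((Real.exp (-s) : ℝ) : ℂ) * Complex.exp (Complex.I * w.re) := by
      rw [Complex.ofReal_exp, ← Complex.exp_add]
      congr 1
      apply Complex.ext <;> simp
    have hn : ‖Complex.exp (Complex.I * w.re)‖ = 1 := by rw [norm_om_Har]; simp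
    have hns : ‖Complex.exp (Complex.I * (w.re + s * Complex.I))‖ = Real.exp (-s) := by
      rw [norm_om_Har]; simp
    have hle : Real.exp (-s) ≤ Real.exp (-w.im) := Real.exp_le_exp.2 (by linarith)
    have hlt : ‖Complex.exp (Complex.I * w)‖ < 1 := by
      rw [norm_om_Har]; exact exp_lt_Har hw0
    have hlts : ‖Complex.exp (Complex.I * (w.re + s * Complex.I))‖ < 1 := by
      rw [hns]; exact exp_lt_Har hs0
    have h1 : 0 < ‖1 - Complex.exp (Complex.I * w) * e (-1) t‖ := norm_pos_iff.2 (den_ne hlt _ _)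
    have h2 : 0 < ‖1 - Complex.exp (Complex.I * (w.re + s * Complex.I)) * e (-1) t‖ :=
      norm_pos_iff.2 (den_ne hlts _ _)
    have h3 := one_sub_Har (a := e (-1) t)
      (b := Complex.exp (Complex.I * (w.re + s * Complex.I))) (e_norm _ t).le
    rw [hns] at h3
    have h4 : ‖1 - Complex.exp (Complex.I * w) * e (-1) t‖ ≤
        2 * ‖1 - Complex.exp (Complex.I * (w.re + s * Complex.I)) * e (-1) t‖ := by
      have e2 : 1 - Complex.exp (Complex.I * w) * e (-1) t =
          (1 - Complex.exp (Complex.I * (w.re + s * Complex.I)) * e (-1) t) +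
          ((Real.exp (-s) - Real.exp (-w.im) : ℝ) : ℂ) * (Complex.exp (Complex.I * w.re) *
            e (-1) t) := by
        rw [e0, e1]; push_cast; ring
      have h5 : ‖((Real.exp (-s) - Real.exp (-w.im) : ℝ) : ℂ) * (Complex.exp (Complex.I * w.re) *
            e (-1) t)‖ = Real.exp (-w.im) - Real.exp (-s) := by
        rw [norm_mul, norm_mul, hn, e_norm, Complex.norm_real, Real.norm_eq_abs, abs_sub_comm,
          abs_of_nonneg (by linarith)]
        ring
      have h6 := norm_add_le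
        (1 - Complex.exp (Complex.I * (w.re + s * Complex.I)) * e (-1) t)
        (((Real.exp (-s) - Real.exp (-w.im) : ℝ) : ℂ) * (Complex.exp (Complex.I * w.re) *
            e (-1) t))
      rw [← e2, h5] at h6
      have h7 := exp_lt_Har hw0
      linarith
    unfold pk ck
    rw [hns, norm_om_Har, norm_inv, norm_inv]
    set A := ‖1 - Complex.exp (Complex.I * w) * e (-1) t‖
    set A' := ‖1 - Complex.exp (Complex.I * (w.re + s * Complex.I)) * e (-1) t‖
    have h5 : A'⁻¹ ≤ 2 * A⁻¹ := by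
      have h8 : A / 2 ≤ A' := by linarith
      have h9 : A'⁻¹ ≤ (A / 2)⁻¹ := inv_anti₀ (by positivity) h8
      have h10 : (A / 2)⁻¹ = 2 * A⁻¹ := by field_simp
      linarith
    have h6 : A'⁻¹ ^ 2 ≤ 4 * A⁻¹ ^ 2 := by
      have := pow_le_pow_left₀ (inv_nonneg.2 h2.le) h5 2
      linarith [mul_pow 2 (A⁻¹) 2]
    have h7 := exp_conc_Har hw0 hs
    have h8 : 0 ≤ 1 - Real.exp (-s) ^ 2 := by
      have := exp_lt_Har hs0
      nlinarith [Real.exp_pos (-s)]
    calc (1 - Real.exp (-s) ^ 2) * A'⁻¹ ^ 2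
        ≤ (s / w.im * (1 - Real.exp (-w.im) ^ 2)) * (4 * A⁻¹ ^ 2) :=
          mul_le_mul h7 h6 (by positivity) (h8.trans h7)
      _ = _ := by ring

end Pool.Agent.H843
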