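import Pool.Agent.H843.Stmts

set_option autoImplicit false

namespace Pool.Agent.H843

open MeasureTheory Filter Topology Metric Set
open scoped ComplexConjugate ENNReal
open Pool.Agent.Helper34.Dg
open Pool.Agent.H720R2.HP (WD db)

/-- the integral of a periodic function over a period does not depend on the period -/
private lemma per_lint_HorizF {G : ℝ → ℝ≥0∞} {p : ℝ} (hp : 0 < p) (hG : Function.Periodic G p)
    (s t : ℝ) : ∫⁻ x in Ioc s (s + p), G x = ∫⁻ x in Ioc t (t + p), G x := by
  have : VAddInvariantMeasure (AddSubgroup.zmultiples p) ℝ volume :=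
    ⟨fun c s _ => measure_preimage_add _ _ _⟩
  exact (isAddFundamentalDomain_Ioc hp s).setLIntegral_eq (isAddFundamentalDomain_Ioc hp t) _
    hG.map_vadd_zmultiples

/-- translation of a periodic function -/
private lemma per_shift_HorizF {G : ℝ → ℝ≥0∞} (hG : Function.Periodic G (2 * Real.pi)) (t : ℝ) :
    ∫⁻ x in Ioo (-Real.pi) Real.pi, G (x + t) = ∫⁻ x in Ioo (-Real.pi) Real.pi, G x := by
  have h0 : (Ioo (-Real.pi) Real.pi : Set ℝ) =ᵐ[volume] Ioc (-Real.pi) Real.pi := Ioo_ae_eq_Ioc
  rw [setLIntegral_congr h0, setLIntegral_congr h0]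
  have h1 : ∫⁻ x in Ioc (-Real.pi) Real.pi, G (x + t) =
      ∫⁻ x in Ioc (-Real.pi + t) (-Real.pi + t + 2 * Real.pi), G x := by
    have h2 := (measurePreserving_add_right (volume : Measure ℝ) t).setLIntegral_comp_preimage_emb
      (measurableEmbedding_addRight t) G (Ioc (-Real.pi + t) (-Real.pi + t + 2 * Real.pi))
    rw [← h2]
    congr 2
    ext x
    simp only [mem_preimage, mem_Ioc]
    constructor
    · rintro ⟨a, b⟩
      exact ⟨by linarith, by linarith⟩
    · rintro ⟨a, b⟩
      exact ⟨by linarith, by linarith⟩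
  rw [h1, per_lint_HorizF (by positivity) hG (-Real.pi + t) (-Real.pi)]
  congr 2
  ring_nf

private lemma re_HorizF (x y : ℝ) : ((x : ℂ) + y * Complex.I).re = x := by simp

private lemma im_HorizF (x y : ℝ) : ((x : ℂ) + y * Complex.I).im = y := by simp

private lemma meas_avg_HorizF (κ : ℝ) {σ : ℂ → ℝ} (hσ : Measurable σ) : Measurable (avg κ σ) := by
  have h1 : Measurable (fun w : ℂ => ∫ u in Icc (w.re - κ * w.im) (w.re + κ * w.im),
      σ (u + w.im * Complex.I)) := by
    have h2 : (fun w : ℂ => ∫ u in Icc (w.re - κ * w.im) (w.re + κ * w.im),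
        σ (u + w.im * Complex.I)) = fun w : ℂ => ∫ u : ℝ,
        ({p : ℂ × ℝ | p.1.re - κ * p.1.im ≤ p.2 ∧ p.2 ≤ p.1.re + κ * p.1.im}.indicator
          (fun p : ℂ × ℝ => σ (p.2 + p.1.im * Complex.I))) (w, u) := by
      funext w
      rw [← integral_indicator measurableSet_Icc]
      rfl
    rw [h2]
    refine (StronglyMeasurable.integral_prod_right' (f := fun p : ℂ × ℝ =>
      ({p : ℂ × ℝ | p.1.re - κ * p.1.im ≤ p.2 ∧ p.2 ≤ p.1.re + κ * p.1.im}.indicator
          (fun p : ℂ × ℝ => σ (p.2 + p.1.im * Complex.I))) p) ?_).measurable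
    refine Measurable.stronglyMeasurable ?_
    refine Measurable.indicator ?_ ?_
    · refine hσ.comp ?_
      fun_prop
    · have e1 : Measurable fun p : ℂ × ℝ => p.1.re - κ * p.1.im := by fun_prop
      have e2 : Measurable fun p : ℂ × ℝ => p.1.re + κ * p.1.im := by fun_prop
      have e3 : Measurable fun p : ℂ × ℝ => p.2 := by fun_prop
      exact (measurableSet_le e1 e3).inter (measurableSet_le e3 e2)
  unfold avg
  refine Measurable.mul ?_ h1
  exact (Measurable.inv (by fun_prop))

private lemma integrable_HorizF {σ : ℂ → ℝ} (hσ : Measurable σ) (hnn : ∀ w ∈ UH, 0 ≤ σ w)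
    (hb : ∀ y : ℝ, 0 < y → ∃ M : ℝ, ∀ x : ℝ, σ (x + y * Complex.I) ≤ M) {y : ℝ} (hy : 0 < y)
    (a b : ℝ) : IntegrableOn (fun u : ℝ => σ (u + y * Complex.I)) (Icc a b) volume := by
  obtain ⟨M, hM⟩ := hb y hy
  refine Measure.integrableOn_of_bounded (M := M) ?_ ?_ ?_
  · simp
  · exact (hσ.comp (by fun_prop)).aestronglyMeasurable
  · refine Filter.Eventually.of_forall fun u => ?_
    rw [Real.norm_of_nonneg (hnn _ (by simp [UH, hy]))]
    exact hM u

/-- the kernel `PW` is periodic -/
private lemma PW_per_HorizF (a w : ℂ) : PW a (w + 2 * Real.pi) = PW a w := by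
  unfold PW
  congr 1
  have : Complex.I * (w + 2 * Real.pi) = Complex.I * w + 2 * Real.pi * Complex.I := by ring
  rw [this, Complex.exp_periodic]

private lemma PW_nn_HorizF {a : ℂ} (ha : a ∈ disc) (w : ℂ) : 0 ≤ PW a w := by
  unfold PW PP
  have h : ‖a‖ < 1 := by simpa [disc] using ha
  refine div_nonneg ?_ (by positivity)
  nlinarith [norm_nonneg a]

private lemma PW_meas_HorizF (a : ℂ) : Measurable (PW a) := by
  unfold PW PP
  fun_prop

private lemma ofReal_avg_HorizF {κ : ℝ} (hκ : 0 < κ) {σ : ℂ → ℝ} (hσ : Measurable σ)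
    (hnn : ∀ w ∈ UH, 0 ≤ σ w)
    (hb : ∀ y : ℝ, 0 < y → ∃ M : ℝ, ∀ x : ℝ, σ (x + y * Complex.I) ≤ M) {y : ℝ} (hy : 0 < y)
    (x : ℝ) : ENNReal.ofReal (avg κ σ (x + y * Complex.I)) =
      ENNReal.ofReal ((2 * (κ * y))⁻¹) * ∫⁻ t in Icc (-(κ * y)) (κ * y),
        ENNReal.ofReal (σ ((x + t : ℝ) + y * Complex.I)) := by
  unfold avg
  simp only [re_HorizF, im_HorizF]
  rw [ENNReal.ofReal_mul (by positivity), ofReal_integral_eq_lintegral_ofReal]
  · congr 1
    have h2 := (measurePreserving_add_left (volume : Measure ℝ) x).setLIntegral_comp_preimage_emb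
      (measurableEmbedding_addLeft x) (fun u : ℝ => ENNReal.ofReal (σ (u + y * Complex.I)))
      (Icc (x - κ * y) (x + κ * y))
    rw [← h2]
    congr 2
    ext t
    simp only [mem_preimage, mem_Icc]
    constructor
    · rintro ⟨a, b⟩
      exact ⟨by linarith, by linarith⟩
    · rintro ⟨a, b⟩
      exact ⟨by linarith, by linarith⟩
  · exact integrable_HorizF hσ hnn hb hy _ _
  · exact Filter.Eventually.of_forall fun u => hnn _ (by simp [UH, hy])

theorem horiz (h : S_harnack) : S_horiz := by
  intro κ hκ hκ2 σ hσ hnn hper hb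
  have havg : Measurable (avg κ σ) := meas_avg_HorizF κ hσ
  refine ⟨havg, ?_, ?_, ?_⟩
  · intro w hw
    have hw' : 0 < w.im := hw
    unfold avg
    refine mul_nonneg (by positivity) ?_
    exact setIntegral_nonneg measurableSet_Icc fun u _ => hnn _ (by simp [UH, hw'])
  · intro w hw M hM
    have hw' : 0 < w.im := hw
    have hpos : 0 < κ * w.im := mul_pos hκ hw'
    have h1 : ∫ u in Icc (w.re - κ * w.im) (w.re + κ * w.im), σ (u + w.im * Complex.I) ≤
        ∫ u in Icc (w.re - κ * w.im) (w.re + κ * w.im), M := by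
      refine setIntegral_mono_on (integrable_HorizF hσ hnn hb hw' _ _) ?_ measurableSet_Icc ?_
      · simp
      · intro u hu
        refine hM u ?_
        rw [abs_le]
        exact ⟨by linarith [hu.1], by linarith [hu.2]⟩
    have h2 : ∫ u in Icc (w.re - κ * w.im) (w.re + κ * w.im), M = 2 * (κ * w.im) * M := by
      rw [setIntegral_const]
      simp only [smul_eq_mul, Real.volume_real_Icc]
      rw [max_eq_left (by linarith)]
      ring
    unfold avg
    rw [inv_mul_le_iff₀ (by positivity)]
    linarith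
  · intro a ha
    have hc0 : ∀ y : ℝ, 0 < y → 0 ≤ 1 - Real.exp (-2 * y) := by
      intro y hy
      have : Real.exp (-2 * y) ≤ 1 := Real.exp_le_one_iff.mpr (by linarith)
      linarith
    -- swap the integrals
    have hswap : ∀ τ : ℂ → ℝ, Measurable τ → En τ a = ∫⁻ y in Ioi (0 : ℝ),
        ∫⁻ x in Ioo (-Real.pi) Real.pi, ENNReal.ofReal (τ (x + y * Complex.I) *
          (1 - Real.exp (-2 * y)) * PW a (x + y * Complex.I)) := by
      intro τ hτ
      unfold En
      refine lintegral_lintegral_swap ?_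
      refine Measurable.aemeasurable ?_
      refine ENNReal.measurable_ofReal.comp ?_
      refine Measurable.mul (Measurable.mul ?_ ?_) ?_
      · refine hτ.comp ?_
        fun_prop
      · fun_prop
      · refine (PW_meas_HorizF a).comp ?_
        fun_prop
    rw [hswap _ havg, hswap _ hσ, ← lintegral_const_mul' _ _ (by simp)]
    refine setLIntegral_mono' measurableSet_Ioi ?_
    intro y hy
    have hy : 0 < y := hy
    have hpos : 0 < κ * y := mul_pos hκ hy
    -- the periodic function
    set G : ℝ → ℝ≥0∞ := fun x => ENNReal.ofReal (σ (x + y * Complex.I) *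
          (1 - Real.exp (-2 * y)) * PW a (x + y * Complex.I)) with hG
    have hGper : Function.Periodic G (2 * Real.pi) := by
      intro x
      simp only [hG]
      have e1 : (((x + 2 * Real.pi : ℝ) : ℂ) + y * Complex.I) =
          ((x : ℂ) + y * Complex.I) + 2 * Real.pi := by
        push_cast
        ring
      rw [e1, hper _ (by simp [UH, hy]), PW_per_HorizF]
    have hGmeas : Measurable G := by
      refine ENNReal.measurable_ofReal.comp ?_
      refine Measurable.mul (Measurable.mul ?_ ?_) ?_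
      · refine hσ.comp ?_
        fun_prop
      · fun_prop
      · refine (PW_meas_HorizF a).comp ?_
        fun_prop
    have key : ∀ x : ℝ, ENNReal.ofReal (avg κ σ (x + y * Complex.I) *
          (1 - Real.exp (-2 * y)) * PW a (x + y * Complex.I)) ≤
        ENNReal.ofReal ((2 * (κ * y))⁻¹) * ∫⁻ t in Icc (-(κ * y)) (κ * y), 4 * G (x + t) := by
      intro x
      rw [mul_assoc, ENNReal.ofReal_mul', ofReal_avg_HorizF hκ hσ hnn hb hy, mul_assoc]
      · refine mul_le_mul_right ?_ _
        rw [← lintegral_mul_const' _ _ ENNReal.ofReal_ne_top]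
        refine setLIntegral_mono' measurableSet_Icc ?_
        intro t ht
        simp only [hG]
        rw [← ENNReal.ofReal_mul (hnn _ (by simp [UH, hy]))]
        have e4 : (4 : ℝ≥0∞) = ENNReal.ofReal 4 := by norm_num
        rw [e4, ← ENNReal.ofReal_mul (by norm_num)]
        refine ENNReal.ofReal_le_ofReal ?_
        have hh := h.1 a ha (((x + t : ℝ) : ℂ) + y * Complex.I) (by simp [UH, hy])
          ((x : ℂ) + y * Complex.I) (by simp [UH, hy]) ?_
        · have hs := hnn (((x + t : ℝ) : ℂ) + y * Complex.I) (by simp [UH, hy])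
          have hc := hc0 y hy
          have := mul_le_mul_of_nonneg_left hh (mul_nonneg hs hc)
          linarith
        · rw [im_HorizF]
          have : ((x : ℂ) + y * Complex.I) - (((x + t : ℝ) : ℂ) + y * Complex.I) = ((-t : ℝ) : ℂ) := by
            push_cast
            ring
          rw [this, Complex.norm_real, Real.norm_eq_abs, abs_neg]
          have : |t| ≤ κ * y := abs_le.mpr ⟨ht.1, ht.2⟩
          nlinarith
      · exact mul_nonneg (hc0 y hy) (PW_nn_HorizF ha _)
    calc ∫⁻ x in Ioo (-Real.pi) Real.pi, ENNReal.ofReal (avg κ σ (x + y * Complex.I) *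
          (1 - Real.exp (-2 * y)) * PW a (x + y * Complex.I))
        ≤ ∫⁻ x in Ioo (-Real.pi) Real.pi, ENNReal.ofReal ((2 * (κ * y))⁻¹) *
            ∫⁻ t in Icc (-(κ * y)) (κ * y), 4 * G (x + t) := lintegral_mono fun x => key x
      _ = ENNReal.ofReal ((2 * (κ * y))⁻¹) * ∫⁻ x in Ioo (-Real.pi) Real.pi,
            ∫⁻ t in Icc (-(κ * y)) (κ * y), 4 * G (x + t) :=
          lintegral_const_mul' _ _ ENNReal.ofReal_ne_top
      _ = ENNReal.ofReal ((2 * (κ * y))⁻¹) * ∫⁻ t in Icc (-(κ * y)) (κ * y),
            ∫⁻ x in Ioo (-Real.pi) Real.pi, 4 * G (x + t) := by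
          congr 1
          refine lintegral_lintegral_swap ?_
          refine Measurable.aemeasurable ?_
          exact Measurable.const_mul (hGmeas.comp (by fun_prop)) _
      _ = ENNReal.ofReal ((2 * (κ * y))⁻¹) * ∫⁻ t in Icc (-(κ * y)) (κ * y),
            4 * ∫⁻ x in Ioo (-Real.pi) Real.pi, G x := by
          congr 1
          refine lintegral_congr fun t => ?_
          rw [lintegral_const_mul' _ _ (by simp), per_shift_HorizF hGper]
      _ = ENNReal.ofReal ((2 * (κ * y))⁻¹) * ((4 * ∫⁻ x in Ioo (-Real.pi) Real.pi, G x) *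
            ENNReal.ofReal (2 * (κ * y))) := by
          rw [setLIntegral_const, Real.volume_Icc]
          congr 3
          ring
      _ = 4 * ∫⁻ x in Ioo (-Real.pi) Real.pi, G x := by
          rw [mul_comm (4 * ∫⁻ x in Ioo (-Real.pi) Real.pi, G x), ← mul_assoc,
            ← ENNReal.ofReal_mul (by positivity), inv_mul_cancel₀ (by positivity)]
          simp

end Pool.Agent.H843
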