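import Pool.Agent.H843.Stmts

set_option autoImplicit false

namespace Pool.Agent.H843

open MeasureTheory Filter Topology Metric Set
open scoped ComplexConjugate ENNReal
open Pool.Agent.Helper34.Dg
open Pool.Agent.H720R2.HP (WD db)

/-- gluing two differentiable functions -/
theorem glue_LFun {a : ℝ} {f g f' g' : ℝ → ℝ} (hf : ∀ s, a ≤ s → HasDerivAt f (f' s) s)
    (hg : ∀ s, s ≤ a → HasDerivAt g (g' s) s) (h0 : f a = g a) (h1 : f' a = g' a) (s : ℝ) :
    HasDerivAt (fun s => if a ≤ s then f s else g s) (if a ≤ s then f' s else g' s) s := by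
  rcases lt_trichotomy s a with h | h | h
  · rw [if_neg (not_le.mpr h)]
    refine (hg s h.le).congr_of_eventuallyEq ?_
    filter_upwards [Iio_mem_nhds h] with x hx
    rw [if_neg (not_le.mpr hx)]
  · subst h
    rw [if_pos le_rfl]
    have e1 : HasDerivWithinAt (fun x => if s ≤ x then f x else g x) (f' s) (Ici s) s := by
      refine (hf s le_rfl).hasDerivWithinAt.congr (fun x hx => ?_) ?_
      · rw [if_pos (mem_Ici.mp hx)]
      · rw [if_pos le_rfl]
    have e2 : HasDerivWithinAt (fun x => if s ≤ x then f x else g x) (f' s) (Iic s) s := by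
      rw [h1]
      refine (hg s le_rfl).hasDerivWithinAt.congr (fun x hx => ?_) ?_
      · by_cases hx' : s ≤ x
        · have : x = s := le_antisymm (mem_Iic.mp hx) hx'
          subst this
          rw [if_pos le_rfl, h0]
        · rw [if_neg hx']
      · rw [if_pos le_rfl, h0]
    have e3 := e1.union e2
    rw [Ici_union_Iic] at e3
    exact hasDerivWithinAt_univ.mp e3
  · rw [if_pos h.le]
    refine (hf s h.le).congr_of_eventuallyEq ?_
    filter_upwards [Ioi_mem_nhds h] with x hx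
    rw [if_pos (le_of_lt hx)]

/-- the derivative of `Lam` -/
noncomputable def lam_LFun (s₁ s : ℝ) : ℝ :=
  if s₁ ≤ s then 1 / (2 * s) else (1 / s₁ - (s - s₁) / s₁ ^ 2) / 2

/-- the second derivative of `Lam` -/
noncomputable def lamd_LFun (s₁ s : ℝ) : ℝ :=
  if s₁ ≤ s then -1 / (2 * s ^ 2) else -1 / (2 * s₁ ^ 2)

theorem Lam_deriv_LFun {s₁ : ℝ} (hs : 0 < s₁) (s : ℝ) : HasDerivAt (Lam s₁) (lam_LFun s₁ s) s := by
  unfold lam_LFun
  refine glue_LFun (a := s₁) (f := fun s => Real.log s / 2)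
    (g := fun s => (Real.log s₁ + (s - s₁) / s₁ - (s - s₁) ^ 2 / (2 * s₁ ^ 2)) / 2)
    (f' := fun s => 1 / (2 * s)) (g' := fun s => (1 / s₁ - (s - s₁) / s₁ ^ 2) / 2) ?_ ?_ ?_ ?_ s
  · intro s h
    have hs0 : s ≠ 0 := (lt_of_lt_of_le hs h).ne'
    refine ((Real.hasDerivAt_log hs0).div_const 2).congr_deriv ?_
    field_simp
  · intro s _
    have h1 : HasDerivAt (fun s : ℝ => s - s₁) 1 s := (hasDerivAt_id s).sub_const s₁
    have h2 := (((h1.div_const s₁).const_add (Real.log s₁)).sub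
      ((h1.pow 2).div_const (2 * s₁ ^ 2))).div_const 2
    refine h2.congr_deriv ?_
    field_simp
    ring
  · simp
  · simp only [sub_self, zero_div, sub_zero]
    field_simp

theorem lam_deriv_LFun {s₁ : ℝ} (hs : 0 < s₁) (s : ℝ) :
    HasDerivAt (lam_LFun s₁) (lamd_LFun s₁ s) s := by
  unfold lamd_LFun
  refine glue_LFun (a := s₁) (f := fun s => 1 / (2 * s))
    (g := fun s => (1 / s₁ - (s - s₁) / s₁ ^ 2) / 2)
    (f' := fun s => -1 / (2 * s ^ 2)) (g' := fun s => -1 / (2 * s₁ ^ 2)) ?_ ?_ ?_ ?_ s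
  · intro s h
    have hs0 : s ≠ 0 := (lt_of_lt_of_le hs h).ne'
    have h1 : HasDerivAt (fun s : ℝ => 2 * s) 2 s := by
      simpa using (hasDerivAt_id s).const_mul 2
    have h2 := (hasDerivAt_const s (1 : ℝ)).div h1 (by positivity)
    refine h2.congr_deriv ?_
    field_simp
    ring
  · intro s _
    have h1 : HasDerivAt (fun s : ℝ => s - s₁) 1 s := (hasDerivAt_id s).sub_const s₁
    have h2 := ((h1.div_const (s₁ ^ 2)).const_sub (1 / s₁)).div_const 2
    refine h2.congr_deriv ?_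
    field_simp
  · simp only [sub_self, zero_div, sub_zero]
    field_simp
  · rfl

theorem lam_cont_LFun {s₁ : ℝ} (hs : 0 < s₁) : Continuous (lam_LFun s₁) :=
  continuous_iff_continuousAt.mpr fun s => (lam_deriv_LFun hs s).continuousAt

theorem lamd_eq_LFun (s₁ s : ℝ) : lamd_LFun s₁ s = -1 / (2 * (max s s₁) ^ 2) := by
  unfold lamd_LFun
  split_ifs with h
  · rw [max_eq_left h]
  · rw [max_eq_right (not_le.mp h).le]

theorem lamd_cont_LFun {s₁ : ℝ} (hs : 0 < s₁) : Continuous (lamd_LFun s₁) := by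
  have : lamd_LFun s₁ = fun s => -1 / (2 * (max s s₁) ^ 2) := funext fun s => lamd_eq_LFun s₁ s
  rw [this]
  refine continuous_const.div (by fun_prop) fun s => ?_
  have : 0 < max s s₁ := lt_of_lt_of_le hs (le_max_right _ _)
  positivity

theorem lam_nonneg_LFun {s₁ : ℝ} (hs : 0 < s₁) (s : ℝ) : 0 ≤ lam_LFun s₁ s := by
  unfold lam_LFun
  split_ifs with h
  · have : 0 < s := lt_of_lt_of_le hs h
    positivity
  · have h1 : 0 < s₁ - s := by linarith [not_le.mp h]
    have h2 : 0 ≤ (s₁ - s) / s₁ ^ 2 := by positivity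
    have h3 : (s - s₁) / s₁ ^ 2 = -((s₁ - s) / s₁ ^ 2) := by ring
    rw [h3]
    have h4 : 0 < 1 / s₁ := by positivity
    linarith

theorem lam_le_LFun {s₁ : ℝ} (hs : 0 < s₁) {s : ℝ} (h0 : 0 ≤ s) : lam_LFun s₁ s ≤ 1 / s₁ := by
  unfold lam_LFun
  split_ifs with h
  · apply one_div_le_one_div_of_le hs
    linarith
  · have h1 : (1 / s₁ - (s - s₁) / s₁ ^ 2) / 2 = 1 / s₁ - s / (2 * s₁ ^ 2) := by
      field_simp
      ring
    rw [h1]
    have : 0 ≤ s / (2 * s₁ ^ 2) := by positivity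
    linarith

theorem lamd_abs_LFun {s₁ : ℝ} (hs : 0 < s₁) (s : ℝ) : |lamd_LFun s₁ s| ≤ 1 / (2 * s₁ ^ 2) := by
  rw [lamd_eq_LFun, neg_div, abs_neg, abs_of_nonneg (by positivity)]
  apply one_div_le_one_div_of_le (by positivity)
  have : s₁ ≤ max s s₁ := le_max_right _ _
  have h2 : s₁ ^ 2 ≤ (max s s₁) ^ 2 := pow_le_pow_left₀ hs.le this 2
  linarith

theorem lam_id_LFun {s₁ : ℝ} (hs : 0 < s₁) (s : ℝ) :
    lam_LFun s₁ s + s * lamd_LFun s₁ s = max (s₁ - s) 0 / s₁ ^ 2 := by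
  unfold lam_LFun lamd_LFun
  split_ifs with h
  · have hs0 : s ≠ 0 := (lt_of_lt_of_le hs h).ne'
    rw [max_eq_right (by linarith)]
    field_simp
    ring
  · rw [max_eq_left (by linarith [not_le.mp h])]
    field_simp
    ring

/-- derivative of the squared norm -/
theorem normsq_deriv_LFun {G : ℝ → ℂ} {G' : ℂ} {x : ℝ} (h : HasDerivAt G G' x) :
    HasDerivAt (fun u => ‖G u‖ ^ 2) (2 * (conj (G x) * G').re) x := by
  have := h.norm_sq
  rw [Complex.inner, mul_comm G'] at this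
  exact this

theorem conj_deriv_LFun {G : ℝ → ℂ} {G' : ℂ} {x : ℝ} (h : HasDerivAt G G' x) :
    HasDerivAt (fun u => conj (G u)) (conj G') x :=
  (Complex.conjCLE : ℂ →L[ℝ] ℂ).hasFDerivAt.comp_hasDerivAt x h

theorem re_deriv_LFun {G : ℝ → ℂ} {G' : ℂ} {x : ℝ} (h : HasDerivAt G G' x) :
    HasDerivAt (fun u => (G u).re) G'.re x :=
  Complex.reCLM.hasFDerivAt.comp_hasDerivAt x h

theorem im_deriv_LFun {G : ℝ → ℂ} {G' : ℂ} {x : ℝ} (h : HasDerivAt G G' x) :
    HasDerivAt (fun u => (G u).im) G'.im x :=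
  Complex.imCLM.hasFDerivAt.comp_hasDerivAt x h

theorem hor_LFun {F : ℂ → ℂ} {x y : ℝ} (h : DifferentiableAt ℂ F (x + y * Complex.I)) :
    HasDerivAt (fun u : ℝ => F (u + y * Complex.I)) (deriv F (x + y * Complex.I)) x := by
  have h1 : HasDerivAt (fun ζ : ℂ => F (ζ + y * Complex.I)) (deriv F (x + y * Complex.I)) (x : ℂ) :=
    HasDerivAt.comp_add_const (x : ℂ) (y * Complex.I) h.hasDerivAt
  exact h1.comp_ofReal

theorem ver_LFun {F : ℂ → ℂ} {x y : ℝ} (h : DifferentiableAt ℂ F (x + y * Complex.I)) :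
    HasDerivAt (fun v : ℝ => F (x + v * Complex.I)) (deriv F (x + y * Complex.I) * Complex.I) y := by
  have h0 : HasDerivAt (fun ζ : ℂ => (x : ℂ) + ζ * Complex.I) Complex.I (y : ℂ) := by
    simpa using ((hasDerivAt_id (y : ℂ)).mul_const Complex.I).const_add (x : ℂ)
  have h1 : HasDerivAt (fun ζ : ℂ => F (x + ζ * Complex.I))
      (deriv F (x + y * Complex.I) * Complex.I) (y : ℂ) :=
    HasDerivAt.comp (y : ℂ) h.hasDerivAt h0
  exact h1.comp_ofReal

/-- TARGET -/
theorem Lfun : S_L := by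
  intro s₁ hs _
  refine ⟨2 / s₁ ^ 2 + 2 / s₁, by positivity, ?_⟩
  intro F hF hF1
  have hopen : IsOpen UH := isOpen_lt continuous_const Complex.continuous_im
  have hF' : DifferentiableOn ℂ (deriv F) UH := hF.deriv hopen
  have hF'' : DifferentiableOn ℂ (deriv (deriv F)) UH := hF'.deriv hopen
  have cF := hF.continuousOn
  have cF' := hF'.continuousOn
  have cF'' := hF''.continuousOn
  have cS : ContinuousOn (fun w => ‖F w‖ ^ 2) UH := cF.norm.pow 2
  have clam : ContinuousOn (fun w => lam_LFun s₁ (‖F w‖ ^ 2)) UH :=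
    (lam_cont_LFun hs).comp_continuousOn cS
  have clamd : ContinuousOn (fun w => lamd_LFun s₁ (‖F w‖ ^ 2)) UH :=
    (lamd_cont_LFun hs).comp_continuousOn cS
  have ccF : ContinuousOn (fun w => conj (F w)) UH := Complex.continuous_conj.comp_continuousOn cF
  have cp : ContinuousOn (fun w => conj (F w) * deriv F w) UH := ccF.mul cF'
  have cq : ContinuousOn (fun w => conj (F w) * deriv (deriv F) w) UH := ccF.mul cF''
  refine ⟨fun w => lam_LFun s₁ (‖F w‖ ^ 2) * (2 * (conj (F w) * deriv F w).re),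
    fun w => lam_LFun s₁ (‖F w‖ ^ 2) * (-(2 * (conj (F w) * deriv F w).im)),
    fun w => lamd_LFun s₁ (‖F w‖ ^ 2) * (2 * (conj (F w) * deriv F w).re) ^ 2 +
      lam_LFun s₁ (‖F w‖ ^ 2) * (2 * (‖deriv F w‖ ^ 2 + (conj (F w) * deriv (deriv F) w).re)),
    fun w => lamd_LFun s₁ (‖F w‖ ^ 2) * (2 * (conj (F w) * deriv F w).im) ^ 2 +
      lam_LFun s₁ (‖F w‖ ^ 2) * (2 * (‖deriv F w‖ ^ 2 - (conj (F w) * deriv (deriv F) w).re)),
    ?_, ?_, ?_, ?_, ?_⟩
  · exact clam.mul (continuousOn_const.mul (Complex.continuous_re.comp_continuousOn cp))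
  · exact clam.mul (continuousOn_const.mul (Complex.continuous_im.comp_continuousOn cp)).neg
  · exact (clamd.mul ((continuousOn_const.mul (Complex.continuous_re.comp_continuousOn cp)).pow 2)).add
      (clam.mul (continuousOn_const.mul
        ((cF'.norm.pow 2).add (Complex.continuous_re.comp_continuousOn cq))))
  · exact (clamd.mul ((continuousOn_const.mul (Complex.continuous_im.comp_continuousOn cp)).pow 2)).add
      (clam.mul (continuousOn_const.mul
        ((cF'.norm.pow 2).sub (Complex.continuous_re.comp_continuousOn cq))))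
  intro x y hy
  have hmem : ∀ u v : ℝ, 0 < v → (u + v * Complex.I : ℂ) ∈ UH := by
    intro u v hv
    simpa [UH] using hv
  have hw := hmem x y hy
  set w : ℂ := x + y * Complex.I with hwdef
  have dF : DifferentiableAt ℂ F w := hF.differentiableAt (hopen.mem_nhds hw)
  have dF' : DifferentiableAt ℂ (deriv F) w := hF'.differentiableAt (hopen.mem_nhds hw)
  have gx := hor_LFun dF
  have gy := ver_LFun dF
  have gx' := hor_LFun dF'
  have gy' := ver_LFun dF'
  have sx := normsq_deriv_LFun gx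
  have sy := normsq_deriv_LFun gy
  rw [← hwdef] at gx gy gx' gy' sx sy
  have eI : (conj (F w) * (deriv F w * Complex.I)).re = -(conj (F w) * deriv F w).im := by
    rw [← mul_assoc, Complex.mul_re, Complex.I_re, Complex.I_im]
    ring
  rw [eI] at sy
  -- derivatives of p
  have px : HasDerivAt (fun u : ℝ => conj (F (u + y * Complex.I)) * deriv F (u + y * Complex.I))
      (conj (deriv F w) * deriv F w + conj (F w) * deriv (deriv F) w) x := by
    have := (conj_deriv_LFun gx).mul gx'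
    rwa [← hwdef] at this
  have py : HasDerivAt (fun v : ℝ => conj (F (x + v * Complex.I)) * deriv F (x + v * Complex.I))
      (conj (deriv F w * Complex.I) * deriv F w + conj (F w) * (deriv (deriv F) w * Complex.I)) y := by
    have := (conj_deriv_LFun gy).mul gy'
    rwa [← hwdef] at this
  have lx : HasDerivAt (fun u : ℝ => lam_LFun s₁ (‖F (u + y * Complex.I)‖ ^ 2))
      (lamd_LFun s₁ (‖F w‖ ^ 2) * (2 * (conj (F w) * deriv F w).re)) x := by
    have hl : HasDerivAt (lam_LFun s₁) (lamd_LFun s₁ (‖F w‖ ^ 2))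
      ((fun u : ℝ => ‖F (u + y * Complex.I)‖ ^ 2) x) := lam_deriv_LFun hs _
    exact HasDerivAt.comp x hl sx
  have ly : HasDerivAt (fun v : ℝ => lam_LFun s₁ (‖F (x + v * Complex.I)‖ ^ 2))
      (lamd_LFun s₁ (‖F w‖ ^ 2) * (2 * -(conj (F w) * deriv F w).im)) y := by
    have hl : HasDerivAt (lam_LFun s₁) (lamd_LFun s₁ (‖F w‖ ^ 2))
      ((fun v : ℝ => ‖F (x + v * Complex.I)‖ ^ 2) y) := lam_deriv_LFun hs _
    exact HasDerivAt.comp y hl sy
  have hS1 : ‖F w‖ ≤ 1 := hF1 w hw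
  have hS0 : 0 ≤ ‖F w‖ := norm_nonneg _
  have hl0 := lam_nonneg_LFun hs (‖F w‖ ^ 2)
  have hl1 := lam_le_LFun hs (s := ‖F w‖ ^ 2) (by positivity)
  have hd1 := lamd_abs_LFun hs (‖F w‖ ^ 2)
  have hpn : ‖conj (F w) * deriv F w‖ ≤ ‖deriv F w‖ := by
    rw [norm_mul, RCLike.norm_conj]
    exact mul_le_of_le_one_left (norm_nonneg _) hS1
  have hqn : ‖conj (F w) * deriv (deriv F) w‖ ≤ ‖deriv (deriv F) w‖ := by
    rw [norm_mul, RCLike.norm_conj]
    exact mul_le_of_le_one_left (norm_nonneg _) hS1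
  have hpr := (Complex.abs_re_le_norm (conj (F w) * deriv F w)).trans hpn
  have hpi := (Complex.abs_im_le_norm (conj (F w) * deriv F w)).trans hpn
  have hqr := (Complex.abs_re_le_norm (conj (F w) * deriv (deriv F) w)).trans hqn
  have hn1 : 0 ≤ ‖deriv F w‖ := norm_nonneg _
  have hn2 : 0 ≤ ‖deriv (deriv F) w‖ := norm_nonneg _
  have hC1 : 2 / s₁ ≤ 2 / s₁ ^ 2 + 2 / s₁ := by
    have : 0 ≤ 2 / s₁ ^ 2 := by positivity
    linarith
  have h2s : 1 / s₁ * 2 = 2 / s₁ := by ring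
  -- first order bound
  have b1 : ∀ r : ℝ, |r| ≤ ‖deriv F w‖ → |lam_LFun s₁ (‖F w‖ ^ 2) * (2 * r)| ≤
      (2 / s₁ ^ 2 + 2 / s₁) * ‖deriv F w‖ := by
    intro r hr
    rw [abs_mul, abs_of_nonneg hl0, abs_mul, abs_two]
    calc lam_LFun s₁ (‖F w‖ ^ 2) * (2 * |r|) ≤ 1 / s₁ * (2 * ‖deriv F w‖) := by
          apply mul_le_mul hl1 (by linarith) (by positivity) (by positivity)
      _ = 2 / s₁ * ‖deriv F w‖ := by rw [← mul_assoc, h2s]
      _ ≤ _ := mul_le_mul_of_nonneg_right hC1 hn1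
  have b2 : ∀ r q : ℝ, |r| ≤ ‖deriv F w‖ → |q| ≤ ‖deriv F w‖ ^ 2 + ‖deriv (deriv F) w‖ →
      |lamd_LFun s₁ (‖F w‖ ^ 2) * (2 * r) ^ 2 + lam_LFun s₁ (‖F w‖ ^ 2) * (2 * q)| ≤
      (2 / s₁ ^ 2 + 2 / s₁) * (‖deriv F w‖ ^ 2 + ‖deriv (deriv F) w‖) := by
    intro r q hr hq
    refine (abs_add_le _ _).trans ?_
    rw [abs_mul, abs_mul, abs_of_nonneg hl0, abs_of_nonneg (sq_nonneg (2 * r)), abs_mul, abs_two]
    have hr2 : r ^ 2 ≤ ‖deriv F w‖ ^ 2 := by
      rw [← sq_abs r]
      exact pow_le_pow_left₀ (abs_nonneg _) hr 2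
    have t1 : |lamd_LFun s₁ (‖F w‖ ^ 2)| * (2 * r) ^ 2 ≤ 2 / s₁ ^ 2 * ‖deriv F w‖ ^ 2 := by
      calc |lamd_LFun s₁ (‖F w‖ ^ 2)| * (2 * r) ^ 2
          ≤ 1 / (2 * s₁ ^ 2) * (4 * ‖deriv F w‖ ^ 2) := by
            apply mul_le_mul hd1 _ (by positivity) (by positivity)
            nlinarith
        _ = 2 / s₁ ^ 2 * ‖deriv F w‖ ^ 2 := by
            field_simp
            ring
    have t2 : lam_LFun s₁ (‖F w‖ ^ 2) * (2 * |q|) ≤
        2 / s₁ * (‖deriv F w‖ ^ 2 + ‖deriv (deriv F) w‖) := by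
      calc lam_LFun s₁ (‖F w‖ ^ 2) * (2 * |q|)
          ≤ 1 / s₁ * (2 * (‖deriv F w‖ ^ 2 + ‖deriv (deriv F) w‖)) := by
            apply mul_le_mul hl1 (by linarith) (by positivity) (by positivity)
        _ = _ := by rw [← mul_assoc, h2s]
    have t3 : 2 / s₁ ^ 2 * ‖deriv F w‖ ^ 2 ≤
        2 / s₁ ^ 2 * (‖deriv F w‖ ^ 2 + ‖deriv (deriv F) w‖) := by
      apply mul_le_mul_of_nonneg_left _ (by positivity)
      linarith
    rw [add_mul]
    linarith
  refine ⟨?_, ?_, ?_, ?_, ?_, ?_, ?_, ?_, ?_⟩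
  · have hl : HasDerivAt (Lam s₁) (lam_LFun s₁ (‖F w‖ ^ 2))
      ((fun u : ℝ => ‖F (u + y * Complex.I)‖ ^ 2) x) := Lam_deriv_LFun hs _
    exact HasDerivAt.comp x hl sx
  · have hl : HasDerivAt (Lam s₁) (lam_LFun s₁ (‖F w‖ ^ 2))
      ((fun v : ℝ => ‖F (x + v * Complex.I)‖ ^ 2) y) := Lam_deriv_LFun hs _
    refine (HasDerivAt.comp y hl sy).congr_deriv ?_
    ring
  · have := lx.mul ((re_deriv_LFun px).const_mul 2)
    refine this.congr_deriv ?_
    rw [← hwdef]
    have e1 : (conj (deriv F w) * deriv F w).re = ‖deriv F w‖ ^ 2 := by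
      rw [Complex.conj_mul']
      norm_cast
    rw [Complex.add_re, e1]
    ring
  · have := ly.mul (((im_deriv_LFun py).const_mul 2).neg)
    refine this.congr_deriv ?_
    simp only [Pi.neg_apply]
    rw [← hwdef]
    have e1 : (conj (deriv F w * Complex.I) * deriv F w + conj (F w) *
        (deriv (deriv F) w * Complex.I)).im =
        -(‖deriv F w‖ ^ 2) + (conj (F w) * deriv (deriv F) w).re := by
      have e2 : conj (deriv F w * Complex.I) * deriv F w + conj (F w) *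
          (deriv (deriv F) w * Complex.I) =
          (-(conj (deriv F w) * deriv F w) + conj (F w) * deriv (deriv F) w) * Complex.I := by
        rw [map_mul, Complex.conj_I]
        ring
      have e3 : (conj (deriv F w) * deriv F w).re = ‖deriv F w‖ ^ 2 := by
        rw [Complex.conj_mul']
        norm_cast
      rw [e2, Complex.mul_im, Complex.I_re, Complex.I_im, Complex.add_re, Complex.neg_re, e3]
      ring
    rw [e1]
    ring
  · have hid := lam_id_LFun hs (‖F w‖ ^ 2)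
    have hp2 : (conj (F w) * deriv F w).re ^ 2 + (conj (F w) * deriv F w).im ^ 2 =
        ‖F w‖ ^ 2 * ‖deriv F w‖ ^ 2 := by
      have e : ‖conj (F w) * deriv F w‖ ^ 2 = ‖F w‖ ^ 2 * ‖deriv F w‖ ^ 2 := by
        rw [norm_mul, RCLike.norm_conj, mul_pow]
      rw [← e, Complex.sq_norm, Complex.normSq_apply]
      ring
    unfold sig
    rw [mul_div_assoc, ← hid]
    linear_combination (4 * lamd_LFun s₁ (‖F w‖ ^ 2)) * hp2
  · exact b1 _ hpr
  · have := b1 (-(conj (F w) * deriv F w).im) (by rwa [abs_neg])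
    rwa [show 2 * -(conj (F w) * deriv F w).im = -(2 * (conj (F w) * deriv F w).im) by ring] at this
  · refine b2 _ _ hpr ?_
    refine (abs_add_le _ _).trans ?_
    rw [abs_of_nonneg (sq_nonneg _)]
    linarith
  · refine b2 _ _ hpi ?_
    refine (abs_sub _ _).trans ?_
    rw [abs_of_nonneg (sq_nonneg _)]
    linarith

end Pool.Agent.H843
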