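import Pool.Agent.H843.Stmts

set_option autoImplicit false

namespace Pool.Agent.H843

open MeasureTheory Filter Topology Metric Set
open scoped ComplexConjugate ENNReal
open Pool.Agent.Helper34.Dg
open Pool.Agent.H720R2.HP (WD db)

theorem sinh_mul_LemM {k y : ℝ} (hk : 1 ≤ k) (hy : 0 < y) :
    k * Real.sinh y ≤ Real.sinh (k * y) := by
  have hc : ConvexOn ℝ (Ici (0 : ℝ)) Real.sinh := by
    apply convexOn_of_deriv2_nonneg (convex_Ici 0) Real.continuous_sinh.continuousOn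
      Real.differentiable_sinh.differentiableOn
    · rw [Real.deriv_sinh]; exact Real.differentiable_cosh.differentiableOn
    · intro x hx
      rw [interior_Ici] at hx
      simp only [Function.iterate_succ, Function.iterate_zero, Function.comp_apply, id,
        Real.deriv_sinh, Real.deriv_cosh]
      exact (Real.sinh_pos_iff.2 hx).le
  have hk0 : 0 < k := by linarith
  have h1 := hc.2 (show (0 : ℝ) ∈ Ici (0 : ℝ) from le_refl (0 : ℝ))
    (show k * y ∈ Ici (0 : ℝ) from (mul_pos hk0 hy).le)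
    (show (0 : ℝ) ≤ 1 - 1 / k by rw [sub_nonneg, div_le_one hk0]; exact hk)
    (show (0 : ℝ) ≤ 1 / k by positivity) (by ring)
  simp only [smul_eq_mul, mul_zero, zero_add, Real.sinh_zero] at h1
  have h2 : 1 / k * (k * y) = y := by field_simp
  rw [h2] at h1
  calc k * Real.sinh y ≤ k * (1 / k * Real.sinh (k * y)) := by gcongr
    _ = Real.sinh (k * y) := by field_simp

theorem F_LemM {s : ℝ} (hs : 0 < s) :
    HasDerivAt (fun s => -(Real.exp (-s) / Real.sinh s)) (1 / Real.sinh s ^ 2) s := by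
  have hsh : Real.sinh s ≠ 0 := (Real.sinh_pos_iff.2 hs).ne'
  have h1 : HasDerivAt (fun s : ℝ => Real.exp (-s)) (-Real.exp (-s)) s := by
    have := (hasDerivAt_neg s).exp
    simpa using this
  have h2 := (h1.div (Real.hasDerivAt_sinh s) hsh).neg
  refine h2.congr_deriv ?_
  have h3 : Real.exp (-s) * (Real.sinh s + Real.cosh s) = 1 := by
    rw [Real.sinh_add_cosh, ← Real.exp_add]; simp
  rw [eq_div_iff (pow_ne_zero 2 hsh), neg_mul, div_mul_cancel₀ _ (pow_ne_zero 2 hsh)]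
  linear_combination h3

theorem Flim_LemM : Tendsto (fun s => -(Real.exp (-s) / Real.sinh s)) atTop (𝓝 0) := by
  have h1 : Tendsto (fun s : ℝ => Real.exp (-s)) atTop (𝓝 0) :=
    Real.tendsto_exp_neg_atTop_nhds_zero
  have h2 : Tendsto (fun s : ℝ => Real.exp (-s) / Real.sinh s) atTop (𝓝 0) := by
    refine tendsto_of_tendsto_of_tendsto_of_le_of_le' tendsto_const_nhds h1 ?_ ?_
    · filter_upwards [eventually_gt_atTop 0] with s hs
      exact div_nonneg (Real.exp_pos _).le (Real.sinh_pos_iff.2 hs).le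
    · filter_upwards [eventually_ge_atTop 1] with s hs
      apply div_le_self (Real.exp_pos _).le
      exact hs.trans (Real.self_le_sinh_iff.2 (by linarith))
  have := h2.neg
  rwa [neg_zero] at this

theorem intSinh_LemM {u : ℝ} (hu : 0 < u) :
    IntegrableOn (fun s => 1 / Real.sinh s ^ 2) (Ioi u) ∧
      ∫ s in Ioi u, 1 / Real.sinh s ^ 2 = Real.exp (-u) / Real.sinh u := by
  have h1 : ∀ x ∈ Ici u, HasDerivAt (fun s => -(Real.exp (-s) / Real.sinh s))
      (1 / Real.sinh x ^ 2) x := fun x hx => F_LemM (lt_of_lt_of_le hu hx)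
  have h2 : ∀ x ∈ Ioi u, 0 ≤ 1 / Real.sinh x ^ 2 := fun x _ => by positivity
  refine ⟨integrableOn_Ioi_deriv_of_nonneg' h1 h2 Flim_LemM, ?_⟩
  rw [integral_Ioi_of_hasDerivAt_of_nonneg' h1 h2 Flim_LemM]
  ring

/-- first part of Lemma M -/
theorem part1_LemM {τ : ℂ → ℝ} (hτm : Measurable τ) (hτ : ∀ w ∈ UH, 0 ≤ τ w) {B : ℝ} (hB : 0 ≤ B)
    (hb : ∀ w ∈ UH, τ w * Real.sinh w.im ^ 2 ≤ B) {k : ℝ} (hk : 1 ≤ k) {w : ℂ} (hw : w ∈ UH) :
    Real.sinh w.im * ∫ s in Ioi (k * w.im), τ (w.re + s * Complex.I) ≤ B / k := by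
  have hy : 0 < w.im := hw
  have hk0 : 0 < k := by linarith
  have hu : 0 < k * w.im := mul_pos hk0 hy
  obtain ⟨hi, he⟩ := intSinh_LemM hu
  have hsy : 0 < Real.sinh w.im := Real.sinh_pos_iff.2 hy
  have hsu : 0 < Real.sinh (k * w.im) := Real.sinh_pos_iff.2 hu
  have hbd : ∀ s ∈ Ioi (k * w.im), τ (w.re + s * Complex.I) ≤ B * (1 / Real.sinh s ^ 2) := by
    intro s hs
    have hs0 : 0 < s := lt_trans hu hs
    have h1 := hb (w.re + s * Complex.I) (by
      change 0 < ((w.re : ℂ) + s * Complex.I).im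
      simpa using hs0)
    have h2 : ((w.re : ℂ) + s * Complex.I).im = s := by simp
    rw [h2] at h1
    have h3 : 0 < Real.sinh s ^ 2 := pow_pos (Real.sinh_pos_iff.2 hs0) 2
    rw [mul_one_div, le_div_iff₀ h3]
    exact h1
  have h1 : ∫ s in Ioi (k * w.im), τ (w.re + s * Complex.I) ≤
      B * (Real.exp (-(k * w.im)) / Real.sinh (k * w.im)) := by
    rw [← he, ← integral_const_mul]
    apply setIntegral_mono_on _ (hi.const_mul B) measurableSet_Ioi hbd
    refine Integrable.mono' (hi.const_mul B) ?_ ?_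
    · exact (hτm.comp (by fun_prop)).aestronglyMeasurable
    · filter_upwards [ae_restrict_mem measurableSet_Ioi] with s hs
      rw [Real.norm_of_nonneg]
      · exact hbd s hs
      · apply hτ
        change 0 < ((w.re : ℂ) + s * Complex.I).im
        have : 0 < s := lt_trans hu hs
        simpa using this
  calc Real.sinh w.im * ∫ s in Ioi (k * w.im), τ (w.re + s * Complex.I)
      ≤ Real.sinh w.im * (B * (Real.exp (-(k * w.im)) / Real.sinh (k * w.im))) := by gcongr
    _ ≤ Real.sinh w.im * (B * (1 / (k * Real.sinh w.im))) := by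
        have h2 := sinh_mul_LemM hk hy
        have h3 : Real.exp (-(k * w.im)) ≤ 1 := by
          rw [Real.exp_le_one_iff]; linarith
        gcongr
    _ = B / k := by
        field_simp

theorem PW_LemM (a : ℂ) (x y : ℝ) : PW a (x + y * Complex.I) = (1 - ‖a‖ ^ 2) /
    ‖1 - (Real.exp (-y) : ℂ) * (Complex.exp (-(x * Complex.I)) * a)‖ ^ 2 := by
  unfold PW PP
  have h1 : conj (Complex.exp (Complex.I * (x + y * Complex.I))) =
      (Real.exp (-y) : ℂ) * Complex.exp (-(x * Complex.I)) := by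
    rw [← Complex.exp_conj, Complex.ofReal_exp, ← Complex.exp_add]
    congr 1
    simp only [map_mul, map_add, Complex.conj_I, Complex.conj_ofReal]
    push_cast
    linear_combination (y : ℂ) * Complex.I_mul_I
  rw [h1, mul_assoc]

theorem normb_LemM (a : ℂ) (x : ℝ) : ‖Complex.exp (-(x * Complex.I)) * a‖ = ‖a‖ := by
  rw [norm_mul, show -((x : ℂ) * Complex.I) = ((-x : ℝ) : ℂ) * Complex.I by push_cast; ring,
    Complex.norm_exp_ofReal_mul_I, one_mul]

/-- lower and upper bounds of `|1 - e^{-y} b|` -/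
theorem low_LemM {b : ℂ} (hb : ‖b‖ ≤ 1) {y : ℝ} (hy : 0 ≤ y) :
    (‖1 - b‖ + (1 - Real.exp (-y))) / 3 ≤ ‖1 - (Real.exp (-y) : ℂ) * b‖ ∧
      ‖1 - (Real.exp (-y) : ℂ) * b‖ ≤ ‖1 - b‖ + (1 - Real.exp (-y)) := by
  have he1 : Real.exp (-y) ≤ 1 := by rw [Real.exp_le_one_iff]; linarith
  have he0 : 0 < Real.exp (-y) := Real.exp_pos _
  obtain ⟨r, hr⟩ : ∃ r : ℝ, r = Real.exp (-y) := ⟨_, rfl⟩
  rw [← hr] at he1 he0 ⊢
  have hs : ‖((1 - r : ℝ) : ℂ) * b‖ ≤ 1 - r := by
    rw [norm_mul, Complex.norm_real, Real.norm_of_nonneg (by linarith)]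
    exact mul_le_of_le_one_right (by linarith) hb
  have e1 : 1 - (r : ℂ) * b = (1 - b) + ((1 - r : ℝ) : ℂ) * b := by push_cast; ring
  have e2 : (1 - b) = (1 - (r : ℂ) * b) - ((1 - r : ℝ) : ℂ) * b := by push_cast; ring
  have h1 : ‖1 - (r : ℂ) * b‖ ≤ ‖1 - b‖ + (1 - r) := by
    rw [e1]
    exact (norm_add_le _ _).trans (by linarith)
  have h2 : ‖1 - b‖ ≤ ‖1 - (r : ℂ) * b‖ + (1 - r) := by
    conv_lhs => rw [e2]
    exact (norm_sub_le _ _).trans (by linarith)
  have h3 : 1 - r ≤ ‖1 - (r : ℂ) * b‖ := by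
    have h4 : ‖(r : ℂ) * b‖ ≤ r := by
      rw [norm_mul, Complex.norm_real, Real.norm_of_nonneg he0.le]
      exact mul_le_of_le_one_right he0.le hb
    have h5 := norm_sub_norm_le (1 : ℂ) ((r : ℂ) * b)
    rw [norm_one] at h5
    linarith
  exact ⟨by linarith, h1⟩

theorem dpos_LemM {b : ℂ} (hb : ‖b‖ < 1) : 0 < ‖1 - b‖ ∧ ‖1 - b‖ ≤ 2 := by
  constructor
  · rw [norm_pos_iff, sub_ne_zero]
    rintro rfl
    rw [norm_one] at hb
    exact lt_irrefl _ hb
  · refine (norm_sub_le _ _).trans ?_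
    rw [norm_one]; linarith

theorem hder_LemM {d : ℝ} (hd : 0 < d) {y : ℝ} (hy : 0 ≤ y) :
    HasDerivAt (fun y => -(d + (1 - Real.exp (-y)))⁻¹)
      (Real.exp (-y) / (d + (1 - Real.exp (-y))) ^ 2) y := by
  have he1 : Real.exp (-y) ≤ 1 := by rw [Real.exp_le_one_iff]; linarith
  have hne : d + (1 - Real.exp (-y)) ≠ 0 := by
    have : 0 < d + (1 - Real.exp (-y)) := by linarith
    exact this.ne'
  have h1 : HasDerivAt (fun s : ℝ => d + (1 - Real.exp (-s))) (Real.exp (-y)) y := by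
    have := (((hasDerivAt_neg y).exp).const_sub 1).const_add d
    simpa using this
  have h2 := (h1.inv hne).neg
  refine h2.congr_deriv ?_
  ring

/-- the bound for the inner integral -/
theorem K_LemM {a : ℂ} (ha : ‖a‖ < 1) (x : ℝ) {S : ℝ} (hS : 0 < S) {d : ℝ}
    (hd : d = ‖1 - Complex.exp (-(x * Complex.I)) * a‖) :
    ∫⁻ y in Ioo 0 S, ENNReal.ofReal (Real.exp (-y) * PW a (x + y * Complex.I)) ≤
      ENNReal.ofReal (9 * (1 - ‖a‖ ^ 2) * ((1 - Real.exp (-S)) / (d * (d + (1 - Real.exp (-S)))))) := by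
  have hb : ‖Complex.exp (-(x * Complex.I)) * a‖ < 1 := by rw [normb_LemM]; exact ha
  have hd0 : 0 < d := by rw [hd]; exact (dpos_LemM hb).1
  have ha2 : 0 ≤ 1 - ‖a‖ ^ 2 := by nlinarith [norm_nonneg a]
  have hder : ∀ y ∈ Set.uIcc 0 S, HasDerivAt (fun y => -(d + (1 - Real.exp (-y)))⁻¹)
      (Real.exp (-y) / (d + (1 - Real.exp (-y))) ^ 2) y := by
    intro y hy
    rw [Set.uIcc_of_le hS.le] at hy
    exact hder_LemM hd0 hy.1
  have hcont : ContinuousOn (fun y => Real.exp (-y) / (d + (1 - Real.exp (-y))) ^ 2)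
      (Set.uIcc 0 S) := by
    apply ContinuousOn.div (by fun_prop) (by fun_prop)
    intro y hy
    rw [Set.uIcc_of_le hS.le] at hy
    have he1 : Real.exp (-y) ≤ 1 := by rw [Real.exp_le_one_iff]; linarith [hy.1]
    have : 0 < d + (1 - Real.exp (-y)) := by linarith
    positivity
  have hint : ∫ y in (0 : ℝ)..S, Real.exp (-y) / (d + (1 - Real.exp (-y))) ^ 2 =
      (1 - Real.exp (-S)) / (d * (d + (1 - Real.exp (-S)))) := by
    rw [intervalIntegral.integral_eq_sub_of_hasDerivAt hder hcont.intervalIntegrable]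
    have he1 : Real.exp (-S) ≤ 1 := by rw [Real.exp_le_one_iff]; linarith
    have : 0 < d + (1 - Real.exp (-S)) := by linarith
    have h3 : d + (1 - Real.exp (-(0 : ℝ))) = d := by simp
    rw [h3]
    field_simp
    ring
  have hII : IntegrableOn (fun y => Real.exp (-y) / (d + (1 - Real.exp (-y))) ^ 2) (Ioo 0 S) := by
    have := hcont.intervalIntegrable (μ := volume)
    rw [intervalIntegrable_iff_integrableOn_Ioo_of_le hS.le] at this
    exact this
  have hII2 : ∫ y in Ioo 0 S, Real.exp (-y) / (d + (1 - Real.exp (-y))) ^ 2 =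
      (1 - Real.exp (-S)) / (d * (d + (1 - Real.exp (-S)))) := by
    rw [← hint, intervalIntegral.integral_of_le hS.le, integral_Ioc_eq_integral_Ioo]
  rw [← hII2, ← integral_const_mul, ofReal_integral_eq_lintegral_ofReal (hII.const_mul _) ?_]
  · apply setLIntegral_mono' measurableSet_Ioo
    intro y hy
    apply ENNReal.ofReal_le_ofReal
    rw [PW_LemM]
    have h4 := (low_LemM hb.le hy.1.le).1
    rw [← hd] at h4
    have he1 : Real.exp (-y) ≤ 1 := by rw [Real.exp_le_one_iff]; linarith [hy.1]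
    have he0 : 0 < Real.exp (-y) := Real.exp_pos _
    have h5 : 0 < d + (1 - Real.exp (-y)) := by linarith
    have h6 : (d + (1 - Real.exp (-y))) ^ 2 / 9 ≤
        ‖1 - (Real.exp (-y) : ℂ) * (Complex.exp (-(x * Complex.I)) * a)‖ ^ 2 := by
      have := pow_le_pow_left₀ (by positivity) h4 2
      calc (d + (1 - Real.exp (-y))) ^ 2 / 9 = ((d + (1 - Real.exp (-y))) / 3) ^ 2 := by ring
        _ ≤ _ := this
    calc Real.exp (-y) * ((1 - ‖a‖ ^ 2) /
          ‖1 - (Real.exp (-y) : ℂ) * (Complex.exp (-(x * Complex.I)) * a)‖ ^ 2)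
        ≤ Real.exp (-y) * ((1 - ‖a‖ ^ 2) / ((d + (1 - Real.exp (-y))) ^ 2 / 9)) := by
          gcongr
      _ = 9 * (1 - ‖a‖ ^ 2) * (Real.exp (-y) / (d + (1 - Real.exp (-y))) ^ 2) := by
          field_simp
  · filter_upwards [ae_restrict_mem measurableSet_Ioo] with y hy
    have he0 : 0 < Real.exp (-y) := Real.exp_pos _
    positivity

/-- integral of the power -/
theorem pow_LemM {c e : ℝ} (hc : 0 ≤ c) (he : 0 < e) :
    ∫⁻ s in Ioi e, ENNReal.ofReal (c * s ^ (-(3 / 2) : ℝ)) =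
      ENNReal.ofReal (c * (2 * e ^ (-(1 / 2) : ℝ))) := by
  have h1 : ∫ s in Ioi e, s ^ (-(3 / 2) : ℝ) = 2 * e ^ (-(1 / 2) : ℝ) := by
    rw [integral_Ioi_rpow_of_lt (by norm_num) he]
    norm_num
    ring
  have h2 : IntegrableOn (fun s : ℝ => s ^ (-(3 / 2) : ℝ)) (Ioi e) :=
    integrableOn_Ioi_rpow_of_lt (by norm_num) he
  rw [← h1, ← integral_const_mul, ofReal_integral_eq_lintegral_ofReal (h2.const_mul c) ?_]
  filter_upwards [ae_restrict_mem measurableSet_Ioi] with s hs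
  have : 0 < s := lt_trans he hs
  positivity

/-- the Poisson integral -/
theorem poisson_LemM {a : ℂ} (ha : ‖a‖ < 1) :
    IntegrableOn (fun x : ℝ => (1 - ‖a‖ ^ 2) / ‖1 - Complex.exp (-(x * Complex.I)) * a‖ ^ 2)
      (Ioo (-Real.pi) Real.pi) ∧
    ∫ x in Ioo (-Real.pi) Real.pi, (1 - ‖a‖ ^ 2) / ‖1 - Complex.exp (-(x * Complex.I)) * a‖ ^ 2 =
      2 * Real.pi := by
  have hpi := Real.pi_pos
  have hc : Continuous (fun x : ℝ => (1 - ‖a‖ ^ 2) /
      ‖1 - Complex.exp (-(x * Complex.I)) * a‖ ^ 2) := by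
    apply Continuous.div (by fun_prop) (by fun_prop)
    intro x
    have hb : ‖Complex.exp (-(x * Complex.I)) * a‖ < 1 := by rw [normb_LemM]; exact ha
    exact pow_ne_zero 2 (dpos_LemM hb).1.ne'
  constructor
  · exact (hc.integrableOn_Icc (a := -Real.pi) (b := Real.pi)).mono_set Ioo_subset_Icc_self
  · rw [← integral_Ioc_eq_integral_Ioo, ← intervalIntegral.integral_of_le (by linarith)]
    have h1 : ∫ t : T, pk a t = 1 := by
      have h2 := int_pk ha
      have h3 : (volume : Measure T) = mu := by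
        rw [AddCircle.volume_eq_smul_haarAddCircle]
        simp
      rw [h3]
      exact h2
    have h4 := UnitAddCircle.intervalIntegral_preimage (-(1 / 2)) (pk a)
    rw [h1] at h4
    have h5 := intervalIntegral.integral_comp_mul_left
      (a := -(1 / 2)) (b := -(1 / 2) + 1) (fun x : ℝ => (1 - ‖a‖ ^ 2) /
      ‖1 - Complex.exp (-(x * Complex.I)) * a‖ ^ 2) (c := 2 * Real.pi) (by positivity)
    have h6 : 2 * Real.pi * (-(1 / 2)) = -Real.pi := by ring
    have h7 : 2 * Real.pi * (-(1 / 2) + 1) = Real.pi := by ring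
    rw [h6, h7] at h5
    have h8 : ∫ x in (-(1 / 2) : ℝ)..(-(1 / 2) + 1), (1 - ‖a‖ ^ 2) /
        ‖1 - Complex.exp (-(((2 * Real.pi * x : ℝ) : ℂ) * Complex.I)) * a‖ ^ 2 = 1 := by
      refine Eq.trans (intervalIntegral.integral_congr fun t _ => ?_) h4
      unfold pk ck
      have he : e (-1) (t : T) = Complex.exp (-(((2 * Real.pi * t : ℝ) : ℂ) * Complex.I)) := by
        unfold e
        rw [fourier_coe_apply]
        congr 1
        push_cast
        ring
      rw [he, norm_inv, inv_pow, div_eq_mul_inv, mul_comm a]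
    rw [h8] at h5
    rw [smul_eq_mul] at h5
    field_simp at h5
    linarith

theorem PWnn_LemM {a : ℂ} (ha : ‖a‖ < 1) (w : ℂ) : 0 ≤ PW a w := by
  unfold PW PP
  have ha2 : 0 ≤ 1 - ‖a‖ ^ 2 := by nlinarith [norm_nonneg a]
  positivity

/-- pointwise bound -/
theorem pt_LemM {τ : ℂ → ℝ} (hτ : ∀ w ∈ UH, 0 ≤ τ w) {B : ℝ} (hB : 0 ≤ B)
    (hb : ∀ w ∈ UH, τ w * Real.sinh w.im ^ 2 ≤ B) {k : ℝ} (hk : 1 ≤ k) {a : ℂ} (ha : ‖a‖ < 1)
    (x : ℝ) {d : ℝ} (hd : d = ‖1 - Complex.exp (-(x * Complex.I)) * a‖) {s : ℝ} (hs : 0 < s) :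
    ENNReal.ofReal (τ (x + s * Complex.I)) * ENNReal.ofReal (9 * (1 - ‖a‖ ^ 2) *
      ((1 - Real.exp (-(s / k))) / (d * (d + (1 - Real.exp (-(s / k))))))) ≤
    ENNReal.ofReal (54 / k * (τ (x + s * Complex.I) * (1 - Real.exp (-2 * s)) *
      PW a (x + s * Complex.I))) +
    (Ioi (d / 2)).indicator (fun s => ENNReal.ofReal
      (9 / 2 * B * (1 - ‖a‖ ^ 2) / (√k * (d * √d)) * s ^ (-(3 / 2) : ℝ))) s := by
  have hbn : ‖Complex.exp (-(x * Complex.I)) * a‖ < 1 := by rw [normb_LemM]; exact ha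
  have hd0 : 0 < d := by rw [hd]; exact (dpos_LemM hbn).1
  have hd2 : d ≤ 2 := by rw [hd]; exact (dpos_LemM hbn).2
  have ha2 : 0 ≤ 1 - ‖a‖ ^ 2 := by nlinarith [norm_nonneg a]
  have hk0 : 0 < k := by linarith
  have him : ((x : ℂ) + s * Complex.I).im = s := by simp
  have hmem : ((x : ℂ) + s * Complex.I) ∈ UH := by
    change 0 < ((x : ℂ) + s * Complex.I).im
    rw [him]; exact hs
  have ht0 := hτ _ hmem
  obtain ⟨t, ht⟩ : ∃ t, t = τ (x + s * Complex.I) := ⟨_, rfl⟩
  obtain ⟨P, hP⟩ : ∃ P, P = PW a (x + s * Complex.I) := ⟨_, rfl⟩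
  have hP0 : 0 ≤ P := by rw [hP]; exact PWnn_LemM ha _
  obtain ⟨Q, hQ⟩ : ∃ Q, Q = 1 - Real.exp (-(s / k)) := ⟨_, rfl⟩
  have hsk : 0 < s / k := div_pos hs hk0
  have hQ0 : 0 < Q := by
    rw [hQ, sub_pos, Real.exp_lt_one_iff]; linarith
  have hQs : Q ≤ s / k := by
    have := Real.add_one_le_exp (-(s / k))
    rw [hQ]; linarith
  rw [← ENNReal.ofReal_mul ht0]
  rw [← ht] at ht0 ⊢
  rw [← hP, ← hQ]
  by_cases hcase : s ≤ 1 ∧ 1 - Real.exp (-s) ≤ d
  · refine le_trans ?_ le_self_add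
    apply ENNReal.ofReal_le_ofReal
    obtain ⟨h1, h2⟩ := hcase
    have h3 : (1 - ‖a‖ ^ 2) / d ^ 2 ≤ 4 * P := by
      rw [hP, PW_LemM]
      have h4 := (low_LemM hbn.le hs.le).2
      have h4' := (low_LemM hbn.le hs.le).1
      rw [← hd] at h4 h4'
      have he1 : Real.exp (-s) < 1 := by rw [Real.exp_lt_one_iff]; linarith
      have h5 : 0 < ‖1 - (Real.exp (-s) : ℂ) * (Complex.exp (-(x * Complex.I)) * a)‖ := by
        have : 0 < (d + (1 - Real.exp (-s))) / 3 := by linarith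
        linarith
      have h6 : ‖1 - (Real.exp (-s) : ℂ) * (Complex.exp (-(x * Complex.I)) * a)‖ ^ 2 ≤
          4 * d ^ 2 := by
        have := pow_le_pow_left₀ h5.le (h4.trans (show d + (1 - Real.exp (-s)) ≤ 2 * d by linarith)) 2
        calc _ ≤ (2 * d) ^ 2 := this
          _ = 4 * d ^ 2 := by ring
      calc (1 - ‖a‖ ^ 2) / d ^ 2 = 4 * ((1 - ‖a‖ ^ 2) / (4 * d ^ 2)) := by field_simp
        _ ≤ _ := by gcongr
    have h7 : s ≤ 3 / 2 * (1 - Real.exp (-2 * s)) := by
      have h8 : Real.exp (-2 * s) ≤ 1 / (1 + 2 * s) := by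
        have h9 : 1 + 2 * s ≤ Real.exp (2 * s) := by
          have := Real.add_one_le_exp (2 * s); linarith
        rw [show -2 * s = -(2 * s) by ring, Real.exp_neg, one_div]
        exact inv_anti₀ (by linarith) h9
      have h10 : 1 / (1 + 2 * s) ≤ 1 - 2 / 3 * s := by
        rw [div_le_iff₀ (by linarith)]
        nlinarith
      linarith
    have h11 : Q / (d * (d + Q)) ≤ Q / d ^ 2 := by
      apply div_le_div_of_nonneg_left hQ0.le (by positivity)
      nlinarith
    have h12 : (0 : ℝ) ≤ 1 - Real.exp (-2 * s) := by linarith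
    calc t * (9 * (1 - ‖a‖ ^ 2) * (Q / (d * (d + Q))))
        ≤ t * (9 * (1 - ‖a‖ ^ 2) * (Q / d ^ 2)) := by gcongr
      _ = t * (9 * Q * ((1 - ‖a‖ ^ 2) / d ^ 2)) := by ring
      _ ≤ t * (9 * (s / k) * (4 * P)) := by gcongr
      _ ≤ t * (9 * ((3 / 2 * (1 - Real.exp (-2 * s))) / k) * (4 * P)) := by gcongr
      _ = 54 / k * (t * (1 - Real.exp (-2 * s)) * P) := by ring
  · have hsd : d / 2 < s := by
      rw [not_and_or] at hcase
      rcases hcase with h | h
      · rw [not_le] at h; linarith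
      · rw [not_le] at h
        have := Real.add_one_le_exp (-s)
        linarith
    refine le_trans ?_ le_add_self
    rw [indicator_of_mem (show s ∈ Ioi (d / 2) from hsd)]
    apply ENNReal.ofReal_le_ofReal
    have h1 : t ≤ B / s ^ 2 := by
      have h2 := hb _ hmem
      rw [him, ← ht] at h2
      have h3 : s ≤ Real.sinh s := Real.self_le_sinh_iff.2 hs.le
      rw [le_div_iff₀ (by positivity)]
      refine le_trans ?_ h2
      gcongr
    have hsd0 : 0 < √d := Real.sqrt_pos.2 hd0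
    have hsQ : 0 < √Q := Real.sqrt_pos.2 hQ0
    have hss : 0 < √s := Real.sqrt_pos.2 hs
    have hskk : 0 < √k := Real.sqrt_pos.2 hk0
    have h4 : Q / (d * (d + Q)) ≤ √s / (2 * √k * (d * √d)) := by
      have h5 : 2 * (√d * √Q) ≤ d + Q := by
        nlinarith [Real.sq_sqrt hd0.le, Real.sq_sqrt hQ0.le, sq_nonneg (√d - √Q)]
      calc Q / (d * (d + Q)) ≤ Q / (d * (2 * (√d * √Q))) := by gcongr
        _ = √Q / (2 * (d * √d)) := by
            rw [div_eq_div_iff (by positivity) (by positivity)]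
            have := Real.mul_self_sqrt hQ0.le
            linear_combination (-(2 * d * √d)) * this
        _ ≤ √(s / k) / (2 * (d * √d)) := by gcongr
        _ = √s / (2 * √k * (d * √d)) := by
            rw [Real.sqrt_div hs.le]
            field_simp
    have h6 : s ^ (-(3 / 2) : ℝ) = √s / s ^ 2 := by
      rw [Real.sqrt_eq_rpow, ← Real.rpow_natCast s 2, ← Real.rpow_sub hs]
      norm_num
    rw [h6]
    calc t * (9 * (1 - ‖a‖ ^ 2) * (Q / (d * (d + Q))))
        ≤ (B / s ^ 2) * (9 * (1 - ‖a‖ ^ 2) * (√s / (2 * √k * (d * √d)))) := by gcongr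
      _ = 9 / 2 * B * (1 - ‖a‖ ^ 2) / (√k * (d * √d)) * (√s / s ^ 2) := by
          field_simp

/-- swapping the order of integration -/
theorem swap_LemM {f g : ℝ → ℝ≥0∞} (hf : Measurable f) (hg : Measurable g) {k : ℝ} (hk : 0 < k) :
    ∫⁻ y in Ioi (0 : ℝ), (∫⁻ s in Ioi (k * y), f s) * g y =
      ∫⁻ s in Ioi (0 : ℝ), f s * ∫⁻ y in Ioo 0 (s / k), g y := by
  have hm : Measurable (Function.uncurry fun (y s : ℝ) => if k * y < s then f s * g y else 0) := by
    apply Measurable.ite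
    · exact measurableSet_lt (measurable_fst.const_mul k) measurable_snd
    · exact (hf.comp measurable_snd).mul (hg.comp measurable_fst)
    · exact measurable_const
  have h1 : ∀ y ∈ Ioi (0 : ℝ), (∫⁻ s in Ioi (k * y), f s) * g y =
      ∫⁻ s in Ioi (0 : ℝ), if k * y < s then f s * g y else 0 := by
    intro y hy
    rw [← lintegral_mul_const _ hf]
    have h2 : Ioi (k * y) = Ioi (k * y) ∩ Ioi 0 := by
      ext s
      simp only [mem_Ioi, mem_inter_iff]
      exact ⟨fun h => ⟨h, lt_trans (mul_pos hk hy) h⟩, fun h => h.1⟩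
    rw [h2, ← Measure.restrict_restrict measurableSet_Ioi, ← lintegral_indicator measurableSet_Ioi]
    congr 1
  have h3 : ∀ s ∈ Ioi (0 : ℝ), f s * ∫⁻ y in Ioo 0 (s / k), g y =
      ∫⁻ y in Ioi (0 : ℝ), if k * y < s then f s * g y else 0 := by
    intro s hs
    rw [← lintegral_const_mul _ hg]
    have h2 : Ioo 0 (s / k) = Iio (s / k) ∩ Ioi 0 := by
      ext y
      simp only [mem_Ioo, mem_inter_iff, mem_Iio, mem_Ioi]
      exact ⟨fun h => ⟨h.2, h.1⟩, fun h => ⟨h.2, h.1⟩⟩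
    rw [h2, ← Measure.restrict_restrict measurableSet_Iio, ← lintegral_indicator measurableSet_Iio]
    congr 1
    funext y
    by_cases hy : k * y < s
    · have hy' : y < s / k := by rw [lt_div_iff₀ hk]; linarith
      rw [indicator_of_mem (show y ∈ Iio (s / k) from hy'), if_pos hy]
    · have hy' : ¬ y < s / k := by rw [lt_div_iff₀ hk]; intro h; exact hy (by linarith)
      rw [indicator_of_notMem (show y ∉ Iio (s / k) from hy'), if_neg hy]
  rw [setLIntegral_congr_fun measurableSet_Ioi h1, setLIntegral_congr_fun measurableSet_Ioi h3]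
  exact lintegral_lintegral_swap hm.aemeasurable

/-- the estimate for fixed `x` -/
theorem fix_LemM {τ : ℂ → ℝ} (hτm : Measurable τ) (hτ : ∀ w ∈ UH, 0 ≤ τ w) {B : ℝ} (hB : 0 ≤ B)
    (hb : ∀ w ∈ UH, τ w * Real.sinh w.im ^ 2 ≤ B) {k : ℝ} (hk : 1 ≤ k) {a : ℂ} (ha : ‖a‖ < 1)
    (x : ℝ) :
    ∫⁻ y in Ioi (0 : ℝ), ENNReal.ofReal ((∫ s in Ioi (k * y), τ (x + s * Complex.I)) *
      Real.exp (-y) * PW a (x + y * Complex.I)) ≤
    ENNReal.ofReal (54 / k) * (∫⁻ y in Ioi (0 : ℝ), ENNReal.ofReal (τ (x + y * Complex.I) *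
      (1 - Real.exp (-2 * y)) * PW a (x + y * Complex.I))) +
    ENNReal.ofReal (14 * B / √k) * ENNReal.ofReal
      ((1 - ‖a‖ ^ 2) / ‖1 - Complex.exp (-(x * Complex.I)) * a‖ ^ 2) := by
  have hk0 : 0 < k := by linarith
  obtain ⟨d, hd⟩ : ∃ d, d = ‖1 - Complex.exp (-(x * Complex.I)) * a‖ := ⟨_, rfl⟩
  have hbn : ‖Complex.exp (-(x * Complex.I)) * a‖ < 1 := by rw [normb_LemM]; exact ha
  have hd0 : 0 < d := by rw [hd]; exact (dpos_LemM hbn).1
  have ha2 : 0 ≤ 1 - ‖a‖ ^ 2 := by nlinarith [norm_nonneg a]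
  have hline : Measurable (fun s : ℝ => ((x : ℂ) + s * Complex.I)) := by fun_prop
  have hfm : Measurable (fun s : ℝ => ENNReal.ofReal (τ (x + s * Complex.I))) :=
    (hτm.comp hline).ennreal_ofReal
  have hPm : Measurable (fun s : ℝ => PW a (x + s * Complex.I)) := by
    unfold PW PP
    fun_prop
  have hgm : Measurable (fun y : ℝ => ENNReal.ofReal (Real.exp (-y) *
      PW a (x + y * Complex.I))) := by
    apply Measurable.ennreal_ofReal
    exact (by fun_prop : Measurable fun y : ℝ => Real.exp (-y)).mul hPm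
  have h1 : ∫⁻ y in Ioi (0 : ℝ), ENNReal.ofReal ((∫ s in Ioi (k * y), τ (x + s * Complex.I)) *
      Real.exp (-y) * PW a (x + y * Complex.I)) ≤
      ∫⁻ y in Ioi (0 : ℝ), (∫⁻ s in Ioi (k * y), ENNReal.ofReal (τ (x + s * Complex.I))) *
        ENNReal.ofReal (Real.exp (-y) * PW a (x + y * Complex.I)) := by
    apply setLIntegral_mono' measurableSet_Ioi
    intro y hy
    have h2 : 0 ≤ᵐ[volume.restrict (Ioi (k * y))] fun s : ℝ => τ (x + s * Complex.I) := by
      filter_upwards [ae_restrict_mem measurableSet_Ioi] with s hs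
      apply hτ
      change 0 < ((x : ℂ) + s * Complex.I).im
      have : 0 < s := lt_trans (mul_pos hk0 hy) hs
      simpa using this
    have h3 : (0 : ℝ) ≤ Real.exp (-y) * PW a (x + y * Complex.I) :=
      mul_nonneg (Real.exp_pos _).le (PWnn_LemM ha _)
    rw [mul_assoc, ENNReal.ofReal_mul' h3]
    gcongr
    rw [integral_eq_lintegral_of_nonneg_ae h2 (hτm.comp hline).aestronglyMeasurable]
    exact ENNReal.ofReal_toReal_le
  refine h1.trans ?_
  rw [swap_LemM hfm hgm hk0]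
  have h4 : ∫⁻ s in Ioi (0 : ℝ), ENNReal.ofReal (τ (x + s * Complex.I)) *
      ∫⁻ y in Ioo 0 (s / k), ENNReal.ofReal (Real.exp (-y) * PW a (x + y * Complex.I)) ≤
      ∫⁻ s in Ioi (0 : ℝ), (ENNReal.ofReal (54 / k * (τ (x + s * Complex.I) *
        (1 - Real.exp (-2 * s)) * PW a (x + s * Complex.I))) +
      (Ioi (d / 2)).indicator (fun s => ENNReal.ofReal
        (9 / 2 * B * (1 - ‖a‖ ^ 2) / (√k * (d * √d)) * s ^ (-(3 / 2) : ℝ))) s) := by
    apply setLIntegral_mono' measurableSet_Ioi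
    intro s hs
    refine le_trans ?_ (pt_LemM hτ hB hb hk ha x hd hs)
    gcongr
    exact K_LemM ha x (div_pos hs hk0) hd
  refine h4.trans ?_
  have hind : Measurable ((Ioi (d / 2)).indicator (fun s : ℝ => ENNReal.ofReal
        (9 / 2 * B * (1 - ‖a‖ ^ 2) / (√k * (d * √d)) * s ^ (-(3 / 2) : ℝ)))) := by
    apply Measurable.indicator _ measurableSet_Ioi
    apply Measurable.ennreal_ofReal
    fun_prop
  rw [lintegral_add_right _ hind]
  have h5 : ∫⁻ s in Ioi (0 : ℝ), (Ioi (d / 2)).indicator (fun s : ℝ => ENNReal.ofReal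
        (9 / 2 * B * (1 - ‖a‖ ^ 2) / (√k * (d * √d)) * s ^ (-(3 / 2) : ℝ))) s ≤
      ENNReal.ofReal (14 * B / √k) * ENNReal.ofReal ((1 - ‖a‖ ^ 2) / d ^ 2) := by
    have hc0 : 0 ≤ 9 / 2 * B * (1 - ‖a‖ ^ 2) / (√k * (d * √d)) := by positivity
    calc _ ≤ ∫⁻ s, (Ioi (d / 2)).indicator (fun s : ℝ => ENNReal.ofReal
          (9 / 2 * B * (1 - ‖a‖ ^ 2) / (√k * (d * √d)) * s ^ (-(3 / 2) : ℝ))) s :=
          setLIntegral_le_lintegral _ _
      _ = ∫⁻ s in Ioi (d / 2), ENNReal.ofReal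
          (9 / 2 * B * (1 - ‖a‖ ^ 2) / (√k * (d * √d)) * s ^ (-(3 / 2) : ℝ)) :=
          lintegral_indicator measurableSet_Ioi _
      _ = ENNReal.ofReal (9 / 2 * B * (1 - ‖a‖ ^ 2) / (√k * (d * √d)) *
          (2 * (d / 2) ^ (-(1 / 2) : ℝ))) := pow_LemM hc0 (by positivity)
      _ ≤ _ := by
          rw [← ENNReal.ofReal_mul (by positivity)]
          apply ENNReal.ofReal_le_ofReal
          have hsd0 : 0 < √d := Real.sqrt_pos.2 hd0
          have hskk : 0 < √k := Real.sqrt_pos.2 hk0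
          have h6 : (d / 2) ^ (-(1 / 2) : ℝ) = √2 / √d := by
            rw [Real.rpow_neg (by positivity), ← Real.sqrt_eq_rpow, Real.sqrt_div hd0.le, inv_div]
          have h7 : √2 ≤ 3 / 2 := by
            rw [Real.sqrt_le_left (by norm_num)]; norm_num
          rw [h6]
          have h8 : 9 / 2 * B * (1 - ‖a‖ ^ 2) / (√k * (d * √d)) * (2 * (√2 / √d)) =
              9 * √2 * B * (1 - ‖a‖ ^ 2) / (√k * (d * (√d * √d))) := by
            field_simp
          rw [h8, Real.mul_self_sqrt hd0.le]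
          calc 9 * √2 * B * (1 - ‖a‖ ^ 2) / (√k * (d * d))
              ≤ 9 * (3 / 2) * B * (1 - ‖a‖ ^ 2) / (√k * (d * d)) := by gcongr
            _ ≤ 14 * B * (1 - ‖a‖ ^ 2) / (√k * (d * d)) := by
                gcongr
                norm_num
            _ = 14 * B / √k * ((1 - ‖a‖ ^ 2) / d ^ 2) := by
                field_simp
  rw [← hd]
  refine add_le_add (le_of_eq ?_) h5
  rw [← lintegral_const_mul' _ _ ENNReal.ofReal_ne_top]
  congr 1
  funext s
  rw [← ENNReal.ofReal_mul (by positivity)]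

theorem lemM : S_lemM := by
  refine ⟨200, by norm_num, ?_⟩
  intro τ hτm hτ B hB hb hE k hk
  refine ⟨fun w hw => part1_LemM hτm hτ hB hb hk hw, fun a ha => ?_⟩
  have ha1 : ‖a‖ < 1 := by simpa using ha
  have hk0 : 0 < k := by linarith
  have ha2 : 0 ≤ 1 - ‖a‖ ^ 2 := by nlinarith [norm_nonneg a]
  have hskk : 0 < √k := Real.sqrt_pos.2 hk0
  obtain ⟨hpi, hpe⟩ := poisson_LemM ha1
  have hmeas : Measurable (fun x : ℝ => ENNReal.ofReal (14 * B / √k) * ENNReal.ofReal
      ((1 - ‖a‖ ^ 2) / ‖1 - Complex.exp (-(x * Complex.I)) * a‖ ^ 2)) := by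
    apply Measurable.const_mul
    apply Measurable.ennreal_ofReal
    fun_prop
  calc ∫⁻ x in Ioo (-Real.pi) Real.pi, ∫⁻ y in Ioi (0 : ℝ),
        ENNReal.ofReal ((∫ s in Ioi (k * y), τ (x + s * Complex.I)) * Real.exp (-y) *
          PW a (x + y * Complex.I))
      ≤ ∫⁻ x in Ioo (-Real.pi) Real.pi, (ENNReal.ofReal (54 / k) *
        (∫⁻ y in Ioi (0 : ℝ), ENNReal.ofReal (τ (x + y * Complex.I) *
          (1 - Real.exp (-2 * y)) * PW a (x + y * Complex.I))) +
        ENNReal.ofReal (14 * B / √k) * ENNReal.ofReal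
          ((1 - ‖a‖ ^ 2) / ‖1 - Complex.exp (-(x * Complex.I)) * a‖ ^ 2)) :=
        lintegral_mono fun x => fix_LemM hτm hτ hB hb hk ha1 x
    _ = ENNReal.ofReal (54 / k) * En τ a + ENNReal.ofReal (14 * B / √k) *
        ENNReal.ofReal (2 * Real.pi) := by
        rw [lintegral_add_right _ hmeas, lintegral_const_mul' _ _ ENNReal.ofReal_ne_top,
          lintegral_const_mul' _ _ ENNReal.ofReal_ne_top, ← hpe,
          ofReal_integral_eq_lintegral_ofReal hpi (Eventually.of_forall fun x => by positivity)]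
        rfl
    _ ≤ ENNReal.ofReal (54 / k) * ENNReal.ofReal B + ENNReal.ofReal (14 * B / √k) *
        ENNReal.ofReal (2 * Real.pi) := by
        gcongr
        exact hE a ha
    _ ≤ ENNReal.ofReal (200 * B / √k) := by
        rw [← ENNReal.ofReal_mul (by positivity), ← ENNReal.ofReal_mul (by positivity),
          ← ENNReal.ofReal_add (by positivity) (by positivity)]
        apply ENNReal.ofReal_le_ofReal
        have h1 : √k ≤ k := by
          rw [Real.sqrt_le_left hk0.le]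
          nlinarith
        have h2 : 54 / k * B ≤ 54 * B / √k := by
          rw [div_mul_eq_mul_div]
          gcongr
        have h3 : 14 * B / √k * (2 * Real.pi) ≤ 14 * B / √k * (2 * 4) := by
          gcongr
          exact Real.pi_le_four
        calc 54 / k * B + 14 * B / √k * (2 * Real.pi)
            ≤ 54 * B / √k + 14 * B / √k * (2 * 4) := add_le_add h2 h3
          _ = 166 * B / √k := by ring
          _ ≤ 200 * B / √k := by gcongr; norm_num

end Pool.Agent.H843
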