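import Pool.Agent.H843.Stmts

set_option autoImplicit false

namespace Pool.Agent.H843

open MeasureTheory Filter Topology Metric Set
open scoped ComplexConjugate ENNReal
open Pool.Agent.Helper34.Dg
open Pool.Agent.H720R2.HP (WD db)

lemma PPnn_MajW {a : ℂ} (ha : a ∈ disc) (ω : ℂ) : 0 ≤ PP a ω := by
  unfold PP
  have h : ‖a‖ < 1 := by simpa using ha
  have : 0 ≤ 1 - ‖a‖ ^ 2 := by nlinarith [norm_nonneg a]
  positivity

lemma PPmeas_MajW (a : ℂ) : Measurable (PP a) := by
  unfold PP
  fun_prop

lemma PWmeas_MajW (a : ℂ) : Measurable (PW a) := by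
  unfold PW
  exact (PPmeas_MajW a).comp (by fun_prop)

lemma PWnn_MajW {a : ℂ} (ha : a ∈ disc) (w : ℂ) : 0 ≤ PW a w := PPnn_MajW ha _

lemma UHmk_MajW (x : ℝ) {y : ℝ} (hy : 0 < y) : ((x : ℂ) + y * Complex.I) ∈ UH := by
  simpa [UH] using hy

/-- point and Carleson type bound for a density in the coordinate `w` -/
structure Good_MajW (M : ℂ → ℝ) (c : ℝ) : Prop where
  meas : Measurable M
  nn : ∀ w ∈ UH, 0 ≤ M w
  c0 : 0 ≤ c
  pt : ∀ w ∈ UH, 2 * Real.sinh w.im * M w ≤ c
  carl : ∀ a ∈ disc, ∫⁻ x in Ioo (-Real.pi) Real.pi, ∫⁻ y in Ioi (0 : ℝ),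
    ENNReal.ofReal (M (x + y * Complex.I) * Real.exp (-y) * PW a (x + y * Complex.I)) ≤
      ENNReal.ofReal c

lemma integrand_meas_MajW {M : ℂ → ℝ} (hM : Measurable M) (a : ℂ) :
    Measurable (Function.uncurry fun x y : ℝ =>
      ENNReal.ofReal (M (x + y * Complex.I) * Real.exp (-y) * PW a (x + y * Complex.I))) := by
  apply ENNReal.measurable_ofReal.comp
  have h1 : Measurable fun p : ℝ × ℝ => ((p.1 : ℂ) + p.2 * Complex.I) := by fun_prop
  have h2 : Measurable fun p : ℝ × ℝ => Real.exp (-p.2) := by fun_prop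
  exact ((hM.comp h1).mul h2).mul ((PWmeas_MajW a).comp h1)

lemma Good_add_MajW {M M' : ℂ → ℝ} {c c' : ℝ} (h : Good_MajW M c) (h' : Good_MajW M' c') :
    Good_MajW (fun w => M w + M' w) (c + c') where
  meas := h.meas.add h'.meas
  nn := fun w hw => add_nonneg (h.nn w hw) (h'.nn w hw)
  c0 := add_nonneg h.c0 h'.c0
  pt := fun w hw => by
    have := h.pt w hw
    have := h'.pt w hw
    nlinarith
  carl := fun a ha => by
    rw [ENNReal.ofReal_add h.c0 h'.c0]
    refine le_trans (le_of_eq ?_) (add_le_add (h.carl a ha) (h'.carl a ha))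
    have m1 := integrand_meas_MajW h.meas a
    rw [← lintegral_add_left]
    · refine setLIntegral_congr_fun measurableSet_Ioo (fun x _ => ?_)
      rw [← lintegral_add_left]
      · refine setLIntegral_congr_fun measurableSet_Ioi (fun y hy => ?_)
        rw [← ENNReal.ofReal_add]
        · ring_nf
        · exact mul_nonneg (mul_nonneg (h.nn _ (UHmk_MajW x hy)) (Real.exp_pos _).le)
            (PWnn_MajW ha _)
        · exact mul_nonneg (mul_nonneg (h'.nn _ (UHmk_MajW x hy)) (Real.exp_pos _).le)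
            (PWnn_MajW ha _)
      · exact m1.comp measurable_prodMk_left
    · exact Measurable.lintegral_prod_right m1

lemma Good_mono_MajW {M M' : ℂ → ℝ} {c c' : ℝ} (h : Good_MajW M c) (hm : Measurable M')
    (h0 : ∀ w ∈ UH, 0 ≤ M' w) (hle : ∀ w ∈ UH, M' w ≤ M w) (hc : c ≤ c') : Good_MajW M' c' where
  meas := hm
  nn := h0
  c0 := h.c0.trans hc
  pt := fun w hw => by
    refine le_trans ?_ ((h.pt w hw).trans hc)
    have hs : 0 < Real.sinh w.im := Real.sinh_pos_iff.2 hw
    exact mul_le_mul_of_nonneg_left (hle w hw) (by positivity)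
  carl := fun a ha => by
    refine le_trans ?_ ((h.carl a ha).trans (ENNReal.ofReal_le_ofReal hc))
    refine setLIntegral_mono' measurableSet_Ioo (fun x _ => ?_)
    refine setLIntegral_mono' measurableSet_Ioi (fun y hy => ?_)
    refine ENNReal.ofReal_le_ofReal ?_
    refine mul_le_mul_of_nonneg_right ?_ (PWnn_MajW ha _)
    exact mul_le_mul_of_nonneg_right (hle _ (UHmk_MajW x hy)) (Real.exp_pos _).le

lemma lwmeas_MajW : Measurable lw := by
  unfold lw
  exact Complex.measurable_log.const_mul _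

lemma lw_im_MajW (z : ℂ) : (lw z).im = - Real.log ‖z‖ := by
  simp [lw, Complex.log_re]

lemma lw_UH_MajW {z : ℂ} (hz : z ∈ disc) (h0 : z ≠ 0) : lw z ∈ UH := by
  have h : ‖z‖ < 1 := by simpa using hz
  have hp : 0 < ‖z‖ := norm_pos_iff.2 h0
  show 0 < (lw z).im
  rw [lw_im_MajW]
  have := Real.log_neg hp h
  linarith

lemma lw_exp_MajW {x y : ℝ} (hx : x ∈ Ioo (-Real.pi) Real.pi) :
    lw (Complex.exp (Complex.I * (x + y * Complex.I))) = x + y * Complex.I := by
  unfold lw
  rw [Complex.log_exp]
  · linear_combination (-(x + y * Complex.I) : ℂ) * Complex.I_mul_I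
  · simpa using hx.1
  · simpa using hx.2.le

lemma norm_exp_MajW (x y : ℝ) :
    ‖Complex.exp (Complex.I * (x + y * Complex.I))‖ = Real.exp (-y) := by
  rw [Complex.norm_exp]
  simp

open Classical in
/-- the function on the disc attached to a density in the coordinate `w` -/
noncomputable def ZM_MajW (M : ℂ → ℝ) (z : ℂ) : ℝ :=
  if z ∈ disc ∧ z ≠ 0 then M (lw z) / ‖z‖ else 0

open Classical in
lemma Maj_of_Good_MajW (h1 : S_polar) {M : ℂ → ℝ} {c : ℝ} (h : Good_MajW M c) :
    Maj (ZM_MajW M) c := by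
  have e : ZM_MajW M = fun z => if z ∈ disc ∧ z ≠ 0 then M (lw z) / ‖z‖ else 0 := by
    funext z
    rfl
  rw [e]
  have hmeas : Measurable (fun z => if z ∈ disc ∧ z ≠ 0 then M (lw z) / ‖z‖ else 0) := by
    refine Measurable.ite ?_ ?_ measurable_const
    · exact (measurableSet_ball).inter (measurableSet_singleton (0 : ℂ)).compl
    · exact (h.meas.comp lwmeas_MajW).div measurable_norm
  refine ⟨hmeas, ?_, ?_, ?_⟩
  · intro z
    split_ifs with hz
    · exact div_nonneg (h.nn _ (lw_UH_MajW hz.1 hz.2)) (norm_nonneg _)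
    · exact le_rfl
  · intro z hz
    split_ifs with hz'
    · have hw := lw_UH_MajW hz'.1 hz'.2
      have hp : 0 < ‖z‖ := norm_pos_iff.2 hz'.2
      have e1 : Real.exp (-(lw z).im) = ‖z‖ := by
        rw [lw_im_MajW, neg_neg, Real.exp_log hp]
      have e2 : Real.exp ((lw z).im) = ‖z‖⁻¹ := by
        rw [← e1, Real.exp_neg, inv_inv]
      refine le_trans (le_of_eq ?_) (h.pt _ hw)
      rw [Real.sinh_eq, e1, e2]
      field_simp
    · simpa using h.c0
  · intro a ha
    have hm2 : Measurable fun ω : ℂ => ENNReal.ofReal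
        ((if ω ∈ disc ∧ ω ≠ 0 then M (lw ω) / ‖ω‖ else 0) * PP a ω) :=
      ENNReal.measurable_ofReal.comp (hmeas.mul (PPmeas_MajW a))
    rw [h1 _ hm2]
    refine le_trans (le_of_eq ?_) (h.carl a ha)
    refine setLIntegral_congr_fun measurableSet_Ioo (fun x hx => ?_)
    refine setLIntegral_congr_fun measurableSet_Ioi (fun y hy => ?_)
    have hn := norm_exp_MajW x y
    have hy' : 0 < y := hy
    have hd : Complex.exp (Complex.I * (x + y * Complex.I)) ∈ disc ∧
        Complex.exp (Complex.I * (x + y * Complex.I)) ≠ 0 := by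
      refine ⟨?_, Complex.exp_ne_zero _⟩
      rw [mem_ball_zero_iff, hn]
      calc Real.exp (-y) < Real.exp 0 := Real.exp_lt_exp.2 (by linarith)
        _ = 1 := Real.exp_zero
    rw [if_pos hd, lw_exp_MajW hx, hn, ← ENNReal.ofReal_mul']
    · congr 1
      have e3 : Real.exp (-2 * y) = Real.exp (-y) * Real.exp (-y) := by
        rw [← Real.exp_add]; ring_nf
      have := Real.exp_pos (-y)
      rw [e3]
      unfold PW
      field_simp
    · exact (Real.exp_pos _).le

/-- bounds for a density `τ` -/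
structure Den_MajW (τ : ℂ → ℝ) (B : ℝ) : Prop where
  meas : Measurable τ
  nn : ∀ w ∈ UH, 0 ≤ τ w
  B0 : 0 ≤ B
  pt : ∀ w ∈ UH, τ w * Real.sinh w.im ^ 2 ≤ B
  en : ∀ a ∈ disc, En τ a ≤ ENNReal.ofReal B

lemma self_le_sinh_MajW {y : ℝ} (hy : 0 < y) : y ≤ Real.sinh y :=
  (Real.self_lt_sinh_iff.2 hy).le

lemma y_exp_MajW {y : ℝ} (hy : 0 < y) : y * Real.exp (-y) ≤ (1 - Real.exp (-2 * y)) / 2 := by
  have h := self_le_sinh_MajW hy
  rw [Real.sinh_eq] at h
  have e3 : Real.exp (-2 * y) = Real.exp (-y) * Real.exp (-y) := by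
    rw [← Real.exp_add]; ring_nf
  have e4 : Real.exp y * Real.exp (-y) = 1 := by
    rw [← Real.exp_add]; simp
  have := Real.exp_pos (-y)
  rw [e3]
  nlinarith

lemma Good_first_MajW {κ : ℝ} (hκ : 0 < κ) {τ : ℂ → ℝ} {B : ℝ} (h : Den_MajW τ B) :
    Good_MajW (fun w => κ * w.im * τ w) (2 * κ * B) where
  meas := by
    have := h.meas
    have h2 : Measurable fun w : ℂ => κ * w.im := by fun_prop
    exact h2.mul this
  nn := fun w hw => by
    have : 0 < w.im := hw
    exact mul_nonneg (by positivity) (h.nn w hw)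
  c0 := by have := h.B0; positivity
  pt := fun w hw => by
    have hy : 0 < w.im := hw
    have hs : 0 < Real.sinh w.im := Real.sinh_pos_iff.2 hw
    have h1 := self_le_sinh_MajW hy
    have h2 := h.pt w hw
    have h3 := h.nn w hw
    calc 2 * Real.sinh w.im * (κ * w.im * τ w)
        = 2 * κ * (τ w * (Real.sinh w.im * w.im)) := by ring
      _ ≤ 2 * κ * (τ w * (Real.sinh w.im * Real.sinh w.im)) := by gcongr
      _ = 2 * κ * (τ w * Real.sinh w.im ^ 2) := by ring
      _ ≤ 2 * κ * B := by gcongr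
  carl := fun a ha => by
    have hen := h.en a ha
    have hB := h.B0
    have key : ∫⁻ x in Ioo (-Real.pi) Real.pi, ∫⁻ y in Ioi (0 : ℝ),
        ENNReal.ofReal ((κ * ((x : ℂ) + y * Complex.I).im * τ (x + y * Complex.I)) *
          Real.exp (-y) * PW a (x + y * Complex.I)) ≤ ENNReal.ofReal (κ / 2) * En τ a := by
      unfold En
      rw [← lintegral_const_mul']
      · refine setLIntegral_mono' measurableSet_Ioo (fun x _ => ?_)
        rw [← lintegral_const_mul']
        · refine setLIntegral_mono' measurableSet_Ioi (fun y hy => ?_)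
          rw [← ENNReal.ofReal_mul (by positivity)]
          refine ENNReal.ofReal_le_ofReal ?_
          have hw := UHmk_MajW x hy
          have i1 := h.nn _ hw
          have i2 := PWnn_MajW ha (x + y * Complex.I)
          have i3 := y_exp_MajW hy
          have i4 : ((x : ℂ) + y * Complex.I).im = y := by simp
          rw [i4]
          have i5 : (0 : ℝ) ≤ κ * τ (x + y * Complex.I) * PW a (x + y * Complex.I) :=
            mul_nonneg (mul_nonneg hκ.le i1) i2
          nlinarith [mul_le_mul_of_nonneg_left i3 i5]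
        · exact ENNReal.ofReal_ne_top
      · exact ENNReal.ofReal_ne_top
    refine key.trans ?_
    calc ENNReal.ofReal (κ / 2) * En τ a ≤ ENNReal.ofReal (κ / 2) * ENNReal.ofReal B := by gcongr
      _ = ENNReal.ofReal (κ / 2 * B) := by rw [ENNReal.ofReal_mul (by positivity)]
      _ ≤ ENNReal.ofReal (2 * κ * B) := by
        refine ENNReal.ofReal_le_ofReal ?_
        nlinarith [mul_nonneg hκ.le hB]

/-- tail of the vertical integral -/
noncomputable def tail_MajW (k : ℝ) (τ : ℂ → ℝ) (w : ℂ) : ℝ :=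
  ∫ s in Ioi (k * w.im), τ (w.re + s * Complex.I)

lemma tail_meas_MajW (k : ℝ) {τ : ℂ → ℝ} (h : Measurable τ) : Measurable (tail_MajW k τ) := by
  have e : tail_MajW k τ = fun w : ℂ => ∫ s : ℝ,
      (if k * w.im < s then τ (w.re + s * Complex.I) else 0) := by
    funext w
    unfold tail_MajW
    rw [← integral_indicator measurableSet_Ioi]
    rfl
  rw [e]
  have hm : Measurable (Function.uncurry fun (w : ℂ) (s : ℝ) =>
      (if k * w.im < s then τ (w.re + s * Complex.I) else 0 : ℝ)) := by
    refine Measurable.ite ?_ ?_ measurable_const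
    · exact measurableSet_lt (by fun_prop) (by fun_prop)
    · exact h.comp (by fun_prop)
  exact (hm.stronglyMeasurable.integral_prod_right).measurable

lemma tail_one_MajW (τ : ℂ → ℝ) : tail_MajW 1 τ = vint τ := by
  funext w
  simp [tail_MajW, vint]

lemma Good_tail_MajW {C : ℝ} (hC : 0 < C)
    (h2 : ∀ τ : ℂ → ℝ, Measurable τ → (∀ w ∈ UH, 0 ≤ τ w) →
      ∀ B : ℝ, 0 ≤ B → (∀ w ∈ UH, τ w * Real.sinh w.im ^ 2 ≤ B) →
      (∀ a ∈ disc, En τ a ≤ ENNReal.ofReal B) → ∀ k : ℝ, 1 ≤ k →
      (∀ w ∈ UH, Real.sinh w.im * ∫ s in Ioi (k * w.im), τ (w.re + s * Complex.I) ≤ B / k) ∧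
      ∀ a ∈ disc, ∫⁻ x in Ioo (-Real.pi) Real.pi, ∫⁻ y in Ioi (0 : ℝ),
        ENNReal.ofReal ((∫ s in Ioi (k * y), τ (x + s * Complex.I)) * Real.exp (-y) *
          PW a (x + y * Complex.I)) ≤ ENNReal.ofReal (C * B / Real.sqrt k))
    {τ : ℂ → ℝ} {B : ℝ} (h : Den_MajW τ B) {k : ℝ} (hk : 1 ≤ k) :
    Good_MajW (tail_MajW k τ) ((2 + C) * B / Real.sqrt k) := by
  obtain ⟨g1, g2⟩ := h2 τ h.meas h.nn B h.B0 h.pt h.en k hk
  have hB := h.B0
  have hk0 : 0 < k := by linarith
  have hsk : 0 < Real.sqrt k := Real.sqrt_pos.2 hk0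
  refine ⟨tail_meas_MajW k h.meas, ?_, by positivity, ?_, ?_⟩
  · intro w hw
    have hy : 0 < w.im := hw
    refine setIntegral_nonneg measurableSet_Ioi (fun s hs => ?_)
    refine h.nn _ (UHmk_MajW _ ?_)
    have : k * w.im < s := hs
    nlinarith
  · intro w hw
    have i1 := g1 w hw
    have hkk : Real.sqrt k ≤ k := by
      rw [Real.sqrt_le_left hk0.le]
      nlinarith
    have i2 : B / k ≤ B / Real.sqrt k := by gcongr
    have i3 : (2 + C) * B / Real.sqrt k = 2 * (B / Real.sqrt k) + C * (B / Real.sqrt k) := by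
      ring
    have i4 : 0 ≤ C * (B / Real.sqrt k) := by positivity
    rw [i3]
    unfold tail_MajW
    nlinarith
  · intro a ha
    have i1 := g2 a ha
    have e : ∀ x y : ℝ, tail_MajW k τ (x + y * Complex.I) =
        ∫ s in Ioi (k * y), τ (x + s * Complex.I) := by
      intro x y
      simp [tail_MajW]
    simp only [e]
    refine i1.trans (ENNReal.ofReal_le_ofReal ?_)
    have : C * B ≤ (2 + C) * B := by nlinarith
    gcongr

/-- truncated density -/
noncomputable def sgT_MajW (σ u : ℂ → ℝ) (η : ℝ) (w : ℂ) : ℝ := if u w < η then σ w else 0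

lemma Den_avg_MajW (h3 : S_horiz) {κ : ℝ} (hκ : 0 < κ) (hκ2 : κ ≤ 1 / 2) {σ : ℂ → ℝ}
    (hσ : Measurable σ) (hσ0 : ∀ w ∈ UH, 0 ≤ σ w)
    (hσp : ∀ w ∈ UH, σ (w + 2 * Real.pi) = σ w) {B₁ B₂ : ℝ} (hB₁ : 0 ≤ B₁) (hB₂ : 0 ≤ B₂)
    (hσB : ∀ w ∈ UH, σ w * Real.sinh w.im ^ 2 ≤ B₁)
    (hen : ∀ a ∈ disc, En σ a ≤ ENNReal.ofReal B₂) :
    Den_MajW (avg κ σ) (B₁ + 4 * B₂) := by
  have hbd : ∀ y : ℝ, 0 < y → ∀ x : ℝ, σ (x + y * Complex.I) ≤ B₁ / Real.sinh y ^ 2 := by
    intro y hy x
    have hs : 0 < Real.sinh y := Real.sinh_pos_iff.2 hy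
    rw [le_div_iff₀ (by positivity)]
    have := hσB _ (UHmk_MajW x hy)
    simpa using this
  obtain ⟨m, nn, mx, en⟩ := h3 κ hκ hκ2 σ hσ hσ0 hσp
    (fun y hy => ⟨B₁ / Real.sinh y ^ 2, hbd y hy⟩)
  refine ⟨m, nn, by positivity, ?_, ?_⟩
  · intro w hw
    have hy : 0 < w.im := hw
    have hs : 0 < Real.sinh w.im := Real.sinh_pos_iff.2 hy
    have i1 := mx w hw (B₁ / Real.sinh w.im ^ 2) (fun u _ => hbd w.im hy u)
    rw [le_div_iff₀ (by positivity)] at i1
    linarith
  · intro a ha
    calc En (avg κ σ) a ≤ 4 * En σ a := en a ha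
      _ ≤ 4 * ENNReal.ofReal B₂ := by gcongr; exact hen a ha
      _ = ENNReal.ofReal (4 * B₂) := by
        rw [ENNReal.ofReal_mul (by norm_num)]
        norm_num
      _ ≤ ENNReal.ofReal (B₁ + 4 * B₂) := ENNReal.ofReal_le_ofReal (by linarith)

lemma avg_congr_MajW {κ : ℝ} {f g : ℂ → ℝ} {w : ℂ}
    (h : ∀ x : ℝ, |x - w.re| ≤ κ * w.im → f (x + w.im * Complex.I) = g (x + w.im * Complex.I)) :
    avg κ f w = avg κ g w := by
  unfold avg
  congr 1
  refine setIntegral_congr_fun measurableSet_Icc (fun x hx => ?_)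
  apply h
  rw [abs_le]
  constructor
  · linarith [hx.1]
  · linarith [hx.2]

lemma Den_int_MajW {τ : ℂ → ℝ} {B : ℝ} (h : Den_MajW τ B) (x : ℝ) {y : ℝ} (hy : 0 < y) :
    IntegrableOn (fun s : ℝ => τ (x + s * Complex.I)) (Ioi y) := by
  have h0 : IntegrableOn (fun s : ℝ => B * s ^ (-2 : ℝ)) (Ioi y) :=
    (integrableOn_Ioi_rpow_of_lt (by norm_num) hy).const_mul B
  refine Integrable.mono' h0 ?_ ?_
  · exact (h.meas.comp (by fun_prop)).aestronglyMeasurable
  · refine (ae_restrict_mem measurableSet_Ioi).mono (fun s hs => ?_)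
    have hs' : y < s := hs
    have hs0 : 0 < s := by linarith
    have hw := UHmk_MajW x hs0
    have i1 := h.nn _ hw
    have i2 := h.pt _ hw
    have i3 : ((x : ℂ) + s * Complex.I).im = s := by simp
    rw [i3] at i2
    have i4 := self_le_sinh_MajW hs0
    rw [Real.norm_of_nonneg i1, Real.rpow_neg hs0.le, ← div_eq_mul_inv, Real.rpow_two,
      le_div_iff₀ (by positivity)]
    have i5 : s ^ 2 ≤ Real.sinh s ^ 2 := by gcongr
    nlinarith [mul_le_mul_of_nonneg_left i5 i1]

theorem majw (h1 : S_polar) (h2 : S_lemM) (h3 : S_horiz) : S_majw := by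
  intro κ s₁ K hκ hκ2 hs hs1 hK
  obtain ⟨C, hC, h2⟩ := h2
  obtain ⟨b, hbdef⟩ : ∃ b : ℝ, b = 1 / s₁ + 4 * K := ⟨_, rfl⟩
  have hb : 0 < b := by rw [hbdef]; positivity
  refine ⟨2 * κ * (b * 2) + (2 + C) * (b * 2) / Real.sqrt 1, by positivity, ?_⟩
  intro σ u hσ hu hσ0 hu0 hσp hup hσu hen hux huy
  have den : ∀ η : ℝ, 0 < η → Den_MajW (avg κ (sgT_MajW σ u η)) (b * η) := by
    intro η hη
    have e : b * η = η / s₁ + 4 * (K * η) := by rw [hbdef]; ring
    rw [e]
    refine Den_avg_MajW h3 hκ hκ2 ?_ ?_ ?_ (by positivity) (by positivity) ?_ (hen η hη)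
    · exact Measurable.ite (measurableSet_lt hu measurable_const) hσ measurable_const
    · intro w hw
      unfold sgT_MajW
      split_ifs
      · exact hσ0 w hw
      · exact le_rfl
    · intro w hw
      unfold sgT_MajW
      rw [hup w hw, hσp w hw]
    · intro w hw
      unfold sgT_MajW
      split_ifs with hc
      · rw [le_div_iff₀ hs]
        have := hσu w hw
        linarith
      · simp only [zero_mul]
        positivity
  have dτ : Den_MajW (avg κ σ) (b * 2) := by
    have e : b * 2 = 2 / s₁ + 4 * (K * 2) := by rw [hbdef]; ring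
    rw [e]
    refine Den_avg_MajW h3 hκ hκ2 hσ hσ0 hσp (by positivity) (by positivity) ?_ ?_
    · intro w hw
      rw [le_div_iff₀ hs]
      have := hσu w hw
      have := (hu0 w hw).2
      linarith
    · intro a ha
      refine le_trans ?_ (hen 2 (by norm_num) a ha)
      unfold En
      refine setLIntegral_mono' measurableSet_Ioo (fun x _ => ?_)
      refine setLIntegral_mono' measurableSet_Ioi (fun y hy => ?_)
      have := (hu0 _ (UHmk_MajW x hy)).2
      beta_reduce
      rw [if_pos (by linarith)]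
  have hgood : Good_MajW (fun w => κ * w.im * avg κ σ w + tail_MajW 1 (avg κ σ) w)
      (2 * κ * (b * 2) + (2 + C) * (b * 2) / Real.sqrt 1) :=
    Good_add_MajW (Good_first_MajW hκ dτ) (Good_tail_MajW hC h2 dτ le_rfl)
  constructor
  · have e : NZ κ σ = ZM_MajW
        (fun w : ℂ => κ * w.im * avg κ σ w + tail_MajW 1 (avg κ σ) w) := by
      funext z
      unfold NZ ZM_MajW
      rw [tail_one_MajW]
    rw [e]
    exact Maj_of_Good_MajW h1 hgood
  · intro κ₁ hκ₁
    obtain ⟨k, hkdef⟩ : ∃ k : ℝ, k = max 1 ((2 * ((2 + C) * (b * 2)) / κ₁) ^ 2) := ⟨_, rfl⟩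
    have hk : 1 ≤ k := by rw [hkdef]; exact le_max_left _ _
    have hk0 : 0 < k := by linarith
    have hsk : 0 < Real.sqrt k := Real.sqrt_pos.2 hk0
    have hkb : (2 + C) * (b * 2) / Real.sqrt k ≤ κ₁ / 2 := by
      have i1 : 2 * ((2 + C) * (b * 2)) / κ₁ ≤ Real.sqrt k := by
        apply Real.le_sqrt_of_sq_le
        rw [hkdef]
        exact le_max_right _ _
      rw [div_le_iff₀ hκ₁] at i1
      rw [div_le_iff₀ hsk]
      linarith
    obtain ⟨D, hDdef⟩ : ∃ D : ℝ, D = 2 * κ * (b * 6) + (2 + C) * (b * (25 * k)) := ⟨_, rfl⟩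
    have hD : 0 < D := by rw [hDdef]; positivity
    obtain ⟨η, hηdef⟩ : ∃ η : ℝ, η = κ₁ / (2 * D) := ⟨_, rfl⟩
    have hη : 0 < η := by rw [hηdef]; positivity
    have hDη : D * η = κ₁ / 2 := by rw [hηdef]; field_simp
    refine ⟨η, hη, ?_⟩
    have d1 := den (6 * η) (by positivity)
    have d2 := den (25 * k * η) (by positivity)
    have good2 : Good_MajW (fun w => κ * w.im * avg κ (sgT_MajW σ u (6 * η)) w +
        tail_MajW 1 (avg κ (sgT_MajW σ u (25 * k * η))) w + tail_MajW k (avg κ σ) w)
        (2 * κ * (b * (6 * η)) + (2 + C) * (b * (25 * k * η)) / Real.sqrt 1 +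
          (2 + C) * (b * 2) / Real.sqrt k) :=
      Good_add_MajW (Good_add_MajW (Good_first_MajW hκ d1) (Good_tail_MajW hC h2 d2 le_rfl))
        (Good_tail_MajW hC h2 dτ hk)
    have hc : 2 * κ * (b * (6 * η)) + (2 + C) * (b * (25 * k * η)) / Real.sqrt 1 +
          (2 + C) * (b * 2) / Real.sqrt k ≤ κ₁ := by
      rw [Real.sqrt_one, div_one]
      have : 2 * κ * (b * (6 * η)) + (2 + C) * (b * (25 * k * η)) = D * η := by
        rw [hDdef]; ring
      linarith
    have hmτ : Measurable fun w : ℂ => κ * w.im * avg κ σ w + tail_MajW 1 (avg κ σ) w :=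
      hgood.meas
    have good3 : Good_MajW (fun w => if u w < η then
        κ * w.im * avg κ σ w + tail_MajW 1 (avg κ σ) w else 0) κ₁ := by
      refine Good_mono_MajW good2 ?_ ?_ ?_ hc
      · exact Measurable.ite (measurableSet_lt hu measurable_const) hmτ measurable_const
      · intro w hw
        split_ifs
        · exact hgood.nn w hw
        · exact le_rfl
      · intro w hw
        have hy : 0 < w.im := hw
        split_ifs with hc'
        · have e1 : avg κ σ w = avg κ (sgT_MajW σ u (6 * η)) w := by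
            apply avg_congr_MajW
            intro x hx
            have hx' : |x - w.re| ≤ w.im / 2 := by
              refine hx.trans ?_
              nlinarith
            have := hux w hw x hx'
            unfold sgT_MajW
            rw [if_pos (by linarith)]
          have e2 : tail_MajW 1 (avg κ σ) w ≤ tail_MajW 1 (avg κ (sgT_MajW σ u (25 * k * η))) w +
              tail_MajW k (avg κ σ) w := by
            have hle : 1 * w.im ≤ k * w.im := by gcongr
            have hy1 : 0 < 1 * w.im := by linarith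
            have hy2 : 0 < k * w.im := by positivity
            have I1 : IntegrableOn (fun s : ℝ => avg κ σ (w.re + s * Complex.I))
                (Ioi (1 * w.im)) := Den_int_MajW dτ w.re hy1
            have I2 : IntegrableOn (fun s : ℝ => avg κ (sgT_MajW σ u (25 * k * η))
                (w.re + s * Complex.I)) (Ioi (1 * w.im)) := Den_int_MajW d2 w.re hy1
            have I3 : tail_MajW 1 (avg κ σ) w =
                (∫ s in Ioc (1 * w.im) (k * w.im), avg κ σ (w.re + s * Complex.I)) +
                tail_MajW k (avg κ σ) w := by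
              unfold tail_MajW
              rw [← Ioc_union_Ioi_eq_Ioi hle, setIntegral_union (Ioc_disjoint_Ioi le_rfl)
                measurableSet_Ioi (I1.mono_set Ioc_subset_Ioi_self)
                (I1.mono_set (Ioi_subset_Ioi hle))]
            have I4 : (∫ s in Ioc (1 * w.im) (k * w.im), avg κ σ (w.re + s * Complex.I)) =
                ∫ s in Ioc (1 * w.im) (k * w.im), avg κ (sgT_MajW σ u (25 * k * η))
                  (w.re + s * Complex.I) := by
              refine setIntegral_congr_fun measurableSet_Ioc (fun s hs' => ?_)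
              have hs1' : w.im < s := by have := hs'.1; linarith
              have hs2' : s ≤ k * w.im := hs'.2
              have hs0 : 0 < s := by linarith
              apply avg_congr_MajW
              intro x hx
              have hre : ((w.re : ℂ) + s * Complex.I).re = w.re := by simp
              have him : ((w.re : ℂ) + s * Complex.I).im = s := by simp
              rw [hre, him] at hx
              rw [him]
              have j1 := huy w hw s hs1'.le
              have j2 := hux (w.re + s * Complex.I) (UHmk_MajW _ hs0) x (by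
                rw [hre, him]
                refine hx.trans ?_
                nlinarith)
              rw [him] at j2
              have j3 : s / w.im ≤ k := by
                rw [div_le_iff₀ hy]
                exact hs2'
              have j4 : 4 * (s / w.im) * u w ≤ 4 * k * η := by
                have := (hu0 w hw).1
                have j5 : 0 ≤ s / w.im := by positivity
                calc 4 * (s / w.im) * u w ≤ 4 * k * u w := by gcongr
                  _ ≤ 4 * k * η := by gcongr
              have j6 : 0 < k * η := by positivity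
              have j7 : u (x + s * Complex.I) < 25 * k * η := by linarith
              unfold sgT_MajW
              rw [if_pos j7]
            have I5 : (∫ s in Ioc (1 * w.im) (k * w.im), avg κ (sgT_MajW σ u (25 * k * η))
                  (w.re + s * Complex.I)) ≤ tail_MajW 1 (avg κ (sgT_MajW σ u (25 * k * η))) w := by
              unfold tail_MajW
              refine setIntegral_mono_set I2 ?_ (ae_of_all _ Ioc_subset_Ioi_self)
              refine (ae_restrict_mem measurableSet_Ioi).mono (fun s hs' => ?_)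
              have hs1' : 1 * w.im < s := hs'
              exact d2.nn _ (UHmk_MajW _ (by linarith))
            linarith
          rw [← e1]
          linarith
        · exact good2.nn w hw
    have e : (fun z => if u (lw z) < η then NZ κ σ z else 0) = ZM_MajW
        (fun w : ℂ => if u w < η then
          κ * w.im * avg κ σ w + tail_MajW 1 (avg κ σ) w else 0) := by
      funext z
      unfold NZ ZM_MajW
      rw [tail_one_MajW]
      by_cases ha : u (lw z) < η
      · simp only [if_pos ha]
      · simp only [if_neg ha]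
        simp
    rw [e]
    exact Maj_of_Good_MajW h1 good3

end Pool.Agent.H843
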