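import Pool.Agent.H843.Stmts4

set_option autoImplicit false

namespace Pool.Agent.H843

open MeasureTheory Filter Topology Metric Set
open scoped ComplexConjugate ENNReal
open Pool.Agent.Helper34.Dg
open Pool.Agent.H720R2.HP (WD db)

private lemma re_ck_Nzf {z : ℂ} (hz : ‖z‖ < 1) (t : T) : (2 * ck z t - 1 : ℂ).re = pk z t := by
  have h1 : ck z t = conj (qk (conj z) t) := by
    rw [qk_conj, Complex.conj_conj]
  have h2 := re_qk (b := conj z) (by simpa using hz) t
  rw [Complex.conj_conj] at h2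
  have h3 : (2 * ck z t - 1 : ℂ).re = 2 * (ck z t).re - 1 := by simp
  rw [h3, h1, Complex.conj_re, h2]
  ring

private lemma pk_lower_Nzf {z : ℂ} (hz : ‖z‖ < 1) (t : T) : (1 - ‖z‖ ^ 2) / 4 ≤ pk z t := by
  have h0 := norm_nonneg z
  have h1 : ‖1 - z * e (-1) t‖ ≤ 2 := by
    calc ‖1 - z * e (-1) t‖ ≤ ‖(1 : ℂ)‖ + ‖z * e (-1) t‖ := norm_sub_le _ _
      _ ≤ 1 + 1 := by
        rw [norm_one, norm_mul, e_norm, mul_one]
        linarith
      _ = 2 := by norm_num
  have h2 : 0 < ‖1 - z * e (-1) t‖ := norm_pos_iff.2 (den_ne hz _ _)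
  have h3 : (1 / 4 : ℝ) ≤ ‖ck z t‖ ^ 2 := by
    rw [ck, norm_inv, inv_pow, one_div]
    refine inv_anti₀ (by positivity) ?_
    nlinarith
  rw [pk]
  have h4 : 0 ≤ 1 - ‖z‖ ^ 2 := by nlinarith
  calc (1 - ‖z‖ ^ 2) / 4 = (1 - ‖z‖ ^ 2) * (1 / 4) := by ring
    _ ≤ (1 - ‖z‖ ^ 2) * ‖ck z t‖ ^ 2 := mul_le_mul_of_nonneg_left h3 h4

private lemma pt_mem_Nzf {r : ℝ} (h0 : 0 ≤ r) (h1 : r < 1) (t : T) : (r : ℂ) * pt t ∈ disc := by
  rw [pt_eq, mem_ball_zero_iff, norm_mul, e_norm, mul_one, Complex.norm_real,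
    Real.norm_of_nonneg h0]
  exact h1

/-- TARGET -/
theorem nz (hp : S_poisson) : S_nz := by
  classical
  rintro g hg ⟨z0, hz0, hne⟩
  have hz0' : ‖z0‖ < 1 := by simpa using hz0
  by_contra hcon
  obtain ⟨M, hM0, hM⟩ := exists_bound hg.1
  -- the zero set
  have hgm : AEStronglyMeasurable g mu := hg.1.1
  set g' : T → ℂ := hgm.mk g with hg'
  have hg'm : StronglyMeasurable g' := hgm.stronglyMeasurable_mk
  have hgg' : g =ᵐ[mu] g' := hgm.ae_eq_mk
  set A : Set T := {t | g' t = 0} with hA
  have hAm : MeasurableSet A := hg'm.measurable (measurableSet_singleton 0)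
  have hApos : 0 < (mu A).toReal := by
    refine ENNReal.toReal_pos (fun h => hcon ?_) (measure_ne_top _ _)
    have h1 : ∀ᵐ t ∂mu, t ∉ A := measure_eq_zero_iff_ae_notMem.1 h
    filter_upwards [h1, hgg'] with t h2 h3 h4
    exact h2 (by rw [hA, mem_ofPred_eq, ← h3]; exact h4)
  set φ : T → ℝ := A.indicator fun _ => 1 with hφ
  have hφm : Measurable φ := measurable_const.indicator hAm
  have hφ0 : ∀ t, 0 ≤ φ t := fun t => indicator_nonneg (fun _ _ => zero_le_one) t
  have hφ1 : ∀ t, φ t ≤ 1 := fun t => by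
    by_cases h : t ∈ A
    · rw [hφ, indicator_of_mem h]
    · rw [hφ, indicator_of_notMem h]
      exact zero_le_one
  set f : T → ℂ := fun t => (φ t : ℂ) with hf
  have hfb : MemLp f ∞ mu := by
    refine memLp_top_of_bound (Complex.measurable_ofReal.comp hφm).aestronglyMeasurable 1
      (Eventually.of_forall fun t => ?_)
    rw [hf, Complex.norm_real, Real.norm_of_nonneg (hφ0 t)]
    exact hφ1 t
  have hfi : Integrable f mu := memLp_integrable hfb
  set H : ℂ → ℂ := fun z => 2 * ext f z - ∫ t, f t ∂mu with hH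
  have hHd : DifferentiableOn ℂ H disc := ((ext_diff hfb).const_mul 2).sub_const _
  have hHre : ∀ z ∈ disc, (H z).re = ∫ t, φ t * pk z t ∂mu := by
    intro z hz
    have hz' : ‖z‖ < 1 := by simpa using hz
    have h1 : H z = ∫ t, f t * (2 * ck z t - 1) ∂mu := by
      have h2 : Integrable (fun t => f t * ck z t) mu :=
        memLp_integrable (bdd_mul hfb (bdd_cont (ck_cont hz')))
      have h3 : ∀ t, f t * (2 * ck z t - 1) = 2 * (f t * ck z t) - f t := fun t => by ring
      simp_rw [h3]
      rw [integral_sub (h2.const_mul 2) hfi, integral_const_mul, int_ck_ext hfi hz']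
    have h4 : Integrable (fun t => f t * (2 * ck z t - 1)) mu :=
      memLp_integrable (bdd_mul hfb (bdd_cont
        ((continuous_const.mul (ck_cont hz')).sub continuous_const)))
    rw [h1]
    have h5 := integral_re h4
    rw [RCLike.re_eq_complex_re] at h5
    rw [← h5]
    refine integral_congr_ae (Eventually.of_forall fun t => ?_)
    have h6 : (f t * (2 * ck z t - 1)).re = φ t * (2 * ck z t - 1 : ℂ).re := by
      rw [hf, Complex.re_ofReal_mul]
    change (f t * (2 * ck z t - 1)).re = φ t * pk z t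
    rw [h6, re_ck_Nzf hz']
  have hint : ∀ z ∈ disc, Integrable (fun t => φ t * pk z t) mu := by
    intro z hz
    have hz' : ‖z‖ < 1 := by simpa using hz
    refine (cont_intR (pk_cont hz')).bdd_mul (c := 1) hφm.aestronglyMeasurable
      (Eventually.of_forall fun t => ?_)
    rw [Real.norm_of_nonneg (hφ0 t)]
    exact hφ1 t
  have hHle : ∀ z ∈ disc, (H z).re ≤ 1 := by
    intro z hz
    have hz' : ‖z‖ < 1 := by simpa using hz
    rw [hHre z hz]
    refine le_trans ?_ (int_pk hz').le
    refine integral_mono (hint z hz) (cont_intR (pk_cont hz')) fun t => ?_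
    exact mul_le_of_le_one_left (pk_nonneg hz' t) (hφ1 t)
  have hHpos : 0 < (H z0).re := by
    rw [hHre z0 hz0]
    have h1 : 0 < (1 - ‖z0‖ ^ 2) / 4 := by
      have := norm_nonneg z0
      have : ‖z0‖ ^ 2 < 1 := by nlinarith
      linarith
    have h2 : ∫ t, φ t * ((1 - ‖z0‖ ^ 2) / 4) ∂mu ≤ ∫ t, φ t * pk z0 t ∂mu := by
      refine integral_mono ?_ (hint z0 hz0) fun t => ?_
      · refine Integrable.mul_const ?_ _
        exact (integrable_const (1 : ℝ)).indicator hAm
      · exact mul_le_mul_of_nonneg_left (pk_lower_Nzf hz0' t) (hφ0 t)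
    refine lt_of_lt_of_le ?_ h2
    rw [integral_mul_const, hφ, integral_indicator hAm]
    simp only [integral_const, smul_eq_mul, mul_one, Measure.real, Measure.restrict_apply_univ]
    exact mul_pos hApos h1
  -- a sequence of radii along which the real parts converge
  set r : ℕ → ℝ := fun k => 1 - 1 / (k + 2) with hr
  have hr0 : ∀ k, 0 ≤ r k := fun k => by
    have h1 : (1 : ℝ) / (k + 2) ≤ 1 := by
      rw [div_le_one (by positivity)]
      have : (0 : ℝ) ≤ k := k.cast_nonneg
      linarith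
    simp only [hr]
    linarith
  have hr1 : ∀ k, r k < 1 := fun k => by
    have h1 : (0 : ℝ) < 1 / (k + 2) := by positivity
    simp only [hr]
    linarith
  have hrlim : Tendsto r atTop (𝓝[<] 1) := by
    refine tendsto_nhdsWithin_iff.2 ⟨?_, Eventually.of_forall hr1⟩
    have h1 : Tendsto (fun k : ℕ => (1 : ℝ) / ((k : ℝ) + 2)) atTop (𝓝 0) := by
      refine Tendsto.div_atTop tendsto_const_nhds ?_
      exact tendsto_atTop_add_const_right _ _ tendsto_natCast_atTop_atTop
    have h2 := h1.const_sub 1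
    rw [sub_zero] at h2
    exact h2
  have hcontF : ∀ k, Continuous fun t : T => (H ((r k : ℂ) * pt t)).re := by
    intro k
    refine Complex.continuous_re.comp (hHd.continuousOn.comp_continuous ?_ fun t =>
      pt_mem_Nzf (hr0 k) (hr1 k) t)
    exact continuous_const.mul (e_cont 1)
  have hmeas := tendstoInMeasure_of_tendsto_eLpNorm (μ := mu) (p := 1) one_ne_zero
    (f := fun k t => (H ((r k : ℂ) * pt t)).re) (g := φ) (l := atTop)
    (fun k => (hcontF k).aestronglyMeasurable) hφm.aestronglyMeasurable (by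
      have h1 := (hp φ hφm.aestronglyMeasurable ⟨1, Eventually.of_forall fun t => by
        rw [abs_of_nonneg (hφ0 t)]
        exact hφ1 t⟩).comp hrlim
      refine h1.congr fun k => ?_
      rw [eLpNorm_one_eq_lintegral_enorm]
      simp only [Function.comp_apply, Pi.sub_apply]
      refine lintegral_congr fun t => ?_
      rw [hHre _ (pt_mem_Nzf (hr0 k) (hr1 k) t)])
  obtain ⟨ns, hns, hae⟩ := hmeas.exists_seq_tendsto_ae
  -- the outer functions
  have key : ∀ n : ℕ, ‖ext g z0‖ * Real.exp (n * (H z0).re) ≤ M := by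
    intro n
    have hbh : BddHol fun z => Complex.exp (n * H z) := by
      refine ⟨(hHd.const_mul _).cexp, Real.exp n, fun z hz => ?_⟩
      rw [Complex.norm_exp]
      refine Real.exp_le_exp.2 ?_
      have h1 : ((n : ℂ) * H z).re = n * (H z).re := by
        rw [← Complex.ofReal_natCast, Complex.re_ofReal_mul]
      rw [h1]
      exact mul_le_of_le_one_right (Nat.cast_nonneg n) (hHle z hz)
    obtain ⟨p, hp1, hp2, hp3⟩ := bh_rep hbh
    have hnorm : ∀ᵐ t ∂mu, ‖p t‖ = Real.exp (n * φ t) := by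
      filter_upwards [hp3, hae] with t h1 h2
      have h3 := ((h1.comp hrlim).comp hns.tendsto_atTop).norm
      have h4 : Tendsto (fun k => Real.exp (n * (H ((r (ns k) : ℂ) * pt t)).re)) atTop
          (𝓝 (Real.exp (n * φ t))) := (Real.continuous_exp.tendsto _).comp (h2.const_mul _)
      refine tendsto_nhds_unique h3 (h4.congr fun k => ?_)
      simp only [Function.comp_apply]
      rw [Complex.norm_exp, ← Complex.ofReal_natCast, Complex.re_ofReal_mul]
    have hbd : ∀ᵐ t ∂mu, ‖g t * p t‖ ≤ M := by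
      filter_upwards [hnorm, hM, hgg'] with t h1 h2 h3
      by_cases h : t ∈ A
      · have h4 : g t = 0 := h3.trans h
        rw [h4, zero_mul, norm_zero]
        exact hM0
      · have h4 : φ t = 0 := by rw [hφ, indicator_of_notMem h]
        rw [norm_mul, h1, h4, mul_zero, Real.exp_zero, mul_one]
        exact h2
    have h5 := ext_bound (mul_HInf hg hp1) hbd hz0'
    rw [ext_mul hg hp1 hz0', hp2 z0 hz0, norm_mul, Complex.norm_exp, ← Complex.ofReal_natCast,
      Complex.re_ofReal_mul] at h5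
    exact h5
  have hpos : 0 < ‖ext g z0‖ := norm_pos_iff.2 hne
  obtain ⟨n, hn⟩ := exists_nat_gt (M / ‖ext g z0‖ / (H z0).re)
  have h1 := key n
  have h2 : M / ‖ext g z0‖ < n * (H z0).re := (div_lt_iff₀ hHpos).1 hn
  have h3 : n * (H z0).re < Real.exp (n * (H z0).re) := by
    have := Real.add_one_le_exp (n * (H z0).re)
    linarith
  have h4 : M < ‖ext g z0‖ * Real.exp (n * (H z0).re) := by
    have := (div_lt_iff₀ hpos).1 (h2.trans h3)
    linarith
  exact absurd h1 (not_le.2 h4)

end Pool.Agent.H843
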