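import Pool.Agent.H843.Stmts

set_option autoImplicit false

namespace Pool.Agent.H843

open MeasureTheory Filter Topology Metric Set
open scoped ComplexConjugate ENNReal
open Pool.Agent.Helper34.Dg
open Pool.Agent.H720R2.HP (WD db)

lemma int_mul_pk_Osc {g : T → ℝ} (hg : Integrable g mu) {z : ℂ} (hz : ‖z‖ < 1) :
    Integrable (fun t => g t * pk z t) mu := by
  obtain ⟨C, hC⟩ := isCompact_univ.exists_bound_of_continuousOn (pk_cont hz).continuousOn
  exact hg.mul_bdd (c := C) (pk_cont hz).aestronglyMeasurable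
    (Eventually.of_forall fun t => hC t trivial)

lemma int_mul_pkc_Osc {g : T → ℂ} (hg : Integrable g mu) {z : ℂ} (hz : ‖z‖ < 1) :
    Integrable (fun t => g t * (pk z t : ℂ)) mu := by
  obtain ⟨C, hC⟩ := isCompact_univ.exists_bound_of_continuousOn (pk_cont hz).continuousOn
  refine hg.mul_bdd (c := C)
    (Complex.continuous_ofReal.comp (pk_cont hz)).aestronglyMeasurable
    (Eventually.of_forall fun t => ?_)
  rw [Complex.norm_real]
  exact hC t trivial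

lemma int_normsq_Osc {g : T → ℂ} (hg : MemLp g ∞ mu) : Integrable (fun t => ‖g t‖ ^ 2) mu := by
  obtain ⟨M, hM0, hM⟩ := exists_bound hg
  refine Integrable.of_bound (hg.1.norm.pow 2) (M ^ 2) ?_
  filter_upwards [hM] with t ht
  rw [Real.norm_of_nonneg (by positivity)]
  exact pow_le_pow_left₀ (norm_nonneg _) ht 2

lemma re_int_Osc {g : T → ℂ} (hg : Integrable g mu) :
    ∫ t, (g t).re ∂mu = (∫ t, g t ∂mu).re := integral_re hg

lemma re_integrable_Osc {g : T → ℂ} (hg : Integrable g mu) :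
    Integrable (fun t => (g t).re) mu := hg.re

lemma expand_Osc {f : T → ℂ} (hf : f ∈ HInf) {z : ℂ} (hz : ‖z‖ < 1) (c : ℂ) :
    ∫ t, ‖f t - c‖ ^ 2 * pk z t ∂mu = Osc f z + ‖ext f z - c‖ ^ 2 := by
  set F := ext f z with hF
  have hg : (fun t => f t - F) ∈ HInf := sub_HInf hf (const_HInf F)
  have h0 : ∫ t, (f t - F) * (pk z t : ℂ) ∂mu = 0 := by
    rw [int_pk_HInf hg hz, ext_sub (memLp_integrable hf.1) (integrable_const _) hz,
      ext_const F hz, hF, sub_self]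
  have i1 : Integrable (fun t => ‖f t - F‖ ^ 2 * pk z t) mu :=
    int_mul_pk_Osc (int_normsq_Osc hg.1) hz
  have i2 : Integrable (fun t => (f t - F) * (pk z t : ℂ)) mu :=
    int_mul_pkc_Osc (memLp_integrable hg.1) hz
  have i2' : Integrable (fun t => (2 * conj (F - c)) * ((f t - F) * (pk z t : ℂ))) mu :=
    i2.const_mul _
  have i3 : Integrable (fun t => ‖F - c‖ ^ 2 * pk z t) mu :=
    int_mul_pk_Osc (integrable_const _) hz
  have e1 : ∀ t, ‖f t - c‖ ^ 2 * pk z t = (‖f t - F‖ ^ 2 * pk z t +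
      ((2 * conj (F - c)) * ((f t - F) * (pk z t : ℂ))).re) + ‖F - c‖ ^ 2 * pk z t := by
    intro t
    have e2 : ‖f t - c‖ ^ 2 = ‖f t - F‖ ^ 2 + 2 * (conj (F - c) * (f t - F)).re +
        ‖F - c‖ ^ 2 := by
      rw [← Complex.normSq_eq_norm_sq, ← Complex.normSq_eq_norm_sq, ← Complex.normSq_eq_norm_sq]
      simp [Complex.normSq_apply]
      ring
    have e3 : ((2 * conj (F - c)) * ((f t - F) * (pk z t : ℂ))).re =
        2 * (conj (F - c) * (f t - F)).re * pk z t := by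
      have : (2 * conj (F - c)) * ((f t - F) * (pk z t : ℂ)) =
          ((2 * pk z t : ℝ) : ℂ) * (conj (F - c) * (f t - F)) := by push_cast; ring
      rw [this, Complex.re_ofReal_mul]; ring
    rw [e3, e2]; ring
  have e4 : ∫ t, ((2 * conj (F - c)) * ((f t - F) * (pk z t : ℂ))).re ∂mu = 0 := by
    rw [re_int_Osc i2', integral_const_mul, h0]
    simp
  have i12 : Integrable (fun t => ‖f t - F‖ ^ 2 * pk z t +
      ((2 * conj (F - c)) * ((f t - F) * (pk z t : ℂ))).re) mu := i1.add (re_integrable_Osc i2')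
  simp_rw [e1]
  rw [integral_add i12 i3, integral_add i1 (re_integrable_Osc i2'), e4, integral_const_mul,
    int_pk hz, mul_one, add_zero]
  rfl

lemma nonneg_Osc (f : T → ℂ) {z : ℂ} (hz : ‖z‖ < 1) : 0 ≤ Osc f z :=
  integral_nonneg fun t => mul_nonneg (by positivity) (pk_nonneg hz t)

lemma cs_Osc {g : T → ℂ} (hg : MemLp g ∞ mu) {z : ℂ} (hz : ‖z‖ < 1) :
    (∫ t, ‖g t‖ * pk z t ∂mu) ^ 2 ≤ ∫ t, ‖g t‖ ^ 2 * pk z t ∂mu := by
  set a := ∫ t, ‖g t‖ * pk z t ∂mu with ha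
  have i1 : Integrable (fun t => ‖g t‖ ^ 2 * pk z t) mu := int_mul_pk_Osc (int_normsq_Osc hg) hz
  have i2 : Integrable (fun t => ‖g t‖ * pk z t) mu :=
    int_mul_pk_Osc (memLp_integrable hg).norm hz
  have i3 : Integrable (fun t => a ^ 2 * pk z t) mu := int_mul_pk_Osc (integrable_const _) hz
  have h1 : 0 ≤ ∫ t, (‖g t‖ - a) ^ 2 * pk z t ∂mu :=
    integral_nonneg fun t => mul_nonneg (by positivity) (pk_nonneg hz t)
  have e1 : ∀ t, (‖g t‖ - a) ^ 2 * pk z t =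
      (‖g t‖ ^ 2 * pk z t - (2 * a) * (‖g t‖ * pk z t)) + a ^ 2 * pk z t := fun t => by ring
  simp_rw [e1] at h1
  have i12 : Integrable (fun t => ‖g t‖ ^ 2 * pk z t - (2 * a) * (‖g t‖ * pk z t)) mu :=
    i1.sub (i2.const_mul _)
  rw [integral_add i12 i3, integral_sub i1 (i2.const_mul _),
    integral_const_mul, integral_const_mul, int_pk hz, ← ha] at h1
  nlinarith

lemma ck_diff_Osc {z w : ℂ} (hz : ‖z‖ < 1) (hw : ‖w‖ < 1) (t : T) :
    ck w t - ck z t = (w - z) * (e (-1) t * ck w t * ck z t) := by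
  have h1 := den_ne hz (-1) t
  have h2 := den_ne hw (-1) t
  simp only [ck]
  have h3 : (1 - w * e (-1) t)⁻¹ - (1 - z * e (-1) t)⁻¹ =
      ((1 - z * e (-1) t) - (1 - w * e (-1) t)) *
        ((1 - w * e (-1) t)⁻¹ * (1 - z * e (-1) t)⁻¹) := by
    rw [inv_sub_inv h2 h1, div_eq_mul_inv, mul_inv]
  rw [h3]
  ring

lemma ck_ratio_Osc {z w : ℂ} (hz : ‖z‖ < 1) (hw : ‖w‖ < 1) (t : T) :
    ‖ck w t‖ ≤ (1 + ‖w - z‖ / (1 - ‖w‖)) * ‖ck z t‖ := by
  have h1 := den_ne hz (-1) t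
  have h2 := den_ne hw (-1) t
  have e1 : ck w t = (1 + (w - z) * e (-1) t * ck w t) * ck z t := by
    linear_combination ck_diff_Osc hz hw t
  have h3 : ‖ck w t‖ ≤ 1 / (1 - ‖w‖) := by
    rw [ck, norm_inv, one_div]
    apply inv_anti₀ (by linarith)
    calc 1 - ‖w‖ = ‖(1 : ℂ)‖ - ‖w * e (-1) t‖ := by rw [norm_mul, e_norm, norm_one, mul_one]
      _ ≤ _ := norm_sub_norm_le _ _
  have h4 : ‖1 + (w - z) * e (-1) t * ck w t‖ ≤ 1 + ‖w - z‖ / (1 - ‖w‖) := by
    calc ‖1 + (w - z) * e (-1) t * ck w t‖ ≤ ‖(1 : ℂ)‖ + ‖(w - z) * e (-1) t * ck w t‖ :=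
          norm_add_le _ _
      _ = 1 + ‖w - z‖ * ‖ck w t‖ := by rw [norm_mul, norm_mul, e_norm, norm_one, mul_one]
      _ ≤ 1 + ‖w - z‖ * (1 / (1 - ‖w‖)) := by gcongr
      _ = _ := by ring
  calc ‖ck w t‖ = ‖1 + (w - z) * e (-1) t * ck w t‖ * ‖ck z t‖ := by
        rw [← norm_mul, ← e1]
    _ ≤ _ := mul_le_mul_of_nonneg_right h4 (norm_nonneg _)

lemma deriv_Osc {f : T → ℂ} (hf : f ∈ HInf) {z : ℂ} (hz : ‖z‖ < 1) :
    (1 - ‖z‖ ^ 2) * ‖deriv (ext f) z‖ ≤ ∫ t, ‖f t - ext f z‖ * pk z t ∂mu := by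
  set F := ext f z with hF
  have hg : (fun t => f t - F) ∈ HInf := sub_HInf hf (const_HInf F)
  have hgi := memLp_integrable hg.1
  have hz1 : 0 < 1 - ‖z‖ ^ 2 := by nlinarith [norm_nonneg z]
  have ick : ∀ w : ℂ, ‖w‖ < 1 → Integrable (fun t => (f t - F) * ck w t) mu := fun w hw =>
    memLp_integrable (bdd_mul hg.1 (bdd_cont (ck_cont hw)))
  have hG : ∀ w : ℂ, ‖w‖ < 1 → ext f w - F = ∫ t, (f t - F) * ck w t ∂mu := by
    intro w hw
    rw [int_ck_ext hgi hw, ext_sub (memLp_integrable hf.1) (integrable_const _) hw,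
      ext_const F hw]
  have hG0 : ∫ t, (f t - F) * ck z t ∂mu = 0 := by rw [← hG z hz, hF, sub_self]
  set I := ∫ t, ‖f t - F‖ * pk z t ∂mu with hI
  have iI : Integrable (fun t => ‖f t - F‖ * pk z t) mu := int_mul_pk_Osc hgi.norm hz
  have hbound : ∀ w : ℂ, ‖w‖ < 1 → (1 - ‖z‖ ^ 2) * ‖ext f w - F‖ ≤
      ‖w - z‖ * ((1 + ‖w - z‖ / (1 - ‖w‖)) * I) := by
    intro w hw
    have e1 : ext f w - F = (w - z) * ∫ t, (f t - F) * (e (-1) t * ck w t * ck z t) ∂mu := by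
      rw [hG w hw, ← sub_zero (∫ t, (f t - F) * ck w t ∂mu), ← hG0,
        ← integral_sub (ick w hw) (ick z hz), ← integral_const_mul]
      congr 1
      funext t
      rw [← mul_sub, ck_diff_Osc hz hw]; ring
    have h2 : ‖∫ t, (f t - F) * (e (-1) t * ck w t * ck z t) ∂mu‖ ≤
        ∫ t, (1 + ‖w - z‖ / (1 - ‖w‖)) * (1 - ‖z‖ ^ 2)⁻¹ * (‖f t - F‖ * pk z t) ∂mu := by
      apply norm_integral_le_of_norm_le (iI.const_mul _)
      refine Eventually.of_forall fun t => ?_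
      have h3 := ck_ratio_Osc hz hw t
      rw [norm_mul, norm_mul, norm_mul, e_norm, one_mul]
      have h4 : pk z t = (1 - ‖z‖ ^ 2) * ‖ck z t‖ ^ 2 := rfl
      rw [h4]
      calc ‖f t - F‖ * (‖ck w t‖ * ‖ck z t‖)
          ≤ ‖f t - F‖ * (((1 + ‖w - z‖ / (1 - ‖w‖)) * ‖ck z t‖) * ‖ck z t‖) := by gcongr
        _ = _ := by field_simp
    rw [integral_const_mul] at h2
    rw [e1, norm_mul]
    calc (1 - ‖z‖ ^ 2) * (‖w - z‖ * ‖∫ t, (f t - F) * (e (-1) t * ck w t * ck z t) ∂mu‖)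
        ≤ (1 - ‖z‖ ^ 2) * (‖w - z‖ * ((1 + ‖w - z‖ / (1 - ‖w‖)) * (1 - ‖z‖ ^ 2)⁻¹ * I)) := by
          gcongr
      _ = _ := by field_simp
  have hd : HasDerivAt (ext f) (deriv (ext f) z) z := by
    apply DifferentiableAt.hasDerivAt
    exact (ext_diff hf.1).differentiableAt (isOpen_ball.mem_nhds (by simpa using hz))
  have hs := hasDerivAt_iff_tendsto_slope.1 hd
  have hs2 : Tendsto (fun w => (1 - ‖z‖ ^ 2) * ‖slope (ext f) z w‖) (𝓝[≠] z)
      (𝓝 ((1 - ‖z‖ ^ 2) * ‖deriv (ext f) z‖)) := hs.norm.const_mul _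
  have hs3 : Tendsto (fun w : ℂ => (1 + ‖w - z‖ / (1 - ‖w‖)) * I) (𝓝[≠] z) (𝓝 I) := by
    have h1 : ContinuousAt (fun w : ℂ => (1 + ‖w - z‖ / (1 - ‖w‖)) * I) z := by
      apply ContinuousAt.mul _ continuousAt_const
      apply ContinuousAt.add continuousAt_const
      apply ContinuousAt.div
      · fun_prop
      · fun_prop
      · linarith
    have h2 := h1.tendsto.mono_left (nhdsWithin_le_nhds (s := {z}ᶜ))
    simpa using h2
  refine le_of_tendsto_of_tendsto hs2 hs3 ?_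
  have h5 : ∀ᶠ w in 𝓝[≠] z, ‖w‖ < 1 := by
    have : ∀ᶠ w in 𝓝 z, ‖w‖ < 1 := by
      have : ball (0 : ℂ) 1 ∈ 𝓝 z := isOpen_ball.mem_nhds (by simpa using hz)
      filter_upwards [this] with w hw
      simpa using hw
    exact this.filter_mono nhdsWithin_le_nhds
  filter_upwards [h5, self_mem_nhdsWithin] with w hw hne
  have hne' : 0 < ‖w - z‖ := norm_pos_iff.2 (sub_ne_zero.2 hne)
  have h6 := hbound w hw
  rw [slope_def_field, norm_div, ← hF]
  rw [← mul_div_assoc, div_le_iff₀ hne']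
  linarith

/-- TARGET osc. -/
theorem osc : S_osc := by
  intro f hf
  have hdisc : ∀ z, z ∈ disc → ‖z‖ < 1 := fun z hz => by simpa [disc] using hz
  refine ⟨?_, ?_, ?_, ?_⟩
  · have hb : MemLp (fun t => ((‖f t‖ ^ 2 : ℝ) : ℂ)) ∞ mu := by
      obtain ⟨M, hM0, hM⟩ := exists_bound hf.1
      refine memLp_top_of_bound
        (Complex.continuous_ofReal.comp_aestronglyMeasurable (hf.1.1.norm.pow 2)) (M ^ 2) ?_
      filter_upwards [hM] with t ht
      rw [Complex.norm_real, Real.norm_of_nonneg (by positivity)]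
      exact pow_le_pow_left₀ (norm_nonneg _) ht 2
    have hre : ∀ z ∈ disc, (2 * ext (fun t => ((‖f t‖ ^ 2 : ℝ) : ℂ)) z -
        ∫ t, ((‖f t‖ ^ 2 : ℝ) : ℂ) ∂mu).re = ∫ t, ‖f t‖ ^ 2 * pk z t ∂mu := by
      intro z hz'
      have hz := hdisc z hz'
      have ick : Integrable (fun t => ((‖f t‖ ^ 2 : ℝ) : ℂ) * ck z t) mu :=
        memLp_integrable (bdd_mul hb (bdd_cont (ck_cont hz)))
      rw [← int_ck_ext (memLp_integrable hb) hz, ← integral_const_mul,
        ← integral_sub (ick.const_mul _) (memLp_integrable hb)]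
      have i4 : Integrable (fun t => 2 * (((‖f t‖ ^ 2 : ℝ) : ℂ) * ck z t) -
          ((‖f t‖ ^ 2 : ℝ) : ℂ)) mu := (ick.const_mul 2).sub (memLp_integrable hb)
      rw [← re_int_Osc i4]
      congr 1
      funext t
      have h1 : (ck z t).re = (1 + pk z t) / 2 := by
        have h2 := re_qk (b := conj z) (by simpa using hz) t
        rw [Complex.conj_conj] at h2
        rw [← h2, ← ck_conj, Complex.conj_re]
      have h3 : 2 * (((‖f t‖ ^ 2 : ℝ) : ℂ) * ck z t) - ((‖f t‖ ^ 2 : ℝ) : ℂ) =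
          ((‖f t‖ ^ 2 : ℝ) : ℂ) * (2 * ck z t - 1) := by ring
      have h5 : (2 * ck z t - 1).re = pk z t := by
        rw [Complex.sub_re, Complex.mul_re]
        simp [h1]
        ring
      rw [h3, Complex.re_ofReal_mul, h5]
    refine ⟨fun z => 2 * ext (fun t => ((‖f t‖ ^ 2 : ℝ) : ℂ)) z -
        ∫ t, ((‖f t‖ ^ 2 : ℝ) : ℂ) ∂mu, ?_, hre, ?_⟩
    · exact ((ext_diff hb).const_mul 2).sub (differentiableOn_const _)
    · intro z hz
      rw [hre z hz]
      have h := expand_Osc hf (hdisc z hz) 0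
      simp only [sub_zero] at h
      linarith
  · intro z hz'
    have hz := hdisc z hz'
    refine ⟨nonneg_Osc f hz, ?_⟩
    have h1 := deriv_Osc hf hz
    have hg : (fun t => f t - ext f z) ∈ HInf := sub_HInf hf (const_HInf _)
    have h2 := cs_Osc hg.1 hz
    have hz1 : 0 ≤ (1 - ‖z‖ ^ 2) * ‖deriv (ext f) z‖ := by
      have : 0 < 1 - ‖z‖ ^ 2 := by nlinarith [norm_nonneg z]
      positivity
    calc (1 - ‖z‖ ^ 2) ^ 2 * ‖deriv (ext f) z‖ ^ 2 = ((1 - ‖z‖ ^ 2) * ‖deriv (ext f) z‖) ^ 2 := by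
          ring
      _ ≤ (∫ t, ‖f t - ext f z‖ * pk z t ∂mu) ^ 2 := pow_le_pow_left₀ hz1 h1 2
      _ ≤ _ := h2
  · intro z hz c
    exact expand_Osc hf (hdisc z hz) c
  · intro z hz' z' hz'' A hA
    have hz := hdisc z hz'
    have hzz := hdisc z' hz''
    have hg : (fun t => f t - ext f z) ∈ HInf := sub_HInf hf (const_HInf _)
    have h1 := expand_Osc hf hzz (ext f z)
    have h2 : ∫ t, ‖f t - ext f z‖ ^ 2 * pk z' t ∂mu ≤
        ∫ t, A * (‖f t - ext f z‖ ^ 2 * pk z t) ∂mu := by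
      refine integral_mono (int_mul_pk_Osc (int_normsq_Osc hg.1) hzz)
        ((int_mul_pk_Osc (int_normsq_Osc hg.1) hz).const_mul _) fun t => ?_
      have := mul_le_mul_of_nonneg_left (hA t) (show 0 ≤ ‖f t - ext f z‖ ^ 2 by positivity)
      simp only
      linarith
    rw [integral_const_mul] at h2
    have h3 : 0 ≤ ‖ext f z' - ext f z‖ ^ 2 := by positivity
    have h4 : Osc f z = ∫ t, ‖f t - ext f z‖ ^ 2 * pk z t ∂mu := rfl
    rw [h4]
    linarith

end Pool.Agent.H843
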