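import Pool.Agent.H843.Stmts

/-!
Poisson integrals of a bounded function on the circle converge in `L¹` (part of MP_e1e648_an).
-/

set_option autoImplicit false

namespace Pool.Agent.H843

open MeasureTheory Filter Topology Metric Set
open scoped ComplexConjugate ENNReal
open Pool.Agent.Helper34.Dg
open Pool.Agent.H720R2.HP (WD db)

/-- Poisson integral on the circle of radius `r` -/
noncomputable def Pr_PoissonF (r : ℝ) (f : T → ℂ) (t : T) : ℂ :=
  ∫ s, f s * (pk ((r : ℂ) * pt t) s : ℂ) ∂mu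

/-- the `L¹` distance -/
noncomputable def Dr_PoissonF (r : ℝ) (f : T → ℂ) : ℝ≥0∞ :=
  ∫⁻ t, ‖Pr_PoissonF r f t - f t‖ₑ ∂mu

private lemma pt_norm_PoissonF (t : T) : ‖pt t‖ = 1 := e_norm 1 t

private lemma rpt_PoissonF {r : ℝ} (h0 : 0 ≤ r) (h1 : r < 1) (t : T) : ‖(r : ℂ) * pt t‖ < 1 := by
  rw [norm_mul, pt_norm_PoissonF, mul_one, Complex.norm_real, Real.norm_of_nonneg h0]
  exact h1

private lemma pk_symm_PoissonF (r : ℝ) (t s : T) :
    pk ((r : ℂ) * pt t) s = pk ((r : ℂ) * pt s) t := by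
  simp only [pk, ck, norm_mul, pt_norm_PoissonF]
  congr 2
  rw [norm_inv, norm_inv]
  congr 1
  rw [← RCLike.norm_conj (1 - (r : ℂ) * pt t * e (-1) s)]
  congr 1
  simp only [pt, map_sub, map_one, map_mul, Complex.conj_ofReal]
  rw [show conj (fourier 1 t) = e (-1) t from (e_neg 1 t).symm,
    show conj (e (-1) s) = e 1 s by rw [e_neg 1 s, Complex.conj_conj]]
  ring

private lemma pk_cont2_PoissonF {r : ℝ} (h0 : 0 ≤ r) (h1 : r < 1) :
    Continuous (fun p : T × T => pk ((r : ℂ) * pt p.1) p.2) := by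
  have hpt : Continuous pt := e_cont 1
  unfold pk ck
  refine Continuous.mul ?_ ?_
  · exact continuous_const.sub (((continuous_const.mul (hpt.comp continuous_fst)).norm).pow 2)
  · refine (Continuous.norm ?_).pow 2
    refine Continuous.inv₀ ?_ ?_
    · exact continuous_const.sub ((continuous_const.mul (hpt.comp continuous_fst)).mul
        ((e_cont (-1)).comp continuous_snd))
    · intro p
      exact den_ne (rpt_PoissonF h0 h1 p.1) (-1) p.2

private lemma meas_PoissonF {r : ℝ} (h0 : 0 ≤ r) (h1 : r < 1) {f : T → ℂ}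
    (hf : AEStronglyMeasurable f mu) : AEStronglyMeasurable (Pr_PoissonF r f) mu := by
  have h : AEStronglyMeasurable (fun p : T × T => f p.2 * (pk ((r : ℂ) * pt p.1) p.2 : ℂ))
      (mu.prod mu) := by
    refine AEStronglyMeasurable.mul hf.comp_snd ?_
    exact (Complex.continuous_ofReal.comp (pk_cont2_PoissonF h0 h1)).aestronglyMeasurable
  exact h.integral_prod_right'

private lemma int_PoissonF {r : ℝ} (h0 : 0 ≤ r) (h1 : r < 1) {f : T → ℂ}
    (hf : Integrable f mu) (t : T) :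
    Integrable (fun s => f s * (pk ((r : ℂ) * pt t) s : ℂ)) mu := by
  have hc : Continuous (fun s => (pk ((r : ℂ) * pt t) s : ℂ)) :=
    Complex.continuous_ofReal.comp (pk_cont (rpt_PoissonF h0 h1 t))
  obtain ⟨C, hC⟩ := isCompact_univ.exists_bound_of_continuousOn hc.continuousOn
  exact hf.mul_bdd (c := C) hc.aestronglyMeasurable (Eventually.of_forall fun s => hC s trivial)

private lemma add_PoissonF {r : ℝ} (h0 : 0 ≤ r) (h1 : r < 1) {f g : T → ℂ}
    (hf : Integrable f mu) (hg : Integrable g mu) (t : T) :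
    Pr_PoissonF r (fun s => f s + g s) t = Pr_PoissonF r f t + Pr_PoissonF r g t := by
  unfold Pr_PoissonF
  rw [← integral_add (int_PoissonF h0 h1 hf t) (int_PoissonF h0 h1 hg t)]
  congr 1; funext s; ring

private lemma smul_PoissonF (r : ℝ) (f : T → ℂ) (c : ℂ) (t : T) :
    Pr_PoissonF r (fun s => c * f s) t = c * Pr_PoissonF r f t := by
  unfold Pr_PoissonF
  rw [← integral_const_mul]
  congr 1; funext s; ring

private lemma congr_PoissonF (r : ℝ) {f g : T → ℂ} (h : f =ᵐ[mu] g) :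
    Dr_PoissonF r f = Dr_PoissonF r g := by
  unfold Dr_PoissonF
  have h1 : ∀ t, Pr_PoissonF r f t = Pr_PoissonF r g t := by
    intro t
    unfold Pr_PoissonF
    refine integral_congr_ae ?_
    filter_upwards [h] with s hs
    rw [hs]
  refine lintegral_congr_ae ?_
  filter_upwards [h] with t ht
  rw [h1, ht]

private lemma Dadd_PoissonF {r : ℝ} (h0 : 0 ≤ r) (h1 : r < 1) {f g : T → ℂ}
    (hf : Integrable f mu) (hg : Integrable g mu) :
    Dr_PoissonF r (fun s => f s + g s) ≤ Dr_PoissonF r f + Dr_PoissonF r g := by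
  unfold Dr_PoissonF
  have hm : AEMeasurable (fun t => ‖Pr_PoissonF r f t - f t‖ₑ) mu :=
    ((meas_PoissonF h0 h1 hf.1).sub hf.1).enorm
  rw [← lintegral_add_left' hm]
  refine lintegral_mono fun t => ?_
  simp only
  rw [add_PoissonF h0 h1 hf hg]
  have : Pr_PoissonF r f t + Pr_PoissonF r g t - (f t + g t) =
      (Pr_PoissonF r f t - f t) + (Pr_PoissonF r g t - g t) := by ring
  rw [this]
  exact enorm_add_le _ _

private lemma Dsmul_PoissonF (r : ℝ) (f : T → ℂ) (c : ℂ) :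
    Dr_PoissonF r (fun s => c * f s) = ‖c‖ₑ * Dr_PoissonF r f := by
  unfold Dr_PoissonF
  rw [← lintegral_const_mul' _ _ (by simp)]
  refine lintegral_congr fun t => ?_
  rw [smul_PoissonF, ← mul_sub, enorm_mul]

private lemma lint_pk_PoissonF {r : ℝ} (h0 : 0 ≤ r) (h1 : r < 1) (t : T) :
    ∫⁻ s, ENNReal.ofReal (pk ((r : ℂ) * pt t) s) ∂mu = 1 := by
  have hz := rpt_PoissonF h0 h1 t
  rw [← ofReal_integral_eq_lintegral_ofReal (cont_intR (pk_cont hz))
    (Eventually.of_forall fun s => pk_nonneg hz s), int_pk hz]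
  simp

private lemma contr_PoissonF {r : ℝ} (h0 : 0 ≤ r) (h1 : r < 1) {f : T → ℂ}
    (hf : Integrable f mu) : ∫⁻ t, ‖Pr_PoissonF r f t‖ₑ ∂mu ≤ ∫⁻ t, ‖f t‖ₑ ∂mu := by
  have h2 : ∀ t, ‖Pr_PoissonF r f t‖ₑ ≤
      ∫⁻ s, ‖f s‖ₑ * ENNReal.ofReal (pk ((r : ℂ) * pt t) s) ∂mu := by
    intro t
    refine (enorm_integral_le_lintegral_enorm _).trans (le_of_eq ?_)
    refine lintegral_congr fun s => ?_
    rw [enorm_mul]
    congr 1
    rw [← ofReal_norm, Complex.norm_real,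
      Real.norm_of_nonneg (pk_nonneg (rpt_PoissonF h0 h1 t) s)]
  have hm : AEMeasurable (fun p : T × T => ‖f p.2‖ₑ * ENNReal.ofReal (pk ((r : ℂ) * pt p.1) p.2))
      (mu.prod mu) := by
    refine AEMeasurable.mul hf.1.comp_snd.enorm ?_
    exact (ENNReal.continuous_ofReal.comp (pk_cont2_PoissonF h0 h1)).measurable.aemeasurable
  calc ∫⁻ t, ‖Pr_PoissonF r f t‖ₑ ∂mu
      ≤ ∫⁻ t, ∫⁻ s, ‖f s‖ₑ * ENNReal.ofReal (pk ((r : ℂ) * pt t) s) ∂mu ∂mu :=
        lintegral_mono h2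
    _ = ∫⁻ s, ∫⁻ t, ‖f s‖ₑ * ENNReal.ofReal (pk ((r : ℂ) * pt t) s) ∂mu ∂mu := by
        rw [lintegral_lintegral_swap hm]
    _ = ∫⁻ s, ‖f s‖ₑ ∂mu := by
        refine lintegral_congr fun s => ?_
        rw [lintegral_const_mul' _ _ (by simp)]
        have : ∀ t, ENNReal.ofReal (pk ((r : ℂ) * pt t) s) =
            ENNReal.ofReal (pk ((r : ℂ) * pt s) t) := fun t => by rw [pk_symm_PoissonF]
        simp_rw [this]
        rw [lint_pk_PoissonF h0 h1 s, mul_one]

private lemma Dle_PoissonF {r : ℝ} (h0 : 0 ≤ r) (h1 : r < 1) {f : T → ℂ}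
    (hf : Integrable f mu) : Dr_PoissonF r f ≤ 2 * ∫⁻ t, ‖f t‖ₑ ∂mu := by
  unfold Dr_PoissonF
  calc ∫⁻ t, ‖Pr_PoissonF r f t - f t‖ₑ ∂mu
      ≤ ∫⁻ t, (‖Pr_PoissonF r f t‖ₑ + ‖f t‖ₑ) ∂mu := lintegral_mono fun t => enorm_sub_le
    _ = ∫⁻ t, ‖Pr_PoissonF r f t‖ₑ ∂mu + ∫⁻ t, ‖f t‖ₑ ∂mu :=
        lintegral_add_left' (meas_PoissonF h0 h1 hf.1).enorm _
    _ ≤ ∫⁻ t, ‖f t‖ₑ ∂mu + ∫⁻ t, ‖f t‖ₑ ∂mu := add_le_add (contr_PoissonF h0 h1 hf) le_rfl
    _ = 2 * ∫⁻ t, ‖f t‖ₑ ∂mu := by rw [two_mul]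

private lemma ePos_PoissonF {r : ℝ} (h0 : 0 ≤ r) (h1 : r < 1) (n : ℕ) (t : T) :
    Pr_PoissonF r (e (n : ℤ)) t = (r : ℂ) ^ n * e n t := by
  have hz := rpt_PoissonF h0 h1 t
  have hmem : (e (n : ℤ)) ∈ HInf := by
    induction n with
    | zero =>
      have := const_HInf (1 : ℂ)
      refine congr_HInf this (Eventually.of_forall fun t => ?_)
      simp
    | succ k ih =>
      have h3 := mul_e_HInf ih
      refine congr_HInf h3 (Eventually.of_forall fun t => ?_)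
      simp only
      rw [← e_add]
      norm_num
  have h2 := int_pk_HInf hmem hz
  unfold Pr_PoissonF
  rw [h2]
  have h3 : ∀ m : ℕ, fourierCoeff (e (n : ℤ)) (m : ℤ) = if m = n then 1 else 0 := by
    intro m
    rw [fc_def]
    have : ∀ s, e (-(m : ℤ)) s * e (n : ℤ) s = e (-(m : ℤ) + n) s := fun s => (e_add _ _ s).symm
    simp_rw [this]
    rw [int_e]
    by_cases hm : m = n
    · subst hm; simp
    · rw [if_neg (by omega), if_neg hm]
  rw [Helper34.Dg.ext]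
  simp_rw [h3]
  have h4 : (fun m : ℕ => (if m = n then (1 : ℂ) else 0) * ((r : ℂ) * pt t) ^ m) =
      fun m : ℕ => if m = n then ((r : ℂ) * pt t) ^ n else 0 := by
    funext m
    by_cases hm : m = n
    · subst hm; simp
    · simp [hm]
  rw [h4, tsum_ite_eq, mul_pow, e_nat]
  rfl

private lemma eNeg_PoissonF {r : ℝ} (h0 : 0 ≤ r) (h1 : r < 1) (n : ℕ) (t : T) :
    Pr_PoissonF r (e (-(n : ℤ))) t = (r : ℂ) ^ n * e (-(n : ℤ)) t := by
  have h := congrArg conj (ePos_PoissonF h0 h1 n t)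
  rw [e_neg, map_mul, map_pow, Complex.conj_ofReal] at *
  rw [← h]
  unfold Pr_PoissonF
  rw [← integral_conj]
  congr 1
  funext s
  rw [map_mul, Complex.conj_ofReal, e_neg]

private lemma eInt_PoissonF {r : ℝ} (h0 : 0 ≤ r) (h1 : r < 1) (n : ℤ) (t : T) :
    Pr_PoissonF r (e n) t = (r : ℂ) ^ n.natAbs * e n t := by
  rcases Int.natAbs_eq n with h | h
  · have h2 := ePos_PoissonF h0 h1 n.natAbs t
    rw [← h] at h2; exact h2
  · have h2 := eNeg_PoissonF h0 h1 n.natAbs t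
    rw [← h] at h2; exact h2

private lemma De_PoissonF (n : ℤ) :
    Tendsto (fun r : ℝ => Dr_PoissonF r (e n)) (𝓝[<] 1) (𝓝 0) := by
  have h1 : ∀ᶠ r : ℝ in 𝓝[<] 1, Dr_PoissonF r (e n) = ENNReal.ofReal (1 - r ^ n.natAbs) := by
    filter_upwards [Ioo_mem_nhdsLT (zero_lt_one (α := ℝ))] with r hr
    unfold Dr_PoissonF
    have : ∀ t, ‖Pr_PoissonF r (e n) t - e n t‖ₑ = ENNReal.ofReal (1 - r ^ n.natAbs) := by
      intro t
      rw [eInt_PoissonF hr.1.le hr.2, ← ofReal_norm]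
      congr 1
      have h2 : (r : ℂ) ^ n.natAbs * e n t - e n t = (((r ^ n.natAbs - 1 : ℝ)) : ℂ) * e n t := by
        push_cast; ring
      rw [h2, norm_mul, e_norm, mul_one, Complex.norm_real, Real.norm_eq_abs, abs_sub_comm,
        abs_of_nonneg]
      have := pow_le_one₀ (n := n.natAbs) hr.1.le hr.2.le
      linarith
    simp_rw [this]
    simp
  refine Tendsto.congr' (EventuallyEq.symm h1) ?_
  have h2 : Tendsto (fun r : ℝ => 1 - r ^ n.natAbs) (𝓝[<] 1) (𝓝 0) := by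
    have : Tendsto (fun r : ℝ => 1 - r ^ n.natAbs) (𝓝 1) (𝓝 (1 - 1 ^ n.natAbs)) :=
      ((continuous_const.sub (continuous_pow _)).tendsto 1)
    simp only [one_pow, sub_self] at this
    exact this.mono_left nhdsWithin_le_nhds
  have h3 := ENNReal.tendsto_ofReal h2
  simpa using h3

private lemma span_PoissonF (p : Lp ℂ 1 mu)
    (hp : p ∈ Submodule.span ℂ (range (@fourierLp (1 : ℝ) _ 1 _))) :
    Tendsto (fun r : ℝ => Dr_PoissonF r p) (𝓝[<] 1) (𝓝 0) := by
  have hev : ∀ᶠ r : ℝ in 𝓝[<] 1, 0 ≤ r ∧ r < 1 := by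
    filter_upwards [Ioo_mem_nhdsLT (zero_lt_one (α := ℝ))] with r hr using ⟨hr.1.le, hr.2⟩
  refine Submodule.span_induction (p := fun (q : Lp ℂ 1 mu) _ =>
    Tendsto (fun r : ℝ => Dr_PoissonF r q) (𝓝[<] 1) (𝓝 0)) ?_ ?_ ?_ ?_ hp
  · rintro _ ⟨n, rfl⟩
    have h := coeFn_fourierLp (T := (1 : ℝ)) 1 n
    refine (De_PoissonF n).congr fun r => ?_
    exact (congr_PoissonF r h).symm
  · have h : ∀ r, Dr_PoissonF r ((0 : Lp ℂ 1 mu) : T → ℂ) = 0 := by
      intro r
      rw [congr_PoissonF r (Lp.coeFn_zero ℂ 1 mu)]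
      simp [Dr_PoissonF, Pr_PoissonF]
    simp_rw [h]
    exact tendsto_const_nhds
  · intro x y _ _ hx hy
    have h3 := hx.add hy
    rw [add_zero] at h3
    refine tendsto_of_tendsto_of_tendsto_of_le_of_le' tendsto_const_nhds h3
      (Eventually.of_forall fun r => zero_le) ?_
    filter_upwards [hev] with r hr
    rw [congr_PoissonF r (Lp.coeFn_add x y)]
    exact Dadd_PoissonF hr.1 hr.2 (L1.integrable_coeFn x) (L1.integrable_coeFn y)
  · intro c x _ hx
    have h3 := ENNReal.Tendsto.const_mul (a := ‖c‖ₑ) hx (Or.inr (by simp))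
    rw [mul_zero] at h3
    refine h3.congr fun r => ?_
    rw [congr_PoissonF r (Lp.coeFn_smul c x)]
    exact (Dsmul_PoissonF r x c).symm

private lemma main_PoissonF {f : T → ℂ} (hf : Integrable f mu) :
    Tendsto (fun r : ℝ => Dr_PoissonF r f) (𝓝[<] 1) (𝓝 0) := by
  have hev : ∀ᶠ r : ℝ in 𝓝[<] 1, 0 ≤ r ∧ r < 1 := by
    filter_upwards [Ioo_mem_nhdsLT (zero_lt_one (α := ℝ))] with r hr using ⟨hr.1.le, hr.2⟩
  rw [ENNReal.tendsto_nhds_zero]
  intro ε hε
  -- approximate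
  obtain ⟨δ, hδ0, hδ⟩ : ∃ δ : ℝ, 0 < δ ∧ ENNReal.ofReal δ ≤ ε / 4 := by
    have h4 : 0 < ε / 4 := ENNReal.div_pos hε.ne' (by simp)
    obtain ⟨δ, h5, h6⟩ := ENNReal.lt_iff_exists_real_btwn.1 h4
    refine ⟨δ, ?_, h6.2.le⟩
    exact ENNReal.ofReal_pos.1 h6.1
  have hcl : hf.toL1 f ∈ closure ((Submodule.span ℂ (range (@fourierLp (1 : ℝ) _ 1 _)) :
      Submodule ℂ (Lp ℂ 1 mu)) : Set (Lp ℂ 1 mu)) := by
    have h := span_fourierLp_closure_eq_top (T := (1 : ℝ)) (p := 1) (by simp)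
    have h2 : hf.toL1 f ∈ (Submodule.span ℂ (range (@fourierLp (1 : ℝ) _ 1 _)) :
      Submodule ℂ (Lp ℂ 1 mu)).topologicalClosure := by
      rw [h]; trivial
    exact h2
  obtain ⟨p, hp, hd⟩ := Metric.mem_closure_iff.1 hcl δ hδ0
  have hpi : Integrable (p : T → ℂ) mu := L1.integrable_coeFn p
  have hq : Integrable (fun t => f t - p t) mu := hf.sub hpi
  have hnorm : ∫⁻ t, ‖f t - p t‖ₑ ∂mu ≤ ENNReal.ofReal δ := by
    rw [dist_eq_norm, L1.norm_eq_integral_norm] at hd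
    have h7 : ∫ t, ‖(hf.toL1 f - p : Lp ℂ 1 mu) t‖ ∂mu = ∫ t, ‖f t - p t‖ ∂mu := by
      refine integral_congr_ae ?_
      filter_upwards [Lp.coeFn_sub (hf.toL1 f) p, hf.coeFn_toL1] with t h8 h9
      rw [h8, Pi.sub_apply, h9]
    rw [h7] at hd
    have h10 := ofReal_integral_norm_eq_lintegral_enorm hq
    rw [← h10]
    exact ENNReal.ofReal_le_ofReal hd.le
  have hsp := ENNReal.tendsto_nhds_zero.1 (span_PoissonF p hp) (ε / 2)
    (ENNReal.div_pos hε.ne' (by simp))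
  filter_upwards [hev, hsp] with r hr h11
  have h12 : Dr_PoissonF r f ≤ Dr_PoissonF r p + Dr_PoissonF r (fun t => f t - p t) := by
    have h13 := Dadd_PoissonF hr.1 hr.2 hpi hq
    have h14 : (fun s => p s + (f s - p s)) = f := by funext s; ring
    rw [h14] at h13
    exact h13
  refine h12.trans ?_
  have h15 : Dr_PoissonF r (fun t => f t - p t) ≤ ε / 2 := by
    refine (Dle_PoissonF hr.1 hr.2 hq).trans ?_
    calc 2 * ∫⁻ t, ‖f t - p t‖ₑ ∂mu ≤ 2 * (ε / 4) := by gcongr; exact hnorm.trans hδ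
      _ = ε / 2 := by
        rw [show (4 : ℝ≥0∞) = 2 * 2 by norm_num, ENNReal.div_eq_inv_mul,
          ENNReal.div_eq_inv_mul, ENNReal.mul_inv (by simp) (by simp)]
        rw [mul_assoc, ← mul_assoc 2 2⁻¹, ENNReal.mul_inv_cancel (by simp) (by simp), one_mul]
  calc Dr_PoissonF r p + Dr_PoissonF r (fun t => f t - p t) ≤ ε / 2 + ε / 2 := add_le_add h11 h15
    _ = ε := ENNReal.add_halves ε

/-- Poisson integrals converge in `L¹`. -/
theorem poisson : S_poisson := by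
  intro φ hφ hM
  obtain ⟨M, hM⟩ := hM
  have hφi : Integrable φ mu := by
    refine Integrable.of_bound hφ M ?_
    filter_upwards [hM] with t ht
    simpa using ht
  have hfi : Integrable (fun t => (φ t : ℂ)) mu := hφi.ofReal
  have h := main_PoissonF hfi
  refine h.congr fun r => ?_
  unfold Dr_PoissonF
  refine lintegral_congr fun t => ?_
  have h2 : Pr_PoissonF r (fun t => (φ t : ℂ)) t =
      ((∫ s, φ s * pk ((r : ℂ) * pt t) s ∂mu : ℝ) : ℂ) := by
    unfold Pr_PoissonF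
    have h3 : ∀ s, (φ s : ℂ) * (pk ((r : ℂ) * pt t) s : ℂ) =
        ((φ s * pk ((r : ℂ) * pt t) s : ℝ) : ℂ) := fun s => by push_cast; rfl
    simp_rw [h3]
    exact integral_ofReal
  rw [h2, ← Complex.ofReal_sub, ← ofReal_norm, ← ofReal_norm, Complex.norm_real]

end Pool.Agent.H843
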