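import Pool.Agent.H843.Stmts

set_option autoImplicit false

namespace Pool.Agent.H843

open MeasureTheory Filter Topology Metric Set
open scoped ComplexConjugate ENNReal
open Pool.Agent.Helper34.Dg
open Pool.Agent.H720R2.HP (WD db)

private theorem image_exp_PolarF : (fun y : ℝ => Real.exp (-y)) '' Ioi (0 : ℝ) = Ioo (0 : ℝ) 1 := by
  ext r
  constructor
  · rintro ⟨y, hy, rfl⟩
    refine ⟨Real.exp_pos _, ?_⟩
    have : (0 : ℝ) < y := hy
    exact Real.exp_lt_one_iff.2 (by linarith)
  · rintro ⟨h0, h1⟩
    refine ⟨-Real.log r, ?_, ?_⟩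
    · have := Real.log_neg h0 h1
      show (0 : ℝ) < -Real.log r
      linarith
    · simp only [neg_neg]
      exact Real.exp_log h0

private theorem radial_PolarF (g : ℝ → ℝ≥0∞) :
    ∫⁻ r in Ioo (0 : ℝ) 1, ENNReal.ofReal r * g r =
      ∫⁻ y in Ioi (0 : ℝ), g (Real.exp (-y)) * ENNReal.ofReal (Real.exp (-2 * y)) := by
  rw [← image_exp_PolarF, lintegral_image_eq_lintegral_abs_deriv_mul (f' := fun y => -Real.exp (-y))
    measurableSet_Ioi]
  · refine lintegral_congr fun y => ?_
    have h1 : |-Real.exp (-y)| = Real.exp (-y) := by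
      rw [abs_neg, abs_of_pos (Real.exp_pos _)]
    rw [h1, ← mul_assoc, ← ENNReal.ofReal_mul (Real.exp_pos _).le, ← Real.exp_add, mul_comm]
    congr 3
    ring
  · intro y _
    have h1 : HasDerivAt (fun y : ℝ => Real.exp (-y)) (Real.exp (-y) * (-1)) y :=
      (hasDerivAt_neg y).exp
    refine (h1.congr_deriv ?_).hasDerivWithinAt
    ring
  · intro a _ b _ hab
    have := Real.exp_injective hab
    linarith

theorem polar : S_polar := by
  intro h hh
  have hind : Measurable (indicator disc h) := hh.indicator measurableSet_ball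
  have h1 : ∫⁻ z in disc, h z = ∫⁻ z, indicator disc h z := by
    rw [lintegral_indicator measurableSet_ball]
  rw [h1, ← Complex.lintegral_comp_polarCoord_symm]
  have hm : Measurable (fun p : ℝ × ℝ => ENNReal.ofReal p.1 •
      indicator disc h (Complex.polarCoord.symm p)) := by
    have h2 : Measurable (fun p : ℝ × ℝ => Complex.polarCoord.symm p) := by
      have h3 : (fun p : ℝ × ℝ => Complex.polarCoord.symm p) =
          fun p : ℝ × ℝ => ((p.1 : ℂ) * (Real.cos p.2 + Real.sin p.2 * Complex.I)) := by
        funext p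
        exact Complex.polarCoord_symm_apply p
      rw [h3]
      exact (by fun_prop : Continuous fun p : ℝ × ℝ =>
        ((p.1 : ℂ) * (Real.cos p.2 + Real.sin p.2 * Complex.I))).measurable
    exact (ENNReal.measurable_ofReal.comp measurable_fst).smul (hind.comp h2)
  have ht : polarCoord.target = Ioi (0 : ℝ) ×ˢ Ioo (-Real.pi) Real.pi := rfl
  rw [ht, Measure.volume_eq_prod, setLIntegral_prod_symm _ hm.aemeasurable]
  refine lintegral_congr fun x => ?_
  have h4 : ∀ r ∈ Ioi (0 : ℝ), ENNReal.ofReal (r, x).1 •
      indicator disc h (Complex.polarCoord.symm (r, x)) =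
      indicator (Ioo (0 : ℝ) 1) (fun r => ENNReal.ofReal r *
        h (r * Complex.exp (x * Complex.I))) r := by
    intro r hr
    have hr0 : (0 : ℝ) < r := hr
    have h5 : Complex.polarCoord.symm (r, x) = r * Complex.exp (x * Complex.I) := by
      rw [Complex.polarCoord_symm_apply, Complex.exp_mul_I, Complex.ofReal_cos, Complex.ofReal_sin]
    rw [h5]
    by_cases h6 : r < 1
    · have h7 : (r * Complex.exp (x * Complex.I) : ℂ) ∈ disc := by
        have : ‖(r * Complex.exp (x * Complex.I) : ℂ)‖ < 1 := by
          rw [norm_mul, Complex.norm_exp_ofReal_mul_I, mul_one, Complex.norm_real,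
            Real.norm_eq_abs, abs_of_pos hr0]
          exact h6
        simpa using this
      rw [indicator_of_mem h7, indicator_of_mem (show r ∈ Ioo (0 : ℝ) 1 from ⟨hr0, h6⟩)]
      rfl
    · have h7 : (r * Complex.exp (x * Complex.I) : ℂ) ∉ disc := by
        intro h8
        have : ‖(r * Complex.exp (x * Complex.I) : ℂ)‖ < 1 := by simpa using h8
        rw [norm_mul, Complex.norm_exp_ofReal_mul_I, mul_one, Complex.norm_real,
            Real.norm_eq_abs, abs_of_pos hr0] at this
        exact h6 this
      rw [indicator_of_notMem h7, indicator_of_notMem (fun h8 => h6 h8.2), smul_zero]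
  rw [setLIntegral_congr_fun measurableSet_Ioi h4, lintegral_indicator measurableSet_Ioo,
    Measure.restrict_restrict measurableSet_Ioo]
  have h9 : Ioo (0 : ℝ) 1 ∩ Ioi 0 = Ioo (0 : ℝ) 1 := inter_eq_left.2 fun r hr => hr.1
  rw [h9, radial_PolarF (fun r => h (r * Complex.exp (x * Complex.I)))]
  refine lintegral_congr fun y => ?_
  congr 2
  rw [Complex.ofReal_exp, ← Complex.exp_add]
  congr 1
  push_cast
  have := Complex.I_mul_I
  linear_combination (-(y : ℂ)) * this

end Pool.Agent.H843
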