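import Pool.Agent.H843.Stmts

set_option autoImplicit false

namespace Pool.Agent.H843

open MeasureTheory Filter Topology Metric Set
open scoped ComplexConjugate ENNReal
open Pool.Agent.Helper34.Dg
open Pool.Agent.H720R2.HP (WD db)

/-- The measure of a sublevel set of the tail function. -/
private theorem claim_Tele {X : Type} [MeasurableSpace X] (τ : Measure X) (s : X → ℝ) (v : ℝ≥0∞) :
    τ {x | τ {y | s x ≤ s y} ≤ v} ≤ v := by
  have hanti : ∀ a b : ℝ, a ≤ b → τ {y | b ≤ s y} ≤ τ {y | a ≤ s y} := fun a b hab =>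
    measure_mono fun y (hy : b ≤ s y) => hab.trans hy
  by_cases hmin : ∃ x₀, τ {y | s x₀ ≤ s y} ≤ v ∧ ∀ x, τ {y | s x ≤ s y} ≤ v → s x₀ ≤ s x
  · obtain ⟨x₀, h1, h2⟩ := hmin
    exact (measure_mono fun x hx => h2 x hx).trans h1
  · push Not at hmin
    let ι : Type := {q : ℚ // τ {y | (q : ℝ) ≤ s y} ≤ v}
    have hsub : {x | τ {y | s x ≤ s y} ≤ v} ⊆ ⋃ q : ι, {y | ((q.1 : ℚ) : ℝ) ≤ s y} := by
      intro x hx
      obtain ⟨x', h1, h2⟩ := hmin x hx
      obtain ⟨q, hq1, hq2⟩ := exists_rat_btwn h2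
      refine mem_iUnion.2 ⟨⟨q, ?_⟩, hq2.le⟩
      exact (hanti _ _ hq1.le).trans h1
    have hdir : Directed (· ⊆ ·) fun q : ι => {y | ((q.1 : ℚ) : ℝ) ≤ s y} := by
      intro q q'
      rcases le_total q.1 q'.1 with h | h
      · refine ⟨q, subset_rfl, fun y hy => ?_⟩
        have h' : ((q.1 : ℚ) : ℝ) ≤ ((q'.1 : ℚ) : ℝ) := by exact_mod_cast h
        exact h'.trans hy
      · refine ⟨q', fun y hy => ?_, subset_rfl⟩
        have h' : ((q'.1 : ℚ) : ℝ) ≤ ((q.1 : ℚ) : ℝ) := by exact_mod_cast h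
        exact h'.trans hy
    refine (measure_mono hsub).trans ?_
    rw [hdir.measure_iUnion]
    exact iSup_le fun q => q.2

private theorem int_Tele : ∫⁻ t in Ioc (0 : ℝ) 1, ENNReal.ofReal (-Real.log t) ≤ 1 := by
  have hint : IntegrableOn (fun t : ℝ => -Real.log t) (Ioc 0 1) := by
    have := (intervalIntegral.intervalIntegrable_log' (a := 0) (b := 1)).neg
    exact (intervalIntegrable_iff_integrableOn_Ioc_of_le zero_le_one).1 this
  have hnn : 0 ≤ᵐ[volume.restrict (Ioc (0 : ℝ) 1)] fun t : ℝ => -Real.log t := by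
    refine (ae_restrict_iff' measurableSet_Ioc).2 (Eventually.of_forall fun t ht => ?_)
    have := Real.log_nonpos ht.1.le ht.2
    simp only [Pi.zero_apply]
    linarith
  rw [← ofReal_integral_eq_lintegral_ofReal hint hnn]
  have h1 : ∫ t in Ioc (0 : ℝ) 1, -Real.log t = 1 := by
    rw [← intervalIntegral.integral_of_le zero_le_one, intervalIntegral.integral_neg, integral_log]
    simp
  rw [h1]
  simp

theorem tele : S_tele := by
  intro X _ τ _ s hs
  let h : ℝ → ℝ := fun a => (τ {y | a ≤ s y}).toReal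
  have hanti : Antitone h := fun a b hab =>
    ENNReal.toReal_mono (measure_ne_top _ _) (measure_mono fun y (hy : b ≤ s y) => hab.trans hy)
  have hm : Measurable fun x => Real.exp (-(h (s x))) :=
    (hanti.measurable.comp hs).neg.exp
  have h0 : ∀ a, 0 ≤ h a := fun a => ENNReal.toReal_nonneg
  have e1 : ∫⁻ x, ENNReal.ofReal (Real.exp (-(τ {y | s x ≤ s y}).toReal)) ∂τ =
      ∫⁻ t in Ioi (0 : ℝ), τ {x | t ≤ Real.exp (-(h (s x)))} :=
    lintegral_eq_lintegral_meas_le τ (Eventually.of_forall fun x => (Real.exp_pos _).le)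
      hm.aemeasurable
  rw [e1]
  have e2 : ∫⁻ t in Ioi (0 : ℝ), τ {x | t ≤ Real.exp (-(h (s x)))} =
      (∫⁻ t in Ioc (0 : ℝ) 1, τ {x | t ≤ Real.exp (-(h (s x)))}) +
        ∫⁻ t in Ioi (1 : ℝ), τ {x | t ≤ Real.exp (-(h (s x)))} := by
    rw [← Ioc_union_Ioi_eq_Ioi (zero_le_one (α := ℝ))]
    exact lintegral_union measurableSet_Ioi (by
      rw [Set.disjoint_left]
      intro t h1 h2
      exact absurd h1.2 (not_le.2 h2))
  have e3 : ∫⁻ t in Ioi (1 : ℝ), τ {x | t ≤ Real.exp (-(h (s x)))} = 0 := by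
    rw [setLIntegral_congr_fun measurableSet_Ioi (g := fun _ => 0)]
    · simp
    · intro t ht
      have : {x | t ≤ Real.exp (-(h (s x)))} = ∅ := by
        ext x
        simp only [Set.mem_ofPred_eq, mem_empty_iff_false, iff_false, not_le]
        have h1 : Real.exp (-(h (s x))) ≤ 1 := Real.exp_le_one_iff.2 (by linarith [h0 (s x)])
        exact h1.trans_lt ht
      simp only [this, measure_empty]
  rw [e2, e3, add_zero]
  refine le_trans (setLIntegral_mono' measurableSet_Ioc fun t ht => ?_) int_Tele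
  refine le_trans (measure_mono ?_) (claim_Tele τ s (ENNReal.ofReal (-Real.log t)))
  intro x hx
  have h1 : t ≤ Real.exp (-(h (s x))) := hx
  have h2 : Real.log t ≤ -(h (s x)) := (Real.log_le_iff_le_exp ht.1).2 h1
  have h3 : h (s x) ≤ -Real.log t := by linarith
  exact (ENNReal.le_ofReal_iff_toReal_le (measure_ne_top _ _)
    (by linarith [h0 (s x)])).2 h3

end Pool.Agent.H843
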