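import Pool.Agent.H843.Stmts

set_option autoImplicit false

namespace Pool.Agent.H843

open MeasureTheory Filter Topology Metric Set
open scoped ComplexConjugate ENNReal
open Pool.Agent.Helper34.Dg
open Pool.Agent.H720R2.HP (WD db)

/-- the interval -/
private abbrev W_Transfer : Set ℝ := Set.Ioc 0 (2 * Real.pi)

/-- Lebesgue measure on the interval -/
private noncomputable abbrev lam_Transfer : Measure ℝ := (volume : Measure ℝ).restrict W_Transfer

/-- the parametrisation of the circle -/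
private noncomputable def iota_Transfer (x : ℝ) : T := ((x / (2 * Real.pi) : ℝ) : T)

/-- its inverse -/
private noncomputable def kap_Transfer (t : T) : ℝ :=
  2 * Real.pi * ((AddCircle.measurableEquivIoc (1 : ℝ) 0 t : Ioc (0 : ℝ) (0 + 1)) : ℝ)

private lemma iota_kap_Transfer (t : T) : iota_Transfer (kap_Transfer t) = t := by
  unfold iota_Transfer kap_Transfer
  rw [mul_div_cancel_left₀ _ (by positivity : (2 * Real.pi : ℝ) ≠ 0)]
  exact AddCircle.coe_equivIoc (p := (1 : ℝ)) (a := 0) (y := t)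

private lemma kap_iota_Transfer (x : ℝ) (hx : x ∈ W_Transfer) :
    kap_Transfer (iota_Transfer x) = x := by
  unfold iota_Transfer kap_Transfer
  have hpi : (0 : ℝ) < 2 * Real.pi := by positivity
  have hmem : x / (2 * Real.pi) ∈ Ioc (0 : ℝ) (0 + 1) := by
    refine ⟨div_pos hx.1 hpi, ?_⟩
    rw [zero_add, div_le_one hpi]
    exact hx.2
  have h1 : (AddCircle.equivIoc (1 : ℝ) 0) ((x / (2 * Real.pi) : ℝ) : T) =
      ⟨x / (2 * Real.pi), hmem⟩ := AddCircle.equivIoc_coe_eq (p := (1 : ℝ)) hmem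
  have h2 : (AddCircle.measurableEquivIoc (1 : ℝ) 0) ((x / (2 * Real.pi) : ℝ) : T) =
      ⟨x / (2 * Real.pi), hmem⟩ := h1
  rw [h2]
  field_simp

private lemma qmul_Transfer (c : ℝ) (hc : c ≠ 0) :
    Measure.QuasiMeasurePreserving (fun x : ℝ => c * x) volume volume := by
  refine ⟨measurable_const_mul c, ?_⟩
  rw [Real.map_volume_mul_left hc]
  exact Measure.smul_absolutelyContinuous

private lemma qiota_Transfer : Measure.QuasiMeasurePreserving iota_Transfer lam_Transfer mu := by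
  have hpi : (0 : ℝ) < 2 * Real.pi := by positivity
  have h1 : Measure.QuasiMeasurePreserving (fun x : ℝ => (2 * Real.pi)⁻¹ * x)
      lam_Transfer ((volume : Measure ℝ).restrict (Ioc 0 (0 + 1))) := by
    refine (qmul_Transfer (2 * Real.pi)⁻¹ (by positivity)).restrict ?_
    intro x hx
    refine ⟨by have := hx.1; positivity, ?_⟩
    rw [zero_add, inv_mul_le_iff₀ hpi, mul_one]
    exact hx.2
  have h2 := (AddCircle.measurePreserving_mk (1 : ℝ) 0).quasiMeasurePreserving
  have h3 := h2.comp h1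
  rw [P648.mu_eq_vol] at h3
  convert h3 using 1
  funext x
  simp only [iota_Transfer, Function.comp]
  congr 1
  ring

private lemma qkap_Transfer : Measure.QuasiMeasurePreserving kap_Transfer mu lam_Transfer := by
  have hpi : (0 : ℝ) < 2 * Real.pi := by positivity
  have h1 := (AddCircle.measurePreserving_equivIoc (1 : ℝ) (a := 0)).quasiMeasurePreserving
  have h2 := (measurePreserving_subtype_coe (μa := (volume : Measure ℝ))
    (measurableSet_Ioc (a := (0 : ℝ)) (b := 0 + 1))).quasiMeasurePreserving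
  have h3 : Measure.QuasiMeasurePreserving (fun x : ℝ => (2 * Real.pi) * x)
      ((volume : Measure ℝ).restrict (Ioc 0 (0 + 1))) lam_Transfer := by
    refine (qmul_Transfer (2 * Real.pi) (by positivity)).restrict ?_
    intro x hx
    refine ⟨by have := hx.1; positivity, ?_⟩
    have h4 : x ≤ 1 := by simpa using hx.2
    nlinarith
  have h5 := h3.comp (h2.comp h1)
  rw [P648.mu_eq_vol] at h5
  exact h5

private lemma int_Transfer (f : T → ℂ) :
    ∫ x in W_Transfer, f (iota_Transfer x) = (2 * Real.pi : ℂ) * ∫ t, f t ∂mu := by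
  have hpi : (0 : ℝ) < 2 * Real.pi := by positivity
  rw [← P648.mu_eq_vol, ← AddCircle.intervalIntegral_preimage 1 0,
    ← intervalIntegral.integral_of_le hpi.le]
  unfold iota_Transfer
  rw [intervalIntegral.integral_comp_div (fun x : ℝ => f (x : T)) hpi.ne']
  rw [zero_div, div_self hpi.ne', zero_add, Complex.real_smul]
  push_cast
  ring

private lemma e_iota_Transfer (n : ℕ) (x : ℝ) :
    e (((n : ℤ) + 1)) (iota_Transfer x) = Complex.exp (((n : ℂ) + 1) * Complex.I * (x : ℂ)) := by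
  unfold iota_Transfer
  rw [e, fourier_coe_apply]
  congr 1
  have hpi : (Real.pi : ℂ) ≠ 0 := by exact_mod_cast Real.pi_ne_zero
  push_cast
  field_simp

attribute [local irreducible] iota_Transfer kap_Transfer

private lemma memLp_iff_Transfer {α : Type*} [MeasurableSpace α] (μ : Measure α) (f : α → ℂ) :
    MemLp f ⊤ μ ↔ AEStronglyMeasurable f μ ∧ ∃ C : ℝ, ∀ᵐ t ∂μ, ‖f t‖ ≤ C := by
  constructor
  · intro hf
    refine ⟨hf.1, (eLpNorm f ∞ μ).toReal, ?_⟩
    have h := ae_le_eLpNormEssSup (f := f) (μ := μ)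
    filter_upwards [h] with t ht
    have hfin : eLpNorm f ∞ μ ≠ ∞ := hf.2.ne
    rw [eLpNorm_exponent_top] at *
    have := (ENNReal.toReal_le_toReal (by simp) hfin).2 ht
    simpa using this
  · rintro ⟨h1, C, hC⟩
    exact memLp_top_of_bound h1 C hC

private lemma memLp_kap_Transfer {f : ℝ → ℂ} (hf : MemLp f ⊤ lam_Transfer) :
    MemLp (fun t => f (kap_Transfer t)) ⊤ mu := by
  rw [memLp_iff_Transfer] at hf ⊢
  obtain ⟨h1, C, hC⟩ := hf
  have h2 := h1.comp_quasiMeasurePreserving qkap_Transfer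
  have h3 := qkap_Transfer.ae hC
  exact ⟨h2, C, h3⟩

private lemma memLp_iota_Transfer {f : T → ℂ} (hf : MemLp f ⊤ mu) :
    MemLp (fun x => f (iota_Transfer x)) ⊤ lam_Transfer := by
  rw [memLp_iff_Transfer] at hf ⊢
  obtain ⟨h1, C, hC⟩ := hf
  have h2 := h1.comp_quasiMeasurePreserving qiota_Transfer
  have h3 := qiota_Transfer.ae hC
  exact ⟨h2, C, h3⟩

private lemma kap_iota_ae_Transfer (f : ℝ → ℂ) :
    (fun x => f (kap_Transfer (iota_Transfer x))) =ᵐ[lam_Transfer] f := by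
  filter_upwards [ae_restrict_mem measurableSet_Ioc] with x hx
  rw [kap_iota_Transfer x hx]

private lemma hinf_kap_Transfer {f : ℝ → ℂ} (hf : MemLp f ⊤ lam_Transfer)
    (h : ∀ n : ℕ, ∫ x in W_Transfer,
      Complex.exp (((n : ℂ) + 1) * Complex.I * (x : ℂ)) * f x = 0) :
    (fun t => f (kap_Transfer t)) ∈ HInf := by
  refine ⟨memLp_kap_Transfer hf, fun n hn => ?_⟩
  obtain ⟨m, rfl⟩ : ∃ m : ℕ, n = -((m : ℤ) + 1) := ⟨(-n - 1).toNat, by omega⟩
  rw [fc_def, neg_neg]
  have h1 := int_Transfer (fun t => e ((m : ℤ) + 1) t * f (kap_Transfer t))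
  have h2 : ∫ x in W_Transfer, e ((m : ℤ) + 1) (iota_Transfer x) *
      f (kap_Transfer (iota_Transfer x)) = 0 := by
    rw [← h m]
    refine setIntegral_congr_fun measurableSet_Ioc fun x hx => ?_
    rw [kap_iota_Transfer x hx, e_iota_Transfer]
  rw [h2] at h1
  have hpi : (2 * Real.pi : ℂ) ≠ 0 := by
    have : (Real.pi : ℂ) ≠ 0 := by exact_mod_cast Real.pi_ne_zero
    simpa using this
  exact (mul_eq_zero.1 h1.symm).resolve_left hpi

private lemma hinf_iota_Transfer {f : T → ℂ} (hf : f ∈ HInf) (n : ℕ) :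
    ∫ x in W_Transfer,
      Complex.exp (((n : ℂ) + 1) * Complex.I * (x : ℂ)) * f (iota_Transfer x) = 0 := by
  have h1 := int_Transfer (fun t => e ((n : ℤ) + 1) t * f t)
  have h2 := hf.2 (-((n : ℤ) + 1)) (by omega)
  rw [fc_def, neg_neg] at h2
  rw [h2, mul_zero] at h1
  rw [← h1]
  refine setIntegral_congr_fun measurableSet_Ioc fun x _ => ?_
  rw [e_iota_Transfer]

theorem frozen (h : S_main) :
    ∀ D : Set (ℝ → ℂ),
      (∀ f ∈ D, MemLp f ⊤ ((volume : Measure ℝ).restrict (Set.Ioc 0 (2 * Real.pi)))) →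
      (∀ f ∈ D, ∀ g : ℝ → ℂ,
        g =ᵐ[(volume : Measure ℝ).restrict (Set.Ioc 0 (2 * Real.pi))] f → g ∈ D) →
      (∀ f ∈ D, ∀ g ∈ D, f + g ∈ D) →
      (∀ f ∈ D, ∀ g ∈ D, f * g ∈ D) →
      (∀ c : ℂ, ∀ f ∈ D, c • f ∈ D) →
      (∀ f : ℝ → ℂ, MemLp f ⊤ ((volume : Measure ℝ).restrict (Set.Ioc 0 (2 * Real.pi))) →
        ∀ u : ℕ → ℝ → ℂ, (∀ n, u n ∈ D) →
          Tendsto (fun n => eLpNorm (u n - f) ⊤
            ((volume : Measure ℝ).restrict (Set.Ioc 0 (2 * Real.pi)))) atTop (𝓝 0) → f ∈ D) →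
      (∀ f : ℝ → ℂ, MemLp f ⊤ ((volume : Measure ℝ).restrict (Set.Ioc 0 (2 * Real.pi))) →
        (∀ n : ℕ, ∫ x in Set.Ioc 0 (2 * Real.pi),
          Complex.exp (((n : ℂ) + 1) * Complex.I * (x : ℂ)) * f x = 0) → f ∈ D) →
      ∀ a b : ℝ → ℂ,
        (a ∈ D ∧ (fun t => starRingEnd ℂ (a t)) ∈ D ∧
          ∀ n : ℕ, ∫ x in Set.Ioc 0 (2 * Real.pi),
            Complex.exp (((n : ℂ) + 1) * Complex.I * (x : ℂ)) * a x = 0) →
        (b ∈ D ∧ (fun t => starRingEnd ℂ (b t)) ∈ D ∧
          ∀ n : ℕ, ∫ x in Set.Ioc 0 (2 * Real.pi),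
            Complex.exp (((n : ℂ) + 1) * Complex.I * (x : ℂ)) * b x = 0) →
        (∃ u v : ℝ → ℂ,
          (u ∈ D ∧ (fun t => starRingEnd ℂ (u t)) ∈ D ∧
            ∀ n : ℕ, ∫ x in Set.Ioc 0 (2 * Real.pi),
              Complex.exp (((n : ℂ) + 1) * Complex.I * (x : ℂ)) * u x = 0) ∧
          (v ∈ D ∧ (fun t => starRingEnd ℂ (v t)) ∈ D ∧
            ∀ n : ℕ, ∫ x in Set.Ioc 0 (2 * Real.pi),
              Complex.exp (((n : ℂ) + 1) * Complex.I * (x : ℂ)) * v x = 0) ∧
          u * a + v * b =ᵐ[(volume : Measure ℝ).restrict (Set.Ioc 0 (2 * Real.pi))] 1) →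
        ∃ c w : ℝ → ℂ,
          (c ∈ D ∧ (fun t => starRingEnd ℂ (c t)) ∈ D ∧
            ∀ n : ℕ, ∫ x in Set.Ioc 0 (2 * Real.pi),
              Complex.exp (((n : ℂ) + 1) * Complex.I * (x : ℂ)) * c x = 0) ∧
          (w ∈ D ∧ (fun t => starRingEnd ℂ (w t)) ∈ D ∧
            ∀ n : ℕ, ∫ x in Set.Ioc 0 (2 * Real.pi),
              Complex.exp (((n : ℂ) + 1) * Complex.I * (x : ℂ)) * w x = 0) ∧
          (a + c * b) * w =ᵐ[(volume : Measure ℝ).restrict (Set.Ioc 0 (2 * Real.pi))] 1 := by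
  intro D hLp hae hadd hmul hsmul hclosed hHinf a b ha hb huv
  obtain ⟨u, v, hu, hv, huv⟩ := huv
  have h0 : (0 : ℝ → ℂ) ∈ D := by
    refine hHinf 0 MemLp.zero fun n => ?_
    simp
  let D' : Submodule ℂ (T →ₘ[mu] ℂ) :=
    { carrier := {φ | (fun x => φ (iota_Transfer x)) ∈ D}
      zero_mem' := by
        refine hae _ h0 _ ?_
        have h1 := AEEqFun.coeFn_zero (α := T) (β := ℂ) (μ := mu)
        filter_upwards [qiota_Transfer.ae h1] with x hx
        exact hx
      add_mem' := by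
        intro φ ψ hφ hψ
        refine hae _ (hadd _ hφ _ hψ) _ ?_
        have h1 := AEEqFun.coeFn_add φ ψ
        filter_upwards [qiota_Transfer.ae h1] with x hx
        exact hx
      smul_mem' := by
        intro c φ hφ
        refine hae _ (hsmul c _ hφ) _ ?_
        have h1 := AEEqFun.coeFn_smul c φ
        filter_upwards [qiota_Transfer.ae h1] with x hx
        exact hx }
  have hD'mem : ∀ φ : T →ₘ[mu] ℂ, φ ∈ D' ↔ (fun x => φ (iota_Transfer x)) ∈ D := fun φ => Iff.rfl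
  -- membership of functions
  have hM1 : ∀ f : T → ℂ, Mem D' f → (fun x => f (iota_Transfer x)) ∈ D := by
    rintro f ⟨g, hg, hgf⟩
    refine hae _ ((hD'mem g).1 hg) _ ?_
    filter_upwards [qiota_Transfer.ae hgf] with x hx
    exact hx.symm
  have hM2 : ∀ f : ℝ → ℂ, f ∈ D → Mem D' (fun t => f (kap_Transfer t)) := by
    intro f hf
    have h1 := memLp_kap_Transfer (hLp f hf)
    refine ⟨AEEqFun.mk _ h1.1, ?_, AEEqFun.coeFn_mk _ h1.1⟩
    rw [hD'mem]
    refine hae _ hf _ ?_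
    filter_upwards [qiota_Transfer.ae (AEEqFun.coeFn_mk _ h1.1), kap_iota_ae_Transfer f] with x hx hx2
    rw [hx]
    exact hx2
  have hDoug : IsDouglas D' := by
    refine ⟨?_, ?_, ?_, ?_⟩
    · intro g hg
      have h1 := hLp _ ((hD'mem g).1 hg)
      rw [memLp_iff_Transfer] at h1
      obtain ⟨_, C, hC⟩ := h1
      refine ⟨C, ?_⟩
      filter_upwards [qkap_Transfer.ae hC] with t ht
      rwa [iota_kap_Transfer] at ht
    · intro f hf g hg
      rw [hD'mem]
      refine hae _ (hmul _ ((hD'mem f).1 hf) _ ((hD'mem g).1 hg)) _ ?_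
      have h1 := AEEqFun.coeFn_mul f g
      filter_upwards [qiota_Transfer.ae h1] with x hx
      exact hx
    · intro g hg
      choose f hfD hf using fun n : ℕ => hg (1 / ((n : ℝ) + 1)) (by positivity)
      rw [hD'mem]
      have hgLp : MemLp (fun x => g (iota_Transfer x)) ⊤ lam_Transfer := by
        rw [memLp_iff_Transfer]
        refine ⟨g.aestronglyMeasurable.comp_quasiMeasurePreserving qiota_Transfer, ?_⟩
        have h1 := hLp _ ((hD'mem _).1 (hfD 0))
        rw [memLp_iff_Transfer] at h1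
        obtain ⟨_, C, hC⟩ := h1
        refine ⟨1 + C, ?_⟩
        filter_upwards [hC, qiota_Transfer.ae (hf 0)] with x hx hx2
        have h3 : ‖g (iota_Transfer x)‖ ≤ ‖g (iota_Transfer x) - f 0 (iota_Transfer x)‖ +
            ‖f 0 (iota_Transfer x)‖ := by
          have := norm_add_le (g (iota_Transfer x) - f 0 (iota_Transfer x)) (f 0 (iota_Transfer x))
          simpa using this
        have h4 : ‖g (iota_Transfer x) - f 0 (iota_Transfer x)‖ ≤ 1 := by simpa using hx2
        linarith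
      refine hclosed _ hgLp (fun n x => f n (iota_Transfer x)) (fun n => (hD'mem _).1 (hfD n)) ?_
      have hlim : Tendsto (fun n : ℕ => ENNReal.ofReal (1 / ((n : ℝ) + 1))) atTop (𝓝 0) := by
        rw [← ENNReal.ofReal_zero]
        exact ENNReal.tendsto_ofReal tendsto_one_div_add_atTop_nhds_zero_nat
      refine tendsto_of_tendsto_of_tendsto_of_le_of_le tendsto_const_nhds hlim
        (fun n => zero_le) (fun n => ?_)
      simp only
      rw [eLpNorm_exponent_top]
      refine eLpNormEssSup_le_of_ae_bound ?_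
      filter_upwards [qiota_Transfer.ae (hf n)] with x hx
      rw [Pi.sub_apply, norm_sub_rev]
      exact hx
    · intro G hG g hGg
      obtain ⟨g', hg', _, hGg'⟩ := bh_rep hG
      have hgg : (g : T → ℂ) =ᵐ[mu] g' := by
        filter_upwards [hGg, hGg'] with t h1 h2
        exact tendsto_nhds_unique h1 h2
      have h1 : (fun x => g' (iota_Transfer x)) ∈ D :=
        hHinf _ (memLp_iota_Transfer hg'.1) (hinf_iota_Transfer hg')
      rw [hD'mem]
      refine hae _ h1 _ ?_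
      filter_upwards [qiota_Transfer.ae hgg] with x hx
      exact hx
  obtain ⟨ha1, ha2, ha3⟩ := ha
  obtain ⟨hb1, hb2, hb3⟩ := hb
  obtain ⟨hu1, hu2, hu3⟩ := hu
  obtain ⟨hv1, hv2, hv3⟩ := hv
  have heq : ∀ᵐ t ∂mu, u (kap_Transfer t) * a (kap_Transfer t) +
      v (kap_Transfer t) * b (kap_Transfer t) = 1 := by
    filter_upwards [qkap_Transfer.ae huv] with t ht
    exact ht
  have q1 := hinf_kap_Transfer (hLp a ha1) ha3
  have q2 := hinf_kap_Transfer (hLp b hb1) hb3
  have q3 := hinf_kap_Transfer (hLp u hu1) hu3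
  have q4 := hinf_kap_Transfer (hLp v hv1) hv3
  have q5 := hM2 _ ha2
  have q6 := hM2 _ hb2
  have q7 := h D' hDoug _ _ _ _ q1 q2 q3 q4 q5 q6 heq
  obtain ⟨c, w, hc1, hc2, hw1, hw2, hcw⟩ := q7
  refine ⟨fun x => c (iota_Transfer x), fun x => w (iota_Transfer x),
    ⟨hHinf _ (memLp_iota_Transfer hc1.1) (hinf_iota_Transfer hc1), hM1 _ hc2,
      hinf_iota_Transfer hc1⟩,
    ⟨hHinf _ (memLp_iota_Transfer hw1.1) (hinf_iota_Transfer hw1), hM1 _ hw2,
      hinf_iota_Transfer hw1⟩, ?_⟩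
  filter_upwards [qiota_Transfer.ae hcw, kap_iota_ae_Transfer a, kap_iota_ae_Transfer b]
    with x hx hxa hxb
  rw [hxa, hxb] at hx
  exact hx

end Pool.Agent.H843
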