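import Pool.Agent.H843.Stmts

set_option autoImplicit false

namespace Pool.Agent.H843

open MeasureTheory Filter Topology Metric Set
open scoped ComplexConjugate ENNReal
open Pool.Agent.Helper34.Dg
open Pool.Agent.H720R2.HP (WD db)

namespace TransportAux

variable {κ : ℝ} {E : Set ℂ} {σ : ℂ → ℝ}

/-! ### measurability -/

theorem meas_point : Measurable (fun p : ℝ × ℝ => ((p.1 : ℂ) + (p.2 : ℂ) * Complex.I)) :=
  (by fun_prop : Continuous (fun p : ℝ × ℝ => ((p.1 : ℂ) + (p.2 : ℂ) * Complex.I))).measurable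

theorem eK_meas (κ : ℝ) (hE : MeasurableSet E) :
    Measurable (fun p : ℝ × ℝ => eK κ E p.1 p.2) := by
  have hA : MeasurableSet {q : (ℝ × ℝ) × ℝ | |q.2 - q.1.1| ≤ κ * q.1.2 ∧
      ((q.2 : ℂ) + (q.1.2 : ℂ) * Complex.I) ∈ E} := by
    refine MeasurableSet.inter (s₁ := {q : (ℝ × ℝ) × ℝ | |q.2 - q.1.1| ≤ κ * q.1.2})
      (s₂ := {q : (ℝ × ℝ) × ℝ | ((q.2 : ℂ) + (q.1.2 : ℂ) * Complex.I) ∈ E}) ?_ ?_
    · exact (isClosed_le (by fun_prop) (by fun_prop)).measurableSet
    · exact (meas_point.comp (by fun_prop : Measurable fun q : (ℝ × ℝ) × ℝ => (q.2, q.1.2))) hE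
  exact (measurable_measure_prodMk_left hA).ennreal_toReal

/-- the second measure in the flux -/
noncomputable def VV (κ : ℝ) (E : Set ℂ) (x y u : ℝ) : ℝ :=
  (volume {t : ℝ | t ≤ x ∧ |t - u| ≤ κ * y ∧ (t + y * Complex.I : ℂ) ∈ E}).toReal

theorem VV_meas (κ : ℝ) (hE : MeasurableSet E) :
    Measurable (fun p : (ℝ × ℝ) × ℝ => VV κ E p.1.1 p.1.2 p.2) := by
  have hA : MeasurableSet {q : ((ℝ × ℝ) × ℝ) × ℝ | q.2 ≤ q.1.1.1 ∧ |q.2 - q.1.2| ≤ κ * q.1.1.2 ∧
      ((q.2 : ℂ) + (q.1.1.2 : ℂ) * Complex.I) ∈ E} := by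
    refine MeasurableSet.inter (s₁ := {q : ((ℝ × ℝ) × ℝ) × ℝ | q.2 ≤ q.1.1.1})
      (s₂ := {q : ((ℝ × ℝ) × ℝ) × ℝ | |q.2 - q.1.2| ≤ κ * q.1.1.2 ∧
        ((q.2 : ℂ) + (q.1.1.2 : ℂ) * Complex.I) ∈ E}) ?_ ?_
    · exact (isClosed_le (by fun_prop) (by fun_prop)).measurableSet
    refine MeasurableSet.inter (s₁ := {q : ((ℝ × ℝ) × ℝ) × ℝ | |q.2 - q.1.2| ≤ κ * q.1.1.2})
      (s₂ := {q : ((ℝ × ℝ) × ℝ) × ℝ | ((q.2 : ℂ) + (q.1.1.2 : ℂ) * Complex.I) ∈ E}) ?_ ?_
    · exact (isClosed_le (by fun_prop) (by fun_prop)).measurableSet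
    · exact (meas_point.comp
        (by fun_prop : Measurable fun q : ((ℝ × ℝ) × ℝ) × ℝ => (q.2, q.1.1.2))) hE
  exact (measurable_measure_prodMk_left hA).ennreal_toReal

theorem meas_aux (κ : ℝ) {φ : ℂ → ℝ → ℝ} (hφ : Measurable (fun p : ℂ × ℝ => φ p.1 p.2)) :
    Measurable (fun w : ℂ => ∫ u in Icc (w.re - κ * w.im) (w.re + κ * w.im), φ w u) := by
  classical
  let B : Set (ℂ × ℝ) := {p | p.1.re - κ * p.1.im ≤ p.2 ∧ p.2 ≤ p.1.re + κ * p.1.im}
  have hB : MeasurableSet B := by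
    refine MeasurableSet.inter (s₁ := {p : ℂ × ℝ | p.1.re - κ * p.1.im ≤ p.2})
      (s₂ := {p : ℂ × ℝ | p.2 ≤ p.1.re + κ * p.1.im}) ?_ ?_
    · exact (isClosed_le (by fun_prop) (by fun_prop)).measurableSet
    · exact (isClosed_le (by fun_prop) (by fun_prop)).measurableSet
  have e : (fun w : ℂ => ∫ u in Icc (w.re - κ * w.im) (w.re + κ * w.im), φ w u) =
      fun w => ∫ u, (B.indicator (fun p : ℂ × ℝ => φ p.1 p.2)) (w, u) := by
    funext w
    rw [← integral_indicator measurableSet_Icc]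
    refine integral_congr_ae (Eventually.of_forall fun u => ?_)
    simp only [indicator_apply, mem_Icc]
    rfl
  rw [e]
  exact ((hφ.indicator hB).stronglyMeasurable.integral_prod_right').measurable

theorem meas_sigma (hσ : Measurable σ) :
    Measurable (fun p : ℂ × ℝ => σ ((p.2 : ℂ) + (p.1.im : ℂ) * Complex.I)) :=
  hσ.comp (meas_point.comp (by fun_prop : Measurable fun p : ℂ × ℝ => (p.2, p.1.im)))

theorem meas_e (hE : MeasurableSet E) :
    Measurable (fun p : ℂ × ℝ => eK κ E p.2 p.1.im) :=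
  (eK_meas κ hE).comp (by fun_prop : Measurable fun p : ℂ × ℝ => (p.2, p.1.im))

theorem DK_meas (κ : ℝ) (hE : MeasurableSet E) (hσ : Measurable σ) : Measurable (DK κ E σ) := by
  unfold DK
  exact Measurable.ite hE (meas_aux κ ((meas_sigma hσ).div (meas_e hE))) measurable_const

theorem avg_meas (κ : ℝ) (hσ : Measurable σ) : Measurable (avg κ σ) := by
  unfold avg
  refine Measurable.mul ?_ (meas_aux κ (meas_sigma hσ))
  fun_prop

theorem cK_meas (κ : ℝ) (hE : MeasurableSet E) (hσ : Measurable σ) : Measurable (cK κ E σ) := by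
  unfold cK
  refine meas_aux κ (φ := fun w u => σ (u + w.im * Complex.I) * ((if u < w.re then 1 else 0) -
      (volume {t : ℝ | t ≤ w.re ∧ |t - u| ≤ κ * w.im ∧ (t + w.im * Complex.I : ℂ) ∈ E}).toReal /
        eK κ E u w.im)) ?_
  refine (meas_sigma hσ).mul (Measurable.sub ?_ (Measurable.div ?_ (meas_e hE)))
  · exact Measurable.ite (measurableSet_lt (by fun_prop) (by fun_prop)) measurable_const
      measurable_const
  · exact (VV_meas κ hE).comp
      (by fun_prop : Measurable fun p : ℂ × ℝ => ((p.1.re, p.1.im), p.2))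

/-! ### bounds -/

theorem fin_eK (κ : ℝ) (E : Set ℂ) (x y : ℝ) :
    volume {u : ℝ | |u - x| ≤ κ * y ∧ (u + y * Complex.I : ℂ) ∈ E} < ⊤ := by
  refine lt_of_le_of_lt (measure_mono (t := Icc (x - κ * y) (x + κ * y)) ?_) measure_Icc_lt_top
  rintro u ⟨hu, _⟩
  rw [abs_le] at hu
  exact ⟨by linarith, by linarith⟩

theorem eK_nonneg (κ : ℝ) (E : Set ℂ) (x y : ℝ) : 0 ≤ eK κ E x y := ENNReal.toReal_nonneg

theorem VV_nonneg (κ : ℝ) (E : Set ℂ) (x y u : ℝ) : 0 ≤ VV κ E x y u := ENNReal.toReal_nonneg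

theorem VV_le (κ : ℝ) (E : Set ℂ) (x y u : ℝ) : VV κ E x y u ≤ eK κ E u y :=
  ENNReal.toReal_mono (fin_eK κ E u y).ne (measure_mono fun _ ht => ht.2)

open Classical in
/-- the bracket in the flux -/
noncomputable def kk (κ : ℝ) (E : Set ℂ) (x y u : ℝ) : ℝ :=
  (if u < x then 1 else 0) - VV κ E x y u / eK κ E u y

theorem kk_abs (κ : ℝ) (E : Set ℂ) (x y u : ℝ) : |kk κ E x y u| ≤ 1 := by
  have h0 := VV_nonneg κ E x y u
  have h1 := VV_le κ E x y u
  have h2 := eK_nonneg κ E u y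
  have h3 : 0 ≤ VV κ E x y u / eK κ E u y := div_nonneg h0 h2
  have h4 : VV κ E x y u / eK κ E u y ≤ 1 := div_le_one_of_le₀ h1 h2
  unfold kk
  rw [abs_le]
  split_ifs <;> constructor <;> linarith

theorem kk_zero {x y u : ℝ} (h : κ * y < |u - x|) (he : 0 < eK κ E u y) :
    kk κ E x y u = 0 := by
  unfold kk
  rcases lt_or_ge u x with hux | hux
  · rw [if_pos hux]
    have h1 : VV κ E x y u = eK κ E u y := by
      unfold VV eK
      congr 2
      ext t
      simp only [mem_ofPred_eq]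
      constructor
      · exact fun ht => ht.2
      · rintro ⟨ht, ht'⟩
        refine ⟨?_, ht, ht'⟩
        rw [abs_of_neg (by linarith)] at h
        rw [abs_le] at ht
        linarith
    rw [h1, div_self he.ne', sub_self]
  · rw [if_neg (not_lt.2 hux)]
    have h1 : VV κ E x y u = 0 := by
      unfold VV
      have : {t : ℝ | t ≤ x ∧ |t - u| ≤ κ * y ∧ (t + y * Complex.I : ℂ) ∈ E} = ∅ := by
        ext t
        simp only [mem_ofPred_eq, mem_empty_iff_false, iff_false]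
        rintro ⟨ht1, ht2, -⟩
        rw [abs_of_nonneg (by linarith)] at h
        rw [abs_le] at ht2
        linarith
      rw [this, measure_empty, ENNReal.toReal_zero]
    rw [h1, zero_div, sub_zero]

/-- the hypotheses of the statement -/
structure Hyp (κ : ℝ) (E : Set ℂ) (σ : ℂ → ℝ) : Prop where
  κ0 : 0 < κ
  mE : MeasurableSet E
  cσ : ContinuousOn σ UH
  mσ : Measurable σ
  nn : ∀ w ∈ UH, 0 ≤ σ w
  low : ∀ w ∈ UH, σ w ≠ 0 → κ * w.im ≤ eK κ E w.re w.im

theorem re_pt (u y : ℝ) : ((u : ℂ) + (y : ℂ) * Complex.I).re = u := by simp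
theorem im_pt (u y : ℝ) : ((u : ℂ) + (y : ℂ) * Complex.I).im = y := by simp

theorem mem_UH {u y : ℝ} (hy : 0 < y) : ((u : ℂ) + (y : ℂ) * Complex.I) ∈ UH := by
  show 0 < ((u : ℂ) + (y : ℂ) * Complex.I).im
  rw [im_pt]
  exact hy

theorem Hyp.cont (h : Hyp κ E σ) {y : ℝ} (hy : 0 < y) :
    Continuous (fun u : ℝ => σ (u + y * Complex.I)) :=
  h.cσ.comp_continuous (by fun_prop) fun _ => mem_UH hy

theorem Hyp.nn' (h : Hyp κ E σ) {y : ℝ} (hy : 0 < y) (u : ℝ) : 0 ≤ σ (u + y * Complex.I) :=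
  h.nn _ (mem_UH hy)

theorem Hyp.low' (h : Hyp κ E σ) {y : ℝ} (hy : 0 < y) {u : ℝ} (hu : σ (u + y * Complex.I) ≠ 0) :
    κ * y ≤ eK κ E u y := by
  have := h.low _ (mem_UH hy) hu
  rwa [re_pt, im_pt] at this

/-- the quotient -/
noncomputable def qq (κ : ℝ) (E : Set ℂ) (σ : ℂ → ℝ) (y u : ℝ) : ℝ :=
  σ (u + y * Complex.I) / eK κ E u y

theorem Hyp.qq_nonneg (h : Hyp κ E σ) {y : ℝ} (hy : 0 < y) (u : ℝ) : 0 ≤ qq κ E σ y u :=
  div_nonneg (h.nn' hy u) (eK_nonneg _ _ _ _)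

theorem Hyp.qq_le (h : Hyp κ E σ) {y : ℝ} (hy : 0 < y) (u : ℝ) :
    qq κ E σ y u ≤ σ (u + y * Complex.I) / (κ * y) := by
  unfold qq
  by_cases h0 : σ (u + y * Complex.I) = 0
  · rw [h0, zero_div, zero_div]
  · exact div_le_div_of_nonneg_left (h.nn' hy u) (mul_pos h.κ0 hy) (h.low' hy h0)

theorem Hyp.qq_meas (h : Hyp κ E σ) (y : ℝ) : Measurable (qq κ E σ y) := by
  unfold qq
  refine Measurable.div ?_ ?_
  · exact h.mσ.comp (meas_point.comp (by fun_prop : Measurable fun u : ℝ => (u, y)))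
  · exact (eK_meas κ h.mE).comp (by fun_prop : Measurable fun u : ℝ => (u, y))

theorem Hyp.qq_int (h : Hyp κ E σ) {y : ℝ} (hy : 0 < y) (A B : ℝ) :
    IntegrableOn (qq κ E σ y) (Icc A B) := by
  have h1 : IntegrableOn (fun u : ℝ => σ (u + y * Complex.I) / (κ * y)) (Icc A B) :=
    ((h.cont hy).div_const _).continuousOn.integrableOn_compact isCompact_Icc
  refine h1.mono' (h.qq_meas y).aestronglyMeasurable (Eventually.of_forall fun u => ?_)
  rw [Real.norm_of_nonneg (h.qq_nonneg hy u)]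
  exact h.qq_le hy u

theorem kk_meas (κ : ℝ) (hE : MeasurableSet E) (x y : ℝ) : Measurable (kk κ E x y) := by
  unfold kk
  refine Measurable.sub ?_ (Measurable.div ?_ ?_)
  · exact Measurable.ite measurableSet_Iio measurable_const measurable_const
  · exact (VV_meas κ hE).comp (by fun_prop : Measurable fun u : ℝ => ((x, y), u))
  · exact (eK_meas κ hE).comp (by fun_prop : Measurable fun u : ℝ => (u, y))

theorem cK_eq (κ : ℝ) (E : Set ℂ) (σ : ℂ → ℝ) (w : ℂ) : cK κ E σ w =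
    ∫ u in Icc (w.re - κ * w.im) (w.re + κ * w.im), σ (u + w.im * Complex.I) *
      kk κ E w.re w.im u := rfl

theorem Hyp.ck_int (h : Hyp κ E σ) {y : ℝ} (hy : 0 < y) (x A B : ℝ) :
    IntegrableOn (fun u : ℝ => σ (u + y * Complex.I) * kk κ E x y u) (Icc A B) := by
  have h1 : IntegrableOn (fun u : ℝ => σ (u + y * Complex.I)) (Icc A B) :=
    (h.cont hy).continuousOn.integrableOn_compact isCompact_Icc
  refine h1.mono' ((h.cont hy).measurable.mul (kk_meas κ h.mE x y)).aestronglyMeasurable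
    (Eventually.of_forall fun u => ?_)
  rw [norm_mul, Real.norm_of_nonneg (h.nn' hy u), Real.norm_eq_abs]
  have := mul_le_mul_of_nonneg_left (kk_abs κ E x y u) (h.nn' hy u)
  rwa [mul_one] at this

theorem Hyp.bounds (h : Hyp κ E σ) {w : ℂ} (hw : w ∈ UH) :
    0 ≤ DK κ E σ w ∧ DK κ E σ w ≤ 2 * avg κ σ w ∧
    |cK κ E σ w| ≤ 2 * (κ * w.im) * avg κ σ w := by
  have hy : 0 < w.im := hw
  have hκy : 0 < κ * w.im := mul_pos h.κ0 hy
  have hI : IntegrableOn (fun u : ℝ => σ (u + w.im * Complex.I))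
      (Icc (w.re - κ * w.im) (w.re + κ * w.im)) :=
    (h.cont hy).continuousOn.integrableOn_compact isCompact_Icc
  have hI0 : 0 ≤ ∫ u in Icc (w.re - κ * w.im) (w.re + κ * w.im), σ (u + w.im * Complex.I) :=
    integral_nonneg fun u => h.nn' hy u
  have ha : 2 * (κ * w.im) * avg κ σ w =
      ∫ u in Icc (w.re - κ * w.im) (w.re + κ * w.im), σ (u + w.im * Complex.I) := by
    unfold avg
    rw [← mul_assoc, mul_inv_cancel₀ (by positivity), one_mul]
  have ha0 : 0 ≤ avg κ σ w := by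
    unfold avg
    exact mul_nonneg (by positivity) hI0
  have hq0 : 0 ≤ ∫ u in Icc (w.re - κ * w.im) (w.re + κ * w.im), qq κ E σ w.im u :=
    integral_nonneg fun u => h.qq_nonneg hy u
  have hq1 : ∫ u in Icc (w.re - κ * w.im) (w.re + κ * w.im), qq κ E σ w.im u ≤
      2 * avg κ σ w := by
    have h1 : ∫ u in Icc (w.re - κ * w.im) (w.re + κ * w.im), qq κ E σ w.im u ≤
        ∫ u in Icc (w.re - κ * w.im) (w.re + κ * w.im), σ (u + w.im * Complex.I) / (κ * w.im) :=
      integral_mono (h.qq_int hy _ _) (hI.div_const _) fun u => h.qq_le hy u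
    rw [integral_div, ← ha] at h1
    refine h1.trans (le_of_eq ?_)
    rw [mul_right_comm, mul_div_assoc, div_self hκy.ne', mul_one]
  refine ⟨?_, ?_, ?_⟩
  · unfold DK
    split_ifs
    · exact hq0
    · exact le_rfl
  · unfold DK
    split_ifs
    · exact hq1
    · positivity
  · rw [ha, cK_eq]
    refine (abs_integral_le_integral_abs).trans ?_
    refine integral_mono (h.ck_int hy _ _ _).abs hI fun u => ?_
    show |_ * _| ≤ _
    rw [abs_mul, abs_of_nonneg (h.nn' hy u)]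
    have := mul_le_mul_of_nonneg_left (kk_abs κ E w.re w.im u) (h.nn' hy u)
    rwa [mul_one] at this

theorem cK_ne {w : ℂ} (hc : cK κ E σ w ≠ 0) :
    ∃ u : ℝ, |u - w.re| ≤ κ * w.im ∧ σ (u + w.im * Complex.I) ≠ 0 := by
  by_contra hcon
  push Not at hcon
  apply hc
  rw [cK_eq]
  rw [setIntegral_congr_fun measurableSet_Icc (g := fun _ => (0:ℝ))]
  · exact integral_zero _ _
  · intro u hu
    show _ * _ = (0:ℝ)
    rw [hcon u (by rw [abs_le]; constructor <;> linarith [hu.1, hu.2]), zero_mul]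

/-! ### the divergence identity -/

theorem Hyp.van (h : Hyp κ E σ) {y : ℝ} (hy : 0 < y) {x u : ℝ} (hu : κ * y < |u - x|) :
    σ (u + y * Complex.I) * kk κ E x y u = 0 := by
  by_cases h0 : σ (u + y * Complex.I) = 0
  · rw [h0, zero_mul]
  · rw [kk_zero hu (lt_of_lt_of_le (mul_pos h.κ0 hy) (h.low' hy h0)), mul_zero]

theorem Hyp.ck_supp (h : Hyp κ E σ) {y : ℝ} (hy : 0 < y) {x u : ℝ}
    (hu : u ∉ Icc (x - κ * y) (x + κ * y)) : σ (u + y * Complex.I) * kk κ E x y u = 0 := by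
  refine h.van hy ?_
  by_contra hcon
  rw [not_lt, abs_le] at hcon
  exact hu ⟨by linarith, by linarith⟩

theorem Hyp.cK_full (h : Hyp κ E σ) {y : ℝ} (hy : 0 < y) (x : ℝ) :
    cK κ E σ (x + y * Complex.I) = ∫ u : ℝ, σ (u + y * Complex.I) * kk κ E x y u := by
  rw [cK_eq]
  simp only [re_pt, im_pt]
  exact setIntegral_eq_integral_of_forall_compl_eq_zero fun u hu => h.ck_supp hy hu

theorem Hyp.ck_integrable (h : Hyp κ E σ) {y : ℝ} (hy : 0 < y) (x : ℝ) :
    Integrable (fun u : ℝ => σ (u + y * Complex.I) * kk κ E x y u) := by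
  rw [← integrableOn_iff_integrable_of_support_subset (s := Icc (x - κ * y) (x + κ * y))]
  · exact h.ck_int hy _ _ _
  · intro u hu
    by_contra hcon
    exact hu (h.ck_supp hy hcon)

/-- the part of the line in `E` near `u` -/
def Au (κ : ℝ) (E : Set ℂ) (y u : ℝ) : Set ℝ :=
  {t : ℝ | |t - u| ≤ κ * y ∧ (t + y * Complex.I : ℂ) ∈ E}

theorem Au_meas (κ : ℝ) (hE : MeasurableSet E) (y u : ℝ) : MeasurableSet (Au κ E y u) := by
  refine MeasurableSet.inter (s₁ := {t : ℝ | |t - u| ≤ κ * y})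
    (s₂ := {t : ℝ | (t + y * Complex.I : ℂ) ∈ E}) ?_ ?_
  · exact (isClosed_le (by fun_prop) (by fun_prop)).measurableSet
  · exact (meas_point.comp (by fun_prop : Measurable fun t : ℝ => (t, y))) hE

/-- the increment of the measure -/
noncomputable def WV (κ : ℝ) (E : Set ℂ) (x₁ x₂ y u : ℝ) : ℝ :=
  (volume (Au κ E y u ∩ Ioc x₁ x₂)).toReal

theorem VV_sub (κ : ℝ) (hE : MeasurableSet E) {x₁ x₂ : ℝ} (hx : x₁ ≤ x₂) (y u : ℝ) :
    VV κ E x₂ y u - VV κ E x₁ y u = WV κ E x₁ x₂ y u := by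
  have e : {t : ℝ | t ≤ x₂ ∧ |t - u| ≤ κ * y ∧ (t + y * Complex.I : ℂ) ∈ E} =
      {t : ℝ | t ≤ x₁ ∧ |t - u| ≤ κ * y ∧ (t + y * Complex.I : ℂ) ∈ E} ∪
        (Au κ E y u ∩ Ioc x₁ x₂) := by
    ext t
    simp only [Au, mem_ofPred_eq, mem_union, mem_inter_iff, mem_Ioc]
    constructor
    · rintro ⟨h1, h2, h3⟩
      rcases le_or_gt t x₁ with h | h
      · exact Or.inl ⟨h, h2, h3⟩
      · exact Or.inr ⟨⟨h2, h3⟩, h, h1⟩
    · rintro (⟨h1, h2, h3⟩ | ⟨⟨h2, h3⟩, _, h1⟩)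
      · exact ⟨h1.trans hx, h2, h3⟩
      · exact ⟨h1, h2, h3⟩
  have hd : Disjoint {t : ℝ | t ≤ x₁ ∧ |t - u| ≤ κ * y ∧ (t + y * Complex.I : ℂ) ∈ E}
      (Au κ E y u ∩ Ioc x₁ x₂) := by
    rw [Set.disjoint_left]
    rintro t ⟨h1, _⟩ ⟨_, h2, _⟩
    exact absurd h1 (not_le.2 h2)
  have hf : ∀ s : Set ℝ, s ⊆ {t : ℝ | |t - u| ≤ κ * y ∧ (t + y * Complex.I : ℂ) ∈ E} →
      volume s ≠ ⊤ := fun s hs => ((measure_mono hs).trans_lt (fin_eK κ E u y)).ne
  unfold VV WV
  rw [e, measure_union hd ((Au_meas κ hE y u).inter measurableSet_Ioc), ENNReal.toReal_add]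
  · ring
  · exact hf _ fun t ht => ht.2
  · exact hf _ fun t ht => ht.1

theorem WV_int (κ : ℝ) (hE : MeasurableSet E) (x₁ x₂ y u : ℝ) :
    WV κ E x₁ x₂ y u = ∫ t in Ioc x₁ x₂, (Au κ E y u).indicator (fun _ => (1:ℝ)) t := by
  rw [integral_indicator (Au_meas κ hE y u), Measure.restrict_restrict (Au_meas κ hE y u),
    integral_const]
  unfold WV
  simp [Measure.real]

theorem WV_zero {x₁ x₂ y u : ℝ} (hu : u ∉ Icc (x₁ - κ * y) (x₂ + κ * y)) :
    WV κ E x₁ x₂ y u = 0 := by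
  unfold WV
  have : Au κ E y u ∩ Ioc x₁ x₂ = ∅ := by
    ext t
    simp only [Au, mem_ofPred_eq, mem_inter_iff, mem_Ioc, mem_empty_iff_false, iff_false]
    rintro ⟨⟨h1, _⟩, h2, h3⟩
    rw [abs_le] at h1
    exact hu ⟨by linarith, by linarith⟩
  rw [this, measure_empty, ENNReal.toReal_zero]

theorem Hyp.fubini (h : Hyp κ E σ) {y : ℝ} (hy : 0 < y) {x₁ x₂ : ℝ} :
    (∫ u, qq κ E σ y u * WV κ E x₁ x₂ y u) =
      ∫ t in Ioc x₁ x₂, DK κ E σ (t + y * Complex.I) := by
  have hκy : 0 < κ * y := mul_pos h.κ0 hy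
  rw [← setIntegral_eq_integral_of_forall_compl_eq_zero (s := Icc (x₁ - κ * y) (x₂ + κ * y))
    (f := fun u => qq κ E σ y u * WV κ E x₁ x₂ y u)
    fun u hu => by rw [WV_zero hu, mul_zero]]
  have e1 : ∀ u, qq κ E σ y u * WV κ E x₁ x₂ y u =
      ∫ t in Ioc x₁ x₂, qq κ E σ y u * (Au κ E y u).indicator (fun _ => (1:ℝ)) t := by
    intro u
    rw [WV_int κ h.mE, integral_const_mul]
  simp only [e1]
  have hint : Integrable (Function.uncurry fun u t : ℝ =>
      qq κ E σ y u * (Au κ E y u).indicator (fun _ => (1:ℝ)) t)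
      ((volume.restrict (Icc (x₁ - κ * y) (x₂ + κ * y))).prod
        (volume.restrict (Ioc x₁ x₂))) := by
    have hq := h.qq_int hy (x₁ - κ * y) (x₂ + κ * y)
    have h1 : Integrable (fun p : ℝ × ℝ => qq κ E σ y p.1 * (1:ℝ))
        ((volume.restrict (Icc (x₁ - κ * y) (x₂ + κ * y))).prod
          (volume.restrict (Ioc x₁ x₂))) :=
      Integrable.mul_prod hq (integrable_const (μ := volume.restrict (Ioc x₁ x₂)) (1:ℝ))
    refine h1.mono' ?_ (Eventually.of_forall fun p => ?_)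
    · refine Measurable.aestronglyMeasurable ?_
      have hB : MeasurableSet {p : ℝ × ℝ | |p.2 - p.1| ≤ κ * y ∧
          ((p.2 : ℂ) + (y : ℂ) * Complex.I) ∈ E} := by
        refine MeasurableSet.inter (s₁ := {p : ℝ × ℝ | |p.2 - p.1| ≤ κ * y})
          (s₂ := {p : ℝ × ℝ | ((p.2 : ℂ) + (y : ℂ) * Complex.I) ∈ E}) ?_ ?_
        · exact (isClosed_le (by fun_prop) (by fun_prop)).measurableSet
        · exact (meas_point.comp (by fun_prop : Measurable fun p : ℝ × ℝ => (p.2, y))) h.mE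
      have h2 : Measurable (fun p : ℝ × ℝ => {p : ℝ × ℝ | |p.2 - p.1| ≤ κ * y ∧
          ((p.2 : ℂ) + (y : ℂ) * Complex.I) ∈ E}.indicator (fun _ => (1:ℝ)) p) :=
        measurable_const.indicator hB
      exact ((h.qq_meas y).comp measurable_fst).mul h2
    · show ‖qq κ E σ y p.1 * (Au κ E y p.1).indicator (fun _ => (1:ℝ)) p.2‖ ≤ _
      rw [norm_mul, Real.norm_of_nonneg (h.qq_nonneg hy p.1)]
      refine mul_le_mul_of_nonneg_left ?_ (h.qq_nonneg hy p.1)
      unfold indicator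
      split_ifs <;> simp
  rw [integral_integral_swap hint]
  refine setIntegral_congr_fun measurableSet_Ioc fun t ht => ?_
  show ∫ u in Icc (x₁ - κ * y) (x₂ + κ * y),
    qq κ E σ y u * (Au κ E y u).indicator (fun _ => (1:ℝ)) t = DK κ E σ (t + y * Complex.I)
  unfold DK
  simp only [re_pt, im_pt]
  by_cases hE : ((t : ℂ) + (y : ℂ) * Complex.I) ∈ E
  · rw [if_pos hE]
    have e2 : ∀ u, qq κ E σ y u * (Au κ E y u).indicator (fun _ => (1:ℝ)) t =
        (Icc (t - κ * y) (t + κ * y)).indicator (qq κ E σ y) u := by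
      intro u
      by_cases hu : u ∈ Icc (t - κ * y) (t + κ * y)
      · have h3 : t ∈ Au κ E y u := by
          refine ⟨?_, hE⟩
          rw [abs_le]
          constructor <;> linarith [hu.1, hu.2]
        rw [indicator_of_mem hu, indicator_of_mem h3, mul_one]
      · have h3 : t ∉ Au κ E y u := by
          rintro ⟨h4, _⟩
          rw [abs_le] at h4
          exact hu ⟨by linarith, by linarith⟩
        rw [indicator_of_notMem hu, indicator_of_notMem h3, mul_zero]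
    simp only [e2]
    rw [setIntegral_indicator measurableSet_Icc, inter_eq_right.2]
    · rfl
    · intro u hu
      exact ⟨by linarith [hu.1, ht.1], by linarith [hu.2, ht.2]⟩
  · rw [if_neg hE]
    have e2 : ∀ u, qq κ E σ y u * (Au κ E y u).indicator (fun _ => (1:ℝ)) t = 0 := by
      intro u
      have h3 : t ∉ Au κ E y u := fun h4 => hE h4.2
      rw [indicator_of_notMem h3, mul_zero]
    simp only [e2, integral_zero]

theorem Hyp.DK_intble (h : Hyp κ E σ) {y : ℝ} (hy : 0 < y) (x₁ x₂ : ℝ) :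
    IntegrableOn (fun t : ℝ => DK κ E σ (t + y * Complex.I)) (Ioc x₁ x₂) := by
  have hκy : 0 < κ * y := mul_pos h.κ0 hy
  have hq := h.qq_int hy (x₁ - κ * y) (x₂ + κ * y)
  have hm : Measurable (fun t : ℝ => DK κ E σ (t + y * Complex.I)) :=
    (DK_meas κ h.mE h.mσ).comp (meas_point.comp (by fun_prop : Measurable fun t : ℝ => (t, y)))
  refine Measure.integrableOn_of_bounded (M := ∫ u in Icc (x₁ - κ * y) (x₂ + κ * y),
    qq κ E σ y u) measure_Ioc_lt_top.ne hm.aestronglyMeasurable ?_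
  refine (ae_restrict_iff' measurableSet_Ioc).2 (Eventually.of_forall fun t ht => ?_)
  have h0 := (h.bounds (mem_UH (u := t) hy)).1
  rw [Real.norm_of_nonneg h0]
  unfold DK
  simp only [re_pt, im_pt]
  split_ifs
  · refine setIntegral_mono_set hq (Eventually.of_forall fun u => h.qq_nonneg hy u) ?_
    refine HasSubset.Subset.eventuallyLE fun u hu => ?_
    exact ⟨by linarith [hu.1, ht.1], by linarith [hu.2, ht.2]⟩
  · exact integral_nonneg fun u => h.qq_nonneg hy u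

theorem Hyp.diff_le (h : Hyp κ E σ) {y : ℝ} (hy : 0 < y) {x₁ x₂ : ℝ} (hx : x₁ ≤ x₂) :
    cK κ E σ (x₂ + y * Complex.I) - cK κ E σ (x₁ + y * Complex.I) =
      ∫ x in x₁..x₂, (σ (x + y * Complex.I) - DK κ E σ (x + y * Complex.I)) := by
  have hκy : 0 < κ * y := mul_pos h.κ0 hy
  rw [h.cK_full hy, h.cK_full hy, ← integral_sub (h.ck_integrable hy x₂) (h.ck_integrable hy x₁)]
  have e1 : ∀ u : ℝ, σ (u + y * Complex.I) * kk κ E x₂ y u - σ (u + y * Complex.I) *
      kk κ E x₁ y u = (Ico x₁ x₂).indicator (fun u : ℝ => σ (u + y * Complex.I)) u -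
        qq κ E σ y u * WV κ E x₁ x₂ y u := by
    intro u
    rw [← VV_sub κ h.mE hx]
    unfold kk qq
    by_cases hu1 : u < x₁
    · have hu2 : u < x₂ := hu1.trans_le hx
      have hu3 : u ∉ Ico x₁ x₂ := fun h' => absurd h'.1 (not_le.2 hu1)
      rw [if_pos hu1, if_pos hu2, indicator_of_notMem hu3]
      ring
    · by_cases hu2 : u < x₂
      · have hu3 : u ∈ Ico x₁ x₂ := ⟨not_lt.1 hu1, hu2⟩
        rw [if_neg hu1, if_pos hu2, indicator_of_mem hu3]
        ring
      · have hu3 : u ∉ Ico x₁ x₂ := fun h' => hu2 h'.2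
        rw [if_neg hu1, if_neg hu2, indicator_of_notMem hu3]
        ring
  simp only [e1]
  have i1 : Integrable ((Ico x₁ x₂).indicator (fun u : ℝ => σ (u + y * Complex.I))) := by
    rw [integrable_indicator_iff measurableSet_Ico]
    exact ((h.cont hy).continuousOn.integrableOn_compact (isCompact_Icc (a := x₁)
      (b := x₂))).mono_set Ico_subset_Icc_self
  have i2 : Integrable (fun u => qq κ E σ y u * WV κ E x₁ x₂ y u) := by
    have h1 := (i1.sub ((h.ck_integrable hy x₂).sub (h.ck_integrable hy x₁)))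
    refine h1.congr (Eventually.of_forall fun u => ?_)
    show (Ico x₁ x₂).indicator (fun u : ℝ => σ (u + y * Complex.I)) u -
      (σ (u + y * Complex.I) * kk κ E x₂ y u - σ (u + y * Complex.I) * kk κ E x₁ y u) = _
    rw [e1]
    ring
  rw [integral_sub i1 i2, integral_indicator measurableSet_Ico, h.fubini hy,
    integral_Ico_eq_integral_Ioc, intervalIntegral.integral_of_le hx]
  rw [integral_sub]
  · exact ((h.cont hy).continuousOn.integrableOn_compact (isCompact_Icc (a := x₁)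
      (b := x₂))).mono_set Ioc_subset_Icc_self
  · exact h.DK_intble hy x₁ x₂

theorem Hyp.diff (h : Hyp κ E σ) {y : ℝ} (hy : 0 < y) (x₁ x₂ : ℝ) :
    cK κ E σ (x₂ + y * Complex.I) - cK κ E σ (x₁ + y * Complex.I) =
      ∫ x in x₁..x₂, (σ (x + y * Complex.I) - DK κ E σ (x + y * Complex.I)) := by
  rcases le_total x₁ x₂ with hx | hx
  · exact h.diff_le hy hx
  · rw [intervalIntegral.integral_symm, ← h.diff_le hy hx]
    ring

end TransportAux

theorem transport : S_transport := by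
  intro κ E σ h1 h2 h3 h4 h5 h6
  have h : TransportAux.Hyp κ E σ := ⟨h1, h2, h3, h4, h5, h6⟩
  refine ⟨TransportAux.DK_meas κ h2 h4, TransportAux.cK_meas κ h2 h4,
    TransportAux.avg_meas κ h4, fun w hw => h.bounds hw, fun w _ hd => ?_,
    fun w _ hc => TransportAux.cK_ne hc, fun y hy x₁ x₂ => h.diff hy x₁ x₂⟩
  by_contra hE
  apply hd
  unfold DK
  rw [if_neg hE]

end Pool.Agent.H843
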