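import Pool.Agent.H843.Stmts

/-!
# The function `V = L + i W`
-/

set_option autoImplicit false

namespace Pool.Agent.H843

open MeasureTheory Filter Topology Metric Set
open scoped ComplexConjugate ENNReal
open Pool.Agent.Helper34.Dg
open Pool.Agent.H720R2.HP (WD db)

private theorem memUH_VFun {x y : ℝ} (hy : 0 < y) : (x + y * Complex.I : ℂ) ∈ UH := by
  show 0 < (x + y * Complex.I : ℂ).im
  simpa using hy

private theorem hor_VFun {φ : ℂ → ℝ} (hφ : ContinuousOn φ UH) {y : ℝ} (hy : 0 < y) :
    Continuous fun x : ℝ => φ (x + y * Complex.I) :=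
  hφ.comp_continuous (by fun_prop) fun _ => memUH_VFun hy

private theorem ver_VFun {φ : ℂ → ℝ} (hφ : ContinuousOn φ UH) (x : ℝ) :
    ContinuousOn (fun s : ℝ => φ (x + s * Complex.I)) (Ioi 0) :=
  hφ.comp (by fun_prop) fun _ hs => memUH_VFun hs

private theorem dec_VFun {φ : ℂ → ℝ} (h : Dec φ) {y : ℝ} (hy : 0 < y) :
    ∃ C, 0 ≤ C ∧ ∀ x s : ℝ, y ≤ s → |φ (x + s * Complex.I)| ≤ C / s ^ 2 := by
  obtain ⟨C, hC, hb⟩ := h y hy
  refine ⟨C, hC, fun x s hs => ?_⟩
  have h1 : (x + s * Complex.I : ℂ).im = s := by simp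
  have h2 := hb (x + s * Complex.I) (by rw [h1]; exact hs)
  rwa [h1] at h2

private theorem dec_sub_VFun {φ ψ : ℂ → ℝ} (h : Dec φ) (h' : Dec ψ) :
    Dec fun z => φ z - ψ z := by
  intro y hy
  obtain ⟨C, hC, hb⟩ := h y hy
  obtain ⟨C', hC', hb'⟩ := h' y hy
  refine ⟨C + C', by positivity, fun w hw => ?_⟩
  rw [add_div]
  exact (abs_sub _ _).trans (add_le_add (hb w hw) (hb' w hw))

private theorem int_sq_VFun {y : ℝ} (hy : 0 < y) (C : ℝ) :
    IntegrableOn (fun s : ℝ => C / s ^ 2) (Ioi y) := by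
  have h1 := (integrableOn_Ioi_rpow_of_lt (by norm_num : (-2:ℝ) < -1) hy).const_mul C
  refine IntegrableOn.congr_fun h1 (fun s hs => ?_) measurableSet_Ioi
  have hs0 : 0 < s := hy.trans hs
  rw [Real.rpow_neg hs0.le, div_eq_mul_inv]
  norm_num

private theorem int_ver_VFun {φ : ℂ → ℝ} (h : Dec φ) {y : ℝ} (hy : 0 < y) (x : ℝ)
    (hm : AEStronglyMeasurable (fun s : ℝ => φ (x + s * Complex.I)) (volume.restrict (Ioi y))) :
    IntegrableOn (fun s : ℝ => φ (x + s * Complex.I)) (Ioi y) := by
  obtain ⟨C, hC, hb⟩ := dec_VFun h hy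
  refine Integrable.mono' (int_sq_VFun hy C) hm ?_
  rw [ae_restrict_iff' measurableSet_Ioi]
  exact Eventually.of_forall fun s hs => hb x s (le_of_lt hs)

private theorem vint_VFun (φ : ℂ → ℝ) (x y : ℝ) :
    vint φ (x + y * Complex.I) = ∫ s in Ioi y, φ (x + s * Complex.I) := by
  simp [vint]

private theorem cint_VFun {a b : ℝ} {u v : ℝ → ℝ} (hu : IntervalIntegrable u volume a b)
    (hv : IntervalIntegrable v volume a b) :
    ∫ x in a..b, ((u x : ℂ) + Complex.I * (v x : ℂ)) =
      ((∫ x in a..b, u x : ℝ) : ℂ) + Complex.I * ((∫ x in a..b, v x : ℝ) : ℂ) := by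
  have hu' : IntervalIntegrable (fun x => (u x : ℂ)) volume a b := ⟨hu.1.ofReal, hu.2.ofReal⟩
  have hv' : IntervalIntegrable (fun x => (v x : ℂ)) volume a b := ⟨hv.1.ofReal, hv.2.ofReal⟩
  rw [intervalIntegral.integral_add hu' (hv'.const_mul _), intervalIntegral.integral_const_mul,
    intervalIntegral.integral_ofReal, intervalIntegral.integral_ofReal]

private theorem bdd_int_VFun {f : ℝ → ℝ} {C a b : ℝ} (hf : Measurable f) (hb : ∀ x, |f x| ≤ C) :
    IntervalIntegrable f volume a b :=
  (intervalIntegrable_const (c := C)).mono_fun' hf.aestronglyMeasurable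
    (Eventually.of_forall hb)

private theorem pos_of_mem_uIcc_VFun {a b y : ℝ} (ha : 0 < a) (hb : 0 < b) (hy : y ∈ uIcc a b) :
    0 < y := lt_of_lt_of_le (lt_min ha hb) hy.1

private theorem lyy_VFun {Ly Lyy : ℂ → ℝ} (hLyy : ContinuousOn Lyy UH)
    (hder : ∀ x y : ℝ, 0 < y →
      HasDerivAt (fun v : ℝ => Ly (x + v * Complex.I)) (Lyy (x + y * Complex.I)) y)
    (dLy : Dec Ly) (dLyy : Dec Lyy) {y : ℝ} (hy : 0 < y) (x : ℝ) :
    IntegrableOn (fun s : ℝ => Lyy (x + s * Complex.I)) (Ioi y) ∧
    ∫ s in Ioi y, Lyy (x + s * Complex.I) = - Ly (x + y * Complex.I) := by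
  have hi : IntegrableOn (fun s : ℝ => Lyy (x + s * Complex.I)) (Ioi y) :=
    int_ver_VFun dLyy hy x (((ver_VFun hLyy x).mono (Ioi_subset_Ioi hy.le)).aestronglyMeasurable
      measurableSet_Ioi)
  refine ⟨hi, ?_⟩
  have hlim : Tendsto (fun s : ℝ => Ly (x + s * Complex.I)) atTop (𝓝 0) := by
    obtain ⟨C, hC, hb⟩ := dec_VFun dLy hy
    have h1 : Tendsto (fun s : ℝ => C / s ^ 2) atTop (𝓝 0) :=
      tendsto_const_nhds.div_atTop (tendsto_pow_atTop two_ne_zero)
    refine squeeze_zero_norm' ?_ h1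
    filter_upwards [eventually_ge_atTop y] with s hs
    exact hb x s hs
  have h2 := integral_Ioi_of_hasDerivAt_of_tendsto' (a := y) (m := (0:ℝ))
    (f := fun s : ℝ => Ly (x + s * Complex.I)) (f' := fun s : ℝ => Lyy (x + s * Complex.I))
    (fun s hs => hder x s (lt_of_lt_of_le hy hs)) hi hlim
  rw [h2, zero_sub]

theorem Vfun : S_V := by
  intro L Lx Ly Lxx Lyy σ c D hLx hLy hLxx hLyy hσ hc hD hder hcD dLx dLy dLxx dLyy dσ dc dD
  have dφ : Dec fun z => c z - Lx z := dec_sub_VFun dc dLx
  have mpt : ∀ x : ℝ, Measurable fun s : ℝ => (x + s * Complex.I : ℂ) := fun x => by fun_prop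
  have mpt' : ∀ s : ℝ, Measurable fun x : ℝ => (x + s * Complex.I : ℂ) := fun x => by fun_prop
  have iφ : ∀ x y : ℝ, 0 < y →
      IntegrableOn (fun s : ℝ => c (x + s * Complex.I) - Lx (x + s * Complex.I)) (Ioi y) := by
    intro x y hy
    refine int_ver_VFun dφ hy x ?_
    exact (hc.comp (mpt x)).aestronglyMeasurable.sub
      (((ver_VFun hLx x).mono (Ioi_subset_Ioi hy.le)).aestronglyMeasurable measurableSet_Ioi)
  refine ⟨fun y hy x₁ x₂ => ?_, fun x y₁ y₂ h₁ h₂ => ?_⟩
  · -- horizontal
    have e1 : ∫ x in x₁..x₂, Lx (x + y * Complex.I) =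
        L (x₂ + y * Complex.I) - L (x₁ + y * Complex.I) :=
      intervalIntegral.integral_eq_sub_of_hasDerivAt (f := fun u : ℝ => L (u + y * Complex.I))
        (fun x _ => (hder x y hy).1) ((hor_VFun hLx hy).intervalIntegrable _ _)
    have hyy : ∀ x : ℝ, _ := fun x => lyy_VFun hLyy
      (fun x y hy => (hder x y hy).2.2.2.1) dLy dLyy hy x
    have iD : ∀ x : ℝ, IntegrableOn (fun s : ℝ => D (x + s * Complex.I)) (Ioi y) := fun x =>
      int_ver_VFun dD hy x (hD.comp (mpt x)).aestronglyMeasurable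
    -- the product
    have : IsFiniteMeasure (volume.restrict (uIoc x₁ x₂)) :=
      ⟨by
        rw [Measure.restrict_apply_univ, uIoc, Real.volume_Ioc]
        exact ENNReal.ofReal_lt_top⟩
    let G : ℝ → ℝ → ℝ := fun s x => Lyy (x + s * Complex.I) - D (x + s * Complex.I)
    have hGi : Integrable (Function.uncurry G)
        ((volume.restrict (Ioi y)).prod (volume.restrict (uIoc x₁ x₂))) := by
      obtain ⟨C, hC, hb⟩ := dec_VFun (dec_sub_VFun dLyy dD) hy
      refine Integrable.mono' ((int_sq_VFun hy C).comp_fst _) ?_ ?_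
      · refine AEStronglyMeasurable.sub ?_ ?_
        · rw [Measure.prod_restrict]
          refine ContinuousOn.aestronglyMeasurable ?_
            (measurableSet_Ioi.prod measurableSet_uIoc)
          refine hLyy.comp (f := fun p : ℝ × ℝ => (p.2 + p.1 * Complex.I : ℂ)) (by fun_prop)
            fun p hp => ?_
          exact memUH_VFun (hy.trans hp.1)
        · exact (hD.comp (by fun_prop : Measurable fun p : ℝ × ℝ =>
            (p.2 + p.1 * Complex.I : ℂ))).aestronglyMeasurable
      · have h1 : ∀ᵐ p ∂((volume.restrict (Ioi y)).prod (volume.restrict (uIoc x₁ x₂))),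
            p.1 ∈ Ioi y :=
          Measure.quasiMeasurePreserving_fst.ae (ae_restrict_mem measurableSet_Ioi)
        filter_upwards [h1] with p hp
        exact hb p.2 p.1 (le_of_lt hp)
    have hGs : ∀ x : ℝ, ∫ s in Ioi y, G s x =
        -(Ly (x + y * Complex.I) + vint D (x + y * Complex.I)) := by
      intro x
      have h1 : ∫ s in Ioi y, G s x = (∫ s in Ioi y, Lyy (x + s * Complex.I)) -
          ∫ s in Ioi y, D (x + s * Complex.I) := integral_sub (hyy x).1 (iD x)
      rw [h1, (hyy x).2, vint_VFun]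
      ring
    have e2 : vint (fun z => c z - Lx z) (x₂ + y * Complex.I) -
        vint (fun z => c z - Lx z) (x₁ + y * Complex.I) =
        ∫ x in x₁..x₂, -(Ly (x + y * Complex.I) + vint D (x + y * Complex.I)) := by
      rw [vint_VFun, vint_VFun, ← integral_sub (iφ x₂ y hy) (iφ x₁ y hy)]
      have h1 : ∫ s in Ioi y, (c (x₂ + s * Complex.I) - Lx (x₂ + s * Complex.I) -
          (c (x₁ + s * Complex.I) - Lx (x₁ + s * Complex.I))) =
          ∫ s in Ioi y, ∫ x in x₁..x₂, G s x := by
        refine setIntegral_congr_fun measurableSet_Ioi fun s hs => ?_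
        have hs0 : 0 < s := hy.trans hs
        have h2 := hcD s hs0 x₁ x₂
        have h3 : ∫ x in x₁..x₂, Lxx (x + s * Complex.I) =
            Lx (x₂ + s * Complex.I) - Lx (x₁ + s * Complex.I) :=
          intervalIntegral.integral_eq_sub_of_hasDerivAt
            (f := fun u : ℝ => Lx (u + s * Complex.I))
            (fun x _ => (hder x s hs0).2.2.1) ((hor_VFun hLxx hs0).intervalIntegrable _ _)
        have h4 : IntervalIntegrable (fun x : ℝ => σ (x + s * Complex.I) -
            D (x + s * Complex.I)) volume x₁ x₂ := by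
          obtain ⟨C, hC, hb⟩ := dec_VFun (dec_sub_VFun dσ dD) hs0
          exact bdd_int_VFun ((hσ.comp (mpt' s)).sub (hD.comp (mpt' s)))
            fun x => hb x s le_rfl
        have h5 : ∫ x in x₁..x₂, G s x = (∫ x in x₁..x₂, (σ (x + s * Complex.I) -
            D (x + s * Complex.I))) - ∫ x in x₁..x₂, Lxx (x + s * Complex.I) := by
          rw [← intervalIntegral.integral_sub h4 ((hor_VFun hLxx hs0).intervalIntegrable _ _)]
          refine intervalIntegral.integral_congr fun x _ => ?_
          have h6 := (hder x s hs0).2.2.2.2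
          simp only [G]
          rw [← h6]
          ring
        rw [h5, ← h2, h3]
        ring
      rw [h1]
      have h7 : ∀ s, ∫ x in x₁..x₂, G s x =
          (if x₁ ≤ x₂ then 1 else -1 : ℝ) • ∫ x in uIoc x₁ x₂, G s x := fun s =>
        intervalIntegral.intervalIntegral_eq_integral_uIoc _ _ _ _
      simp only [h7]
      rw [integral_smul, integral_integral_swap hGi,
        intervalIntegral.intervalIntegral_eq_integral_uIoc]
      simp only [hGs]
    have i2 : IntervalIntegrable
        (fun x : ℝ => -(Ly (x + y * Complex.I) + vint D (x + y * Complex.I))) volume x₁ x₂ := by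
      rw [intervalIntegrable_iff]
      have h1 := hGi.integral_prod_right
      simp only [Function.uncurry_apply_pair, hGs] at h1
      exact h1
    have e3 := cint_VFun ((hor_VFun hLx hy).intervalIntegrable x₁ x₂) i2
    rw [e1, ← e2] at e3
    have e4 : ∀ x : ℝ, (Lx (x + y * Complex.I) : ℂ) - Complex.I *
        ((Ly (x + y * Complex.I) : ℂ) + (vint D (x + y * Complex.I) : ℂ)) =
        (Lx (x + y * Complex.I) : ℂ) + Complex.I *
          ((-(Ly (x + y * Complex.I) + vint D (x + y * Complex.I)) : ℝ) : ℂ) := by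
      intro x
      push_cast
      ring
    simp only [e4]
    rw [e3]
    push_cast
    ring
  · -- vertical
    have e1 : ∫ y in y₁..y₂, Ly (x + y * Complex.I) =
        L (x + y₂ * Complex.I) - L (x + y₁ * Complex.I) :=
      intervalIntegral.integral_eq_sub_of_hasDerivAt (f := fun v : ℝ => L (x + v * Complex.I))
        (fun y hy => (hder x y (pos_of_mem_uIcc_VFun h₁ h₂ hy)).2.1)
        (((ver_VFun hLy x).mono fun y hy =>
          pos_of_mem_uIcc_VFun h₁ h₂ hy).intervalIntegrable)
    have i1 : IntervalIntegrable (fun y : ℝ => Ly (x + y * Complex.I)) volume y₁ y₂ :=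
      ((ver_VFun hLy x).mono fun y hy => pos_of_mem_uIcc_VFun h₁ h₂ hy).intervalIntegrable
    have i3 : IntervalIntegrable (fun y : ℝ => c (x + y * Complex.I) - Lx (x + y * Complex.I))
        volume y₁ y₂ := by
      rw [intervalIntegrable_iff]
      exact (iφ x (min y₁ y₂) (lt_min h₁ h₂)).mono_set Ioc_subset_Ioi_self
    have i2 : IntervalIntegrable (fun y : ℝ => Lx (x + y * Complex.I) - c (x + y * Complex.I))
        volume y₁ y₂ := by
      have := i3.neg
      refine this.congr ?_
      exact fun y _ => by simp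
    have e2 : vint (fun z => c z - Lx z) (x + y₂ * Complex.I) -
        vint (fun z => c z - Lx z) (x + y₁ * Complex.I) =
        ∫ y in y₁..y₂, (Lx (x + y * Complex.I) - c (x + y * Complex.I)) := by
      rw [vint_VFun, vint_VFun]
      have h3 := intervalIntegral.integral_Ioi_sub_Ioi' (iφ x y₂ h₂) (iφ x y₁ h₁)
      rw [h3, intervalIntegral.integral_symm, ← intervalIntegral.integral_neg]
      refine intervalIntegral.integral_congr fun y _ => ?_
      simp
    have e3 := cint_VFun i1 i2
    rw [e1, ← e2] at e3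
    have e4 : ∀ y : ℝ, (Ly (x + y * Complex.I) : ℂ) + Complex.I *
        ((Lx (x + y * Complex.I) : ℂ) - (c (x + y * Complex.I) : ℂ)) =
        (Ly (x + y * Complex.I) : ℂ) + Complex.I *
          ((Lx (x + y * Complex.I) - c (x + y * Complex.I) : ℝ) : ℂ) := by
      intro y
      push_cast
      ring
    simp only [e4]
    rw [e3]
    push_cast
    ring

end Pool.Agent.H843
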