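import Pool.Agent.H843.Stmts

set_option autoImplicit false

namespace Pool.Agent.H843

open MeasureTheory Filter Topology Metric Set
open scoped ComplexConjugate ENNReal
open Pool.Agent.Helper34.Dg
open Pool.Agent.H720R2.HP (WD db)

/-- integration by parts on the line, one factor being the integral of a bounded function -/
private theorem ibp1_WdAc {f p g g' : ℝ → ℂ} {a b M : ℝ} (hab : a ≤ b) (hp : Measurable p)
    (hM : ∀ x ∈ Ioc a b, ‖p x‖ ≤ M) (hf : ∀ x ∈ Icc a b, f x = f a + ∫ t in a..x, p t)
    (hg : ∀ x, HasDerivAt g (g' x) x) (hg' : Continuous g') (h0 : ∀ x, x ∉ Ioo a b → g x = 0)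
    (h0' : ∀ x, x ∉ Ioo a b → g' x = 0) :
    ∫ x, f x * g' x = - ∫ x, p x * g x := by
  classical
  have hM0 : 0 ≤ max M 0 := le_max_right _ _
  obtain ⟨B, hB⟩ : ∃ B : ℝ, ∀ x ∈ Icc a b, ‖g' x‖ ≤ B :=
    isCompact_Icc.exists_bound_of_continuousOn hg'.continuousOn
  -- the function on the square
  set F : ℝ → ℝ → ℂ := fun x t => (if t ≤ x then p t else 0) * g' x with hF
  have hFm : Measurable (Function.uncurry F) := by
    refine Measurable.mul ?_ (hg'.measurable.comp measurable_fst)
    exact Measurable.ite (measurableSet_le measurable_snd measurable_fst)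
      (hp.comp measurable_snd) measurable_const
  have hFi : Integrable (Function.uncurry F)
      ((volume.restrict (Ioc a b)).prod (volume.restrict (Ioc a b))) := by
    rw [Measure.prod_restrict]
    refine Measure.integrableOn_of_bounded (M := max M 0 * B) ?_ hFm.aestronglyMeasurable ?_
    · rw [Measure.prod_prod]
      exact (ENNReal.mul_lt_top measure_Ioc_lt_top measure_Ioc_lt_top).ne
    · filter_upwards [ae_restrict_mem (measurableSet_Ioc.prod measurableSet_Ioc)] with x hx
      have h1 : ‖g' x.1‖ ≤ B := hB _ (Ioc_subset_Icc_self hx.1)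
      simp only [hF, Function.uncurry, norm_mul]
      refine mul_le_mul ?_ h1 (norm_nonneg _) hM0
      split_ifs
      · exact (hM _ hx.2).trans (le_max_left _ _)
      · simp
  have hsw := integral_integral_swap hFi
  have hL : ∀ x ∈ Ioc a b, ∫ t in Ioc a b, F x t = (∫ t in a..x, p t) * g' x := by
    intro x hx
    simp only [hF]
    rw [integral_mul_const, intervalIntegral.integral_of_le hx.1.le]
    congr 1
    have h1 : (fun t => if t ≤ x then p t else 0) = indicator (Iic x) p := by
      funext t; simp [indicator_apply]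
    rw [h1, setIntegral_indicator measurableSet_Iic]
    congr 1
    congr 1
    ext t
    simp only [mem_inter_iff, mem_Ioc, mem_Iic]
    constructor
    · rintro ⟨⟨h2, _⟩, h3⟩; exact ⟨h2, h3⟩
    · rintro ⟨h2, h3⟩; exact ⟨⟨h2, h3.trans hx.2⟩, h3⟩
  have hgab : g a = 0 ∧ g b = 0 := ⟨h0 a (by simp), h0 b (by simp)⟩
  have hR : ∀ t ∈ Ioc a b, ∫ x in Ioc a b, F x t = - (p t * g t) := by
    intro t ht
    have h1 : (fun x => F x t) = indicator (Ici t) (fun x => p t * g' x) := by
      funext x
      simp only [hF, indicator_apply, mem_Ici]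
      split_ifs <;> simp
    rw [h1, setIntegral_indicator measurableSet_Ici]
    have h2 : Ioc a b ∩ Ici t = Icc t b := by
      ext x
      simp only [mem_inter_iff, mem_Ioc, mem_Ici, mem_Icc]
      constructor
      · rintro ⟨⟨_, h3⟩, h4⟩; exact ⟨h4, h3⟩
      · rintro ⟨h3, h4⟩; exact ⟨⟨lt_of_lt_of_le ht.1 h3, h4⟩, h3⟩
    rw [h2, integral_Icc_eq_integral_Ioc, integral_const_mul,
      ← intervalIntegral.integral_of_le ht.2,
      intervalIntegral.integral_eq_sub_of_hasDerivAt (fun x _ => hg x)
        (hg'.intervalIntegrable _ _), hgab.2]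
    ring
  have e1 : ∫ x, f x * g' x = ∫ x in Ioc a b, f x * g' x := by
    symm
    apply setIntegral_eq_integral_of_forall_compl_eq_zero
    intro x hx
    rw [h0' x (fun h => hx (Ioo_subset_Ioc_self h)), mul_zero]
  have e2 : ∫ x, p x * g x = ∫ x in Ioc a b, p x * g x := by
    symm
    apply setIntegral_eq_integral_of_forall_compl_eq_zero
    intro x hx
    rw [h0 x (fun h => hx (Ioo_subset_Ioc_self h)), mul_zero]
  have hg'i : IntegrableOn g' (Ioc a b) :=
    (hg'.integrableOn_Icc).mono_set Ioc_subset_Icc_self
  have e3 : ∫ x in Ioc a b, f x * g' x =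
      ∫ x in Ioc a b, (f a * g' x + ∫ t in Ioc a b, F x t) := by
    apply setIntegral_congr_fun measurableSet_Ioc
    intro x hx
    simp only
    rw [hL x hx, hf x (Ioc_subset_Icc_self hx)]
    ring
  have hIi : IntegrableOn (fun x => ∫ t in Ioc a b, F x t) (Ioc a b) := hFi.integral_prod_left
  have e4 : ∫ x in Ioc a b, g' x = 0 := by
    rw [← intervalIntegral.integral_of_le hab,
      intervalIntegral.integral_eq_sub_of_hasDerivAt (fun x _ => hg x)
        (hg'.intervalIntegrable _ _), hgab.1, hgab.2, sub_zero]
  rw [e1, e2, e3, integral_add (hg'i.const_mul _) hIi, integral_const_mul, e4, mul_zero, zero_add,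
    hsw, ← integral_neg]
  apply setIntegral_congr_fun measurableSet_Ioc
  intro t ht
  exact hR t ht

/-- Fubini on the plane -/
private theorem fub_WdAc {F : ℂ → ℂ} (hF : Integrable F) :
    (∫ z, F z = ∫ y : ℝ, ∫ x : ℝ, F (x + y * Complex.I)) ∧
    (∫ z, F z = ∫ x : ℝ, ∫ y : ℝ, F (x + y * Complex.I)) := by
  have hmp := Complex.volume_preserving_equiv_real_prod.symm
  have h1 : ∫ p : ℝ × ℝ, F (Complex.measurableEquivRealProd.symm p) = ∫ z, F z :=
    hmp.integral_comp' F
  have h2 : Integrable (fun p : ℝ × ℝ => F (Complex.measurableEquivRealProd.symm p)) :=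
    (hmp.integrable_comp_emb (MeasurableEquiv.measurableEmbedding _)).2 hF
  have h3 : (fun p : ℝ × ℝ => F (Complex.measurableEquivRealProd.symm p)) =
      fun p : ℝ × ℝ => F (p.1 + p.2 * Complex.I) := by
    funext p
    rw [Complex.measurableEquivRealProd_symm_apply, Complex.mk_eq_add_mul_I]
  rw [h3] at h2
  have h4 : ∫ p : ℝ × ℝ, F (p.1 + p.2 * Complex.I) = ∫ z, F z := by
    rw [← h1]
    exact congrArg (fun G : ℝ × ℝ → ℂ => ∫ p, G p) h3.symm
  rw [← h4]
  refine ⟨?_, ?_⟩
  · exact integral_prod_symm _ h2
  · exact integral_prod _ h2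

private theorem locInt_WdAc {P : ℂ → ℂ} (hP : Measurable P)
    (hb : ∀ K : Set ℂ, IsCompact K → K ⊆ UH → ∃ M : ℝ, ∀ w ∈ K, ‖P w‖ ≤ M) :
    LocallyIntegrableOn P UH := by
  have hUH : IsOpen UH := isOpen_lt continuous_const Complex.continuous_im
  rw [locallyIntegrableOn_iff hUH.isLocallyClosed]
  intro K hK hKc
  obtain ⟨M, hM⟩ := hb K hKc hK
  refine Measure.integrableOn_of_bounded (M := M) hKc.measure_lt_top.ne
    hP.aestronglyMeasurable ?_
  filter_upwards [ae_restrict_mem hKc.measurableSet] with x hx using hM x hx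

/-- TARGET -/
theorem wdac : S_wdac := by
  intro V P Q hP hQ hb hV
  have hUH : IsOpen UH := isOpen_lt continuous_const Complex.continuous_im
  have hbP : ∀ K : Set ℂ, IsCompact K → K ⊆ UH → ∃ M : ℝ, ∀ w ∈ K, ‖P w‖ ≤ M := fun K hK h => by
    obtain ⟨M, hM⟩ := hb K hK h
    exact ⟨M, fun w hw => (hM w hw).1⟩
  have hbQ : ∀ K : Set ℂ, IsCompact K → K ⊆ UH → ∃ M : ℝ, ∀ w ∈ K, ‖Q w‖ ≤ M := fun K hK h => by
    obtain ⟨M, hM⟩ := hb K hK h
    exact ⟨M, fun w hw => (hM w hw).2⟩
  have hPl := locInt_WdAc hP hbP
  have hQl := locInt_WdAc hQ hbQ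
  -- continuity
  have hcont : ContinuousOn V UH := by
    intro w0 hw0
    have hw0' : 0 < w0.im := hw0
    set K : Set ℂ := Icc (w0.re - 1) (w0.re + 1) ×ℂ Icc (w0.im / 2) (w0.im + 1) with hK
    have hKc : IsCompact K := isCompact_Icc.reProdIm isCompact_Icc
    have hKU : K ⊆ UH := by
      intro w hw
      have := hw.2.1
      show 0 < w.im
      linarith
    obtain ⟨M, hM⟩ := hb K hKc hKU
    have hM0 : 0 ≤ M := by
      have := (hM w0 ⟨⟨by linarith, by linarith⟩, ⟨by linarith, by linarith⟩⟩).1
      exact (norm_nonneg _).trans this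
    have hest : ∀ w ∈ K, ‖V w - V w0‖ ≤ M * |w.re - w0.re| + M * |w.im - w0.im| := by
      intro w hw
      have hwim : 0 < w.im := hKU hw
      have e1 := hV.1 w.im hwim w0.re w.re
      have e2 := hV.2 w0.re w0.im w.im hw0' hwim
      rw [Complex.re_add_im] at e1 e2
      have e3 : V w - V w0 = (∫ x in w0.re..w.re, P (x + w.im * Complex.I)) +
          ∫ y in w0.im..w.im, Q (w0.re + y * Complex.I) := by
        rw [← e1, ← e2]; ring
      rw [e3]
      refine (norm_add_le _ _).trans (add_le_add ?_ ?_)
      · apply intervalIntegral.norm_integral_le_of_norm_le_const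
        intro x hx
        refine (hM _ ⟨?_, ?_⟩).1
        · have hx' : x ∈ uIcc w0.re w.re := uIoc_subset_uIcc hx
          have : uIcc w0.re w.re ⊆ Icc (w0.re - 1) (w0.re + 1) := by
            apply uIcc_subset_Icc
            · constructor <;> linarith
            · exact hw.1
          simpa using this hx'
        · simpa using hw.2
      · apply intervalIntegral.norm_integral_le_of_norm_le_const
        intro y hy
        refine (hM _ ⟨?_, ?_⟩).2
        · simp
        · have hy' : y ∈ uIcc w0.im w.im := uIoc_subset_uIcc hy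
          have : uIcc w0.im w.im ⊆ Icc (w0.im / 2) (w0.im + 1) := by
            apply uIcc_subset_Icc
            · constructor <;> linarith
            · exact hw.2
          simpa using this hy'
    have hKn : K ∈ 𝓝 w0 := by
      have h1 : Ioo (w0.re - 1) (w0.re + 1) ×ℂ Ioo (w0.im / 2) (w0.im + 1) ∈ 𝓝 w0 := by
        apply IsOpen.mem_nhds (isOpen_Ioo.reProdIm isOpen_Ioo)
        exact ⟨⟨by linarith, by linarith⟩, ⟨by linarith, by linarith⟩⟩
      refine mem_of_superset h1 ?_
      intro w hw
      exact ⟨Ioo_subset_Icc_self hw.1, Ioo_subset_Icc_self hw.2⟩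
    have : ContinuousAt V w0 := by
      rw [ContinuousAt, tendsto_iff_norm_sub_tendsto_zero]
      have h2 : Tendsto (fun w : ℂ => M * |w.re - w0.re| + M * |w.im - w0.im|) (𝓝 w0) (𝓝 0) := by
        have : Continuous (fun w : ℂ => M * |w.re - w0.re| + M * |w.im - w0.im|) := by fun_prop
        simpa using this.tendsto w0
      refine squeeze_zero' (Eventually.of_forall fun w => norm_nonneg _) ?_ h2
      filter_upwards [hKn] with w hw using hest w hw
    exact this.continuousWithinAt
  have hVl : LocallyIntegrableOn V UH := hcont.locallyIntegrableOn hUH.measurableSet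
  refine ⟨hcont, ?_, ?_⟩
  · have h1 : LocallyIntegrableOn (fun w => (P w + Complex.I * Q w) / 2) UH := by
      apply locInt_WdAc
      · exact (hP.add (hQ.const_mul _)).div_const _
      · intro K hK h
        obtain ⟨M, hM⟩ := hb K hK h
        refine ⟨(M + M) / 2, fun w hw => ?_⟩
        rw [norm_div]
        have h2 : ‖(2 : ℂ)‖ = 2 := by simp
        rw [h2]
        have h3 : ‖P w + Complex.I * Q w‖ ≤ M + M := by
          refine (norm_add_le _ _).trans (add_le_add (hM w hw).1 ?_)
          rw [norm_mul, Complex.norm_I, one_mul]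
          exact (hM w hw).2
        linarith
    exact h1
  · intro φ hφ hc hs
    have hKc : IsCompact (tsupport φ) := hc
    have hz0 : ∀ z, z ∉ tsupport φ → φ z = 0 := fun z hz => image_eq_zero_of_notMem_tsupport hz
    have hzd : ∀ z, z ∉ tsupport φ → fderiv ℝ φ z = 0 := fun z hz =>
      image_eq_zero_of_notMem_tsupport fun h2 => hz (tsupport_fderiv_subset ℝ (f := φ) h2)
    have hfd : Continuous (fderiv ℝ φ) := hφ.continuous_fderiv (by simp)
    have hdx : Continuous (fun z => fderiv ℝ φ z 1) := hfd.clm_apply continuous_const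
    have hdy : Continuous (fun z => fderiv ℝ φ z Complex.I) := hfd.clm_apply continuous_const
    have hdiff : ∀ z, HasFDerivAt φ (fderiv ℝ φ z) z := fun z =>
      (hφ.differentiable (by simp)).differentiableAt.hasFDerivAt
    -- the box
    obtain ⟨R, hR⟩ : ∃ R : ℝ, ∀ z ∈ tsupport φ, ‖z‖ ≤ R := hKc.isBounded.exists_norm_le
    obtain ⟨c, hc0, hcR, hc1⟩ : ∃ c : ℝ, 0 < c ∧ c ≤ |R| + 1 ∧ ∀ z ∈ tsupport φ, c < z.im := by
      rcases (tsupport φ).eq_empty_or_nonempty with he | hne
      · refine ⟨1, one_pos, by linarith [abs_nonneg R], fun z hz => ?_⟩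
        rw [he] at hz; exact absurd hz (notMem_empty _)
      · obtain ⟨z0, hz0, hz1⟩ := hKc.exists_isMinOn hne Complex.continuous_im.continuousOn
        have h1 : 0 < z0.im := hs hz0
        have h2 : z0.im ≤ |R| := by
          have := Complex.abs_im_le_norm z0
          have h3 := hR z0 hz0
          have h4 := le_abs_self R
          have h5 := le_abs_self z0.im
          linarith
        refine ⟨z0.im / 2, by linarith, by linarith, fun z hz => ?_⟩
        have : z0.im ≤ z.im := hz1 hz
        linarith
    set b : ℝ := |R| + 1 with hbdef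
    have hb0 : 0 < b := by positivity
    have hre : ∀ z ∈ tsupport φ, z.re ∈ Ioo (-b) b := by
      intro z hz
      have h1 := Complex.abs_re_le_norm z
      have h3 := hR z hz
      have h4 := le_abs_self R
      have h5 := abs_le.1 (h1.trans (h3.trans h4))
      constructor <;> linarith [h5.1, h5.2]
    have him : ∀ z ∈ tsupport φ, z.im ∈ Ioo c b := by
      intro z hz
      refine ⟨hc1 z hz, ?_⟩
      have h1 := Complex.abs_im_le_norm z
      have h3 := hR z hz
      have h4 := le_abs_self R
      have h5 := le_abs_self z.im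
      linarith
    have iVx : Integrable (fun z => V z * fderiv ℝ φ z 1) :=
      Pool.Agent.H720R2.HP.int_mul hVl hdx hKc hs (fun z hz => by rw [hzd z hz]; simp)
    have iVy : Integrable (fun z => V z * fderiv ℝ φ z Complex.I) :=
      Pool.Agent.H720R2.HP.int_mul hVl hdy hKc hs (fun z hz => by rw [hzd z hz]; simp)
    have iP : Integrable (fun z => P z * φ z) :=
      Pool.Agent.H720R2.HP.int_mul hPl hφ.continuous hKc hs hz0
    have iQ : Integrable (fun z => Q z * φ z) :=
      Pool.Agent.H720R2.HP.int_mul hQl hφ.continuous hKc hs hz0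
    have ex : ∫ z, V z * fderiv ℝ φ z 1 = - ∫ z, P z * φ z := by
      rw [(fub_WdAc iVx).1, (fub_WdAc iP).1, ← integral_neg]
      congr 1
      funext y
      by_cases hy : 0 < y
      · obtain ⟨M, hM⟩ := hbP ((fun x : ℝ => (x : ℂ) + y * Complex.I) '' Icc (-b) b)
          (isCompact_Icc.image (by fun_prop)) (by
            rintro _ ⟨x, _, rfl⟩
            show 0 < ((x : ℂ) + y * Complex.I).im
            simpa using hy)
        refine ibp1_WdAc (f := fun x => V (x + y * Complex.I)) (p := fun x => P (x + y * Complex.I))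
          (g := fun x => φ (x + y * Complex.I)) (g' := fun x => fderiv ℝ φ (x + y * Complex.I) 1)
          (a := -b) (b := b) (M := M) (by linarith) (hP.comp (by fun_prop))
          (fun x hx => hM _ ⟨x, Ioc_subset_Icc_self hx, rfl⟩) ?_ ?_ ?_ ?_ ?_
        · intro x _
          have := hV.1 y hy (-b) x
          rw [← this]; ring
        · intro x
          have h1 : HasDerivAt (fun u : ℝ => (u : ℂ) + y * Complex.I) 1 x := by
            simpa using (Complex.ofRealCLM.hasDerivAt (x := x)).add_const (y * Complex.I)
          exact (hdiff _).comp_hasDerivAt x h1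
        · exact hdx.comp (by fun_prop)
        · intro x hx
          apply hz0
          intro h
          apply hx
          simpa using hre _ h
        · intro x hx
          rw [hzd]
          · simp
          intro h
          apply hx
          simpa using hre _ h
      · have h1 : ∀ x : ℝ, (x : ℂ) + y * Complex.I ∉ tsupport φ := by
          intro x h
          have : 0 < ((x : ℂ) + y * Complex.I).im := hs h
          apply hy
          simpa using this
        have h2 : (fun x : ℝ => V (x + y * Complex.I) * fderiv ℝ φ (x + y * Complex.I) 1) =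
            fun _ => 0 := by
          funext x
          rw [hzd _ (h1 x)]; simp
        have h3 : (fun x : ℝ => P (x + y * Complex.I) * φ (x + y * Complex.I)) =
            fun _ => 0 := by
          funext x
          rw [hz0 _ (h1 x)]; simp
        rw [h2, h3]; simp
    have ey : ∫ z, V z * fderiv ℝ φ z Complex.I = - ∫ z, Q z * φ z := by
      rw [(fub_WdAc iVy).2, (fub_WdAc iQ).2, ← integral_neg]
      congr 1
      funext x
      obtain ⟨M, hM⟩ := hbQ ((fun y : ℝ => (x : ℂ) + y * Complex.I) '' Icc c b)
          (isCompact_Icc.image (by fun_prop)) (by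
            rintro _ ⟨y, hy, rfl⟩
            show 0 < ((x : ℂ) + y * Complex.I).im
            have := hy.1
            simp
            linarith)
      refine ibp1_WdAc (f := fun y => V (x + y * Complex.I)) (p := fun y => Q (x + y * Complex.I))
          (g := fun y => φ (x + y * Complex.I)) (g' := fun y => fderiv ℝ φ (x + y * Complex.I) Complex.I)
          (a := c) (b := b) (M := M) hcR (hQ.comp (by fun_prop))
          (fun y hy => hM _ ⟨y, Ioc_subset_Icc_self hy, rfl⟩) ?_ ?_ ?_ ?_ ?_
      · intro y hy
        have := hV.2 x c y hc0 (lt_of_lt_of_le hc0 hy.1)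
        rw [← this]; ring
      · intro y
        have h1 : HasDerivAt (fun u : ℝ => (x : ℂ) + u * Complex.I) Complex.I y := by
          simpa using ((Complex.ofRealCLM.hasDerivAt (x := y)).mul_const Complex.I).const_add (x : ℂ)
        exact (hdiff _).comp_hasDerivAt y h1
      · exact hdy.comp (by fun_prop)
      · intro y hy
        apply hz0
        intro h
        apply hy
        simpa using him _ h
      · intro y hy
        rw [hzd]
        · simp
        intro h
        apply hy
        simpa using him _ h
    have e1 : (fun z => V z * db φ z) = fun z =>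
        (V z * fderiv ℝ φ z 1 + Complex.I * (V z * fderiv ℝ φ z Complex.I)) / 2 := by
      funext z
      unfold Pool.Agent.H720R2.HP.db
      ring
    have e2 : (fun z => (P z + Complex.I * Q z) / 2 * φ z) = fun z =>
        (P z * φ z + Complex.I * (Q z * φ z)) / 2 := by
      funext z
      ring
    rw [e1, e2, integral_div, integral_div, integral_add iVx (iVy.const_mul _),
      integral_add iP (iQ.const_mul _), integral_const_mul, integral_const_mul, ex, ey]
    ring

end Pool.Agent.H843
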