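import Pool.Agent.H843.Stmts

/-!
Change of variables for weak `∂̄` derivatives.
-/

set_option autoImplicit false

namespace Pool.Agent.H843

open MeasureTheory Filter Topology Metric Set
open scoped ComplexConjugate ENNReal ContDiff
open Pool.Agent.Helper34.Dg
open Pool.Agent.H720R2.HP (WD db)

/-- the real determinant of the multiplication by `c` -/
private theorem det_WdComp (c : ℂ) :
    ((ContinuousLinearMap.toSpanSingleton ℂ c).restrictScalars ℝ).det = ‖c‖ ^ 2 := by
  have h1 : ((ContinuousLinearMap.toSpanSingleton ℂ c).restrictScalars ℝ).det =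
      LinearMap.det ((LinearMap.toSpanSingleton ℂ ℂ c).restrictScalars ℝ) := rfl
  rw [h1, LinearMap.det_restrictScalars, Algebra.norm_complex_eq]
  simp [Complex.normSq_eq_norm_sq]

/-- facts about the inverse -/
private theorem inv_WdComp {U : Set ℂ} (hU : IsOpen U) {f : ℂ → ℂ}
    (hf : DifferentiableOn ℂ f U) (hi : InjOn f U) (h0 : ∀ w ∈ U, deriv f w ≠ 0) :
    IsOpen (f '' U) ∧ ∃ g : ℂ → ℂ, DifferentiableOn ℂ g (f '' U) ∧ ∀ z ∈ U, g (f z) = z := by
  have hs : ∀ z ∈ U, HasStrictDerivAt f (deriv f z) z := fun z hz =>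
    (hf.analyticAt (hU.mem_nhds hz)).hasStrictDerivAt
  have hleft : ∀ z ∈ U, Function.invFunOn f U (f z) = z := fun z hz => hi.leftInvOn_invFunOn hz
  have hder : ∀ z ∈ U, HasDerivAt (Function.invFunOn f U) (deriv f z)⁻¹ (f z) := by
    intro z hz
    apply HasStrictDerivAt.hasDerivAt
    apply (hs z hz).to_local_left_inverse (h0 z hz)
    filter_upwards [hU.mem_nhds hz] with x hx
    exact hleft x hx
  refine ⟨?_, Function.invFunOn f U, ?_, hleft⟩
  · rw [isOpen_iff_mem_nhds]
    rintro _ ⟨z, hz, rfl⟩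
    rw [← (hs z hz).map_nhds_eq (h0 z hz)]
    exact Filter.image_mem_map (hU.mem_nhds hz)
  · rintro _ ⟨z, hz, rfl⟩
    exact (hder z hz).differentiableAt.differentiableWithinAt

/-- the chain rule for `∂̄` -/
private theorem db_comp_WdComp {θ ψ : ℂ → ℂ} {w a : ℂ} (hψ : HasDerivAt ψ a w)
    (hθ : DifferentiableAt ℝ θ (ψ w)) : db (fun z => θ (ψ z)) w = conj a * db θ (ψ w) := by
  have h1 : HasFDerivAt ψ ((ContinuousLinearMap.toSpanSingleton ℂ a).restrictScalars ℝ) w :=
    hψ.hasFDerivAt.restrictScalars ℝ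
  have h2 : HasFDerivAt (fun z => θ (ψ z)) ((fderiv ℝ θ (ψ w)).comp
      ((ContinuousLinearMap.toSpanSingleton ℂ a).restrictScalars ℝ)) w :=
    hθ.hasFDerivAt.comp w h1
  have h3 : ∀ b : ℂ, fderiv ℝ θ (ψ w) b = b.re * fderiv ℝ θ (ψ w) 1 +
      b.im * fderiv ℝ θ (ψ w) Complex.I := by
    intro b
    have : b = b.re • (1 : ℂ) + b.im • Complex.I := by
      simp only [Complex.real_smul, mul_one]
      exact (Complex.re_add_im b).symm
    conv_lhs => rw [this]
    rw [map_add, map_smul, map_smul, Complex.real_smul, Complex.real_smul]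
  unfold db
  rw [h2.fderiv]
  simp only [ContinuousLinearMap.comp_apply, ContinuousLinearMap.coe_restrictScalars',
    ContinuousLinearMap.toSpanSingleton_apply, smul_eq_mul, one_mul]
  rw [h3 a, h3 (Complex.I * a)]
  have h4 : conj a = a.re - a.im * Complex.I := by
    apply Complex.ext <;> simp
  rw [h4]
  simp only [Complex.mul_re, Complex.I_re, Complex.I_im, Complex.mul_im]
  push_cast
  ring_nf
  rw [Complex.I_sq]
  ring

theorem wdcomp : S_wdcomp := by
  intro Ω U ψ V ν hΩ hU hψ hi hm h0 hWD
  obtain ⟨hO, g, hg, hgl⟩ := inv_WdComp hU hψ hi h0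
  have hOΩ : ψ '' U ⊆ Ω := by
    rintro _ ⟨w, hw, rfl⟩; exact hm hw
  have hd : ∀ w ∈ U, HasDerivAt ψ (deriv ψ w) w := fun w hw =>
    (hψ.differentiableAt (hU.mem_nhds hw)).hasDerivAt
  have hfd : ∀ w ∈ U, HasFDerivWithinAt ψ
      ((ContinuousLinearMap.toSpanSingleton ℂ (deriv ψ w)).restrictScalars ℝ) U w := fun w hw =>
    ((hd w hw).hasFDerivAt.restrictScalars ℝ).hasFDerivWithinAt
  have hdψ : DifferentiableOn ℂ (deriv ψ) U := hψ.deriv hU
  have hψc : ContinuousOn ψ U := hψ.continuousOn
  have hdc : ContinuousOn (deriv ψ) U := hdψ.continuousOn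
  refine ⟨hWD.cont.comp hψc hm, ?_, ?_⟩
  · rw [locallyIntegrableOn_iff hU.isLocallyClosed]
    intro K hKU hK
    have hKψ : IsCompact (ψ '' K) := hK.image_of_continuousOn (hψc.mono hKU)
    have h1 : IntegrableOn ν (ψ '' K) := hWD.li.integrableOn_compact_subset
      ((image_mono hKU).trans hOΩ) hKψ
    rw [integrableOn_image_iff_integrableOn_abs_det_fderiv_smul volume hK.measurableSet
      (fun w hw => (hfd w (hKU hw)).mono hKU) (hi.mono hKU)] at h1
    have h2 : ContinuousOn (fun w => (deriv ψ w)⁻¹) K :=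
      (hdc.mono hKU).inv₀ fun w hw => h0 w (hKU hw)
    have h3 := h1.continuousOn_mul h2 hK
    refine h3.congr_fun (fun w hw => ?_) hK.measurableSet
    have h4 := h0 w (hKU hw)
    simp only
    rw [det_WdComp, abs_of_nonneg (by positivity), Complex.real_smul]
    have h6 : ((‖deriv ψ w‖ ^ 2 : ℝ) : ℂ) = conj (deriv ψ w) * deriv ψ w := by
      rw [← Complex.normSq_eq_norm_sq, Complex.normSq_eq_conj_mul_self]
    rw [h6]
    field_simp
  · intro φ hφ hc hs
    classical
    -- the transported test function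
    set K : Set ℂ := tsupport φ with hKdef
    have hKψ : IsCompact (ψ '' K) := IsCompact.image_of_continuousOn hc (hψc.mono hs)
    have hKO : ψ '' K ⊆ ψ '' U := image_mono hs
    set θ : ℂ → ℂ := (ψ '' U).indicator (fun z => φ (g z)) with hθdef
    have hθ0 : ∀ z, z ∉ ψ '' K → θ z = 0 := by
      intro z hz
      by_cases hzO : z ∈ ψ '' U
      · rw [hθdef, indicator_of_mem hzO]
        obtain ⟨w, hw, rfl⟩ := hzO
        rw [hgl w hw]
        have : w ∉ K := fun h => hz ⟨w, h, rfl⟩
        exact image_eq_zero_of_notMem_tsupport this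
      · rw [hθdef, indicator_of_notMem hzO]
    have hθs : tsupport θ ⊆ ψ '' K := by
      refine closure_minimal ?_ hKψ.isClosed
      intro z hz
      by_contra h
      exact hz (hθ0 z h)
    have hθc : HasCompactSupport θ := hKψ.of_isClosed_subset (isClosed_tsupport _) hθs
    have hθd : ContDiff ℝ ∞ θ := by
      rw [contDiff_iff_contDiffAt]
      intro z
      by_cases hz : z ∈ ψ '' U
      · have h1 : ContDiffAt ℂ ∞ g z := by
          have := (hg.analyticAt (hO.mem_nhds hz)).contDiffAt (n := ω)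
          exact this.of_le (by exact le_top)
        have h2 : ContDiffAt ℝ ∞ g z := h1.restrict_scalars ℝ
        have h3 : ContDiffAt ℝ ∞ (fun z => φ (g z)) z := hφ.contDiffAt.comp z h2
        refine h3.congr_of_eventuallyEq ?_
        filter_upwards [hO.mem_nhds hz] with y hy
        rw [hθdef, indicator_of_mem hy]
      · have hz' : z ∈ (ψ '' K)ᶜ := fun h => hz (hKO h)
        refine (contDiffAt_const (c := (0:ℂ))).congr_of_eventuallyEq ?_
        filter_upwards [hKψ.isClosed.isOpen_compl.mem_nhds hz'] with y hy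
        exact hθ0 y hy
    have hθψ : ∀ w ∈ U, θ (ψ w) = φ w := by
      intro w hw
      rw [hθdef, indicator_of_mem (mem_image_of_mem ψ hw), hgl w hw]
    -- the holomorphic factor
    set c : ℂ → ℂ := fun z => (deriv ψ (g z))⁻¹ with hcdef
    have hgm : ∀ z ∈ ψ '' U, g z ∈ U := by
      rintro _ ⟨w, hw, rfl⟩
      rw [hgl w hw]; exact hw
    have hcd : DifferentiableOn ℂ c (ψ '' U) := by
      refine DifferentiableOn.inv ?_ fun z hz => h0 _ (hgm z hz)
      exact hdψ.comp hg fun z hz => hgm z hz
    have hcψ : ∀ w ∈ U, c (ψ w) = (deriv ψ w)⁻¹ := by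
      intro w hw
      simp only [hcdef, hgl w hw]
    have hsO : tsupport θ ⊆ ψ '' U := hθs.trans hKO
    have htest := Pool.Agent.H720R2.HP.test_mul hO hcd hθd hsO
    have hts : tsupport (fun z => c z * θ z) ⊆ tsupport θ := tsupport_mul_subset_right
    have hw := hWD.weak (fun z => c z * θ z) htest
      (hθc.of_isClosed_subset (isClosed_tsupport _) hts) (hts.trans (hsO.trans hOΩ))
    have hdb : ∀ z, db (fun w => c w * θ w) z = c z * db θ z := by
      intro z
      by_cases hz : z ∈ tsupport θ
      · have hdc : DifferentiableAt ℂ c z := hcd.differentiableAt (hO.mem_nhds (hsO hz))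
        rw [Pool.Agent.H720R2.HP.db_mul (hdc.restrictScalars ℝ) (hθd.differentiable (by simp) z),
          Pool.Agent.H720R2.HP.db_holo hdc]
        ring
      · rw [Pool.Agent.H720R2.HP.db_supp hz,
          Pool.Agent.H720R2.HP.db_supp (fun h => hz (hts h)), mul_zero]
    have habs : ∀ w ∈ U, ∀ x : ℂ,
        |((ContinuousLinearMap.toSpanSingleton ℂ (deriv ψ w)).restrictScalars ℝ).det| •
          (x * c (ψ w)) = conj (deriv ψ w) * x := by
      intro w hw x
      have h4 := h0 w hw
      rw [det_WdComp, abs_of_nonneg (by positivity), Complex.real_smul, hcψ w hw]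
      have h6 : ((‖deriv ψ w‖ ^ 2 : ℝ) : ℂ) = conj (deriv ψ w) * deriv ψ w := by
        rw [← Complex.normSq_eq_norm_sq, Complex.normSq_eq_conj_mul_self]
      rw [h6]
      field_simp
    have hL : ∫ z, V z * db (fun w => c w * θ w) z = ∫ w, V (ψ w) * db φ w := by
      rw [← setIntegral_eq_integral_of_forall_compl_eq_zero (s := ψ '' U)
        (f := fun z => V z * db (fun w => c w * θ w) z)
        (fun z hz => by rw [hdb, Pool.Agent.H720R2.HP.db_supp (fun h => hz (hsO h)), mul_zero,
          mul_zero]),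
        integral_image_eq_integral_abs_det_fderiv_smul volume hU.measurableSet hfd hi,
        ← setIntegral_eq_integral_of_forall_compl_eq_zero (s := U)
        (f := fun w => V (ψ w) * db φ w)
        (fun w hw => by rw [Pool.Agent.H720R2.HP.db_supp (fun h => hw (hs h)), mul_zero])]
      refine setIntegral_congr_fun hU.measurableSet fun w hw => ?_
      rw [hdb]
      have e1 : V (ψ w) * (c (ψ w) * db θ (ψ w)) = (V (ψ w) * db θ (ψ w)) * c (ψ w) := by ring
      rw [e1, habs w hw]
      have e2 : db φ w = conj (deriv ψ w) * db θ (ψ w) := by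
        rw [← db_comp_WdComp (hd w hw) (hθd.differentiable (by simp) (ψ w))]
        refine (Pool.Agent.H720R2.HP.db_congr ?_).symm
        filter_upwards [hU.mem_nhds hw] with y hy
        exact hθψ y hy
      rw [e2]; ring
    have hR : ∫ z, ν z * (c z * θ z) = ∫ w, conj (deriv ψ w) * ν (ψ w) * φ w := by
      rw [← setIntegral_eq_integral_of_forall_compl_eq_zero (s := ψ '' U)
        (f := fun z => ν z * (c z * θ z))
        (fun z hz => by rw [hθ0 z (fun h => hz (hKO h)), mul_zero, mul_zero]),
        integral_image_eq_integral_abs_det_fderiv_smul volume hU.measurableSet hfd hi,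
        ← setIntegral_eq_integral_of_forall_compl_eq_zero (s := U)
        (f := fun w => conj (deriv ψ w) * ν (ψ w) * φ w)
        (fun w hw => by
          rw [image_eq_zero_of_notMem_tsupport (fun h => hw (hs h)), mul_zero])]
      refine setIntegral_congr_fun hU.measurableSet fun w hw => ?_
      have e1 : ν (ψ w) * (c (ψ w) * θ (ψ w)) = (ν (ψ w) * θ (ψ w)) * c (ψ w) := by ring
      rw [e1, habs w hw, hθψ w hw]
      ring
    rw [← hL, hw, hR]

end Pool.Agent.H843
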