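import Pool.Agent.H843.Stmts

/-!
Step V of the proof of MP_e1e648_an: the assembly of the construction.
-/

set_option autoImplicit false

namespace Pool.Agent.H843

open MeasureTheory Filter Topology Metric Set
open scoped ComplexConjugate ENNReal
open Pool.Agent.Helper34.Dg
open Pool.Agent.H720R2.HP (WD db)

/-! ### the half plane and the exponential -/

lemma isOpen_UH_Wolff : IsOpen UH := isOpen_lt continuous_const Complex.continuous_im

lemma norm_exp_Wolff (w : ℂ) : ‖Complex.exp (Complex.I * w)‖ = Real.exp (-w.im) := by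
  rw [Complex.norm_exp]; simp

lemma exp_mem_Wolff {w : ℂ} (hw : w ∈ UH) : Complex.exp (Complex.I * w) ∈ disc := by
  have h : 0 < w.im := hw
  rw [mem_ball_zero_iff, norm_exp_Wolff]
  exact Real.exp_lt_one_iff.2 (by linarith)

lemma exp_per_Wolff (w : ℂ) : Complex.exp (Complex.I * (w + 2 * Real.pi)) =
    Complex.exp (Complex.I * w) := by
  have : Complex.I * (w + 2 * Real.pi) = Complex.I * w + 2 * Real.pi * Complex.I := by ring
  rw [this, Complex.exp_periodic]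

lemma mk_mem_Wolff {x y : ℝ} (hy : 0 < y) : (x + y * Complex.I : ℂ) ∈ UH := by
  show 0 < (x + y * Complex.I : ℂ).im
  simpa using hy

lemma re_mk_Wolff (x y : ℝ) : (x + y * Complex.I : ℂ).re = x := by simp

lemma im_mk_Wolff (x y : ℝ) : (x + y * Complex.I : ℂ).im = y := by simp

lemma mk_re_im_Wolff (w : ℂ) : (w.re + w.im * Complex.I : ℂ) = w := Complex.re_add_im w

/-- the composition with the exponential -/
noncomputable def FF_Wolff (f₀ : ℂ → ℂ) (w : ℂ) : ℂ := f₀ (Complex.exp (Complex.I * w))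

lemma FF_per_Wolff (f₀ : ℂ → ℂ) (w : ℂ) : FF_Wolff f₀ (w + 2 * Real.pi) = FF_Wolff f₀ w := by
  rw [FF_Wolff, FF_Wolff, exp_per_Wolff]

lemma hasDeriv_FF_Wolff {f₀ : ℂ → ℂ} (hf : DifferentiableOn ℂ f₀ disc) {w : ℂ} (hw : w ∈ UH) :
    HasDerivAt (FF_Wolff f₀) (deriv f₀ (Complex.exp (Complex.I * w)) *
      (Complex.exp (Complex.I * w) * Complex.I)) w := by
  have h1 : HasDerivAt f₀ (deriv f₀ (Complex.exp (Complex.I * w))) (Complex.exp (Complex.I * w)) :=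
    ((hf _ (exp_mem_Wolff hw)).differentiableAt
      (isOpen_ball.mem_nhds (exp_mem_Wolff hw))).hasDerivAt
  have h2 : HasDerivAt (fun w : ℂ => Complex.I * w) Complex.I w := by
    simpa using (hasDerivAt_id w).const_mul Complex.I
  exact h1.comp w h2.cexp

lemma diff_FF_Wolff {f₀ : ℂ → ℂ} (hf : DifferentiableOn ℂ f₀ disc) :
    DifferentiableOn ℂ (FF_Wolff f₀) UH := fun _ hw =>
  (hasDeriv_FF_Wolff hf hw).differentiableAt.differentiableWithinAt

lemma norm_deriv_FF_Wolff {f₀ : ℂ → ℂ} (hf : DifferentiableOn ℂ f₀ disc) {w : ℂ} (hw : w ∈ UH) :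
    ‖deriv (FF_Wolff f₀) w‖ = ‖deriv f₀ (Complex.exp (Complex.I * w))‖ * Real.exp (-w.im) := by
  rw [(hasDeriv_FF_Wolff hf hw).deriv, norm_mul, norm_mul, norm_exp_Wolff, Complex.norm_I, mul_one]

/-- a bound for the derivative of a bounded function on a smaller disc -/
lemma norm_deriv_le_Wolff {f₀ : ℂ → ℂ} (hf : DifferentiableOn ℂ f₀ disc)
    (h1 : ∀ z ∈ disc, ‖f₀ z‖ ≤ 1) {r : ℝ} (hr : r < 1) {z : ℂ} (hz : ‖z‖ ≤ r) :
    ‖deriv f₀ z‖ ≤ 2 / (1 - r) := by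
  have hR : 0 < (1 - r) / 2 := by linarith
  have hsub : closedBall z ((1 - r) / 2) ⊆ disc := by
    intro u hu
    rw [mem_closedBall, dist_eq_norm] at hu
    rw [mem_ball_zero_iff]
    have : ‖u‖ ≤ ‖u - z‖ + ‖z‖ := by
      have := norm_add_le (u - z) z
      simpa using this
    linarith
  have h2 := Complex.norm_deriv_le_of_forall_mem_sphere_norm_le (c := z) (R := (1 - r) / 2)
    (C := 1) (f := f₀) hR
    ((hf.mono hsub).diffContOnCl_ball (subset_refl _)) (fun u hu => h1 u (hsub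
      (sphere_subset_closedBall hu)))
  calc ‖deriv f₀ z‖ ≤ 1 / ((1 - r) / 2) := h2
    _ = 2 / (1 - r) := by field_simp

/-- decay estimates -/
lemma decay_Wolff {f₀ : ℂ → ℂ} (hf : DifferentiableOn ℂ f₀ disc)
    (h1 : ∀ z ∈ disc, ‖f₀ z‖ ≤ 1) {y₀ : ℝ} (hy : 0 < y₀) :
    ∃ C : ℝ, 0 ≤ C ∧ ∀ w : ℂ, y₀ ≤ w.im → ‖deriv (FF_Wolff f₀) w‖ ≤ C * Real.exp (-w.im) ∧
      ‖deriv (deriv (FF_Wolff f₀)) w‖ ≤ C * Real.exp (-w.im) ∧
      ‖FF_Wolff f₀ w - f₀ 0‖ ≤ C * Real.exp (-w.im) := by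
  -- constants
  have key : ∀ y₁ : ℝ, 0 < y₁ → ∀ w : ℂ, y₁ ≤ w.im →
      ‖deriv (FF_Wolff f₀) w‖ ≤ 2 / (1 - Real.exp (-y₁)) * Real.exp (-w.im) := by
    intro y₁ hy₁ w hw
    rw [norm_deriv_FF_Wolff hf (lt_of_lt_of_le hy₁ hw)]
    apply mul_le_mul_of_nonneg_right _ (Real.exp_pos _).le
    apply norm_deriv_le_Wolff hf h1 (Real.exp_lt_one_iff.2 (by linarith))
    rw [norm_exp_Wolff]
    exact Real.exp_le_exp.2 (by linarith)
  have hpos : ∀ y₁ : ℝ, 0 < y₁ → 0 < 2 / (1 - Real.exp (-y₁)) := by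
    intro y₁ hy₁
    have : Real.exp (-y₁) < 1 := Real.exp_lt_one_iff.2 (by linarith)
    apply div_pos two_pos; linarith
  set A := 2 / (1 - Real.exp (-y₀)) with hA
  set B := 2 / (1 - Real.exp (-(y₀ / 2))) with hB
  have hA0 : 0 < A := hpos _ hy
  have hB0 : 0 < B := hpos _ (by linarith)
  set B' := B * Real.exp (y₀ / 2) / (y₀ / 2) with hB'
  have hB'0 : 0 < B' := by positivity
  refine ⟨A + B', by positivity, fun w hw => ⟨?_, ?_, ?_⟩⟩
  · refine (key _ hy w hw).trans ?_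
    have := Real.exp_pos (-w.im)
    nlinarith
  · have hd : DifferentiableOn ℂ (deriv (FF_Wolff f₀)) UH :=
      (diff_FF_Wolff hf).deriv isOpen_UH_Wolff
    have hsub : closedBall w (y₀ / 2) ⊆ {u : ℂ | y₀ / 2 ≤ u.im ∧ w.im - y₀ / 2 ≤ u.im} := by
      intro u hu
      rw [mem_closedBall, dist_eq_norm] at hu
      have h3 : |(u - w).im| ≤ ‖u - w‖ := Complex.abs_im_le_norm _
      rw [Complex.sub_im] at h3
      have h4 := abs_le.1 (h3.trans hu)
      exact ⟨by linarith [h4.1], by linarith [h4.1]⟩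
    have hsub2 : closedBall w (y₀ / 2) ⊆ UH := fun u hu =>
      lt_of_lt_of_le (by linarith) (hsub hu).1
    have h2 := Complex.norm_deriv_le_of_forall_mem_sphere_norm_le (c := w) (R := y₀ / 2)
      (C := B * Real.exp (y₀ / 2) * Real.exp (-w.im)) (f := deriv (FF_Wolff f₀)) (by linarith)
      ((hd.mono hsub2).diffContOnCl_ball (subset_refl _)) (fun u hu => by
        have hu' := hsub (sphere_subset_closedBall hu)
        refine (key (y₀ / 2) (by linarith) u hu'.1).trans ?_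
        rw [mul_assoc, ← Real.exp_add]
        apply mul_le_mul_of_nonneg_left _ hB0.le
        apply Real.exp_le_exp.2
        linarith [hu'.2])
    refine h2.trans ?_
    have : B * Real.exp (y₀ / 2) * Real.exp (-w.im) / (y₀ / 2) = B' * Real.exp (-w.im) := by
      rw [hB']; ring
    rw [this]
    have := Real.exp_pos (-w.im)
    nlinarith
  · set r := Real.exp (-y₀) with hr
    have hr1 : r < 1 := Real.exp_lt_one_iff.2 (by linarith)
    have hc : Convex ℝ (closedBall (0 : ℂ) r) := convex_closedBall _ _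
    have hz : Complex.exp (Complex.I * w) ∈ closedBall (0 : ℂ) r := by
      rw [mem_closedBall_zero_iff, norm_exp_Wolff]
      exact Real.exp_le_exp.2 (by linarith)
    have h0 : (0 : ℂ) ∈ closedBall (0 : ℂ) r := mem_closedBall_self (Real.exp_pos _).le
    have h3 := hc.norm_image_sub_le_of_norm_deriv_le (f := f₀) (C := A)
      (fun u hu => by
        have hu' : ‖u‖ ≤ r := by simpa using hu
        have hu2 : u ∈ disc := by rw [mem_ball_zero_iff]; linarith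
        exact (hf u hu2).differentiableAt (isOpen_ball.mem_nhds hu2))
      (fun u hu => norm_deriv_le_Wolff hf h1 hr1 (by simpa using hu)) h0 hz
    rw [sub_zero, norm_exp_Wolff] at h3
    refine h3.trans ?_
    have := Real.exp_pos (-w.im)
    nlinarith

lemma exp_neg_le_Wolff {y : ℝ} (hy : 0 < y) : Real.exp (-y) ≤ 2 / y ^ 2 := by
  have h := Real.quadratic_le_exp_of_nonneg hy.le
  rw [Real.exp_neg, inv_eq_one_div, div_le_div_iff₀ (Real.exp_pos _) (by positivity)]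
  nlinarith

lemma mul_exp_neg_le_Wolff {y : ℝ} : y * Real.exp (-y) ≤ 1 := by
  have h := Real.add_one_le_exp y
  rw [Real.exp_neg, ← div_eq_mul_inv, div_le_one (Real.exp_pos _)]
  linarith

/-- `Dec` from exponential decay -/
lemma dec_of_exp_Wolff {φ : ℂ → ℝ} (h : ∀ y₀ : ℝ, 0 < y₀ → ∃ C : ℝ, 0 ≤ C ∧
    ∀ w : ℂ, y₀ ≤ w.im → |φ w| ≤ C * Real.exp (-w.im)) : Dec φ := by
  intro y₀ hy
  obtain ⟨C, hC, h1⟩ := h y₀ hy
  refine ⟨C * 2, by positivity, fun w hw => (h1 w hw).trans ?_⟩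
  have := exp_neg_le_Wolff (lt_of_lt_of_le hy hw)
  calc C * Real.exp (-w.im) ≤ C * (2 / w.im ^ 2) := mul_le_mul_of_nonneg_left this hC
    _ = C * 2 / w.im ^ 2 := by ring

/-- Lipschitz property of `Lam` -/
lemma Lam_lip_Wolff {s₁ : ℝ} (h1 : 0 < s₁) {s t : ℝ} (hs : 0 ≤ s) (ht : 0 ≤ t) :
    |Lam s₁ s - Lam s₁ t| ≤ 2 / s₁ * |s - t| := by
  have hrep : ∀ a : ℝ, Lam s₁ a = Real.log (max a s₁) / 2 +
      ((min a s₁ - s₁) / s₁ - (min a s₁ - s₁) ^ 2 / (2 * s₁ ^ 2)) / 2 := by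
    intro a
    unfold Lam
    by_cases ha : s₁ ≤ a
    · rw [if_pos ha, max_eq_left ha, min_eq_right ha]
      simp
    · push Not at ha
      rw [if_neg (not_le.2 ha), max_eq_right ha.le, min_eq_left ha.le]
      ring
  have hlog : ∀ a b : ℝ, s₁ ≤ a → s₁ ≤ b → Real.log a - Real.log b ≤ |a - b| / s₁ := by
    intro a b ha hb
    have ha0 : 0 < a := lt_of_lt_of_le h1 ha
    have hb0 : 0 < b := lt_of_lt_of_le h1 hb
    rw [← Real.log_div ha0.ne' hb0.ne']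
    have h2 := Real.log_le_sub_one_of_pos (div_pos ha0 hb0)
    have h3 : a / b - 1 = (a - b) / b := by field_simp
    have h4 : (a - b) / b ≤ |a - b| / s₁ := by
      calc (a - b) / b ≤ |a - b| / b := by
            apply div_le_div_of_nonneg_right (le_abs_self _) hb0.le
        _ ≤ |a - b| / s₁ := div_le_div_of_nonneg_left (abs_nonneg _) h1 hb
    linarith
  have hlog' : |Real.log (max s s₁) - Real.log (max t s₁)| ≤ |s - t| / s₁ := by
    have hm : |max s s₁ - max t s₁| ≤ |s - t| := abs_max_sub_max_le_abs s t s₁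
    have ha := hlog _ _ (le_max_right s s₁) (le_max_right t s₁)
    have hb := hlog _ _ (le_max_right t s₁) (le_max_right s s₁)
    rw [abs_sub_comm (max t s₁)] at hb
    have hd : |max s s₁ - max t s₁| / s₁ ≤ |s - t| / s₁ :=
      div_le_div_of_nonneg_right hm h1.le
    rw [abs_le]
    constructor <;> linarith
  have hpol : ∀ a b : ℝ, 0 ≤ a → a ≤ s₁ → 0 ≤ b → b ≤ s₁ →
      |((a - s₁) / s₁ - (a - s₁) ^ 2 / (2 * s₁ ^ 2)) - ((b - s₁) / s₁ - (b - s₁) ^ 2 / (2 * s₁ ^ 2))| ≤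
        2 * (|a - b| / s₁) := by
    intro a b ha ha' hb hb'
    have e1 : ((a - s₁) / s₁ - (a - s₁) ^ 2 / (2 * s₁ ^ 2)) -
        ((b - s₁) / s₁ - (b - s₁) ^ 2 / (2 * s₁ ^ 2)) =
        (a - b) * ((4 * s₁ - a - b) / (2 * s₁)) / s₁ := by
      field_simp
      ring
    rw [e1, abs_div, abs_mul, abs_of_pos h1]
    have e2 : |(4 * s₁ - a - b) / (2 * s₁)| ≤ 2 := by
      rw [abs_le]
      constructor
      · rw [le_div_iff₀ (by positivity)]; nlinarith
      · rw [div_le_iff₀ (by positivity)]; nlinarith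
    rw [mul_comm (|a - b|), mul_div_assoc]
    exact mul_le_mul_of_nonneg_right e2 (by positivity)
  have hm : |min s s₁ - min t s₁| ≤ |s - t| := by
    simpa using abs_min_sub_min_le_max s s₁ t s₁
  have h5 := hpol (min s s₁) (min t s₁) (le_min hs h1.le) (min_le_right _ _) (le_min ht h1.le)
    (min_le_right _ _)
  have h6 : |min s s₁ - min t s₁| / s₁ ≤ |s - t| / s₁ := div_le_div_of_nonneg_right hm h1.le
  rw [hrep s, hrep t]
  rw [abs_le] at hlog' h5 ⊢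
  have e3 : 2 / s₁ * |s - t| = 2 * (|s - t| / s₁) := by ring
  rw [e3]
  constructor <;> linarith [hlog'.1, hlog'.2, h5.1, h5.2, div_nonneg (abs_nonneg (s - t)) h1.le]

/-! ### the oscillation and the density -/

lemma meas_ind_Wolff {E : Type} [TopologicalSpace E] [MeasurableSpace E] [BorelSpace E] [Zero E]
    [TopologicalSpace.PseudoMetrizableSpace E] {φ : ℂ → E} {U : Set ℂ} (hU : IsOpen U)
    (h : ContinuousOn φ U) : Measurable (U.indicator φ) := by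
  classical
  rw [← piecewise_eq_indicator]
  exact h.measurable_piecewise continuousOn_const hU.measurableSet

lemma osc_cont_Wolff (h9 : S_osc) {f : T → ℂ} (hf : f ∈ HInf) : ContinuousOn (Osc f) disc := by
  obtain ⟨⟨H, hH, _, hO⟩, -⟩ := h9 f hf
  have h1 : ContinuousOn (fun z => (H z).re - ‖ext f z‖ ^ 2) disc :=
    (Complex.continuous_re.comp_continuousOn hH.continuousOn).sub
      ((ext_diff hf.1).continuousOn.norm.pow 2)
  exact h1.congr hO

lemma osc_le_one_Wolff (h9 : S_osc) {f : T → ℂ} (hf : f ∈ HInf) (hf1 : ∀ᵐ t ∂mu, ‖f t‖ ≤ 1)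
    {z : ℂ} (hz : z ∈ disc) : Osc f z ≤ 1 := by
  have h1 := (h9 f hf).2.2.1 z hz 0
  have hz' : ‖z‖ < 1 := by simpa using hz
  have hpi : Integrable (pk z) mu :=
    (pk_cont hz').integrable_of_hasCompactSupport (HasCompactSupport.of_compactSpace _)
  have h2 : ∫ t, ‖f t - 0‖ ^ 2 * pk z t ∂mu ≤ ∫ t, pk z t ∂mu := by
    apply integral_mono_of_nonneg
    · exact Eventually.of_forall fun t => mul_nonneg (by positivity) (pk_nonneg hz' t)
    · exact hpi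
    · filter_upwards [hf1] with t ht
      have h3 := pk_nonneg hz' t
      have h4 : ‖f t - 0‖ ^ 2 ≤ 1 := by
        rw [sub_zero]; have := norm_nonneg (f t); nlinarith
      nlinarith
  rw [int_pk hz', h1] at h2
  have : 0 ≤ ‖ext f z - 0‖ ^ 2 := by positivity
  linarith

/-- the oscillation in the coordinate `w` -/
noncomputable def uu_Wolff (f : T → ℂ) : ℂ → ℝ :=
  UH.indicator (fun w => Osc f (Complex.exp (Complex.I * w)))

lemma uu_of_Wolff (f : T → ℂ) {w : ℂ} (hw : w ∈ UH) :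
    uu_Wolff f w = Osc f (Complex.exp (Complex.I * w)) := indicator_of_mem hw _

lemma exp_cont_Wolff : Continuous fun w : ℂ => Complex.exp (Complex.I * w) := by fun_prop

lemma uu_meas_Wolff (h9 : S_osc) {f : T → ℂ} (hf : f ∈ HInf) : Measurable (uu_Wolff f) :=
  meas_ind_Wolff isOpen_UH_Wolff ((osc_cont_Wolff h9 hf).comp exp_cont_Wolff.continuousOn
    (fun _ hw => exp_mem_Wolff hw))

lemma mem_per_Wolff {w : ℂ} : w + 2 * Real.pi ∈ UH ↔ w ∈ UH := by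
  show 0 < (w + 2 * Real.pi : ℂ).im ↔ 0 < w.im
  simp

lemma uu_per_Wolff (f : T → ℂ) (w : ℂ) : uu_Wolff f (w + 2 * Real.pi) = uu_Wolff f w := by
  unfold uu_Wolff
  by_cases h : w ∈ UH
  · rw [indicator_of_mem h, indicator_of_mem (mem_per_Wolff.2 h), exp_per_Wolff]
  · rw [indicator_of_notMem h, indicator_of_notMem (mt mem_per_Wolff.1 h)]

/-- the density -/
noncomputable def ss_Wolff (s₁ : ℝ) (f₀ : ℂ → ℂ) : ℂ → ℝ := UH.indicator (sig s₁ (FF_Wolff f₀))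

lemma ss_of_Wolff (s₁ : ℝ) (f₀ : ℂ → ℂ) {w : ℂ} (hw : w ∈ UH) :
    ss_Wolff s₁ f₀ w = sig s₁ (FF_Wolff f₀) w := indicator_of_mem hw _

lemma sig_cont_Wolff (s₁ : ℝ) {f₀ : ℂ → ℂ} (hf : DifferentiableOn ℂ f₀ disc) :
    ContinuousOn (sig s₁ (FF_Wolff f₀)) UH := by
  have hd := diff_FF_Wolff hf
  have h1 : ContinuousOn (deriv (FF_Wolff f₀)) UH := (hd.deriv isOpen_UH_Wolff).continuousOn
  unfold sig
  exact (((continuousOn_const.mul (h1.norm.pow 2)).mul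
    ((continuousOn_const.sub (hd.continuousOn.norm.pow 2)).sup continuousOn_const)).div_const _)

lemma ss_cont_Wolff (s₁ : ℝ) {f₀ : ℂ → ℂ} (hf : DifferentiableOn ℂ f₀ disc) :
    ContinuousOn (ss_Wolff s₁ f₀) UH :=
  (sig_cont_Wolff s₁ hf).congr fun _ hw => ss_of_Wolff s₁ f₀ hw

lemma ss_meas_Wolff (s₁ : ℝ) {f₀ : ℂ → ℂ} (hf : DifferentiableOn ℂ f₀ disc) :
    Measurable (ss_Wolff s₁ f₀) := meas_ind_Wolff isOpen_UH_Wolff (sig_cont_Wolff s₁ hf)

lemma sig_nonneg_Wolff (s₁ : ℝ) (F : ℂ → ℂ) (w : ℂ) : 0 ≤ sig s₁ F w := by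
  unfold sig
  positivity

lemma ss_nonneg_Wolff (s₁ : ℝ) (f₀ : ℂ → ℂ) (w : ℂ) : 0 ≤ ss_Wolff s₁ f₀ w :=
  indicator_nonneg (fun w _ => sig_nonneg_Wolff s₁ _ w) w

lemma ss_per_Wolff (s₁ : ℝ) (f₀ : ℂ → ℂ) (w : ℂ) :
    ss_Wolff s₁ f₀ (w + 2 * Real.pi) = ss_Wolff s₁ f₀ w := by
  unfold ss_Wolff
  have hd : deriv (FF_Wolff f₀) (w + 2 * Real.pi) = deriv (FF_Wolff f₀) w := by
    rw [← deriv_comp_add_const]
    congr 1
    funext v
    exact FF_per_Wolff f₀ v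
  by_cases h : w ∈ UH
  · rw [indicator_of_mem h, indicator_of_mem (mem_per_Wolff.2 h)]
    unfold sig
    rw [hd, FF_per_Wolff]
  · rw [indicator_of_notMem h, indicator_of_notMem (mt mem_per_Wolff.1 h)]

lemma sig_le_Wolff {s₁ : ℝ} (h1 : 0 < s₁) (F : ℂ → ℂ) (w : ℂ) :
    sig s₁ F w ≤ 4 / s₁ * ‖deriv F w‖ ^ 2 := by
  unfold sig
  have h2 : max (s₁ - ‖F w‖ ^ 2) 0 ≤ s₁ := max_le (by nlinarith [norm_nonneg (F w)]) h1.le
  calc 4 * ‖deriv F w‖ ^ 2 * max (s₁ - ‖F w‖ ^ 2) 0 / s₁ ^ 2 ≤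
      4 * ‖deriv F w‖ ^ 2 * s₁ / s₁ ^ 2 := by gcongr
    _ = 4 / s₁ * ‖deriv F w‖ ^ 2 := by field_simp

/-- the gradient and the oscillation -/
lemma grad_le_Wolff (h9 : S_osc) {f : T → ℂ} (hf : f ∈ HInf) {w : ℂ} (hw : w ∈ UH) :
    4 * (‖deriv (FF_Wolff (ext f)) w‖ ^ 2 * Real.sinh w.im ^ 2) ≤ uu_Wolff f w := by
  rw [uu_of_Wolff f hw]
  refine le_trans (le_of_eq ?_) ((h9 f hf).2.1 _ (exp_mem_Wolff hw)).2
  rw [norm_deriv_FF_Wolff (ext_diff hf.1) hw, norm_exp_Wolff, Real.sinh_eq]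
  have h1 : Real.exp w.im * Real.exp (-w.im) = 1 := by rw [← Real.exp_add]; simp
  set a := Real.exp w.im
  set b := Real.exp (-w.im)
  set D := ‖deriv (ext f) (Complex.exp (Complex.I * w))‖
  have h2 : 4 * ((D * b) ^ 2 * ((a - b) / 2) ^ 2) = D ^ 2 * (a * b - b ^ 2) ^ 2 := by ring
  rw [h2, h1]
  ring

lemma ss_sinh_Wolff (h9 : S_osc) {f : T → ℂ} (hf : f ∈ HInf) {s₁ : ℝ} (h1 : 0 < s₁) {w : ℂ}
    (hw : w ∈ UH) : s₁ * (ss_Wolff s₁ (ext f) w * Real.sinh w.im ^ 2) ≤ uu_Wolff f w := by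
  refine le_trans ?_ (grad_le_Wolff h9 hf hw)
  rw [ss_of_Wolff s₁ _ hw]
  have h2 := sig_le_Wolff h1 (FF_Wolff (ext f)) w
  have h3 : 0 ≤ Real.sinh w.im ^ 2 := by positivity
  calc s₁ * (sig s₁ (FF_Wolff (ext f)) w * Real.sinh w.im ^ 2) ≤
      s₁ * (4 / s₁ * ‖deriv (FF_Wolff (ext f)) w‖ ^ 2 * Real.sinh w.im ^ 2) := by gcongr
    _ = 4 * (‖deriv (FF_Wolff (ext f)) w‖ ^ 2 * Real.sinh w.im ^ 2) := by field_simp

/-- the energy of the density where the oscillation is small -/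
lemma energy_Wolff (h9 : S_osc) (h10 : S_energy) (h11 : S_polar) {f : T → ℂ} (hf : f ∈ HInf)
    {s₁ : ℝ} (h1 : 0 < s₁) {η : ℝ} (hη : 0 < η) {a : ℂ} (ha : a ∈ disc) :
    En (fun w => if uu_Wolff f w < η then ss_Wolff s₁ (ext f) w else 0) a ≤
      ENNReal.ofReal (4 / s₁ * Real.exp 1 * Real.pi * η) := by
  obtain ⟨⟨H, hH, _, hO⟩, hO2, -⟩ := h9 f hf
  have hfd := ext_diff hf.1
  -- the integrand on the disc
  set h : ℂ → ℝ≥0∞ := disc.indicator (fun z => ENNReal.ofReal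
    (4 / s₁ * Real.exp 1 * (‖deriv (ext f) z‖ ^ 2 * (1 - ‖z‖ ^ 2) * PP a z *
      Real.exp (-((H z).re - ‖ext f z‖ ^ 2) / η)))) with hh
  have hPP : ContinuousOn (PP a) disc := by
    unfold PP
    apply ContinuousOn.div (by fun_prop) (by fun_prop)
    intro z hz
    have hz' : ‖z‖ < 1 := by simpa using hz
    have ha' : ‖a‖ < 1 := by simpa using ha
    have : (1 : ℂ) - conj z * a ≠ 0 := by
      intro h0
      have h2 : ‖conj z * a‖ = 1 := by rw [← sub_eq_zero.1 h0]; simp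
      rw [norm_mul, RCLike.norm_conj] at h2
      nlinarith [norm_nonneg z, norm_nonneg a]
    positivity
  have hdc : ContinuousOn (deriv (ext f)) disc := (hfd.deriv isOpen_ball).continuousOn
  have hcont : ContinuousOn (fun z => 4 / s₁ * Real.exp 1 * (‖deriv (ext f) z‖ ^ 2 *
      (1 - ‖z‖ ^ 2) * PP a z * Real.exp (-((H z).re - ‖ext f z‖ ^ 2) / η))) disc := by
    have h2 : ContinuousOn (fun z => (H z).re) disc :=
      Complex.continuous_re.comp_continuousOn hH.continuousOn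
    have h3 : ContinuousOn (fun z => ‖ext f z‖ ^ 2) disc := hfd.continuousOn.norm.pow 2
    have h4 : ContinuousOn (fun z : ℂ => (1 - ‖z‖ ^ 2 : ℝ)) disc := by fun_prop
    have h5 : ContinuousOn (fun z => Real.exp (-((H z).re - ‖ext f z‖ ^ 2) / η)) disc :=
      (Real.continuous_exp.comp_continuousOn ((h2.sub h3).neg.div_const η))
    exact continuousOn_const.mul ((((hdc.norm.pow 2).mul h4).mul hPP).mul h5)
  have hm : Measurable h := meas_ind_Wolff isOpen_ball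
    (ENNReal.continuous_ofReal.comp_continuousOn hcont)
  have hPPn : ∀ z, 0 ≤ PP a z := by
    intro z
    unfold PP
    have ha' : ‖a‖ < 1 := by simpa using ha
    apply div_nonneg _ (by positivity)
    nlinarith [norm_nonneg a]
  have step1 : En (fun w => if uu_Wolff f w < η then ss_Wolff s₁ (ext f) w else 0) a ≤
      ∫⁻ z in disc, h z := by
    rw [h11 h hm]
    unfold En
    refine lintegral_mono fun x => ?_
    refine setLIntegral_mono' measurableSet_Ioi fun y hy => ?_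
    have hy' : 0 < y := hy
    set w : ℂ := (x : ℂ) + y * Complex.I with hw
    have hwU : w ∈ UH := mk_mem_Wolff hy'
    have hwi : w.im = y := im_mk_Wolff x y
    have hz := exp_mem_Wolff hwU
    have hn := norm_exp_Wolff w
    rw [hh, indicator_of_mem hz, ← ENNReal.ofReal_mul]
    · apply ENNReal.ofReal_le_ofReal
      set z := Complex.exp (Complex.I * w) with hzdef
      have hPW : PW a w = PP a z := rfl
      have hzn : ‖z‖ ^ 2 = Real.exp (-2 * y) := by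
        rw [hn, hwi, ← Real.exp_nat_mul]; congr 1; push_cast; ring
      show (if uu_Wolff f w < η then ss_Wolff s₁ (ext f) w else 0) * (1 - Real.exp (-2 * y)) *
        PW a w ≤ _
      rw [hPW, ← hzn]
      by_cases hc : uu_Wolff f w < η
      · rw [if_pos hc]
        have hOs : Osc f z < η := by rw [uu_of_Wolff f hwU] at hc; exact hc
        have hexp : 1 ≤ Real.exp 1 * Real.exp (-((H z).re - ‖ext f z‖ ^ 2) / η) := by
          rw [← hO z hz, ← Real.exp_add]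
          apply Real.one_le_exp
          have : Osc f z / η ≤ 1 := by rw [div_le_one hη]; exact hOs.le
          rw [neg_div]; linarith
        have hsig : ss_Wolff s₁ (ext f) w ≤ 4 / s₁ * (‖deriv (ext f) z‖ ^ 2 * ‖z‖ ^ 2) := by
          rw [ss_of_Wolff s₁ _ hwU]
          refine (sig_le_Wolff h1 _ w).trans (le_of_eq ?_)
          rw [norm_deriv_FF_Wolff hfd hwU, mul_pow, ← hn]
        have hPWn : 0 ≤ PP a z := hPPn z
        have h2 : 0 ≤ 1 - ‖z‖ ^ 2 := by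
          have hz' : ‖z‖ < 1 := by simpa using hz
          nlinarith [norm_nonneg z]
        set A := ‖deriv (ext f) z‖ ^ 2
        set X := Real.exp (-((H z).re - ‖ext f z‖ ^ 2) / η)
        have hA : 0 ≤ A := by positivity
        calc ss_Wolff s₁ (ext f) w * (1 - ‖z‖ ^ 2) * PP a z ≤
            4 / s₁ * (A * ‖z‖ ^ 2) * (1 - ‖z‖ ^ 2) * PP a z := by gcongr
          _ ≤ 4 / s₁ * (A * ‖z‖ ^ 2) * (1 - ‖z‖ ^ 2) * PP a z * (Real.exp 1 * X) := by
              apply le_mul_of_one_le_right _ hexp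
              positivity
          _ = _ := by ring
      · rw [if_neg hc, zero_mul, zero_mul]
        have hPWn : 0 ≤ PP a z := hPPn z
        have h2 : 0 ≤ 1 - ‖z‖ ^ 2 := by
          have hz' : ‖z‖ < 1 := by simpa using hz
          nlinarith [norm_nonneg z]
        positivity
    · have hPWn : 0 ≤ PP a (Complex.exp (Complex.I * w)) := hPPn _
      have h2 : 0 ≤ 1 - ‖Complex.exp (Complex.I * w)‖ ^ 2 := by
        have hz' : ‖Complex.exp (Complex.I * w)‖ < 1 := by simpa using hz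
        nlinarith [norm_nonneg (Complex.exp (Complex.I * w))]
      positivity
  refine step1.trans ?_
  have step2 : ∫⁻ z in disc, h z = ENNReal.ofReal (4 / s₁ * Real.exp 1) *
      ∫⁻ ζ in disc, ENNReal.ofReal (‖deriv (ext f) ζ‖ ^ 2 * (1 - ‖ζ‖ ^ 2) * PP a ζ *
      Real.exp (-((H ζ).re - ‖ext f ζ‖ ^ 2) / η)) := by
    rw [← lintegral_const_mul']
    · refine setLIntegral_congr_fun isOpen_ball.measurableSet fun z hz => ?_
      rw [hh, indicator_of_mem hz, ← ENNReal.ofReal_mul (by positivity)]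
    · exact ENNReal.ofReal_ne_top
  rw [step2]
  have step3 := h10 (ext f) H hfd hH (fun z hz => by rw [← hO z hz]; exact (hO2 z hz).1) η hη a ha
  calc _ ≤ ENNReal.ofReal (4 / s₁ * Real.exp 1) * ENNReal.ofReal (Real.pi * min η
        ((H a).re - ‖ext f a‖ ^ 2)) := by gcongr
    _ ≤ ENNReal.ofReal (4 / s₁ * Real.exp 1) * ENNReal.ofReal (Real.pi * η) := by
        gcongr
        exact min_le_left _ _
    _ = ENNReal.ofReal (4 / s₁ * Real.exp 1 * Real.pi * η) := by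
        rw [← ENNReal.ofReal_mul (by positivity)]; congr 1; ring

/-- Harnack inequalities for the oscillation -/
lemma harn1_Wolff (h8 : S_harnack) (h9 : S_osc) {f : T → ℂ} (hf : f ∈ HInf) {w : ℂ} (hw : w ∈ UH)
    {x : ℝ} (hx : |x - w.re| ≤ w.im / 2) :
    uu_Wolff f (x + w.im * Complex.I) ≤ 6 * uu_Wolff f w := by
  have hw' : (x + w.im * Complex.I : ℂ) ∈ UH := mk_mem_Wolff hw
  rw [uu_of_Wolff f hw, uu_of_Wolff f hw']
  exact (h9 f hf).2.2.2 _ (exp_mem_Wolff hw) _ (exp_mem_Wolff hw') 6 (h8.2.1 w hw x hx)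

lemma harn2_Wolff (h8 : S_harnack) (h9 : S_osc) {f : T → ℂ} (hf : f ∈ HInf) {w : ℂ} (hw : w ∈ UH)
    {s : ℝ} (hs : w.im ≤ s) :
    uu_Wolff f (w.re + s * Complex.I) ≤ 4 * (s / w.im) * uu_Wolff f w := by
  have hw' : (w.re + s * Complex.I : ℂ) ∈ UH := mk_mem_Wolff (lt_of_lt_of_le hw hs)
  rw [uu_of_Wolff f hw, uu_of_Wolff f hw']
  exact (h9 f hf).2.2.2 _ (exp_mem_Wolff hw) _ (exp_mem_Wolff hw') _ (h8.2.2 w hw s hs)

/-! ### averages, vertical integrals -/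

lemma avg_le_Wolff {κ : ℝ} (hκ : 0 < κ) {σ : ℂ → ℝ} {w : ℂ} (hw : w ∈ UH) {M : ℝ}
    (h0 : ∀ u : ℝ, 0 ≤ σ (u + w.im * Complex.I)) (hM : ∀ u : ℝ, σ (u + w.im * Complex.I) ≤ M) :
    avg κ σ w ≤ M := by
  have hy : 0 < w.im := hw
  have hp : 0 < κ * w.im := mul_pos hκ hy
  unfold avg
  have h1 := norm_setIntegral_le_of_norm_le_const (μ := volume)
    (s := Icc (w.re - κ * w.im) (w.re + κ * w.im)) (f := fun u : ℝ => σ (u + w.im * Complex.I))
    (C := M) (by rw [Real.volume_Icc]; exact ENNReal.ofReal_lt_top) (fun u _ => by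
      rw [Real.norm_of_nonneg (h0 u)]; exact hM u)
  rw [Real.volume_real_Icc_of_le (by linarith)] at h1
  have h2 := (le_abs_self _).trans h1
  rw [inv_mul_le_iff₀ (by linarith)]
  calc _ ≤ _ := h2
    _ = 2 * (κ * w.im) * M := by ring

lemma avg_nonneg_Wolff {κ : ℝ} (hκ : 0 < κ) {σ : ℂ → ℝ} {w : ℂ} (hw : w ∈ UH)
    (h0 : ∀ u : ℝ, 0 ≤ σ (u + w.im * Complex.I)) : 0 ≤ avg κ σ w := by
  have hy : 0 < w.im := hw
  unfold avg
  apply mul_nonneg (by positivity)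
  exact setIntegral_nonneg measurableSet_Icc fun u _ => h0 u

lemma intOn_Wolff {C y : ℝ} (hy : 0 < y) : IntegrableOn (fun s : ℝ => C / s ^ 2) (Ioi y) ∧
    ∫ s in Ioi y, C / s ^ 2 = C / y := by
  have h1 : IntegrableOn (fun t : ℝ => t ^ (-2 : ℝ)) (Ioi y) :=
    integrableOn_Ioi_rpow_of_lt (by norm_num) hy
  have h2 := integral_Ioi_rpow_of_lt (a := -2) (by norm_num) hy
  have he : ∀ t ∈ Ioi y, C / t ^ 2 = C * t ^ (-2 : ℝ) := by
    intro t ht
    have ht' : 0 < t := hy.trans ht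
    rw [Real.rpow_neg ht'.le]
    norm_cast
  constructor
  · have h3 : IntegrableOn (fun t : ℝ => C * t ^ (-2 : ℝ)) (Ioi y) := h1.const_mul C
    exact h3.congr_fun (fun t ht => (he t ht).symm) measurableSet_Ioi
  · rw [setIntegral_congr_fun measurableSet_Ioi he, integral_const_mul, h2]
    have : (-2 : ℝ) + 1 = -1 := by norm_num
    rw [this, Real.rpow_neg hy.le, Real.rpow_one]
    field_simp

lemma vint_intOn_Wolff {φ : ℂ → ℝ} (hm : Measurable φ) (hd : Dec φ) {w : ℂ} (hw : w ∈ UH) :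
    IntegrableOn (fun s : ℝ => φ (w.re + s * Complex.I)) (Ioi w.im) := by
  obtain ⟨C, hC, h1⟩ := hd w.im hw
  refine Integrable.mono' (intOn_Wolff (C := C) hw).1 ?_ ?_
  · exact (hm.comp (by fun_prop)).aestronglyMeasurable
  · refine (ae_restrict_iff' measurableSet_Ioi).2 (Eventually.of_forall fun s hs => ?_)
    have := h1 (w.re + s * Complex.I) (by rw [im_mk_Wolff]; exact le_of_lt hs)
    rw [im_mk_Wolff] at this
    exact this

lemma vint_bound_Wolff {φ : ℂ → ℝ} (hd : Dec φ) : ∀ y₀ : ℝ, 0 < y₀ → ∃ C : ℝ, 0 ≤ C ∧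
    ∀ w : ℂ, y₀ ≤ w.im → |vint φ w| ≤ C / w.im := by
  intro y₀ hy
  obtain ⟨C, hC, h1⟩ := hd y₀ hy
  refine ⟨C, hC, fun w hw => ?_⟩
  have hw' : 0 < w.im := lt_of_lt_of_le hy hw
  unfold vint
  rw [← (intOn_Wolff (C := C) hw').2, ← Real.norm_eq_abs]
  refine norm_integral_le_of_norm_le (intOn_Wolff (C := C) hw').1 ?_
  refine (ae_restrict_iff' measurableSet_Ioi).2 (Eventually.of_forall fun s hs => ?_)
  have := h1 (w.re + s * Complex.I) (by rw [im_mk_Wolff]; exact hw.trans (le_of_lt hs))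
  rw [im_mk_Wolff] at this
  exact this

lemma vint_meas_Wolff {φ : ℂ → ℝ} (hm : Measurable φ) : Measurable (vint φ) := by
  have h1 : StronglyMeasurable (Function.uncurry fun (w : ℂ) (s : ℝ) =>
      if w.im < s then φ (w.re + s * Complex.I) else 0) := by
    apply Measurable.stronglyMeasurable
    apply Measurable.ite
    · exact measurableSet_lt (Complex.measurable_im.comp measurable_fst) measurable_snd
    · exact hm.comp (by fun_prop)
    · exact measurable_const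
  have h2 := h1.integral_prod_right (ν := volume)
  have h3 : vint φ = fun w => ∫ s : ℝ, if w.im < s then φ (w.re + s * Complex.I) else 0 := by
    funext w
    unfold vint
    rw [← integral_indicator measurableSet_Ioi]
    congr 1
  rw [h3]
  exact h2.measurable

lemma vint_mono_Wolff {φ ψ : ℂ → ℝ} (hm' : Measurable ψ)
    (hd' : Dec ψ) {w : ℂ} (hw : w ∈ UH) (h : ∀ v ∈ UH, |φ v| ≤ 2 * ψ v) :
    |vint φ w| ≤ 2 * vint ψ w := by
  unfold vint
  rw [← integral_const_mul, ← Real.norm_eq_abs]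
  refine norm_integral_le_of_norm_le ((vint_intOn_Wolff hm' hd' hw).const_mul 2) ?_
  refine (ae_restrict_iff' measurableSet_Ioi).2 (Eventually.of_forall fun s hs => ?_)
  exact h _ (mk_mem_Wolff (lt_trans hw hs))

lemma vint_per_Wolff {φ : ℂ → ℝ} (h : ∀ v ∈ UH, φ (v + 2 * Real.pi) = φ v) {w : ℂ} (hw : w ∈ UH) :
    vint φ (w + 2 * Real.pi) = vint φ w := by
  unfold vint
  have h1 : (w + 2 * Real.pi : ℂ).im = w.im := by simp
  have h2 : (w + 2 * Real.pi : ℂ).re = w.re + 2 * Real.pi := by simp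
  rw [h1, h2]
  refine setIntegral_congr_fun measurableSet_Ioi fun s hs => ?_
  have hs' : (0 : ℝ) < s := lt_trans hw hs
  show φ (((w.re + 2 * Real.pi : ℝ) : ℂ) + s * Complex.I) = φ (w.re + s * Complex.I)
  refine (congrArg φ ?_).trans (h _ (mk_mem_Wolff hs'))
  push_cast
  ring

/-! ### the good set -/

/-- the good set -/
def EE_Wolff (ε : ℝ) (g₀ : ℂ → ℂ) : Set ℂ :=
  {w | w ∈ UH ∧ ∀ t : ℝ, 0 < t → t ≤ w.im → ε ≤ ‖FF_Wolff g₀ (w.re + t * Complex.I)‖}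

lemma EE_meas_Wolff (ε : ℝ) {g₀ : ℂ → ℂ} (hg : DifferentiableOn ℂ g₀ disc) :
    MeasurableSet (EE_Wolff ε g₀) := by
  have hc := (diff_FF_Wolff hg).continuousOn
  set U : ℝ → Set ℂ := fun l => {w | w ∈ UH ∧
    ‖FF_Wolff g₀ (w.re + (l * w.im : ℝ) * Complex.I)‖ < ε} with hU
  have hopen : ∀ l ∈ Ioc (0 : ℝ) 1, IsOpen (U l) := by
    intro l hl
    have h1 : ContinuousOn (fun w : ℂ => ‖FF_Wolff g₀ (w.re + (l * w.im : ℝ) * Complex.I)‖) UH := by
      refine (hc.comp ?_ ?_).norm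
      · fun_prop
      · intro w hw
        exact mk_mem_Wolff (mul_pos hl.1 hw)
    exact h1.isOpen_inter_preimage isOpen_UH_Wolff isOpen_Iio
  have h2 : EE_Wolff ε g₀ = UH \ ⋃ l ∈ Ioc (0 : ℝ) 1, U l := by
    ext w
    constructor
    · rintro ⟨hw, h⟩
      refine ⟨hw, ?_⟩
      rw [mem_iUnion₂]
      rintro ⟨l, hl, _, h3⟩
      have hw' : 0 < w.im := hw
      have := h (l * w.im) (mul_pos hl.1 hw) (by nlinarith [hl.2])
      linarith
    · rintro ⟨hw, h⟩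
      refine ⟨hw, fun t ht ht' => ?_⟩
      by_contra hcon
      push Not at hcon
      apply h
      rw [mem_iUnion₂]
      have hw' : 0 < w.im := hw
      refine ⟨t / w.im, ⟨by positivity, (div_le_one hw').2 ht'⟩, hw, ?_⟩
      rw [div_mul_cancel₀ _ hw'.ne']
      exact hcon
  rw [h2]
  exact isOpen_UH_Wolff.measurableSet.diff
    (isOpen_biUnion fun l hl => hopen l hl).measurableSet

lemma EE_per_Wolff (ε : ℝ) (g₀ : ℂ → ℂ) (w : ℂ) :
    w + 2 * Real.pi ∈ EE_Wolff ε g₀ ↔ w ∈ EE_Wolff ε g₀ := by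
  have h1 : (w + 2 * Real.pi : ℂ).im = w.im := by simp
  have h2 : (w + 2 * Real.pi : ℂ).re = w.re + 2 * Real.pi := by simp
  have h3 : ∀ t : ℝ, FF_Wolff g₀ (((w.re + 2 * Real.pi : ℝ) : ℂ) + t * Complex.I) =
      FF_Wolff g₀ (w.re + t * Complex.I) := by
    intro t
    refine (congrArg (FF_Wolff g₀) ?_).trans (FF_per_Wolff g₀ _)
    push_cast
    ring
  unfold EE_Wolff
  rw [mem_ofPred_eq, mem_ofPred_eq, mem_per_Wolff, h1, h2]
  simp_rw [h3]

lemma shift_Wolff (u y : ℝ) : (((u + 2 * Real.pi : ℝ) : ℂ) + y * Complex.I) =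
    ((u : ℂ) + y * Complex.I) + 2 * Real.pi := by
  push_cast; ring

lemma eK_per_Wolff {κ : ℝ} {E : Set ℂ} (hE : ∀ w : ℂ, w + 2 * Real.pi ∈ E ↔ w ∈ E) (x y : ℝ) :
    eK κ E (x + 2 * Real.pi) y = eK κ E x y := by
  unfold eK
  rw [← measure_preimage_add_right volume (2 * Real.pi)
    {u : ℝ | |u - (x + 2 * Real.pi)| ≤ κ * y ∧ (u + y * Complex.I : ℂ) ∈ E}]
  congr 2
  ext u
  rw [mem_preimage, mem_ofPred_eq, mem_ofPred_eq, shift_Wolff, hE]
  have : u + 2 * Real.pi - (x + 2 * Real.pi) = u - x := by ring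
  rw [this]

lemma setInt_shift_Wolff (a b c : ℝ) (h : ℝ → ℝ) :
    ∫ u in Icc (a + c) (b + c), h u = ∫ u in Icc a b, h (u + c) := by
  rw [← integral_indicator measurableSet_Icc, ← integral_indicator measurableSet_Icc,
    ← integral_add_right_eq_self _ c]
  congr 1
  funext u
  by_cases hu : u ∈ Icc a b
  · rw [indicator_of_mem hu, indicator_of_mem]
    exact ⟨by linarith [hu.1], by linarith [hu.2]⟩
  · rw [indicator_of_notMem hu, indicator_of_notMem]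
    intro h'
    exact hu ⟨by linarith [h'.1], by linarith [h'.2]⟩

lemma cK_per_Wolff {κ : ℝ} {E : Set ℂ} (hE : ∀ w : ℂ, w + 2 * Real.pi ∈ E ↔ w ∈ E) {σ : ℂ → ℝ}
    (hσ : ∀ w, σ (w + 2 * Real.pi) = σ w) (w : ℂ) :
    cK κ E σ (w + 2 * Real.pi) = cK κ E σ w := by
  have h1 : (w + 2 * Real.pi : ℂ).im = w.im := by simp
  have h2 : (w + 2 * Real.pi : ℂ).re = w.re + 2 * Real.pi := by simp
  unfold cK
  rw [h1, h2]
  have e1 : w.re + 2 * Real.pi - κ * w.im = (w.re - κ * w.im) + 2 * Real.pi := by ring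
  have e2 : w.re + 2 * Real.pi + κ * w.im = (w.re + κ * w.im) + 2 * Real.pi := by ring
  rw [e1, e2, setInt_shift_Wolff]
  congr 1
  funext u
  rw [shift_Wolff, hσ, eK_per_Wolff hE]
  have e3 : (u + 2 * Real.pi < w.re + 2 * Real.pi) ↔ u < w.re := by constructor <;> intro h <;> linarith
  have e4 : volume {t : ℝ | t ≤ w.re + 2 * Real.pi ∧ |t - (u + 2 * Real.pi)| ≤ κ * w.im ∧
      (t + w.im * Complex.I : ℂ) ∈ E} =
      volume {t : ℝ | t ≤ w.re ∧ |t - u| ≤ κ * w.im ∧ (t + w.im * Complex.I : ℂ) ∈ E} := by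
    rw [← measure_preimage_add_right volume (2 * Real.pi) {t : ℝ | t ≤ w.re + 2 * Real.pi ∧
      |t - (u + 2 * Real.pi)| ≤ κ * w.im ∧ (t + w.im * Complex.I : ℂ) ∈ E}]
    congr 1
    ext t
    rw [mem_preimage, mem_ofPred_eq, mem_ofPred_eq, shift_Wolff, hE]
    have : t + 2 * Real.pi - (u + 2 * Real.pi) = t - u := by ring
    rw [this]
    constructor
    · rintro ⟨h3, h4⟩; exact ⟨by linarith, h4⟩
    · rintro ⟨h3, h4⟩; exact ⟨by linarith, h4⟩
  rw [e4]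
  simp only [e3]

lemma DK_per_Wolff {κ : ℝ} {E : Set ℂ} (hE : ∀ w : ℂ, w + 2 * Real.pi ∈ E ↔ w ∈ E) {σ : ℂ → ℝ}
    (hσ : ∀ w, σ (w + 2 * Real.pi) = σ w) (w : ℂ) :
    DK κ E σ (w + 2 * Real.pi) = DK κ E σ w := by
  have h1 : (w + 2 * Real.pi : ℂ).im = w.im := by simp
  have h2 : (w + 2 * Real.pi : ℂ).re = w.re + 2 * Real.pi := by simp
  unfold DK
  by_cases hw : w ∈ E
  · rw [if_pos hw, if_pos ((hE w).2 hw), h1, h2]
    have e1 : w.re + 2 * Real.pi - κ * w.im = (w.re - κ * w.im) + 2 * Real.pi := by ring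
    have e2 : w.re + 2 * Real.pi + κ * w.im = (w.re + κ * w.im) + 2 * Real.pi := by ring
    rw [e1, e2, setInt_shift_Wolff]
    congr 1
    funext u
    rw [shift_Wolff, hσ, eK_per_Wolff hE]
  · rw [if_neg hw, if_neg (mt (hE w).1 hw)]

/-- the hypothesis of the transport statement -/
lemma eK_ge_Wolff {ε εH δ κ : ℝ} (hκ : 0 < κ) (hε : ε ≤ εH) {G : ℂ → ℂ} {g₀ : ℂ → ℂ}
    (hG : G = FF_Wolff g₀)
    (hH : ∀ x y : ℝ, 0 < y → δ ≤ ‖G (x + y * Complex.I)‖ →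
      volume {u : ℝ | |u - x| ≤ κ * y ∧ ∃ t : ℝ, 0 < t ∧ t ≤ y ∧ ‖G (u + t * Complex.I)‖ < εH} ≤
        ENNReal.ofReal (κ * y)) {w : ℂ} (hw : w ∈ UH) (hGw : δ ≤ ‖G w‖) :
    κ * w.im ≤ eK κ (EE_Wolff ε g₀) w.re w.im := by
  have hy : 0 < w.im := hw
  have hp : 0 < κ * w.im := mul_pos hκ hy
  have h1 := hH w.re w.im hy (by rw [mk_re_im_Wolff]; exact hGw)
  set A : Set ℝ := {u : ℝ | |u - w.re| ≤ κ * w.im ∧ (u + w.im * Complex.I : ℂ) ∈ EE_Wolff ε g₀}
  set B : Set ℝ := {u : ℝ | |u - w.re| ≤ κ * w.im ∧ ∃ t : ℝ, 0 < t ∧ t ≤ w.im ∧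
    ‖G (u + t * Complex.I)‖ < εH}
  have hcov : Icc (w.re - κ * w.im) (w.re + κ * w.im) ⊆ A ∪ B := by
    intro u hu
    have hu' : |u - w.re| ≤ κ * w.im := by
      rw [abs_le]; constructor <;> linarith [hu.1, hu.2]
    by_cases h : (u + w.im * Complex.I : ℂ) ∈ EE_Wolff ε g₀
    · exact Or.inl ⟨hu', h⟩
    · refine Or.inr ⟨hu', ?_⟩
      by_contra hcon
      push Not at hcon
      apply h
      refine ⟨mk_mem_Wolff hy, fun t ht ht' => ?_⟩
      rw [im_mk_Wolff] at ht'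
      rw [re_mk_Wolff, ← hG]
      exact hε.trans (hcon t ht ht')
  have hAf : volume A ≠ ⊤ := by
    apply ne_top_of_le_ne_top (b := volume (Icc (w.re - κ * w.im) (w.re + κ * w.im)))
    · rw [Real.volume_Icc]; exact ENNReal.ofReal_ne_top
    · apply measure_mono
      rintro u ⟨hu, -⟩
      rw [abs_le] at hu
      exact ⟨by linarith [hu.1], by linarith [hu.2]⟩
  have h2 : ENNReal.ofReal (2 * (κ * w.im)) ≤ volume A + ENNReal.ofReal (κ * w.im) := by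
    calc ENNReal.ofReal (2 * (κ * w.im)) = volume (Icc (w.re - κ * w.im) (w.re + κ * w.im)) := by
          rw [Real.volume_Icc]; congr 1; ring
      _ ≤ volume (A ∪ B) := measure_mono hcov
      _ ≤ volume A + volume B := measure_union_le _ _
      _ ≤ _ := by gcongr
  have h3 : eK κ (EE_Wolff ε g₀) w.re w.im = (volume A).toReal := rfl
  rw [h3]
  rw [← ENNReal.ofReal_toReal hAf, ← ENNReal.ofReal_add ENNReal.toReal_nonneg hp.le,
    ENNReal.ofReal_le_ofReal_iff (by positivity)] at h2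
  linarith

/-- horizontal oscillation of a bounded analytic function -/
lemma horiz_Wolff {g₀ : ℂ → ℂ} (hg : DifferentiableOn ℂ g₀ disc) (h1 : ∀ z ∈ disc, ‖g₀ z‖ ≤ 1)
    {x x' y κ : ℝ} (hy : 0 < y) (hx : |x' - x| ≤ κ * y) :
    ‖FF_Wolff g₀ (x' + y * Complex.I)‖ - 2 * κ ≤ ‖FF_Wolff g₀ (x + y * Complex.I)‖ := by
  have hd := diff_FF_Wolff hg
  set s : Set ℂ := {w | w.im = y} with hs
  have hconv : Convex ℝ s := by
    intro a ha b hb p q hp hq hpq
    show (p • a + q • b : ℂ).im = y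
    have ha' : a.im = y := ha
    have hb' : b.im = y := hb
    simp only [Complex.add_im, Complex.real_smul, Complex.mul_im, Complex.ofReal_re,
      Complex.ofReal_im, zero_mul, add_zero, ha', hb']
    rw [← add_mul, hpq, one_mul]
  have hsU : ∀ w ∈ s, w ∈ UH := by
    intro w hw
    show 0 < w.im
    rw [show w.im = y from hw]; exact hy
  have hb : ∀ w ∈ s, ‖deriv (FF_Wolff g₀) w‖ ≤ 1 / (y / 2) := by
    intro w hw
    have hsub : closedBall w (y / 2) ⊆ UH := by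
      intro u hu
      rw [mem_closedBall, dist_eq_norm] at hu
      have h3 : |(u - w).im| ≤ ‖u - w‖ := Complex.abs_im_le_norm _
      rw [Complex.sub_im, show w.im = y from hw] at h3
      have h4 := abs_le.1 (h3.trans hu)
      show 0 < u.im
      linarith [h4.1]
    exact Complex.norm_deriv_le_of_forall_mem_sphere_norm_le (by linarith)
      ((hd.mono hsub).diffContOnCl_ball (subset_refl _)) (fun u hu => h1 _ (exp_mem_Wolff
        (hsub (sphere_subset_closedBall hu))))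
  have hx1 : (x + y * Complex.I : ℂ) ∈ s := im_mk_Wolff x y
  have hx2 : (x' + y * Complex.I : ℂ) ∈ s := im_mk_Wolff x' y
  have h3 := hconv.norm_image_sub_le_of_norm_deriv_le (f := FF_Wolff g₀) (C := 1 / (y / 2))
    (fun w hw => (hd w (hsU w hw)).differentiableAt (isOpen_UH_Wolff.mem_nhds (hsU w hw)))
    hb hx1 hx2
  have h4 : ‖(x' + y * Complex.I : ℂ) - (x + y * Complex.I)‖ = |x' - x| := by
    have : (x' + y * Complex.I : ℂ) - (x + y * Complex.I) = ((x' - x : ℝ) : ℂ) := by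
      push_cast; ring
    rw [this, Complex.norm_real, Real.norm_eq_abs]
  rw [h4] at h3
  have h5 : 1 / (y / 2) * |x' - x| ≤ 2 * κ := by
    calc 1 / (y / 2) * |x' - x| ≤ 1 / (y / 2) * (κ * y) := by gcongr
      _ = 2 * κ := by field_simp
  have h6 := norm_sub_norm_le (FF_Wolff g₀ (x' + y * Complex.I)) (FF_Wolff g₀ (x + y * Complex.I))
  linarith

/-! ### decay -/

lemma Dec_sub_Wolff {φ ψ : ℂ → ℝ} (h : Dec φ) (h' : Dec ψ) : Dec (fun z => φ z - ψ z) := by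
  intro y₀ hy
  obtain ⟨C, hC, h1⟩ := h y₀ hy
  obtain ⟨C', hC', h1'⟩ := h' y₀ hy
  refine ⟨C + C', by positivity, fun w hw => ?_⟩
  rw [add_div]
  exact (abs_sub _ _).trans (add_le_add (h1 w hw) (h1' w hw))

lemma Dec_bd_Wolff {φ : ℂ → ℝ} (h : Dec φ) {y₀ : ℝ} (hy : 0 < y₀) :
    ∃ C : ℝ, 0 ≤ C ∧ ∀ w : ℂ, y₀ ≤ w.im → |φ w| ≤ C := by
  obtain ⟨C, hC, h1⟩ := h y₀ hy
  refine ⟨C / y₀ ^ 2, by positivity, fun w hw => (h1 w hw).trans ?_⟩
  gcongr

lemma vint_bd_Wolff {φ : ℂ → ℝ} (h : Dec φ) {y₀ : ℝ} (hy : 0 < y₀) :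
    ∃ C : ℝ, 0 ≤ C ∧ ∀ w : ℂ, y₀ ≤ w.im → |vint φ w| ≤ C := by
  obtain ⟨C, hC, h1⟩ := vint_bound_Wolff h y₀ hy
  refine ⟨C / y₀, by positivity, fun w hw => (h1 w hw).trans ?_⟩
  gcongr

lemma ss_decay_Wolff {s₁ : ℝ} (hs : 0 < s₁) {f₀ : ℂ → ℂ} (hf : DifferentiableOn ℂ f₀ disc)
    (h1 : ∀ z ∈ disc, ‖f₀ z‖ ≤ 1) {y₀ : ℝ} (hy : 0 < y₀) :
    ∃ C : ℝ, 0 ≤ C ∧ ∀ w : ℂ, y₀ ≤ w.im →
      ss_Wolff s₁ f₀ w ≤ C * (Real.exp (-w.im) * Real.exp (-w.im)) := by
  obtain ⟨C, hC, h2⟩ := decay_Wolff hf h1 hy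
  refine ⟨4 / s₁ * C ^ 2, by positivity, fun w hw => ?_⟩
  have hw' : w ∈ UH := lt_of_lt_of_le hy hw
  rw [ss_of_Wolff s₁ _ hw']
  refine (sig_le_Wolff hs _ w).trans ?_
  have h3 := (h2 w hw).1
  have h4 : ‖deriv (FF_Wolff f₀) w‖ ^ 2 ≤ (C * Real.exp (-w.im)) ^ 2 :=
    pow_le_pow_left₀ (norm_nonneg _) h3 2
  calc 4 / s₁ * ‖deriv (FF_Wolff f₀) w‖ ^ 2 ≤ 4 / s₁ * (C * Real.exp (-w.im)) ^ 2 := by gcongr
    _ = _ := by ring

lemma avg_decay_Wolff {κ : ℝ} (hκ : 0 < κ) {s₁ : ℝ} (hs : 0 < s₁) {f₀ : ℂ → ℂ}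
    (hf : DifferentiableOn ℂ f₀ disc)
    (h1 : ∀ z ∈ disc, ‖f₀ z‖ ≤ 1) {y₀ : ℝ} (hy : 0 < y₀) :
    ∃ C : ℝ, 0 ≤ C ∧ ∀ w : ℂ, y₀ ≤ w.im →
      avg κ (ss_Wolff s₁ f₀) w ≤ C * (Real.exp (-w.im) * Real.exp (-w.im)) := by
  obtain ⟨C, hC, h2⟩ := ss_decay_Wolff hs hf h1 hy
  refine ⟨C, hC, fun w hw => ?_⟩
  have hw' : w ∈ UH := lt_of_lt_of_le hy hw
  refine avg_le_Wolff hκ hw' (fun u => ss_nonneg_Wolff _ _ _) fun u => ?_
  have := h2 (u + w.im * Complex.I) (by rw [im_mk_Wolff]; exact hw)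
  rwa [im_mk_Wolff] at this

/-- the construction on the half plane -/
lemma half_Wolff (h3 : S_transport) (h4 : S_V) (h5 : S_wdac) {κ s₁ ε CL : ℝ} (hκ : 0 < κ)
    (hs0 : 0 < s₁) (hCL : 0 < CL)
    {f₀ g₀ : ℂ → ℂ} (hf : DifferentiableOn ℂ f₀ disc) (hf1 : ∀ z ∈ disc, ‖f₀ z‖ ≤ 1)
    (hg : DifferentiableOn ℂ g₀ disc)
    (hL : ∃ Lx Ly Lxx Lyy : ℂ → ℝ, ContinuousOn Lx UH ∧ ContinuousOn Ly UH ∧ ContinuousOn Lxx UH ∧
      ContinuousOn Lyy UH ∧ ∀ x y : ℝ, 0 < y →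
      HasDerivAt (fun u : ℝ => Lam s₁ (‖FF_Wolff f₀ (u + y * Complex.I)‖ ^ 2))
        (Lx (x + y * Complex.I)) x ∧
      HasDerivAt (fun v : ℝ => Lam s₁ (‖FF_Wolff f₀ (x + v * Complex.I)‖ ^ 2))
        (Ly (x + y * Complex.I)) y ∧
      HasDerivAt (fun u : ℝ => Lx (u + y * Complex.I)) (Lxx (x + y * Complex.I)) x ∧
      HasDerivAt (fun v : ℝ => Ly (x + v * Complex.I)) (Lyy (x + y * Complex.I)) y ∧
      Lxx (x + y * Complex.I) + Lyy (x + y * Complex.I) =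
        sig s₁ (FF_Wolff f₀) (x + y * Complex.I) ∧
      |Lx (x + y * Complex.I)| ≤ CL * ‖deriv (FF_Wolff f₀) (x + y * Complex.I)‖ ∧
      |Ly (x + y * Complex.I)| ≤ CL * ‖deriv (FF_Wolff f₀) (x + y * Complex.I)‖ ∧
      |Lxx (x + y * Complex.I)| ≤ CL * (‖deriv (FF_Wolff f₀) (x + y * Complex.I)‖ ^ 2 +
        ‖deriv (deriv (FF_Wolff f₀)) (x + y * Complex.I)‖) ∧
      |Lyy (x + y * Complex.I)| ≤ CL * (‖deriv (FF_Wolff f₀) (x + y * Complex.I)‖ ^ 2 +
        ‖deriv (deriv (FF_Wolff f₀)) (x + y * Complex.I)‖))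
    (hE : ∀ w ∈ UH, ss_Wolff s₁ f₀ w ≠ 0 → κ * w.im ≤ eK κ (EE_Wolff ε g₀) w.re w.im)
    (hc0 : ∀ w ∈ UH, ∀ u : ℝ, |u - w.re| ≤ κ * w.im →
      ss_Wolff s₁ f₀ (u + w.im * Complex.I) ≠ 0 → ε ≤ ‖FF_Wolff g₀ w‖) :
    ∃ V ν : ℂ → ℂ, WD UH V ν ∧ Measurable ν ∧ (∀ w ∈ UH, V (w + 2 * Real.pi) = V w) ∧
      (∀ w ∈ UH, ν (w + 2 * Real.pi) = ν w) ∧
      (∃ C : ℝ, ∀ w : ℂ, 1 ≤ w.im → ‖V w - (Lam s₁ (‖f₀ 0‖ ^ 2) : ℝ)‖ ≤ C / w.im) ∧
      (∀ w ∈ UH, (V w).re = Lam s₁ (‖FF_Wolff f₀ w‖ ^ 2)) ∧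
      (∀ w, w ∉ UH → ν w = 0) ∧
      (∀ w ∈ UH, ‖ν w‖ ≤ κ * w.im * avg κ (ss_Wolff s₁ f₀) w + vint (avg κ (ss_Wolff s₁ f₀)) w) ∧
      (∀ w ∈ UH, ‖FF_Wolff g₀ w‖ < ε → ν w = 0) := by
  obtain ⟨Lx, Ly, Lxx, Lyy, cLx, cLy, cLxx, cLyy, hLL⟩ := hL
  set σ := ss_Wolff s₁ f₀ with hσ
  set E := EE_Wolff ε g₀ with hEE
  have hσ0 : ∀ w, 0 ≤ σ w := ss_nonneg_Wolff s₁ f₀
  have mσ : Measurable σ := ss_meas_Wolff s₁ hf
  obtain ⟨mD, mc, mavg, hbd, hDs, hcs, hdiv⟩ := h3 κ E σ hκ (EE_meas_Wolff ε hg)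
    (ss_cont_Wolff s₁ hf) mσ (fun w _ => hσ0 w) hE
  set c := cK κ E σ with hc
  set D := DK κ E σ with hD
  -- decay of everything
  have hw' : ∀ {y₀ : ℝ} {w : ℂ}, 0 < y₀ → y₀ ≤ w.im → w ∈ UH := fun hy hw => lt_of_lt_of_le hy hw
  have dσ : Dec σ := by
    apply dec_of_exp_Wolff
    intro y₀ hy
    obtain ⟨C, hC, h⟩ := ss_decay_Wolff (s₁ := s₁) hs0 hf hf1 hy
    refine ⟨C, hC, fun w hw => ?_⟩
    rw [abs_of_nonneg (hσ0 w)]
    have e1 : Real.exp (-w.im) ≤ 1 := Real.exp_le_one_iff.2 (by linarith [hw' hy hw, hw])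
    have e0 := Real.exp_pos (-w.im)
    calc σ w ≤ C * (Real.exp (-w.im) * Real.exp (-w.im)) := h w hw
      _ ≤ C * (Real.exp (-w.im) * 1) := by gcongr
      _ = _ := by ring
  have davg' : ∀ y₀ : ℝ, 0 < y₀ → ∃ C : ℝ, 0 ≤ C ∧ ∀ w : ℂ, y₀ ≤ w.im →
      |avg κ σ w| ≤ C * Real.exp (-w.im) := by
    intro y₀ hy
    obtain ⟨C, hC, h⟩ := avg_decay_Wolff hκ (s₁ := s₁) hs0 hf hf1 hy
    refine ⟨C, hC, fun w hw => ?_⟩
    rw [abs_of_nonneg (avg_nonneg_Wolff hκ (hw' hy hw) fun u => hσ0 _)]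
    have e1 : Real.exp (-w.im) ≤ 1 := Real.exp_le_one_iff.2 (by linarith [hw' hy hw, hw])
    have e0 := Real.exp_pos (-w.im)
    calc avg κ σ w ≤ C * (Real.exp (-w.im) * Real.exp (-w.im)) := h w hw
      _ ≤ C * (Real.exp (-w.im) * 1) := by gcongr
      _ = _ := by ring
  have davg : Dec (avg κ σ) := dec_of_exp_Wolff davg'
  have dD : Dec D := by
    apply dec_of_exp_Wolff
    intro y₀ hy
    obtain ⟨C, hC, h⟩ := davg' y₀ hy
    refine ⟨2 * C, by positivity, fun w hw => ?_⟩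
    have h6 := hbd w (hw' hy hw)
    rw [abs_of_nonneg h6.1]
    have h7 := (le_abs_self _).trans (h w hw)
    linarith [h6.2.1]
  have dc : Dec c := by
    apply dec_of_exp_Wolff
    intro y₀ hy
    obtain ⟨C, hC, h⟩ := avg_decay_Wolff hκ (s₁ := s₁) hs0 hf hf1 hy
    refine ⟨2 * κ * C, by positivity, fun w hw => ?_⟩
    have h6 := hbd w (hw' hy hw)
    have h7 := h w hw
    have hy' : 0 < w.im := hw' hy hw
    have h8 := mul_exp_neg_le_Wolff (y := w.im)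
    have e0 := Real.exp_pos (-w.im)
    calc |c w| ≤ 2 * (κ * w.im) * avg κ σ w := h6.2.2
      _ ≤ 2 * (κ * w.im) * (C * (Real.exp (-w.im) * Real.exp (-w.im))) := by gcongr
      _ = 2 * κ * C * (w.im * Real.exp (-w.im)) * Real.exp (-w.im) := by ring
      _ ≤ 2 * κ * C * 1 * Real.exp (-w.im) := by gcongr
      _ = _ := by ring
  have dL1 : ∀ φ : ℂ → ℝ, (∀ x y : ℝ, 0 < y →
      |φ (x + y * Complex.I)| ≤ CL * ‖deriv (FF_Wolff f₀) (x + y * Complex.I)‖) → Dec φ := by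
    intro φ hφ
    apply dec_of_exp_Wolff
    intro y₀ hy
    obtain ⟨C, hC, h⟩ := decay_Wolff hf hf1 hy
    refine ⟨CL * C, by positivity, fun w hw => ?_⟩
    have h6 := hφ w.re w.im (hw' hy hw)
    rw [mk_re_im_Wolff] at h6
    calc |φ w| ≤ CL * ‖deriv (FF_Wolff f₀) w‖ := h6
      _ ≤ CL * (C * Real.exp (-w.im)) := by gcongr; exact (h w hw).1
      _ = _ := by ring
  have dL2 : ∀ φ : ℂ → ℝ, (∀ x y : ℝ, 0 < y →
      |φ (x + y * Complex.I)| ≤ CL * (‖deriv (FF_Wolff f₀) (x + y * Complex.I)‖ ^ 2 +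
        ‖deriv (deriv (FF_Wolff f₀)) (x + y * Complex.I)‖)) → Dec φ := by
    intro φ hφ
    apply dec_of_exp_Wolff
    intro y₀ hy
    obtain ⟨C, hC, h⟩ := decay_Wolff hf hf1 hy
    refine ⟨CL * (C ^ 2 + C), by positivity, fun w hw => ?_⟩
    have h6 := hφ w.re w.im (hw' hy hw)
    rw [mk_re_im_Wolff] at h6
    have e1 : Real.exp (-w.im) ≤ 1 := Real.exp_le_one_iff.2 (by linarith [hw' hy hw, hw])
    have e0 := Real.exp_pos (-w.im)
    have h7 : ‖deriv (FF_Wolff f₀) w‖ ^ 2 ≤ C ^ 2 * Real.exp (-w.im) := by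
      calc ‖deriv (FF_Wolff f₀) w‖ ^ 2 ≤ (C * Real.exp (-w.im)) ^ 2 :=
            pow_le_pow_left₀ (norm_nonneg _) (h w hw).1 2
        _ = C ^ 2 * (Real.exp (-w.im) * Real.exp (-w.im)) := by ring
        _ ≤ C ^ 2 * (Real.exp (-w.im) * 1) := by gcongr
        _ = _ := by ring
    calc |φ w| ≤ CL * (‖deriv (FF_Wolff f₀) w‖ ^ 2 + ‖deriv (deriv (FF_Wolff f₀)) w‖) := h6
      _ ≤ CL * (C ^ 2 * Real.exp (-w.im) + C * Real.exp (-w.im)) := by
          gcongr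
          exact (h w hw).2.1
      _ = _ := by ring
  have dLx : Dec Lx := dL1 Lx fun x y hy => (hLL x y hy).2.2.2.2.2.1
  have dLy : Dec Ly := dL1 Ly fun x y hy => (hLL x y hy).2.2.2.2.2.2.1
  have dLxx : Dec Lxx := dL2 Lxx fun x y hy => (hLL x y hy).2.2.2.2.2.2.2.1
  have dLyy : Dec Lyy := dL2 Lyy fun x y hy => (hLL x y hy).2.2.2.2.2.2.2.2
  -- the function V
  have hV := h4 (fun w => Lam s₁ (‖FF_Wolff f₀ w‖ ^ 2)) Lx Ly Lxx Lyy σ c D cLx cLy cLxx cLyy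
    mσ mc mD (fun x y hy => ⟨(hLL x y hy).1, (hLL x y hy).2.1, (hLL x y hy).2.2.1,
      (hLL x y hy).2.2.2.1, by
        rw [(hLL x y hy).2.2.2.2.1, hσ, ss_of_Wolff s₁ f₀ (mk_mem_Wolff hy)]⟩)
    hdiv dLx dLy dLxx dLyy dσ dc dD
  set V : ℂ → ℂ := fun w => ((Lam s₁ (‖FF_Wolff f₀ w‖ ^ 2) : ℝ) : ℂ) +
    Complex.I * (vint (fun z => c z - Lx z) w : ℂ) with hVdef
  set a : ℂ → ℝ := vint D with ha
  have ma : Measurable a := vint_meas_Wolff mD
  set P : ℂ → ℂ := fun w => ((UH.indicator Lx w : ℝ) : ℂ) - Complex.I *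
    (((UH.indicator Ly w : ℝ) : ℂ) + ((UH.indicator a w : ℝ) : ℂ)) with hP
  set Q : ℂ → ℂ := fun w => ((UH.indicator Ly w : ℝ) : ℂ) + Complex.I *
    (((UH.indicator Lx w : ℝ) : ℂ) - ((UH.indicator c w : ℝ) : ℂ)) with hQ
  have mUH : MeasurableSet UH := isOpen_UH_Wolff.measurableSet
  have mLx := Complex.measurable_ofReal.comp (meas_ind_Wolff isOpen_UH_Wolff cLx)
  have mLy := Complex.measurable_ofReal.comp (meas_ind_Wolff isOpen_UH_Wolff cLy)
  have mca := Complex.measurable_ofReal.comp (mc.indicator mUH)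
  have maa := Complex.measurable_ofReal.comp (ma.indicator mUH)
  have mP : Measurable P := mLx.sub (measurable_const.mul (mLy.add maa))
  have mQ : Measurable Q := mLy.add (measurable_const.mul (mLx.sub mca))
  have hPQ : HasP V P Q := by
    refine ⟨fun y hy x₁ x₂ => ?_, fun x y₁ y₂ hy₁ hy₂ => ?_⟩
    · rw [hV.1 y hy x₁ x₂]
      refine intervalIntegral.integral_congr fun x _ => ?_
      have hm := mk_mem_Wolff (x := x) hy
      simp only [hP, indicator_of_mem hm]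
    · rw [hV.2 x y₁ y₂ hy₁ hy₂]
      refine intervalIntegral.integral_congr fun y hy => ?_
      have hy' : 0 < y := lt_of_lt_of_le (lt_min hy₁ hy₂) hy.1
      have hm := mk_mem_Wolff (x := x) hy'
      simp only [hQ, indicator_of_mem hm]
  have hWD := h5 V P Q mP mQ (by
    intro K hK hKU
    rcases K.eq_empty_or_nonempty with h0 | hne
    · exact ⟨0, fun w hw => by rw [h0] at hw; exact absurd hw (notMem_empty _)⟩
    obtain ⟨w₀, hw₀, hmin⟩ := hK.exists_isMinOn hne Complex.continuous_im.continuousOn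
    have hy : 0 < w₀.im := hKU hw₀
    obtain ⟨C1, hC1, b1⟩ := Dec_bd_Wolff dLx hy
    obtain ⟨C2, hC2, b2⟩ := Dec_bd_Wolff dLy hy
    obtain ⟨C3, hC3, b3⟩ := Dec_bd_Wolff dc hy
    obtain ⟨C4, hC4, b4⟩ := vint_bd_Wolff dD hy
    refine ⟨C1 + C2 + C3 + C4, fun w hw => ?_⟩
    have hwU : w ∈ UH := hKU hw
    have hle : w₀.im ≤ w.im := hmin hw
    have c1 := b1 w hle
    have c2 := b2 w hle
    have c3 := b3 w hle
    have c4 := b4 w hle
    simp only [hP, hQ, indicator_of_mem hwU]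
    constructor
    · calc ‖(Lx w : ℂ) - Complex.I * ((Ly w : ℂ) + (a w : ℂ))‖ ≤
          ‖(Lx w : ℂ)‖ + ‖Complex.I * ((Ly w : ℂ) + (a w : ℂ))‖ := norm_sub_le _ _
        _ ≤ ‖(Lx w : ℂ)‖ + (‖(Ly w : ℂ)‖ + ‖(a w : ℂ)‖) := by
            rw [norm_mul, Complex.norm_I, one_mul]
            gcongr
            exact norm_add_le _ _
        _ ≤ _ := by
            rw [Complex.norm_real, Complex.norm_real, Complex.norm_real, Real.norm_eq_abs,
              Real.norm_eq_abs, Real.norm_eq_abs]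
            linarith
    · calc ‖(Ly w : ℂ) + Complex.I * ((Lx w : ℂ) - (c w : ℂ))‖ ≤
          ‖(Ly w : ℂ)‖ + ‖Complex.I * ((Lx w : ℂ) - (c w : ℂ))‖ := norm_add_le _ _
        _ ≤ ‖(Ly w : ℂ)‖ + (‖(Lx w : ℂ)‖ + ‖(c w : ℂ)‖) := by
            rw [norm_mul, Complex.norm_I, one_mul]
            gcongr
            exact norm_sub_le _ _
        _ ≤ _ := by
            rw [Complex.norm_real, Complex.norm_real, Complex.norm_real, Real.norm_eq_abs,
              Real.norm_eq_abs, Real.norm_eq_abs]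
            linarith) hPQ
  set ν : ℂ → ℂ := fun w => (P w + Complex.I * Q w) / 2 with hν
  have mν : Measurable ν := (mP.add (measurable_const.mul mQ)).div_const 2
  have hνU : ∀ w ∈ UH, ν w = ((c w : ℂ) - Complex.I * (a w : ℂ)) / 2 := by
    intro w hw
    simp only [hν, hP, hQ, indicator_of_mem hw]
    linear_combination ((Lx w : ℂ) - (c w : ℂ)) / 2 * Complex.I_mul_I
  have hν0 : ∀ w, w ∉ UH → ν w = 0 := by
    intro w hw
    simp only [hν, hP, hQ, indicator_of_notMem hw]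
    simp
  have hEp : ∀ w : ℂ, w + 2 * Real.pi ∈ E ↔ w ∈ E := EE_per_Wolff ε g₀
  have hσp : ∀ w, σ (w + 2 * Real.pi) = σ w := ss_per_Wolff s₁ f₀
  have hcp : ∀ w, c (w + 2 * Real.pi) = c w := cK_per_Wolff hEp hσp
  have hDp : ∀ w, D (w + 2 * Real.pi) = D w := DK_per_Wolff hEp hσp
  have hLxp : ∀ w ∈ UH, Lx (w + 2 * Real.pi) = Lx w := by
    intro w hw
    have k1 := (hLL w.re w.im hw).1
    have k2 := (hLL (w.re + 2 * Real.pi) w.im hw).1
    have k3 := k2.comp_add_const w.re (2 * Real.pi)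
    have k4 : (fun u : ℝ => Lam s₁ (‖FF_Wolff f₀ (((u + 2 * Real.pi : ℝ) : ℂ) +
        w.im * Complex.I)‖ ^ 2)) = fun u : ℝ => Lam s₁ (‖FF_Wolff f₀ (u + w.im * Complex.I)‖ ^ 2) := by
      funext u
      rw [shift_Wolff, FF_per_Wolff]
    rw [k4] at k3
    have k5 := k3.unique k1
    rw [shift_Wolff, mk_re_im_Wolff] at k5
    exact k5
  refine ⟨V, ν, hWD, mν, ?_, ?_, ?_, ?_, hν0, ?_, ?_⟩
  · intro w hw
    have e1 : vint (fun z => c z - Lx z) (w + 2 * Real.pi) = vint (fun z => c z - Lx z) w :=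
      vint_per_Wolff (fun v hv => by rw [hcp, hLxp v hv]) hw
    simp only [hVdef]
    rw [FF_per_Wolff, e1]
  · intro w hw
    have e1 : a (w + 2 * Real.pi) = a w := vint_per_Wolff (fun v _ => hDp v) hw
    rw [hνU w hw, hνU _ (mem_per_Wolff.2 hw), hcp, e1]
  · obtain ⟨C1, hC1, b1⟩ := decay_Wolff hf hf1 one_pos
    obtain ⟨C2, hC2, b2⟩ := vint_bound_Wolff (Dec_sub_Wolff dc dLx) 1 one_pos
    refine ⟨2 / s₁ * (2 * C1) + C2, fun w hw => ?_⟩
    have hwU : w ∈ UH := lt_of_lt_of_le one_pos hw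
    have hwp : 0 < w.im := hwU
    have e1 : V w - ((Lam s₁ (‖f₀ 0‖ ^ 2) : ℝ) : ℂ) =
        ((Lam s₁ (‖FF_Wolff f₀ w‖ ^ 2) - Lam s₁ (‖f₀ 0‖ ^ 2) : ℝ) : ℂ) +
        Complex.I * (vint (fun z => c z - Lx z) w : ℂ) := by
      simp only [hVdef]; push_cast; ring
    have e2 : |Lam s₁ (‖FF_Wolff f₀ w‖ ^ 2) - Lam s₁ (‖f₀ 0‖ ^ 2)| ≤
        2 / s₁ * (2 * C1) / w.im := by
      have h6 := Lam_lip_Wolff (s₁ := s₁) hs0 (s := ‖FF_Wolff f₀ w‖ ^ 2) (t := ‖f₀ 0‖ ^ 2)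
        (by positivity) (by positivity)
      have h7 : |‖FF_Wolff f₀ w‖ ^ 2 - ‖f₀ 0‖ ^ 2| ≤ 2 * (C1 / w.im) := by
        have h8 : ‖FF_Wolff f₀ w‖ ≤ 1 := hf1 _ (exp_mem_Wolff hwU)
        have h9 : ‖f₀ 0‖ ≤ 1 := hf1 0 (mem_ball_self one_pos)
        have h10 : |‖FF_Wolff f₀ w‖ - ‖f₀ 0‖| ≤ ‖FF_Wolff f₀ w - f₀ 0‖ := abs_norm_sub_norm_le _ _
        have h11 := (b1 w hw).2.2
        have h12 : Real.exp (-w.im) ≤ 1 / w.im := by
          rw [le_div_iff₀ hwp, mul_comm]; exact mul_exp_neg_le_Wolff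
        have h13 : |‖FF_Wolff f₀ w‖ - ‖f₀ 0‖| ≤ C1 / w.im := by
          refine (h10.trans h11).trans ?_
          calc C1 * Real.exp (-w.im) ≤ C1 * (1 / w.im) := by gcongr
            _ = _ := by ring
        have h14 : ‖FF_Wolff f₀ w‖ ^ 2 - ‖f₀ 0‖ ^ 2 = (‖FF_Wolff f₀ w‖ + ‖f₀ 0‖) *
          (‖FF_Wolff f₀ w‖ - ‖f₀ 0‖) := by ring
        rw [h14, abs_mul, abs_of_nonneg (by positivity)]
        have h15 : ‖FF_Wolff f₀ w‖ + ‖f₀ 0‖ ≤ 2 := by linarith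
        gcongr
      calc _ ≤ 2 / s₁ * |‖FF_Wolff f₀ w‖ ^ 2 - ‖f₀ 0‖ ^ 2| := h6
        _ ≤ 2 / s₁ * (2 * (C1 / w.im)) := by gcongr
        _ = _ := by ring
    rw [e1]
    calc _ ≤ ‖((Lam s₁ (‖FF_Wolff f₀ w‖ ^ 2) - Lam s₁ (‖f₀ 0‖ ^ 2) : ℝ) : ℂ)‖ +
          ‖Complex.I * (vint (fun z => c z - Lx z) w : ℂ)‖ := norm_add_le _ _
      _ = |Lam s₁ (‖FF_Wolff f₀ w‖ ^ 2) - Lam s₁ (‖f₀ 0‖ ^ 2)| + |vint (fun z => c z - Lx z) w| := by
          rw [norm_mul, Complex.norm_I, one_mul, Complex.norm_real, Complex.norm_real,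
            Real.norm_eq_abs, Real.norm_eq_abs]
      _ ≤ 2 / s₁ * (2 * C1) / w.im + C2 / w.im := add_le_add e2 (b2 w hw)
      _ = _ := by ring
  · intro w hw
    simp only [hVdef]
    simp
  · intro w hw
    have hwp : 0 < w.im := hw
    rw [hνU w hw]
    have k1 := (hbd w hw).2.2
    have k2 : |a w| ≤ 2 * vint (avg κ σ) w := vint_mono_Wolff mavg davg hw (fun v hv => by
      rw [abs_of_nonneg (hbd v hv).1]; exact (hbd v hv).2.1)
    calc ‖((c w : ℂ) - Complex.I * (a w : ℂ)) / 2‖ = ‖(c w : ℂ) - Complex.I * (a w : ℂ)‖ / 2 := by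
          rw [norm_div]; simp
      _ ≤ (‖(c w : ℂ)‖ + ‖Complex.I * (a w : ℂ)‖) / 2 := by gcongr; exact norm_sub_le _ _
      _ = (|c w| + |a w|) / 2 := by
          rw [norm_mul, Complex.norm_I, one_mul, Complex.norm_real, Complex.norm_real,
            Real.norm_eq_abs, Real.norm_eq_abs]
      _ ≤ (2 * (κ * w.im) * avg κ σ w + 2 * vint (avg κ σ) w) / 2 := by gcongr
      _ = _ := by ring
  · intro w hw hGw
    rw [hνU w hw]
    have k1 : c w = 0 := by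
      by_contra hcw
      obtain ⟨u, hu, hu'⟩ := hcs w hw hcw
      exact absurd (hc0 w hw u hu hu') (not_le.2 hGw)
    have k2 : a w = 0 := by
      have : ∀ s ∈ Ioi w.im, D (w.re + s * Complex.I) = 0 := by
        intro s hs
        by_contra hDw
        have hsU : (w.re + s * Complex.I : ℂ) ∈ UH := mk_mem_Wolff (lt_trans hw hs)
        have h6 := (hDs _ hsU hDw).2 w.im hw (by rw [im_mk_Wolff]; exact le_of_lt hs)
        rw [re_mk_Wolff, mk_re_im_Wolff] at h6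
        exact absurd h6 (not_le.2 hGw)
      rw [ha]
      unfold vint
      rw [setIntegral_congr_fun measurableSet_Ioi this]
      simp
    rw [k1, k2]
    simp

lemma lw_im_Wolff (z : ℂ) : (lw z).im = -Real.log ‖z‖ := by
  unfold lw
  simp [Complex.mul_im, Complex.log_re]

lemma lw_mem_Wolff {z : ℂ} (hz : z ∈ disc) (h0 : z ≠ 0) : lw z ∈ UH := by
  show 0 < (lw z).im
  rw [lw_im_Wolff]
  have h1 : 0 < ‖z‖ := norm_pos_iff.2 h0
  have h2 : ‖z‖ < 1 := by simpa using hz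
  have := Real.log_neg h1 h2
  linarith

lemma lw_notMem_Wolff {z : ℂ} (hz : z ∉ disc) : lw z ∉ UH := by
  intro h
  have h3 : 0 < (lw z).im := h
  rw [lw_im_Wolff] at h3
  have h2 : 1 ≤ ‖z‖ := by
    by_contra hc
    apply hz
    rw [mem_ball_zero_iff]
    linarith
  have := Real.log_nonneg h2
  linarith

lemma exp_lw_Wolff {z : ℂ} (h0 : z ≠ 0) : Complex.exp (Complex.I * lw z) = z := by
  unfold lw
  have : Complex.I * (-Complex.I * Complex.log z) = Complex.log z := by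
    linear_combination (-Complex.log z) * Complex.I_mul_I
  rw [this, Complex.exp_log h0]

/-- the assembly -/
theorem wolff (h1 : S_hall) (h2 : S_L) (h3 : S_transport) (h4 : S_V) (h5 : S_wdac) (h6 : S_todisc)
    (h7 : S_majw) (h8 : S_harnack) (h9 : S_osc) (h10 : S_energy) (h11 : S_polar) : S_wolff := by
  intro δ hδ hδ1
  have hs0 : 0 < (δ / 4) ^ 2 := by positivity
  have hs1 : (δ / 4) ^ 2 < 1 := by nlinarith
  have hκ0 : 0 < δ / 8 := by positivity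
  have hκ1 : δ / 8 ≤ 1 / 2 := by linarith
  obtain ⟨εH, hεH0, hεH1, hH⟩ := h1 (3 * δ / 4) (δ / 8) (by linarith) (by linarith) hκ0 hκ1
  obtain ⟨CL, hCL, hL⟩ := h2 ((δ / 4) ^ 2) hs0 hs1
  set s₁ := (δ / 4) ^ 2 with hs₁
  set κ := δ / 8 with hκ
  set ε := min εH (δ / 4) with hε
  have hε0 : 0 < ε := lt_min hεH0 (by linarith)
  have hε1 : ε ≤ δ / 4 := min_le_right _ _
  have hε2 : ε ≤ εH := min_le_left _ _
  have hK : 0 < 4 / s₁ * Real.exp 1 * Real.pi := by positivity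
  obtain ⟨C, hC, hM⟩ := h7 κ s₁ (4 / s₁ * Real.exp 1 * Real.pi) hκ0 hκ1 hs0 hs1 hK
  refine ⟨ε, C, hε0, hε1, hC, fun f g hf hg hf1 hg1 hδfg => ?_⟩
  have hfd : DifferentiableOn ℂ (ext f) disc := ext_diff hf.1
  have hgd : DifferentiableOn ℂ (ext g) disc := ext_diff hg.1
  have hfb : ∀ z ∈ disc, ‖ext f z‖ ≤ 1 := fun z hz => ext_bound hf hf1 (by simpa using hz)
  have hgb : ∀ z ∈ disc, ‖ext g z‖ ≤ 1 := fun z hz => ext_bound hg hg1 (by simpa using hz)
  -- lower bound of G where σ is not zero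
  have hG : ∀ w ∈ UH, ss_Wolff s₁ (ext f) w ≠ 0 → 3 * δ / 4 ≤ ‖FF_Wolff (ext g) w‖ := by
    intro w hw hne
    rw [ss_of_Wolff s₁ _ hw] at hne
    have hmax : ‖FF_Wolff (ext f) w‖ ^ 2 < s₁ := by
      by_contra hcon
      push Not at hcon
      apply hne
      unfold sig
      rw [max_eq_right (by linarith)]
      simp
    have hF : ‖FF_Wolff (ext f) w‖ < δ / 4 := by
      rw [hs₁] at hmax
      exact lt_of_pow_lt_pow_left₀ 2 (by positivity) hmax
    have := hδfg _ (exp_mem_Wolff hw)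
    unfold FF_Wolff at hF ⊢
    linarith
  obtain ⟨V, ν, hWD, mν, pV, pν, hinf, hre, hν0, hνb, hνs⟩ := half_Wolff h3 h4 h5 (κ := κ) (s₁ := s₁)
    (ε := ε) (CL := CL) hκ0 hs0 hCL hfd hfb hgd
    (hL (FF_Wolff (ext f)) (diff_FF_Wolff hfd) (fun w hw => hfb _ (exp_mem_Wolff hw)))
    (fun w hw hne => eK_ge_Wolff hκ0 hε2 rfl (hH (FF_Wolff (ext g)) (diff_FF_Wolff hgd)
      (fun w hw => hgb _ (exp_mem_Wolff hw))) hw (hG w hw hne))
    (fun w hw u hu hne => by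
      have k1 := hG _ (mk_mem_Wolff hw) hne
      have k2 := horiz_Wolff hgd hgb (x := w.re) (x' := u) (y := w.im) (κ := κ) hw hu
      rw [mk_re_im_Wolff] at k2
      rw [hκ] at k2
      linarith)
  obtain ⟨hvc, hvw⟩ := h6 V ν ((Lam s₁ (‖ext f 0‖ ^ 2) : ℝ) : ℂ) hWD pV pν hinf
  obtain ⟨hN1, hN2⟩ := hM (ss_Wolff s₁ (ext f)) (uu_Wolff f) (ss_meas_Wolff s₁ hfd)
    (uu_meas_Wolff h9 hf) (fun w _ => ss_nonneg_Wolff s₁ _ w)
    (fun w hw => by
      rw [uu_of_Wolff f hw]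
      exact ⟨((h9 f hf).2.1 _ (exp_mem_Wolff hw)).1, osc_le_one_Wolff h9 hf hf1 (exp_mem_Wolff hw)⟩)
    (fun w _ => ss_per_Wolff s₁ _ w) (fun w _ => uu_per_Wolff f w)
    (fun w hw => ss_sinh_Wolff h9 hf hs0 hw)
    (fun η hη a ha => energy_Wolff h9 h10 h11 hf hs0 hη ha)
    (fun w hw x hx => harn1_Wolff h8 h9 hf hw hx)
    (fun w hw s hs => harn2_Wolff h8 h9 hf hw hs)
  refine ⟨fun z => if z = 0 then ((Lam s₁ (‖ext f 0‖ ^ 2) : ℝ) : ℂ) else V (lw z),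
    fun z => Complex.I / conj z * ν (lw z), NZ κ (ss_Wolff s₁ (ext f)), hvc, ?_, hvw, ?_, ?_, ?_,
    hN1, ?_⟩
  · have hlw : Measurable lw := by
      unfold lw
      exact measurable_const.mul Complex.measurable_log
    exact (measurable_const.div (Complex.continuous_conj.measurable)).mul (mν.comp hlw)
  · intro z hz
    show (if z = 0 then ((Lam s₁ (‖ext f 0‖ ^ 2) : ℝ) : ℂ) else V (lw z)).re = _
    by_cases h0 : z = 0
    · rw [if_pos h0, h0, Complex.ofReal_re]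
    · rw [if_neg h0, hre _ (lw_mem_Wolff hz h0)]
      unfold FF_Wolff
      rw [exp_lw_Wolff h0]
  · intro z hz hgz
    show Complex.I / conj z * ν (lw z) = 0
    by_cases h0 : z = 0
    · rw [h0]; simp
    · rw [hνs _ (lw_mem_Wolff hz h0), mul_zero]
      unfold FF_Wolff
      rw [exp_lw_Wolff h0]
      exact hgz
  · intro z hz
    show ‖Complex.I / conj z * ν (lw z)‖ ≤ _
    unfold NZ
    by_cases h0 : z = 0
    · rw [if_neg (fun h => h.2 h0), h0]; simp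
    · rw [if_pos ⟨hz, h0⟩, norm_mul, norm_div, Complex.norm_I, RCLike.norm_conj, div_eq_inv_mul,
        mul_one, div_eq_inv_mul]
      exact mul_le_mul_of_nonneg_left (hνb _ (lw_mem_Wolff hz h0)) (by positivity)
  · intro κ₁ hκ₁
    obtain ⟨η, hη, hMη⟩ := hN2 κ₁ hκ₁
    refine ⟨η, hη, ?_⟩
    have he : (fun z => if Osc f z < η then NZ κ (ss_Wolff s₁ (ext f)) z else 0) =
        fun z => if uu_Wolff f (lw z) < η then NZ κ (ss_Wolff s₁ (ext f)) z else 0 := by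
      funext z
      by_cases hz : z ∈ disc ∧ z ≠ 0
      · rw [uu_of_Wolff f (lw_mem_Wolff hz.1 hz.2), exp_lw_Wolff hz.2]
      · have : NZ κ (ss_Wolff s₁ (ext f)) z = 0 := by
          unfold NZ
          rw [if_neg hz]
        rw [this]
        simp
    rw [he]
    exact hMη

end Pool.Agent.H843
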