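import Pool.Agent.H843.MainF
import Pool.Agent.H843.Dcalc
import Pool.Agent.H843.Aak
import Pool.Agent.H843.Tele
import Pool.Agent.H843.DbarA
import Pool.Agent.H843.DbarB
import Pool.Agent.H843.Energy
import Pool.Agent.H843.OscF
import Pool.Agent.H843.PoissonF
import Pool.Agent.H843.Crit
import Pool.Agent.H843.HallA
import Pool.Agent.H843.HallB
import Pool.Agent.H843.HallC
import Pool.Agent.H843.LFun
import Pool.Agent.H843.Transport
import Pool.Agent.H843.VFun
import Pool.Agent.H843.WdAc
import Pool.Agent.H843.WdComp
import Pool.Agent.H843.ToDisc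
import Pool.Agent.H843.PolarF
import Pool.Agent.H843.LemM
import Pool.Agent.H843.Harn
import Pool.Agent.H843.HorizF
import Pool.Agent.H843.MajW
import Pool.Agent.H843.Wolff
import Pool.Agent.H843.ExtUH
import Pool.Agent.H843.ExtD
import Pool.Agent.H843.DivIdem
import Pool.Agent.H843.Nzf
import Pool.Agent.H843.Transfer

/-!
The theorem on the circle: `QDA` has Bass stable rank one for every Douglas algebra `D`.
-/

set_option autoImplicit false

namespace Pool.Agent.H843

theorem dbarF : S_dbar := dbar (dbarA tele) (dbarB (dbarA tele))

theorem critF : S_crit := crit qcomp dbarF osc poisson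

theorem wolffF : S_wolff :=
  wolff (hall (H1 H0)) Lfun transport Vfun wdac (todisc wdcomp)
    (majw polar lemM (horiz harnack)) harnack osc energy polar

theorem mainF : S_main :=
  mainT qcomp dexp (aak dexp) dbarF critF wolffF (extD extUH) divide (idem qcomp) (nz poisson)

end Pool.Agent.H843
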