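import Pool.Agent.H843.Stmts

/-!
Uniqueness theorem for boundary values.
-/

set_option autoImplicit false

namespace Pool.Agent.H843

open MeasureTheory Filter Topology Metric Set
open scoped ComplexConjugate ENNReal
open Pool.Agent.Helper34.Dg

/-- a nonzero function in `H^∞` is different from `0` almost everywhere on the circle -/
def S_nz : Prop := ∀ g : T → ℂ, g ∈ HInf → (∃ z ∈ disc, ext g z ≠ 0) → ∀ᵐ t ∂mu, g t ≠ 0

end Pool.Agent.H843
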