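import Pool.Agent.H843.Stmts2
import Pool.Agent.H843.Stmts4
import Pool.Agent.H843.DbarFin

/-!
Preliminaries for the assembly of `S_main`.
-/

set_option autoImplicit false

namespace Pool.Agent.H843

open MeasureTheory Filter Topology Metric Set
open scoped ComplexConjugate ENNReal
open Pool.Agent.Helper34.Dg
open Pool.Agent.H720R2.HP (WD db)

section QM

variable {D : Submodule ℂ (T →ₘ[mu] ℂ)}

theorem QMem.congr {f g : T → ℂ} (h : QMem D f) (hfg : f =ᵐ[mu] g) : QMem D g :=
  ⟨h.1.congr hfg, h.2.congr (by filter_upwards [hfg] with t ht; rw [ht])⟩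

theorem QMem.add {f g : T → ℂ} (h : QMem D f) (h' : QMem D g) : QMem D (fun t => f t + g t) := by
  refine ⟨h.1.add h'.1, (h.2.add h'.2).congr (Eventually.of_forall fun t => ?_)⟩
  simp

theorem QMem.smul {f : T → ℂ} (h : QMem D f) (c : ℂ) : QMem D (fun t => c * f t) := by
  refine ⟨h.1.smul c, (h.2.smul (conj c)).congr (Eventually.of_forall fun t => ?_)⟩
  simp

theorem QMem.sub {f g : T → ℂ} (h : QMem D f) (h' : QMem D g) : QMem D (fun t => f t - g t) := by
  refine ⟨h.1.sub h'.1, (h.2.sub h'.2).congr (Eventually.of_forall fun t => ?_)⟩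
  simp

theorem QMem.conj {f : T → ℂ} (h : QMem D f) : QMem D (fun t => conj (f t)) := by
  refine ⟨h.2, h.1.congr (Eventually.of_forall fun t => ?_)⟩
  simp

variable (hD : IsDouglas D)
include hD

theorem QMem.mul {f g : T → ℂ} (h : QMem D f) (h' : QMem D g) : QMem D (fun t => f t * g t) := by
  refine ⟨Mem.mul hD h.1 h'.1, (Mem.mul hD h.2 h'.2).congr (Eventually.of_forall fun t => ?_)⟩
  simp

theorem QMem.const (c : ℂ) : QMem D (fun _ => c) :=
  ⟨Mem.hinf hD (const_HInf c), Mem.hinf hD (const_HInf _)⟩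

theorem QMem.of_hinf {f : T → ℂ} (hf : f ∈ HInf) (h : Mem D (fun t => conj (f t))) : QMem D f :=
  ⟨Mem.hinf hD hf, h⟩

omit hD in
theorem QMem.of_real {f : T → ℝ} (h : Mem D (fun t => (f t : ℂ))) : QMem D (fun t => (f t : ℂ)) :=
  ⟨h, h.congr (Eventually.of_forall fun t => by simp)⟩

end QM

/-! ### the cut-off -/

/-- continuous cut-off: `1` for `x ≤ a/2`, `0` for `x ≥ a` -/
noncomputable def cut (a x : ℝ) : ℝ := max 0 (min 1 (2 - 2 * x / a))

theorem cut_cont (a : ℝ) : Continuous (cut a) := by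
  unfold cut
  fun_prop

theorem cut_one {a x : ℝ} (ha : 0 < a) (h : x ≤ a / 2) : cut a x = 1 := by
  unfold cut
  have h1 : 2 * x / a ≤ 1 := by
    rw [div_le_one ha]; linarith
  rw [min_eq_left (by linarith), max_eq_right zero_le_one]

theorem cut_zero {a x : ℝ} (ha : 0 < a) (h : a ≤ x) : cut a x = 0 := by
  unfold cut
  have h1 : 2 ≤ 2 * x / a := by
    rw [le_div_iff₀ ha]; linarith
  rw [max_eq_left]
  exact (min_le_right _ _).trans (by linarith)

theorem cut_nonneg (a x : ℝ) : 0 ≤ cut a x := le_max_left _ _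

theorem cut_le_one (a x : ℝ) : cut a x ≤ 1 := max_le zero_le_one (min_le_left _ _)

/-- the function `(1 - cut(|x|))/x` is continuous -/
theorem cutdiv_cont {a : ℝ} (ha : 0 < a) :
    Continuous (fun x : ℂ => ((1 - cut a ‖x‖ : ℝ) : ℂ) / x) := by
  rw [continuous_iff_continuousAt]
  intro x
  by_cases hx : x = 0
  · subst hx
    have h1 : (fun x : ℂ => ((1 - cut a ‖x‖ : ℝ) : ℂ) / x) =ᶠ[𝓝 0] fun _ => 0 := by
      filter_upwards [Metric.ball_mem_nhds (0 : ℂ) (half_pos ha)] with y hy
      rw [mem_ball_zero_iff] at hy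
      rw [cut_one ha hy.le]
      simp
    exact continuousAt_const.congr h1.symm
  · refine ContinuousAt.div ?_ continuousAt_id hx
    have := cut_cont a
    exact (Complex.continuous_ofReal.comp (continuous_const.sub
      (this.comp continuous_norm))).continuousAt

/-! ### the argument -/

/-- indicator of the left half plane -/
noncomputable def iot (θ : ℂ) : ℝ := if θ.re < 0 then 1 else 0

/-- an argument of a unimodular number, in `[-π/2, 3π/2]` -/
noncomputable def ag (θ : ℂ) : ℝ := Real.pi * iot θ + Real.arcsin (((1 - 2 * iot θ : ℝ) * θ).im)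

theorem iot_meas : Measurable iot := by
  unfold iot
  exact Measurable.ite (measurableSet_lt Complex.measurable_re measurable_const)
    measurable_const measurable_const

theorem iot_cases (θ : ℂ) : iot θ = 0 ∨ iot θ = 1 := by
  unfold iot
  split_ifs
  · exact Or.inr rfl
  · exact Or.inl rfl

theorem exp_arcsin {θ : ℂ} (h1 : ‖θ‖ = 1) (h2 : 0 ≤ θ.re) :
    Complex.exp (Complex.I * (Real.arcsin θ.im : ℝ)) = θ := by
  have h3 : θ.re ^ 2 + θ.im ^ 2 = 1 := by
    have := Complex.sq_norm θ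
    rw [h1, Complex.normSq_apply] at this
    nlinarith
  have h4 : -1 ≤ θ.im := by nlinarith
  have h5 : θ.im ≤ 1 := by nlinarith
  rw [mul_comm, Complex.exp_mul_I, ← Complex.ofReal_cos, ← Complex.ofReal_sin,
    Real.sin_arcsin h4 h5, Real.cos_arcsin]
  have h6 : Real.sqrt (1 - θ.im ^ 2) = θ.re := by
    rw [show 1 - θ.im ^ 2 = θ.re ^ 2 by linarith]
    exact Real.sqrt_sq h2
  rw [h6]
  exact Complex.re_add_im θ

theorem exp_ag {θ : ℂ} (h1 : ‖θ‖ = 1) : Complex.exp (Complex.I * (ag θ : ℝ)) = θ := by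
  unfold ag iot
  by_cases h : θ.re < 0
  · rw [if_pos h]
    have h2 : ((1 - 2 * 1 : ℝ) : ℂ) * θ = -θ := by push_cast; ring
    rw [h2]
    have h3 := exp_arcsin (θ := -θ) (by rw [norm_neg]; exact h1) (by simp; linarith)
    push_cast
    rw [mul_one, mul_add, Complex.exp_add, h3, mul_comm Complex.I, Complex.exp_pi_mul_I]
    ring
  · rw [if_neg h]
    have h2 : ((1 - 2 * 0 : ℝ) : ℂ) * θ = θ := by push_cast; ring
    rw [h2]
    have h3 := exp_arcsin h1 (not_lt.1 h)
    push_cast
    rw [mul_zero, zero_add]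
    exact h3

theorem ag_bound (θ : ℂ) : |ag θ| ≤ 5 := by
  unfold ag
  have h1 := Real.arcsin_le_pi_div_two (((1 - 2 * iot θ : ℝ) * θ).im)
  have h2 := Real.neg_pi_div_two_le_arcsin (((1 - 2 * iot θ : ℝ) * θ).im)
  have h3 := Real.pi_lt_d2
  have h4 := Real.pi_pos
  have h5 : 0 ≤ iot θ ∧ iot θ ≤ 1 := by
    rcases iot_cases θ with h | h <;> rw [h] <;> norm_num
  have h6 : 0 ≤ Real.pi * iot θ := mul_nonneg h4.le h5.1
  have h7 : Real.pi * iot θ ≤ Real.pi * 1 := mul_le_mul_of_nonneg_left h5.2 h4.le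
  rw [abs_le]
  constructor <;> linarith

end Pool.Agent.H843
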