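import Pool.Agent.H843.MainA

/-!
The analytic part of the assembly of `S_main`.
-/

set_option autoImplicit false

namespace Pool.Agent.H843

open MeasureTheory Filter Topology Metric Set
open scoped ComplexConjugate ENNReal
open Pool.Agent.Helper34.Dg
open Pool.Agent.H720R2.HP (WD db)

theorem wd_mono {Ω U : Set ℂ} {V ν : ℂ → ℂ} (h : WD Ω V ν) (hU : U ⊆ Ω) : WD U V ν where
  cont := h.cont.mono hU
  li := h.li.mono_set hU
  weak := fun φ h1 h2 h3 => h.weak φ h1 h2 (h3.trans hU)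

theorem ext_cont {g : T → ℂ} (hg : g ∈ HInf) : ContinuousOn (ext g) disc :=
  (ext_diff hg.1).continuousOn

theorem ind_ext_meas {g : T → ℂ} (hg : g ∈ HInf) : Measurable (disc.indicator (ext g)) := by
  classical
  have h := ContinuousOn.measurable_piecewise (ext_cont hg) (continuousOn_const (c := (0 : ℂ)))
    isOpen_disc.measurableSet
  rw [← Set.piecewise_eq_indicator]
  exact h

/-- the solution `R` of the `∂̄` equation and the holomorphic function `v - g R` -/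
theorem step2 (hd : S_dbar) (hcr : S_crit) {D : Submodule ℂ (T →ₘ[mu] ℂ)} (hD : IsDouglas D)
    {f g : T → ℂ} (hf : f ∈ HInf) (hg : g ∈ HInf) (hfD : Mem D (fun t => conj (f t)))
    (hf1 : ∀ᵐ t ∂mu, ‖f t‖ ≤ 1) {v μ : ℂ → ℂ} {N : ℂ → ℝ} {ε C : ℝ} (hε : 0 < ε) (hC : 0 < C)
    (hvc : ContinuousOn v disc) (hμ : Measurable μ)
    (hWD : ∀ z₀ ∈ disc, z₀ ≠ 0 → ∃ r : ℝ, 0 < r ∧ ball z₀ r ⊆ disc ∧ WD (ball z₀ r) v μ)
    (h0 : ∀ z ∈ disc, ‖ext g z‖ < ε → μ z = 0) (hμN : ∀ z ∈ disc, ‖μ z‖ ≤ N z) (hN : Maj N C)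
    (hvan : ∀ κ : ℝ, 0 < κ → ∃ η : ℝ, 0 < η ∧ Maj (fun z => if Osc f z < η then N z else 0) κ) :
    ∃ (R : ℂ → ℂ) (Rs : T → ℂ) (M : ℝ), ContinuousOn R disc ∧ (∀ z ∈ disc, ‖R z‖ ≤ M) ∧
      L1b R Rs ∧ Mem D Rs ∧ DifferentiableOn ℂ (fun z => v z - ext g z * R z) disc := by
  obtain ⟨C₀, hC₀, hd⟩ := hd
  set ν : ℂ → ℂ := fun z => disc.indicator μ z / disc.indicator (ext g) z with hνdef
  have hνm : Measurable ν := (hμ.indicator isOpen_disc.measurableSet).div (ind_ext_meas hg)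
  have hνd : ∀ z ∈ disc, ν z = μ z / ext g z := by
    intro z hz
    rw [hνdef]
    simp only [indicator_of_mem hz]
  have hεi : 0 ≤ ε⁻¹ := by positivity
  have hM : Maj (fun z => ε⁻¹ * N z) (ε⁻¹ * C) := hN.scale hεi
  have hb : ∀ z ∈ disc, ‖ν z‖ ≤ ε⁻¹ * N z := by
    intro z hz
    rw [hνd z hz]
    by_cases h : ‖ext g z‖ < ε
    · rw [h0 z hz h, zero_div, norm_zero]
      exact mul_nonneg hεi (hN.nn z)
    · push Not at h
      rw [norm_div, div_eq_inv_mul]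
      have h1 := hμN z hz
      gcongr
  obtain ⟨R, Rs, hR1, hR2, hR3⟩ := hd (ε⁻¹ * C) (by positivity) _ _ hM hνm hb
  refine ⟨R, Rs, C₀ * (ε⁻¹ * C), hR1.cont, hR2, hR3, ?_, ?_⟩
  · refine hcr D hD f hf hfD hf1 R ν Rs (fun z => ε⁻¹ * N z) (ε⁻¹ * C) hR1 ⟨_, hR2⟩ hR3 hνm hb hM ?_
    intro κ hκ
    obtain ⟨η, hη, hη2⟩ := hvan (ε * κ) (by positivity)
    refine ⟨η, hη, ?_⟩
    have h1 := hη2.scale hεi
    rw [← mul_assoc, inv_mul_cancel₀ hε.ne', one_mul] at h1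
    convert h1 using 2 with z
    split_ifs <;> simp
  · have hcont : ContinuousOn (fun z => v z - ext g z * R z) disc :=
      hvc.sub ((ext_cont hg).mul hR1.cont)
    have hdiff : ∀ z₀ ∈ disc, z₀ ≠ 0 → DifferentiableAt ℂ (fun z => v z - ext g z * R z) z₀ := by
      intro z₀ hz₀ hne
      obtain ⟨r, hr, hsub, hW⟩ := hWD z₀ hz₀ hne
      have h1 := (wd_mono hR1 hsub).mul_holo isOpen_ball
        (c := fun z => -ext g z) ((ext_diff hg.1).neg.mono hsub)
      have h2 := WD.add isOpen_ball hW h1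
      have h3 := h2.congr isOpen_ball (V' := fun z => v z - ext g z * R z) (ν' := fun _ => 0)
        (fun z _ => by ring) (fun z hz => by
          rw [hνd z (hsub hz)]
          by_cases hg0 : ext g z = 0
          · rw [h0 z (hsub hz) (by rw [hg0, norm_zero]; exact hε), hg0]
            simp
          · field_simp
            ring)
      exact (h3.holo isOpen_ball (fun _ _ => rfl)).differentiableAt (ball_mem_nhds _ hr)
    have h0d : (0 : ℂ) ∈ disc := by simp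
    rw [← Complex.differentiableOn_compl_singleton_and_continuousAt_iff
      (isOpen_disc.mem_nhds h0d)]
    refine ⟨fun z hz => (hdiff z hz.1 hz.2).differentiableWithinAt, ?_⟩
    exact hcont.continuousAt (isOpen_disc.mem_nhds h0d)

theorem isOpen_Om {g : T → ℂ} (hg : g ∈ HInf) (ε : ℝ) : IsOpen {z | z ∈ disc ∧ ‖ext g z‖ < ε} := by
  exact (ext_cont hg).norm.isOpen_inter_preimage isOpen_disc (isOpen_Iio (a := ε))

/-- the locally constant unimodular function `θ = f e^{-v}` -/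
theorem step3 {f g : T → ℂ} (hf : f ∈ HInf) (hg : g ∈ HInf) {v μ : ℂ → ℂ} {ε δ : ℝ}
    (hε : 0 < ε) (hδ : 0 < δ) (hεδ : ε ≤ δ / 4) (hvc : ContinuousOn v disc)
    (hWD : ∀ z₀ ∈ disc, z₀ ≠ 0 → ∃ r : ℝ, 0 < r ∧ ball z₀ r ⊆ disc ∧ WD (ball z₀ r) v μ)
    (h0 : ∀ z ∈ disc, ‖ext g z‖ < ε → μ z = 0)
    (hre : ∀ z ∈ disc, (v z).re = Lam ((δ / 4) ^ 2) (‖ext f z‖ ^ 2))
    (hfg : ∀ z ∈ disc, δ ≤ ‖ext f z‖ + ‖ext g z‖) :
    ∃ θ : ℂ → ℂ, DifferentiableOn ℂ v {z | z ∈ disc ∧ ‖ext g z‖ < ε} ∧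
      ∀ z ∈ disc, ‖ext g z‖ < ε → ‖θ z‖ = 1 ∧ (∀ᶠ z' in 𝓝 z, θ z' = θ z) ∧
        ext f z = θ z * Complex.exp (v z) := by
  set Ω : Set ℂ := {z | z ∈ disc ∧ ‖ext g z‖ < ε} with hΩ
  have hΩo : IsOpen Ω := isOpen_Om hg ε
  have hvd : DifferentiableOn ℂ v Ω := by
    have hdiff : ∀ z₀ ∈ Ω, z₀ ≠ 0 → DifferentiableAt ℂ v z₀ := by
      intro z₀ hz₀ hne
      obtain ⟨r, hr, hsub, hW⟩ := hWD z₀ hz₀.1 hne
      have h1 := wd_mono hW (inter_subset_left (s := ball z₀ r) (t := Ω))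
      have h2 := h1.holo (isOpen_ball.inter hΩo) (fun z hz => h0 z hz.2.1 hz.2.2)
      exact h2.differentiableAt (inter_mem (ball_mem_nhds _ hr) (hΩo.mem_nhds hz₀))
    intro z₀ hz₀
    by_cases hne : z₀ = 0
    · subst hne
      have h1 := (Complex.differentiableOn_compl_singleton_and_continuousAt_iff
        (f := v) (hΩo.mem_nhds hz₀)).1
        ⟨fun z hz => (hdiff z hz.1 hz.2).differentiableWithinAt,
          hvc.continuousAt (isOpen_disc.mem_nhds hz₀.1)⟩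
      exact h1 0 hz₀
    · exact (hdiff z₀ hz₀ hne).differentiableWithinAt
  refine ⟨fun z => ext f z * Complex.exp (-v z), hvd, ?_⟩
  have hθd : DifferentiableOn ℂ (fun z => ext f z * Complex.exp (-v z)) Ω :=
    ((ext_diff hf.1).mono (fun z hz => hz.1)).mul hvd.neg.cexp
  have hlow : ∀ z ∈ Ω, δ / 4 ≤ ‖ext f z‖ := by
    intro z hz
    have h1 := hfg z hz.1
    have h2 := hz.2
    linarith
  have hθ1 : ∀ z ∈ Ω, ‖ext f z * Complex.exp (-v z)‖ = 1 := by
    intro z hz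
    have h1 := hlow z hz
    have h2 : 0 < ‖ext f z‖ := by linarith [hδ]
    rw [norm_mul, Complex.norm_exp, Complex.neg_re, hre z hz.1]
    unfold Lam
    rw [if_pos (pow_le_pow_left₀ (by positivity) h1 2), Real.log_pow]
    push_cast
    rw [mul_div_assoc, mul_comm (2 : ℝ), div_mul_cancel₀ _ (two_ne_zero), Real.exp_neg,
      Real.exp_log h2, mul_inv_cancel₀ h2.ne']
  intro z hz1 hz2
  have hz : z ∈ Ω := ⟨hz1, hz2⟩
  refine ⟨hθ1 z hz, ?_, ?_⟩
  · refine Complex.eventually_eq_of_isLocalMax_norm ?_ ?_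
    · filter_upwards [hΩo.mem_nhds hz] with w hw
      exact hθd.differentiableAt (hΩo.mem_nhds hw)
    · filter_upwards [hΩo.mem_nhds hz] with w hw
      simp only [Function.comp_apply]
      rw [hθ1 w hw, hθ1 z hz]
  · rw [mul_assoc, ← Complex.exp_add]
    simp

/-- a locally constant function is constant along the tail of a radius -/
theorem radial_const {θ : ℂ → ℂ} {Ω : Set ℂ} (h : ∀ z ∈ Ω, ∀ᶠ z' in 𝓝 z, θ z' = θ z) {t : T}
    {r₀ : ℝ} (h1 : ∀ r : ℝ, r₀ ≤ r → r < 1 → (r : ℂ) * pt t ∈ Ω) (r : ℝ) (hr : r₀ ≤ r)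
    (hr1 : r < 1) : θ ((r : ℂ) * pt t) = θ ((r₀ : ℂ) * pt t) := by
  have hd : ∀ x ∈ Icc r₀ r, ∀ᶠ y : ℝ in 𝓝 x, θ ((y : ℂ) * pt t) = θ ((x : ℂ) * pt t) := by
    intro x hx
    have h2 := h _ (h1 x hx.1 (lt_of_le_of_lt hx.2 hr1))
    have h3 : ContinuousAt (fun y : ℝ => (y : ℂ) * pt t) x := by fun_prop
    exact h3.eventually h2
  refine constant_of_has_deriv_right_zero (f := fun y : ℝ => θ ((y : ℂ) * pt t)) (a := r₀) (b := r)
    ?_ ?_ r ⟨hr, le_rfl⟩
  · intro x hx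
    refine ContinuousAt.continuousWithinAt ?_
    have h2 : (fun y : ℝ => θ ((y : ℂ) * pt t)) =ᶠ[𝓝 x] fun _ => θ ((x : ℂ) * pt t) := hd x hx
    exact continuousAt_const.congr h2.symm
  · intro x hx
    have h2 : (fun y : ℝ => θ ((y : ℂ) * pt t)) =ᶠ[𝓝 x] fun _ => θ ((x : ℂ) * pt t) :=
      hd x ⟨hx.1, hx.2.le⟩
    exact ((hasDerivAt_const x _).congr_of_eventuallyEq h2).hasDerivWithinAt

theorem Lam_cont {s₁ : ℝ} (hs : 0 < s₁) : Continuous (Lam s₁) := by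
  unfold Lam
  have h1 : ContinuousOn (fun s : ℝ => Real.log s / 2) {s | s₁ ≤ s} := by
    intro s hs'
    have : s ≠ 0 := (lt_of_lt_of_le hs hs').ne'
    exact ((Real.continuousAt_log this).div_const 2).continuousWithinAt
  rw [← continuousOn_univ]
  refine ContinuousOn.if' ?_ ?_ ?_ ?_
  · intro a ha
    have ha1 : a = s₁ := by
      have := ha.2
      rw [show {a : ℝ | s₁ ≤ a} = Ici s₁ from rfl, frontier_Ici] at this
      exact this
    subst ha1
    simp only [le_refl, if_true]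
    refine Tendsto.mono_left ?_ nhdsWithin_le_nhds
    exact ((Real.continuousAt_log hs.ne').div_const 2).tendsto
  · intro a ha
    have ha1 : a = s₁ := by
      have := ha.2
      rw [show {a : ℝ | s₁ ≤ a} = Ici s₁ from rfl, frontier_Ici] at this
      exact this
    subst ha1
    simp only [le_refl, if_true]
    refine Tendsto.mono_left ?_ nhdsWithin_le_nhds
    have h2 : ContinuousAt (fun s : ℝ => (Real.log a + (s - a) / a - (s - a) ^ 2 / (2 * a ^ 2)) / 2) a := by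
      fun_prop
    have h3 := h2.tendsto
    simpa using h3
  · refine h1.mono (fun x hx => hx.2)
  · fun_prop

end Pool.Agent.H843
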