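import Pool.Agent.H843.MainB

/-!
The assembly of `S_main`: boundary values and the elements of `QD`.
-/

set_option autoImplicit false

namespace Pool.Agent.H843

open MeasureTheory Filter Topology Metric Set
open scoped ComplexConjugate ENNReal
open Pool.Agent.Helper34.Dg
open Pool.Agent.H720R2.HP (WD db)

/-- exponential of a holomorphic function with real part bounded above -/
theorem bddHol_exp {h : ℂ → ℂ} (hh : DifferentiableOn ℂ h disc) {M : ℝ}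
    (hM : ∀ z ∈ disc, (h z).re ≤ M) : BddHol (fun z => Complex.exp (h z)) := by
  refine ⟨hh.cexp, Real.exp M, fun z hz => ?_⟩
  rw [Complex.norm_exp]
  exact Real.exp_le_exp.2 (hM z hz)

theorem bdry_seq {G : ℂ → ℂ} {g : T → ℂ} (h : HasBdry G g) {r : ℕ → ℝ}
    (hr : Tendsto r atTop (𝓝[<] 1)) :
    ∀ᵐ t ∂mu, Tendsto (fun n => G ((r n : ℂ) * pt t)) atTop (𝓝 (g t)) := by
  filter_upwards [h] with t ht
  exact ht.comp hr

theorem ext_seq {f : T → ℂ} (hf : f ∈ HInf) {r : ℕ → ℝ}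
    (hr : Tendsto r atTop (𝓝[<] 1)) :
    ∀ᵐ t ∂mu, Tendsto (fun n => ext f ((r n : ℂ) * pt t)) atTop (𝓝 (f t)) :=
  bdry_seq (hasBdry_ext hf (fun _ _ => rfl)) hr

/-- the element `w₁` -/
theorem core1 (hq : S_qcomp) (he : S_dexp) {D : Submodule ℂ (T →ₘ[mu] ℂ)} (hD : IsDouglas D)
    {f g : T → ℂ} (hf : f ∈ HInf) (hg : g ∈ HInf) (hfD : Mem D (fun t => conj (f t)))
    {H R : ℂ → ℂ} {Rs F1 F1i : T → ℂ} {s₁ : ℝ} {r : ℕ → ℝ} (hs : 0 < s₁)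
    (hre : ∀ z ∈ disc, (H z).re + (ext g z * R z).re = Lam s₁ (‖ext f z‖ ^ 2))
    (hRs : Mem D Rs) (hF1 : F1 ∈ HInf) (hF1b : HasBdry (fun z => Complex.exp (H z)) F1)
    (hF1i : F1i ∈ HInf) (hF1ib : HasBdry (fun z => Complex.exp (-H z)) F1i)
    (r0 : ∀ n, 0 < r n) (r1 : ∀ n, r n < 1) (rt : Tendsto r atTop (𝓝[<] 1))
    (rR : ∀ᵐ t ∂mu, Tendsto (fun n => R ((r n : ℂ) * pt t)) atTop (𝓝 (Rs t))) :
    (∀ᵐ t ∂mu, (F1 t * Complex.exp (g t * Rs t)) * (F1i t * Complex.exp (-(g t * Rs t))) = 1) ∧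
    QMem D (fun t => F1 t * Complex.exp (g t * Rs t)) ∧
    QMem D (fun t => F1i t * Complex.exp (-(g t * Rs t))) := by
  have h1 : ∀ᵐ t ∂mu, F1 t * F1i t = 1 := by
    filter_upwards [bdry_seq hF1b rt, bdry_seq hF1ib rt] with t h1 h2
    refine tendsto_nhds_unique (h1.mul h2) ?_
    refine tendsto_const_nhds.congr (fun n => ?_)
    rw [← Complex.exp_add]; simp
  have h2 : ∀ᵐ t ∂mu, (F1 t * Complex.exp (g t * Rs t)) *
      (F1i t * Complex.exp (-(g t * Rs t))) = 1 := by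
    filter_upwards [h1] with t ht
    have : Complex.exp (g t * Rs t) * Complex.exp (-(g t * Rs t)) = 1 := by
      rw [← Complex.exp_add]; simp
    linear_combination (F1 t * F1i t) * this + ht
  have h3 : ∀ᵐ t ∂mu, ‖F1 t * Complex.exp (g t * Rs t)‖ = Real.exp (Lam s₁ (‖f t‖ ^ 2)) := by
    filter_upwards [bdry_seq hF1b rt, ext_seq hf rt, ext_seq hg rt, rR] with t a1 a2 a3 a4
    have b1 : Tendsto (fun n => ‖Complex.exp (H ((r n : ℂ) * pt t)) *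
        Complex.exp (ext g ((r n : ℂ) * pt t) * R ((r n : ℂ) * pt t))‖) atTop
        (𝓝 ‖F1 t * Complex.exp (g t * Rs t)‖) := by
      refine (a1.mul ?_).norm
      exact (Complex.continuous_exp.tendsto _).comp (a3.mul a4)
    have b2 : Tendsto (fun n => Real.exp (Lam s₁ (‖ext f ((r n : ℂ) * pt t)‖ ^ 2))) atTop
        (𝓝 (Real.exp (Lam s₁ (‖f t‖ ^ 2)))) := by
      refine (Real.continuous_exp.tendsto _).comp ?_
      exact ((Lam_cont hs).tendsto _).comp (a2.norm.pow 2)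
    refine tendsto_nhds_unique b1 (b2.congr (fun n => ?_))
    have hz : (r n : ℂ) * pt t ∈ disc := rpt_mem (r0 n).le (r1 n) t
    rw [← Complex.exp_add, Complex.norm_exp, Complex.add_re, hre _ hz]
  have hgR : Mem D (fun t => g t * Rs t) := Mem.mul hD (Mem.hinf hD hg) hRs
  have m1 : Mem D (fun t => F1 t * Complex.exp (g t * Rs t)) :=
    Mem.mul hD (Mem.hinf hD hF1) (he D hD _ hgR).1
  have m2 : Mem D (fun t => F1i t * Complex.exp (-(g t * Rs t))) := by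
    refine Mem.mul hD (Mem.hinf hD hF1i) ?_
    have h4 := hgR.smul (-1)
    refine (he D hD _ h4).1.congr (Eventually.of_forall fun t => ?_)
    simp
  have hfQ : QMem D f := QMem.of_hinf hD hf hfD
  have hLc : Continuous (fun x : ℂ => Lam s₁ (‖x‖ ^ 2)) := (Lam_cont hs).comp (by fun_prop)
  have q1 : QMem D (fun t => ((Real.exp (2 * Lam s₁ (‖f t‖ ^ 2)) : ℝ) : ℂ)) :=
    hq D hD f hfQ (fun x => ((Real.exp (2 * Lam s₁ (‖x‖ ^ 2)) : ℝ) : ℂ)) (by fun_prop)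
  have q2 : QMem D (fun t => ((Real.exp (-2 * Lam s₁ (‖f t‖ ^ 2)) : ℝ) : ℂ)) :=
    hq D hD f hfQ (fun x => ((Real.exp (-2 * Lam s₁ (‖x‖ ^ 2)) : ℝ) : ℂ)) (by fun_prop)
  refine ⟨h2, ⟨m1, ?_⟩, ⟨m2, ?_⟩⟩
  · refine (Mem.mul hD q1.1 m2).congr ?_
    filter_upwards [h2, h3] with t a1 a2
    have a3 : conj (F1 t * Complex.exp (g t * Rs t)) * (F1 t * Complex.exp (g t * Rs t)) =
        ((Real.exp (2 * Lam s₁ (‖f t‖ ^ 2)) : ℝ) : ℂ) := by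
      rw [mul_comm, Complex.mul_conj, Complex.normSq_eq_norm_sq, a2, ← Real.exp_nat_mul]
      norm_num
    rw [← a3]
    linear_combination (conj (F1 t * Complex.exp (g t * Rs t))) * a1
  · refine (Mem.mul hD q2.1 m1).congr ?_
    filter_upwards [h2, h3] with t a1 a2
    have a4 : ‖F1i t * Complex.exp (-(g t * Rs t))‖ = Real.exp (-Lam s₁ (‖f t‖ ^ 2)) := by
      have := congrArg norm a1
      rw [norm_mul, a2, norm_one] at this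
      rw [Real.exp_neg]
      exact eq_inv_of_mul_eq_one_right this
    have a3 : conj (F1i t * Complex.exp (-(g t * Rs t))) *
        (F1i t * Complex.exp (-(g t * Rs t))) =
        ((Real.exp (-2 * Lam s₁ (‖f t‖ ^ 2)) : ℝ) : ℂ) := by
      rw [mul_comm, Complex.mul_conj, Complex.normSq_eq_norm_sq, a4, ← Real.exp_nat_mul]
      norm_num
    rw [← a3]
    linear_combination (conj (F1i t * Complex.exp (-(g t * Rs t)))) * a1

/-- the boundary values of `θ` -/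
theorem core2 {f g : T → ℂ} (hf : f ∈ HInf) (hg : g ∈ HInf)
    {H R θ : ℂ → ℂ} {Rs F1 F1i : T → ℂ} {ε₀ : ℝ} {r : ℕ → ℝ}
    (hth : ∀ z ∈ disc, ‖ext g z‖ < ε₀ → ‖θ z‖ = 1 ∧ (∀ᶠ z' in 𝓝 z, θ z' = θ z) ∧
        ext f z = θ z * Complex.exp (H z + ext g z * R z))
    (hF1b : HasBdry (fun z => Complex.exp (H z)) F1)
    (r0 : ∀ n, 0 < r n) (r1 : ∀ n, r n < 1) (rt : Tendsto r atTop (𝓝[<] 1))
    (rR : ∀ᵐ t ∂mu, Tendsto (fun n => R ((r n : ℂ) * pt t)) atTop (𝓝 (Rs t)))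
    (h1 : ∀ᵐ t ∂mu, (F1 t * Complex.exp (g t * Rs t)) *
      (F1i t * Complex.exp (-(g t * Rs t))) = 1) :
    ∀ᵐ t ∂mu, ‖g t‖ < ε₀ → ‖f t * (F1i t * Complex.exp (-(g t * Rs t)))‖ = 1 ∧
      ∀ᶠ x : ℝ in 𝓝[<] 1, (x : ℂ) * pt t ∈ disc ∧ ‖ext g ((x : ℂ) * pt t)‖ < ε₀ ∧
        θ ((x : ℂ) * pt t) = f t * (F1i t * Complex.exp (-(g t * Rs t))) := by
  filter_upwards [bdry_seq hF1b rt, ext_seq hf rt, ext_seq hg rt, rR, h1,
    hasBdry_ext hg (fun _ _ => rfl)] with t a1 a2 a3 a4 a5 a6 hgt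
  have b1 : ∀ᶠ x : ℝ in 𝓝[<] 1, ‖ext g ((x : ℂ) * pt t)‖ < ε₀ :=
    a6.norm.eventually (gt_mem_nhds hgt)
  obtain ⟨r₀, hr₀, hr₀'⟩ := (mem_nhdsLT_iff_exists_Ioo_subset (a := (1 : ℝ))).1 b1
  have hr₀1 : r₀ < 1 := hr₀
  set ρ : ℝ := (max r₀ 0 + 1) / 2 with hρ
  have hρ1 : ρ < 1 := by
    have : max r₀ 0 < 1 := max_lt hr₀1 zero_lt_one
    rw [hρ]; linarith
  have hρ0 : 0 < ρ := by
    have : 0 ≤ max r₀ 0 := le_max_right _ _
    rw [hρ]; linarith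
  have hρr : r₀ < ρ := by
    have h2 : r₀ ≤ max r₀ 0 := le_max_left _ _
    have : max r₀ 0 < 1 := max_lt hr₀1 zero_lt_one
    rw [hρ]; linarith
  have hΩ : ∀ x : ℝ, ρ ≤ x → x < 1 → (x : ℂ) * pt t ∈ {z | z ∈ disc ∧ ‖ext g z‖ < ε₀} := by
    intro x hx hx1
    exact ⟨rpt_mem (hρ0.le.trans hx) hx1 t, hr₀' ⟨lt_of_lt_of_le hρr hx, hx1⟩⟩
  have hcst := radial_const (θ := θ) (Ω := {z | z ∈ disc ∧ ‖ext g z‖ < ε₀})
    (fun z hz => (hth z hz.1 hz.2).2.1) (t := t) (r₀ := ρ) hΩ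
  set θ₀ : ℂ := θ ((ρ : ℂ) * pt t) with hθ₀
  have hn : ‖θ₀‖ = 1 := (hth _ (hΩ ρ le_rfl hρ1).1 (hΩ ρ le_rfl hρ1).2).1
  have hev : ∀ᶠ n in atTop, ρ ≤ r n := by
    have := rt.eventually (Ico_mem_nhdsLT hρ1)
    filter_upwards [this] with n hn
    exact hn.1
  have b2 : f t = θ₀ * (F1 t * Complex.exp (g t * Rs t)) := by
    have c1 : Tendsto (fun n => θ₀ * (Complex.exp (H ((r n : ℂ) * pt t)) *
        Complex.exp (ext g ((r n : ℂ) * pt t) * R ((r n : ℂ) * pt t)))) atTop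
        (𝓝 (θ₀ * (F1 t * Complex.exp (g t * Rs t)))) :=
      (a1.mul ((Complex.continuous_exp.tendsto _).comp (a3.mul a4))).const_mul _
    refine tendsto_nhds_unique (a2.congr' ?_) c1
    filter_upwards [hev] with n hn
    have h3 := hΩ (r n) hn (r1 n)
    rw [(hth _ h3.1 h3.2).2.2, hcst (r n) hn (r1 n), Complex.exp_add]
  have b3 : f t * (F1i t * Complex.exp (-(g t * Rs t))) = θ₀ := by
    rw [b2, mul_assoc, a5, mul_one]
  refine ⟨by rw [b3]; exact hn, ?_⟩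
  filter_upwards [Ico_mem_nhdsLT hρ1] with x hx
  have h3 := hΩ x hx.1 hx.2
  exact ⟨h3.1, h3.2, by rw [hcst x hx.1 hx.2, b3]⟩

/-- transfer of an estimate near `{g = 0}` to the boundary -/
theorem core3 {g : T → ℂ} (hg : g ∈ HInf) {k : ℂ → ℂ} {ks : T → ℂ} (hk : HasBdry k ks)
    {φ θ R : ℂ → ℂ} {Φ : ℂ → ℂ → ℂ} {Θ Rs : T → ℂ} {ε₀ ε₁ C : ℝ} {r : ℕ → ℝ} (h01 : ε₁ ≤ ε₀)
    (hφ : ∀ z ∈ disc, ‖ext g z‖ < ε₀ → φ z = Φ (θ z) (ext g z * R z))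
    (hΦ : ∀ x, Continuous (Φ x))
    (hkφ : ∀ z ∈ disc, ‖ext g z‖ < ε₁ → ‖k z - φ z‖ ≤ C * ‖ext g z‖ ^ 2)
    (rt : Tendsto r atTop (𝓝[<] 1))
    (rR : ∀ᵐ t ∂mu, Tendsto (fun n => R ((r n : ℂ) * pt t)) atTop (𝓝 (Rs t)))
    (hΘ : ∀ᵐ t ∂mu, ‖g t‖ < ε₀ → ∀ᶠ x : ℝ in 𝓝[<] 1, (x : ℂ) * pt t ∈ disc ∧
        ‖ext g ((x : ℂ) * pt t)‖ < ε₀ ∧ θ ((x : ℂ) * pt t) = Θ t) :
    ∀ᵐ t ∂mu, ‖g t‖ < ε₁ → ‖ks t - Φ (Θ t) (g t * Rs t)‖ ≤ C * ‖g t‖ ^ 2 := by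
  filter_upwards [bdry_seq hk rt, ext_seq hg rt, rR, hΘ] with t a1 a2 a3 a4 hgt
  have b1 : ∀ᶠ n in atTop, ‖ext g ((r n : ℂ) * pt t)‖ < ε₁ := a2.norm.eventually (gt_mem_nhds hgt)
  have b2 := rt.eventually (a4 (lt_of_lt_of_le hgt h01))
  have c1 : Tendsto (fun n => ‖k ((r n : ℂ) * pt t) -
      Φ (Θ t) (ext g ((r n : ℂ) * pt t) * R ((r n : ℂ) * pt t))‖) atTop
      (𝓝 ‖ks t - Φ (Θ t) (g t * Rs t)‖) :=
    (a1.sub (((hΦ _).tendsto _).comp (a2.mul a3))).norm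
  have c2 : Tendsto (fun n => C * ‖ext g ((r n : ℂ) * pt t)‖ ^ 2) atTop (𝓝 (C * ‖g t‖ ^ 2)) :=
    (a2.norm.pow 2).const_mul _
  refine le_of_tendsto_of_tendsto c1 c2 ?_
  filter_upwards [b1, b2] with n d1 d2
  have d3 := hkφ _ d2.1 d1
  rw [hφ _ d2.1 d2.2.1, d2.2.2] at d3
  exact d3

end Pool.Agent.H843
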