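import Pool.Agent.H843.MainC

/-!
The assembly of `S_main`: the real function `J`, the quotient `ρ` and the final element.
-/

set_option autoImplicit false

namespace Pool.Agent.H843

open MeasureTheory Filter Topology Metric Set
open scoped ComplexConjugate ENNReal
open Pool.Agent.Helper34.Dg
open Pool.Agent.H720R2.HP (WD db)

theorem cut_comp_cont (a : ℝ) : Continuous (fun x : ℂ => ((cut a ‖x‖ : ℝ) : ℂ)) :=
  Complex.continuous_ofReal.comp ((cut_cont a).comp continuous_norm)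

theorem core4a (hq : S_qcomp) {D : Submodule ℂ (T →ₘ[mu] ℂ)} (hD : IsDouglas D)
    {g Θ : T → ℂ} {Tt : T → ℝ} (hg : QMem D g) (hΘ : QMem D Θ) (hT : QMem D (fun t => (Tt t : ℂ)))
    (b : ℝ) :
    QMem D (fun t => (((Real.pi * Tt t + Real.arcsin (((1 : ℂ) - 2 * (Tt t : ℂ)) * Θ t).im) *
      cut b ‖g t‖ : ℝ) : ℂ)) := by
  have hA : QMem D (fun t => ((1 : ℂ) - 2 * (Tt t : ℂ)) * Θ t) :=
    QMem.mul hD ((QMem.const hD 1).sub (hT.smul 2)) hΘ
  have hcont : Continuous (fun x : ℂ => ((Real.arcsin x.im : ℝ) : ℂ)) :=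
    Complex.continuous_ofReal.comp (Real.continuous_arcsin.comp Complex.continuous_im)
  have hB := hq D hD (fun t => ((1 : ℂ) - 2 * (Tt t : ℂ)) * Θ t) hA
    (fun x => ((Real.arcsin x.im : ℝ) : ℂ)) hcont
  have hC : QMem D (fun t => ((cut b ‖g t‖ : ℝ) : ℂ)) :=
    hq D hD g hg (fun x : ℂ => ((cut b ‖x‖ : ℝ) : ℂ)) (cut_comp_cont b)
  have h5 := QMem.mul hD ((hT.smul (Real.pi : ℂ)).add hB) hC
  have h6 : (fun t => (((Real.pi * Tt t + Real.arcsin (((1 : ℂ) - 2 * (Tt t : ℂ)) * Θ t).im) *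
      cut b ‖g t‖ : ℝ) : ℂ)) = fun t => ((Real.pi : ℂ) * (Tt t : ℂ) +
      ((Real.arcsin (((1 : ℂ) - 2 * (Tt t : ℂ)) * Θ t).im : ℝ) : ℂ)) *
      ((cut b ‖g t‖ : ℝ) : ℂ) := by
    funext t
    rw [Complex.ofReal_mul, Complex.ofReal_add, Complex.ofReal_mul]
  rw [h6]
  exact h5

/-- the real function `J` -/
theorem core4 (hq : S_qcomp) (hid : S_idem) {D : Submodule ℂ (T →ₘ[mu] ℂ)} (hD : IsDouglas D)
    {g Θ k : T → ℂ} (hg : QMem D g) (hΘ : QMem D Θ) (hk : Mem D k) {ε : ℝ} (hε : 0 < ε)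
    (hkι : ∀ᵐ t ∂mu, ‖g t‖ < ε → ‖k t - (iot (Θ t) : ℂ)‖ ≤ 1 / 4) :
    ∃ J : T → ℝ, QMem D (fun t => (J t : ℂ)) ∧ ∀ t, ‖g t‖ ≤ ε / 4 → J t = ag (Θ t) := by
  have hΘm : AEStronglyMeasurable (fun t => iot (Θ t)) mu :=
    (iot_meas.comp_aemeasurable hΘ.1.aesm.aemeasurable).aestronglyMeasurable
  have hT := hid D hD g k hg hk (fun t => iot (Θ t)) hΘm
    (Eventually.of_forall fun t => iot_cases _) ε hε hkι (cut ε) (cut_cont ε)
    (fun x hx => cut_zero hε hx)
  obtain ⟨Tt, hTt⟩ : ∃ Tt : T → ℝ, ∀ t, Tt t = iot (Θ t) * cut ε ‖g t‖ := ⟨_, fun _ => rfl⟩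
  have hT' : QMem D (fun t => (Tt t : ℂ)) := by
    refine hT.congr (Eventually.of_forall fun t => ?_)
    simp only [hTt]
  refine ⟨fun t => (Real.pi * Tt t + Real.arcsin (((1 : ℂ) - 2 * (Tt t : ℂ)) * Θ t).im) *
      cut (ε / 2) ‖g t‖, core4a hq hD hg hΘ hT' (ε / 2), ?_⟩
  intro t ht
  have h1 : cut ε ‖g t‖ = 1 := cut_one hε (by linarith)
  have h2 : cut (ε / 2) ‖g t‖ = 1 := cut_one (by linarith) (by linarith)
  have h3 : Tt t = iot (Θ t) := by rw [hTt, h1, mul_one]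
  have h4 : ((1 - 2 * iot (Θ t) : ℝ) : ℂ) = (1 : ℂ) - 2 * (iot (Θ t) : ℂ) := by push_cast; ring
  unfold ag
  simp only [h2, h3, mul_one, h4]

/-- the quotient `ρ = E / g` -/
theorem core5 (hq : S_qcomp) {D : Submodule ℂ (T →ₘ[mu] ℂ)} (hD : IsDouglas D)
    {g E : T → ℂ} (hg : QMem D g) (hE : Mem D E) {a C : ℝ} (ha : 0 < a) (hC : 0 ≤ C)
    (h : ∀ᵐ t ∂mu, ‖g t‖ < a → ‖E t‖ ≤ C * ‖g t‖ ^ 2) :
    Mem D (fun t => E t / g t) := by
  refine Mem.closed hD ?_ ?_
  · exact (hE.aesm.aemeasurable.div hg.1.aesm.aemeasurable).aestronglyMeasurable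
  · intro e he
    set b : ℝ := min a (e / (C + 1)) with hb
    have hb0 : 0 < b := lt_min ha (by positivity)
    refine ⟨fun t => E t * (((1 - cut b ‖g t‖ : ℝ) : ℂ) / g t), ?_, ?_⟩
    · exact Mem.mul hD hE (hq D hD g hg (fun x : ℂ => ((1 - cut b ‖x‖ : ℝ) : ℂ) / x) (cutdiv_cont hb0)).1
    · filter_upwards [h] with t ht
      have h1 : E t / g t - E t * (((1 - cut b ‖g t‖ : ℝ) : ℂ) / g t) =
          (E t / g t) * (cut b ‖g t‖ : ℝ) := by
        push_cast
        ring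
      rw [h1, norm_mul, Complex.norm_real, Real.norm_of_nonneg (cut_nonneg _ _)]
      rcases le_or_gt b ‖g t‖ with h2 | h2
      · rw [cut_zero hb0 h2, mul_zero]
        exact he.le
      · have h3 := ht (lt_of_lt_of_le h2 (min_le_left _ _))
        have h4 : ‖E t / g t‖ ≤ C * ‖g t‖ := by
          rw [norm_div]
          rcases eq_or_lt_of_le (norm_nonneg (g t)) with h5 | h5
          · rw [← h5]; simp
          · rw [div_le_iff₀ h5]
            calc ‖E t‖ ≤ C * ‖g t‖ ^ 2 := h3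
              _ = C * ‖g t‖ * ‖g t‖ := by ring
        calc ‖E t / g t‖ * cut b ‖g t‖ ≤ (C * ‖g t‖) * 1 :=
              mul_le_mul h4 (cut_le_one _ _) (cut_nonneg _ _) (by positivity)
          _ ≤ (C + 1) * (e / (C + 1)) := by
              rw [mul_one]
              exact mul_le_mul (by linarith) (h2.le.trans (min_le_right _ _)) (norm_nonneg _)
                (by linarith)
          _ = e := by field_simp

/-- the entire function `(e^x - 1)/x` -/
noncomputable def ent : ℂ → ℂ := dslope Complex.exp 0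

theorem ent_cont : Continuous ent := by
  unfold ent
  rw [continuous_iff_continuousAt]
  intro x
  by_cases hx : x = 0
  · subst hx
    exact continuousAt_dslope_same.2 Complex.differentiableAt_exp
  · exact (continuousAt_dslope_of_ne hx).2 Complex.continuous_exp.continuousAt

theorem ent_mul (x : ℂ) : x * ent x = Complex.exp x - 1 := by
  have := sub_smul_dslope Complex.exp 0 x
  simpa [ent] using this

theorem exp_sub_one_le (x : ℂ) : ‖Complex.exp x - 1‖ ≤ ‖x‖ * Real.exp ‖x‖ := by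
  have h1 := Complex.norm_exp_sub_sum_le_norm_mul_exp x 1
  simpa using h1

/-- the element `c` is in `QD` -/
theorem core6 (hq : S_qcomp) {D : Submodule ℂ (T →ₘ[mu] ℂ)} (hD : IsDouglas D)
    {f g q o c : T → ℂ} (hf : QMem D f) (hg : QMem D g) (hqq : QMem D q) (ho : QMem D o)
    {a : ℝ} (ha : 0 < a) (hg0 : ∀ᵐ t ∂mu, g t ≠ 0) (hc : ∀ᵐ t ∂mu, o t - f t = c t * g t)
    (hn : ∀ᵐ t ∂mu, ‖g t‖ < a → o t = f t * Complex.exp (g t * q t)) : QMem D c := by
  have h1 : QMem D (fun t => ((cut a ‖g t‖ : ℝ) : ℂ)) := hq D hD g hg (fun x : ℂ => ((cut a ‖x‖ : ℝ) : ℂ)) (cut_comp_cont a)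
  have h2 : QMem D (fun t => ((1 - cut a ‖g t‖ : ℝ) : ℂ) / g t) := hq D hD g hg (fun x : ℂ => ((1 - cut a ‖x‖ : ℝ) : ℂ) / x) (cutdiv_cont ha)
  have h3 : QMem D (fun t => ent (g t * q t)) := hq D hD (fun t => g t * q t) (QMem.mul hD hg hqq) ent ent_cont
  have h4 : QMem D (fun t => ((cut a ‖g t‖ : ℝ) : ℂ) * (f t * (q t * ent (g t * q t))) +
      ((1 - cut a ‖g t‖ : ℝ) : ℂ) / g t * (o t - f t)) :=
    (QMem.mul hD h1 (QMem.mul hD hf (QMem.mul hD hqq h3))).add (QMem.mul hD h2 (ho.sub hf))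
  refine h4.congr ?_
  filter_upwards [hg0, hc, hn] with t t0 t1 t2
  rcases le_or_gt a ‖g t‖ with h5 | h5
  · rw [cut_zero ha h5, t1]
    push_cast
    field_simp
    ring
  · have h6 := t2 h5
    have h7 := ent_mul (g t * q t)
    have h8 : c t = f t * (q t * ent (g t * q t)) := by
      have : c t * g t = (f t * (q t * ent (g t * q t))) * g t := by
        rw [← t1, h6]
        linear_combination (-f t) * h7
      exact mul_right_cancel₀ t0 this
    rw [t1, h8]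
    push_cast
    field_simp
    ring

end Pool.Agent.H843
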