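import Pool.Agent.H843.MainD

/-!
The assembly of `S_main`.
-/

set_option autoImplicit false

namespace Pool.Agent.H843

open MeasureTheory Filter Topology Metric Set
open scoped ComplexConjugate ENNReal
open Pool.Agent.Helper34.Dg
open Pool.Agent.H720R2.HP (WD db)

theorem re_abs_le (z : ℂ) : |z.re| ≤ ‖z‖ := Complex.abs_re_le_norm z

/-- the heart of the assembly, normalised functions -/
theorem core (hq : S_qcomp) (he : S_dexp) (hC : S_aak) (hd : S_dbar) (hcr : S_crit)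
    (hw : S_wolff) (hx : S_ext) (hdiv : S_divide) (hid : S_idem) (hnz : S_nz)
    {D : Submodule ℂ (T →ₘ[mu] ℂ)} (hD : IsDouglas D)
    {f g : T → ℂ} (hf : f ∈ HInf) (hg : g ∈ HInf) (hfD : Mem D (fun t => conj (f t)))
    (hgD : Mem D (fun t => conj (g t))) (hf1 : ∀ᵐ t ∂mu, ‖f t‖ ≤ 1) (hg1 : ∀ᵐ t ∂mu, ‖g t‖ ≤ 1)
    {δ : ℝ} (hδ : 0 < δ) (hδ1 : δ ≤ 1) (hfg : ∀ z ∈ disc, δ ≤ ‖ext f z‖ + ‖ext g z‖)
    (hg0 : ∃ z ∈ disc, ext g z ≠ 0) :
    ∃ c w : T → ℂ, c ∈ HInf ∧ Mem D (fun t => conj (c t)) ∧ w ∈ HInf ∧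
      Mem D (fun t => conj (w t)) ∧ ∀ᵐ t ∂mu, (f t + c t * g t) * w t = 1 := by
  have hfQ : QMem D f := QMem.of_hinf hD hf hfD
  have hgQ : QMem D g := QMem.of_hinf hD hg hgD
  have hf1z : ∀ z ∈ disc, ‖ext f z‖ ≤ 1 := fun z hz => ext_bound hf hf1 (by simpa using hz)
  have hg1z : ∀ z ∈ disc, ‖ext g z‖ ≤ 1 := fun z hz => ext_bound hg hg1 (by simpa using hz)
  -- Step V and the solution of the `∂̄` equation
  obtain ⟨ε₀, C, hε₀, hεδ, hC0, hw⟩ := hw δ hδ hδ1
  obtain ⟨v, μ, N, hvc, hμ, hWD, hvre, hμ0, hμN, hN, hvan⟩ := hw f g hf hg hf1 hg1 hfg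
  obtain ⟨R, Rs, MR, hRc, hRb, hRL, hRsD, hHd⟩ := step2 hd hcr hD hf hg hfD hf1 hε₀ hC0 hvc hμ
    hWD hμ0 hμN hN hvan
  set H : ℂ → ℂ := fun z => v z - ext g z * R z with hH
  obtain ⟨θ, hvd, hθ⟩ := step3 hf hg hε₀ hδ hεδ hvc hWD hμ0 hvre hfg
  have hs : (0 : ℝ) < (δ / 4) ^ 2 := by positivity
  have hMR : 0 ≤ MR := (norm_nonneg _).trans (hRb 0 (by simp))
  have hgR : ∀ z ∈ disc, ‖ext g z * R z‖ ≤ MR := by
    intro z hz
    rw [norm_mul]
    calc ‖ext g z‖ * ‖R z‖ ≤ 1 * MR := mul_le_mul (hg1z z hz) (hRb z hz) (norm_nonneg _) zero_le_one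
      _ = MR := one_mul _
  have hre : ∀ z ∈ disc, (H z).re + (ext g z * R z).re = Lam ((δ / 4) ^ 2) (‖ext f z‖ ^ 2) := by
    intro z hz
    rw [← hvre z hz, hH]
    simp only [Complex.sub_re]
    ring
  -- bounds for the real part of `H`
  obtain ⟨ML, hML⟩ : ∃ ML : ℝ, ∀ x ∈ Icc (0 : ℝ) 1, |Lam ((δ / 4) ^ 2) x| ≤ ML := by
    obtain ⟨ML, hML⟩ := (isCompact_Icc (a := (0 : ℝ)) (b := 1)).exists_bound_of_continuousOn
      (Lam_cont hs).continuousOn
    exact ⟨ML, fun x hx => by simpa using hML x hx⟩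
  have hHb : ∀ z ∈ disc, |(H z).re| ≤ ML + MR := by
    intro z hz
    have h1 := hre z hz
    have h2 := hML (‖ext f z‖ ^ 2) ⟨by positivity, pow_le_one₀ (norm_nonneg _) (hf1z z hz)⟩
    have h3 := (re_abs_le (ext g z * R z)).trans (hgR z hz)
    rw [abs_le] at h2 h3 ⊢
    constructor <;> linarith [h2.1, h2.2, h3.1, h3.2]
  have hHup : ∀ z ∈ disc, (H z).re ≤ ML + MR := fun z hz => (abs_le.1 (hHb z hz)).2
  have hHlo : ∀ z ∈ disc, (-H z).re ≤ ML + MR := fun z hz => by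
    rw [Complex.neg_re]; linarith [(abs_le.1 (hHb z hz)).1]
  obtain ⟨F1, hF1, hF1e, hF1b⟩ := bh_rep (bddHol_exp hHd hHup)
  obtain ⟨F1i, hF1i, hF1ie, hF1ib⟩ := bh_rep (bddHol_exp hHd.neg hHlo)
  obtain ⟨r, r0, r1, rt, rR⟩ := hRL.exists_seq hRc
  obtain ⟨hw1, hwQ, hwiQ⟩ := core1 hq he hD hf hg hfD hs hre hRsD hF1 hF1b hF1i hF1ib r0 r1 rt rR
  -- `θ` and its boundary values
  have hth : ∀ z ∈ disc, ‖ext g z‖ < ε₀ → ‖θ z‖ = 1 ∧ (∀ᶠ z' in 𝓝 z, θ z' = θ z) ∧
      ext f z = θ z * Complex.exp (H z + ext g z * R z) := by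
    intro z hz1 hz2
    obtain ⟨h1, h2, h3⟩ := hθ z hz1 hz2
    refine ⟨h1, h2, ?_⟩
    rw [h3, hH]
    simp only [sub_add_cancel]
  have hΘ0 := core2 hf hg hth hF1b r0 r1 rt rR hw1
  set Θ : T → ℂ := fun t => f t * (F1i t * Complex.exp (-(g t * Rs t))) with hΘdef
  have hΘQ : QMem D Θ := QMem.mul hD hfQ hwiQ
  have hΘ1 : ∀ᵐ t ∂mu, ‖g t‖ < ε₀ → ∀ᶠ x : ℝ in 𝓝[<] 1, (x : ℂ) * pt t ∈ disc ∧
      ‖ext g ((x : ℂ) * pt t)‖ < ε₀ ∧ θ ((x : ℂ) * pt t) = Θ t := by
    filter_upwards [hΘ0] with t ht h2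
    exact (ht h2).2
  -- extensions
  obtain ⟨ε₁, Cx, hε₁, hε₁0, hCx, hx⟩ := hx ε₀ hε₀ (by linarith)
  have hΩo : IsOpen {z | z ∈ disc ∧ ‖ext g z‖ < ε₀} := isOpen_Om hg ε₀
  have hlc : ∀ φ : ℂ → ℂ, DifferentiableOn ℂ (fun z => φ (θ z)) {z | z ∈ disc ∧ ‖ext g z‖ < ε₀} := by
    intro φ z hz
    have h1 : (fun z => φ (θ z)) =ᶠ[𝓝 z] fun _ => φ (θ z) := by
      filter_upwards [(hth z hz.1 hz.2).2.1] with w hw
      rw [hw]
    exact ((differentiableAt_const _).congr_of_eventuallyEq h1).differentiableWithinAt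
  obtain ⟨kι, hkιd, hkιb, hkιa⟩ := hx (ext g) (fun z => (iot (θ z) : ℂ)) (ext_diff hg.1) hg1z
    (hlc (fun x => (iot x : ℂ))) (fun z _ _ => by
      rcases iot_cases (θ z) with h | h <;> rw [h] <;> simp)
  have hMc : (0 : ℝ) < 5 + MR := by linarith
  have hMcc : ((5 + MR : ℝ) : ℂ) ≠ 0 := by exact_mod_cast hMc.ne'
  obtain ⟨kc', hkcd, hkcb, hkca⟩ := hx (ext g)
    (fun z => ((5 + MR : ℝ) : ℂ)⁻¹ * (Complex.I * (ag (θ z) : ℂ) + ext g z * R z))
    (ext_diff hg.1) hg1z (by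
      refine DifferentiableOn.const_mul (DifferentiableOn.add (hlc (fun x => Complex.I * (ag x : ℂ))) ?_) _
      refine DifferentiableOn.congr (f := fun z => v z - H z) ?_ ?_
      · exact hvd.sub (hHd.mono (fun z hz => hz.1))
      · intro z _
        rw [hH]; simp)
    (fun z hz1 hz2 => by
      rw [norm_mul, norm_inv, Complex.norm_real, Real.norm_of_nonneg hMc.le,
        inv_mul_le_iff₀ hMc, mul_one]
      refine (norm_add_le _ _).trans (add_le_add ?_ (hgR z hz1))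
      rw [norm_mul, Complex.norm_I, one_mul, Complex.norm_real, Real.norm_eq_abs]
      exact ag_bound _)
  set kc : ℂ → ℂ := fun z => ((5 + MR : ℝ) : ℂ) * kc' z with hkc
  have hkcd2 : DifferentiableOn ℂ kc disc := hkcd.const_mul _
  have hkcb2 : ∀ z ∈ disc, ‖kc z‖ ≤ (5 + MR) * Cx := by
    intro z hz
    rw [hkc]
    simp only
    rw [norm_mul, Complex.norm_real, Real.norm_of_nonneg hMc.le]
    exact mul_le_mul_of_nonneg_left (hkcb z hz) hMc.le
  have hkca2 : ∀ z ∈ disc, ‖ext g z‖ < ε₁ →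
      ‖kc z - (Complex.I * (ag (θ z) : ℂ) + ext g z * R z)‖ ≤ ((5 + MR) * Cx) * ‖ext g z‖ ^ 2 := by
    intro z hz h1
    have h2 := hkca z hz h1
    have h3 : kc z - (Complex.I * (ag (θ z) : ℂ) + ext g z * R z) = ((5 + MR : ℝ) : ℂ) *
        (kc' z - ((5 + MR : ℝ) : ℂ)⁻¹ * (Complex.I * (ag (θ z) : ℂ) + ext g z * R z)) := by
      rw [mul_sub, ← mul_assoc, mul_inv_cancel₀ hMcc, one_mul]
    rw [h3, norm_mul, Complex.norm_real, Real.norm_of_nonneg hMc.le, mul_assoc]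
    exact mul_le_mul_of_nonneg_left h2 hMc.le
  obtain ⟨kιs, hkιs, hkιe, hkιsb⟩ := bh_rep (G := kι) ⟨hkιd, Cx, hkιb⟩
  obtain ⟨kcs, hkcs, hkce, hkcsb⟩ := bh_rep (G := kc) ⟨hkcd2, _, hkcb2⟩
  have hbι := core3 (Φ := fun x _ => (iot x : ℂ)) hg hkιsb hε₁0.le
    (φ := fun z => (iot (θ z) : ℂ)) (fun z _ _ => rfl) (fun x => continuous_const) hkιa rt rR hΘ1
  have hbc := core3 (Φ := fun x y => Complex.I * (ag x : ℂ) + y) hg hkcsb hε₁0.le
    (φ := fun z => Complex.I * (ag (θ z) : ℂ) + ext g z * R z) (fun z _ _ => rfl)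
    (fun x => continuous_const.add continuous_id) hkca2 rt rR hΘ1
  -- the function `J`
  set ε₂ : ℝ := min ε₁ (1 / (2 * (Cx + 1))) with hε₂
  have hε₂0 : 0 < ε₂ := lt_min hε₁ (by positivity)
  have hε₂1 : ε₂ ≤ ε₁ := min_le_left _ _
  obtain ⟨J, hJQ, hJ⟩ := core4 hq hid hD hgQ hΘQ (Mem.hinf hD hkιs) hε₂0 (by
    filter_upwards [hbι] with t ht h1
    refine (ht (lt_of_lt_of_le h1 hε₂1)).trans ?_
    have h2 : ‖g t‖ ≤ 1 / (2 * (Cx + 1)) := h1.le.trans (min_le_right _ _)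
    have h3 : ‖g t‖ ^ 2 ≤ (1 / (2 * (Cx + 1))) ^ 2 := pow_le_pow_left₀ (norm_nonneg _) h2 2
    calc Cx * ‖g t‖ ^ 2 ≤ (Cx + 1) ^ 2 * (1 / (2 * (Cx + 1))) ^ 2 := by
          refine mul_le_mul ?_ h3 (by positivity) (by positivity)
          nlinarith
      _ = 1 / 4 := by field_simp; norm_num)
  -- the function `E` and the splitting
  set a : ℝ := ε₂ / 4 with ha
  have ha0 : 0 < a := by positivity
  have hgnz := hnz g hg hg0
  have hKQ : QMem D (fun t => Complex.exp (Complex.I * (J t : ℂ))) :=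
    hq D hD (fun t => (J t : ℂ)) hJQ (fun x => Complex.exp (Complex.I * x)) (by fun_prop)
  have hKiQ : QMem D (fun t => Complex.exp (-(Complex.I * (J t : ℂ)))) :=
    hq D hD (fun t => (J t : ℂ)) hJQ (fun x => Complex.exp (-(Complex.I * x))) (by fun_prop)
  have hgRs : Mem D (fun t => g t * Rs t) := Mem.mul hD (Mem.hinf hD hg) hRsD
  have hE : Mem D (fun t => kcs t - g t * Rs t - Complex.I * (J t : ℂ)) :=
    ((Mem.hinf hD hkcs).sub hgRs).sub (hJQ.1.smul Complex.I)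
  have hC2 : (0 : ℝ) ≤ (5 + MR) * Cx := by positivity
  have hEb : ∀ᵐ t ∂mu, ‖g t‖ < a → ‖kcs t - g t * Rs t - Complex.I * (J t : ℂ)‖ ≤
      ((5 + MR) * Cx) * ‖g t‖ ^ 2 := by
    filter_upwards [hbc] with t ht h1
    have h2 : ‖g t‖ < ε₁ := by
      have : a ≤ ε₂ := by rw [ha]; linarith
      exact lt_of_lt_of_le h1 (this.trans hε₂1)
    rw [hJ t h1.le]
    have h3 := ht h2
    have h4 : kcs t - g t * Rs t - Complex.I * (ag (Θ t) : ℂ) =
        kcs t - (Complex.I * (ag (Θ t) : ℂ) + g t * Rs t) := by ring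
    rw [h4]
    exact h3
  have hρ := core5 hq hD hgQ hE ha0 hC2 hEb
  obtain ⟨h, q, hh, hqQ, hhq⟩ := hC D hD _ hρ
  have hEeq : ∀ᵐ t ∂mu, kcs t - g t * Rs t - Complex.I * (J t : ℂ) = g t * (h t + q t) := by
    filter_upwards [hhq, hgnz] with t h1 h2
    rw [← h1]
    field_simp
  -- the analytic function `O`
  obtain ⟨Mh, hMh0, hMh⟩ := exists_bound hh.1
  have hhz : ∀ z ∈ disc, ‖ext h z‖ ≤ Mh := fun z hz => ext_bound hh hMh (by simpa using hz)
  set P : ℂ → ℂ := fun z => H z + kc z - ext g z * ext h z with hP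
  have hPd : DifferentiableOn ℂ P disc :=
    (hHd.add hkcd2).sub ((ext_diff hg.1).mul (ext_diff hh.1))
  have hghz : ∀ z ∈ disc, ‖ext g z * ext h z‖ ≤ Mh := by
    intro z hz
    rw [norm_mul]
    calc ‖ext g z‖ * ‖ext h z‖ ≤ 1 * Mh :=
          mul_le_mul (hg1z z hz) (hhz z hz) (norm_nonneg _) zero_le_one
      _ = Mh := one_mul _
  have hPb : ∀ z ∈ disc, |(P z).re| ≤ ML + MR + (5 + MR) * Cx + Mh := by
    intro z hz
    have h1 := hHb z hz
    have h2 := (re_abs_le (kc z)).trans (hkcb2 z hz)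
    have h3 := (re_abs_le (ext g z * ext h z)).trans (hghz z hz)
    rw [hP]
    simp only [Complex.sub_re, Complex.add_re]
    rw [abs_le] at h1 h2 h3 ⊢
    constructor <;> linarith [h1.1, h1.2, h2.1, h2.2, h3.1, h3.2]
  have hPup : ∀ z ∈ disc, (P z).re ≤ ML + MR + (5 + MR) * Cx + Mh :=
    fun z hz => (abs_le.1 (hPb z hz)).2
  have hPlo : ∀ z ∈ disc, (-P z).re ≤ ML + MR + (5 + MR) * Cx + Mh := fun z hz => by
    rw [Complex.neg_re]; linarith [(abs_le.1 (hPb z hz)).1]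
  obtain ⟨o, ho, hoe, hob⟩ := bh_rep (bddHol_exp hPd hPup)
  obtain ⟨oi, hoi, hoie, hoib⟩ := bh_rep (bddHol_exp hPd.neg hPlo)
  have hooi : ∀ᵐ t ∂mu, o t * oi t = 1 := by
    filter_upwards [bdry_seq hob rt, bdry_seq hoib rt] with t h1 h2
    refine tendsto_nhds_unique (h1.mul h2) ?_
    refine tendsto_const_nhds.congr (fun n => ?_)
    rw [← Complex.exp_add]; simp
  have ho1 : ∀ᵐ t ∂mu, o t = F1 t * Complex.exp (kcs t - g t * h t) := by
    filter_upwards [bdry_seq hob rt, bdry_seq hF1b rt, bdry_seq hkcsb rt, ext_seq hg rt,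
      ext_seq hh rt] with t b1 b2 b3 b4 b5
    refine tendsto_nhds_unique b1 ?_
    refine (b2.mul ((Complex.continuous_exp.tendsto _).comp (b3.sub (b4.mul b5)))).congr
      (fun n => ?_)
    simp only [Function.comp_apply]
    rw [← Complex.exp_add, hP]
    congr 1
    ring
  have ho2 : ∀ᵐ t ∂mu, o t = (F1 t * Complex.exp (g t * Rs t)) *
      (Complex.exp (Complex.I * (J t : ℂ)) * Complex.exp (g t * q t)) := by
    filter_upwards [ho1, hEeq] with t b1 b2
    rw [b1, mul_assoc, ← Complex.exp_add, ← Complex.exp_add]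
    congr 2
    linear_combination b2
  have hgq : QMem D (fun t => g t * q t) := QMem.mul hD hgQ hqQ
  have hexpQ : QMem D (fun t => Complex.exp (g t * q t)) :=
    hq D hD (fun t => g t * q t) hgq Complex.exp Complex.continuous_exp
  have hexpiQ : QMem D (fun t => Complex.exp (-(g t * q t))) :=
    hq D hD (fun t => g t * q t) hgq (fun x => Complex.exp (-x)) (by fun_prop)
  have hoQ : QMem D o := by
    refine (QMem.mul hD hwQ (QMem.mul hD hKQ hexpQ)).congr ?_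
    filter_upwards [ho2] with t b1
    rw [b1]
  have hoiQ : QMem D oi := by
    refine (QMem.mul hD hwiQ (QMem.mul hD hKiQ hexpiQ)).congr ?_
    filter_upwards [ho2, hooi, hw1] with t b1 b2 b3
    have b4 : Complex.exp (Complex.I * (J t : ℂ)) * Complex.exp (-(Complex.I * (J t : ℂ))) = 1 := by
      rw [← Complex.exp_add]; simp
    have b5 : Complex.exp (g t * q t) * Complex.exp (-(g t * q t)) = 1 := by
      rw [← Complex.exp_add]; simp
    have b6 : o t * ((F1i t * Complex.exp (-(g t * Rs t))) *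
        (Complex.exp (-(Complex.I * (J t : ℂ))) * Complex.exp (-(g t * q t)))) = 1 := by
      rw [b1]
      calc _ = ((F1 t * Complex.exp (g t * Rs t)) * (F1i t * Complex.exp (-(g t * Rs t)))) *
            (Complex.exp (Complex.I * (J t : ℂ)) * Complex.exp (-(Complex.I * (J t : ℂ)))) *
            (Complex.exp (g t * q t) * Complex.exp (-(g t * q t))) := by ring
        _ = 1 := by rw [b3, b4, b5]; norm_num
    have b7 : o t ≠ 0 := left_ne_zero_of_mul_eq_one b2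
    exact mul_left_cancel₀ b7 (b6.trans b2.symm)
  have hon : ∀ᵐ t ∂mu, ‖g t‖ < a → o t = f t * Complex.exp (g t * q t) := by
    filter_upwards [ho2, hΘ0, hw1] with t b1 b2 b3 b4
    have b5 : ‖g t‖ < ε₀ := by
      have : a ≤ ε₂ := by rw [ha]; linarith
      exact lt_of_lt_of_le b4 ((this.trans hε₂1).trans hε₁0.le)
    have b6 : Complex.exp (Complex.I * (J t : ℂ)) = Θ t := by
      rw [hJ t b4.le]
      exact exp_ag (b2 b5).1
    rw [b1, b6, hΘdef]
    calc _ = f t * ((F1 t * Complex.exp (g t * Rs t)) * (F1i t * Complex.exp (-(g t * Rs t)))) *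
          Complex.exp (g t * q t) := by ring
      _ = _ := by rw [b3, mul_one]
  -- the quotient `c`
  set MO : ℝ := Real.exp (ML + MR + (5 + MR) * Cx + Mh) with hMO
  have hOb : ∀ z ∈ disc, ‖Complex.exp (P z)‖ ≤ MO := by
    intro z hz
    rw [Complex.norm_exp]
    exact Real.exp_le_exp.2 (hPup z hz)
  set B : ℝ := (5 + MR) * Cx + Mh with hB
  have hB0 : 0 ≤ B := by positivity
  have hAb : ∀ z ∈ disc, ‖Complex.exp (P z) - ext f z‖ ≤
      (B * Real.exp B + (MO + 1) / ε₁) * ‖ext g z‖ := by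
    intro z hz
    rcases lt_or_ge ‖ext g z‖ ε₁ with h1 | h1
    · have h2 := hkca2 z hz h1
      have h3 := (hth z hz (h1.trans hε₁0))
      set κ' : ℂ := kc z - (Complex.I * (ag (θ z) : ℂ) + ext g z * R z) with hκ'
      have h4 : ext f z = Complex.exp (H z + (Complex.I * (ag (θ z) : ℂ) + ext g z * R z)) := by
        have h5 : H z + (Complex.I * (ag (θ z) : ℂ) + ext g z * R z) =
            Complex.I * (ag (θ z) : ℂ) + (H z + ext g z * R z) := by ring
        rw [h5, Complex.exp_add, exp_ag h3.1]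
        exact h3.2.2
      have h5 : Complex.exp (P z) = ext f z * Complex.exp (κ' - ext g z * ext h z) := by
        rw [h4, ← Complex.exp_add, hP, hκ']
        congr 1
        ring
      have h6 : ‖κ' - ext g z * ext h z‖ ≤ B * ‖ext g z‖ := by
        refine (norm_sub_le _ _).trans ?_
        have h7 : ‖κ'‖ ≤ ((5 + MR) * Cx) * ‖ext g z‖ := by
          refine h2.trans ?_
          refine mul_le_mul_of_nonneg_left ?_ hC2
          have := hg1z z hz
          nlinarith [norm_nonneg (ext g z)]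
        have h8 : ‖ext g z * ext h z‖ ≤ Mh * ‖ext g z‖ := by
          rw [norm_mul, mul_comm]
          exact mul_le_mul_of_nonneg_right (hhz z hz) (norm_nonneg _)
        rw [hB]
        linarith
      have h9 : B * ‖ext g z‖ ≤ B := by
        have := hg1z z hz
        nlinarith
      have h10 : Complex.exp (P z) - ext f z =
          ext f z * (Complex.exp (κ' - ext g z * ext h z) - 1) := by rw [h5]; ring
      rw [h10, norm_mul]
      have h11 := exp_sub_one_le (κ' - ext g z * ext h z)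
      have h12 : Real.exp ‖κ' - ext g z * ext h z‖ ≤ Real.exp B :=
        Real.exp_le_exp.2 (h6.trans h9)
      have h13 : ‖Complex.exp (κ' - ext g z * ext h z) - 1‖ ≤ (B * ‖ext g z‖) * Real.exp B :=
        h11.trans (mul_le_mul h6 h12 (Real.exp_pos _).le (by positivity))
      calc ‖ext f z‖ * ‖Complex.exp (κ' - ext g z * ext h z) - 1‖
          ≤ 1 * ((B * ‖ext g z‖) * Real.exp B) :=
            mul_le_mul (hf1z z hz) h13 (norm_nonneg _) zero_le_one
        _ ≤ _ := by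
            have h14 : 0 ≤ (MO + 1) / ε₁ * ‖ext g z‖ := by positivity
            nlinarith
    · have h2 : ‖Complex.exp (P z) - ext f z‖ ≤ MO + 1 :=
        (norm_sub_le _ _).trans (add_le_add (hOb z hz) (hf1z z hz))
      have h3 : MO + 1 ≤ (MO + 1) / ε₁ * ‖ext g z‖ := by
        rw [div_mul_eq_mul_div, le_div_iff₀ hε₁]
        have : 0 ≤ MO + 1 := by positivity
        exact mul_le_mul_of_nonneg_left h1 this
      have h4 : 0 ≤ B * Real.exp B * ‖ext g z‖ := by positivity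
      linarith
  obtain ⟨qd, hqd, hqdb, hqde⟩ := hdiv (fun z => Complex.exp (P z) - ext f z) (ext g)
    (hPd.cexp.sub (ext_diff hf.1)) (ext_diff hg.1) hg0 _ hAb
  obtain ⟨c, hc, hce, hcb⟩ := bh_rep (G := qd) ⟨hqd, _, hqdb⟩
  have hceq : ∀ᵐ t ∂mu, o t - f t = c t * g t := by
    filter_upwards [bdry_seq hob rt, ext_seq hf rt, bdry_seq hcb rt, ext_seq hg rt]
      with t b1 b2 b3 b4
    refine tendsto_nhds_unique (b1.sub b2) ((b3.mul b4).congr (fun n => ?_))
    exact (hqde _ (rpt_mem (r0 n).le (r1 n) t)).symm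
  have hcQ : QMem D c := core6 hq hD hfQ hgQ hqQ hoQ ha0 hgnz hceq hon
  refine ⟨c, oi, hc, hcQ.2, hoi, hoiQ.2, ?_⟩
  filter_upwards [hceq, hooi] with t b1 b2
  rw [← b2]
  linear_combination (-oi t) * b1

end Pool.Agent.H843
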