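import Pool.Agent.H843.MainE

/-!
The theorem on the circle, from the parts.
-/

set_option autoImplicit false

namespace Pool.Agent.H843

open MeasureTheory Filter Topology Metric Set
open scoped ComplexConjugate ENNReal
open Pool.Agent.Helper34.Dg
open Pool.Agent.H720R2.HP (WD db)

/-- the case `g = 0` and the normalisation -/
theorem mainT (hq : S_qcomp) (he : S_dexp) (hC : S_aak) (hd : S_dbar) (hcr : S_crit)
    (hw : S_wolff) (hx : S_ext) (hdiv : S_divide) (hid : S_idem) (hnz : S_nz) : S_main := by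
  intro D hD f g u v hf hg hu hv hfD hgD hfg
  have hfQ : QMem D f := QMem.of_hinf hD hf hfD
  obtain ⟨Mf, hMf0, hMf⟩ := exists_bound hf.1
  obtain ⟨Mg, hMg0, hMg⟩ := exists_bound hg.1
  obtain ⟨Mu, hMu0, hMu⟩ := exists_bound hu.1
  obtain ⟨Mv, hMv0, hMv⟩ := exists_bound hv.1
  set M : ℝ := 1 + Mf + Mg + Mu + Mv with hM
  have hM1 : 1 ≤ M := by rw [hM]; linarith
  have hM0 : 0 < M := by linarith
  have hz1 : ∀ z ∈ disc, ext u z * ext f z + ext v z * ext g z = 1 := by
    intro z hz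
    have hz' : ‖z‖ < 1 := by simpa using hz
    rw [← ext_mul hu hf hz', ← ext_mul hv hg hz',
      ← ext_add (memLp_integrable (mul_HInf hu hf).1) (memLp_integrable (mul_HInf hv hg).1) hz']
    rw [ext_congr (g := fun _ => (1 : ℂ)) hfg, ext_one]
  have hlow : ∀ z ∈ disc, 1 ≤ M * (‖ext f z‖ + ‖ext g z‖) := by
    intro z hz
    have h1 := hz1 z hz
    have h2 : ‖ext u z‖ ≤ M := (ext_bound hu hMu (by simpa using hz)).trans (by rw [hM]; linarith)
    have h3 : ‖ext v z‖ ≤ M := (ext_bound hv hMv (by simpa using hz)).trans (by rw [hM]; linarith)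
    calc (1 : ℝ) = ‖ext u z * ext f z + ext v z * ext g z‖ := by rw [h1, norm_one]
      _ ≤ ‖ext u z‖ * ‖ext f z‖ + ‖ext v z‖ * ‖ext g z‖ := by
          rw [← norm_mul, ← norm_mul]; exact norm_add_le _ _
      _ ≤ M * ‖ext f z‖ + M * ‖ext g z‖ := by gcongr
      _ = _ := by ring
  by_cases hg0 : ∃ z ∈ disc, ext g z ≠ 0
  · have hMc : (M : ℂ) ≠ 0 := by exact_mod_cast hM0.ne'
    have hf' := smul_HInf hf (M : ℂ)⁻¹
    have hg' := smul_HInf hg (M : ℂ)⁻¹
    have hfD' : Mem D (fun t => conj ((M : ℂ)⁻¹ * f t)) := by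
      refine (hfD.smul (M : ℂ)⁻¹).congr (Eventually.of_forall fun t => ?_)
      simp
    have hgD' : Mem D (fun t => conj ((M : ℂ)⁻¹ * g t)) := by
      refine (hgD.smul (M : ℂ)⁻¹).congr (Eventually.of_forall fun t => ?_)
      simp
    have hn : ‖(M : ℂ)⁻¹‖ = M⁻¹ := by
      rw [norm_inv, Complex.norm_real, Real.norm_of_nonneg hM0.le]
    have hf1 : ∀ᵐ t ∂mu, ‖(M : ℂ)⁻¹ * f t‖ ≤ 1 := by
      filter_upwards [hMf] with t ht
      rw [norm_mul, hn, inv_mul_le_iff₀ hM0, mul_one]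
      exact ht.trans (by rw [hM]; linarith)
    have hg1 : ∀ᵐ t ∂mu, ‖(M : ℂ)⁻¹ * g t‖ ≤ 1 := by
      filter_upwards [hMg] with t ht
      rw [norm_mul, hn, inv_mul_le_iff₀ hM0, mul_one]
      exact ht.trans (by rw [hM]; linarith)
    have hex : ∀ (k : T → ℂ), k ∈ HInf → ∀ z ∈ disc, ext (fun t => (M : ℂ)⁻¹ * k t) z =
        (M : ℂ)⁻¹ * ext k z := fun k hk z hz =>
      ext_smul (memLp_integrable hk.1) _ (by simpa using hz)
    have hδ : ∀ z ∈ disc, (M ^ 2)⁻¹ ≤ ‖ext (fun t => (M : ℂ)⁻¹ * f t) z‖ +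
        ‖ext (fun t => (M : ℂ)⁻¹ * g t) z‖ := by
      intro z hz
      rw [hex f hf z hz, hex g hg z hz, norm_mul, norm_mul, hn]
      have h1 := hlow z hz
      have h2 : (M ^ 2)⁻¹ = M⁻¹ * M⁻¹ := by rw [pow_two, mul_inv]
      rw [h2, ← mul_add]
      refine mul_le_mul_of_nonneg_left ?_ (by positivity)
      rw [inv_le_iff_one_le_mul₀' hM0]
      exact h1
    have hg0' : ∃ z ∈ disc, ext (fun t => (M : ℂ)⁻¹ * g t) z ≠ 0 := by
      obtain ⟨z, hz, hne⟩ := hg0
      refine ⟨z, hz, ?_⟩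
      rw [hex g hg z hz]
      exact mul_ne_zero (inv_ne_zero hMc) hne
    obtain ⟨c, w, hc, hcD, hw', hwD, hcw⟩ := core hq he hC hd hcr hw hx hdiv hid hnz hD hf' hg' hfD'
      hgD' hf1 hg1 (δ := (M ^ 2)⁻¹) (by positivity)
      (inv_le_one_of_one_le₀ (one_le_pow₀ hM1)) hδ hg0'
    refine ⟨c, fun t => (M : ℂ)⁻¹ * w t, hc, hcD, smul_HInf hw' _, ?_, ?_⟩
    · refine (hwD.smul (M : ℂ)⁻¹).congr (Eventually.of_forall fun t => ?_)
      simp
    · filter_upwards [hcw] with t ht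
      linear_combination ht
  · push Not at hg0
    have huf : ∀ᵐ t ∂mu, u t * f t = 1 := by
      filter_upwards [hasBdry_ext hu (fun _ _ => rfl), hasBdry_ext hf (fun _ _ => rfl)] with t h1 h2
      refine tendsto_nhds_unique (h1.mul h2) ?_
      refine tendsto_const_nhds.congr' ?_
      filter_upwards [Ioo_mem_nhdsLT (zero_lt_one' ℝ)] with r hr
      have hz := rpt_mem hr.1.le hr.2 t
      have h3 := hz1 _ hz
      rw [hg0 _ hz, mul_zero, add_zero] at h3
      exact h3.symm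
    have hcont : Continuous (fun x : ℂ => conj x / ((max (‖x‖ ^ 2) (M⁻¹ ^ 2) : ℝ) : ℂ)) := by
      refine Continuous.div Complex.continuous_conj
        (Complex.continuous_ofReal.comp ((continuous_norm.pow 2).max continuous_const)) ?_
      intro x
      have : 0 < max (‖x‖ ^ 2) (M⁻¹ ^ 2) := lt_max_of_lt_right (by positivity)
      exact_mod_cast this.ne'
    have huQ : QMem D u := by
      refine (hq D hD f hfQ (fun x : ℂ => conj x / ((max (‖x‖ ^ 2) (M⁻¹ ^ 2) : ℝ) : ℂ)) hcont).congr ?_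
      filter_upwards [huf, hMu] with t h1 h2
      have h3 : f t ≠ 0 := right_ne_zero_of_mul_eq_one h1
      have h4 : M⁻¹ ≤ ‖f t‖ := by
        rw [inv_le_iff_one_le_mul₀' hM0]
        calc (1 : ℝ) = ‖u t * f t‖ := by rw [h1, norm_one]
          _ = ‖u t‖ * ‖f t‖ := norm_mul _ _
          _ ≤ M * ‖f t‖ := by
              refine mul_le_mul_of_nonneg_right (h2.trans ?_) (norm_nonneg _)
              rw [hM]; linarith
      rw [max_eq_left (pow_le_pow_left₀ (by positivity) h4 2)]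
      have h5 : ((‖f t‖ ^ 2 : ℝ) : ℂ) = f t * conj (f t) := by
        rw [Complex.mul_conj, Complex.normSq_eq_norm_sq]
      rw [h5]
      have h6 : conj (f t) ≠ 0 := by simpa using h3
      field_simp
      linear_combination -h1
    refine ⟨fun _ => 0, u, const_HInf 0, ?_, hu, huQ.2, ?_⟩
    · simpa using Mem.hinf hD (const_HInf 0)
    · filter_upwards [huf] with t ht
      linear_combination ht

end Pool.Agent.H843
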