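import Pool.Agent.H843.Defs

/-!
Statements of the parts of the proof of MP_e1e648_an (positive answer).
-/

set_option autoImplicit false

namespace Pool.Agent.H843

open MeasureTheory Filter Topology Metric Set
open scoped ComplexConjugate ENNReal
open Pool.Agent.Helper34.Dg
open Pool.Agent.H720R2.HP (WD db)

/-- D-calculus 1: continuous functions of elements of `QD`. -/
def S_qcomp : Prop := ∀ D : Submodule ℂ (T →ₘ[mu] ℂ), IsDouglas D → ∀ f : T → ℂ, QMem D f →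
  ∀ φ : ℂ → ℂ, Continuous φ → QMem D (fun t => φ (f t))

/-- D-calculus 2: exponentials and Neumann series in `D`. -/
def S_dexp : Prop := ∀ D : Submodule ℂ (T →ₘ[mu] ℂ), IsDouglas D → ∀ f : T → ℂ, Mem D f →
  Mem D (fun t => Complex.exp (f t)) ∧
  ∀ ρ : ℝ, ρ < 1 → (∀ᵐ t ∂mu, ‖f t - 1‖ ≤ ρ) → Mem D (fun t => (f t)⁻¹)

/-- Step C: the splitting `D = H^∞ + QD`. -/
def S_aak : Prop := ∀ D : Submodule ℂ (T →ₘ[mu] ℂ), IsDouglas D → ∀ d : T → ℂ, Mem D d →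
  ∃ h q : T → ℂ, h ∈ HInf ∧ QMem D q ∧ d =ᵐ[mu] fun t => h t + q t

/-- Telescoping lemma. -/
def S_tele : Prop := ∀ (X : Type) [MeasurableSpace X] (τ : Measure X) [IsFiniteMeasure τ]
  (s : X → ℝ), Measurable s →
  ∫⁻ x, ENNReal.ofReal (Real.exp (-(τ {y | s x ≤ s y}).toReal)) ∂τ ≤ 1

/-- Step A, first half: the kernel solves the `∂̄` equation and is bounded. -/
def S_dbarA : Prop := ∀ (N : ℂ → ℝ) (ν : ℂ → ℂ), Maj N 1 → Measurable ν →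
  (∀ z ∈ disc, ‖ν z‖ ≤ N z) → WD disc (RK N ν) ν ∧ ∀ z ∈ disc, ‖RK N ν z‖ ≤ 20

/-- Step A, second half: boundary values in `L¹`. -/
def S_dbarB : Prop := ∀ (N : ℂ → ℝ) (ν : ℂ → ℂ), Maj N 1 → Measurable ν →
  (∀ z ∈ disc, ‖ν z‖ ≤ N z) → ∃ Rs : T → ℂ, L1b (RK N ν) Rs

/-- Step A. -/
def S_dbar : Prop := ∃ C₀ : ℝ, 0 < C₀ ∧ ∀ κ : ℝ, 0 < κ → ∀ (N : ℂ → ℝ) (ν : ℂ → ℂ), Maj N κ →
  Measurable ν → (∀ z ∈ disc, ‖ν z‖ ≤ N z) →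
  ∃ (R : ℂ → ℂ) (Rs : T → ℂ), WD disc R ν ∧ (∀ z ∈ disc, ‖R z‖ ≤ C₀ * κ) ∧ L1b R Rs

/-- Step O1: energy estimate with exponential weight. -/
def S_energy : Prop := ∀ f H : ℂ → ℂ, DifferentiableOn ℂ f disc → DifferentiableOn ℂ H disc →
  (∀ z ∈ disc, 0 ≤ (H z).re - ‖f z‖ ^ 2) → ∀ η : ℝ, 0 < η → ∀ a ∈ disc,
  ∫⁻ ζ in disc, ENNReal.ofReal (‖deriv f ζ‖ ^ 2 * (1 - ‖ζ‖ ^ 2) * PP a ζ *
    Real.exp (-((H ζ).re - ‖f ζ‖ ^ 2) / η)) ≤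
    ENNReal.ofReal (Real.pi * min η ((H a).re - ‖f a‖ ^ 2))

/-- facts about the oscillation -/
def S_osc : Prop := ∀ f : T → ℂ, f ∈ HInf →
  (∃ H : ℂ → ℂ, DifferentiableOn ℂ H disc ∧
    (∀ z ∈ disc, (H z).re = ∫ t, ‖f t‖ ^ 2 * pk z t ∂mu) ∧
    ∀ z ∈ disc, Osc f z = (H z).re - ‖ext f z‖ ^ 2) ∧
  (∀ z ∈ disc, 0 ≤ Osc f z ∧ (1 - ‖z‖ ^ 2) ^ 2 * ‖deriv (ext f) z‖ ^ 2 ≤ Osc f z) ∧
  (∀ z ∈ disc, ∀ c : ℂ, ∫ t, ‖f t - c‖ ^ 2 * pk z t ∂mu = Osc f z + ‖ext f z - c‖ ^ 2) ∧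
  (∀ z ∈ disc, ∀ z' ∈ disc, ∀ A : ℝ, (∀ t : T, pk z' t ≤ A * pk z t) →
    Osc f z' ≤ A * Osc f z)

/-- Poisson integrals of bounded functions converge in `L¹` to the function. -/
def S_poisson : Prop := ∀ φ : T → ℝ, AEStronglyMeasurable φ mu → (∃ M : ℝ, ∀ᵐ t ∂mu, |φ t| ≤ M) →
  Tendsto (fun r : ℝ => ∫⁻ t, ‖(∫ s, φ s * pk ((r : ℂ) * pt t) s ∂mu) - φ t‖ₑ ∂mu) (𝓝[<] 1) (𝓝 0)

/-- Step B: the criterion for boundary values to be in `D`. -/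
def S_crit : Prop := ∀ D : Submodule ℂ (T →ₘ[mu] ℂ), IsDouglas D → ∀ f : T → ℂ, f ∈ HInf →
  Mem D (fun t => conj (f t)) → (∀ᵐ t ∂mu, ‖f t‖ ≤ 1) →
  ∀ (Y ν : ℂ → ℂ) (Ys : T → ℂ) (N : ℂ → ℝ) (K : ℝ), WD disc Y ν →
  (∃ M : ℝ, ∀ z ∈ disc, ‖Y z‖ ≤ M) → L1b Y Ys → Measurable ν → (∀ z ∈ disc, ‖ν z‖ ≤ N z) →
  Maj N K → (∀ κ : ℝ, 0 < κ → ∃ η : ℝ, 0 < η ∧ Maj (fun z => if Osc f z < η then N z else 0) κ) →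
  Mem D Ys

/-- Step H0: the potential estimate. -/
def S_H0 : Prop := ∀ (n : ℕ) (z : Fin n → ℂ) (r : Fin n → ℝ), (∀ j, 0 < r j) →
  (∀ j, r j ≤ (z j).im / 4) →
  (∀ i j, i ≠ j → Disjoint (Ioo ((z i).re - r i) ((z i).re + r i))
    (Ioo ((z j).re - r j) ((z j).re + r j))) →
  ∀ w ∈ UH, (∀ j, r j ≤ ‖w - z j‖) →
  ∑ j, r j / (z j).im * (Real.log (1 + 4 * w.im * (z j).im / ‖w - z j‖ ^ 2) / 2) ≤ 40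

/-- Step H1: the harmonic measure type estimate. -/
def S_H1 : Prop := ∀ (G : ℂ → ℂ), DifferentiableOn ℂ G UH → (∀ w ∈ UH, ‖G w‖ ≤ 1) →
  ∀ ε : ℝ, 0 < ε → ε < 1 → ∀ (n : ℕ) (z : Fin n → ℂ) (r : Fin n → ℝ), (∀ j, 0 < r j) →
  (∀ j, r j ≤ (z j).im / 4) →
  (∀ i j, i ≠ j → Disjoint (Ioo ((z i).re - r i) ((z i).re + r i))
    (Ioo ((z j).re - r j) ((z j).re + r j))) →
  (∀ j, ∀ w ∈ closedBall (z j) (r j), ‖G w‖ ≤ ε) → ∀ ζ ∈ UH, ε < ‖G ζ‖ →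
  ∑ j, r j / (z j).im * (Real.log (1 + 4 * ζ.im * (z j).im / ‖ζ - z j‖ ^ 2) / 2) ≤
    40 * Real.log (1 / ‖G ζ‖) / Real.log (1 / ε)

/-- Step H. -/
def S_hall : Prop := ∀ δ κ : ℝ, 0 < δ → δ < 1 → 0 < κ → κ ≤ 1 / 2 → ∃ ε : ℝ, 0 < ε ∧ ε < δ ∧
  ∀ G : ℂ → ℂ, DifferentiableOn ℂ G UH → (∀ w ∈ UH, ‖G w‖ ≤ 1) →
  ∀ x y : ℝ, 0 < y → δ ≤ ‖G (x + y * Complex.I)‖ →
  volume {u : ℝ | |u - x| ≤ κ * y ∧ ∃ t : ℝ, 0 < t ∧ t ≤ y ∧ ‖G (u + t * Complex.I)‖ < ε} ≤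
    ENNReal.ofReal (κ * y)

/-- the function `L = Λ(|F|²)`: partial derivatives and bounds. -/
def S_L : Prop := ∀ s₁ : ℝ, 0 < s₁ → s₁ < 1 → ∃ C : ℝ, 0 < C ∧ ∀ F : ℂ → ℂ,
  DifferentiableOn ℂ F UH → (∀ w ∈ UH, ‖F w‖ ≤ 1) →
  ∃ Lx Ly Lxx Lyy : ℂ → ℝ, ContinuousOn Lx UH ∧ ContinuousOn Ly UH ∧ ContinuousOn Lxx UH ∧
    ContinuousOn Lyy UH ∧ ∀ x y : ℝ, 0 < y →
    HasDerivAt (fun u : ℝ => Lam s₁ (‖F (u + y * Complex.I)‖ ^ 2)) (Lx (x + y * Complex.I)) x ∧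
    HasDerivAt (fun v : ℝ => Lam s₁ (‖F (x + v * Complex.I)‖ ^ 2)) (Ly (x + y * Complex.I)) y ∧
    HasDerivAt (fun u : ℝ => Lx (u + y * Complex.I)) (Lxx (x + y * Complex.I)) x ∧
    HasDerivAt (fun v : ℝ => Ly (x + v * Complex.I)) (Lyy (x + y * Complex.I)) y ∧
    Lxx (x + y * Complex.I) + Lyy (x + y * Complex.I) = sig s₁ F (x + y * Complex.I) ∧
    |Lx (x + y * Complex.I)| ≤ C * ‖deriv F (x + y * Complex.I)‖ ∧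
    |Ly (x + y * Complex.I)| ≤ C * ‖deriv F (x + y * Complex.I)‖ ∧
    |Lxx (x + y * Complex.I)| ≤ C * (‖deriv F (x + y * Complex.I)‖ ^ 2 +
      ‖deriv (deriv F) (x + y * Complex.I)‖) ∧
    |Lyy (x + y * Complex.I)| ≤ C * (‖deriv F (x + y * Complex.I)‖ ^ 2 +
      ‖deriv (deriv F) (x + y * Complex.I)‖)

/-- the transport of mass: measurability, bounds, support and the divergence identity -/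
def S_transport : Prop := ∀ (κ : ℝ) (E : Set ℂ) (σ : ℂ → ℝ), 0 < κ → MeasurableSet E →
  ContinuousOn σ UH → Measurable σ → (∀ w ∈ UH, 0 ≤ σ w) →
  (∀ w ∈ UH, σ w ≠ 0 → κ * w.im ≤ eK κ E w.re w.im) →
  Measurable (DK κ E σ) ∧ Measurable (cK κ E σ) ∧ Measurable (avg κ σ) ∧
  (∀ w ∈ UH, 0 ≤ DK κ E σ w ∧ DK κ E σ w ≤ 2 * avg κ σ w ∧
    |cK κ E σ w| ≤ 2 * (κ * w.im) * avg κ σ w) ∧
  (∀ w ∈ UH, DK κ E σ w ≠ 0 → w ∈ E) ∧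
  (∀ w ∈ UH, cK κ E σ w ≠ 0 → ∃ u : ℝ, |u - w.re| ≤ κ * w.im ∧ σ (u + w.im * Complex.I) ≠ 0) ∧
  ∀ y : ℝ, 0 < y → ∀ x₁ x₂ : ℝ, cK κ E σ (x₂ + y * Complex.I) - cK κ E σ (x₁ + y * Complex.I) =
    ∫ x in x₁..x₂, (σ (x + y * Complex.I) - DK κ E σ (x + y * Complex.I))

/-- decay at infinity, locally uniformly at the boundary -/
def Dec (φ : ℂ → ℝ) : Prop := ∀ y₀ : ℝ, 0 < y₀ → ∃ C : ℝ, 0 ≤ C ∧
  ∀ w : ℂ, y₀ ≤ w.im → |φ w| ≤ C / w.im ^ 2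

/-- `V` has the horizontal and vertical derivatives `P`, `Q` in the integrated sense -/
def HasP (V P Q : ℂ → ℂ) : Prop :=
  (∀ y : ℝ, 0 < y → ∀ x₁ x₂ : ℝ, V (x₂ + y * Complex.I) - V (x₁ + y * Complex.I) =
    ∫ x in x₁..x₂, P (x + y * Complex.I)) ∧
  ∀ x y₁ y₂ : ℝ, 0 < y₁ → 0 < y₂ → V (x + y₂ * Complex.I) - V (x + y₁ * Complex.I) =
    ∫ y in y₁..y₂, Q (x + y * Complex.I)

/-- the function `V = L + i W`, `W = ∫_y^∞ (c - L_x) ds` -/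
def S_V : Prop := ∀ (L Lx Ly Lxx Lyy σ c D : ℂ → ℝ), ContinuousOn Lx UH → ContinuousOn Ly UH →
  ContinuousOn Lxx UH → ContinuousOn Lyy UH → Measurable σ → Measurable c → Measurable D →
  (∀ x y : ℝ, 0 < y →
    HasDerivAt (fun u : ℝ => L (u + y * Complex.I)) (Lx (x + y * Complex.I)) x ∧
    HasDerivAt (fun v : ℝ => L (x + v * Complex.I)) (Ly (x + y * Complex.I)) y ∧
    HasDerivAt (fun u : ℝ => Lx (u + y * Complex.I)) (Lxx (x + y * Complex.I)) x ∧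
    HasDerivAt (fun v : ℝ => Ly (x + v * Complex.I)) (Lyy (x + y * Complex.I)) y ∧
    Lxx (x + y * Complex.I) + Lyy (x + y * Complex.I) = σ (x + y * Complex.I)) →
  (∀ y : ℝ, 0 < y → ∀ x₁ x₂ : ℝ, c (x₂ + y * Complex.I) - c (x₁ + y * Complex.I) =
    ∫ x in x₁..x₂, (σ (x + y * Complex.I) - D (x + y * Complex.I))) →
  Dec Lx → Dec Ly → Dec Lxx → Dec Lyy → Dec σ → Dec c → Dec D →
  HasP (fun w => (L w : ℂ) + Complex.I * (vint (fun z => c z - Lx z) w : ℂ))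
    (fun w => (Lx w : ℂ) - Complex.I * ((Ly w : ℂ) + (vint D w : ℂ)))
    (fun w => (Ly w : ℂ) + Complex.I * ((Lx w : ℂ) - (c w : ℂ)))

/-- weak derivative from integrated partial derivatives -/
def S_wdac : Prop := ∀ V P Q : ℂ → ℂ, Measurable P → Measurable Q →
  (∀ K : Set ℂ, IsCompact K → K ⊆ UH → ∃ M : ℝ, ∀ w ∈ K, ‖P w‖ ≤ M ∧ ‖Q w‖ ≤ M) →
  HasP V P Q → WD UH V (fun w => (P w + Complex.I * Q w) / 2)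

/-- change of variables for weak derivatives -/
def S_wdcomp : Prop := ∀ (Ω U : Set ℂ) (ψ V ν : ℂ → ℂ), IsOpen Ω → IsOpen U →
  DifferentiableOn ℂ ψ U → InjOn ψ U → MapsTo ψ U Ω → (∀ w ∈ U, deriv ψ w ≠ 0) → WD Ω V ν →
  WD U (fun w => V (ψ w)) (fun w => conj (deriv ψ w) * ν (ψ w))

/-- transfer from the upper half plane to the disc -/
def S_todisc : Prop := ∀ (V ν : ℂ → ℂ) (v₀ : ℂ), WD UH V ν →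
  (∀ w ∈ UH, V (w + 2 * Real.pi) = V w) → (∀ w ∈ UH, ν (w + 2 * Real.pi) = ν w) →
  (∃ C : ℝ, ∀ w : ℂ, 1 ≤ w.im → ‖V w - v₀‖ ≤ C / w.im) →
  ContinuousOn (fun z => if z = 0 then v₀ else V (lw z)) disc ∧
  ∀ z₀ ∈ disc, z₀ ≠ 0 → ∃ r : ℝ, 0 < r ∧ ball z₀ r ⊆ disc ∧
    WD (ball z₀ r) (fun z => if z = 0 then v₀ else V (lw z))
      (fun z => Complex.I / conj z * ν (lw z))

/-- logarithmic polar coordinates in the disc -/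
def S_polar : Prop := ∀ h : ℂ → ℝ≥0∞, Measurable h →
  ∫⁻ z in disc, h z = ∫⁻ x in Ioo (-Real.pi) Real.pi, ∫⁻ y in Ioi (0 : ℝ),
    h (Complex.exp (Complex.I * (x + y * Complex.I))) * ENNReal.ofReal (Real.exp (-2 * y))

/-- the weighted energy of a density in the coordinate `w` -/
noncomputable def En (σ : ℂ → ℝ) (a : ℂ) : ℝ≥0∞ :=
  ∫⁻ x in Ioo (-Real.pi) Real.pi, ∫⁻ y in Ioi (0 : ℝ),
    ENNReal.ofReal (σ (x + y * Complex.I) * (1 - Real.exp (-2 * y)) * PW a (x + y * Complex.I))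

/-- Lemma M -/
def S_lemM : Prop := ∃ C : ℝ, 0 < C ∧ ∀ τ : ℂ → ℝ, Measurable τ → (∀ w ∈ UH, 0 ≤ τ w) →
  ∀ B : ℝ, 0 ≤ B → (∀ w ∈ UH, τ w * Real.sinh w.im ^ 2 ≤ B) →
  (∀ a ∈ disc, En τ a ≤ ENNReal.ofReal B) → ∀ k : ℝ, 1 ≤ k →
  (∀ w ∈ UH, Real.sinh w.im * ∫ s in Ioi (k * w.im), τ (w.re + s * Complex.I) ≤ B / k) ∧
  ∀ a ∈ disc, ∫⁻ x in Ioo (-Real.pi) Real.pi, ∫⁻ y in Ioi (0 : ℝ),
    ENNReal.ofReal ((∫ s in Ioi (k * y), τ (x + s * Complex.I)) * Real.exp (-y) *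
      PW a (x + y * Complex.I)) ≤ ENNReal.ofReal (C * B / Real.sqrt k)

/-- horizontal averages -/
def S_horiz : Prop := ∀ (κ : ℝ), 0 < κ → κ ≤ 1 / 2 → ∀ σ : ℂ → ℝ, Measurable σ →
  (∀ w ∈ UH, 0 ≤ σ w) → (∀ w ∈ UH, σ (w + 2 * Real.pi) = σ w) →
  (∀ y : ℝ, 0 < y → ∃ M : ℝ, ∀ x : ℝ, σ (x + y * Complex.I) ≤ M) →
  Measurable (avg κ σ) ∧ (∀ w ∈ UH, 0 ≤ avg κ σ w) ∧
  (∀ w ∈ UH, ∀ M : ℝ, (∀ u : ℝ, |u - w.re| ≤ κ * w.im → σ (u + w.im * Complex.I) ≤ M) →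
    avg κ σ w ≤ M) ∧
  ∀ a ∈ disc, En (avg κ σ) a ≤ 4 * En σ a

/-- the majorant -/
def S_majw : Prop := ∀ κ s₁ K : ℝ, 0 < κ → κ ≤ 1 / 2 → 0 < s₁ → s₁ < 1 → 0 < K →
  ∃ C : ℝ, 0 < C ∧ ∀ σ u : ℂ → ℝ, Measurable σ → Measurable u → (∀ w ∈ UH, 0 ≤ σ w) →
  (∀ w ∈ UH, 0 ≤ u w ∧ u w ≤ 1) →
  (∀ w ∈ UH, σ (w + 2 * Real.pi) = σ w) → (∀ w ∈ UH, u (w + 2 * Real.pi) = u w) →
  (∀ w ∈ UH, s₁ * (σ w * Real.sinh w.im ^ 2) ≤ u w) →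
  (∀ η : ℝ, 0 < η → ∀ a ∈ disc, En (fun w => if u w < η then σ w else 0) a ≤
    ENNReal.ofReal (K * η)) →
  (∀ w ∈ UH, ∀ x : ℝ, |x - w.re| ≤ w.im / 2 → u (x + w.im * Complex.I) ≤ 6 * u w) →
  (∀ w ∈ UH, ∀ s : ℝ, w.im ≤ s → u (w.re + s * Complex.I) ≤ 4 * (s / w.im) * u w) →
  Maj (NZ κ σ) C ∧ ∀ κ₁ : ℝ, 0 < κ₁ → ∃ η : ℝ, 0 < η ∧
    Maj (fun z => if u (lw z) < η then NZ κ σ z else 0) κ₁

/-- Harnack type inequalities for the kernels in the coordinate `w` -/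
def S_harnack : Prop :=
  (∀ a ∈ disc, ∀ w ∈ UH, ∀ w' ∈ UH, ‖w' - w‖ ≤ w.im / 2 → PW a w' ≤ 4 * PW a w) ∧
  (∀ w ∈ UH, ∀ x : ℝ, |x - w.re| ≤ w.im / 2 → ∀ t : T,
    pk (Complex.exp (Complex.I * (x + w.im * Complex.I))) t ≤ 6 * pk (Complex.exp (Complex.I * w)) t) ∧
  (∀ w ∈ UH, ∀ s : ℝ, w.im ≤ s → ∀ t : T,
    pk (Complex.exp (Complex.I * (w.re + s * Complex.I))) t ≤
      4 * (s / w.im) * pk (Complex.exp (Complex.I * w)) t)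

/-- Step V: the construction. -/
def S_wolff : Prop := ∀ δ : ℝ, 0 < δ → δ ≤ 1 → ∃ ε C : ℝ, 0 < ε ∧ ε ≤ δ / 4 ∧ 0 < C ∧
  ∀ f g : T → ℂ, f ∈ HInf → g ∈ HInf → (∀ᵐ t ∂mu, ‖f t‖ ≤ 1) → (∀ᵐ t ∂mu, ‖g t‖ ≤ 1) →
  (∀ z ∈ disc, δ ≤ ‖ext f z‖ + ‖ext g z‖) →
  ∃ (v μ : ℂ → ℂ) (N : ℂ → ℝ), ContinuousOn v disc ∧ Measurable μ ∧
    (∀ z₀ ∈ disc, z₀ ≠ 0 → ∃ r : ℝ, 0 < r ∧ ball z₀ r ⊆ disc ∧ WD (ball z₀ r) v μ) ∧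
    (∀ z ∈ disc, (v z).re = Lam ((δ / 4) ^ 2) (‖ext f z‖ ^ 2)) ∧
    (∀ z ∈ disc, ‖ext g z‖ < ε → μ z = 0) ∧ (∀ z ∈ disc, ‖μ z‖ ≤ N z) ∧ Maj N C ∧
    ∀ κ : ℝ, 0 < κ → ∃ η : ℝ, 0 < η ∧ Maj (fun z => if Osc f z < η then N z else 0) κ

/-- Step E: extension of bounded analytic functions from `{|g| < ε}`. -/
def S_ext : Prop := ∀ ε : ℝ, 0 < ε → ε ≤ 1 → ∃ ε' C : ℝ, 0 < ε' ∧ ε' < ε ∧ 0 < C ∧
  ∀ g φ : ℂ → ℂ, DifferentiableOn ℂ g disc → (∀ z ∈ disc, ‖g z‖ ≤ 1) →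
  DifferentiableOn ℂ φ {z | z ∈ disc ∧ ‖g z‖ < ε} →
  (∀ z ∈ disc, ‖g z‖ < ε → ‖φ z‖ ≤ 1) →
  ∃ Φ : ℂ → ℂ, DifferentiableOn ℂ Φ disc ∧ (∀ z ∈ disc, ‖Φ z‖ ≤ C) ∧
    ∀ z ∈ disc, ‖g z‖ < ε' → ‖Φ z - φ z‖ ≤ C * ‖g z‖ ^ 2

/-- the theorem on the circle `ℝ/ℤ` -/
def S_main : Prop := ∀ D : Submodule ℂ (T →ₘ[mu] ℂ), IsDouglas D → ∀ f g u v : T → ℂ,
  f ∈ HInf → g ∈ HInf → u ∈ HInf → v ∈ HInf → Mem D (fun t => conj (f t)) →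
  Mem D (fun t => conj (g t)) → (∀ᵐ t ∂mu, u t * f t + v t * g t = 1) →
  ∃ c w : T → ℂ, c ∈ HInf ∧ Mem D (fun t => conj (c t)) ∧ w ∈ HInf ∧
    Mem D (fun t => conj (w t)) ∧ ∀ᵐ t ∂mu, (f t + c t * g t) * w t = 1

end Pool.Agent.H843
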