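import Pool.Agent.H843.Stmts
import Pool.Agent.H720R2.HP.CutN

/-!
Further statements of parts of the proof of MP_e1e648_an.
-/

set_option autoImplicit false

namespace Pool.Agent.H843

open MeasureTheory Filter Topology Metric Set
open scoped ComplexConjugate ENNReal
open Pool.Agent.Helper34.Dg
open Pool.Agent.H720R2.HP (WD db Nice)

/-- Step E on the upper half plane, for functions analytic across the boundary. -/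
def S_extUH : Prop := ∀ ε : ℝ, 0 < ε → ε ≤ 1 → ∃ ε' C : ℝ, 0 < ε' ∧ ε' < ε ∧ 0 < C ∧
  ∀ (g φ : ℂ → ℂ) (η : ℝ), Nice g η →
  (∃ c : ℂ, Tendsto g (Bornology.cobounded ℂ ⊓ 𝓟 {w : ℂ | 0 ≤ w.im}) (𝓝 c)) →
  DifferentiableOn ℂ φ {w | w ∈ UH ∧ ‖g w‖ < ε} →
  (∀ w ∈ UH, ‖g w‖ < ε → ‖φ w‖ ≤ 1) →
  ∃ Φ : ℂ → ℂ, DifferentiableOn ℂ Φ UH ∧ (∀ w ∈ UH, ‖Φ w‖ ≤ C) ∧
    ∀ w ∈ UH, ‖g w‖ < ε' → ‖Φ w - φ w‖ ≤ C * ‖g w‖ ^ 2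

/-- Division of bounded analytic functions. -/
def S_divide : Prop := ∀ A g : ℂ → ℂ, DifferentiableOn ℂ A disc → DifferentiableOn ℂ g disc →
  (∃ z ∈ disc, g z ≠ 0) → ∀ C : ℝ, (∀ z ∈ disc, ‖A z‖ ≤ C * ‖g z‖) →
  ∃ q : ℂ → ℂ, DifferentiableOn ℂ q disc ∧ (∀ z ∈ disc, ‖q z‖ ≤ C) ∧ ∀ z ∈ disc, A z = q z * g z

/-- Idempotents. -/
def S_idem : Prop := ∀ D : Submodule ℂ (T →ₘ[mu] ℂ), IsDouglas D → ∀ g k : T → ℂ, QMem D g →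
  Mem D k → ∀ ι : T → ℝ, AEStronglyMeasurable ι mu → (∀ᵐ t ∂mu, ι t = 0 ∨ ι t = 1) →
  ∀ ε : ℝ, 0 < ε → (∀ᵐ t ∂mu, ‖g t‖ < ε → ‖k t - (ι t : ℂ)‖ ≤ 1 / 4) →
  ∀ χ : ℝ → ℝ, Continuous χ → (∀ x : ℝ, ε ≤ x → χ x = 0) →
  QMem D (fun t => ((ι t * χ ‖g t‖ : ℝ) : ℂ))

end Pool.Agent.H843
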