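import Pool.Agent.H843.Stmts

/-!
Statements used in the assembly of Step V of the proof of MP_e1e648_an.
-/

set_option autoImplicit false

namespace Pool.Agent.H843

open MeasureTheory Filter Topology Metric Set
open scoped ComplexConjugate ENNReal
open Pool.Agent.Helper34.Dg
open Pool.Agent.H720R2.HP (WD db)

/-- the analytic function in the coordinate `w` -/
noncomputable def FW (f : T → ℂ) (w : ℂ) : ℂ := ext f (Complex.exp (Complex.I * w))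

/-- the oscillation in the coordinate `w` -/
noncomputable def UW (f : T → ℂ) (w : ℂ) : ℝ := Osc f (Complex.exp (Complex.I * w))

/-- facts on `FW` -/
def S_FW : Prop := ∀ f : T → ℂ, f ∈ HInf → (∀ᵐ t ∂mu, ‖f t‖ ≤ 1) →
  DifferentiableOn ℂ (FW f) UH ∧ (∀ w ∈ UH, ‖FW f w‖ ≤ 1) ∧
  (∀ w : ℂ, FW f (w + 2 * Real.pi) = FW f w) ∧
  (∀ w ∈ UH, ‖deriv (FW f) w‖ = Real.exp (-w.im) * ‖deriv (ext f) (Complex.exp (Complex.I * w))‖) ∧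
  (∀ w ∈ UH, 4 * ‖deriv (FW f) w‖ ^ 2 * Real.sinh w.im ^ 2 ≤ UW f w) ∧
  (∀ w ∈ UH, ‖deriv (FW f) w‖ ≤ 1 / w.im) ∧
  (∀ y₀ : ℝ, 0 < y₀ → ∃ C : ℝ, 0 ≤ C ∧ ∀ w : ℂ, y₀ ≤ w.im →
    ‖deriv (FW f) w‖ ≤ C / w.im ^ 2 ∧ ‖deriv (deriv (FW f)) w‖ ≤ C / w.im ^ 2) ∧
  ∃ C : ℝ, 0 ≤ C ∧ ∀ w : ℂ, 1 ≤ w.im → ‖FW f w - ext f 0‖ ≤ C / w.im

/-- facts on `UW` -/
def S_UW : Prop := ∀ f : T → ℂ, f ∈ HInf → (∀ᵐ t ∂mu, ‖f t‖ ≤ 1) →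
  ContinuousOn (UW f) UH ∧ (∀ w ∈ UH, 0 ≤ UW f w ∧ UW f w ≤ 1) ∧
  (∀ w : ℂ, UW f (w + 2 * Real.pi) = UW f w) ∧
  (∀ w ∈ UH, ∀ x : ℝ, |x - w.re| ≤ w.im / 2 → UW f (x + w.im * Complex.I) ≤ 6 * UW f w) ∧
  (∀ w ∈ UH, ∀ s : ℝ, w.im ≤ s → UW f (w.re + s * Complex.I) ≤ 4 * (s / w.im) * UW f w)

/-- the energy bound in the coordinate `w` -/
def S_EnF : Prop := ∀ f : T → ℂ, f ∈ HInf → (∀ᵐ t ∂mu, ‖f t‖ ≤ 1) → ∀ s₁ : ℝ, 0 < s₁ → s₁ < 1 →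
  ∀ η : ℝ, 0 < η → ∀ a ∈ disc,
  En (fun w => if UW f w < η then sig s₁ (FW f) w else 0) a ≤ ENNReal.ofReal (40 / s₁ * η)

/-- the set of points below which the function is not small -/
def Eset (G : ℂ → ℂ) (ε : ℝ) : Set ℂ :=
  {w | w ∈ UH ∧ ∀ t : ℝ, 0 < t → t ≤ w.im → ε ≤ ‖G (w.re + t * Complex.I)‖}

/-- facts on the set `Eset` -/
def S_Eset : Prop := ∀ (G : ℂ → ℂ) (ε κ : ℝ), DifferentiableOn ℂ G UH → 0 < ε → 0 < κ →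
  MeasurableSet (Eset G ε) ∧
  ∀ x y : ℝ, 0 < y →
  volume {u : ℝ | |u - x| ≤ κ * y ∧ ∃ t : ℝ, 0 < t ∧ t ≤ y ∧ ‖G (u + t * Complex.I)‖ < ε} ≤
    ENNReal.ofReal (κ * y) → κ * y ≤ eK κ (Eset G ε) x y

end Pool.Agent.H843
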