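import Pool.Agent.H843.Stmts

set_option autoImplicit false

namespace Pool.Agent.H843

open MeasureTheory Filter Topology Metric Set
open scoped ComplexConjugate ENNReal
open Pool.Agent.Helper34.Dg
open Pool.Agent.H720R2.HP (WD db)

/-- periodicity under all natural multiples -/
private theorem per_nat_ToDisc {V : ℂ → ℂ} (hV : ∀ w ∈ UH, V (w + 2 * Real.pi) = V w) (n : ℕ) :
    ∀ w ∈ UH, V (w + n * (2 * Real.pi)) = V w := by
  induction n with
  | zero => intro w _; simp
  | succ n ih =>
    intro w hw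
    have h1 : w + ((n + 1 : ℕ) : ℂ) * (2 * Real.pi) = (w + n * (2 * Real.pi)) + 2 * Real.pi := by
      push_cast; ring
    have h2 : w + n * (2 * Real.pi) ∈ UH := by
      have h3 : (w + n * (2 * Real.pi)).im = w.im := by
        have : (n * (2 * Real.pi) : ℂ) = ((n * (2 * Real.pi) : ℝ) : ℂ) := by push_cast; ring
        rw [this, Complex.add_im, Complex.ofReal_im, add_zero]
      show 0 < (w + n * (2 * Real.pi)).im
      rw [h3]; exact hw
    rw [h1, hV _ h2, ih w hw]

/-- periodicity under all integer multiples -/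
private theorem per_int_ToDisc {V : ℂ → ℂ} (hV : ∀ w ∈ UH, V (w + 2 * Real.pi) = V w) (n : ℤ) :
    ∀ w ∈ UH, V (w + n * (2 * Real.pi)) = V w := by
  intro w hw
  obtain ⟨m, rfl | rfl⟩ := n.eq_nat_or_neg
  · have := per_nat_ToDisc hV m w hw
    push_cast
    exact this
  · have h2 : w + ((-(m : ℤ) : ℤ) : ℂ) * (2 * Real.pi) ∈ UH := by
      have h3 : (w + ((-(m : ℤ) : ℤ) : ℂ) * (2 * Real.pi)).im = w.im := by
        have : (((-(m : ℤ) : ℤ) : ℂ) * (2 * Real.pi) : ℂ) = ((-(m : ℝ) * (2 * Real.pi) : ℝ) : ℂ) := by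
          push_cast; ring
        rw [this, Complex.add_im, Complex.ofReal_im, add_zero]
      show 0 < (w + ((-(m : ℤ) : ℤ) : ℂ) * (2 * Real.pi)).im
      rw [h3]; exact hw
    have h4 := per_nat_ToDisc hV m _ h2
    rw [← h4]
    congr 1
    push_cast
    ring

private theorem lw_im_ToDisc (z : ℂ) : (lw z).im = -Real.log ‖z‖ := by
  unfold lw
  rw [Complex.mul_im]
  simp [Complex.log_re]

private theorem exp_lw_ToDisc {z : ℂ} (hz : z ≠ 0) : Complex.exp (Complex.I * lw z) = z := by
  unfold lw
  have : Complex.I * (-Complex.I * Complex.log z) = Complex.log z := by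
    have := Complex.I_mul_I
    linear_combination (-Complex.log z) * this
  rw [this, Complex.exp_log hz]

/-- two points with the same exponential differ by a multiple of the period -/
private theorem exp_eq_ToDisc {w w' : ℂ}
    (h : Complex.exp (Complex.I * w) = Complex.exp (Complex.I * w')) :
    ∃ n : ℤ, w = w' + n * (2 * Real.pi) := by
  obtain ⟨n, hn⟩ := Complex.exp_eq_exp_iff_exists_int.1 h
  refine ⟨n, ?_⟩
  have h1 : Complex.I * w = Complex.I * (w' + n * (2 * Real.pi)) := by
    rw [hn]; ring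
  exact mul_left_cancel₀ Complex.I_ne_zero h1

theorem todisc (h : S_wdcomp) : S_todisc := by
  intro V ν v₀ hW hV hν hC
  have key : ∀ z₀ ∈ disc, z₀ ≠ 0 → ∃ r : ℝ, 0 < r ∧ ball z₀ r ⊆ disc ∧
    WD (ball z₀ r) (fun z => if z = 0 then v₀ else V (lw z))
      (fun z => Complex.I / conj z * ν (lw z)) := by
    intro z₀ hz₀ hne
    have hz1 : ‖z₀‖ < 1 := by simpa using hz₀
    have hz0 : 0 < ‖z₀‖ := norm_pos_iff.2 hne
    set r : ℝ := min ‖z₀‖ (1 - ‖z₀‖) / 2 with hr
    have hr0 : 0 < r := by
      rw [hr]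
      have : 0 < min ‖z₀‖ (1 - ‖z₀‖) := lt_min hz0 (by linarith)
      linarith
    have hr1 : r ≤ ‖z₀‖ / 2 := by
      rw [hr]
      have := min_le_left ‖z₀‖ (1 - ‖z₀‖)
      linarith
    have hr2 : r ≤ (1 - ‖z₀‖) / 2 := by
      rw [hr]
      have := min_le_right ‖z₀‖ (1 - ‖z₀‖)
      linarith
    have hsub : ball z₀ r ⊆ disc := by
      intro z hz
      have h1 : ‖z - z₀‖ < r := by simpa [dist_eq_norm] using hz
      have h2 : ‖z‖ ≤ ‖z - z₀‖ + ‖z₀‖ := by
        have := norm_add_le (z - z₀) z₀
        simpa using this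
      have : ‖z‖ < 1 := by linarith
      simpa using this
    have hne' : ∀ z ∈ ball z₀ r, z ≠ 0 := by
      intro z hz h0
      have h1 : ‖z - z₀‖ < r := by simpa [dist_eq_norm] using hz
      rw [h0] at h1
      simp at h1
      linarith
    have hslit : ∀ z ∈ ball z₀ r, z / z₀ ∈ Complex.slitPlane := by
      intro z hz
      have h1 : ‖z - z₀‖ < r := by simpa [dist_eq_norm] using hz
      have h2 : ‖z / z₀ - 1‖ < 1 := by
        have h3 : z / z₀ - 1 = (z - z₀) / z₀ := by field_simp
        rw [h3, norm_div, div_lt_one hz0]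
        linarith
      have h4 := Complex.mem_slitPlane_of_norm_lt_one (z := z / z₀ - 1) h2
      have h5 : 1 + (z / z₀ - 1) = z / z₀ := by ring
      rwa [h5] at h4
    set ψ : ℂ → ℂ := fun z => lw z₀ - Complex.I * Complex.log (z / z₀) with hψ
    have hexp : ∀ z ∈ ball z₀ r, Complex.exp (Complex.I * ψ z) = z := by
      intro z hz
      have h1 : Complex.I * ψ z = Complex.I * lw z₀ + Complex.log (z / z₀) := by
        rw [hψ]
        simp only
        have := Complex.I_mul_I
        linear_combination (-Complex.log (z / z₀)) * this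
      rw [h1, Complex.exp_add, exp_lw_ToDisc hne, Complex.exp_log (div_ne_zero (hne' z hz) hne)]
      field_simp
    have him : ∀ z ∈ ball z₀ r, ψ z ∈ UH := by
      intro z hz
      have h1 : (ψ z).im = -Real.log ‖z‖ := by
        have h2 := congrArg (fun w => Real.log ‖w‖) (hexp z hz)
        simp only [Complex.norm_exp, Real.log_exp] at h2
        rw [← h2, Complex.mul_re]
        simp
      show 0 < (ψ z).im
      rw [h1]
      have h3 : ‖z‖ < 1 := by simpa using hsub hz
      have h4 : 0 < ‖z‖ := norm_pos_iff.2 (hne' z hz)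
      have := Real.log_neg h4 h3
      linarith
    have hder : ∀ z ∈ ball z₀ r, HasDerivAt ψ (-Complex.I / z) z := by
      intro z hz
      have h1 : HasDerivAt (fun z => z / z₀) (1 / z₀) z := (hasDerivAt_id z).div_const z₀
      have h2 := (h1.clog (hslit z hz)).const_mul Complex.I
      have h3 := h2.const_sub (lw z₀)
      refine h3.congr_deriv ?_
      have := hne' z hz
      field_simp
    have hinj : InjOn ψ (ball z₀ r) := by
      intro z hz z' hz' he
      rw [← hexp z hz, ← hexp z' hz', he]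
    have hWD := h UH (ball z₀ r) ψ V ν (isOpen_lt continuous_const Complex.continuous_im)
      isOpen_ball (fun z hz => (hder z hz).differentiableAt.differentiableWithinAt) hinj
      him (fun z hz => by
        rw [(hder z hz).deriv]
        exact div_ne_zero (neg_ne_zero.2 Complex.I_ne_zero) (hne' z hz)) hW
    refine ⟨r, hr0, hsub, hWD.congr isOpen_ball ?_ ?_⟩
    · intro z hz
      rw [if_neg (hne' z hz)]
      obtain ⟨n, hn⟩ := exp_eq_ToDisc ((exp_lw_ToDisc (hne' z hz)).trans (hexp z hz).symm)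
      rw [hn, per_int_ToDisc hV n _ (him z hz)]
    · intro z hz
      obtain ⟨n, hn⟩ := exp_eq_ToDisc ((exp_lw_ToDisc (hne' z hz)).trans (hexp z hz).symm)
      rw [hn, per_int_ToDisc hν n _ (him z hz), (hder z hz).deriv]
      simp
  refine ⟨?_, key⟩
  intro z₀ hz₀
  by_cases hne : z₀ = 0
  · subst hne
    refine ContinuousAt.continuousWithinAt ?_
    rw [continuousAt_iff_punctured_nhds]
    simp only [if_true]
    obtain ⟨C, hC⟩ := hC
    rw [tendsto_iff_norm_sub_tendsto_zero]
    have hlog : Tendsto (fun z : ℂ => -Real.log ‖z‖) (𝓝[≠] 0) atTop := by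
      have h1 := Real.tendsto_log_nhdsGT_zero.comp (tendsto_norm_nhdsNE_zero (E := ℂ))
      exact tendsto_neg_atBot_atTop.comp h1
    have hlim : Tendsto (fun z : ℂ => C / (-Real.log ‖z‖)) (𝓝[≠] 0) (𝓝 0) :=
      hlog.const_div_atTop C
    refine squeeze_zero' (Eventually.of_forall fun z => norm_nonneg _) ?_ hlim
    filter_upwards [hlog.eventually_ge_atTop 1, self_mem_nhdsWithin] with z h1 h2
    have h2' : z ≠ 0 := h2
    rw [if_neg h2']
    have := hC (lw z) (by rw [lw_im_ToDisc]; exact h1)
    rwa [lw_im_ToDisc] at this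
  · obtain ⟨r, hr, hsub, hWD⟩ := key z₀ hz₀ hne
    exact (hWD.cont.continuousAt (ball_mem_nhds z₀ hr)).continuousWithinAt

end Pool.Agent.H843
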